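import Pool.Agent.Lib.TU.Basic

/-!
# TU2 / Base: Cauchy-Schwarz for a mean, comparison of functions that agree from some point on, definitions
-/

set_option autoImplicit false

open Finset

namespace Pool.Agent.Lib.TU2

open Pool.Agent.Lib.TU

/-- the number of solutions of `p₁ + p₂ = p₃ + p₄` in `G` -/
def addE (G : Finset ℕ) : ℕ :=
  (((G ×ˢ G) ×ˢ (G ×ˢ G)).filter fun x => x.1.1 + x.1.2 = x.2.1 + x.2.2).card

/-- the local correlation of `λ(n)` and `λ(n + d a)` along `n, n + d, ..., n + (B-1) d` -/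
noncomputable def rr (d a B : ℕ) (n : ℤ) : ℝ :=
  (∑ b ∈ range B, lam (n + d * b) * lam (n + d * b + d * a)) / B

theorem cs {L : (ℤ → ℝ) →ₗ[ℝ] ℝ} (hL : IsMean L) {f g : ℤ → ℝ} (hf : Bd f) (hg : Bd g) :
    L (fun n => f n * g n) ^ 2 ≤ L (fun n => f n ^ 2) * L (fun n => g n ^ 2) := by
  have hff : Bd (fun n => f n ^ 2) := by simpa [pow_two] using hf.mul hf
  have hgg : Bd (fun n => g n ^ 2) := by simpa [pow_two] using hg.mul hg
  have key : ∀ t : ℝ, 0 ≤ L (fun n => g n ^ 2) * (t * t) + (-2 * L (fun n => f n * g n)) * t + L (fun n => f n ^ 2) := by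
    intro t
    have h1 : 0 ≤ L (fun n => (f n - t * g n) ^ 2) := by
      refine hL.nonneg _ ?_ fun n => sq_nonneg _
      have h2 : Bd (fun n => f n - t * g n) := hf.sub ((Bd.const t).mul hg)
      simpa [pow_two] using h2.mul h2
    have h2 : (fun n => (f n - t * g n) ^ 2) = fun n => (f n ^ 2 + (-2 * t) * (f n * g n)) + (t * t) * g n ^ 2 := by
      ext n; ring
    rw [h2, L_add, L_add, L_mul, L_mul] at h1
    linarith
  have h3 := discrim_le_zero key
  rw [discrim] at h3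
  nlinarith

theorem L_eq_of_ge {L : (ℤ → ℝ) →ₗ[ℝ] ℝ} (hL : IsMean L) {f g : ℤ → ℝ} (hf : Bd f) (hg : Bd g) (N : ℕ)
    (h : ∀ n : ℤ, (N : ℤ) < n → f n = g n) : L f = L g := by
  have h1 := hL.dyad (fun n => |f n - g n|) 0 N (Bd.abs (hf.sub hg)) (fun n => abs_nonneg _) (fun X hX => by
    rw [zero_mul]
    refine le_of_eq (sum_eq_zero fun n hn => ?_)
    rw [mem_Ioc] at hn
    rw [h n (by exact_mod_cast lt_of_le_of_lt hX hn.1), sub_self, abs_zero])
  have h2 := hL.abs_le_abs (f := fun n => f n - g n) (hf.sub hg)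
  rw [L_sub] at h2
  have h3 : |L f - L g| ≤ 0 := h2.trans (by simpa using h1)
  have h4 := abs_nonpos_iff.mp h3
  linarith

end Pool.Agent.Lib.TU2
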