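import Pool.Agent.Lib.TU2.Gen

/-!
# TU2 / CrossG (row XG, about 110 lines): the shift trick for a general sequence

STATEMENT: below, verbatim.

PROOF (the same as row PA, Para.lean, with `f` in place of `λ`, two different sides, two-sided bound). `F n = f(n) f(n + d a)`, `E n = f(n) f(n + d c)`, `γ b = L (F(n) E(n + d b))` (the product in the statement).
`A n = (1/B) ∑_{k<B} E(n + d k) = lc f d c B n`, `A' n = (1/M) ∑_{k<M} F(n + d k) = lc f d a M n`.
For every `k < M`, `shiftz` by `d k`: `γ b = L (F(n + d k) E(n + d (k + b)))`. So `∑_{b=1}^B γ b = (1/M) ∑_{k<M} L (F(n + d k) ∑_{b=1}^B E(n + d (k + b)))`.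
`|∑_{b=1}^B E(n + d(k+b)) - B A(n)| ≤ 2 (k + 1) ≤ 2 M` (the index sets `[k+1, k+B]` and `[0, B-1]` differ by at most `2 (k+1)` elements, `|E| ≤ 1`; see `X5_window` in `Pool/Agent/Lib/MP_f6c41f_nt/X5.lean`).
Hence `|∑_b γ b - B L (A' A)| ≤ 2 M`, and `|A' A| ≤ (A'² + A²)/2`, so `|L (A' A)| ≤ (L (A'²) + L (A²))/2`.
-/

set_option autoImplicit false

open Finset

namespace Pool.Agent.Lib.TU2

open Pool.Agent.Lib.TU

private theorem xg_abs (v : ℕ → ℝ) (hv : ∀ n, |v n| ≤ 1) (a : ℕ) : |∑ n ∈ range a, v n| ≤ a := by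
  refine (abs_sum_le_sum_abs _ _).trans ((sum_le_sum fun n _ => hv n).trans ?_)
  simp

private theorem xg_window (u : ℕ → ℝ) (hu : ∀ n, |u n| ≤ 1) (a B : ℕ) :
    |∑ b ∈ range B, u (a + b) - ∑ b ∈ range B, u b| ≤ 2 * a := by
  have h1 := sum_range_add u B a
  have h2 := sum_range_add u a B
  rw [add_comm a B] at h2
  have e : ∑ b ∈ range B, u (a + b) - ∑ b ∈ range B, u b = ∑ b ∈ range a, u (B + b) - ∑ b ∈ range a, u b := by
    linarith
  rw [e]
  have b1 := xg_abs u hu a
  have b2 := xg_abs (fun b => u (B + b)) (fun _ => hu _) a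
  have b3 := abs_sub (∑ b ∈ range a, u (B + b)) (∑ b ∈ range a, u b)
  linarith

private theorem xg_bd (f : ℤ → ℝ) (hf : ∀ n, |f n| ≤ 1) (d a : ℕ) : ∀ n : ℤ, |f n * f (n + d * a)| ≤ 1 := by
  intro n
  rw [abs_mul]
  exact mul_le_one₀ (hf _) (abs_nonneg _) (hf _)

private theorem xg_lc (f : ℤ → ℝ) (hf : ∀ n, |f n| ≤ 1) (d a B : ℕ) : Bd (fun n => lc f d a B n) := by
  have h0 : Bd fun n : ℤ => f n * f (n + d * a) := ⟨1, xg_bd f hf d a⟩
  have h := (Bd.const (1 / (B : ℝ))).mul (Bd.sum (range B) fun b _ => h0.comp fun n => n + d * b)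
  refine h.of_le fun n => le_of_eq ?_
  congr 1
  unfold lc
  ring

theorem cross_gen {L : (ℤ → ℝ) →ₗ[ℝ] ℝ} (hL : IsMean L) (f : ℤ → ℝ) (hf : ∀ n, |f n| ≤ 1)
    (d a c M B : ℕ) (hM : 0 < M) (hMB : M ≤ B) :
    |∑ b ∈ Icc 1 B, L (fun n => f n * f (n + d * a) * (f (n + d * b) * f (n + d * b + d * c)))| ≤
      B * ((L (fun n => lc f d a M n ^ 2) + L (fun n => lc f d c B n ^ 2)) / 2) + 2 * M := by
  have hB : 0 < B := lt_of_lt_of_le hM hMB
  have hM' : (0 : ℝ) < M := by exact_mod_cast hM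
  have hB' : (0 : ℝ) < B := by exact_mod_cast hB
  set F : ℤ → ℝ := fun n => f n * f (n + d * a) with hF
  set E : ℤ → ℝ := fun n => f n * f (n + d * c) with hE
  have hF1 : ∀ n, |F n| ≤ 1 := xg_bd f hf d a
  have hE1 : ∀ n, |E n| ≤ 1 := xg_bd f hf d c
  have hFb : Bd F := ⟨1, hF1⟩
  have hEb : Bd E := ⟨1, hE1⟩
  set S : ℤ → ℝ := fun n => ∑ b ∈ range B, E (n + d * b) with hS
  have hSb : Bd S := Bd.sum _ fun b _ => hEb.comp fun n => n + d * b
  have hk : ∀ k ∈ range M, |∑ b ∈ Icc 1 B, L (fun n => F n * E (n + d * b)) - L (fun n => F (n + d * k) * S n)| ≤ 2 * M := by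
    intro k hk
    rw [mem_range] at hk
    have h1 : ∀ b ∈ Icc 1 B, L (fun n => F n * E (n + d * b)) = L (fun n => F (n + d * k) * E (n + d * k + d * b)) := by
      intro b _
      exact (hL.shiftz (hFb.mul (hEb.comp fun n => n + d * b)) (d * k)).symm
    rw [sum_congr rfl h1, ← L_sum, ← L_sub]
    refine hL.abs_le fun n => ?_
    rw [← mul_sum, ← mul_sub]
    have h3 : ∑ b ∈ Icc 1 B, E (n + d * k + d * b) = ∑ b ∈ range B, (fun m : ℕ => E (n + d * m)) (k + 1 + b) := by
      have h4 : Icc 1 B = Ico 1 (B + 1) := by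
        ext x
        rw [mem_Icc, mem_Ico]
        omega
      rw [h4, sum_Ico_eq_sum_range, show B + 1 - 1 = B by omega]
      refine sum_congr rfl fun b _ => ?_
      simp only
      congr 1
      push_cast
      ring
    have h5 := xg_window (fun m : ℕ => E (n + d * m)) (fun _ => hE1 _) (k + 1) B
    rw [← h3] at h5
    have h6 : (((k + 1 : ℕ) : ℝ)) ≤ M := by exact_mod_cast hk
    have h9 : |∑ b ∈ Icc 1 B, E (n + d * k + d * b) - S n| ≤ 2 * M := by
      refine h5.trans ?_
      linarith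
    rw [abs_mul]
    calc |F (n + d * k)| * |∑ b ∈ Icc 1 B, E (n + d * k + d * b) - S n| ≤ 1 * (2 * M) := by
          have := hF1 (n + d * k)
          gcongr
      _ = 2 * M := one_mul _
  set G : ℝ := ∑ b ∈ Icc 1 B, L (fun n => F n * E (n + d * b)) with hG
  have hsum : |(M : ℝ) * G - L (fun n => ∑ k ∈ range M, F (n + d * k) * S n)| ≤ M * (2 * M) := by
    have h1 : (M : ℝ) * G - L (fun n => ∑ k ∈ range M, F (n + d * k) * S n) =
        ∑ k ∈ range M, (G - L (fun n => F (n + d * k) * S n)) := by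
      rw [sum_sub_distrib, sum_const, card_range, nsmul_eq_mul, L_sum (range M) (fun k n => F (n + d * k) * S n)]
    rw [h1]
    refine (abs_sum_le_sum_abs _ _).trans ((sum_le_sum hk).trans (le_of_eq ?_))
    rw [sum_const, card_range, nsmul_eq_mul]
  have hTS : (fun n => ∑ k ∈ range M, F (n + d * k) * S n) = fun n => (M * B : ℝ) * (lc f d a M n * lc f d c B n) := by
    ext n
    rw [← sum_mul]
    unfold lc
    rw [hS]
    field_simp
    rfl
  rw [hTS, L_mul] at hsum
  have hbA : Bd (fun n => lc f d a M n) := xg_lc f hf d a M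
  have hbC : Bd (fun n => lc f d c B n) := xg_lc f hf d c B
  have hbA2 : Bd (fun n => lc f d a M n ^ 2) := by simpa [pow_two] using hbA.mul hbA
  have hbC2 : Bd (fun n => lc f d c B n ^ 2) := by simpa [pow_two] using hbC.mul hbC
  have hbAC : Bd (fun n => lc f d a M n * lc f d c B n) := hbA.mul hbC
  have hle : |L (fun n => lc f d a M n * lc f d c B n)| ≤
      (L (fun n => lc f d a M n ^ 2) + L (fun n => lc f d c B n ^ 2)) / 2 := by
    have hp : 0 ≤ L (fun n => (lc f d a M n + lc f d c B n) ^ 2) := by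
      refine hL.nonneg _ ?_ fun n => sq_nonneg _
      simpa [pow_two] using (hbA.add hbC).mul (hbA.add hbC)
    have hm : 0 ≤ L (fun n => (lc f d a M n - lc f d c B n) ^ 2) := by
      refine hL.nonneg _ ?_ fun n => sq_nonneg _
      simpa [pow_two] using (hbA.sub hbC).mul (hbA.sub hbC)
    have ep : L (fun n => (lc f d a M n + lc f d c B n) ^ 2) =
        L (fun n => lc f d a M n ^ 2) + 2 * L (fun n => lc f d a M n * lc f d c B n) + L (fun n => lc f d c B n ^ 2) := by
      rw [← L_mul 2, ← L_add, ← L_add]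
      congr 1
      ext n
      ring
    have em : L (fun n => (lc f d a M n - lc f d c B n) ^ 2) =
        L (fun n => lc f d a M n ^ 2) - 2 * L (fun n => lc f d a M n * lc f d c B n) + L (fun n => lc f d c B n ^ 2) := by
      rw [← L_mul 2, ← L_sub, ← L_add]
      congr 1
      ext n
      ring
    rw [abs_le]
    constructor <;> linarith
  have hfin : (M : ℝ) * |G| ≤ M * (B * ((L (fun n => lc f d a M n ^ 2) + L (fun n => lc f d c B n ^ 2)) / 2) + 2 * M) := by
    have h1 : |(M : ℝ) * G| ≤ |(M : ℝ) * G - M * B * L (fun n => lc f d a M n * lc f d c B n)| +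
        |(M : ℝ) * B * L (fun n => lc f d a M n * lc f d c B n)| := by
      have := abs_add_le ((M : ℝ) * G - M * B * L (fun n => lc f d a M n * lc f d c B n)) (M * B * L (fun n => lc f d a M n * lc f d c B n))
      rwa [sub_add_cancel] at this
    have h2 : |(M : ℝ) * B * L (fun n => lc f d a M n * lc f d c B n)| ≤
        M * B * ((L (fun n => lc f d a M n ^ 2) + L (fun n => lc f d c B n ^ 2)) / 2) := by
      rw [abs_mul, abs_of_pos (mul_pos hM' hB')]
      gcongr
    rw [abs_mul, abs_of_pos hM'] at h1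
    linarith
  exact le_of_mul_le_mul_left hfin hM'

end Pool.Agent.Lib.TU2
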