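import Pool.Agent.Lib.TU2.Gen

/-!
# TU2 / StepG (row SG, about 120 lines): the doubling inequality for a general sequence of signs

STATEMENTS: below, verbatim. (`lc f d a B n = (1/B) ∑_{b<B} f(n+db) f(n+db+da)`, in Gen.lean.)

PROOF of `step_gen` (the same as `third_step` of row TH, with `f` in place of `λ`). (1) For `n ≥ 1` all values `f(n + ..)` are `1` or `-1`. `u b = f(n+db) f(n+d(b+a))`; `u b * u (b+a) = f(n+db) f(n+db+2da)`. For signs `u, v`: `|u + v| ≤ 1 + u v`. Sum over `b < B`: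
`|∑_{b<B} u b + ∑_{b<B} u (b+a)| ≤ B (1 + lc f d (2a) B n)`, and `|∑_{b<B} u b - ∑_{b<B} u (b+a)| ≤ 2 a` (see `X5_window`, `X5_double` in `Pool/Agent/Lib/MP_f6c41f_nt/X5.lean`, which may be imported).
So `2 |r_a| ≤ 1 + r_{2a} + 2a/B` for `n ≥ 1`, where `r_a = lc f d a B n`, `|r_a| ≤ 1`.
(2) Squaring, if `a ≤ B`: `4 r_a² ≤ (1 + r_{2a})² + 4 (a/B) (1 + r_{2a}) + 4 a²/B² ≤ 1 + 2 r_{2a} + r_{2a}² + 12 a/B`. If `a > B`: `4 r_a² ≤ 4 ≤ 12 a/B + (1 + r_{2a})²`.
(3) Apply `L`: the inequality holds for `n ≥ 1`; replace both sides by functions equal for `n ≥ 1` and ordered everywhere (`if 0 < n`, `L_eq_of_ge hL .. 0`), then `IsMean.mono`.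
`L (fun n => lc f d (2a) B n) = L (fun n => f n * f (n + d * (2a)))`: `L_sum`, each term is a shift (`shiftz` by `d b`); divide by `B`.

PROOF of `iter_gen`. Induction on `m` with the sharper claim for all `a`: `L (lc f d a B ²) ≤ ∑_{i<m} (1 + 2 c(2^{i+1} a))/4^{i+1} + 4^{-m} + 6 a (1 - 2^{-m})/B`, `c(a) = L (f(n) f(n + d a))` (start `m = 0`: `≤ 1`; step: `step_gen` and the claim for `2a`, divided by 4:
`(1 + 2c(2a))/4 + ∑_{i<m} (1 + 2 c(2^{i+2} a))/4^{i+2} + 4^{-(m+1)} + 3 a (1 - 2^{-m})/B + 3 a/B`, `sum_range_succ'`).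
-/

set_option autoImplicit false

open Finset

namespace Pool.Agent.Lib.TU2

open Pool.Agent.Lib.TU

private theorem SG_window (u : ℕ → ℝ) (hu : ∀ n, |u n| ≤ 1) (a B : ℕ) :
    |∑ b ∈ range B, u b - ∑ b ∈ range B, u (b + a)| ≤ 2 * a := by
  have h1 : ∑ b ∈ range (B + a), u b = ∑ b ∈ range B, u b + ∑ b ∈ range a, u (B + b) :=
    Finset.sum_range_add u B a
  have h2 : ∑ b ∈ range (a + B), u b = ∑ b ∈ range a, u b + ∑ b ∈ range B, u (a + b) :=
    Finset.sum_range_add u a B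
  have h3 : ∑ b ∈ range B, u (a + b) = ∑ b ∈ range B, u (b + a) :=
    Finset.sum_congr rfl fun b _ => by rw [add_comm]
  rw [add_comm a B] at h2
  have e : ∑ b ∈ range B, u b - ∑ b ∈ range B, u (b + a) = ∑ b ∈ range a, u b - ∑ b ∈ range a, u (B + b) := by
    linarith
  rw [e]
  have b : ∀ v : ℕ → ℝ, (∀ n, |v n| ≤ 1) → |∑ n ∈ range a, v n| ≤ a := by
    intro v hv
    refine (Finset.abs_sum_le_sum_abs _ _).trans ((Finset.sum_le_sum fun n _ => hv n).trans ?_)
    simp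
  have b1 := b u hu
  have b2 := b (fun b => u (B + b)) fun _ => hu _
  have b3 := abs_sub (∑ b ∈ range a, u b) (∑ b ∈ range a, u (B + b))
  linarith

private theorem SG_double (v : ℕ → ℝ) (hv : ∀ m, v m = 1 ∨ v m = -1) (a B : ℕ) :
    2 * |∑ b ∈ range B, v b * v (b + a)| ≤ B + ∑ b ∈ range B, v b * v (b + 2 * a) + 2 * a := by
  have habs : ∀ m m' : ℕ, |v m * v m'| ≤ 1 := by
    intro m m'
    rcases hv m with h | h <;> rcases hv m' with h' | h' <;> rw [h, h'] <;> norm_num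
  have h1 : |∑ b ∈ range B, v b * v (b + a) - ∑ b ∈ range B, v (b + a) * v (b + a + a)| ≤ 2 * a :=
    SG_window (fun m => v m * v (m + a)) (fun m => habs _ _) a B
  have h2 : |∑ b ∈ range B, v b * v (b + a) + ∑ b ∈ range B, v (b + a) * v (b + a + a)| ≤
      B + ∑ b ∈ range B, v b * v (b + 2 * a) := by
    rw [← Finset.sum_add_distrib]
    refine (Finset.abs_sum_le_sum_abs _ _).trans ?_
    have e : (B : ℝ) + ∑ b ∈ range B, v b * v (b + 2 * a) = ∑ b ∈ range B, (1 + v b * v (b + 2 * a)) := by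
      rw [Finset.sum_add_distrib]
      simp
    rw [e]
    refine Finset.sum_le_sum fun b _ => ?_
    have e2 : b + 2 * a = b + a + a := by ring
    rw [e2]
    rcases hv b with h | h <;> rcases hv (b + a) with h' | h' <;> rcases hv (b + a + a) with h'' | h'' <;>
      rw [h, h', h''] <;> norm_num
  have h3 := abs_add_le (∑ b ∈ range B, v b * v (b + a) + ∑ b ∈ range B, v (b + a) * v (b + a + a))
    (∑ b ∈ range B, v b * v (b + a) - ∑ b ∈ range B, v (b + a) * v (b + a + a))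
  have h4 : (∑ b ∈ range B, v b * v (b + a) + ∑ b ∈ range B, v (b + a) * v (b + a + a)) +
      (∑ b ∈ range B, v b * v (b + a) - ∑ b ∈ range B, v (b + a) * v (b + a + a)) = 2 * ∑ b ∈ range B, v b * v (b + a) := by
    ring
  rw [h4, abs_mul, abs_two] at h3
  linarith

private theorem SG_lc_le (f : ℤ → ℝ) (hf : ∀ n, |f n| ≤ 1) (d a B : ℕ) (n : ℤ) (hB : 0 < B) : |lc f d a B n| ≤ 1 := by
  have hB' : (0 : ℝ) < B := by exact_mod_cast hB
  unfold lc
  rw [abs_div, abs_of_pos hB', div_le_one hB']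
  have h : ∀ b ∈ range B, |f (n + d * b) * f (n + d * b + d * a)| ≤ 1 := by
    intro b _
    rw [abs_mul]
    exact mul_le_one₀ (hf _) (abs_nonneg _) (hf _)
  refine (Finset.abs_sum_le_sum_abs _ _).trans ((Finset.sum_le_sum h).trans (le_of_eq ?_))
  simp

private theorem SG_point (f : ℤ → ℝ) (hf : ∀ n, |f n| ≤ 1) (hf1 : ∀ n : ℤ, 0 < n → f n = 1 ∨ f n = -1)
    (d a B : ℕ) (n : ℤ) (hn : 0 < n) (hB : 0 < B) :
    4 * lc f d a B n ^ 2 ≤ 1 + 2 * lc f d (2 * a) B n + lc f d (2 * a) B n ^ 2 + 12 * a / B := by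
  have hB' : (0 : ℝ) < B := by exact_mod_cast hB
  have e : ∀ a' : ℕ, lc f d a' B n = (∑ b ∈ range B, (fun m : ℕ => f (n + d * m)) b * (fun m : ℕ => f (n + d * m)) (b + a')) / B := by
    intro a'
    unfold lc
    congr 1
    refine Finset.sum_congr rfl fun b _ => ?_
    congr 2
    push_cast
    ring
  have h1 := SG_double (fun m : ℕ => f (n + d * m)) (fun m => hf1 _ (by positivity)) a B
  have h2 : 2 * |lc f d a B n| ≤ 1 + lc f d (2 * a) B n + 2 * (a / B) := by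
    rw [e a, e (2 * a), abs_div, abs_of_pos hB']
    have h3 := div_le_div_of_nonneg_right h1 hB'.le
    rw [add_div, add_div, div_self hB'.ne'] at h3
    calc 2 * (|∑ b ∈ range B, (fun m : ℕ => f (n + d * m)) b * (fun m : ℕ => f (n + d * m)) (b + a)| / B)
        = 2 * |∑ b ∈ range B, (fun m : ℕ => f (n + d * m)) b * (fun m : ℕ => f (n + d * m)) (b + a)| / B := by ring
      _ ≤ _ := h3
      _ = _ := by ring
  have h3 := SG_lc_le f hf d a B n hB
  have h4 := SG_lc_le f hf d (2 * a) B n hB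
  have ht : (0 : ℝ) ≤ a / B := by positivity
  have e12 : (12 : ℝ) * a / B = 12 * (a / B) := by ring
  rw [e12]
  set x := |lc f d a B n| with hx
  set y := lc f d (2 * a) B n with hy
  set t : ℝ := (a : ℝ) / B with htdef
  have hx2 : lc f d a B n ^ 2 = x ^ 2 := by rw [hx, sq_abs]
  have hx0 : 0 ≤ x := abs_nonneg _
  rw [hx2]
  rw [abs_le] at h4
  rcases le_or_gt t 1 with h5 | h5
  · have h6 : (2 * x) ^ 2 ≤ (1 + y + 2 * t) ^ 2 := pow_le_pow_left₀ (by linarith) h2 2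
    have h7 : t * t ≤ t := mul_le_of_le_one_left ht h5
    have h8 : t * (1 + y) ≤ t * 2 := mul_le_mul_of_nonneg_left (by linarith) ht
    nlinarith
  · have h6 : x ^ 2 ≤ 1 := pow_le_one₀ hx0 h3
    nlinarith [sq_nonneg (1 + y)]

private theorem SG_bd (f : ℤ → ℝ) (hf : ∀ n, |f n| ≤ 1) (d a B : ℕ) (hB : 0 < B) : Bd (fun n => lc f d a B n) :=
  ⟨1, fun n => SG_lc_le f hf d a B n hB⟩

private theorem SG_bd2 (f : ℤ → ℝ) (hf : ∀ n, |f n| ≤ 1) (d a B : ℕ) (hB : 0 < B) : Bd (fun n => lc f d a B n ^ 2) := by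
  simpa [pow_two] using (SG_bd f hf d a B hB).mul (SG_bd f hf d a B hB)

private theorem SG_mean {L : (ℤ → ℝ) →ₗ[ℝ] ℝ} (hL : IsMean L) (f : ℤ → ℝ) (hf : ∀ n, |f n| ≤ 1) (d a B : ℕ) (hB : 0 < B) :
    L (fun n => lc f d a B n) = L (fun n => f n * f (n + d * (a : ℕ))) := by
  have hB' : (0 : ℝ) < B := by exact_mod_cast hB
  have hbf : Bd f := ⟨1, hf⟩
  have e : (fun n => lc f d a B n) = fun n => (1 / (B : ℝ)) * ∑ b ∈ range B, f (n + d * b) * f (n + d * b + d * a) := by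
    ext n
    unfold lc
    ring
  rw [e, L_mul, L_sum]
  have h : ∀ b ∈ range B, L (fun n => f (n + d * b) * f (n + d * b + d * a)) = L (fun n => f n * f (n + d * (a : ℕ))) := by
    intro b _
    exact hL.shiftz (f := fun n : ℤ => f n * f (n + d * (a : ℕ))) (hbf.mul (hbf.comp fun n => n + d * (a : ℕ))) (d * b)
  rw [Finset.sum_congr rfl h, Finset.sum_const, card_range, nsmul_eq_mul, ← mul_assoc, one_div, inv_mul_cancel₀ hB'.ne', one_mul]

theorem step_gen {L : (ℤ → ℝ) →ₗ[ℝ] ℝ} (hL : IsMean L) (f : ℤ → ℝ) (hf : ∀ n, |f n| ≤ 1) (hf1 : ∀ n : ℤ, 0 < n → f n = 1 ∨ f n = -1)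
    (d a B : ℕ) (hd : 0 < d) (ha : 0 < a) (hB : 0 < B) :
    4 * L (fun n => lc f d a B n ^ 2) ≤
      1 + 2 * L (fun n => f n * f (n + d * (2 * a : ℕ))) + L (fun n => lc f d (2 * a) B n ^ 2) + 12 * a / B := by
  have hb1 := SG_bd2 f hf d a B hB
  have hb2 := SG_bd f hf d (2 * a) B hB
  have hb3 := SG_bd2 f hf d (2 * a) B hB
  have hbG : Bd (fun n => 4 * lc f d a B n ^ 2 -
      (1 + 2 * lc f d (2 * a) B n + lc f d (2 * a) B n ^ 2 + 12 * a / B)) :=
    ((Bd.const 4).mul hb1).sub ((((Bd.const 1).add ((Bd.const 2).mul hb2)).add hb3).add (Bd.const _))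
  have h1 := L_eq_of_ge hL hbG (g := fun n => if 0 < n then 4 * lc f d a B n ^ 2 -
      (1 + 2 * lc f d (2 * a) B n + lc f d (2 * a) B n ^ 2 + 12 * a / B) else 0)
    (hbG.of_le fun n => by
      split_ifs
      · exact le_rfl
      · rw [abs_zero]
        exact abs_nonneg _) 0 (fun n hn => by rw [if_pos (by simpa using hn)])
  have h2 : L (fun n => if 0 < n then 4 * lc f d a B n ^ 2 -
      (1 + 2 * lc f d (2 * a) B n + lc f d (2 * a) B n ^ 2 + 12 * a / B) else 0) ≤ 0 := by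
    refine hL.le_const (hbG.of_le fun n => ?_) fun n => ?_
    · split_ifs
      · exact le_rfl
      · rw [abs_zero]
        exact abs_nonneg _
    · split_ifs with hn
      · have := SG_point f hf hf1 d a B n hn hB
        linarith
      · exact le_rfl
  rw [← h1, L_sub, L_mul, L_add, L_add, L_add, L_mul, hL.const, hL.const, SG_mean hL f hf d (2 * a) B hB] at h2
  linarith

theorem iter_gen {L : (ℤ → ℝ) →ₗ[ℝ] ℝ} (hL : IsMean L) (f : ℤ → ℝ) (hf : ∀ n, |f n| ≤ 1) (hf1 : ∀ n : ℤ, 0 < n → f n = 1 ∨ f n = -1)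
    (d a B : ℕ) (hd : 0 < d) (ha : 0 < a) (hB : 0 < B) (m : ℕ) :
    L (fun n => lc f d a B n ^ 2) ≤
      ∑ i ∈ range m, (1 + 2 * L (fun n => f n * f (n + d * (2 ^ (i + 1) * a : ℕ)))) / 4 ^ (i + 1) + 1 / 4 ^ m + 6 * a / B := by
  have hB' : (0 : ℝ) < B := by exact_mod_cast hB
  have key : ∀ (m a : ℕ), 0 < a → L (fun n => lc f d a B n ^ 2) ≤
      ∑ i ∈ range m, (1 + 2 * L (fun n => f n * f (n + d * (2 ^ (i + 1) * a : ℕ)))) / 4 ^ (i + 1) + 1 / 4 ^ m +
        6 * a * (1 - (1 / 2) ^ m) / B := by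
    intro m
    induction m with
    | zero =>
      intro a _
      have h1 : L (fun n => lc f d a B n ^ 2) ≤ 1 := by
        refine hL.le_const (SG_bd2 f hf d a B hB) fun n => ?_
        rw [← sq_abs]
        exact pow_le_one₀ (abs_nonneg _) (SG_lc_le f hf d a B n hB)
      simpa using h1
    | succ m ih =>
      intro a ha
      have h1 := step_gen hL f hf hf1 d a B hd ha hB
      have h2 := ih (2 * a) (by omega)
      rw [Finset.sum_range_succ']
      have h3 : ∑ i ∈ range m, (1 + 2 * L (fun n => f n * f (n + d * (2 ^ (i + 1 + 1) * a : ℕ)))) / 4 ^ (i + 1 + 1) =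
          (∑ i ∈ range m, (1 + 2 * L (fun n => f n * f (n + d * (2 ^ (i + 1) * (2 * a) : ℕ)))) / 4 ^ (i + 1)) / 4 := by
        rw [Finset.sum_div]
        refine Finset.sum_congr rfl fun i _ => ?_
        have e : 2 ^ (i + 1) * (2 * a) = 2 ^ (i + 1 + 1) * a := by ring
        rw [e, pow_succ 4 (i + 1)]
        field_simp
      have h4 : (2 : ℕ) ^ (0 + 1) * a = 2 * a := by ring
      rw [h3, h4]
      have h5 : (6 : ℝ) * a * (1 - (1 / 2) ^ (m + 1)) / B =
          (6 * ((2 * a : ℕ) : ℝ) * (1 - (1 / 2) ^ m) / B) / 4 + 12 * a / B / 4 := by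
        rw [pow_succ]
        push_cast
        field_simp
        ring
      have h6 : (1 : ℝ) / 4 ^ (m + 1) = 1 / 4 ^ m / 4 := by
        rw [pow_succ]
        field_simp
      rw [h5, h6]
      norm_num only [zero_add, pow_one]
      linarith
  refine (key m a ha).trans (add_le_add le_rfl ?_)
  refine div_le_div_of_nonneg_right ?_ hB'.le
  have h1 : (0 : ℝ) ≤ (1 / 2) ^ m := by positivity
  have h2 : (0 : ℝ) ≤ 6 * a := by positivity
  nlinarith

end Pool.Agent.Lib.TU2
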