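import Pool.Agent.Lib.TU2.Base

/-!
# TU2 / Circle (row CI, about 220 lines): the circle method for a fixed window

STATEMENT: below, verbatim. Deterministic, no mean `L`. `N = 2 K`, `e(y) = exp(2π i y)`.

PROOF. `S(ξ) = ∑_{p ∈ G} e(h p ξ / N)` for `ξ ∈ range N`, `Ξ = {ξ ∈ range N : ε |G| < ‖S(ξ)‖}`.
(1) Fourth moment: `∑_{ξ < N} ‖S(ξ)‖⁴ = N * #{(p₁,p₂,p₃,p₄) ∈ G⁴ : N ∣ h (p₁ + p₂ - p₃ - p₄)} = N * addE G`, because `0 < p ≤ H` gives `|h (p₁+p₂-p₃-p₄)| < 2 h H ≤ N`, so divisible by `N` means zero.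
(`‖S‖⁴ = (S²) * conj (S²)`, expand, orthogonality `∑_{ξ<N} e(a ξ/N) = N` if `N ∣ a`, else `0`: geometric sum.) So `|Ξ| (ε |G|)⁴ ≤ N addE G`.
(2) `X(ξ) = ∑_{j<K} x(j) e(-j ξ/N)`. For `p ∈ G`: `∑_{j < K, j + h p < K} x(j) x(j + h p) = (1/N) ∑_{ξ<N} ‖X(ξ)‖² e(h p ξ/N)` up to conjugation (the left side is real): expand `‖X‖² = ∑_{j,j'} x(j) x(j') e((j' - j) ξ / N)` (or with the other sign), orthogonality:
`N ∣ h p ± (j' - j)`; with `0 < h p ≤ h H ≤ K` and `|j - j'| < K` this is `j' - j = ∓ h p` (the value `± N` is impossible: `|h p ± (j'-j)| < 2K = N`).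
The terms with `j < K ≤ j + h p` are at most `h H` many, each at most 1. So `|∑_p ∑_{j<K} x(j) x(j + h p)| ≤ |G| h H + (1/N) ∑_ξ ‖X(ξ)‖² ‖S(ξ)‖`.
(3) For `ξ ∉ Ξ`: `‖S‖ ≤ ε |G|`, and `∑_{ξ<N} ‖X(ξ)‖² = N ∑_{j<K} x(j)² ≤ N K` (Parseval, orthogonality again). For `ξ ∈ Ξ`: `‖S‖ ≤ |G|`. `‖X(ξ)‖² = (∑ x cos)² + (∑ x sin)²`.
(It may be convenient to use real cosines only; every identity above is a finite double sum and orthogonality.)
-/

set_option autoImplicit false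

open Finset

namespace Pool.Agent.Lib.TU2

private noncomputable def om (N : ℕ) : ℂ := Complex.exp (2 * Real.pi * Complex.I / N)

private noncomputable def E (N : ℕ) (a : ℤ) (ξ : ℕ) : ℂ := (om N ^ a) ^ ξ

private lemma om_ne (N : ℕ) : om N ≠ 0 := Complex.exp_ne_zero _

private lemma E_add (N : ℕ) (a b : ℤ) (ξ : ℕ) : E N (a + b) ξ = E N a ξ * E N b ξ := by
  simp only [E, zpow_add₀ (om_ne N), mul_pow]

private lemma E_eq (N : ℕ) (a : ℤ) (ξ : ℕ) :
    E N a ξ = Complex.exp (((2 * Real.pi * ((ξ : ℝ) / N * a) : ℝ) : ℂ) * Complex.I) := by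
  simp only [E, om, ← Complex.exp_int_mul, ← Complex.exp_nat_mul]
  congr 1
  push_cast
  ring

private lemma E_conj (N : ℕ) (a : ℤ) (ξ : ℕ) : (starRingEnd ℂ) (E N a ξ) = E N (-a) ξ := by
  rw [E_eq, E_eq, ← Complex.exp_conj, map_mul, Complex.conj_ofReal, Complex.conj_I]
  congr 1
  push_cast
  ring

private lemma E_norm (N : ℕ) (a : ℤ) (ξ : ℕ) : ‖E N a ξ‖ = 1 := by
  rw [E_eq, Complex.norm_exp_ofReal_mul_I]

private lemma orth (N : ℕ) (hN : N ≠ 0) (a : ℤ) :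
    ∑ ξ ∈ range N, E N a ξ = if (N : ℤ) ∣ a then (N : ℂ) else 0 := by
  have hp : IsPrimitiveRoot (om N) N := Complex.isPrimitiveRoot_exp N hN
  split_ifs with h
  · have h1 : om N ^ a = 1 := (hp.zpow_eq_one_iff_dvd a).2 h
    simp [E, h1]
  · have h1 : om N ^ a ≠ 1 := fun h' => h ((hp.zpow_eq_one_iff_dvd a).1 h')
    have h2 := mul_neg_geom_sum (om N ^ a) N
    have h3 : (om N ^ a) ^ N = 1 := by
      rw [← zpow_natCast, ← zpow_mul, mul_comm, zpow_mul, zpow_natCast, hp.pow_eq_one, one_zpow]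
    rw [h3, sub_self] at h2
    exact (mul_eq_zero.1 h2).resolve_left (sub_ne_zero.2 h1.symm)

private lemma pars {ι κ : Type*} (N : ℕ) (hN : N ≠ 0) (A : Finset ι) (B : Finset κ)
    (f : ι → ℤ) (u : ι → ℝ) (g : κ → ℤ) (v : κ → ℝ) :
    ∑ ξ ∈ range N, (∑ i ∈ A, (u i : ℂ) * E N (f i) ξ) *
        (starRingEnd ℂ) (∑ k ∈ B, (v k : ℂ) * E N (g k) ξ)
      = ((N * ∑ i ∈ A, ∑ k ∈ B, (if (N : ℤ) ∣ f i - g k then u i * v k else 0) : ℝ) : ℂ) := by
  have h1 : ∀ ξ ∈ range N, (∑ i ∈ A, (u i : ℂ) * E N (f i) ξ) *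
      (starRingEnd ℂ) (∑ k ∈ B, (v k : ℂ) * E N (g k) ξ) =
      ∑ i ∈ A, ∑ k ∈ B, ((u i : ℂ) * v k) * E N (f i - g k) ξ := by
    intro ξ _
    rw [map_sum, sum_mul_sum]
    refine sum_congr rfl fun i _ => sum_congr rfl fun k _ => ?_
    rw [map_mul, E_conj, Complex.conj_ofReal, sub_eq_add_neg, E_add]
    ring
  rw [sum_congr rfl h1, sum_comm, mul_sum, Complex.ofReal_sum]
  refine sum_congr rfl fun i _ => ?_
  rw [sum_comm, mul_sum, Complex.ofReal_sum]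
  refine sum_congr rfl fun k _ => ?_
  rw [← mul_sum, orth N hN]
  split_ifs
  · push_cast
    ring
  · simp

private lemma fourth (G : Finset ℕ) (H h K : ℕ) (hG : ∀ p ∈ G, 0 < p ∧ p ≤ H) (hh : 0 < h)
    (hK0 : 0 < K) (hK : h * H ≤ K) :
    ∑ ξ ∈ range (2 * K), ‖∑ p ∈ G, E (2 * K) (h * p) ξ‖ ^ 4 = 2 * K * addE G := by
  apply Complex.ofReal_injective
  rw [Complex.ofReal_sum]
  have h1 : ∀ ξ ∈ range (2 * K), (((‖∑ p ∈ G, E (2 * K) (h * p) ξ‖ ^ 4 : ℝ)) : ℂ) =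
      (∑ q ∈ G ×ˢ G, ((1 : ℝ) : ℂ) * E (2 * K) ((h : ℤ) * (q.1 + q.2)) ξ) *
        (starRingEnd ℂ) (∑ q ∈ G ×ˢ G, ((1 : ℝ) : ℂ) * E (2 * K) ((h : ℤ) * (q.1 + q.2)) ξ) := by
    intro ξ _
    have h2 : (∑ q ∈ G ×ˢ G, ((1 : ℝ) : ℂ) * E (2 * K) ((h : ℤ) * (q.1 + q.2)) ξ) =
        (∑ p ∈ G, E (2 * K) (h * p) ξ) * (∑ p ∈ G, E (2 * K) (h * p) ξ) := by
      rw [sum_mul_sum, sum_product]
      refine sum_congr rfl fun i _ => sum_congr rfl fun k _ => ?_
      rw [mul_add, E_add]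
      simp
    rw [h2, map_mul]
    have h3 := Complex.mul_conj' (∑ p ∈ G, E (2 * K) (h * p) ξ)
    push_cast
    linear_combination (-(‖∑ p ∈ G, E (2 * K) (h * p) ξ‖ : ℂ) ^ 2 -
      (∑ p ∈ G, E (2 * K) (h * p) ξ) * (starRingEnd ℂ) (∑ p ∈ G, E (2 * K) (h * p) ξ)) * h3
  rw [sum_congr rfl h1, pars (2 * K) (by omega)]
  congr 1
  have h4 : (addE G : ℝ) = ∑ i ∈ G ×ˢ G, ∑ k ∈ G ×ˢ G,
      (if (((2 * K : ℕ)) : ℤ) ∣ (h : ℤ) * (i.1 + i.2) - (h : ℤ) * (k.1 + k.2) then (1 : ℝ) * 1 else 0) := by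
    rw [addE, card_filter, sum_product]
    push_cast
    refine sum_congr rfl fun i hi => sum_congr rfl fun k hk => ?_
    rw [mem_product] at hi hk
    have a1 := hG _ hi.1
    have a2 := hG _ hi.2
    have a3 := hG _ hk.1
    have a4 := hG _ hk.2
    have b1 : (i.1 + i.2 = k.1 + k.2) ↔ ((2 * (K : ℤ)) ∣ (h : ℤ) * (i.1 + i.2) - (h : ℤ) * (k.1 + k.2)) := by
      constructor
      · intro he
        have : ((i.1 : ℤ) + i.2) = k.1 + k.2 := by exact_mod_cast he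
        rw [this, sub_self]
        exact dvd_zero _
      · intro hd
        have c1 : |(h : ℤ) * (i.1 + i.2) - (h : ℤ) * (k.1 + k.2)| < 2 * K := by
          have d0 : (h : ℤ) * H ≤ K := by exact_mod_cast hK
          have d1 : |((i.1 : ℤ) + i.2) - (k.1 + k.2)| ≤ 2 * H - 1 := by
            rw [abs_le]
            omega
          rw [← mul_sub, abs_mul, abs_of_nonneg (by positivity : (0 : ℤ) ≤ h)]
          have d2 : (0 : ℤ) < h := by exact_mod_cast hh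
          nlinarith
        have c2 := Int.eq_zero_of_abs_lt_dvd hd c1
        have d2 : (h : ℤ) ≠ 0 := by exact_mod_cast hh.ne'
        rw [← mul_sub] at c2
        have c3 := (mul_eq_zero.1 c2).resolve_left d2
        omega
    simp only [b1, mul_one]
  rw [← h4]
  push_cast
  ring

private lemma corr1 (K : ℕ) (hK0 : 0 < K) (m : ℕ) (hm : m ≤ K) (x : ℤ → ℝ) :
    ∑ ξ ∈ range (2 * K), ((∑ j ∈ range K, (x j : ℂ) * E (2 * K) (-(j : ℤ)) ξ) *
        (starRingEnd ℂ) (∑ j ∈ range K, (x j : ℂ) * E (2 * K) (-(j : ℤ)) ξ)) * E (2 * K) m ξ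
      = ((2 * K * ∑ j ∈ range K, (if j + m < K then x j * x (j + m) else 0) : ℝ) : ℂ) := by
  have h1 : ∀ ξ ∈ range (2 * K), ((∑ j ∈ range K, (x j : ℂ) * E (2 * K) (-(j : ℤ)) ξ) *
        (starRingEnd ℂ) (∑ j ∈ range K, (x j : ℂ) * E (2 * K) (-(j : ℤ)) ξ)) * E (2 * K) m ξ =
      (∑ j ∈ range K, (x j : ℂ) * E (2 * K) ((m : ℤ) - (j : ℤ)) ξ) *
        (starRingEnd ℂ) (∑ j ∈ range K, (x j : ℂ) * E (2 * K) (-(j : ℤ)) ξ) := by
    intro ξ _
    rw [mul_right_comm, sum_mul]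
    congr 1
    refine sum_congr rfl fun j _ => ?_
    rw [mul_assoc, ← E_add]
    congr 2
    ring
  rw [sum_congr rfl h1, pars (2 * K) (by omega) (range K) (range K) (fun j : ℕ => (m : ℤ) - j) (fun j : ℕ => x j)
    (fun j : ℕ => -(j : ℤ)) (fun j : ℕ => x j)]
  congr 1
  push_cast
  congr 1
  rw [sum_comm]
  refine sum_congr rfl fun j hj => ?_
  rw [mem_range] at hj
  have h2 : ∀ i ∈ range K, (if 2 * (K : ℤ) ∣ (m : ℤ) - (i : ℤ) - -(j : ℤ) then x i * x j else 0) =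
      (if j + m = i then x i * x j else 0) := by
    intro i hi
    rw [mem_range] at hi
    have h3 : (2 * (K : ℤ) ∣ (m : ℤ) - (i : ℤ) - -(j : ℤ)) ↔ (j + m = i) := by
      constructor
      · intro hd
        have c1 : |(m : ℤ) - (i : ℤ) - -(j : ℤ)| < 2 * K := by
          rw [abs_lt]
          omega
        have c2 := Int.eq_zero_of_abs_lt_dvd hd c1
        omega
      · intro he
        subst he
        have : ((m : ℤ) - ((j + m : ℕ) : ℤ) - -(j : ℤ)) = 0 := by push_cast; ring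
        rw [this]
        exact dvd_zero _
    simp only [h3]
  rw [sum_congr rfl h2, sum_ite_eq]
  simp only [mem_range]
  split_ifs
  · push_cast
    ring
  · rfl

private lemma card_ov (K m : ℕ) (hm : m ≤ K) : ((range K).filter fun j => ¬ j + m < K).card ≤ m := by
  have h1 : ((range K).filter fun j => ¬ j + m < K) ⊆ Finset.Ico (K - m) K := by
    intro j hj
    rw [mem_filter, mem_range] at hj
    rw [Finset.mem_Ico]
    omega
  refine (card_le_card h1).trans ?_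
  rw [Nat.card_Ico]
  omega

private lemma corr2 (K : ℕ) (m : ℕ) (hm : m ≤ K) (x : ℤ → ℝ) (hx : ∀ n, |x n| ≤ 1) :
    |∑ j ∈ range K, x j * x (j + m) - ∑ j ∈ range K, (if j + m < K then x j * x (j + m) else 0)| ≤ m := by
  rw [← sum_sub_distrib]
  have h1 : ∀ j ∈ range K, x j * x (j + m) - (if j + m < K then x j * x (j + m) else 0) =
      if ¬ j + m < K then x j * x (j + m) else 0 := by
    intro j _
    split_ifs
    · ring
    · ring
  rw [sum_congr rfl h1, ← sum_filter]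
  refine (abs_sum_le_sum_abs _ _).trans ?_
  have h2 : ∀ j ∈ (range K).filter (fun j => ¬ j + m < K), |x j * x (j + m)| ≤ 1 := by
    intro j _
    rw [abs_mul]
    exact mul_le_one₀ (hx _) (abs_nonneg _) (hx _)
  refine (sum_le_card_nsmul _ _ _ h2).trans ?_
  rw [nsmul_eq_mul, mul_one]
  exact_mod_cast card_ov K m hm

private lemma normX (K : ℕ) (x : ℤ → ℝ) (ξ : ℕ) :
    ‖∑ j ∈ range K, (x j : ℂ) * E (2 * K) (-(j : ℤ)) ξ‖ ^ 2 =
      (∑ j ∈ range K, x j * Real.cos (2 * Real.pi * ((ξ : ℝ) / (2 * K) * j))) ^ 2 +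
          (∑ j ∈ range K, x j * Real.sin (2 * Real.pi * ((ξ : ℝ) / (2 * K) * j))) ^ 2 := by
  have h1 : (∑ j ∈ range K, (x j : ℂ) * E (2 * K) (-(j : ℤ)) ξ) =
      (((∑ j ∈ range K, x j * Real.cos (2 * Real.pi * ((ξ : ℝ) / (2 * K) * j)) : ℝ)) : ℂ) +
      (((-∑ j ∈ range K, x j * Real.sin (2 * Real.pi * ((ξ : ℝ) / (2 * K) * j)) : ℝ)) : ℂ) * Complex.I := by
    rw [Complex.ofReal_neg, Complex.ofReal_sum, Complex.ofReal_sum, neg_mul, ← sub_eq_add_neg, sum_mul,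
      ← sum_sub_distrib]
    refine sum_congr rfl fun j _ => ?_
    rw [E_eq]
    have h2 : (2 * Real.pi * ((ξ : ℝ) / ((2 * K : ℕ) : ℝ) * ((-(j : ℤ) : ℤ) : ℝ))) =
        -(2 * Real.pi * ((ξ : ℝ) / (2 * K) * j)) := by
      push_cast
      ring
    rw [h2, Complex.ofReal_neg, Complex.exp_mul_I, Complex.cos_neg, Complex.sin_neg,
      ← Complex.ofReal_cos, ← Complex.ofReal_sin, Complex.ofReal_mul, Complex.ofReal_mul]
    ring
  rw [h1, ← Complex.normSq_eq_norm_sq, Complex.normSq_add_mul_I]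
  ring

theorem circle (G : Finset ℕ) (H h K : ℕ) (hG : ∀ p ∈ G, 0 < p ∧ p ≤ H) (hh : 0 < h) (hK0 : 0 < K) (hK : h * H ≤ K) (ε : ℝ) (hε : 0 < ε) :
    ∃ Ξ : Finset ℕ, (Ξ.card : ℝ) * (ε * G.card) ^ 4 ≤ 2 * K * addE G ∧ ∀ x : ℤ → ℝ, (∀ n, |x n| ≤ 1) →
      |∑ p ∈ G, ∑ j ∈ range K, x j * x (j + h * p)| ≤ G.card * (h * H + ε * K + (1 / (2 * K)) *
        ∑ ξ ∈ Ξ, ((∑ j ∈ range K, x j * Real.cos (2 * Real.pi * ((ξ : ℝ) / (2 * K) * j))) ^ 2 +
          (∑ j ∈ range K, x j * Real.sin (2 * Real.pi * ((ξ : ℝ) / (2 * K) * j))) ^ 2)) := by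
  classical
  set N : ℕ := 2 * K with hN
  set S : ℕ → ℂ := fun ξ => ∑ p ∈ G, E (2 * K) (h * p) ξ with hS
  have hSG : ∀ ξ, ‖S ξ‖ ≤ G.card := by
    intro ξ
    refine (norm_sum_le _ _).trans ?_
    simp [E_norm]
  have h4 := fourth G H h K hG hh hK0 hK
  refine ⟨(range (2 * K)).filter fun ξ => ε * G.card < ‖S ξ‖, ?_, ?_⟩
  · rw [← h4, ← nsmul_eq_mul]
    refine (card_nsmul_le_sum _ (fun ξ => ‖S ξ‖ ^ 4) _ ?_).trans ?_
    · intro ξ hξ
      rw [mem_filter] at hξ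
      exact pow_le_pow_left₀ (by positivity) hξ.2.le 4
    · exact sum_le_sum_of_subset_of_nonneg (filter_subset _ _) fun ξ _ _ => by positivity
  · intro x hx
    set X : ℕ → ℂ := fun ξ => ∑ j ∈ range K, (x j : ℂ) * E (2 * K) (-(j : ℤ)) ξ with hX
    have hK' : (0 : ℝ) < K := by exact_mod_cast hK0
    have hXn : ∀ ξ : ℕ, (∑ j ∈ range K, x j * Real.cos (2 * Real.pi * ((ξ : ℝ) / (2 * K) * j))) ^ 2 +
          (∑ j ∈ range K, x j * Real.sin (2 * Real.pi * ((ξ : ℝ) / (2 * K) * j))) ^ 2 = ‖X ξ‖ ^ 2 :=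
      fun ξ => (normX K x ξ).symm
    simp only [hXn]
    -- the main term
    have hm : ∀ p ∈ G, h * p ≤ K := fun p hp => (Nat.mul_le_mul_left h (hG p hp).2).trans hK
    have e1 : ∑ p ∈ G, ∑ j ∈ range K, x j * x (j + h * p) =
        ∑ p ∈ G, (∑ j ∈ range K, x j * x (j + h * p) -
          ∑ j ∈ range K, (if j + h * p < K then x j * x (j + h * p) else 0)) +
        ∑ p ∈ G, ∑ j ∈ range K, (if j + h * p < K then x j * x (j + h * p) else 0) := by
      rw [← sum_add_distrib]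
      exact sum_congr rfl fun p _ => by ring
    have e2 : |∑ p ∈ G, (∑ j ∈ range K, x j * x (j + h * p) -
          ∑ j ∈ range K, (if j + h * p < K then x j * x (j + h * p) else 0))| ≤ G.card * (h * H) := by
      refine (abs_sum_le_sum_abs _ _).trans ?_
      rw [← nsmul_eq_mul]
      refine sum_le_card_nsmul _ _ _ fun p hp => ?_
      have h1 := corr2 K (h * p) (hm p hp) x hx
      push_cast at h1
      refine h1.trans ?_
      have h2 := (hG p hp).2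
      have h3 : (p : ℝ) ≤ H := by exact_mod_cast h2
      exact mul_le_mul_of_nonneg_left h3 (by positivity)
    have e3 : (((2 * K) * ∑ p ∈ G, ∑ j ∈ range K, (if j + h * p < K then x j * x (j + h * p) else 0) : ℝ) : ℂ)
        = ∑ ξ ∈ range (2 * K), ((‖X ξ‖ ^ 2 : ℝ) : ℂ) * S ξ := by
      rw [mul_sum, Complex.ofReal_sum]
      have h1 : ∀ p ∈ G, ((2 * K * ∑ j ∈ range K, (if j + h * p < K then x j * x (j + h * p) else 0) : ℝ) : ℂ) =
          ∑ ξ ∈ range (2 * K), ((‖X ξ‖ ^ 2 : ℝ) : ℂ) * E (2 * K) (h * p) ξ := by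
        intro p hp
        have h2 := corr1 K hK0 (h * p) (hm p hp) x
        push_cast at h2 ⊢
        rw [← h2]
        refine sum_congr rfl fun ξ _ => ?_
        rw [← Complex.mul_conj']
      rw [sum_congr rfl h1, sum_comm]
      refine sum_congr rfl fun ξ _ => ?_
      rw [hS, mul_sum]
    have e4 : 2 * K * |∑ p ∈ G, ∑ j ∈ range K, (if j + h * p < K then x j * x (j + h * p) else 0)| ≤
        ∑ ξ ∈ range (2 * K), ‖X ξ‖ ^ 2 * ‖S ξ‖ := by
      have h1 := norm_sum_le (range (2 * K)) (fun ξ => ((‖X ξ‖ ^ 2 : ℝ) : ℂ) * S ξ)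
      rw [← e3, Complex.norm_real, Real.norm_eq_abs, abs_mul, abs_of_nonneg (by positivity)] at h1
      refine h1.trans (le_of_eq (sum_congr rfl fun ξ _ => ?_))
      rw [norm_mul, Complex.norm_real, Real.norm_eq_abs, abs_of_nonneg (by positivity)]
    have e5 : ∑ ξ ∈ range (2 * K), ‖X ξ‖ ^ 2 ≤ 2 * K * K := by
      have h1 := corr1 K hK0 0 (Nat.zero_le _) x
      have h2 : ((∑ ξ ∈ range (2 * K), ‖X ξ‖ ^ 2 : ℝ) : ℂ) =
          ((2 * K * ∑ j ∈ range K, (if j + 0 < K then x j * x (j + (0 : ℕ)) else 0) : ℝ) : ℂ) := by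
        rw [← h1, Complex.ofReal_sum]
        refine sum_congr rfl fun ξ _ => ?_
        rw [Complex.ofReal_pow, ← Complex.mul_conj']
        simp [E, hX]
      have h3 := Complex.ofReal_injective h2
      rw [h3]
      refine mul_le_mul_of_nonneg_left ?_ (by positivity)
      have h4 : ∀ j ∈ range K, (if j + 0 < K then x j * x (j + (0 : ℕ)) else 0) ≤ (1 : ℝ) := by
        intro j hj
        rw [mem_range] at hj
        rw [if_pos (by simpa using hj)]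
        have h5 := hx j
        simp only [Nat.cast_zero, add_zero]
        rw [← abs_mul_abs_self]
        exact mul_le_one₀ h5 (abs_nonneg _) h5
      refine (sum_le_card_nsmul _ _ _ h4).trans ?_
      simp
    have e6 : ∑ ξ ∈ range (2 * K), ‖X ξ‖ ^ 2 * ‖S ξ‖ ≤
        G.card * (2 * K * (ε * K)) +
        G.card * ∑ ξ ∈ (range (2 * K)).filter (fun ξ => ε * G.card < ‖S ξ‖), ‖X ξ‖ ^ 2 := by
      rw [← sum_filter_add_sum_filter_not (range (2 * K)) (fun ξ => ε * G.card < ‖S ξ‖)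
        (fun ξ => ‖X ξ‖ ^ 2 * ‖S ξ‖), add_comm]
      refine add_le_add ?_ ?_
      · calc ∑ ξ ∈ (range (2 * K)).filter (fun ξ => ¬ ε * G.card < ‖S ξ‖), ‖X ξ‖ ^ 2 * ‖S ξ‖
            ≤ ∑ ξ ∈ (range (2 * K)).filter (fun ξ => ¬ ε * G.card < ‖S ξ‖), ‖X ξ‖ ^ 2 * (ε * G.card) := by
              refine sum_le_sum fun ξ hξ => ?_
              rw [mem_filter, not_lt] at hξ
              exact mul_le_mul_of_nonneg_left hξ.2 (by positivity)
          _ ≤ ∑ ξ ∈ range (2 * K), ‖X ξ‖ ^ 2 * (ε * G.card) :=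
              sum_le_sum_of_subset_of_nonneg (filter_subset _ _) fun ξ _ _ => by positivity
          _ = (∑ ξ ∈ range (2 * K), ‖X ξ‖ ^ 2) * (ε * G.card) := by rw [sum_mul]
          _ ≤ (2 * K * K) * (ε * G.card) := mul_le_mul_of_nonneg_right e5 (by positivity)
          _ = G.card * (2 * K * (ε * K)) := by ring
      · rw [mul_sum]
        refine sum_le_sum fun ξ _ => ?_
        rw [mul_comm]
        exact mul_le_mul_of_nonneg_right (hSG ξ) (by positivity)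
    have e7 : |∑ p ∈ G, ∑ j ∈ range K, (if j + h * p < K then x j * x (j + h * p) else 0)| ≤
        G.card * (ε * K + (1 / (2 * K)) *
          ∑ ξ ∈ (range (2 * K)).filter (fun ξ => ε * G.card < ‖S ξ‖), ‖X ξ‖ ^ 2) := by
      have h1 := e4.trans e6
      have h2 : (0 : ℝ) < 2 * K := by positivity
      rw [mul_comm, ← le_div_iff₀ h2] at h1
      refine h1.trans (le_of_eq ?_)
      field_simp
    rw [e1]
    refine (abs_add_le _ _).trans ((add_le_add e2 e7).trans (le_of_eq ?_))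
    ring

end Pool.Agent.Lib.TU2
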