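import Pool.Agent.Lib.TU2.Base
import Pool.Agent.Lib.TU.Cnt
import Pool.Agent.Lib.TU.TupP
import Pool.Agent.Lib.TU.PhiM

/-!
# TU2 / Energy (row EN, about 150 lines): the additive energy of a dense set of primes

STATEMENT: below, verbatim. (`PP H` = primes in `(H/2, H]`.)

PROOF. `addE G ≤ addE (PP H)`. For `d : ℤ` let `r d` be the number of pairs `(p, q) ∈ PP H × PP H` with `p - q = d`; `addE (PP H) ≤ ∑_{|d| ≤ H} (r d)²` (`p₁ + p₂ = p₃ + p₄` iff `p₁ - p₃ = p₄ - p₂`; group by the common difference).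
`r 0 ≤ H`. For `d ≠ 0`: `r d ≤ #{n ∈ [1, H] : n and n + |d| prime} ≤ C₁ (2|d| / φ(2|d|))² H / (log H)²` by `tuple_prog 2` with `N = H`, `W = 1`, `b = 0`, `h = ![0, |d|]`, `M = 2 |d|`
(conditions: `1 ∣ M`, `M ≠ 0`; a prime `p ≤ 2` is `2 ∣ M`; `(0 : ZMod p) = (|d| : ZMod p)` means `p ∣ |d| ∣ M`).
`∑_{1 ≤ v ≤ 2H} (v/φ(v))⁴ ≤ C₂ * 2H` by `phi_moment 4`, so `∑_{0 < |d| ≤ H} (r d)² ≤ 2 C₁² (H²/(log H)⁴) C₂ 2 H`, and `(r 0)² ≤ H² ≤ H³/(log H)⁴` for `H ≥ H0`. Together `addE G ≤ C₃ H³/(log H)⁴`.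
`card_PP`: `|PP H| ≥ c H / log H`, so `|G| ≥ c H / (2 log H)` and `|G|⁴ ≥ c⁴ H⁴ / (16 (log H)⁴)`. So `addE G * H ≤ C₃ H⁴/(log H)⁴ ≤ (16 C₃/c⁴) |G|⁴`.
-/

set_option autoImplicit false

open Finset

namespace Pool.Agent.Lib.TU2

open Pool.Agent.Lib.TU

/-- the elements of `P` with `p + d` in `P` -/
private def EN_T (P : Finset ℕ) (d : ℕ) : Finset ℕ := P.filter fun p => p + d ∈ P

private theorem EN_mono {G P : Finset ℕ} (h : G ⊆ P) : addE G ≤ addE P := by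
  unfold addE
  exact card_le_card (filter_subset_filter _
    (product_subset_product (product_subset_product h h) (product_subset_product h h)))

private theorem EN_group (P : Finset ℕ) (H : ℕ) (hP : ∀ p ∈ P, p ≤ H) :
    addE P ≤ 2 * ∑ d ∈ range (H + 1), (EN_T P d).card ^ 2 := by
  classical
  unfold addE
  set F := ((P ×ˢ P) ×ˢ (P ×ˢ P)).filter fun x => x.1.1 + x.1.2 = x.2.1 + x.2.2 with hF
  set T := (range (H + 1)).sigma (fun d => EN_T P d ×ˢ EN_T P d) with hT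
  have hTc : T.card = ∑ d ∈ range (H + 1), (EN_T P d).card ^ 2 := by
    rw [hT, card_sigma]
    exact sum_congr rfl fun d _ => by rw [card_product, pow_two]
  have h1 : (F.filter fun x => x.2.1 ≤ x.1.1).card ≤ T.card := by
    refine card_le_card_of_injOn (fun x => (⟨x.1.1 - x.2.1, (x.2.1, x.1.2)⟩ : Σ _ : ℕ, ℕ × ℕ)) ?_ ?_
    · rintro ⟨⟨a, b⟩, ⟨c, d⟩⟩ hx
      simp only [hF, coe_filter, mem_filter, mem_product, Set.mem_ofPred_eq] at hx
      obtain ⟨⟨⟨⟨ha, hb⟩, hc, hd⟩, he⟩, hle⟩ := hx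
      simp only [hT, coe_sigma, Set.mem_sigma_iff, mem_coe, mem_range, mem_product, EN_T, mem_filter]
      refine ⟨?_, ⟨hc, ?_⟩, hb, ?_⟩
      · have := hP a ha
        omega
      · rw [show c + (a - c) = a by omega]
        exact ha
      · rw [show b + (a - c) = d by omega]
        exact hd
    · rintro ⟨⟨a, b⟩, ⟨c, d⟩⟩ hx ⟨⟨a', b'⟩, ⟨c', d'⟩⟩ hx' hxx
      simp only [hF, coe_filter, mem_filter, mem_product, Set.mem_ofPred_eq] at hx hx'
      obtain ⟨⟨_, he⟩, hle⟩ := hx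
      obtain ⟨⟨_, he'⟩, hle'⟩ := hx'
      simp only [Sigma.mk.injEq, heq_eq_eq, Prod.mk.injEq] at hxx
      simp only [Prod.mk.injEq]
      omega
  have h2 : (F.filter fun x => ¬ x.2.1 ≤ x.1.1).card ≤ T.card := by
    refine card_le_card_of_injOn (fun x => (⟨x.2.1 - x.1.1, (x.1.1, x.2.2)⟩ : Σ _ : ℕ, ℕ × ℕ)) ?_ ?_
    · rintro ⟨⟨a, b⟩, ⟨c, d⟩⟩ hx
      simp only [hF, coe_filter, mem_filter, mem_product, Set.mem_ofPred_eq] at hx
      obtain ⟨⟨⟨⟨ha, hb⟩, hc, hd⟩, he⟩, hle⟩ := hx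
      simp only [hT, coe_sigma, Set.mem_sigma_iff, mem_coe, mem_range, mem_product, EN_T, mem_filter]
      refine ⟨?_, ⟨ha, ?_⟩, hd, ?_⟩
      · have := hP c hc
        omega
      · rw [show a + (c - a) = c by omega]
        exact hc
      · rw [show d + (c - a) = b by omega]
        exact hb
    · rintro ⟨⟨a, b⟩, ⟨c, d⟩⟩ hx ⟨⟨a', b'⟩, ⟨c', d'⟩⟩ hx' hxx
      simp only [hF, coe_filter, mem_filter, mem_product, Set.mem_ofPred_eq] at hx hx'
      obtain ⟨⟨_, he⟩, hle⟩ := hx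
      obtain ⟨⟨_, he'⟩, hle'⟩ := hx'
      simp only [Sigma.mk.injEq, heq_eq_eq, Prod.mk.injEq] at hxx
      simp only [Prod.mk.injEq]
      omega
  have h3 := card_filter_add_card_filter_not (s := F) (fun x => x.2.1 ≤ x.1.1)
  rw [← hTc]
  omega

private theorem EN_T_zero (H : ℕ) : (EN_T (PP H) 0).card ≤ H := by
  have h : EN_T (PP H) 0 ⊆ Icc 1 H := by
    intro p hp
    simp only [EN_T, PP, mem_filter, mem_Ioc] at hp
    rw [mem_Icc]
    exact ⟨hp.1.2.pos, hp.1.1.2⟩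
  refine (card_le_card h).trans (by simp)

private theorem EN_T_pos : ∃ C : ℝ, 0 < C ∧ ∀ H d : ℕ, 2 ≤ H → 1 ≤ d →
    ((EN_T (PP H) d).card : ℝ) ≤ C * (((2 * d : ℕ) : ℝ) / (Nat.totient (2 * d) : ℝ)) ^ 2 * H / (Real.log H) ^ 2 := by
  obtain ⟨C, hC, h⟩ := tuple_prog 2 (by norm_num)
  refine ⟨C, hC, fun H d hH hd => ?_⟩
  refine le_trans ?_ (h H 1 0 ![0, d] (2 * d) hH one_pos (one_dvd _) (by omega) ?_ ?_)
  · refine Nat.cast_le.2 (card_le_card ?_)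
    intro p hp
    simp only [EN_T, PP, mem_filter, mem_Ioc] at hp
    rw [mem_filter, mem_Icc]
    refine ⟨⟨hp.1.2.pos, hp.1.1.2⟩, ?_⟩
    intro i
    fin_cases i
    · simpa using hp.1.2
    · simpa using hp.2.2
  · intro p hp hp2
    have : p = 2 := le_antisymm hp2 hp.two_le
    rw [this]
    exact dvd_mul_right _ _
  · intro i j hij p hp hpe
    have key : (d : ZMod p) = 0 → p ∣ 2 * d := by
      intro h0
      exact ((ZMod.natCast_eq_zero_iff d p).1 h0).mul_left 2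
    fin_cases i <;> fin_cases j
    · exact absurd rfl hij
    · apply key
      simpa using hpe.symm
    · apply key
      simpa using hpe
    · exact absurd rfl hij

private theorem EN_log (H : ℕ) : (Real.log H) ^ 4 ≤ 256 * H := by
  have hH0 : (0 : ℝ) ≤ H := Nat.cast_nonneg H
  have h1 := Real.log_le_rpow_div hH0 (ε := 1 / 4) (by norm_num)
  have h0 : 0 ≤ Real.log H := Real.log_natCast_nonneg H
  have h2 := pow_le_pow_left₀ h0 h1 4
  refine h2.trans (le_of_eq ?_)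
  rw [div_pow, ← Real.rpow_natCast, ← Real.rpow_mul hH0]
  norm_num
  ring

private theorem EN_PP : ∃ C : ℝ, 0 < C ∧ ∀ H : ℕ, 2 ≤ H →
    (addE (PP H) : ℝ) ≤ C * (H : ℝ) ^ 3 / (Real.log H) ^ 4 := by
  obtain ⟨C₁, hC₁, h1⟩ := EN_T_pos
  obtain ⟨C₂, hC₂, h2⟩ := phi_moment 4
  refine ⟨2 * (256 + 2 * C₁ ^ 2 * C₂), by positivity, fun H hH => ?_⟩
  have hH2 : (2 : ℝ) ≤ H := by exact_mod_cast hH
  have hH0 : (0 : ℝ) < H := by linarith
  have hlog : 0 < Real.log H := Real.log_pos (by linarith)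
  have hgr : (addE (PP H) : ℝ) ≤ 2 * ∑ d ∈ range (H + 1), ((EN_T (PP H) d).card : ℝ) ^ 2 := by
    have := EN_group (PP H) H (fun p hp => by
      simp only [PP, mem_filter, mem_Ioc] at hp
      exact hp.1.2)
    exact_mod_cast this
  have hsplit : ∑ d ∈ range (H + 1), ((EN_T (PP H) d).card : ℝ) ^ 2 =
      ((EN_T (PP H) 0).card : ℝ) ^ 2 + ∑ d ∈ Icc 1 H, ((EN_T (PP H) d).card : ℝ) ^ 2 := by
    have hins : range (H + 1) = insert 0 (Icc 1 H) := by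
      ext d
      simp only [mem_range, mem_insert, mem_Icc]
      omega
    rw [hins, sum_insert (by simp)]
  have hz : ((EN_T (PP H) 0).card : ℝ) ^ 2 ≤ 256 * (H : ℝ) ^ 3 / (Real.log H) ^ 4 := by
    have h3 : ((EN_T (PP H) 0).card : ℝ) ≤ H := by exact_mod_cast EN_T_zero H
    have h4 : ((EN_T (PP H) 0).card : ℝ) ^ 2 ≤ (H : ℝ) ^ 2 := pow_le_pow_left₀ (Nat.cast_nonneg _) h3 2
    refine h4.trans ?_
    rw [le_div_iff₀ (by positivity)]
    have h5 := mul_le_mul_of_nonneg_left (EN_log H) (by positivity : (0 : ℝ) ≤ (H : ℝ) ^ 2)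
    refine h5.trans (le_of_eq ?_)
    ring
  have hp : ∑ d ∈ Icc 1 H, ((EN_T (PP H) d).card : ℝ) ^ 2 ≤
      C₁ ^ 2 * (H : ℝ) ^ 2 / (Real.log H) ^ 4 * (C₂ * (2 * H : ℕ)) := by
    have h3 : ∑ d ∈ Icc 1 H, ((EN_T (PP H) d).card : ℝ) ^ 2 ≤
        ∑ d ∈ Icc 1 H, C₁ ^ 2 * (H : ℝ) ^ 2 / (Real.log H) ^ 4 *
          (((2 * d : ℕ) : ℝ) / (Nat.totient (2 * d) : ℝ)) ^ 4 := by
      refine sum_le_sum fun d hd => ?_
      rw [mem_Icc] at hd
      refine (pow_le_pow_left₀ (Nat.cast_nonneg _) (h1 H d hH hd.1) 2).trans (le_of_eq ?_)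
      ring
    refine h3.trans ?_
    rw [← mul_sum]
    refine mul_le_mul_of_nonneg_left ?_ (by positivity)
    refine le_trans ?_ (h2 (2 * H))
    rw [← Finset.sum_image (s := Icc 1 H) (g := fun d => 2 * d)
      (f := fun v : ℕ => ((v : ℝ) / (Nat.totient v : ℝ)) ^ 4)]
    · refine sum_le_sum_of_subset_of_nonneg ?_ (fun v _ _ => by positivity)
      intro v hv
      rw [mem_image] at hv
      obtain ⟨d, hd, rfl⟩ := hv
      rw [mem_Icc] at hd ⊢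
      omega
    · intro a _ b _ hab
      simpa using hab
  rw [hsplit] at hgr
  have hfin : 2 * (256 * (H : ℝ) ^ 3 / (Real.log H) ^ 4 +
      C₁ ^ 2 * (H : ℝ) ^ 2 / (Real.log H) ^ 4 * (C₂ * (2 * H : ℕ))) =
      2 * (256 + 2 * C₁ ^ 2 * C₂) * (H : ℝ) ^ 3 / (Real.log H) ^ 4 := by
    push_cast
    ring
  rw [← hfin]
  linarith

theorem energy : ∃ C : ℝ, 0 < C ∧ ∃ H0 : ℕ, ∀ H : ℕ, H0 ≤ H → ∀ G : Finset ℕ, G ⊆ PP H → (PP H).card ≤ 2 * G.card →
    (addE G : ℝ) * H ≤ C * (G.card : ℝ) ^ 4 := by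
  obtain ⟨C₃, hC₃, h3⟩ := EN_PP
  obtain ⟨c, hc, H1, h1⟩ := card_PP
  refine ⟨C₃ * (16 / c ^ 4), by positivity, max 2 H1, fun H hH G hG hcard => ?_⟩
  have hH2 : 2 ≤ H := (le_max_left _ _).trans hH
  have hH1 : H1 ≤ H := (le_max_right _ _).trans hH
  have hH2r : (2 : ℝ) ≤ H := by exact_mod_cast hH2
  have hH0 : (0 : ℝ) < H := by linarith
  have hlog : 0 < Real.log H := Real.log_pos (by linarith)
  have a1 : (addE G : ℝ) ≤ (addE (PP H) : ℝ) := by exact_mod_cast EN_mono hG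
  have a2 := h3 H hH2
  have a3 := h1 H hH1
  have a4 : ((PP H).card : ℝ) ≤ 2 * (G.card : ℝ) := by exact_mod_cast hcard
  have a5 : c * H / (2 * Real.log H) ≤ (G.card : ℝ) := by
    have : c * H / (2 * Real.log H) = (c * H / Real.log H) / 2 := by
      field_simp
    rw [this]
    linarith
  have a6 : (c * H / (2 * Real.log H)) ^ 4 ≤ (G.card : ℝ) ^ 4 := pow_le_pow_left₀ (by positivity) a5 4
  calc (addE G : ℝ) * H ≤ (C₃ * (H : ℝ) ^ 3 / (Real.log H) ^ 4) * H :=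
        mul_le_mul_of_nonneg_right (a1.trans a2) hH0.le
    _ = C₃ * (16 / c ^ 4) * (c * H / (2 * Real.log H)) ^ 4 := by
        field_simp
        norm_num
    _ ≤ C₃ * (16 / c ^ 4) * (G.card : ℝ) ^ 4 := mul_le_mul_of_nonneg_left a6 (by positivity)

end Pool.Agent.Lib.TU2
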