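import Pool.Agent.Lib.TU2.Base
import Pool.Agent.Lib.TU.MrP

/-!
# TU2 / Major (row MA, about 130 lines): exponential sums with `λ` over windows, major arcs, for a mean

STATEMENT: below, verbatim.

PROOF. `η = ε / 4`. For every `d ∈ [1, D]` `mr_prog hL d _ η` gives a `Z0`; let `Z ≥ 1` be at least all of them (a finite maximum): `L (fun x => |∑ z ∈ range Z, lam (x + d * z)|) ≤ η Z` for all `1 ≤ d ≤ D`.
`K0` with `4 (2π C Z + D Z) ≤ ε K0` and `K0 ≥ 1`. Let `K ≥ K0`, `1 ≤ d ≤ D`, `z : ℤ`, `β = α - z/d`, so `|β| < C/(d K) ≤ C/K`.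
Cut `[0, K)` into `J = K / (d Z)` blocks of length `d Z` and a rest of at most `d Z ≤ D Z` terms. `j = j0 + r + d y`, `j0 = i d Z` (`i < J`), `r < d`, `y < Z`:
`cos(2π(α j + θ)) = cos(2π(α(j0 + r) + θ + β d y) + 2π z y) = cos(2π(α(j0+r)+θ + β d y))`, and this differs from `cos(2π(α(j0+r)+θ))` by at most `2π |β| d y ≤ 2π C Z / K` (`|cos a - cos b| ≤ |a - b|`).
So pointwise `|T n| ≤ ∑_{i<J} ∑_{r<d} |∑_{y<Z} λ(n + j0 + r + d y)| + K * (2π C Z / K) + D Z`. Apply `L` (positivity, `L_sum`, `shiftz`): `L |T| ≤ J d η Z + 2π C Z + D Z ≤ η K + 2 π C Z + D Z ≤ ε K`.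
-/

set_option autoImplicit false

open Finset

namespace Pool.Agent.Lib.TU2

open Pool.Agent.Lib.TU

private theorem MA_sum_mul (g : ℕ → ℝ) (J m : ℕ) :
    ∑ j ∈ range (J * m), g j = ∑ i ∈ range J, ∑ t ∈ range m, g (i * m + t) := by
  induction J with
  | zero => simp
  | succ J ih => rw [Nat.succ_mul, sum_range_add, ih, sum_range_succ]

private theorem MA_block (x : ℤ) (d Z : ℕ) (z : ℤ) (α a δ : ℝ) (hδ : |d * α - z| ≤ δ) :
    |∑ y ∈ range Z, lam (x + d * y) * Real.cos (2 * Real.pi * (a + α * (d * y)))| ≤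
      |∑ y ∈ range Z, lam (x + d * y)| + Z * (2 * Real.pi * δ * Z) := by
  have hδ0 : 0 ≤ δ := (abs_nonneg _).trans hδ
  have h1 : ∀ y ∈ range Z,
      |Real.cos (2 * Real.pi * (a + α * (d * y))) - Real.cos (2 * Real.pi * a)| ≤ 2 * Real.pi * δ * Z := by
    intro y hy
    have h2 : 2 * Real.pi * (a + α * (d * y)) =
        (2 * Real.pi * a + 2 * Real.pi * ((d * α - z) * y)) + ((z * (y : ℤ) : ℤ) : ℝ) * (2 * Real.pi) := by
      push_cast
      ring
    rw [h2, Real.cos_add_int_mul_two_pi]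
    refine (Real.abs_cos_sub_cos_le _ _).trans ?_
    rw [add_sub_cancel_left, abs_mul, abs_of_pos (by positivity : (0 : ℝ) < 2 * Real.pi), abs_mul,
      Nat.abs_cast, mul_assoc (2 * Real.pi) δ (Z : ℝ)]
    have h3 : (y : ℝ) ≤ Z := by exact_mod_cast (mem_range.1 hy).le
    exact mul_le_mul_of_nonneg_left (mul_le_mul hδ h3 (Nat.cast_nonneg _) hδ0) (by positivity)
  have h4 : ∑ y ∈ range Z, lam (x + d * y) * Real.cos (2 * Real.pi * (a + α * (d * y))) =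
      Real.cos (2 * Real.pi * a) * ∑ y ∈ range Z, lam (x + d * y) +
        ∑ y ∈ range Z, lam (x + d * y) *
          (Real.cos (2 * Real.pi * (a + α * (d * y))) - Real.cos (2 * Real.pi * a)) := by
    rw [mul_sum, ← sum_add_distrib]
    refine sum_congr rfl fun y _ => ?_
    ring
  rw [h4]
  refine (abs_add_le _ _).trans (add_le_add ?_ ?_)
  · rw [abs_mul]
    exact mul_le_of_le_one_left (abs_nonneg _) (Real.abs_cos_le_one _)
  · refine (abs_sum_le_sum_abs _ _).trans ?_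
    have h5 : ∀ y ∈ range Z, |lam (x + d * y) *
        (Real.cos (2 * Real.pi * (a + α * (d * y))) - Real.cos (2 * Real.pi * a))| ≤ 2 * Real.pi * δ * Z := by
      intro y hy
      rw [abs_mul]
      exact (mul_le_of_le_one_left (abs_nonneg _) (lam_abs_le _)).trans (h1 y hy)
    refine (sum_le_card_nsmul _ _ _ h5).trans (le_of_eq ?_)
    rw [card_range, nsmul_eq_mul]

private theorem MA_point (n : ℤ) (K d Z : ℕ) (z : ℤ) (α θ δ : ℝ) (hδ : |d * α - z| ≤ δ) :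
    |∑ j ∈ range K, lam (n + j) * Real.cos (2 * Real.pi * (α * j + θ))| ≤
      ∑ i ∈ range (K / (Z * d)), ∑ r ∈ range d,
        (|∑ y ∈ range Z, lam ((n + ((i * (Z * d) + r : ℕ) : ℤ)) + d * y)| + Z * (2 * Real.pi * δ * Z)) +
        ((K % (Z * d) : ℕ) : ℝ) := by
  set g : ℕ → ℝ := fun j => lam (n + j) * Real.cos (2 * Real.pi * (α * j + θ)) with hg
  have hg1 : ∀ j, |g j| ≤ 1 := fun j => by
    rw [hg]
    simp only [abs_mul]
    exact mul_le_one₀ (lam_abs_le _) (abs_nonneg _) (Real.abs_cos_le_one _)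
  have h0 : ∑ j ∈ range K, g j = ∑ j ∈ range (K / (Z * d) * (Z * d)), g j +
      ∑ t ∈ range (K % (Z * d)), g (K / (Z * d) * (Z * d) + t) := by
    rw [← sum_range_add, Nat.div_add_mod']
  have h1 : ∑ j ∈ range (K / (Z * d) * (Z * d)), g j =
      ∑ i ∈ range (K / (Z * d)), ∑ r ∈ range d, ∑ y ∈ range Z, g (i * (Z * d) + (y * d + r)) := by
    rw [MA_sum_mul]
    refine sum_congr rfl fun i _ => ?_
    rw [MA_sum_mul, sum_comm]
  rw [h0, h1]
  refine (abs_add_le _ _).trans (add_le_add ?_ ?_)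
  · refine (abs_sum_le_sum_abs _ _).trans (sum_le_sum fun i _ => ?_)
    refine (abs_sum_le_sum_abs _ _).trans (sum_le_sum fun r _ => ?_)
    have h2 := MA_block (n + ((i * (Z * d) + r : ℕ) : ℤ)) d Z z α (α * ((i * (Z * d) + r : ℕ) : ℝ) + θ) δ hδ
    refine le_trans (le_of_eq ?_) h2
    congr 1
    refine sum_congr rfl fun y _ => ?_
    rw [hg]
    simp only
    congr 1
    · congr 1
      push_cast
      ring
    · congr 1
      push_cast
      ring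
  · refine (abs_sum_le_sum_abs _ _).trans ?_
    refine (sum_le_card_nsmul _ _ 1 fun t _ => hg1 _).trans (le_of_eq ?_)
    rw [card_range, nsmul_eq_mul, mul_one]

theorem major {L : (ℤ → ℝ) →ₗ[ℝ] ℝ} (hL : IsMean L) (D : ℕ) (C ε : ℝ) (hC : 0 < C) (hε : 0 < ε) :
    ∃ K0 : ℕ, ∀ K : ℕ, K0 ≤ K → ∀ α θ : ℝ, (∃ d : ℕ, 1 ≤ d ∧ d ≤ D ∧ ∃ z : ℤ, K * |d * α - z| < C) →
      L (fun n => |∑ j ∈ range K, lam (n + j) * Real.cos (2 * Real.pi * (α * j + θ))|) ≤ ε * K := by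
  have hZ0 : ∀ d : ℕ, ∃ Z0 : ℕ, 1 ≤ d → ∀ Z : ℕ, Z0 ≤ Z →
      L (fun x => |∑ y ∈ range Z, lam (x + d * y)|) ≤ ε / 4 * Z := by
    intro d
    by_cases hd : 1 ≤ d
    · obtain ⟨Z0, h⟩ := mr_prog hL d hd (ε / 4) (by positivity)
      exact ⟨Z0, fun _ => h⟩
    · exact ⟨0, fun h => absurd h hd⟩
  choose Z0 hZ0 using hZ0
  set Z : ℕ := 1 + ∑ d ∈ range (D + 1), Z0 d with hZdef
  have hZ1 : 1 ≤ Z := by omega
  have hZ : ∀ d : ℕ, 1 ≤ d → d ≤ D → L (fun x => |∑ y ∈ range Z, lam (x + d * y)|) ≤ ε / 4 * Z := by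
    intro d hd1 hdD
    refine hZ0 d hd1 Z ?_
    have h1 : Z0 d ≤ ∑ d ∈ range (D + 1), Z0 d :=
      single_le_sum (f := Z0) (fun i _ => Nat.zero_le _) (mem_range.2 (by omega))
    omega
  refine ⟨⌈4 * (2 * Real.pi * C * Z + D * Z) / ε⌉₊ + 1, fun K hK α θ => ?_⟩
  rintro ⟨d, hd1, hdD, z, hz⟩
  have hK1 : 1 ≤ K := by omega
  have hKpos : (0 : ℝ) < K := by exact_mod_cast hK1
  have hKbig : 4 * (2 * Real.pi * C * Z + D * Z) ≤ ε * K := by
    have h1 : 4 * (2 * Real.pi * C * Z + D * Z) / ε ≤ K := by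
      refine (Nat.le_ceil _).trans ?_
      exact_mod_cast (by omega : ⌈4 * (2 * Real.pi * C * Z + D * Z) / ε⌉₊ ≤ K)
    rw [div_le_iff₀ hε] at h1
    linarith
  have hδ : |d * α - z| ≤ C / K := by
    rw [le_div_iff₀ hKpos, mul_comm]
    exact hz.le
  have hJ : ((K / (Z * d) : ℕ) : ℝ) * (d * Z) ≤ K := by
    have h1 : K / (Z * d) * (Z * d) ≤ K := Nat.div_mul_le_self _ _
    have h2 : ((K / (Z * d) * (Z * d) : ℕ) : ℝ) ≤ K := by exact_mod_cast h1
    push_cast at h2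
    linarith
  have hrest : ((K % (Z * d) : ℕ) : ℝ) ≤ D * Z := by
    have h1 : K % (Z * d) < Z * d := Nat.mod_lt _ (Nat.mul_pos (by omega) (by omega))
    have h2 : Z * d ≤ D * Z := by
      rw [mul_comm]
      exact Nat.mul_le_mul_right _ hdD
    exact_mod_cast (by omega : K % (Z * d) ≤ D * Z)
  have hBd1 : ∀ m : ℕ, Bd (fun n : ℤ => |∑ y ∈ range Z, lam ((n + (m : ℤ)) + d * y)|) := fun m =>
    Bd.abs (Bd.sum (range Z) (f := fun (y : ℕ) (n : ℤ) => lam ((n + (m : ℤ)) + d * y)) fun y _ => ⟨1, fun n => lam_abs_le _⟩)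
  have hBd2 : Bd (fun n : ℤ => |∑ j ∈ range K, lam (n + j) * Real.cos (2 * Real.pi * (α * j + θ))|) :=
    Bd.abs (Bd.sum (range K) (f := fun (j : ℕ) (n : ℤ) => lam (n + j) * Real.cos (2 * Real.pi * (α * j + θ)))
      fun j _ => Bd.mul ⟨1, fun n => lam_abs_le _⟩ (Bd.const _))
  have hS : ∀ m : ℕ, L (fun n : ℤ => |∑ y ∈ range Z, lam ((n + (m : ℤ)) + d * y)|) ≤ ε / 4 * Z := by
    intro m
    have h1 := hL.shiftz (f := fun x : ℤ => |∑ y ∈ range Z, lam (x + d * y)|)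
      (Bd.abs (Bd.sum (range Z) (f := fun (y : ℕ) (n : ℤ) => lam (n + d * y)) fun y _ => ⟨1, fun n => lam_abs_le _⟩)) (m : ℤ)
    rw [h1]
    exact hZ d hd1 hdD
  have h2 : L (fun n => |∑ j ∈ range K, lam (n + j) * Real.cos (2 * Real.pi * (α * j + θ))|) ≤
      L (fun n => ∑ i ∈ range (K / (Z * d)), ∑ r ∈ range d,
        (|∑ y ∈ range Z, lam ((n + ((i * (Z * d) + r : ℕ) : ℤ)) + d * y)| + Z * (2 * Real.pi * (C / K) * Z)) +
        ((K % (Z * d) : ℕ) : ℝ)) := by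
    refine hL.mono hBd2 (Bd.add (Bd.sum _ fun i _ => Bd.sum _ fun r _ => Bd.add (hBd1 _) (Bd.const _)) (Bd.const _)) ?_
    intro n
    exact MA_point n K d Z z α θ (C / K) hδ
  refine h2.trans ?_
  rw [L_add, hL.const, L_sum]
  have h3 : ∑ i ∈ range (K / (Z * d)), L (fun n => ∑ r ∈ range d,
      (|∑ y ∈ range Z, lam ((n + ((i * (Z * d) + r : ℕ) : ℤ)) + d * y)| + Z * (2 * Real.pi * (C / K) * Z))) ≤
      ((K / (Z * d) : ℕ) : ℝ) * (d * (ε / 4 * Z + Z * (2 * Real.pi * (C / K) * Z))) := by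
    have h4 : ∀ i ∈ range (K / (Z * d)), L (fun n => ∑ r ∈ range d,
        (|∑ y ∈ range Z, lam ((n + ((i * (Z * d) + r : ℕ) : ℤ)) + d * y)| + Z * (2 * Real.pi * (C / K) * Z))) ≤
        d * (ε / 4 * Z + Z * (2 * Real.pi * (C / K) * Z)) := by
      intro i _
      rw [L_sum]
      have h5 : ∀ r ∈ range d, L (fun n : ℤ =>
          |∑ y ∈ range Z, lam ((n + ((i * (Z * d) + r : ℕ) : ℤ)) + d * y)| + Z * (2 * Real.pi * (C / K) * Z)) ≤
          ε / 4 * Z + Z * (2 * Real.pi * (C / K) * Z) := by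
        intro r _
        rw [L_add, hL.const]
        exact add_le_add (hS _) le_rfl
      refine (sum_le_card_nsmul _ _ _ h5).trans (le_of_eq ?_)
      rw [card_range, nsmul_eq_mul]
    refine (sum_le_card_nsmul _ _ _ h4).trans (le_of_eq ?_)
    rw [card_range, nsmul_eq_mul]
  have h6 : ((K / (Z * d) : ℕ) : ℝ) * (d * (ε / 4 * Z + Z * (2 * Real.pi * (C / K) * Z))) ≤
      ε / 4 * K + 2 * Real.pi * C * Z := by
    have h7 : ((K / (Z * d) : ℕ) : ℝ) * (d * (ε / 4 * Z + Z * (2 * Real.pi * (C / K) * Z))) =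
        (((K / (Z * d) : ℕ) : ℝ) * (d * Z)) * (ε / 4 + 2 * Real.pi * (C / K) * Z) := by ring
    rw [h7]
    refine (mul_le_mul_of_nonneg_right hJ (by positivity)).trans (le_of_eq ?_)
    field_simp
  have h8 : 0 ≤ ε * K := by positivity
  linarith

end Pool.Agent.Lib.TU2
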