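import Pool.Agent.Lib.TU2.Minor
import Pool.Agent.Lib.TU2.Major

/-!
# TU2 / Exp: exponential sums with `λ` over windows are small in the mean, uniformly in the frequency
-/

set_option autoImplicit false

open Finset

namespace Pool.Agent.Lib.TU2

open Pool.Agent.Lib.TU

theorem mr_exp {L : (ℤ → ℝ) →ₗ[ℝ] ℝ} (hL : IsMean L) (ε : ℝ) (hε : 0 < ε) : ∃ K0 : ℕ, ∀ K : ℕ, K0 ≤ K → ∀ α θ : ℝ,
      L (fun n => |∑ j ∈ range K, lam (n + j) * Real.cos (2 * Real.pi * (α * j + θ))|) ≤ ε * K := by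
  obtain ⟨D, C, hD, hC, hm⟩ := minor ε hε
  obtain ⟨K0, hK0⟩ := major hL D C ε hC hε
  refine ⟨K0, fun K hK α θ => ?_⟩
  by_cases h : ∀ d : ℕ, 1 ≤ d → d ≤ D → ∀ z : ℤ, C ≤ K * |d * α - z|
  · exact hm L hL K α θ h
  · push Not at h
    obtain ⟨d, h1, h2, z, h3⟩ := h
    exact hK0 K hK α θ ⟨d, h1, h2, z, h3⟩

end Pool.Agent.Lib.TU2
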