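import Pool.Agent.Lib.TU2.BoxG
import Pool.Agent.Lib.TU.Lim
import Pool.Agent.Lib.MP_78b682_nt.Defs

/-!
# TU2 / FinG (row FG, about 130 lines): the statement for logarithmic averages of the problem, every dimension

STATEMENT: below, verbatim.

PROOF. `B0` from `box_succ k d a c .. (fun a ha ε hε => box k d a hd ha ε hε) (ε/2)` (and `B0 ≥ 1`). Given `B`, `N`: `g n` = the double sum over `b` and `h` of the product with `lam` in place of `liou` (`= cu d b n * cu d b (n + d a) * ..`: `prod_mul_distrib`, and `n + s + d a = n + d a + s`), divided by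
`P = N ∏ B i > 0`; `g` is bounded. For every mean `|L g| ≤ 1 - (2/3)^(k+1) + ε/2` (`L_sum`, `L_mul`), so `lim_of_means` for `g` and `-g` gives `|lav X g| ≤ 1 - (2/3)^(k+1) + ε` for natural `X ≥ X0`
(see `gap_lav` in `Pool/Agent/Lib/TU/Lim.lean`, the same step). For real `X ≥ X0`, `logAvg X f` only depends on `⌊X⌋₊ ≥ X0`. For `n ≥ 1` and a shift `h ≥ 0`: `liou (n + h) = lam (n + h)`
(`liou` is `(-1)^Ω`, `lam` is `ArithmeticFunction.liouville` of `natAbs`; see `Pool/Agent/Results/MP_78b682_nt/UniformGap.lean` for this translation: copy it as a private lemma). A finite sum of `lav` is `lav` of the sum.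
-/

set_option autoImplicit false

open Finset

namespace Pool.Agent.Lib.TU2

open Pool.Agent.Lib.TU
open Pool.Agent.Lib.MP_78b682_nt (liou logAvg)

private theorem fg_liou {n : ℤ} (hn : 0 < n) : liou n = lam n := by
  unfold liou lam
  have h1 : n.natAbs ≠ 0 := by omega
  have h2 : n.toNat = n.natAbs := by omega
  rw [if_neg (by omega), h2, ArithmeticFunction.liouville_apply h1]
  push_cast
  rfl

private theorem fg_avg (X : ℝ) (F : ℕ → ℝ) (t : ℤ → ℝ) (h : ∀ n : ℕ, 1 ≤ n → F n = t n) : logAvg X F = lav ⌊X⌋₊ t := by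
  unfold logAvg lav
  rw [sum_congr rfl fun n hn => by rw [h n (mem_Icc.1 hn).1]]

private theorem fg_lav {ι : Type*} (X : ℕ) (s : Finset ι) (f : ι → ℤ → ℝ) : lav X (fun n => ∑ i ∈ s, f i n) = ∑ i ∈ s, lav X (f i) := by
  unfold lav
  rw [← sum_div]
  congr 1
  rw [sum_comm]
  exact sum_congr rfl fun n _ => sum_div _ _ _

private theorem fg_neg (X : ℕ) (f : ℤ → ℝ) : lav X (fun n => -f n) = -lav X f := by
  unfold lav
  rw [← neg_div, ← sum_neg_distrib]
  congr 1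
  exact sum_congr rfl fun n _ => neg_div _ _

private theorem fg_term (d a c h : ℕ) {k : ℕ} (b : Fin k → ℕ) (n : ℕ) (hn : 1 ≤ n) :
    ∏ S : Finset (Fin k), (liou (n + ∑ i ∈ S, (d : ℤ) * b i) * liou (n + ∑ i ∈ S, (d : ℤ) * b i + d * a) *
          (liou (n + ∑ i ∈ S, (d : ℤ) * b i + d * h) * liou (n + ∑ i ∈ S, (d : ℤ) * b i + d * h + d * c))) =
      cu d b n * cu d b (n + d * a) * (cu d b (n + d * h) * cu d b (n + d * h + d * c)) := by
  unfold cu
  rw [← prod_mul_distrib, ← prod_mul_distrib, ← prod_mul_distrib]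
  refine prod_congr rfl fun S _ => ?_
  have h0 : (0 : ℤ) ≤ ∑ i ∈ S, (d : ℤ) * b i := sum_nonneg fun i _ => by positivity
  have h1 : (0 : ℤ) < n := by exact_mod_cast hn
  have ha : (0 : ℤ) ≤ (d : ℤ) * a := by positivity
  have hh : (0 : ℤ) ≤ (d : ℤ) * h := by positivity
  have hc : (0 : ℤ) ≤ (d : ℤ) * c := by positivity
  rw [fg_liou (by linarith), fg_liou (by linarith), fg_liou (by linarith), fg_liou (by linarith)]
  rw [show (n : ℤ) + ∑ i ∈ S, (d : ℤ) * b i + d * a = n + d * a + ∑ i ∈ S, (d : ℤ) * b i by ring,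
    show (n : ℤ) + ∑ i ∈ S, (d : ℤ) * b i + d * h + d * c = n + d * h + d * c + ∑ i ∈ S, (d : ℤ) * b i by ring,
    show (n : ℤ) + ∑ i ∈ S, (d : ℤ) * b i + d * h = n + d * h + ∑ i ∈ S, (d : ℤ) * b i by ring]

theorem fin_gen (k d a c : ℕ) (hd : 0 < d) (ha : 0 < a) (hc : 0 < c) (ε : ℝ) (hε : 0 < ε) :
    ∃ B0 : ℕ, ∀ (B : Fin k → ℕ) (N : ℕ), (∀ i, B0 ≤ B i) → B0 ≤ N → ∃ X0 : ℝ, ∀ X : ℝ, X0 ≤ X →
      |∑ b ∈ Fintype.piFinset (fun i => Icc 1 (B i)), ∑ h ∈ Icc 1 N, logAvg X (fun n =>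
        ∏ S : Finset (Fin k), (liou (n + ∑ i ∈ S, (d : ℤ) * b i) * liou (n + ∑ i ∈ S, (d : ℤ) * b i + d * a) *
          (liou (n + ∑ i ∈ S, (d : ℤ) * b i + d * h) * liou (n + ∑ i ∈ S, (d : ℤ) * b i + d * h + d * c))))| ≤
        (1 - (2 / 3 : ℝ) ^ (k + 1) + ε) * (N * ∏ i, (B i : ℝ)) := by
  obtain ⟨B0, hB0⟩ := box_succ k d a c hd ha hc (fun a ha ε hε => box k d a hd ha ε hε) (ε / 2) (by positivity)
  refine ⟨max B0 1, fun B N hB hN => ?_⟩
  have hN1 : 1 ≤ N := (le_max_right _ _).trans hN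
  have hP : (0 : ℝ) < N * ∏ i, (B i : ℝ) := by
    refine mul_pos (by exact_mod_cast hN1) (prod_pos fun i _ => ?_)
    have : 1 ≤ B i := (le_max_right _ _).trans (hB i)
    exact_mod_cast this
  set P : ℝ := N * ∏ i, (B i : ℝ) with hPdef
  set Y : ℝ := 1 - (2 / 3 : ℝ) ^ (k + 1) with hY
  set t : (Fin k → ℕ) → ℕ → ℤ → ℝ := fun b h n => cu d b n * cu d b (n + d * a) * (cu d b (n + d * h) * cu d b (n + d * h + d * c)) with ht
  set G : ℤ → ℝ := fun n => ∑ b ∈ Fintype.piFinset (fun i => Icc 1 (B i)), ∑ h ∈ Icc 1 N, t b h n with hG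
  have htb : ∀ b h, Bd (t b h) := by
    intro b h
    have h1 : Bd (cu d b) := ⟨1, fun n => cu_abs_le d b n⟩
    exact (h1.mul (h1.comp fun n => n + d * a)).mul ((h1.comp fun n => n + d * h).mul (h1.comp fun n => n + d * h + d * c))
  have hGb : Bd G := Bd.sum _ fun b _ => Bd.sum _ fun h _ => htb b h
  have hL : ∀ L : (ℤ → ℝ) →ₗ[ℝ] ℝ, IsMean L → |L G| ≤ (Y + ε / 2) * P := by
    intro L hLm
    have h1 := hB0 B N (fun i => (le_max_left _ _).trans (hB i)) ((le_max_left _ _).trans hN) L hLm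
    have h2 : L G = ∑ b ∈ Fintype.piFinset (fun i => Icc 1 (B i)), ∑ h ∈ Icc 1 N, L (t b h) := by
      rw [hG, L_sum]
      exact sum_congr rfl fun b _ => L_sum _ _
    rw [h2]
    exact h1
  have hlt : -((Y + ε) * P) < -((Y + ε / 2) * P) := by nlinarith
  obtain ⟨X1, h1⟩ := lim_of_means G hGb (-((Y + ε) * P)) (-((Y + ε / 2) * P)) hlt fun L hLm => (abs_le.1 (hL L hLm)).1
  obtain ⟨X2, h2⟩ := lim_of_means (fun n => -G n) (by simpa using (Bd.const 0).sub hGb) (-((Y + ε) * P)) (-((Y + ε / 2) * P)) hlt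
    fun L hLm => by rw [L_neg]; exact neg_le_neg (abs_le.1 (hL L hLm)).2
  refine ⟨max X1 X2, fun X hX => ?_⟩
  have hX1 : X1 ≤ ⌊X⌋₊ := Nat.le_floor ((le_max_left _ _).trans hX)
  have hX2 : X2 ≤ ⌊X⌋₊ := Nat.le_floor ((le_max_right _ _).trans hX)
  have h3 := h1 _ hX1
  have h4 := h2 _ hX2
  rw [fg_neg] at h4
  have e1 : ∑ b ∈ Fintype.piFinset (fun i => Icc 1 (B i)), ∑ h ∈ Icc 1 N, logAvg X (fun n =>
        ∏ S : Finset (Fin k), (liou (n + ∑ i ∈ S, (d : ℤ) * b i) * liou (n + ∑ i ∈ S, (d : ℤ) * b i + d * a) *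
          (liou (n + ∑ i ∈ S, (d : ℤ) * b i + d * h) * liou (n + ∑ i ∈ S, (d : ℤ) * b i + d * h + d * c)))) = lav ⌊X⌋₊ G := by
    rw [hG, fg_lav]
    refine sum_congr rfl fun b _ => ?_
    rw [fg_lav]
    refine sum_congr rfl fun h _ => ?_
    exact fg_avg X _ (t b h) fun n hn => fg_term d a c h b n hn
  rw [e1, abs_le]
  constructor <;> linarith

end Pool.Agent.Lib.TU2
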