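import Pool.Agent.Lib.TU2.Gm

/-!
# TU2 / GCross (row X3, about 110 lines): the shift trick for an invariant mean

STATEMENT: below, verbatim. This is row XG (CrossG.lean, landed by helper23) with `f (n + d b)` replaced by `f (τ^[b] ω)`: copy that file.

PROOF. `F ω = f(ω) f(τ^a ω)`, `E ω = f(ω) f(τ^c ω)`, `γ b = Λ (F(ω) E(τ^b ω))` (the product in the statement; `f (τ^[b + c] ω) = f (τ^[c] (τ^[b] ω))`). `A = lg τ f c B`, `A' = lg τ f a M`.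
For every `k < M`, `GM.iter` by `k`: `γ b = Λ (F(τ^k ω) E(τ^(k + b) ω))`. So `∑_{b=1}^B γ b = (1/M) ∑_{k<M} Λ (F(τ^k ω) ∑_{b=1}^B E(τ^(k+b) ω))`.
`|∑_{b=1}^B E(τ^(k+b) ω) - B A(ω)| ≤ 2 (k + 1) ≤ 2 M` (index sets `[k+1, k+B]` and `[0, B-1]`, `|E| ≤ 1`). Hence `|∑_b γ b - B Λ (A' A)| ≤ 2 M`, and `|A' A| ≤ (A'² + A²)/2`, so `|Λ (A' A)| ≤ (Λ (A'²) + Λ (A²))/2`.
-/

set_option autoImplicit false

open Finset

namespace Pool.Agent.Lib.TU2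

private theorem x3_abs (v : ℕ → ℝ) (hv : ∀ n, |v n| ≤ 1) (a : ℕ) : |∑ n ∈ range a, v n| ≤ a := by
  refine (abs_sum_le_sum_abs _ _).trans ((sum_le_sum fun n _ => hv n).trans ?_)
  simp

private theorem x3_window (u : ℕ → ℝ) (hu : ∀ n, |u n| ≤ 1) (a B : ℕ) :
    |∑ b ∈ range B, u (a + b) - ∑ b ∈ range B, u b| ≤ 2 * a := by
  have h1 := sum_range_add u B a
  have h2 := sum_range_add u a B
  rw [add_comm a B] at h2
  have e : ∑ b ∈ range B, u (a + b) - ∑ b ∈ range B, u b = ∑ b ∈ range a, u (B + b) - ∑ b ∈ range a, u b := by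
    linarith
  rw [e]
  have b1 := x3_abs u hu a
  have b2 := x3_abs (fun b => u (B + b)) (fun _ => hu _) a
  have b3 := abs_sub (∑ b ∈ range a, u (B + b)) (∑ b ∈ range a, u b)
  linarith

private theorem x3_mul {x y : ℝ} (hx : |x| ≤ 1) (hy : |y| ≤ 1) : |x * y| ≤ 1 := by
  rw [abs_mul]
  exact mul_le_one₀ hx (abs_nonneg _) hy

private theorem x3_lg {Ω : Type} (τ : Ω → Ω) (f : Ω → ℝ) (hf : ∀ ω, |f ω| ≤ 1) (a B : ℕ) (hB : 0 < B) (ω : Ω) :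
    |lg τ f a B ω| ≤ 1 := by
  have hB' : (0 : ℝ) < B := by exact_mod_cast hB
  unfold lg
  rw [abs_div, abs_of_pos hB', div_le_one hB']
  exact x3_abs (fun b => f (τ^[b] ω) * f (τ^[b + a] ω)) (fun _ => x3_mul (hf _) (hf _)) B

theorem cross3 {Ω : Type} {τ : Ω → Ω} {Λ : (Ω → ℝ) →ₗ[ℝ] ℝ} (hΛ : GM τ Λ) (f : Ω → ℝ) (hf : ∀ ω, |f ω| ≤ 1)
    (a c M B : ℕ) (hM : 0 < M) (hMB : M ≤ B) :
    |∑ b ∈ Icc 1 B, Λ (fun ω => f ω * f (τ^[a] ω) * (f (τ^[b] ω) * f (τ^[b + c] ω)))| ≤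
      B * ((Λ (fun ω => lg τ f a M ω ^ 2) + Λ (fun ω => lg τ f c B ω ^ 2)) / 2) + 2 * M := by
  have hB : 0 < B := lt_of_lt_of_le hM hMB
  have hM' : (0 : ℝ) < M := by exact_mod_cast hM
  have hB' : (0 : ℝ) < B := by exact_mod_cast hB
  obtain ⟨F, hF⟩ : ∃ F : Ω → ℝ, ∀ ω, F ω = f ω * f (τ^[a] ω) := ⟨_, fun _ => rfl⟩
  obtain ⟨E, hE⟩ : ∃ E : Ω → ℝ, ∀ ω, E ω = f ω * f (τ^[c] ω) := ⟨_, fun _ => rfl⟩
  have hF1 : ∀ ω, |F ω| ≤ 1 := fun ω => by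
    rw [hF]
    exact x3_mul (hf _) (hf _)
  have hE1 : ∀ ω, |E ω| ≤ 1 := fun ω => by
    rw [hE]
    exact x3_mul (hf _) (hf _)
  have hFk : ∀ (k : ℕ) (ω : Ω), F (τ^[k] ω) = f (τ^[k] ω) * f (τ^[k + a] ω) := by
    intro k ω
    rw [hF, add_comm k a, Function.iterate_add_apply]
  have hEk : ∀ (k : ℕ) (ω : Ω), E (τ^[k] ω) = f (τ^[k] ω) * f (τ^[k + c] ω) := by
    intro k ω
    rw [hE, add_comm k c, Function.iterate_add_apply]
  obtain ⟨S, hS⟩ : ∃ S : Ω → ℝ, ∀ ω, S ω = ∑ b ∈ range B, E (τ^[b] ω) := ⟨_, fun _ => rfl⟩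
  have hgam : ∀ b : ℕ, Λ (fun ω => f ω * f (τ^[a] ω) * (f (τ^[b] ω) * f (τ^[b + c] ω))) =
      Λ (fun ω => F ω * E (τ^[b] ω)) := by
    intro b
    congr 1
    funext ω
    rw [hEk, hF]
  simp only [hgam]
  have hk : ∀ k ∈ range M, |∑ b ∈ Icc 1 B, Λ (fun ω => F ω * E (τ^[b] ω)) - Λ (fun ω => F (τ^[k] ω) * S ω)| ≤ 2 * M := by
    intro k hk
    rw [mem_range] at hk
    have h1 : ∀ b ∈ Icc 1 B, Λ (fun ω => F ω * E (τ^[b] ω)) = Λ (fun ω => F (τ^[k] ω) * E (τ^[b] (τ^[k] ω))) := by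
      intro b _
      exact (hΛ.iter (f := fun ω => F ω * E (τ^[b] ω)) ⟨1, fun ω => x3_mul (hF1 _) (hE1 _)⟩ k).symm
    rw [sum_congr rfl h1, ← GM_sum, ← GM_sub]
    refine hΛ.abs_le fun ω => ?_
    rw [← mul_sum, ← mul_sub]
    have h3 : ∑ b ∈ Icc 1 B, E (τ^[b] (τ^[k] ω)) = ∑ b ∈ range B, (fun m : ℕ => E (τ^[m] ω)) (k + 1 + b) := by
      have h4 : Icc 1 B = Ico 1 (B + 1) := by
        ext x
        rw [mem_Icc, mem_Ico]
        omega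
      rw [h4, sum_Ico_eq_sum_range, show B + 1 - 1 = B by omega]
      refine sum_congr rfl fun b _ => ?_
      simp only
      rw [← Function.iterate_add_apply, show 1 + b + k = k + 1 + b by omega]
    have h5 := x3_window (fun m : ℕ => E (τ^[m] ω)) (fun _ => hE1 _) (k + 1) B
    rw [← h3] at h5
    have h6 : (((k + 1 : ℕ) : ℝ)) ≤ M := by exact_mod_cast hk
    have h9 : |∑ b ∈ Icc 1 B, E (τ^[b] (τ^[k] ω)) - S ω| ≤ 2 * M := by
      rw [hS]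
      refine h5.trans ?_
      linarith
    rw [abs_mul]
    calc |F (τ^[k] ω)| * |∑ b ∈ Icc 1 B, E (τ^[b] (τ^[k] ω)) - S ω| ≤ 1 * (2 * M) := by
          have := hF1 (τ^[k] ω)
          gcongr
      _ = 2 * M := one_mul _
  obtain ⟨G, hG⟩ : ∃ G : ℝ, G = ∑ b ∈ Icc 1 B, Λ (fun ω => F ω * E (τ^[b] ω)) := ⟨_, rfl⟩
  rw [← hG] at hk ⊢
  have hsum : |(M : ℝ) * G - Λ (fun ω => ∑ k ∈ range M, F (τ^[k] ω) * S ω)| ≤ M * (2 * M) := by
    have h1 : (M : ℝ) * G - Λ (fun ω => ∑ k ∈ range M, F (τ^[k] ω) * S ω) =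
        ∑ k ∈ range M, (G - Λ (fun ω => F (τ^[k] ω) * S ω)) := by
      rw [sum_sub_distrib, sum_const, card_range, nsmul_eq_mul, GM_sum (range M) (fun k ω => F (τ^[k] ω) * S ω)]
    rw [h1]
    refine (abs_sum_le_sum_abs _ _).trans ((sum_le_sum hk).trans (le_of_eq ?_))
    rw [sum_const, card_range, nsmul_eq_mul]
  have hTS : (fun ω => ∑ k ∈ range M, F (τ^[k] ω) * S ω) = fun ω => (M * B : ℝ) * (lg τ f a M ω * lg τ f c B ω) := by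
    funext ω
    rw [← sum_mul, hS, sum_congr rfl fun k _ => hFk k ω, sum_congr rfl fun b _ => hEk b ω]
    unfold lg
    field_simp
  rw [hTS, GM_mul] at hsum
  have hA : ∀ ω, |lg τ f a M ω| ≤ 1 := x3_lg τ f hf a M hM
  have hC : ∀ ω, |lg τ f c B ω| ≤ 1 := x3_lg τ f hf c B hB
  have hle : |Λ (fun ω => lg τ f a M ω * lg τ f c B ω)| ≤
      (Λ (fun ω => lg τ f a M ω ^ 2) + Λ (fun ω => lg τ f c B ω ^ 2)) / 2 := by
    have hp : 0 ≤ Λ (fun ω => (lg τ f a M ω + lg τ f c B ω) ^ 2) := by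
      refine hΛ.nonneg _ ⟨2 ^ 2, fun ω => ?_⟩ fun ω => sq_nonneg _
      rw [abs_pow]
      refine pow_le_pow_left₀ (abs_nonneg _) ((abs_add_le _ _).trans ?_) 2
      linarith [hA ω, hC ω]
    have hm : 0 ≤ Λ (fun ω => (lg τ f a M ω - lg τ f c B ω) ^ 2) := by
      refine hΛ.nonneg _ ⟨2 ^ 2, fun ω => ?_⟩ fun ω => sq_nonneg _
      rw [abs_pow]
      refine pow_le_pow_left₀ (abs_nonneg _) ((abs_sub _ _).trans ?_) 2
      linarith [hA ω, hC ω]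
    have ep : Λ (fun ω => (lg τ f a M ω + lg τ f c B ω) ^ 2) =
        Λ (fun ω => lg τ f a M ω ^ 2) + 2 * Λ (fun ω => lg τ f a M ω * lg τ f c B ω) + Λ (fun ω => lg τ f c B ω ^ 2) := by
      rw [← GM_mul 2, ← GM_add, ← GM_add]
      congr 1
      ext ω
      ring
    have em : Λ (fun ω => (lg τ f a M ω - lg τ f c B ω) ^ 2) =
        Λ (fun ω => lg τ f a M ω ^ 2) - 2 * Λ (fun ω => lg τ f a M ω * lg τ f c B ω) + Λ (fun ω => lg τ f c B ω ^ 2) := by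
      rw [← GM_mul 2, ← GM_sub, ← GM_add]
      congr 1
      ext ω
      ring
    rw [abs_le]
    constructor <;> linarith
  have hfin : (M : ℝ) * |G| ≤ M * (B * ((Λ (fun ω => lg τ f a M ω ^ 2) + Λ (fun ω => lg τ f c B ω ^ 2)) / 2) + 2 * M) := by
    have h1 : |(M : ℝ) * G| ≤ |(M : ℝ) * G - M * B * Λ (fun ω => lg τ f a M ω * lg τ f c B ω)| +
        |(M : ℝ) * B * Λ (fun ω => lg τ f a M ω * lg τ f c B ω)| := by
      have := abs_add_le ((M : ℝ) * G - M * B * Λ (fun ω => lg τ f a M ω * lg τ f c B ω)) (M * B * Λ (fun ω => lg τ f a M ω * lg τ f c B ω))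
      rwa [sub_add_cancel] at this
    have h2 : |(M : ℝ) * B * Λ (fun ω => lg τ f a M ω * lg τ f c B ω)| ≤
        M * B * ((Λ (fun ω => lg τ f a M ω ^ 2) + Λ (fun ω => lg τ f c B ω ^ 2)) / 2) := by
      rw [abs_mul, abs_of_pos (mul_pos hM' hB')]
      gcongr
    rw [abs_mul, abs_of_pos hM'] at h1
    linarith
  exact le_of_mul_le_mul_left hfin hM'

end Pool.Agent.Lib.TU2
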