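import Pool.Agent.Lib.TU2.Gm

/-!
# TU2 / GPow (row P3, about 90 lines): tensor powers of a mean

STATEMENT: below, verbatim.

PROOF. Induction on `l`. `l = 0`: `Λ G = G default` (the functions `Fin 0 → ℤ` have one element); `LinearMap.proj`. `l + 1`: `Λ' G = L (fun n => Λ (fun ω => G (Fin.cons n ω)))`, linear in `G` (build the linear map with
`toFun`, `map_add'`, `map_smul'`; both by `map_add`, `map_smul` inside and outside, `funext`). Positivity, normalisation and invariance by those of `Λ` and `L` (`hL.nonneg`, `hL.one`, `IsMean.shiftz` by `d`;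
`Fin.cons (n + d) (fun i => ω i + d) = fun i => Fin.cons n ω i + d`: `Fin.cons_succ`, `Fin.cases`). Boundedness of `n ↦ Λ (..)` by `GM.abs_le`. Product: `∏ i : Fin (l+1), g (Fin.cons n ω i) = g n * ∏ i, g (ω i)` (`Fin.prod_univ_succ`), so
`Λ' (∏ g) = L (fun n => g n * (L g)^l) = (L g)^(l+1)` (`GM_mul`, `L_mul`; note that the linear functionals are defined on all functions, no boundedness is needed here).
-/

set_option autoImplicit false

open Finset

namespace Pool.Agent.Lib.TU2

open Pool.Agent.Lib.TU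

theorem pow3 {L : (ℤ → ℝ) →ₗ[ℝ] ℝ} (hL : IsMean L) (d : ℤ) (l : ℕ) :
    ∃ Λ : ((Fin l → ℤ) → ℝ) →ₗ[ℝ] ℝ, GM (fun (ω : Fin l → ℤ) i => ω i + d) Λ ∧
      ∀ g : ℤ → ℝ, Λ (fun ω => ∏ i, g (ω i)) = (L g) ^ l := by
  induction l with
  | zero =>
    refine ⟨LinearMap.proj (default : Fin 0 → ℤ), ⟨?_, ?_, ?_⟩, ?_⟩
    · intro f _ h
      exact h _
    · rfl
    · intro f _
      exact congrArg f (Subsingleton.elim _ _)
    · intro g
      simp
  | succ l ih =>
    obtain ⟨Λ, hΛ, hg⟩ := ih
    have hb : ∀ f : (Fin (l + 1) → ℤ) → ℝ, (∃ C : ℝ, ∀ ω, |f ω| ≤ C) →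
        Bd (fun n => Λ (fun ω => f (Fin.cons n ω))) := by
      rintro f ⟨C, hC⟩
      exact ⟨C, fun n => hΛ.abs_le fun ω => hC _⟩
    let Λ' : ((Fin (l + 1) → ℤ) → ℝ) →ₗ[ℝ] ℝ :=
      { toFun := fun G => L (fun n => Λ (fun ω => G (Fin.cons n ω)))
        map_add' := by
          intro F G
          rw [← L_add]
          congr 1
          funext n
          exact GM_add _ _
        map_smul' := by
          intro c F
          simp only [RingHom.id_apply, smul_eq_mul]
          rw [← L_mul]
          congr 1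
          funext n
          exact GM_mul _ _ }
    have hdef : ∀ G, Λ' G = L (fun n => Λ (fun ω => G (Fin.cons n ω))) := fun G => rfl
    refine ⟨Λ', ⟨?_, ?_, ?_⟩, ?_⟩
    · intro f hf h0
      rw [hdef]
      obtain ⟨C, hC⟩ := hf
      exact hL.nonneg _ (hb f ⟨C, hC⟩) fun n => hΛ.nonneg _ ⟨C, fun ω => hC _⟩ fun ω => h0 _
    · rw [hdef]
      have h1 : (fun _ : ℤ => Λ (fun _ => 1)) = fun _ => 1 := funext fun _ => hΛ.one
      rw [h1]
      exact hL.one
    · intro f hf
      rw [hdef, hdef]
      have h1 := hL.shiftz (hb f hf) d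
      rw [← h1]
      congr 1
      funext n
      obtain ⟨C, hC⟩ := hf
      have h2 := hΛ.shift (fun ω => f (Fin.cons (n + d) ω)) ⟨C, fun ω => hC _⟩
      rw [← h2]
      congr 1
      funext ω
      congr 1
      funext i
      refine Fin.cases ?_ (fun j => ?_) i
      · simp
      · simp
    · intro g
      rw [hdef]
      have h1 : (fun n : ℤ => Λ (fun ω : Fin l → ℤ => ∏ i, g ((Fin.cons n ω : Fin (l + 1) → ℤ) i))) =
          fun n => (L g) ^ l * g n := by
        funext n
        rw [← hg g, mul_comm, ← GM_mul]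
        congr 1
        funext ω
        rw [Fin.prod_univ_succ]
        simp
      rw [h1, L_mul, pow_succ]

end Pool.Agent.Lib.TU2
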