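import Pool.Agent.Lib.TU2.Gm

/-!
# TU2 / GStep (row S3, about 120 lines): the doubling inequality for a function with values `1, -1` and an invariant mean

STATEMENTS: below, verbatim. (`lg τ f a B ω = (1/B) ∑_{b<B} f(τ^b ω) f(τ^(b+a) ω)`.) This is row SG (StepG.lean, landed by helper24) with `f (n + d b)` replaced by `f (τ^[b] ω)`; here `f` is `1` or `-1` everywhere, which makes it simpler: copy that file.

PROOF of `step3`. `u b = f(τ^b ω) f(τ^(b+a) ω)`; `u b * u (b+a) = f(τ^b ω) f(τ^(b+2a) ω)`. For signs `u, v`: `|u + v| ≤ 1 + u v`. Sum over `b < B`: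
`|∑_{b<B} u b + ∑_{b<B} u (b+a)| ≤ B (1 + lg (2a))`, and `|∑_{b<B} u b - ∑_{b<B} u (b+a)| ≤ 2 a`. So `2 |r_a| ≤ 1 + r_{2a} + 2a/B`, `r_a = lg τ f a B ω`, `|r_a| ≤ 1`.
Squaring, if `a ≤ B`: `4 r_a² ≤ (1 + r_{2a})² + 4 (a/B) (1 + r_{2a}) + 4 a²/B² ≤ 1 + 2 r_{2a} + r_{2a}² + 12 a/B`. If `a > B`: `4 r_a² ≤ 4 ≤ 12 a/B + (1 + r_{2a})²`. Apply `Λ` (`GM.mono`).
`Λ (lg τ f (2a) B) = Λ (f · f∘τ^(2a))`: `GM_sum`, each term is `GM.iter` (`τ^(b + 2a) ω = τ^(2a) (τ^b ω)`: `Function.iterate_add_apply` and commutativity).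
PROOF of `iter3`. Induction on `m` with the sharper claim for all `a`: `Λ (lg a ²) ≤ ∑_{i<m} (1 + 2 c(2^{i+1} a))/4^{i+1} + 4^{-m} + 6 a (1 - 2^{-m})/B`, `c(a) = Λ (f f∘τ^a)` (see the proof in words and the Lean proof of `iter_gen` in StepG.lean).
-/

set_option autoImplicit false

open Finset

namespace Pool.Agent.Lib.TU2

private theorem S3_window (u : ℕ → ℝ) (hu : ∀ n, |u n| ≤ 1) (a B : ℕ) :
    |∑ b ∈ range B, u b - ∑ b ∈ range B, u (b + a)| ≤ 2 * a := by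
  have h1 : ∑ b ∈ range (B + a), u b = ∑ b ∈ range B, u b + ∑ b ∈ range a, u (B + b) :=
    Finset.sum_range_add u B a
  have h2 : ∑ b ∈ range (a + B), u b = ∑ b ∈ range a, u b + ∑ b ∈ range B, u (a + b) :=
    Finset.sum_range_add u a B
  have h3 : ∑ b ∈ range B, u (a + b) = ∑ b ∈ range B, u (b + a) :=
    Finset.sum_congr rfl fun b _ => by rw [add_comm]
  rw [add_comm a B] at h2
  have e : ∑ b ∈ range B, u b - ∑ b ∈ range B, u (b + a) = ∑ b ∈ range a, u b - ∑ b ∈ range a, u (B + b) := by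
    linarith
  rw [e]
  have b : ∀ v : ℕ → ℝ, (∀ n, |v n| ≤ 1) → |∑ n ∈ range a, v n| ≤ a := by
    intro v hv
    refine (Finset.abs_sum_le_sum_abs _ _).trans ((Finset.sum_le_sum fun n _ => hv n).trans ?_)
    simp
  have b1 := b u hu
  have b2 := b (fun b => u (B + b)) fun _ => hu _
  have b3 := abs_sub (∑ b ∈ range a, u b) (∑ b ∈ range a, u (B + b))
  linarith

private theorem S3_double (v : ℕ → ℝ) (hv : ∀ m, v m = 1 ∨ v m = -1) (a B : ℕ) :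
    2 * |∑ b ∈ range B, v b * v (b + a)| ≤ B + ∑ b ∈ range B, v b * v (b + 2 * a) + 2 * a := by
  have habs : ∀ m m' : ℕ, |v m * v m'| ≤ 1 := by
    intro m m'
    rcases hv m with h | h <;> rcases hv m' with h' | h' <;> rw [h, h'] <;> norm_num
  have h1 : |∑ b ∈ range B, v b * v (b + a) - ∑ b ∈ range B, v (b + a) * v (b + a + a)| ≤ 2 * a :=
    S3_window (fun m => v m * v (m + a)) (fun m => habs _ _) a B
  have h2 : |∑ b ∈ range B, v b * v (b + a) + ∑ b ∈ range B, v (b + a) * v (b + a + a)| ≤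
      B + ∑ b ∈ range B, v b * v (b + 2 * a) := by
    rw [← Finset.sum_add_distrib]
    refine (Finset.abs_sum_le_sum_abs _ _).trans ?_
    have e : (B : ℝ) + ∑ b ∈ range B, v b * v (b + 2 * a) = ∑ b ∈ range B, (1 + v b * v (b + 2 * a)) := by
      rw [Finset.sum_add_distrib]
      simp
    rw [e]
    refine Finset.sum_le_sum fun b _ => ?_
    have e2 : b + 2 * a = b + a + a := by ring
    rw [e2]
    rcases hv b with h | h <;> rcases hv (b + a) with h' | h' <;> rcases hv (b + a + a) with h'' | h'' <;>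
      rw [h, h', h''] <;> norm_num
  have h3 := abs_add_le (∑ b ∈ range B, v b * v (b + a) + ∑ b ∈ range B, v (b + a) * v (b + a + a))
    (∑ b ∈ range B, v b * v (b + a) - ∑ b ∈ range B, v (b + a) * v (b + a + a))
  have h4 : (∑ b ∈ range B, v b * v (b + a) + ∑ b ∈ range B, v (b + a) * v (b + a + a)) +
      (∑ b ∈ range B, v b * v (b + a) - ∑ b ∈ range B, v (b + a) * v (b + a + a)) = 2 * ∑ b ∈ range B, v b * v (b + a) := by
    ring
  rw [h4, abs_mul, abs_two] at h3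
  linarith

private theorem S3_abs {Ω : Type} (f : Ω → ℝ) (hf : ∀ ω, f ω = 1 ∨ f ω = -1) (ω : Ω) : |f ω| ≤ 1 := by
  rcases hf ω with h | h <;> rw [h] <;> norm_num

private theorem S3_lg_le {Ω : Type} {τ : Ω → Ω} (f : Ω → ℝ) (hf : ∀ ω, f ω = 1 ∨ f ω = -1) (a B : ℕ) (ω : Ω) (hB : 0 < B) :
    |lg τ f a B ω| ≤ 1 := by
  have hB' : (0 : ℝ) < B := by exact_mod_cast hB
  unfold lg
  rw [abs_div, abs_of_pos hB', div_le_one hB']
  have h : ∀ b ∈ range B, |f (τ^[b] ω) * f (τ^[b + a] ω)| ≤ 1 := by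
    intro b _
    rw [abs_mul]
    exact mul_le_one₀ (S3_abs f hf _) (abs_nonneg _) (S3_abs f hf _)
  refine (Finset.abs_sum_le_sum_abs _ _).trans ((Finset.sum_le_sum h).trans (le_of_eq ?_))
  simp

private theorem S3_point {Ω : Type} {τ : Ω → Ω} (f : Ω → ℝ) (hf : ∀ ω, f ω = 1 ∨ f ω = -1) (a B : ℕ) (ω : Ω) (hB : 0 < B) :
    4 * lg τ f a B ω ^ 2 ≤ 1 + 2 * lg τ f (2 * a) B ω + lg τ f (2 * a) B ω ^ 2 + 12 * a / B := by
  have hB' : (0 : ℝ) < B := by exact_mod_cast hB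
  have h1 := S3_double (fun m : ℕ => f (τ^[m] ω)) (fun m => hf _) a B
  have h2 : 2 * |lg τ f a B ω| ≤ 1 + lg τ f (2 * a) B ω + 2 * (a / B) := by
    unfold lg
    rw [abs_div, abs_of_pos hB']
    have h3 := div_le_div_of_nonneg_right h1 hB'.le
    rw [add_div, add_div, div_self hB'.ne'] at h3
    calc 2 * (|∑ b ∈ range B, f (τ^[b] ω) * f (τ^[b + a] ω)| / B)
        = 2 * |∑ b ∈ range B, f (τ^[b] ω) * f (τ^[b + a] ω)| / B := by ring
      _ ≤ _ := h3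
      _ = _ := by ring
  have h3 := S3_lg_le (τ := τ) f hf a B ω hB
  have h4 := S3_lg_le (τ := τ) f hf (2 * a) B ω hB
  have ht : (0 : ℝ) ≤ a / B := by positivity
  have e12 : (12 : ℝ) * a / B = 12 * (a / B) := by ring
  rw [e12]
  set x := |lg τ f a B ω| with hx
  set y := lg τ f (2 * a) B ω with hy
  set t : ℝ := (a : ℝ) / B with htdef
  have hx2 : lg τ f a B ω ^ 2 = x ^ 2 := by rw [hx, sq_abs]
  have hx0 : 0 ≤ x := abs_nonneg _
  rw [hx2]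
  rw [abs_le] at h4
  rcases le_or_gt t 1 with h5 | h5
  · have h6 : (2 * x) ^ 2 ≤ (1 + y + 2 * t) ^ 2 := pow_le_pow_left₀ (by linarith) h2 2
    have h7 : t * t ≤ t := mul_le_of_le_one_left ht h5
    have h8 : t * (1 + y) ≤ t * 2 := mul_le_mul_of_nonneg_left (by linarith) ht
    nlinarith
  · have h6 : x ^ 2 ≤ 1 := pow_le_one₀ hx0 h3
    nlinarith [sq_nonneg (1 + y)]

private theorem S3_sq_le {Ω : Type} {τ : Ω → Ω} (f : Ω → ℝ) (hf : ∀ ω, f ω = 1 ∨ f ω = -1) (a B : ℕ) (ω : Ω) (hB : 0 < B) :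
    |lg τ f a B ω ^ 2| ≤ 1 := by
  rw [abs_pow]
  exact pow_le_one₀ (abs_nonneg _) (S3_lg_le f hf a B ω hB)

private theorem S3_mean {Ω : Type} {τ : Ω → Ω} {Λ : (Ω → ℝ) →ₗ[ℝ] ℝ} (hΛ : GM τ Λ) (f : Ω → ℝ) (hf : ∀ ω, f ω = 1 ∨ f ω = -1)
    (a B : ℕ) (hB : 0 < B) : Λ (fun ω => lg τ f a B ω) = Λ (fun ω => f ω * f (τ^[a] ω)) := by
  have hB' : (0 : ℝ) < B := by exact_mod_cast hB
  have e : (fun ω => lg τ f a B ω) = fun ω => (1 / (B : ℝ)) * ∑ b ∈ range B, f (τ^[b] ω) * f (τ^[b + a] ω) := by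
    ext ω
    unfold lg
    ring
  rw [e, GM_mul, GM_sum]
  have h : ∀ b ∈ range B, Λ (fun ω => f (τ^[b] ω) * f (τ^[b + a] ω)) = Λ (fun ω => f ω * f (τ^[a] ω)) := by
    intro b _
    have h1 := hΛ.iter (f := fun ω => f ω * f (τ^[a] ω)) ⟨1, fun ω => by
      rw [abs_mul]
      exact mul_le_one₀ (S3_abs f hf _) (abs_nonneg _) (S3_abs f hf _)⟩ b
    rw [← h1]
    have e2 : (fun ω => f (τ^[b] ω) * f (τ^[b + a] ω)) = fun ω => f (τ^[b] ω) * f (τ^[a] (τ^[b] ω)) := by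
      ext ω
      rw [← Function.iterate_add_apply, add_comm a b]
    rw [e2]
  rw [Finset.sum_congr rfl h, Finset.sum_const, card_range, nsmul_eq_mul, ← mul_assoc, one_div, inv_mul_cancel₀ hB'.ne', one_mul]

theorem step3 {Ω : Type} {τ : Ω → Ω} {Λ : (Ω → ℝ) →ₗ[ℝ] ℝ} (hΛ : GM τ Λ) (f : Ω → ℝ) (hf : ∀ ω, f ω = 1 ∨ f ω = -1)
    (a B : ℕ) (ha : 0 < a) (hB : 0 < B) :
    4 * Λ (fun ω => lg τ f a B ω ^ 2) ≤
      1 + 2 * Λ (fun ω => f ω * f (τ^[2 * a] ω)) + Λ (fun ω => lg τ f (2 * a) B ω ^ 2) + 12 * a / B := by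
  have hb1 : ∃ C : ℝ, ∀ ω, |4 * lg τ f a B ω ^ 2| ≤ C := ⟨4, fun ω => by
    rw [abs_mul, abs_of_pos (by norm_num : (0 : ℝ) < 4)]
    have := S3_sq_le (τ := τ) f hf a B ω hB
    linarith⟩
  have hb2 : ∃ C : ℝ, ∀ ω, |1 + 2 * lg τ f (2 * a) B ω + lg τ f (2 * a) B ω ^ 2 + 12 * a / B| ≤ C :=
    ⟨4 + |(12 : ℝ) * a / B|, fun ω => by
      have h1 := S3_sq_le (τ := τ) f hf (2 * a) B ω hB
      have h2 := S3_lg_le (τ := τ) f hf (2 * a) B ω hB
      have h3 := abs_add_le (1 + 2 * lg τ f (2 * a) B ω + lg τ f (2 * a) B ω ^ 2) ((12 : ℝ) * a / B)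
      have h4 := abs_add_le (1 + 2 * lg τ f (2 * a) B ω) (lg τ f (2 * a) B ω ^ 2)
      have h5 := abs_add_le 1 (2 * lg τ f (2 * a) B ω)
      rw [abs_one, abs_mul, abs_two] at h5
      linarith⟩
  have h1 := hΛ.mono hb1 hb2 fun ω => S3_point f hf a B ω hB
  rw [GM_mul, GM_add, GM_add, GM_add, GM_mul, hΛ.const, hΛ.const, S3_mean hΛ f hf (2 * a) B hB] at h1
  exact h1

theorem iter3 {Ω : Type} {τ : Ω → Ω} {Λ : (Ω → ℝ) →ₗ[ℝ] ℝ} (hΛ : GM τ Λ) (f : Ω → ℝ) (hf : ∀ ω, f ω = 1 ∨ f ω = -1)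
    (a B : ℕ) (ha : 0 < a) (hB : 0 < B) (m : ℕ) :
    Λ (fun ω => lg τ f a B ω ^ 2) ≤
      ∑ i ∈ range m, (1 + 2 * Λ (fun ω => f ω * f (τ^[2 ^ (i + 1) * a] ω))) / 4 ^ (i + 1) + 1 / 4 ^ m + 6 * a / B := by
  have hB' : (0 : ℝ) < B := by exact_mod_cast hB
  have key : ∀ (m a : ℕ), 0 < a → Λ (fun ω => lg τ f a B ω ^ 2) ≤
      ∑ i ∈ range m, (1 + 2 * Λ (fun ω => f ω * f (τ^[2 ^ (i + 1) * a] ω))) / 4 ^ (i + 1) + 1 / 4 ^ m +
        6 * a * (1 - (1 / 2) ^ m) / B := by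
    intro m
    induction m with
    | zero =>
      intro a _
      have h1 : Λ (fun ω => lg τ f a B ω ^ 2) ≤ 1 :=
        (le_abs_self _).trans (hΛ.abs_le fun ω => S3_sq_le f hf a B ω hB)
      simpa using h1
    | succ m ih =>
      intro a ha
      have h1 := step3 hΛ f hf a B ha hB
      have h2 := ih (2 * a) (by omega)
      rw [Finset.sum_range_succ']
      have h3 : ∑ i ∈ range m, (1 + 2 * Λ (fun ω => f ω * f (τ^[2 ^ (i + 1 + 1) * a] ω))) / 4 ^ (i + 1 + 1) =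
          (∑ i ∈ range m, (1 + 2 * Λ (fun ω => f ω * f (τ^[2 ^ (i + 1) * (2 * a)] ω))) / 4 ^ (i + 1)) / 4 := by
        rw [Finset.sum_div]
        refine Finset.sum_congr rfl fun i _ => ?_
        have e : 2 ^ (i + 1) * (2 * a) = 2 ^ (i + 1 + 1) * a := by ring
        rw [e, pow_succ 4 (i + 1)]
        field_simp
      have h4 : (2 : ℕ) ^ (0 + 1) * a = 2 * a := by ring
      rw [h3, h4]
      have h5 : (6 : ℝ) * a * (1 - (1 / 2) ^ (m + 1)) / B =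
          (6 * ((2 * a : ℕ) : ℝ) * (1 - (1 / 2) ^ m) / B) / 4 + 12 * a / B / 4 := by
        rw [pow_succ]
        push_cast
        field_simp
        ring
      have h6 : (1 : ℝ) / 4 ^ (m + 1) = 1 / 4 ^ m / 4 := by
        rw [pow_succ]
        field_simp
      rw [h5, h6]
      norm_num only [zero_add, pow_one]
      linarith
  refine (key m a ha).trans (add_le_add le_rfl ?_)
  refine div_le_div_of_nonneg_right ?_ hB'.le
  have h1 : (0 : ℝ) ≤ (1 / 2) ^ m := by positivity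
  have h2 : (0 : ℝ) ≤ 6 * a := by positivity
  nlinarith

end Pool.Agent.Lib.TU2
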