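import Pool.Agent.Lib.TU2.Two
import Pool.Agent.Lib.TU2.GStep
import Pool.Agent.Lib.TU2.GCross
import Pool.Agent.Lib.TU2.GPow

/-!
# TU2 / GBox (row B3, about 220 lines): moments of the correlations over boxes of sides of cubes, for every dimension

STATEMENTS: below, verbatim. This is row BG (BoxG.lean, landed by helper42) for the `l`-th powers: copy its structure.

Notation: `y k = 1 - (2/3)^k`, `Π = ∏ i, B i`. Given `L`, take `Λ` from `pow3 hL d l`, `τ ω = fun i => ω i + d`, so `τ^[m] ω = fun i => ω i + d * m` (induction on `m`, a private lemma), and `F_b ω = ∏ i, ct d b (ω i)` (`1` or `-1`: `ct_pm`).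
`F_b ω * F_b (τ^[a] ω) = ∏ i, (ct d b (ω i) * ct d b (ω i + d * a))` (`prod_mul_distrib`), so `Λ` of it is `(L (ct d b n * ct d b (n + d a)))^l`; the same for the product of four factors.
PROOF of `box3_succ`. `m` with `1/4^m ≤ ε/8`, `M ≥ 1` with `6 (a + c)/M ≤ ε/8`, `B0` at least `M`, with `2 M / B0 ≤ ε/8`, `B0 ≥ 1`, and at least the numbers given by the hypothesis `h` for the sides `2^{i+1} a` and `2^{i+1} c`, `i < m`, and `ε/8`.
For each `b` in the box, `cross3` with `f = F_b`, `B = N`: `|∑_{h=1}^N ..| ≤ N (E_a(b) + E_c(b))/2 + 2 M`, `E_a(b) = Λ (lg τ F_b a M ²)`, `E_c(b) = Λ (lg τ F_b c N ²)`. By `iter3` and `h`: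
`∑_b E_a(b) ≤ ∑_{i<m} (Π + 2 ∑_b Λ (F_b F_b∘τ^(2^{i+1} a)))/4^{i+1} + (1/4^m + 6 a/M) Π ≤ Π (∑_{i<m} (1 + 2 (y k + ε/8))/4^{i+1} + ε/8 + 6a/M)`, `∑_{i<m} 1/4^{i+1} ≤ 1/3`, `(1 + 2 y k)/3 = y (k+1)`. The same for `E_c` with `N ≥ M`.
Sum: `≤ N Π (y (k+1) + ε/12 + ε/8 + ε/8) + 2 M Π ≤ N Π (y (k+1) + ε)`.
PROOF of `box3`. Induction on `k`. `k = 0`: the box has one element, `ct d b n = lt n` (`ct_zero`), and `L (lt(n) lt(n + d a)) = L (lam(n) lam(n + d a)) = 0` (`L_eq_of_ge hL .. 0`, `lt_eq`, `two_point`), and `0^l = 0` since `0 < l`.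
`k + 1`: as in BoxG: a sum over the box of `Fin (k+1)` is a double sum (`b = Fin.cons h b'`), `ct_cons`, `box_succ` with `c = a`, `∏ i, B i = B 0 * ∏ i, B i.succ`.
-/

set_option autoImplicit false

open Finset

namespace Pool.Agent.Lib.TU2

open Pool.Agent.Lib.TU

/-- the geometric sum -/
private theorem GB_geom (m : ℕ) : ∑ i ∈ range m, (1 / 4 ^ (i + 1) : ℝ) = (1 - 1 / 4 ^ m) / 3 := by
  induction m with
  | zero => simp
  | succ m ih =>
    rw [sum_range_succ, ih]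
    field_simp
    ring

private theorem GB_card {k : ℕ} (B : Fin k → ℕ) : ((Fintype.piFinset (fun i => Icc 1 (B i))).card : ℝ) = ∏ i, (B i : ℝ) := by
  rw [Fintype.card_piFinset]
  push_cast
  exact prod_congr rfl fun i _ => by simp

/-- the iterates of the diagonal shift -/
private theorem GB_iter {l : ℕ} (d : ℕ) (m : ℕ) (ω : Fin l → ℤ) :
    (fun (ω : Fin l → ℤ) i => ω i + (d : ℤ))^[m] ω = fun i => ω i + d * m := by
  induction m with
  | zero => simp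
  | succ m ih =>
    rw [Function.iterate_succ_apply', ih]
    funext i
    push_cast
    ring

/-- the product of the signs over the coordinates -/
private noncomputable def GB_F (d l : ℕ) {k : ℕ} (b : Fin k → ℕ) (ω : Fin l → ℤ) : ℝ := ∏ i, ct d b (ω i)

private theorem GB_F_pm (d l : ℕ) {k : ℕ} (b : Fin k → ℕ) (ω : Fin l → ℤ) : GB_F d l b ω = 1 ∨ GB_F d l b ω = -1 := by
  unfold GB_F
  refine prod_induction _ (fun x : ℝ => x = 1 ∨ x = -1) ?_ (Or.inl rfl) ?_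
  · rintro x y (rfl | rfl) (rfl | rfl) <;> norm_num
  · intro i _
    exact ct_pm _ _ _

private theorem GB_F_abs (d l : ℕ) {k : ℕ} (b : Fin k → ℕ) (ω : Fin l → ℤ) : |GB_F d l b ω| ≤ 1 := by
  rcases GB_F_pm d l b ω with h | h <;> rw [h] <;> norm_num

private theorem GB_two {L : (ℤ → ℝ) →ₗ[ℝ] ℝ} (d l : ℕ) {Λ : ((Fin l → ℤ) → ℝ) →ₗ[ℝ] ℝ}
    (hP : ∀ g : ℤ → ℝ, Λ (fun ω => ∏ i, g (ω i)) = (L g) ^ l) {k : ℕ} (b : Fin k → ℕ) (a : ℕ) :
    Λ (fun ω => GB_F d l b ω * GB_F d l b ((fun (ω : Fin l → ℤ) i => ω i + (d : ℤ))^[a] ω)) =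
      L (fun n => ct d b n * ct d b (n + d * a)) ^ l := by
  rw [← hP]
  congr 1
  funext ω
  rw [GB_iter]
  unfold GB_F
  rw [← prod_mul_distrib]

private theorem GB_four {L : (ℤ → ℝ) →ₗ[ℝ] ℝ} (d l : ℕ) {Λ : ((Fin l → ℤ) → ℝ) →ₗ[ℝ] ℝ}
    (hP : ∀ g : ℤ → ℝ, Λ (fun ω => ∏ i, g (ω i)) = (L g) ^ l) {k : ℕ} (b : Fin k → ℕ) (a c h : ℕ) :
    Λ (fun ω => GB_F d l b ω * GB_F d l b ((fun (ω : Fin l → ℤ) i => ω i + (d : ℤ))^[a] ω) *
      (GB_F d l b ((fun (ω : Fin l → ℤ) i => ω i + (d : ℤ))^[h] ω) *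
        GB_F d l b ((fun (ω : Fin l → ℤ) i => ω i + (d : ℤ))^[h + c] ω))) =
      L (fun n => ct d b n * ct d b (n + d * a) * (ct d b (n + d * h) * ct d b (n + d * h + d * c))) ^ l := by
  rw [← hP]
  congr 1
  funext ω
  rw [GB_iter, GB_iter, GB_iter]
  unfold GB_F
  rw [← prod_mul_distrib, ← prod_mul_distrib, ← prod_mul_distrib]
  refine prod_congr rfl fun i _ => ?_
  have e : ω i + (d : ℤ) * ((h + c : ℕ) : ℤ) = ω i + d * h + d * c := by push_cast; ring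
  beta_reduce
  rw [e]

/-- the averages of the squares over the box -/
private theorem GB_avg {L : (ℤ → ℝ) →ₗ[ℝ] ℝ} (k l d a M m : ℕ) {Λ : ((Fin l → ℤ) → ℝ) →ₗ[ℝ] ℝ}
    (hΛ : GM (fun (ω : Fin l → ℤ) i => ω i + (d : ℤ)) Λ)
    (hP : ∀ g : ℤ → ℝ, Λ (fun ω => ∏ i, g (ω i)) = (L g) ^ l) (ha : 0 < a) (hM : 0 < M) (δ : ℝ)
    (B : Fin k → ℕ) (hδ : 0 ≤ δ)
    (h : ∀ i, i < m → |∑ b ∈ Fintype.piFinset (fun i => Icc 1 (B i)), L (fun n => ct d b n * ct d b (n + d * (2 ^ (i + 1) * a : ℕ))) ^ l| ≤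
      (1 - (2 / 3 : ℝ) ^ k + δ) * ∏ i, (B i : ℝ)) :
    ∑ b ∈ Fintype.piFinset (fun i => Icc 1 (B i)), Λ (fun ω => lg (fun (ω : Fin l → ℤ) i => ω i + (d : ℤ)) (GB_F d l b) a M ω ^ 2) ≤
      ((1 - (2 / 3 : ℝ) ^ (k + 1)) + 2 / 3 * δ + 1 / 4 ^ m + 6 * a / M) * ∏ i, (B i : ℝ) := by
  set P : ℝ := ∏ i, (B i : ℝ) with hPdef
  have hP0 : 0 ≤ P := prod_nonneg fun i _ => by positivity
  set X := Fintype.piFinset (fun i => Icc 1 (B i)) with hX
  have hcard : (X.card : ℝ) = P := GB_card B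
  calc ∑ b ∈ X, Λ (fun ω => lg (fun (ω : Fin l → ℤ) i => ω i + (d : ℤ)) (GB_F d l b) a M ω ^ 2)
      ≤ ∑ b ∈ X, (∑ i ∈ range m, (1 + 2 * L (fun n => ct d b n * ct d b (n + d * (2 ^ (i + 1) * a : ℕ))) ^ l) / 4 ^ (i + 1) + 1 / 4 ^ m + 6 * a / M) := by
        refine sum_le_sum fun b _ => ?_
        refine (iter3 hΛ (GB_F d l b) (GB_F_pm d l b) a M ha hM m).trans (le_of_eq ?_)
        congr 2
        refine sum_congr rfl fun i _ => ?_
        rw [GB_two d l hP b (2 ^ (i + 1) * a)]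
    _ = ∑ i ∈ range m, (P + 2 * ∑ b ∈ X, L (fun n => ct d b n * ct d b (n + d * (2 ^ (i + 1) * a : ℕ))) ^ l) / 4 ^ (i + 1) + P * (1 / 4 ^ m + 6 * a / M) := by
        simp only [add_assoc]
        rw [sum_add_distrib, sum_comm, sum_const, nsmul_eq_mul, hcard]
        congr 1
        refine sum_congr rfl fun i _ => ?_
        rw [← sum_div, sum_add_distrib, sum_const, nsmul_eq_mul, hcard, mul_one, ← mul_sum]
    _ ≤ ∑ i ∈ range m, (P * (1 + 2 * (1 - (2 / 3 : ℝ) ^ k + δ))) * (1 / 4 ^ (i + 1)) + P * (1 / 4 ^ m + 6 * a / M) := by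
        refine add_le_add (sum_le_sum fun i hi => ?_) le_rfl
        rw [div_eq_mul_one_div]
        refine mul_le_mul_of_nonneg_right ?_ (by positivity)
        have := (abs_le.1 (h i (mem_range.1 hi))).2
        nlinarith [this]
    _ ≤ ((1 - (2 / 3 : ℝ) ^ (k + 1)) + 2 / 3 * δ + 1 / 4 ^ m + 6 * a / M) * P := by
        rw [← mul_sum, GB_geom]
        have hpow : (0 : ℝ) ≤ 1 / 4 ^ m := by positivity
        have hy : (2 / 3 : ℝ) ^ k ≤ 1 := pow_le_one₀ (by norm_num) (by norm_num)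
        have e : (2 / 3 : ℝ) ^ (k + 1) = 2 / 3 * (2 / 3 : ℝ) ^ k := by rw [pow_succ]; ring
        have hz : (0 : ℝ) ≤ (1 + 2 * (1 - (2 / 3 : ℝ) ^ k + δ)) * (1 / 4 ^ m) := by
          refine mul_nonneg ?_ hpow
          linarith
        have h2 := mul_nonneg hP0 hz
        rw [e]
        nlinarith [h2]

theorem box3_succ (k l d a c : ℕ) (hl : 0 < l) (hd : 0 < d) (ha : 0 < a) (hc : 0 < c)
    (h : ∀ a : ℕ, 0 < a → ∀ ε : ℝ, 0 < ε → ∃ B0 : ℕ, ∀ B : Fin k → ℕ, (∀ i, B0 ≤ B i) → ∀ L : (ℤ → ℝ) →ₗ[ℝ] ℝ, IsMean L →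
      |∑ b ∈ Fintype.piFinset (fun i => Icc 1 (B i)), L (fun n => ct d b n * ct d b (n + d * a)) ^ l| ≤
        (1 - (2 / 3 : ℝ) ^ k + ε) * ∏ i, (B i : ℝ))
    (ε : ℝ) (hε : 0 < ε) :
    ∃ B0 : ℕ, ∀ (B : Fin k → ℕ) (N : ℕ), (∀ i, B0 ≤ B i) → B0 ≤ N → ∀ L : (ℤ → ℝ) →ₗ[ℝ] ℝ, IsMean L →
      |∑ b ∈ Fintype.piFinset (fun i => Icc 1 (B i)), ∑ h ∈ Icc 1 N,
        L (fun n => ct d b n * ct d b (n + d * a) * (ct d b (n + d * h) * ct d b (n + d * h + d * c))) ^ l| ≤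
        (1 - (2 / 3 : ℝ) ^ (k + 1) + ε) * (N * ∏ i, (B i : ℝ)) := by
  obtain ⟨m, hm⟩ := exists_pow_lt_of_lt_one (show (0 : ℝ) < ε / 8 by positivity) (show (1 / 4 : ℝ) < 1 by norm_num)
  have hm' : (1 : ℝ) / 4 ^ m ≤ ε / 8 := by
    rw [← one_div_pow]
    exact hm.le
  obtain ⟨M0, hM0⟩ := exists_nat_ge (6 * ((a : ℝ) + c) / (ε / 8))
  set M : ℕ := M0 + 1 with hMdef
  have hM : 0 < M := Nat.succ_pos _
  have hMr : (0 : ℝ) < M := by exact_mod_cast hM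
  have hMa : 6 * ((a : ℝ) + c) / M ≤ ε / 8 := by
    rw [div_le_iff₀ hMr]
    rw [div_le_iff₀ (by positivity)] at hM0
    have : (M : ℝ) = M0 + 1 := by rw [hMdef]; push_cast; ring
    rw [this]
    nlinarith
  choose Ba hBa using fun i : ℕ => h (2 ^ (i + 1) * a) (by positivity) (ε / 8) (by positivity)
  choose Bc hBc using fun i : ℕ => h (2 ^ (i + 1) * c) (by positivity) (ε / 8) (by positivity)
  obtain ⟨N0, hN0⟩ := exists_nat_ge (2 * (M : ℝ) / (ε / 8))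
  refine ⟨M + N0 + (range m).sup Ba + (range m).sup Bc, fun B N hB hN L hL => ?_⟩
  obtain ⟨Λ, hΛ, hprod⟩ := pow3 hL (d : ℤ) l
  set P : ℝ := ∏ i, (B i : ℝ) with hP
  have hP0 : 0 ≤ P := prod_nonneg fun i _ => by positivity
  set X := Fintype.piFinset (fun i => Icc 1 (B i)) with hX
  have hcard : (X.card : ℝ) = P := GB_card B
  have hMN : M ≤ N := by omega
  have hNr : (M : ℝ) ≤ N := by exact_mod_cast hMN
  have hN0N : (N0 : ℝ) ≤ N := by exact_mod_cast (show N0 ≤ N by omega)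
  have hN2 : 2 * (M : ℝ) ≤ ε / 8 * N := by
    rw [div_le_iff₀ (by positivity)] at hN0
    nlinarith
  have hNpos : (0 : ℝ) < N := lt_of_lt_of_le hMr hNr
  have hEa := GB_avg k l d a M m hΛ hprod ha hM (ε / 8) B (by positivity) fun i hi => by
    refine hBa i B (fun j => ?_) L hL
    have := Finset.le_sup (f := Ba) (mem_range.2 hi)
    have := hB j
    omega
  have hEc := GB_avg k l d c N m hΛ hprod hc (by omega) (ε / 8) B (by positivity) fun i hi => by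
    refine hBc i B (fun j => ?_) L hL
    have := Finset.le_sup (f := Bc) (mem_range.2 hi)
    have := hB j
    omega
  have hcN : 6 * (c : ℝ) / N ≤ ε / 8 := by
    refine le_trans ?_ hMa
    calc 6 * (c : ℝ) / N ≤ 6 * (c : ℝ) / M := div_le_div_of_nonneg_left (by positivity) hMr hNr
      _ ≤ _ := div_le_div_of_nonneg_right (by nlinarith [show (0 : ℝ) ≤ a from by positivity]) hMr.le
  have haM : 6 * (a : ℝ) / M ≤ ε / 8 := by
    refine le_trans ?_ hMa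
    exact div_le_div_of_nonneg_right (by nlinarith [show (0 : ℝ) ≤ c from by positivity]) hMr.le
  have hEa' : ∑ b ∈ X, Λ (fun ω => lg (fun (ω : Fin l → ℤ) i => ω i + (d : ℤ)) (GB_F d l b) a M ω ^ 2) ≤ ((1 - (2 / 3 : ℝ) ^ (k + 1)) + ε / 2) * P :=
    hEa.trans (mul_le_mul_of_nonneg_right (by linarith) hP0)
  have hEc' : ∑ b ∈ X, Λ (fun ω => lg (fun (ω : Fin l → ℤ) i => ω i + (d : ℤ)) (GB_F d l b) c N ω ^ 2) ≤ ((1 - (2 / 3 : ℝ) ^ (k + 1)) + ε / 2) * P :=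
    hEc.trans (mul_le_mul_of_nonneg_right (by linarith) hP0)
  calc |∑ b ∈ X, ∑ h ∈ Icc 1 N, L (fun n => ct d b n * ct d b (n + d * a) * (ct d b (n + d * h) * ct d b (n + d * h + d * c))) ^ l|
      ≤ ∑ b ∈ X, |∑ h ∈ Icc 1 N, L (fun n => ct d b n * ct d b (n + d * a) * (ct d b (n + d * h) * ct d b (n + d * h + d * c))) ^ l| :=
        abs_sum_le_sum_abs _ _
    _ ≤ ∑ b ∈ X, (N * ((Λ (fun ω => lg (fun (ω : Fin l → ℤ) i => ω i + (d : ℤ)) (GB_F d l b) a M ω ^ 2) +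
          Λ (fun ω => lg (fun (ω : Fin l → ℤ) i => ω i + (d : ℤ)) (GB_F d l b) c N ω ^ 2)) / 2) + 2 * M) := by
        refine sum_le_sum fun b _ => ?_
        have h1 := cross3 hΛ (GB_F d l b) (GB_F_abs d l b) a c M N hM hMN
        refine le_trans (le_of_eq ?_) h1
        congr 1
        refine sum_congr rfl fun h _ => ?_
        rw [GB_four d l hprod b a c h]
    _ = N * ((∑ b ∈ X, Λ (fun ω => lg (fun (ω : Fin l → ℤ) i => ω i + (d : ℤ)) (GB_F d l b) a M ω ^ 2) +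
          ∑ b ∈ X, Λ (fun ω => lg (fun (ω : Fin l → ℤ) i => ω i + (d : ℤ)) (GB_F d l b) c N ω ^ 2)) / 2) + P * (2 * M) := by
        rw [sum_add_distrib, sum_const, nsmul_eq_mul, hcard, ← mul_sum, ← sum_div, sum_add_distrib]
    _ ≤ N * (((1 - (2 / 3 : ℝ) ^ (k + 1)) + ε / 2) * P) + P * (ε / 8 * N) := by
        refine add_le_add (mul_le_mul_of_nonneg_left ?_ hNpos.le) (mul_le_mul_of_nonneg_left hN2 hP0)
        linarith
    _ ≤ (1 - (2 / 3 : ℝ) ^ (k + 1) + ε) * (N * P) := by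
        have := mul_nonneg hNpos.le hP0
        nlinarith

/-- a sum over the box of one more dimension -/
private theorem GB_sum {k : ℕ} (B : Fin (k + 1) → ℕ) (F : (Fin (k + 1) → ℕ) → ℝ) :
    ∑ b ∈ Fintype.piFinset (fun i => Icc 1 (B i)), F b =
      ∑ b ∈ Fintype.piFinset (fun i : Fin k => Icc 1 (B i.succ)), ∑ h ∈ Icc 1 (B 0), F (Fin.cons h b : Fin (k + 1) → ℕ) := by
  rw [← sum_product']
  refine sum_bij' (fun b _ => (Fin.tail b, b 0)) (fun x _ => (Fin.cons x.2 x.1 : Fin (k + 1) → ℕ)) ?_ ?_ ?_ ?_ ?_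
  · intro b hb
    rw [Fintype.mem_piFinset] at hb
    refine mem_product.2 ⟨Fintype.mem_piFinset.2 fun i => hb i.succ, hb 0⟩
  · intro x hx
    rw [mem_product, Fintype.mem_piFinset] at hx
    rw [Fintype.mem_piFinset]
    intro i
    refine Fin.cases ?_ (fun j => ?_) i
    · simpa using hx.2
    · simpa using hx.1 j
  · intro b _
    exact Fin.cons_self_tail b
  · intro x _
    simp
  · intro b _
    simp only [Fin.cons_self_tail]

private theorem GB_bd {f g : ℤ → ℝ} (hf : ∀ n, |f n| ≤ 1) (hg : ∀ n, |g n| ≤ 1) : Bd (fun n => f n * g n) :=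
  ⟨1, fun n => by
    rw [abs_mul]
    exact mul_le_one₀ (hf n) (abs_nonneg _) (hg n)⟩

theorem box3 (k : ℕ) : ∀ l d a : ℕ, 0 < l → 0 < d → 0 < a → ∀ ε : ℝ, 0 < ε → ∃ B0 : ℕ, ∀ B : Fin k → ℕ, (∀ i, B0 ≤ B i) →
    ∀ L : (ℤ → ℝ) →ₗ[ℝ] ℝ, IsMean L →
      |∑ b ∈ Fintype.piFinset (fun i => Icc 1 (B i)), L (fun n => ct d b n * ct d b (n + d * a)) ^ l| ≤
        (1 - (2 / 3 : ℝ) ^ k + ε) * ∏ i, (B i : ℝ) := by
  induction k with
  | zero =>
    intro l d a hl hd ha ε hε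
    refine ⟨0, fun B _ L hL => ?_⟩
    have e : ∀ b : Fin 0 → ℕ, L (fun n => ct d b n * ct d b (n + d * a)) = 0 := by
      intro b
      have h0 := two_point hL ((d : ℤ) * a) (by positivity)
      rw [← h0]
      refine L_eq_of_ge hL (GB_bd (ct_abs_le d b) fun n => ct_abs_le d b _) (GB_bd lam_abs_le fun n => lam_abs_le _) 0 fun n hn => ?_
      have hn' : 0 < n := by exact_mod_cast hn
      have hn2 : 0 < n + (d : ℤ) * a := by positivity
      rw [ct_zero, ct_zero, lt_eq hn', lt_eq hn2]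
    simp only [e, zero_pow hl.ne', sum_const_zero, abs_zero]
    simp
    exact hε.le
  | succ k ih =>
    intro l d a hl hd ha ε hε
    obtain ⟨B0, hB0⟩ := box3_succ k l d a a hl hd ha ha (fun a' ha' ε' hε' => ih l d a' hl hd ha' ε' hε') ε hε
    refine ⟨B0, fun B hB L hL => ?_⟩
    have h1 := hB0 (fun i => B i.succ) (B 0) (fun i => hB i.succ) (hB 0) L hL
    rw [GB_sum, Fin.prod_univ_succ]
    refine le_trans (le_of_eq ?_) h1
    congr 1
    refine sum_congr rfl fun b _ => sum_congr rfl fun h _ => ?_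
    congr 2
    funext n
    rw [ct_cons, ct_cons]
    have e : n + (d : ℤ) * a + d * h = n + d * h + d * a := by ring
    rw [e]
    ring

end Pool.Agent.Lib.TU2
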