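import Pool.Agent.Lib.TU2.GBox
import Pool.Agent.Lib.TU.Lim
import Pool.Agent.Lib.MP_78b682_nt.Defs

/-!
# TU2 / GFin (row F3, about 150 lines): the moments of the logarithmically averaged correlations

STATEMENT: below, verbatim.

PROOF. `B0` from `box3_succ k l d a c .. (fun a ha ε hε => box3 k l d a hl hd ha ε hε) (ε/2)` (and `B0 ≥ 1`). Given `B`, `N`, put `P = N ∏ B i > 0`, `G_{b,h} n` = the product with `lt` in place of `liou`
(`= ct d b n * ct d b (n + d a) * ..`: `prod_mul_distrib`, and `n + s + d a = n + d a + s`), bounded by 1; for natural `X`: `logAvg X (..) = lav X G_{b,h}` (for `n ≥ 1` all arguments are `≥ 1`, and there `liou = lam = lt`: `lt_eq`; for `liou = lam` see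
`liou_eq_lam` in FinG.lean / UniformGap.lean).
Suppose the claim fails for arbitrarily large real `X`; since `logAvg X f` depends only on `⌊X⌋₊`, for every natural `X0` there is a natural `X ≥ X0` with `|∑_b ∑_h (lav X G_{b,h})^l| > (y (k+1) + ε) P`.
Take an ultrafilter `U ≤ atTop` which contains the set of these `X` (as in the proof of `lim_of_means` in TU/Lim.lean: `frequently_mem_iff_neBot`, `Ultrafilter.of`), and `L` from `exists_mean U`: `lav X G_{b,h} → L G_{b,h}` along `U` for every `b, h`.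
So `∑_b ∑_h (lav X G)^l → ∑_b ∑_h (L G)^l` (`tendsto_finset_sum`, `Tendsto.pow`), absolute value `≥ (y (k+1) + ε) P` by `ge_of_tendsto`, but `≤ (y (k+1) + ε/2) P` by `box3_succ`: contradiction.
-/

set_option autoImplicit false

open Finset

namespace Pool.Agent.Lib.TU2

open Pool.Agent.Lib.TU
open Pool.Agent.Lib.MP_78b682_nt (liou logAvg)

private theorem f3_liou {n : ℤ} (hn : 0 < n) : liou n = lt n := by
  rw [lt_eq hn]
  unfold liou lam
  have h1 : n.natAbs ≠ 0 := by omega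
  have h2 : n.toNat = n.natAbs := by omega
  rw [if_neg (by omega), h2, ArithmeticFunction.liouville_apply h1]
  push_cast
  rfl

private theorem f3_avg (X : ℝ) (F : ℕ → ℝ) (t : ℤ → ℝ) (h : ∀ n : ℕ, 1 ≤ n → F n = t n) : logAvg X F = lav ⌊X⌋₊ t := by
  unfold logAvg lav
  rw [sum_congr rfl fun n hn => by rw [h n (mem_Icc.1 hn).1]]

private theorem f3_term (d a c h : ℕ) {k : ℕ} (b : Fin k → ℕ) (n : ℕ) (hn : 1 ≤ n) :
    ∏ S : Finset (Fin k), (liou (n + ∑ i ∈ S, (d : ℤ) * b i) * liou (n + ∑ i ∈ S, (d : ℤ) * b i + d * a) *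
          (liou (n + ∑ i ∈ S, (d : ℤ) * b i + d * h) * liou (n + ∑ i ∈ S, (d : ℤ) * b i + d * h + d * c))) =
      ct d b n * ct d b (n + d * a) * (ct d b (n + d * h) * ct d b (n + d * h + d * c)) := by
  unfold ct
  rw [← prod_mul_distrib, ← prod_mul_distrib, ← prod_mul_distrib]
  refine prod_congr rfl fun S _ => ?_
  have h0 : (0 : ℤ) ≤ ∑ i ∈ S, (d : ℤ) * b i := sum_nonneg fun i _ => by positivity
  have h1 : (0 : ℤ) < n := by exact_mod_cast hn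
  have ha : (0 : ℤ) ≤ (d : ℤ) * a := by positivity
  have hh : (0 : ℤ) ≤ (d : ℤ) * h := by positivity
  have hc : (0 : ℤ) ≤ (d : ℤ) * c := by positivity
  rw [f3_liou (by linarith), f3_liou (by linarith), f3_liou (by linarith), f3_liou (by linarith)]
  rw [show (n : ℤ) + ∑ i ∈ S, (d : ℤ) * b i + d * a = n + d * a + ∑ i ∈ S, (d : ℤ) * b i by ring,
    show (n : ℤ) + ∑ i ∈ S, (d : ℤ) * b i + d * h + d * c = n + d * h + d * c + ∑ i ∈ S, (d : ℤ) * b i by ring,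
    show (n : ℤ) + ∑ i ∈ S, (d : ℤ) * b i + d * h = n + d * h + ∑ i ∈ S, (d : ℤ) * b i by ring]

open Filter Topology in
private theorem f3_lim {ι : Type*} (s : Finset ι) (G : ι → ℤ → ℝ) (hG : ∀ i, Bd (G i)) (l : ℕ) (a b : ℝ) (hab : a < b)
    (h : ∀ L : (ℤ → ℝ) →ₗ[ℝ] ℝ, IsMean L → |∑ i ∈ s, L (G i) ^ l| ≤ a) :
    ∃ X0 : ℕ, ∀ X : ℕ, X0 ≤ X → |∑ i ∈ s, lav X (G i) ^ l| ≤ b := by
  by_contra hcon
  push Not at hcon
  have hfr : ∃ᶠ X in atTop, b < |∑ i ∈ s, lav X (G i) ^ l| := by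
    rw [frequently_atTop]
    intro X0
    obtain ⟨X, h1, h2⟩ := hcon X0
    exact ⟨X, h1, h2⟩
  have hne : (atTop ⊓ 𝓟 {X : ℕ | b < |∑ i ∈ s, lav X (G i) ^ l|}).NeBot := frequently_mem_iff_neBot.mp hfr
  have hU := Ultrafilter.of_le (atTop ⊓ 𝓟 {X : ℕ | b < |∑ i ∈ s, lav X (G i) ^ l|})
  obtain ⟨L, hL, hlim⟩ := exists_mean (Ultrafilter.of (atTop ⊓ 𝓟 {X : ℕ | b < |∑ i ∈ s, lav X (G i) ^ l|})) (hU.trans inf_le_left)
  have h1 : Tendsto (fun X => |∑ i ∈ s, lav X (G i) ^ l|)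
      (Ultrafilter.of (atTop ⊓ 𝓟 {X : ℕ | b < |∑ i ∈ s, lav X (G i) ^ l|})) (𝓝 |∑ i ∈ s, L (G i) ^ l|) :=
    (tendsto_finsetSum s fun i _ => (hlim (G i) (hG i)).pow l).abs
  have h2 : b ≤ |∑ i ∈ s, L (G i) ^ l| := by
    refine ge_of_tendsto h1 ?_
    have h3 : {X : ℕ | b < |∑ i ∈ s, lav X (G i) ^ l|} ∈ Ultrafilter.of (atTop ⊓ 𝓟 {X : ℕ | b < |∑ i ∈ s, lav X (G i) ^ l|}) :=
      hU (mem_inf_of_right (mem_principal_self _))
    filter_upwards [h3] with X hX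
    exact le_of_lt hX
  have h3 := h L hL
  linarith

theorem fin3 (k l d a c : ℕ) (hl : 0 < l) (hd : 0 < d) (ha : 0 < a) (hc : 0 < c) (ε : ℝ) (hε : 0 < ε) :
    ∃ B0 : ℕ, ∀ (B : Fin k → ℕ) (N : ℕ), (∀ i, B0 ≤ B i) → B0 ≤ N → ∃ X0 : ℝ, ∀ X : ℝ, X0 ≤ X →
      |∑ b ∈ Fintype.piFinset (fun i => Icc 1 (B i)), ∑ h ∈ Icc 1 N, (logAvg X (fun n =>
        ∏ S : Finset (Fin k), (liou (n + ∑ i ∈ S, (d : ℤ) * b i) * liou (n + ∑ i ∈ S, (d : ℤ) * b i + d * a) *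
          (liou (n + ∑ i ∈ S, (d : ℤ) * b i + d * h) * liou (n + ∑ i ∈ S, (d : ℤ) * b i + d * h + d * c))))) ^ l| ≤
        (1 - (2 / 3 : ℝ) ^ (k + 1) + ε) * (N * ∏ i, (B i : ℝ)) := by
  obtain ⟨B0, hB0⟩ := box3_succ k l d a c hl hd ha hc (fun a ha ε hε => box3 k l d a hl hd ha ε hε) (ε / 2) (by positivity)
  refine ⟨max B0 1, fun B N hB hN => ?_⟩
  have hN1 : 1 ≤ N := (le_max_right _ _).trans hN
  have hP : (0 : ℝ) < N * ∏ i, (B i : ℝ) := by
    refine mul_pos (by exact_mod_cast hN1) (prod_pos fun i _ => ?_)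
    have : 1 ≤ B i := (le_max_right _ _).trans (hB i)
    exact_mod_cast this
  set P : ℝ := N * ∏ i, (B i : ℝ) with hPdef
  set Y : ℝ := 1 - (2 / 3 : ℝ) ^ (k + 1) with hY
  set t : (Fin k → ℕ) × ℕ → ℤ → ℝ := fun x n =>
    ct d x.1 n * ct d x.1 (n + d * a) * (ct d x.1 (n + d * x.2) * ct d x.1 (n + d * x.2 + d * c)) with ht
  have htb : ∀ x, Bd (t x) := by
    intro x
    have h1 : Bd (ct d x.1) := ⟨1, fun n => ct_abs_le d x.1 n⟩
    exact (h1.mul (h1.comp fun n => n + d * a)).mul ((h1.comp fun n => n + d * x.2).mul (h1.comp fun n => n + d * x.2 + d * c))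
  obtain ⟨X0, hX0⟩ := f3_lim (Fintype.piFinset (fun i => Icc 1 (B i)) ×ˢ Icc 1 N) t htb l ((Y + ε / 2) * P) ((Y + ε) * P)
    (by nlinarith) (fun L hLm => by
      rw [sum_product]
      exact hB0 B N (fun i => (le_max_left _ _).trans (hB i)) ((le_max_left _ _).trans hN) L hLm)
  refine ⟨X0, fun X hX => ?_⟩
  have h3 := hX0 _ (Nat.le_floor hX)
  rw [sum_product] at h3
  have e1 : ∑ b ∈ Fintype.piFinset (fun i => Icc 1 (B i)), ∑ h ∈ Icc 1 N, (logAvg X (fun n =>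
        ∏ S : Finset (Fin k), (liou (n + ∑ i ∈ S, (d : ℤ) * b i) * liou (n + ∑ i ∈ S, (d : ℤ) * b i + d * a) *
          (liou (n + ∑ i ∈ S, (d : ℤ) * b i + d * h) * liou (n + ∑ i ∈ S, (d : ℤ) * b i + d * h + d * c))))) ^ l =
      ∑ b ∈ Fintype.piFinset (fun i => Icc 1 (B i)), ∑ h ∈ Icc 1 N, lav ⌊X⌋₊ (t (b, h)) ^ l := by
    refine sum_congr rfl fun b _ => sum_congr rfl fun h _ => ?_
    congr 1
    exact f3_avg X _ (t (b, h)) fun n hn => f3_term d a c h b n hn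
  rw [e1]
  exact h3

end Pool.Agent.Lib.TU2
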