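import Pool.Agent.Lib.TU2.Gm

/-!
# TU2 / GOne (row O3, about 80 lines): one averaged pair against an arbitrary bounded function

STATEMENT: below, verbatim.

PROOF. `r ω = lg τ f a N ω`, `r' ω = lg τ f (2 a) N ω`. Pointwise `2 |r ω| ≤ 1 + r' ω + 2 a / N` (for signs `|u + v| ≤ 1 + u v`, and shifting the window by `a` costs `2 a / N`: the lemma SG_double in StepG.lean; the private lemmas can be copied).
`∑_{b=1}^N Λ (g(ω) f(τ^b ω) f(τ^(b+a) ω)) = N Λ (g(ω) r(τ ω))` (`GM_sum`, `GM_mul`; `∑_{b ∈ Icc 1 N} u b = ∑_{b<N} u (b+1)`, `τ^(b+1) ω = τ^b (τ ω)`), and `|g r∘τ| ≤ |r∘τ|`, so the absolute value is at most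
`N Λ (|r∘τ|) = N Λ |r| ≤ N (1 + Λ r' + 2a/N)/2 = N (1 + Λ (f f∘τ^(2a)))/2 + a` (`hΛ.shift`; `Λ r' = Λ (f f∘τ^(2a))` by `GM.iter`). For `N = 0` both sides are fine (`0 ≤ a`).
-/

set_option autoImplicit false

open Finset

namespace Pool.Agent.Lib.TU2

private theorem O3_window (u : ℕ → ℝ) (hu : ∀ n, |u n| ≤ 1) (a B : ℕ) :
    |∑ b ∈ range B, u b - ∑ b ∈ range B, u (b + a)| ≤ 2 * a := by
  have h1 : ∑ b ∈ range (B + a), u b = ∑ b ∈ range B, u b + ∑ b ∈ range a, u (B + b) :=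
    Finset.sum_range_add u B a
  have h2 : ∑ b ∈ range (a + B), u b = ∑ b ∈ range a, u b + ∑ b ∈ range B, u (a + b) :=
    Finset.sum_range_add u a B
  have h3 : ∑ b ∈ range B, u (a + b) = ∑ b ∈ range B, u (b + a) :=
    Finset.sum_congr rfl fun b _ => by rw [add_comm]
  rw [add_comm a B] at h2
  have e : ∑ b ∈ range B, u b - ∑ b ∈ range B, u (b + a) = ∑ b ∈ range a, u b - ∑ b ∈ range a, u (B + b) := by
    linarith
  rw [e]
  have b : ∀ v : ℕ → ℝ, (∀ n, |v n| ≤ 1) → |∑ n ∈ range a, v n| ≤ a := by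
    intro v hv
    refine (Finset.abs_sum_le_sum_abs _ _).trans ((Finset.sum_le_sum fun n _ => hv n).trans ?_)
    simp
  have b1 := b u hu
  have b2 := b (fun b => u (B + b)) fun _ => hu _
  have b3 := abs_sub (∑ b ∈ range a, u b) (∑ b ∈ range a, u (B + b))
  linarith

private theorem O3_double (v : ℕ → ℝ) (hv : ∀ m, v m = 1 ∨ v m = -1) (a B : ℕ) :
    2 * |∑ b ∈ range B, v b * v (b + a)| ≤ B + ∑ b ∈ range B, v b * v (b + 2 * a) + 2 * a := by
  have habs : ∀ m m' : ℕ, |v m * v m'| ≤ 1 := by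
    intro m m'
    rcases hv m with h | h <;> rcases hv m' with h' | h' <;> rw [h, h'] <;> norm_num
  have h1 : |∑ b ∈ range B, v b * v (b + a) - ∑ b ∈ range B, v (b + a) * v (b + a + a)| ≤ 2 * a :=
    O3_window (fun m => v m * v (m + a)) (fun m => habs _ _) a B
  have h2 : |∑ b ∈ range B, v b * v (b + a) + ∑ b ∈ range B, v (b + a) * v (b + a + a)| ≤
      B + ∑ b ∈ range B, v b * v (b + 2 * a) := by
    rw [← Finset.sum_add_distrib]
    refine (Finset.abs_sum_le_sum_abs _ _).trans ?_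
    have e : (B : ℝ) + ∑ b ∈ range B, v b * v (b + 2 * a) = ∑ b ∈ range B, (1 + v b * v (b + 2 * a)) := by
      rw [Finset.sum_add_distrib]
      simp
    rw [e]
    refine Finset.sum_le_sum fun b _ => ?_
    have e2 : b + 2 * a = b + a + a := by ring
    rw [e2]
    rcases hv b with h | h <;> rcases hv (b + a) with h' | h' <;> rcases hv (b + a + a) with h'' | h'' <;>
      rw [h, h', h''] <;> norm_num
  have h3 := abs_add_le (∑ b ∈ range B, v b * v (b + a) + ∑ b ∈ range B, v (b + a) * v (b + a + a))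
    (∑ b ∈ range B, v b * v (b + a) - ∑ b ∈ range B, v (b + a) * v (b + a + a))
  have h4 : (∑ b ∈ range B, v b * v (b + a) + ∑ b ∈ range B, v (b + a) * v (b + a + a)) +
      (∑ b ∈ range B, v b * v (b + a) - ∑ b ∈ range B, v (b + a) * v (b + a + a)) = 2 * ∑ b ∈ range B, v b * v (b + a) := by
    ring
  rw [h4, abs_mul, abs_two] at h3
  linarith

theorem one3 {Ω : Type} {τ : Ω → Ω} {Λ : (Ω → ℝ) →ₗ[ℝ] ℝ} (hΛ : GM τ Λ) (f g : Ω → ℝ) (hf : ∀ ω, f ω = 1 ∨ f ω = -1)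
    (hg : ∀ ω, |g ω| ≤ 1) (a N : ℕ) :
    |∑ b ∈ Icc 1 N, Λ (fun ω => g ω * (f (τ^[b] ω) * f (τ^[b + a] ω)))| ≤
      N * ((1 + Λ (fun ω => f ω * f (τ^[2 * a] ω))) / 2) + a := by
  have habs : ∀ ω ω' : Ω, |f ω * f ω'| ≤ 1 := by
    intro ω ω'
    rcases hf ω with h | h <;> rcases hf ω' with h' | h' <;> rw [h, h'] <;> norm_num
  -- the window sum
  set S : Ω → ℝ := fun ω => ∑ b ∈ range N, f (τ^[b] ω) * f (τ^[b + a] ω) with hS
  have hSb : ∀ ω, |S ω| ≤ N := by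
    intro ω
    refine (Finset.abs_sum_le_sum_abs _ _).trans ((Finset.sum_le_sum fun b _ => habs _ _).trans ?_)
    simp
  have hR : ∑ b ∈ Icc 1 N, Λ (fun ω => g ω * (f (τ^[b] ω) * f (τ^[b + a] ω))) = Λ (fun ω => g ω * S (τ ω)) := by
    rw [← GM_sum]
    congr 1
    ext ω
    rw [hS]
    simp only
    rw [Finset.mul_sum]
    have e : Icc 1 N = Finset.Ico 1 (N + 1) := by
      ext x
      simp only [mem_Icc, mem_Ico]
      omega
    rw [e, Finset.sum_Ico_eq_sum_range]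
    refine Finset.sum_congr (by simp) fun b _ => ?_
    have e1 : 1 + b = b + 1 := add_comm _ _
    have e2 : 1 + b + a = b + a + 1 := by ring
    rw [e2, e1, Function.iterate_succ_apply, Function.iterate_succ_apply]
  rw [hR]
  have hb1 : ∃ C : ℝ, ∀ ω, |(fun ω => |S (τ ω)|) ω| ≤ C := ⟨N, fun ω => by
    simp only [abs_abs]
    exact hSb _⟩
  have hb2 : ∃ C : ℝ, ∀ ω, |(fun ω => g ω * S (τ ω)) ω| ≤ C := ⟨N, fun ω => by
    simp only [abs_mul]
    calc |g ω| * |S (τ ω)| ≤ 1 * N := mul_le_mul (hg ω) (hSb _) (abs_nonneg _) (by norm_num)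
      _ = N := one_mul _⟩
  have hb3 : ∃ C : ℝ, ∀ ω, |(fun ω => -(g ω * S (τ ω))) ω| ≤ C := ⟨N, fun ω => by
    simp only [abs_neg, abs_mul]
    calc |g ω| * |S (τ ω)| ≤ 1 * N := mul_le_mul (hg ω) (hSb _) (abs_nonneg _) (by norm_num)
      _ = N := one_mul _⟩
  have hp : ∀ ω, |g ω * S (τ ω)| ≤ |S (τ ω)| := by
    intro ω
    rw [abs_mul]
    calc |g ω| * |S (τ ω)| ≤ 1 * |S (τ ω)| := mul_le_mul_of_nonneg_right (hg ω) (abs_nonneg _)
      _ = |S (τ ω)| := one_mul _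
  have hu : Λ (fun ω => g ω * S (τ ω)) ≤ Λ (fun ω => |S (τ ω)|) :=
    hΛ.mono hb2 hb1 fun ω => (le_abs_self _).trans (hp ω)
  have hl : -Λ (fun ω => g ω * S (τ ω)) ≤ Λ (fun ω => |S (τ ω)|) := by
    rw [← GM_neg]
    exact hΛ.mono hb3 hb1 fun ω => (neg_le_abs _).trans (hp ω)
  have hab : |Λ (fun ω => g ω * S (τ ω))| ≤ Λ (fun ω => |S (τ ω)|) := abs_le'.2 ⟨hu, hl⟩
  refine hab.trans ?_
  have hsh : Λ (fun ω => |S (τ ω)|) = Λ (fun ω => |S ω|) :=
    hΛ.shift (fun ω => |S ω|) ⟨N, fun ω => by rw [abs_abs]; exact hSb _⟩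
  rw [hsh]
  have hb4 : ∃ C : ℝ, ∀ ω, |(fun ω => 2 * |S ω|) ω| ≤ C := ⟨2 * N, fun ω => by
    simp only [abs_mul, abs_abs, abs_two]
    have := hSb ω
    linarith⟩
  have hb5 : ∃ C : ℝ, ∀ ω, |(fun ω => (N : ℝ) + (∑ b ∈ range N, f (τ^[b] ω) * f (τ^[b + 2 * a] ω)) + 2 * a) ω| ≤ C :=
    ⟨N + N + 2 * a, fun ω => by
      have h1 : |∑ b ∈ range N, f (τ^[b] ω) * f (τ^[b + 2 * a] ω)| ≤ N := by
        refine (Finset.abs_sum_le_sum_abs _ _).trans ((Finset.sum_le_sum fun b _ => habs _ _).trans ?_)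
        simp
      have h2 := abs_add_le ((N : ℝ) + (∑ b ∈ range N, f (τ^[b] ω) * f (τ^[b + 2 * a] ω))) (2 * (a : ℝ))
      have h3 := abs_add_le (N : ℝ) (∑ b ∈ range N, f (τ^[b] ω) * f (τ^[b + 2 * a] ω))
      have h4 : |(N : ℝ)| = N := abs_of_nonneg (Nat.cast_nonneg _)
      have h5 : |2 * (a : ℝ)| = 2 * a := abs_of_nonneg (by positivity)
      simp only
      linarith⟩
  have hm := hΛ.mono hb4 hb5 fun ω => O3_double (fun m : ℕ => f (τ^[m] ω)) (fun m => hf _) a N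
  rw [GM_mul, GM_add, GM_add, hΛ.const, hΛ.const, GM_sum] at hm
  have hterm : ∀ b ∈ range N, Λ (fun ω => f (τ^[b] ω) * f (τ^[b + 2 * a] ω)) = Λ (fun ω => f ω * f (τ^[2 * a] ω)) := by
    intro b _
    have h1 := hΛ.iter (f := fun ω => f ω * f (τ^[2 * a] ω)) ⟨1, fun ω => habs _ _⟩ b
    rw [← h1]
    have e2 : (fun ω => f (τ^[b] ω) * f (τ^[b + 2 * a] ω)) = fun ω => f (τ^[b] ω) * f (τ^[2 * a] (τ^[b] ω)) := by
      ext ω
      rw [← Function.iterate_add_apply, add_comm (2 * a) b]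
    rw [e2]
  rw [Finset.sum_congr rfl hterm, Finset.sum_const, card_range, nsmul_eq_mul] at hm
  linarith

end Pool.Agent.Lib.TU2
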