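import Pool.Agent.Lib.TU2.Two
import Pool.Agent.Lib.TU2.GOne
import Pool.Agent.Lib.TU2.GPow
import Pool.Agent.Lib.TU.Lim
import Pool.Agent.Lib.MP_78b682_nt.Defs

/-!
# TU2 / GOneFin (row F1, about 180 lines): correlations of every order, one free shift

STATEMENTS: below, verbatim.

PROOF of `mean_one`. `Λ` from `pow3 hL d l`, `τ ω = fun i => ω i + d`, `τ^[b] ω = fun i => ω i + d * b` (induction, private lemma). `f ω = ∏ i, lt (ω i)` (`1` or `-1`), `g ω = ∏ i, ∏ j, lt (ω i + T j)` (absolute value 1).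
`g ω * (f (τ^[b] ω) * f (τ^[b+a] ω)) = ∏ i, ((∏ j, lt (ω i + T j)) * (lt (ω i + d b) * lt (ω i + d b + d a)))`, so `Λ` of it is the `l`-th power in the statement; `Λ (f f∘τ^(2a)) = (L (lt(n) lt(n + 2 d a)))^l = 0`
(`lt` and `lam` agree for `n > 0`: `L_eq_of_ge`, then `two_point hL (2 d a)`, `2 d a ≠ 0`, `0 < l`). `one3` gives the claim.
PROOF of `fin_one`. For `n > ∑ |T j|` all arguments are positive and `liou = lam = lt` there. Suppose the claim fails for arbitrarily large real `X`; `logAvg X f` depends only on `⌊X⌋₊`, so for every natural `X0` there is a natural `X ≥ X0` with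
`|∑_h (logAvg X (..))^l| > N/2 + a + ε`. `g_h n = (∏ j, liou (n + T j)) * (liou (n + d h) * liou (n + d h + d a))` on `ℤ`, bounded by 1, `logAvg X (..) = lav X g_h` for natural `X`.
Take an ultrafilter `U ≤ atTop` containing the set of these `X` (as in the proof of `lim_of_means` in TU/Lim.lean), `L` from `exists_mean U`: `∑_h (lav X g_h)^l → ∑_h (L g_h)^l` (`tendsto_finset_sum`, `Tendsto.pow`), so `|∑_h (L g_h)^l| ≥ N/2 + a + ε`;
but `L g_h` = the mean with `lt` (`L_eq_of_ge hL .. (∑ j, |T j|).toNat`), contradiction to `mean_one`.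
-/

set_option autoImplicit false

open Finset

namespace Pool.Agent.Lib.TU2

open Pool.Agent.Lib.TU
open Pool.Agent.Lib.MP_78b682_nt (liou logAvg)

private theorem o1_iter {l : ℕ} (d : ℕ) (b : ℕ) (ω : Fin l → ℤ) :
    (fun (ω : Fin l → ℤ) i => ω i + (d : ℤ))^[b] ω = fun i => ω i + (d : ℤ) * b := by
  induction b with
  | zero => funext i; simp
  | succ b ih =>
    rw [Function.iterate_succ_apply', ih]
    funext i
    push_cast
    ring

private theorem o1_prod_pm {ι : Type*} (s : Finset ι) (f : ι → ℤ) : ∏ i ∈ s, lt (f i) = 1 ∨ ∏ i ∈ s, lt (f i) = -1 := by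
  refine prod_induction _ (fun x : ℝ => x = 1 ∨ x = -1) ?_ (Or.inl rfl) ?_
  · rintro x y (rfl | rfl) (rfl | rfl) <;> norm_num
  · intro i _
    exact lt_pm _

private theorem o1_abs {x : ℝ} (h : x = 1 ∨ x = -1) : |x| ≤ 1 := by
  rcases h with h | h <;> rw [h] <;> norm_num

private theorem o1_lt_bd : Bd lt := ⟨1, fun n => o1_abs (lt_pm n)⟩

private theorem o1_liou {n : ℤ} (hn : 0 < n) : liou n = lt n := by
  rw [lt_eq hn]
  unfold liou lam
  have h1 : n.natAbs ≠ 0 := by omega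
  have h2 : n.toNat = n.natAbs := by omega
  rw [if_neg (by omega), h2, ArithmeticFunction.liouville_apply h1]
  push_cast
  rfl

private theorem o1_liou_bd : Bd liou := by
  refine ⟨1, fun n => ?_⟩
  by_cases hn : 0 < n
  · rw [o1_liou hn]
    exact o1_abs (lt_pm n)
  · unfold liou
    rw [if_pos (by omega)]
    norm_num

private theorem o1_prod_bd {g : ℤ → ℝ} (hg : ∃ C : ℝ, 0 ≤ C ∧ C ≤ 1 ∧ ∀ n, |g n| ≤ C) {m : ℕ} (T : Fin m → ℤ) :
    Bd (fun n => ∏ j, g (n + T j)) := by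
  obtain ⟨C, hC0, hC1, hC⟩ := hg
  refine ⟨1, fun n => ?_⟩
  rw [abs_prod]
  exact prod_le_one (fun j _ => abs_nonneg _) fun j _ => (hC _).trans hC1

theorem mean_one {L : (ℤ → ℝ) →ₗ[ℝ] ℝ} (hL : IsMean L) {m : ℕ} (T : Fin m → ℤ) (d a l N : ℕ) (hd : 0 < d) (ha : 0 < a) (hl : 0 < l) :
    |∑ h ∈ Icc 1 N, (L (fun n => (∏ j, lt (n + T j)) * (lt (n + d * h) * lt (n + d * h + d * a)))) ^ l| ≤ (N : ℝ) / 2 + a := by
  obtain ⟨Λ, hΛ, hpow⟩ := pow3 hL (d : ℤ) l
  have h1 := one3 hΛ (fun ω => ∏ i, lt (ω i)) (fun ω => ∏ i, ∏ j, lt (ω i + T j))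
    (fun ω => o1_prod_pm univ fun i => ω i) (fun ω => by
      rw [abs_prod]
      exact prod_le_one (fun i _ => abs_nonneg _) fun i _ => o1_abs (o1_prod_pm univ fun j => ω i + T j)) a N
  have h2 : ∀ b : ℕ, Λ (fun ω => (∏ i, ∏ j, lt (ω i + T j)) *
      ((∏ i, lt ((fun (ω : Fin l → ℤ) i => ω i + (d : ℤ))^[b] ω i)) *
        ∏ i, lt ((fun (ω : Fin l → ℤ) i => ω i + (d : ℤ))^[b + a] ω i))) =
      (L (fun n => (∏ j, lt (n + T j)) * (lt (n + d * b) * lt (n + d * b + d * a)))) ^ l := by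
    intro b
    rw [← hpow]
    congr 1
    funext ω
    rw [o1_iter, o1_iter, prod_mul_distrib, prod_mul_distrib]
    refine congrArg _ (congrArg _ (prod_congr rfl fun i _ => ?_))
    push_cast
    rw [mul_add, add_assoc]
  have h3 : Λ (fun ω => (∏ i, lt (ω i)) * ∏ i, lt ((fun (ω : Fin l → ℤ) i => ω i + (d : ℤ))^[2 * a] ω i)) = 0 := by
    have e1 : (fun ω : Fin l → ℤ => (∏ i, lt (ω i)) * ∏ i, lt ((fun (ω : Fin l → ℤ) i => ω i + (d : ℤ))^[2 * a] ω i)) =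
        fun ω => ∏ i, (lt (ω i) * lt (ω i + d * (2 * a : ℕ))) := by
      funext ω
      rw [o1_iter, prod_mul_distrib]
    rw [e1, hpow (fun n => lt n * lt (n + d * (2 * a : ℕ)))]
    have e2 : L (fun n => lt n * lt (n + d * (2 * a : ℕ))) = L (fun n => lam n * lam (n + d * (2 * a : ℕ))) := by
      have hlam : Bd lam := ⟨1, lam_abs_le⟩
      refine L_eq_of_ge hL (o1_lt_bd.mul (o1_lt_bd.comp fun n => n + d * (2 * a : ℕ)))
        (hlam.mul (hlam.comp fun n => n + d * (2 * a : ℕ))) 0 fun n hn => ?_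
      have hn0 : 0 < n := by exact_mod_cast hn
      have h0 : (0 : ℤ) ≤ d * (2 * a : ℕ) := by positivity
      rw [lt_eq hn0, lt_eq (by linarith)]
    rw [e2, two_point hL _ (by positivity), zero_pow hl.ne']
  rw [h3] at h1
  have h4 : ∑ b ∈ Icc 1 N, Λ (fun ω => (∏ i, ∏ j, lt (ω i + T j)) *
      ((∏ i, lt ((fun (ω : Fin l → ℤ) i => ω i + (d : ℤ))^[b] ω i)) *
        ∏ i, lt ((fun (ω : Fin l → ℤ) i => ω i + (d : ℤ))^[b + a] ω i))) =
      ∑ h ∈ Icc 1 N, (L (fun n => (∏ j, lt (n + T j)) * (lt (n + d * h) * lt (n + d * h + d * a)))) ^ l :=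
    sum_congr rfl fun b _ => h2 b
  rw [← h4]
  refine h1.trans (le_of_eq ?_)
  ring

private theorem o1_avg (X : ℝ) (t : ℤ → ℝ) : logAvg X (fun n : ℕ => t n) = lav ⌊X⌋₊ t := rfl

open Filter Topology in
private theorem o1_lim {ι : Type*} (s : Finset ι) (G : ι → ℤ → ℝ) (hG : ∀ i, Bd (G i)) (l : ℕ) (a b : ℝ) (hab : a < b)
    (h : ∀ L : (ℤ → ℝ) →ₗ[ℝ] ℝ, IsMean L → |∑ i ∈ s, L (G i) ^ l| ≤ a) :
    ∃ X0 : ℕ, ∀ X : ℕ, X0 ≤ X → |∑ i ∈ s, lav X (G i) ^ l| ≤ b := by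
  by_contra hcon
  push Not at hcon
  have hfr : ∃ᶠ X in atTop, b < |∑ i ∈ s, lav X (G i) ^ l| := by
    rw [frequently_atTop]
    intro X0
    obtain ⟨X, h1, h2⟩ := hcon X0
    exact ⟨X, h1, h2⟩
  have hne : (atTop ⊓ 𝓟 {X : ℕ | b < |∑ i ∈ s, lav X (G i) ^ l|}).NeBot := frequently_mem_iff_neBot.mp hfr
  have hU := Ultrafilter.of_le (atTop ⊓ 𝓟 {X : ℕ | b < |∑ i ∈ s, lav X (G i) ^ l|})
  obtain ⟨L, hL, hlim⟩ := exists_mean (Ultrafilter.of (atTop ⊓ 𝓟 {X : ℕ | b < |∑ i ∈ s, lav X (G i) ^ l|})) (hU.trans inf_le_left)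
  have h1 : Tendsto (fun X => |∑ i ∈ s, lav X (G i) ^ l|)
      (Ultrafilter.of (atTop ⊓ 𝓟 {X : ℕ | b < |∑ i ∈ s, lav X (G i) ^ l|})) (𝓝 |∑ i ∈ s, L (G i) ^ l|) :=
    (tendsto_finsetSum s fun i _ => (hlim (G i) (hG i)).pow l).abs
  have h2 : b ≤ |∑ i ∈ s, L (G i) ^ l| := by
    refine ge_of_tendsto h1 ?_
    have h3 : {X : ℕ | b < |∑ i ∈ s, lav X (G i) ^ l|} ∈ Ultrafilter.of (atTop ⊓ 𝓟 {X : ℕ | b < |∑ i ∈ s, lav X (G i) ^ l|}) :=
      hU (mem_inf_of_right (mem_principal_self _))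
    filter_upwards [h3] with X hX
    exact le_of_lt hX
  have h3 := h L hL
  linarith

theorem fin_one {m : ℕ} (T : Fin m → ℤ) (d a l N : ℕ) (hd : 0 < d) (ha : 0 < a) (hl : 0 < l) (ε : ℝ) (hε : 0 < ε) :
    ∃ X0 : ℝ, ∀ X : ℝ, X0 ≤ X →
      |∑ h ∈ Icc 1 N, (logAvg X (fun n => (∏ j, liou (n + T j)) * (liou (n + d * h) * liou (n + d * h + d * a)))) ^ l| ≤ (N : ℝ) / 2 + a + ε := by
  have hli : ∃ C : ℝ, 0 ≤ C ∧ C ≤ 1 ∧ ∀ n, |liou n| ≤ C := by
    refine ⟨1, zero_le_one, le_rfl, fun n => ?_⟩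
    by_cases hn : 0 < n
    · rw [o1_liou hn]
      exact o1_abs (lt_pm n)
    · unfold liou
      rw [if_pos (by omega)]
      norm_num
  have hlt : ∃ C : ℝ, 0 ≤ C ∧ C ≤ 1 ∧ ∀ n, |lt n| ≤ C := ⟨1, zero_le_one, le_rfl, fun n => o1_abs (lt_pm n)⟩
  have htb : ∀ h : ℕ, Bd (fun n : ℤ => (∏ j, liou (n + T j)) * (liou (n + d * h) * liou (n + d * h + d * a))) := fun h =>
    (o1_prod_bd hli T).mul ((o1_liou_bd.comp fun n => n + d * h).mul (o1_liou_bd.comp fun n => n + d * h + d * a))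
  have htb' : ∀ h : ℕ, Bd (fun n : ℤ => (∏ j, lt (n + T j)) * (lt (n + d * h) * lt (n + d * h + d * a))) := fun h =>
    (o1_prod_bd hlt T).mul ((o1_lt_bd.comp fun n => n + d * h).mul (o1_lt_bd.comp fun n => n + d * h + d * a))
  obtain ⟨X0, hX0⟩ := o1_lim (Icc 1 N) (fun h n => (∏ j, liou (n + T j)) * (liou (n + d * h) * liou (n + d * h + d * a)))
    htb l ((N : ℝ) / 2 + a) ((N : ℝ) / 2 + a + ε) (by linarith) (fun L hLm => by
      have e1 : ∀ h : ℕ, L (fun n => (∏ j, liou (n + T j)) * (liou (n + d * h) * liou (n + d * h + d * a))) =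
          L (fun n => (∏ j, lt (n + T j)) * (lt (n + d * h) * lt (n + d * h + d * a))) := by
        intro h
        refine L_eq_of_ge hLm (htb h) (htb' h) (∑ j, |T j|).toNat fun n hn => ?_
        have h0 : (0 : ℤ) ≤ ∑ j, |T j| := sum_nonneg fun j _ => abs_nonneg _
        have h1 : ∑ j, |T j| < n := by
          rw [Int.toNat_of_nonneg h0] at hn
          exact hn
        have h2 : ∀ j, 0 < n + T j := by
          intro j
          have h3 : |T j| ≤ ∑ j, |T j| := single_le_sum (f := fun j => |T j|) (fun j _ => abs_nonneg _) (mem_univ j)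
          have h4 := neg_abs_le (T j)
          linarith
        have h5 : (0 : ℤ) ≤ d * h := by positivity
        have h6 : (0 : ℤ) ≤ d * a := by positivity
        rw [prod_congr rfl fun j _ => o1_liou (h2 j), o1_liou (by linarith), o1_liou (by linarith)]
      rw [sum_congr rfl fun h _ => by rw [e1 h]]
      exact mean_one hLm T d a l N hd ha hl)
  exact ⟨X0, fun X hX => hX0 _ (Nat.le_floor hX)⟩

end Pool.Agent.Lib.TU2
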