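import Pool.Agent.Lib.TU2.Base

/-!
# TU2 / Gen: cubes of arbitrary dimension
-/

set_option autoImplicit false

open Finset

namespace Pool.Agent.Lib.TU2

open Pool.Agent.Lib.TU

/-- the product of the values of `λ` over the cube at `n` with sides `d * b i` -/
noncomputable def cu (d : ℕ) {k : ℕ} (b : Fin k → ℕ) (n : ℤ) : ℝ :=
  ∏ S : Finset (Fin k), lam (n + ∑ i ∈ S, (d : ℤ) * b i)

/-- the local average of `f(n) f(n + d a)` along `n, n + d, ..., n + (B-1) d` -/
noncomputable def lc (f : ℤ → ℝ) (d a B : ℕ) (n : ℤ) : ℝ :=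
  (∑ b ∈ range B, f (n + d * b) * f (n + d * b + d * a)) / B

theorem cu_zero (d : ℕ) (b : Fin 0 → ℕ) (n : ℤ) : cu d b n = lam n := by
  unfold cu
  rw [Fintype.prod_eq_single (∅ : Finset (Fin 0)) fun S hS => absurd (eq_empty_of_isEmpty S) hS]
  simp

theorem cu_abs_le (d : ℕ) {k : ℕ} (b : Fin k → ℕ) (n : ℤ) : |cu d b n| ≤ 1 := by
  unfold cu
  rw [abs_prod]
  exact prod_le_one (fun _ _ => abs_nonneg _) fun _ _ => lam_abs_le _

theorem cu_pm (d : ℕ) {k : ℕ} (b : Fin k → ℕ) {n : ℤ} (hn : 0 < n) : cu d b n = 1 ∨ cu d b n = -1 := by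
  unfold cu
  refine prod_induction _ (fun x : ℝ => x = 1 ∨ x = -1) ?_ (Or.inl rfl) ?_
  · rintro x y (rfl | rfl) (rfl | rfl) <;> norm_num
  · intro S _
    refine lam_cases (ne_of_gt ?_)
    have : (0 : ℤ) ≤ ∑ i ∈ S, (d : ℤ) * b i := sum_nonneg fun i _ => by positivity
    linarith

theorem cu_cons (d : ℕ) {k : ℕ} (h : ℕ) (b : Fin k → ℕ) (n : ℤ) :
    cu d (Fin.cons h b : Fin (k + 1) → ℕ) n = cu d b n * cu d b (n + d * h) := by
  unfold cu
  rw [← Finset.prod_filter_mul_prod_filter_not (univ : Finset (Finset (Fin (k + 1)))) (fun S => (0 : Fin (k + 1)) ∉ S)]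
  have hmap : ∀ S : Finset (Fin k), (0 : Fin (k + 1)) ∉ S.map (Fin.succEmb k) := by
    intro S h0
    obtain ⟨x, _, hx⟩ := mem_map.1 h0
    exact Fin.succ_ne_zero x hx
  have hsum : ∀ S : Finset (Fin k), ∑ i ∈ S.map (Fin.succEmb k), (d : ℤ) * ((Fin.cons h b : Fin (k + 1) → ℕ) i : ℕ) = ∑ i ∈ S, (d : ℤ) * b i := by
    intro S
    rw [sum_map]
    exact sum_congr rfl fun i _ => by simp
  have hpre : ∀ T : Finset (Fin (k + 1)), (0 : Fin (k + 1)) ∉ T → (T.preimage (Fin.succEmb k) (Fin.succEmb k).injective.injOn).map (Fin.succEmb k) = T := by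
    intro T hT
    ext x
    simp only [mem_map, mem_preimage]
    constructor
    · rintro ⟨y, hy, rfl⟩
      exact hy
    · intro hx
      obtain ⟨y, rfl⟩ := Fin.exists_succ_eq.2 (show x ≠ 0 from fun e => hT (e ▸ hx))
      exact ⟨y, hx, rfl⟩
  congr 1
  · symm
    refine Finset.prod_bij (fun S _ => S.map (Fin.succEmb k)) ?_ ?_ ?_ ?_
    · intro S _
      simpa using hmap S
    · intro S _ T _ h
      exact map_injective _ h
    · intro T hT
      have h0 : (0 : Fin (k + 1)) ∉ T := by simpa using hT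
      exact ⟨_, mem_univ _, hpre T h0⟩
    · intro S _
      rw [hsum]
  · symm
    refine Finset.prod_bij (fun S _ => insert 0 (S.map (Fin.succEmb k))) ?_ ?_ ?_ ?_
    · intro S _
      simp
    · intro S _ T _ h
      have h1 : (insert 0 (S.map (Fin.succEmb k))).erase 0 = (insert 0 (T.map (Fin.succEmb k))).erase 0 := by rw [h]
      rw [erase_insert (hmap S), erase_insert (hmap T)] at h1
      exact map_injective _ h1
    · intro T hT
      have h0 : (0 : Fin (k + 1)) ∈ T := by simpa using hT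
      refine ⟨((T.erase 0).preimage (Fin.succEmb k) (Fin.succEmb k).injective.injOn), mem_univ _, ?_⟩
      rw [hpre _ (notMem_erase _ _), insert_erase h0]
    · intro S _
      rw [sum_insert (hmap S), hsum]
      have e : (Fin.cons h b : Fin (k + 1) → ℕ) 0 = h := rfl
      rw [e]
      congr 1
      ring

end Pool.Agent.Lib.TU2
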