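import Pool.Agent.Lib.TU2.Base

/-!
# TU2 / Gm: invariant means on an arbitrary set with a transformation, cubes of signs
-/

set_option autoImplicit false

open Finset

namespace Pool.Agent.Lib.TU2

open Pool.Agent.Lib.TU

/-- a positive, normalised functional invariant under `τ` on the bounded functions -/
structure GM {Ω : Type} (τ : Ω → Ω) (Λ : (Ω → ℝ) →ₗ[ℝ] ℝ) : Prop where
  nonneg : ∀ f : Ω → ℝ, (∃ C : ℝ, ∀ ω, |f ω| ≤ C) → (∀ ω, 0 ≤ f ω) → 0 ≤ Λ f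
  one : Λ (fun _ => 1) = 1
  shift : ∀ f : Ω → ℝ, (∃ C : ℝ, ∀ ω, |f ω| ≤ C) → Λ (fun ω => f (τ ω)) = Λ f

/-- the local average of `f f∘τ^a` along `ω, τ ω, ..., τ^(B-1) ω` -/
noncomputable def lg {Ω : Type} (τ : Ω → Ω) (f : Ω → ℝ) (a B : ℕ) (ω : Ω) : ℝ :=
  (∑ b ∈ range B, f (τ^[b] ω) * f (τ^[b + a] ω)) / B

/-- the Liouville function made `1` at the integers `n ≤ 0` -/
noncomputable def lt (n : ℤ) : ℝ := if 0 < n then lam n else 1

/-- the product of the values of `lt` over the cube at `n` with sides `d * b i` -/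
noncomputable def ct (d : ℕ) {k : ℕ} (b : Fin k → ℕ) (n : ℤ) : ℝ :=
  ∏ S : Finset (Fin k), lt (n + ∑ i ∈ S, (d : ℤ) * b i)

variable {Ω : Type} {τ : Ω → Ω} {Λ : (Ω → ℝ) →ₗ[ℝ] ℝ}

theorem GM_add (f g : Ω → ℝ) : Λ (fun n => f n + g n) = Λ f + Λ g := map_add Λ f g

theorem GM_sub (f g : Ω → ℝ) : Λ (fun n => f n - g n) = Λ f - Λ g := map_sub Λ f g

theorem GM_mul (c : ℝ) (f : Ω → ℝ) : Λ (fun n => c * f n) = c * Λ f := map_smul Λ c f

theorem GM_neg (f : Ω → ℝ) : Λ (fun n => -f n) = -Λ f := map_neg Λ f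

theorem GM_sum {ι : Type*} (s : Finset ι) (f : ι → Ω → ℝ) : Λ (fun n => ∑ i ∈ s, f i n) = ∑ i ∈ s, Λ (f i) := by
  rw [← map_sum]
  congr 1
  ext n
  simp

theorem GM.mono (h : GM τ Λ) {f g : Ω → ℝ} (hf : ∃ C : ℝ, ∀ ω, |f ω| ≤ C) (hg : ∃ C : ℝ, ∀ ω, |g ω| ≤ C)
    (hfg : ∀ ω, f ω ≤ g ω) : Λ f ≤ Λ g := by
  obtain ⟨C, hC⟩ := hf
  obtain ⟨D, hD⟩ := hg
  have h1 := h.nonneg (fun ω => g ω - f ω) ⟨D + C, fun ω => (abs_sub _ _).trans (add_le_add (hD ω) (hC ω))⟩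
    (fun ω => sub_nonneg.2 (hfg ω))
  rw [GM_sub] at h1
  linarith

theorem GM.const (h : GM τ Λ) (c : ℝ) : Λ (fun _ => c) = c := by
  have h1 := GM_mul (Λ := Λ) c (fun _ => 1)
  rw [h.one] at h1
  simpa using h1

theorem GM.abs_le (h : GM τ Λ) {f : Ω → ℝ} {c : ℝ} (hf : ∀ ω, |f ω| ≤ c) : |Λ f| ≤ c := by
  have hb : ∃ C : ℝ, ∀ ω, |f ω| ≤ C := ⟨c, hf⟩
  rw [_root_.abs_le]
  constructor
  · rw [← h.const (-c)]
    exact h.mono ⟨|(-c)|, fun _ => le_rfl⟩ hb fun ω => (_root_.abs_le.1 (hf ω)).1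
  · rw [← h.const c]
    exact h.mono hb ⟨|c|, fun _ => le_rfl⟩ fun ω => (_root_.abs_le.1 (hf ω)).2

theorem GM.iter (h : GM τ Λ) {f : Ω → ℝ} (hf : ∃ C : ℝ, ∀ ω, |f ω| ≤ C) (m : ℕ) : Λ (fun ω => f (τ^[m] ω)) = Λ f := by
  induction m with
  | zero => rfl
  | succ m ih =>
    obtain ⟨C, hC⟩ := hf
    rw [← ih, ← h.shift (fun ω => f (τ^[m] ω)) ⟨C, fun ω => hC _⟩]
    rfl

theorem lt_pm (n : ℤ) : lt n = 1 ∨ lt n = -1 := by
  unfold lt
  split_ifs with h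
  · exact lam_cases (ne_of_gt h)
  · exact Or.inl rfl

theorem lt_eq {n : ℤ} (h : 0 < n) : lt n = lam n := by
  unfold lt
  rw [if_pos h]

theorem ct_pm (d : ℕ) {k : ℕ} (b : Fin k → ℕ) (n : ℤ) : ct d b n = 1 ∨ ct d b n = -1 := by
  unfold ct
  refine prod_induction _ (fun x : ℝ => x = 1 ∨ x = -1) ?_ (Or.inl rfl) ?_
  · rintro x y (rfl | rfl) (rfl | rfl) <;> norm_num
  · intro S _
    exact lt_pm _

theorem ct_abs_le (d : ℕ) {k : ℕ} (b : Fin k → ℕ) (n : ℤ) : |ct d b n| ≤ 1 := by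
  rcases ct_pm d b n with h | h <;> rw [h] <;> norm_num

theorem ct_zero (d : ℕ) (b : Fin 0 → ℕ) (n : ℤ) : ct d b n = lt n := by
  unfold ct
  rw [Fintype.prod_eq_single (∅ : Finset (Fin 0)) fun S hS => absurd (eq_empty_of_isEmpty S) hS]
  simp

theorem ct_cons (d : ℕ) {k : ℕ} (h : ℕ) (b : Fin k → ℕ) (n : ℤ) :
    ct d (Fin.cons h b : Fin (k + 1) → ℕ) n = ct d b n * ct d b (n + d * h) := by
  unfold ct
  rw [← Finset.prod_filter_mul_prod_filter_not (univ : Finset (Finset (Fin (k + 1)))) (fun S => (0 : Fin (k + 1)) ∉ S)]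
  have hmap : ∀ S : Finset (Fin k), (0 : Fin (k + 1)) ∉ S.map (Fin.succEmb k) := by
    intro S h0
    obtain ⟨x, _, hx⟩ := mem_map.1 h0
    exact Fin.succ_ne_zero x hx
  have hsum : ∀ S : Finset (Fin k), ∑ i ∈ S.map (Fin.succEmb k), (d : ℤ) * ((Fin.cons h b : Fin (k + 1) → ℕ) i : ℕ) = ∑ i ∈ S, (d : ℤ) * b i := by
    intro S
    rw [sum_map]
    exact sum_congr rfl fun i _ => by simp
  have hpre : ∀ T : Finset (Fin (k + 1)), (0 : Fin (k + 1)) ∉ T → (T.preimage (Fin.succEmb k) (Fin.succEmb k).injective.injOn).map (Fin.succEmb k) = T := by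
    intro T hT
    ext x
    simp only [mem_map, mem_preimage]
    constructor
    · rintro ⟨y, hy, rfl⟩
      exact hy
    · intro hx
      obtain ⟨y, rfl⟩ := Fin.exists_succ_eq.2 (show x ≠ 0 from fun e => hT (e ▸ hx))
      exact ⟨y, hx, rfl⟩
  congr 1
  · symm
    refine Finset.prod_bij (fun S _ => S.map (Fin.succEmb k)) ?_ ?_ ?_ ?_
    · intro S _
      simpa using hmap S
    · intro S _ T _ h
      exact map_injective _ h
    · intro T hT
      have h0 : (0 : Fin (k + 1)) ∉ T := by simpa using hT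
      exact ⟨_, mem_univ _, hpre T h0⟩
    · intro S _
      rw [hsum]
  · symm
    refine Finset.prod_bij (fun S _ => insert 0 (S.map (Fin.succEmb k))) ?_ ?_ ?_ ?_
    · intro S _
      simp
    · intro S _ T _ h
      have h1 : (insert 0 (S.map (Fin.succEmb k))).erase 0 = (insert 0 (T.map (Fin.succEmb k))).erase 0 := by rw [h]
      rw [erase_insert (hmap S), erase_insert (hmap T)] at h1
      exact map_injective _ h1
    · intro T hT
      have h0 : (0 : Fin (k + 1)) ∈ T := by simpa using hT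
      refine ⟨((T.erase 0).preimage (Fin.succEmb k) (Fin.succEmb k).injective.injOn), mem_univ _, ?_⟩
      rw [hpre _ (notMem_erase _ _), insert_erase h0]
    · intro S _
      rw [sum_insert (hmap S), hsum]
      have e : (Fin.cons h b : Fin (k + 1) → ℕ) 0 = h := rfl
      rw [e]
      congr 1
      ring

end Pool.Agent.Lib.TU2
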