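import Pool.Agent.Lib.TU2.HDef

/-!
# TU2 / HBase (row HA, about 130 lines): basic lemmas

STATEMENTS: below, verbatim.

PROOFS. `la_abs_le`: `N` values of absolute value at most `1` (for `N = 0` it is `0`). `la_mean`: `GM_sum`, `GM_mul` (division by `N` is multiplication by `1/N`), `GM.iter`. `la_shift`: the sums over `b < N` and over `b + c`, `b < N`, differ by at most `2 c` (private lemma
`S3_window` in GStep.lean; `τ^[b] (τ^[c] ω) = τ^[b + c] ω`: `Function.iterate_add_apply`); for `N = 0` both sides are `0`.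
`dbl`: `v b = G (τ^b ω)`; `|v b + v (b+s)| ≤ 1 + v b * v (b+s) = 1 + f(τ^b ω) f(τ^(b+t) ω)` for signs (`h.mul (τ^[b] ω)`); sum over `b < N`: `|∑ v b + ∑ v (b+s)| ≤ N (1 + y)`, `y` the average of `f f∘τ^t`, and `|∑ v b - ∑ v (b+s)| ≤ 2 s`.
So `2 |∑_{b<N} v b| ≤ N (1 + y) + 2 s`; divide by `N`. `pq_pm`: `prod_induction`. `pq_mul`: induction on `q`: for `q + 1` both products get the new factors `f(τ^(a q) ω)` and `f(τ^(a q) (τ^a ω)) = f(τ^(a (q+1)) ω)`, and `f(τ^(a q) ω)^2 = 1`. `pq_PG`: from these.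
-/

set_option autoImplicit false

open Finset

namespace Pool.Agent.Lib.TU2

private theorem HA_window (u : ℕ → ℝ) (hu : ∀ n, |u n| ≤ 1) (a B : ℕ) :
    |∑ b ∈ range B, u b - ∑ b ∈ range B, u (b + a)| ≤ 2 * a := by
  have h1 : ∑ b ∈ range (B + a), u b = ∑ b ∈ range B, u b + ∑ b ∈ range a, u (B + b) :=
    Finset.sum_range_add u B a
  have h2 : ∑ b ∈ range (a + B), u b = ∑ b ∈ range a, u b + ∑ b ∈ range B, u (a + b) :=
    Finset.sum_range_add u a B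
  have h3 : ∑ b ∈ range B, u (a + b) = ∑ b ∈ range B, u (b + a) :=
    Finset.sum_congr rfl fun b _ => by rw [add_comm]
  rw [add_comm a B] at h2
  have e : ∑ b ∈ range B, u b - ∑ b ∈ range B, u (b + a) = ∑ b ∈ range a, u b - ∑ b ∈ range a, u (B + b) := by
    linarith
  rw [e]
  have b : ∀ v : ℕ → ℝ, (∀ n, |v n| ≤ 1) → |∑ n ∈ range a, v n| ≤ a := by
    intro v hv
    refine (Finset.abs_sum_le_sum_abs _ _).trans ((Finset.sum_le_sum fun n _ => hv n).trans ?_)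
    simp
  have b1 := b u hu
  have b2 := b (fun b => u (B + b)) fun _ => hu _
  have b3 := abs_sub (∑ b ∈ range a, u b) (∑ b ∈ range a, u (B + b))
  linarith

private theorem HA_abs {Ω : Type} (f : Ω → ℝ) (hf : ∀ ω, f ω = 1 ∨ f ω = -1) (ω : Ω) : |f ω| ≤ 1 := by
  rcases hf ω with h | h <;> rw [h] <;> norm_num

theorem la_abs_le {Ω : Type} (τ : Ω → Ω) (G : Ω → ℝ) (hG : ∀ ω, |G ω| ≤ 1) (N : ℕ) (ω : Ω) : |la τ G N ω| ≤ 1 := by
  unfold la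
  rcases Nat.eq_zero_or_pos N with rfl | hN
  · simp
  · have hN' : (0 : ℝ) < N := by exact_mod_cast hN
    rw [abs_div, abs_of_pos hN', div_le_one hN']
    refine (Finset.abs_sum_le_sum_abs _ _).trans ((Finset.sum_le_sum fun b _ => hG (τ^[b] ω)).trans (le_of_eq ?_))
    simp

theorem la_mean {Ω : Type} {τ : Ω → Ω} {Λ : (Ω → ℝ) →ₗ[ℝ] ℝ} (h : GM τ Λ) (G : Ω → ℝ) (hG : ∀ ω, |G ω| ≤ 1) (N : ℕ) (hN : 0 < N) :
    Λ (fun ω => la τ G N ω) = Λ (fun ω => G ω) := by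
  have hN' : (N : ℝ) ≠ 0 := by exact_mod_cast hN.ne'
  have e : (fun ω => la τ G N ω) = fun ω => (1 / (N : ℝ)) * ∑ b ∈ range N, G (τ^[b] ω) := by
    funext ω
    unfold la
    rw [div_eq_mul_one_div, mul_comm]
  rw [e, GM_mul, GM_sum]
  have h1 : ∀ b ∈ range N, Λ (fun ω => G (τ^[b] ω)) = Λ G := fun b _ => h.iter ⟨1, hG⟩ b
  rw [Finset.sum_congr rfl h1]
  simp only [sum_const, card_range, nsmul_eq_mul]
  field_simp

theorem la_shift {Ω : Type} (τ : Ω → Ω) (G : Ω → ℝ) (hG : ∀ ω, |G ω| ≤ 1) (N c : ℕ) (ω : Ω) :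
    |la τ G N (τ^[c] ω) - la τ G N ω| ≤ 2 * c / N := by
  rcases Nat.eq_zero_or_pos N with rfl | hN
  · simp [la]
  · have hN' : (0 : ℝ) < N := by exact_mod_cast hN
    have e : ∑ b ∈ range N, G (τ^[b] (τ^[c] ω)) = ∑ b ∈ range N, G (τ^[b + c] ω) :=
      Finset.sum_congr rfl fun b _ => by rw [Function.iterate_add_apply]
    unfold la
    rw [e, ← sub_div, abs_div, abs_of_pos hN']
    refine div_le_div_of_nonneg_right ?_ hN'.le
    rw [abs_sub_comm]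
    exact HA_window (fun b => G (τ^[b] ω)) (fun b => hG _) c N

theorem dbl {Ω : Type} {τ : Ω → Ω} {Λ : (Ω → ℝ) →ₗ[ℝ] ℝ} {f G : Ω → ℝ} {s t : ℕ} (h : PG τ Λ f G s t) (N : ℕ) (hN : 0 < N) (ω : Ω) :
    2 * |la τ G N ω| ≤ 1 + la τ (fun ω => f ω * f (τ^[t] ω)) N ω + 2 * s / N := by
  have hN' : (0 : ℝ) < N := by exact_mod_cast hN
  have h1 : |∑ b ∈ range N, G (τ^[b] ω) - ∑ b ∈ range N, G (τ^[b + s] ω)| ≤ 2 * s :=
    HA_window (fun b => G (τ^[b] ω)) (fun b => HA_abs G h.G_pm _) s N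
  have h2 : |∑ b ∈ range N, G (τ^[b] ω) + ∑ b ∈ range N, G (τ^[b + s] ω)| ≤
      N + ∑ b ∈ range N, f (τ^[b] ω) * f (τ^[t] (τ^[b] ω)) := by
    rw [← Finset.sum_add_distrib]
    refine (Finset.abs_sum_le_sum_abs _ _).trans ?_
    have e : (N : ℝ) + ∑ b ∈ range N, f (τ^[b] ω) * f (τ^[t] (τ^[b] ω)) =
        ∑ b ∈ range N, (1 + f (τ^[b] ω) * f (τ^[t] (τ^[b] ω))) := by
      rw [Finset.sum_add_distrib]
      simp
    rw [e]
    refine Finset.sum_le_sum fun b _ => ?_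
    rw [← h.mul (τ^[b] ω), add_comm b s, Function.iterate_add_apply]
    rcases h.G_pm (τ^[b] ω) with h3 | h3 <;> rcases h.G_pm (τ^[s] (τ^[b] ω)) with h4 | h4 <;> rw [h3, h4] <;> norm_num
  have h3 := abs_add_le (∑ b ∈ range N, G (τ^[b] ω) + ∑ b ∈ range N, G (τ^[b + s] ω))
    (∑ b ∈ range N, G (τ^[b] ω) - ∑ b ∈ range N, G (τ^[b + s] ω))
  have h4 : (∑ b ∈ range N, G (τ^[b] ω) + ∑ b ∈ range N, G (τ^[b + s] ω)) +
      (∑ b ∈ range N, G (τ^[b] ω) - ∑ b ∈ range N, G (τ^[b + s] ω)) = 2 * ∑ b ∈ range N, G (τ^[b] ω) := by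
    ring
  rw [h4, abs_mul, abs_two] at h3
  have h5 : 2 * |∑ b ∈ range N, G (τ^[b] ω)| ≤ N + ∑ b ∈ range N, f (τ^[b] ω) * f (τ^[t] (τ^[b] ω)) + 2 * s := by
    linarith
  have h6 := div_le_div_of_nonneg_right h5 hN'.le
  rw [add_div, add_div, div_self hN'.ne'] at h6
  unfold la
  rw [abs_div, abs_of_pos hN']
  calc 2 * (|∑ b ∈ range N, G (τ^[b] ω)| / N) = 2 * |∑ b ∈ range N, G (τ^[b] ω)| / N := by ring
    _ ≤ _ := h6

theorem pq_pm {Ω : Type} (τ : Ω → Ω) (f : Ω → ℝ) (hf : ∀ ω, f ω = 1 ∨ f ω = -1) (q a : ℕ) (ω : Ω) :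
    pq τ f q a ω = 1 ∨ pq τ f q a ω = -1 := by
  unfold pq
  refine prod_induction _ (fun x : ℝ => x = 1 ∨ x = -1) ?_ (Or.inl rfl) ?_
  · rintro x y (rfl | rfl) (rfl | rfl) <;> norm_num
  · intro j _
    exact hf _

theorem pq_mul {Ω : Type} (τ : Ω → Ω) (f : Ω → ℝ) (hf : ∀ ω, f ω = 1 ∨ f ω = -1) (q a : ℕ) (ω : Ω) :
    pq τ f q a ω * pq τ f q a (τ^[a] ω) = f ω * f (τ^[a * q] ω) := by
  have hsq : ∀ ω, f ω * f ω = 1 := by
    intro ω
    rcases hf ω with h | h <;> rw [h] <;> norm_num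
  induction q with
  | zero =>
    unfold pq
    simp only [range_zero, prod_empty, mul_zero, Function.iterate_zero, id_eq]
    rw [hsq]
    norm_num
  | succ q ih =>
    have e1 : pq τ f (q + 1) a ω = pq τ f q a ω * f (τ^[a * q] ω) := prod_range_succ _ _
    have e2 : pq τ f (q + 1) a (τ^[a] ω) = pq τ f q a (τ^[a] ω) * f (τ^[a * (q + 1)] ω) := by
      have e3 : pq τ f (q + 1) a (τ^[a] ω) = pq τ f q a (τ^[a] ω) * f (τ^[a * q] (τ^[a] ω)) := prod_range_succ _ _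
      rw [e3, ← Function.iterate_add_apply, Nat.mul_succ]
    rw [e1, e2]
    calc pq τ f q a ω * f (τ^[a * q] ω) * (pq τ f q a (τ^[a] ω) * f (τ^[a * (q + 1)] ω))
        = (pq τ f q a ω * pq τ f q a (τ^[a] ω)) * f (τ^[a * q] ω) * f (τ^[a * (q + 1)] ω) := by ring
      _ = f ω * (f (τ^[a * q] ω) * f (τ^[a * q] ω)) * f (τ^[a * (q + 1)] ω) := by rw [ih]; ring
      _ = f ω * f (τ^[a * (q + 1)] ω) := by rw [hsq, mul_one]

theorem pq_PG {Ω : Type} {τ : Ω → Ω} {Λ : (Ω → ℝ) →ₗ[ℝ] ℝ} (h : GM τ Λ) (f : Ω → ℝ) (hf : ∀ ω, f ω = 1 ∨ f ω = -1)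
    (h0 : ∀ u : ℕ, 0 < u → Λ (fun ω => f ω * f (τ^[u] ω)) = 0) (q a : ℕ) : PG τ Λ f (pq τ f q a) a (a * q) :=
  ⟨h, hf, pq_pm τ f hf q a, pq_mul τ f hf q a, h0⟩

end Pool.Agent.Lib.TU2
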