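import Pool.Agent.Lib.TU2.HBase

/-!
# TU2 / HBox (row HB, about 130 lines): sums over boxes of shifts

STATEMENTS: below, verbatim.

PROOF of `box_free`. `∑_{h ∈ box} ∏ i, G i (τ^(h i) ω) = ∏ i, ∑_{h ∈ Icc 1 (N i)} G i (τ^h ω)` (`Finset.prod_univ_sum`, `Finset.sum_prod_piFinset`) `= ∏ i, (N i) la τ (G i) (N i) (τ ω)` (`h = b + 1`, `τ^(b+1) ω = τ^b (τ ω)`). So the sum is `(∏ N i) Λ (g · ∏ i, la τ (G i) (N i) ∘ τ)`, in absolute value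
at most `(∏ N i) Λ (∏ i, |la τ (G i) (N i)| ∘ τ) = (∏ N i) Λ (∏ i, |la ..|)` (`|g| ≤ 1`, `GM.mono`, `h.shift`; `|Λ F| ≤ Λ |F|`).
PROOF of `box_prog`. `P ω = ∏ i, la τ (G i) (N i) (τ ω)`; as before the sum is `(∏ N i) Λ (G0 · P)`. For every `b`: `Λ (G0 · P) = Λ ((G0 · P) ∘ τ^(b+1))` (`GM.iter`), and `|P (τ^(b+1) ω) - P ω| ≤ ∑ i, 2 (b+1)/N i ≤ ∑ i, 2 B/N i` for `b < B` (`la_shift`; `|∏ x_i - ∏ y_i| ≤ ∑ |x_i - y_i|` for `|x_i|, |y_i| ≤ 1`: induction over the finite set).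
Average over `b < B`: `|Λ (G0 · P) - Λ (la τ G0 B ∘ τ · P)| ≤ ∑ i, 2 B/N i`, and `|Λ (la τ G0 B ∘ τ · P)| ≤ Λ ((|la τ G0 B| ∏ i, |la τ (G i) (N i)|) ∘ τ) = Λ (|la τ G0 B| ∏ i, |la τ (G i) (N i)|)`.
-/

set_option autoImplicit false

open Finset

namespace Pool.Agent.Lib.TU2

variable {Ω : Type} {τ : Ω → Ω} {Λ : (Ω → ℝ) →ₗ[ℝ] ℝ}

private theorem HB_sum (F : ℕ → ℝ) (N : ℕ) : ∑ x ∈ Icc 1 N, F x = ∑ b ∈ range N, F (b + 1) := by
  induction N with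
  | zero => simp
  | succ N ih => rw [Finset.sum_Icc_succ_top (by omega), ih, Finset.sum_range_succ]

private theorem HB_prod {r : ℕ} (x y : Fin r → ℝ) (hx : ∀ i, |x i| ≤ 1) (hy : ∀ i, |y i| ≤ 1) :
    |∏ i, x i - ∏ i, y i| ≤ ∑ i, |x i - y i| := by
  have key : ∀ s : Finset (Fin r), |∏ i ∈ s, x i - ∏ i ∈ s, y i| ≤ ∑ i ∈ s, |x i - y i| := by
    intro s
    induction s using Finset.induction_on with
    | empty => simp
    | insert a s ha ih =>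
      rw [prod_insert ha, prod_insert ha, sum_insert ha]
      have hX : |∏ i ∈ s, x i| ≤ 1 := by
        rw [abs_prod]
        exact prod_le_one (fun _ _ => abs_nonneg _) fun i _ => hx i
      have e : x a * ∏ i ∈ s, x i - y a * ∏ i ∈ s, y i =
          (x a - y a) * ∏ i ∈ s, x i + y a * (∏ i ∈ s, x i - ∏ i ∈ s, y i) := by ring
      rw [e]
      refine (abs_add_le _ _).trans (add_le_add ?_ ?_)
      · rw [abs_mul]
        exact mul_le_of_le_one_right (abs_nonneg _) hX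
      · rw [abs_mul]
        exact (mul_le_of_le_one_left (abs_nonneg _) (hy a)).trans ih
  exact key univ

private theorem HB_abs (h : GM τ Λ) {F : Ω → ℝ} (hF : ∃ C : ℝ, ∀ ω, |F ω| ≤ C) : |Λ F| ≤ Λ (fun ω => |F ω|) := by
  obtain ⟨C, hC⟩ := hF
  have hb : ∃ C : ℝ, ∀ ω, |(|F ω|)| ≤ C := ⟨C, fun ω => by rw [abs_abs]; exact hC ω⟩
  rw [abs_le]
  constructor
  · have h1 : Λ (fun ω => -F ω) ≤ Λ (fun ω => |F ω|) :=
      h.mono ⟨C, fun ω => by rw [abs_neg]; exact hC ω⟩ hb fun ω => neg_le_abs _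
    rw [GM_neg] at h1
    linarith
  · exact h.mono ⟨C, hC⟩ hb fun ω => le_abs_self _

private theorem HB_la (G : Ω → ℝ) (N : ℕ) (hN : 0 < N) (ω : Ω) :
    ∑ x ∈ Icc 1 N, G (τ^[x] ω) = N * la τ G N (τ ω) := by
  have hN' : (N : ℝ) ≠ 0 := by positivity
  rw [HB_sum (fun x => G (τ^[x] ω))]
  unfold la
  rw [mul_div_cancel₀ _ hN']
  rfl

/-- the product of the local averages after one step -/
private noncomputable def HB_P (τ : Ω → Ω) {r : ℕ} (G : Fin r → Ω → ℝ) (N : Fin r → ℕ) (ω : Ω) : ℝ :=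
  ∏ i, la τ (G i) (N i) (τ ω)

private theorem HB_P_abs {r : ℕ} (G : Fin r → Ω → ℝ) (hG : ∀ i ω, |G i ω| ≤ 1) (N : Fin r → ℕ) (ω : Ω) :
    |HB_P τ G N ω| ≤ 1 := by
  unfold HB_P
  rw [abs_prod]
  exact prod_le_one (fun _ _ => abs_nonneg _) fun i _ => la_abs_le τ (G i) (hG i) (N i) _

private theorem HB_eq {r : ℕ} (G : Fin r → Ω → ℝ) (g : Ω → ℝ) (N : Fin r → ℕ) (hN : ∀ i, 0 < N i) :
    ∑ b ∈ Fintype.piFinset (fun i => Icc 1 (N i)), Λ (fun ω => g ω * ∏ i, G i (τ^[b i] ω)) =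
      (∏ i, (N i : ℝ)) * Λ (fun ω => g ω * HB_P τ G N ω) := by
  rw [← GM_sum, ← GM_mul]
  congr 1
  funext ω
  rw [← mul_sum]
  have h1 := Finset.prod_univ_sum (fun i => Icc 1 (N i)) (fun i x => G i (τ^[x] ω))
  rw [← h1]
  have h2 : ∏ i, ∑ x ∈ Icc 1 (N i), G i (τ^[x] ω) = (∏ i, (N i : ℝ)) * HB_P τ G N ω := by
    unfold HB_P
    rw [← prod_mul_distrib]
    exact prod_congr rfl fun i _ => HB_la (G i) (N i) (hN i) ω
  rw [h2]
  ring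

theorem box_free {Ω : Type} {τ : Ω → Ω} {Λ : (Ω → ℝ) →ₗ[ℝ] ℝ} (h : GM τ Λ) {r : ℕ} (G : Fin r → Ω → ℝ) (hG : ∀ i ω, |G i ω| ≤ 1)
    (g : Ω → ℝ) (hg : ∀ ω, |g ω| ≤ 1) (N : Fin r → ℕ) (hN : ∀ i, 0 < N i) :
    |∑ b ∈ Fintype.piFinset (fun i => Icc 1 (N i)), Λ (fun ω => g ω * ∏ i, G i (τ^[b i] ω))| ≤
      (∏ i, (N i : ℝ)) * Λ (fun ω => ∏ i, |la τ (G i) (N i) ω|) := by
  have hP0 : (0 : ℝ) ≤ ∏ i, (N i : ℝ) := prod_nonneg fun i _ => Nat.cast_nonneg _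
  rw [HB_eq G g N hN, abs_mul, abs_of_nonneg hP0]
  refine mul_le_mul_of_nonneg_left ?_ hP0
  have hb1 : ∀ ω, |(∏ i, |la τ (G i) (N i) ω|)| ≤ 1 := by
    intro ω
    rw [abs_of_nonneg (prod_nonneg fun i _ => abs_nonneg _)]
    exact prod_le_one (fun _ _ => abs_nonneg _) fun i _ => la_abs_le τ (G i) (hG i) (N i) ω
  have hb2 : ∀ ω, |g ω * HB_P τ G N ω| ≤ 1 := by
    intro ω
    rw [abs_mul]
    exact mul_le_one₀ (hg ω) (abs_nonneg _) (HB_P_abs G hG N ω)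
  calc |Λ (fun ω => g ω * HB_P τ G N ω)| ≤ Λ (fun ω => |g ω * HB_P τ G N ω|) := HB_abs h ⟨1, hb2⟩
    _ ≤ Λ (fun ω => ∏ i, |la τ (G i) (N i) (τ ω)|) := by
        refine h.mono ⟨1, fun ω => by rw [abs_abs]; exact hb2 ω⟩ ⟨1, fun ω => hb1 (τ ω)⟩ fun ω => ?_
        rw [abs_mul]
        refine (mul_le_of_le_one_left (abs_nonneg _) (hg ω)).trans (le_of_eq ?_)
        unfold HB_P
        rw [abs_prod]
    _ = Λ (fun ω => ∏ i, |la τ (G i) (N i) ω|) := h.shift (fun ω => ∏ i, |la τ (G i) (N i) ω|) ⟨1, hb1⟩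

theorem box_prog {Ω : Type} {τ : Ω → Ω} {Λ : (Ω → ℝ) →ₗ[ℝ] ℝ} (h : GM τ Λ) {r : ℕ} (G : Fin r → Ω → ℝ) (hG : ∀ i ω, |G i ω| ≤ 1)
    (g : Ω → ℝ) (hg : ∀ ω, |g ω| ≤ 1) (N : Fin r → ℕ) (hN : ∀ i, 0 < N i) (B : ℕ) (hB : 0 < B) :
    |∑ b ∈ Fintype.piFinset (fun i => Icc 1 (N i)), Λ (fun ω => g ω * ∏ i, G i (τ^[b i] ω))| ≤
      (∏ i, (N i : ℝ)) * (Λ (fun ω => |la τ g B ω| * ∏ i, |la τ (G i) (N i) ω|) + ∑ i, 2 * (B : ℝ) / N i) := by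
  have hP0 : (0 : ℝ) ≤ ∏ i, (N i : ℝ) := prod_nonneg fun i _ => Nat.cast_nonneg _
  have hB' : (0 : ℝ) < B := by exact_mod_cast hB
  rw [HB_eq G g N hN, abs_mul, abs_of_nonneg hP0]
  refine mul_le_mul_of_nonneg_left ?_ hP0
  set E : ℝ := ∑ i, 2 * (B : ℝ) / N i with hE
  have hlag : ∀ ω, |la τ g B ω| ≤ 1 := fun ω => la_abs_le τ g hg B ω
  have hb1 : ∀ ω, |(|la τ g B ω| * ∏ i, |la τ (G i) (N i) ω|)| ≤ 1 := by
    intro ω
    rw [abs_of_nonneg (mul_nonneg (abs_nonneg _) (prod_nonneg fun i _ => abs_nonneg _))]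
    exact mul_le_one₀ (hlag ω) (prod_nonneg fun i _ => abs_nonneg _)
      (prod_le_one (fun _ _ => abs_nonneg _) fun i _ => la_abs_le τ (G i) (hG i) (N i) ω)
  have hb2 : ∀ ω, |g ω * HB_P τ G N ω| ≤ 1 := by
    intro ω
    rw [abs_mul]
    exact mul_le_one₀ (hg ω) (abs_nonneg _) (HB_P_abs G hG N ω)
  have hb3 : ∀ ω, |la τ g B (τ ω) * HB_P τ G N ω| ≤ 1 := by
    intro ω
    rw [abs_mul]
    exact mul_le_one₀ (hlag _) (abs_nonneg _) (HB_P_abs G hG N ω)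
  have hb4 : ∀ ω, |la τ (fun ω => g ω * HB_P τ G N ω) B ω| ≤ 1 := fun ω => la_abs_le τ _ hb2 B ω
  -- the mean as a mean of local averages
  have e1 : Λ (fun ω => g ω * HB_P τ G N ω) = Λ (fun ω => la τ (fun ω => g ω * HB_P τ G N ω) B (τ ω)) := by
    rw [h.shift (fun ω => la τ (fun ω => g ω * HB_P τ G N ω) B ω) ⟨1, hb4⟩, la_mean h _ hb2 B hB]
  -- comparison
  have hpt : ∀ ω, |la τ (fun ω => g ω * HB_P τ G N ω) B (τ ω) - la τ g B (τ ω) * HB_P τ G N ω| ≤ E := by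
    intro ω
    have e2 : la τ (fun ω => g ω * HB_P τ G N ω) B (τ ω) - la τ g B (τ ω) * HB_P τ G N ω =
        (∑ b ∈ range B, g (τ^[b] (τ ω)) * (HB_P τ G N (τ^[b] (τ ω)) - HB_P τ G N ω)) / B := by
      unfold la
      rw [div_mul_eq_mul_div, ← sub_div, sum_mul, ← sum_sub_distrib]
      congr 1
      exact sum_congr rfl fun b _ => by ring
    rw [e2, abs_div, abs_of_pos hB', div_le_iff₀ hB']
    refine (abs_sum_le_sum_abs _ _).trans ?_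
    have h3 : ∀ b ∈ range B, |g (τ^[b] (τ ω)) * (HB_P τ G N (τ^[b] (τ ω)) - HB_P τ G N ω)| ≤ E := by
      intro b hb
      rw [mem_range] at hb
      rw [abs_mul]
      refine (mul_le_of_le_one_left (abs_nonneg _) (hg _)).trans ?_
      unfold HB_P
      refine (HB_prod _ _ (fun i => la_abs_le τ (G i) (hG i) (N i) _) fun i => la_abs_le τ (G i) (hG i) (N i) _).trans ?_
      rw [hE]
      refine sum_le_sum fun i _ => ?_
      have h4 := la_shift τ (G i) (hG i) (N i) (b + 1) (τ ω)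
      rw [Function.iterate_succ_apply'] at h4
      refine h4.trans ?_
      have hNi : (0 : ℝ) < N i := by exact_mod_cast hN i
      refine div_le_div_of_nonneg_right ?_ hNi.le
      have : ((b + 1 : ℕ) : ℝ) ≤ B := by exact_mod_cast hb
      linarith
    calc ∑ b ∈ range B, |g (τ^[b] (τ ω)) * (HB_P τ G N (τ^[b] (τ ω)) - HB_P τ G N ω)| ≤ ∑ _b ∈ range B, E := sum_le_sum h3
      _ = E * B := by rw [sum_const, card_range, nsmul_eq_mul, mul_comm]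
  have h5 : |Λ (fun ω => la τ (fun ω => g ω * HB_P τ G N ω) B (τ ω)) - Λ (fun ω => la τ g B (τ ω) * HB_P τ G N ω)| ≤ E := by
    rw [← GM_sub]
    exact h.abs_le hpt
  have h6 : |Λ (fun ω => la τ g B (τ ω) * HB_P τ G N ω)| ≤ Λ (fun ω => |la τ g B ω| * ∏ i, |la τ (G i) (N i) ω|) := by
    calc |Λ (fun ω => la τ g B (τ ω) * HB_P τ G N ω)| ≤ Λ (fun ω => |la τ g B (τ ω) * HB_P τ G N ω|) := HB_abs h ⟨1, hb3⟩
      _ = Λ (fun ω => |la τ g B (τ ω)| * ∏ i, |la τ (G i) (N i) (τ ω)|) := by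
          congr 1
          funext ω
          rw [abs_mul]
          unfold HB_P
          rw [abs_prod]
      _ = Λ (fun ω => |la τ g B ω| * ∏ i, |la τ (G i) (N i) ω|) :=
          h.shift (fun ω => |la τ g B ω| * ∏ i, |la τ (G i) (N i) ω|) ⟨1, hb1⟩
  rw [e1]
  have h7 := abs_sub_abs_le_abs_sub (Λ (fun ω => la τ (fun ω => g ω * HB_P τ G N ω) B (τ ω))) (Λ (fun ω => la τ g B (τ ω) * HB_P τ G N ω))
  linarith

end Pool.Agent.Lib.TU2
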