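import Pool.Agent.Lib.TU2.Gm

/-!
# TU2 / HDef: local averages of sign functions, products over progressions (definitions)
-/

set_option autoImplicit false

open Finset

namespace Pool.Agent.Lib.TU2

/-- the average of `G` along `ω, τ ω, ..., τ^(N-1) ω` -/
noncomputable def la {Ω : Type} (τ : Ω → Ω) (G : Ω → ℝ) (N : ℕ) (ω : Ω) : ℝ :=
  (∑ b ∈ range N, G (τ^[b] ω)) / N

/-- the product of `f` over the progression `0, a, ..., a (q - 1)` -/
noncomputable def pq {Ω : Type} (τ : Ω → Ω) (f : Ω → ℝ) (q a : ℕ) (ω : Ω) : ℝ :=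
  ∏ j ∈ range q, f (τ^[a * j] ω)

/-- `Λ` is an invariant mean, `f` and `G` have the values `1, -1`, `G · G∘τ^s = f · f∘τ^t`, and the two-point correlations of `f` vanish -/
structure PG {Ω : Type} (τ : Ω → Ω) (Λ : (Ω → ℝ) →ₗ[ℝ] ℝ) (f G : Ω → ℝ) (s t : ℕ) : Prop where
  gm : GM τ Λ
  f_pm : ∀ ω, f ω = 1 ∨ f ω = -1
  G_pm : ∀ ω, G ω = 1 ∨ G ω = -1
  mul : ∀ ω, G ω * G (τ^[s] ω) = f ω * f (τ^[t] ω)
  zero : ∀ u : ℕ, 0 < u → Λ (fun ω => f ω * f (τ^[u] ω)) = 0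

/-- the constants `1/2` (for `r = 1`), `1/3` (for `r = 2`), `4 / (3 (r + 1))` (for `r ≥ 3`) -/
noncomputable def kap (r : ℕ) : ℝ := if r ≤ 1 then 1 / 2 else if r = 2 then 1 / 3 else 4 / (3 * ((r : ℝ) + 1))

end Pool.Agent.Lib.TU2
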