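import Pool.Agent.Lib.TU2.HMean
import Pool.Agent.Lib.TU.Lim
import Pool.Agent.Lib.MP_78b682_nt.Defs

/-!
# TU2 / HFin (row HF, about 150 lines): correlations with `r` free blocks, for logarithmic averages

STATEMENTS: below, verbatim.

PROOF. Exactly as `fin_one` (GOneFin.lean, helper1, landed; its private lemmas `o1_lim`, `o1_avg`, `o1_liou` can be copied): `N0` from `mean_free` (`mean_prog`) with `ε/2`; for fixed `N` and `T` the finite family `g_h n = (∏ j, liou (n + T j)) * ∏ i, ∏ j, liou (n + d h i + d (a i) j)`, `h` in the box, is bounded by 1 and equals the one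
with `lt` for `n > ∑ |T j|`; limits along ultrafilters, `L_eq_of_ge`.
-/

set_option autoImplicit false

open Finset

namespace Pool.Agent.Lib.TU2

open Pool.Agent.Lib.TU
open Pool.Agent.Lib.MP_78b682_nt (liou logAvg)

private theorem hf_abs {x : ℝ} (h : x = 1 ∨ x = -1) : |x| ≤ 1 := by
  rcases h with h | h <;> rw [h] <;> norm_num

private theorem hf_liou {n : ℤ} (hn : 0 < n) : liou n = lt n := by
  rw [lt_eq hn]
  unfold liou lam
  have h1 : n.natAbs ≠ 0 := by omega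
  have h2 : n.toNat = n.natAbs := by omega
  rw [if_neg (by omega), h2, ArithmeticFunction.liouville_apply h1]
  push_cast
  rfl

private theorem hf_liou_le (n : ℤ) : |liou n| ≤ 1 := by
  by_cases hn : 0 < n
  · rw [hf_liou hn]
    exact hf_abs (lt_pm n)
  · unfold liou
    rw [if_pos (by omega)]
    norm_num

private theorem hf_prod_le {g : ℤ → ℝ} (hg : ∀ n, |g n| ≤ 1) {ι : Type*} (s : Finset ι) (f : ι → ℤ) :
    |∏ i ∈ s, g (f i)| ≤ 1 := by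
  rw [abs_prod]
  exact prod_le_one (fun i _ => abs_nonneg _) fun i _ => hg _

private theorem hf_bd {g : ℤ → ℝ} (hg : ∀ n, |g n| ≤ 1) {r : ℕ} (q a : Fin r → ℕ) (d : ℕ) {ι : Type*} (s : Finset ι)
    (T : ι → ℤ) (h : Fin r → ℕ) :
    Bd (fun n : ℤ => (∏ j ∈ s, g (n + T j)) * ∏ i, ∏ j ∈ range (q i), g (n + d * h i + d * (a i * j))) := by
  refine ⟨1, fun n => ?_⟩
  have h1 : |∏ i, ∏ j ∈ range (q i), g (n + d * h i + d * (a i * j))| ≤ 1 := by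
    rw [abs_prod]
    exact prod_le_one (fun i _ => abs_nonneg _) fun i _ => hf_prod_le hg _ _
  rw [abs_mul]
  exact mul_le_one₀ (hf_prod_le hg s fun j => n + T j) (abs_nonneg _) h1

private theorem hf_L {L : (ℤ → ℝ) →ₗ[ℝ] ℝ} (hL : IsMean L) {r : ℕ} (q a : Fin r → ℕ) (d : ℕ) {ι : Type*} (s : Finset ι)
    (T : ι → ℤ) (h : Fin r → ℕ) :
    L (fun n : ℤ => (∏ j ∈ s, liou (n + T j)) * ∏ i, ∏ j ∈ range (q i), liou (n + d * h i + d * (a i * j))) =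
      L (fun n : ℤ => (∏ j ∈ s, lt (n + T j)) * ∏ i, ∏ j ∈ range (q i), lt (n + d * h i + d * (a i * j))) := by
  refine L_eq_of_ge hL (hf_bd hf_liou_le q a d s T h) (hf_bd (fun n => hf_abs (lt_pm n)) q a d s T h) (∑ j ∈ s, |T j|).toNat
    fun n hn => ?_
  have h0 : (0 : ℤ) ≤ ∑ j ∈ s, |T j| := sum_nonneg fun j _ => abs_nonneg _
  have h1 : ∑ j ∈ s, |T j| < n := by
    rw [Int.toNat_of_nonneg h0] at hn
    exact hn
  have h2 : ∀ j ∈ s, 0 < n + T j := by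
    intro j hj
    have h3 : |T j| ≤ ∑ j ∈ s, |T j| := single_le_sum (f := fun j => |T j|) (fun j _ => abs_nonneg _) hj
    have h4 := neg_abs_le (T j)
    linarith
  have h5 : ∏ j ∈ s, liou (n + T j) = ∏ j ∈ s, lt (n + T j) := prod_congr rfl fun j hj => hf_liou (h2 j hj)
  have h6 : ∏ i, ∏ j ∈ range (q i), liou (n + d * h i + d * (a i * j)) =
      ∏ i, ∏ j ∈ range (q i), lt (n + d * h i + d * (a i * j)) := by
    refine prod_congr rfl fun i _ => prod_congr rfl fun j _ => hf_liou ?_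
    have h7 : (0 : ℤ) ≤ d * h i := by positivity
    have h8 : (0 : ℤ) ≤ d * (a i * j) := by positivity
    linarith
  rw [h5, h6]

open Filter Topology in
private theorem hf_lim {ι : Type*} (s : Finset ι) (G : ι → ℤ → ℝ) (hG : ∀ i, Bd (G i)) (l : ℕ) (a b : ℝ) (hab : a < b)
    (h : ∀ L : (ℤ → ℝ) →ₗ[ℝ] ℝ, IsMean L → |∑ i ∈ s, L (G i) ^ l| ≤ a) :
    ∃ X0 : ℕ, ∀ X : ℕ, X0 ≤ X → |∑ i ∈ s, lav X (G i) ^ l| ≤ b := by
  by_contra hcon
  push Not at hcon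
  have hfr : ∃ᶠ X in atTop, b < |∑ i ∈ s, lav X (G i) ^ l| := by
    rw [frequently_atTop]
    intro X0
    obtain ⟨X, h1, h2⟩ := hcon X0
    exact ⟨X, h1, h2⟩
  have hne : (atTop ⊓ 𝓟 {X : ℕ | b < |∑ i ∈ s, lav X (G i) ^ l|}).NeBot := frequently_mem_iff_neBot.mp hfr
  have hU := Ultrafilter.of_le (atTop ⊓ 𝓟 {X : ℕ | b < |∑ i ∈ s, lav X (G i) ^ l|})
  obtain ⟨L, hL, hlim⟩ := exists_mean (Ultrafilter.of (atTop ⊓ 𝓟 {X : ℕ | b < |∑ i ∈ s, lav X (G i) ^ l|})) (hU.trans inf_le_left)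
  have h1 : Tendsto (fun X => |∑ i ∈ s, lav X (G i) ^ l|)
      (Ultrafilter.of (atTop ⊓ 𝓟 {X : ℕ | b < |∑ i ∈ s, lav X (G i) ^ l|})) (𝓝 |∑ i ∈ s, L (G i) ^ l|) :=
    (tendsto_finsetSum s fun i _ => (hlim (G i) (hG i)).pow l).abs
  have h2 : b ≤ |∑ i ∈ s, L (G i) ^ l| := by
    refine ge_of_tendsto h1 ?_
    have h3 : {X : ℕ | b < |∑ i ∈ s, lav X (G i) ^ l|} ∈ Ultrafilter.of (atTop ⊓ 𝓟 {X : ℕ | b < |∑ i ∈ s, lav X (G i) ^ l|}) :=
      hU (mem_inf_of_right (mem_principal_self _))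
    filter_upwards [h3] with X hX
    exact le_of_lt hX
  have h3 := h L hL
  linarith

theorem fin_free (r l d : ℕ) (q a : Fin r → ℕ) (hr : 0 < r) (hl : 0 < l) (hd : 0 < d) (hq : ∀ i, 0 < q i) (ha : ∀ i, 0 < a i)
    (ε : ℝ) (hε : 0 < ε) :
    ∃ N0 : ℕ, ∀ N : Fin r → ℕ, (∀ i, N0 ≤ N i) → ∀ (m : ℕ) (T : Fin m → ℤ), ∃ X0 : ℝ, ∀ X : ℝ, X0 ≤ X →
      |∑ h ∈ Fintype.piFinset (fun i => Icc 1 (N i)), (logAvg X (fun n => (∏ j, liou (n + T j)) *
        ∏ i, ∏ j ∈ range (q i), liou (n + d * h i + d * (a i * j)))) ^ l| ≤ (kap r + ε) * ∏ i, (N i : ℝ) := by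
  obtain ⟨N0, hN0⟩ := mean_free r l d q a hr hl hd hq ha (ε / 2) (by positivity)
  refine ⟨max N0 1, fun N hN m T => ?_⟩
  have hP : (0 : ℝ) < ∏ i, (N i : ℝ) := prod_pos fun i _ => by
    have : 1 ≤ N i := (le_max_right _ _).trans (hN i)
    exact_mod_cast this
  obtain ⟨X0, hX0⟩ := hf_lim (Fintype.piFinset (fun i => Icc 1 (N i)))
    (fun h n => (∏ j, liou (n + T j)) * ∏ i, ∏ j ∈ range (q i), liou (n + d * h i + d * (a i * j)))
    (fun h => hf_bd hf_liou_le q a d univ T h) l ((kap r + ε / 2) * ∏ i, (N i : ℝ)) ((kap r + ε) * ∏ i, (N i : ℝ))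
    (by nlinarith) (fun L hLm => by
      rw [sum_congr rfl fun h _ => by rw [hf_L hLm q a d univ T h]]
      exact hN0 N (fun i => (le_max_left _ _).trans (hN i)) L hLm m T)
  exact ⟨X0, fun X hX => hX0 _ (Nat.le_floor hX)⟩

theorem fin_prog (r l d : ℕ) (q a : Fin r → ℕ) (q0 a0 : ℕ) (hr : 0 < r) (hl : 0 < l) (hd : 0 < d) (hq : ∀ i, 0 < q i)
    (ha : ∀ i, 0 < a i) (hq0 : 0 < q0) (ha0 : 0 < a0) (ε : ℝ) (hε : 0 < ε) :
    ∃ N0 : ℕ, ∀ N : Fin r → ℕ, (∀ i, N0 ≤ N i) → ∃ X0 : ℝ, ∀ X : ℝ, X0 ≤ X →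
      |∑ h ∈ Fintype.piFinset (fun i => Icc 1 (N i)), (logAvg X (fun n => (∏ j ∈ range q0, liou (n + d * (a0 * j))) *
        ∏ i, ∏ j ∈ range (q i), liou (n + d * h i + d * (a i * j)))) ^ l| ≤ (kap (r + 1) + ε) * ∏ i, (N i : ℝ) := by
  obtain ⟨N0, hN0⟩ := mean_prog r l d q a q0 a0 hr hl hd hq ha hq0 ha0 (ε / 2) (by positivity)
  refine ⟨max N0 1, fun N hN => ?_⟩
  have hP : (0 : ℝ) < ∏ i, (N i : ℝ) := prod_pos fun i _ => by
    have : 1 ≤ N i := (le_max_right _ _).trans (hN i)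
    exact_mod_cast this
  obtain ⟨X0, hX0⟩ := hf_lim (Fintype.piFinset (fun i => Icc 1 (N i)))
    (fun h n => (∏ j ∈ range q0, liou (n + d * (a0 * j))) *
      ∏ i, ∏ j ∈ range (q i), liou (n + d * h i + d * (a i * j)))
    (fun h => hf_bd hf_liou_le q a d (range q0) (fun j => (d : ℤ) * (a0 * j)) h) l
    ((kap (r + 1) + ε / 2) * ∏ i, (N i : ℝ)) ((kap (r + 1) + ε) * ∏ i, (N i : ℝ))
    (by nlinarith) (fun L hLm => by
      rw [sum_congr rfl fun h _ => by rw [hf_L hLm q a d (range q0) (fun j => (d : ℤ) * (a0 * j)) h]]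
      exact hN0 N (fun i => (le_max_left _ _).trans (hN i)) L hLm)
  exact ⟨X0, fun X hX => hX0 _ (Nat.le_floor hX)⟩

end Pool.Agent.Lib.TU2
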