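import Pool.Agent.Lib.TU2.HQuad

/-!
# TU2 / HHat (row HH, about 130 lines): hat functions of the local average

STATEMENTS: below, verbatim.

PROOF of `knot`. `S(K) = 2 (K² - 1)/(3 K)`; `S(2) = 1`, `S` is increasing and `S(K) ≥ K/3` for `K ≥ 2`, so there is `K ≥ 2` with `S(K) ≤ s ≤ S(K+1)` (`Nat.findGreatest`, or the least `K` with `s ≤ S(K+1)`). `S(K+1) - S(K) = (2/3) (M+1)/M`, `M = K (K+1)`. `p = (S(K+1) - s)/(S(K+1) - S(K))`.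
Then `p/K + (1-p)/(K+1) = 1/K - (3/(2 (M+1))) (s - S(K)) = A - B s` with `A = (2K+1)/(M+1)`, `B = 3/(2 (M+1))` (`1/K + (K²-1)/(K (M+1)) = (2K+1)/(M+1)`), and `s (A - B s) ≤ A²/(4B) = (2K+1)²/(6 (M+1)) ≤ 2/3` because `(2K+1)² = 4K²+4K+1 ≤ 4 (K²+K+1)`.
PROOF of `hat`. `s₀ = 1/(1 - θ) ≥ 1`, `K, p` from `knot s₀`, `x = |la τ G N ω| ∈ [0,1]` (`la_abs_le`). `x - θ = (1-θ) (1 - s₀ (1 - x))`, `1 - s₀ (1-x) = p (1 - S(K) (1-x)) + (1-p) (1 - S(K+1) (1-x))`, so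
`max (x - θ) 0 ≤ (1-θ) (p max (1 - S(K) (1-x)) 0 + (1-p) max (1 - S(K+1) (1-x)) 0)`. By `quad` for `K` and `K+1`: `Λ ≤ (1-θ) (p/K + (1-p)/(K+1) + C/N) ≤ (1-θ) (2/(3 s₀)) + C/N = (2/3) (1-θ)² + C/N` with `C = (K+1) (s + (K+1) t)`.
-/

set_option autoImplicit false

open Finset

namespace Pool.Agent.Lib.TU2

private theorem HH_exists (s : ℝ) (hs : 1 ≤ s) :
    ∃ K : ℕ, 2 ≤ K ∧ 2 * ((K : ℝ) ^ 2 - 1) ≤ 3 * K * s ∧ 3 * s * ((K : ℝ) + 1) ≤ 2 * K * (K + 2) := by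
  classical
  have hex : ∃ k : ℕ, 3 * s * ((k : ℝ) + 3) ≤ 2 * ((k : ℝ) + 2) * ((k : ℝ) + 4) := by
    obtain ⟨k, hk⟩ := exists_nat_ge (3 * s)
    refine ⟨k, ?_⟩
    have h0 : (0 : ℝ) ≤ k := Nat.cast_nonneg k
    nlinarith [mul_le_mul_of_nonneg_right hk (by linarith : (0 : ℝ) ≤ (k : ℝ) + 3)]
  obtain ⟨k, hk, hmin⟩ : ∃ k : ℕ, 3 * s * ((k : ℝ) + 3) ≤ 2 * ((k : ℝ) + 2) * ((k : ℝ) + 4) ∧
      ∀ j < k, ¬ 3 * s * ((j : ℝ) + 3) ≤ 2 * ((j : ℝ) + 2) * ((j : ℝ) + 4) :=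
    ⟨Nat.find hex, Nat.find_spec hex, fun j hj => Nat.find_min hex hj⟩
  refine ⟨k + 2, by omega, ?_, ?_⟩
  · rcases Nat.eq_zero_or_pos k with rfl | hpos
    · push_cast
      norm_num
      linarith
    · obtain ⟨j, rfl⟩ : ∃ j, k = j + 1 := ⟨k - 1, by omega⟩
      have h1 := hmin j (by omega)
      rw [not_le] at h1
      push_cast
      nlinarith
  · push_cast
    nlinarith

theorem knot (s : ℝ) (hs : 1 ≤ s) :
    ∃ K : ℕ, 2 ≤ K ∧ ∃ p : ℝ, 0 ≤ p ∧ p ≤ 1 ∧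
      p * (2 * ((K : ℝ) ^ 2 - 1) / (3 * K)) + (1 - p) * (2 * (((K : ℝ) + 1) ^ 2 - 1) / (3 * ((K : ℝ) + 1))) = s ∧
      p / K + (1 - p) / ((K : ℝ) + 1) ≤ 2 / (3 * s) := by
  obtain ⟨K, hK, ha, hb⟩ := HH_exists s hs
  have hK2 : (2 : ℝ) ≤ K := by exact_mod_cast hK
  obtain ⟨x, hx⟩ : ∃ x : ℝ, x = K := ⟨_, rfl⟩
  rw [← hx] at ha hb hK2
  have hx0 : 0 < x := by linarith
  have hx1 : 0 < x + 1 := by linarith
  have hM : 0 < x ^ 2 + x + 1 := by positivity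
  refine ⟨K, hK, x * (2 * x * (x + 2) - 3 * s * (x + 1)) / (2 * (x ^ 2 + x + 1)), ?_, ?_, ?_, ?_⟩
  · apply div_nonneg _ (by positivity)
    apply mul_nonneg hx0.le
    linarith
  · rw [div_le_one (by positivity)]
    nlinarith [mul_le_mul_of_nonneg_right ha hx1.le]
  · rw [← hx]
    field_simp
    ring
  · rw [← hx]
    have e : x * (2 * x * (x + 2) - 3 * s * (x + 1)) / (2 * (x ^ 2 + x + 1)) / x
        + (1 - x * (2 * x * (x + 2) - 3 * s * (x + 1)) / (2 * (x ^ 2 + x + 1))) / (x + 1)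
        = (2 * (2 * x + 1) - 3 * s) / (2 * (x ^ 2 + x + 1)) := by
      field_simp
      ring
    rw [e, div_le_div_iff₀ (by positivity) (by positivity)]
    nlinarith [sq_nonneg (3 * s - (2 * x + 1))]

private theorem HH_split {θ p a b x : ℝ} (h1 : θ < 1) (hp0 : 0 ≤ p) (hp1 : p ≤ 1)
    (hab : p * a + (1 - p) * b = 1 / (1 - θ)) :
    max (x - θ) 0 ≤ (1 - θ) * (p * max (1 - a * (1 - x)) 0 + (1 - p) * max (1 - b * (1 - x)) 0) := by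
  have h2 : 0 < 1 - θ := by linarith
  have m1 := le_max_left (1 - a * (1 - x)) 0
  have m2 := le_max_left (1 - b * (1 - x)) 0
  have n1 := le_max_right (1 - a * (1 - x)) 0
  have n2 := le_max_right (1 - b * (1 - x)) 0
  obtain ⟨u, hu⟩ : ∃ u, u = max (1 - a * (1 - x)) 0 := ⟨_, rfl⟩
  obtain ⟨v, hv⟩ : ∃ v, v = max (1 - b * (1 - x)) 0 := ⟨_, rfl⟩
  rw [← hu] at m1 n1
  rw [← hv] at m2 n2
  rw [← hu, ← hv]
  apply max_le
  · have e : x - θ = (1 - θ) * (1 - 1 / (1 - θ) * (1 - x)) := by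
      field_simp
      ring
    rw [e]
    apply mul_le_mul_of_nonneg_left _ h2.le
    rw [← hab]
    have k1 := mul_le_mul_of_nonneg_left m1 hp0
    have k2 := mul_le_mul_of_nonneg_left m2 (sub_nonneg.2 hp1)
    nlinarith
  · exact mul_nonneg h2.le (add_nonneg (mul_nonneg hp0 n1) (mul_nonneg (sub_nonneg.2 hp1) n2))

theorem hat (θ : ℝ) (h0 : 0 ≤ θ) (h1 : θ < 1) (s t : ℕ) (ht : 0 < t) :
    ∃ C : ℝ, 0 ≤ C ∧ ∀ N : ℕ, 0 < N → ∀ (Ω : Type) (τ : Ω → Ω) (Λ : (Ω → ℝ) →ₗ[ℝ] ℝ) (f G : Ω → ℝ), PG τ Λ f G s t →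
      Λ (fun ω => max (|la τ G N ω| - θ) 0) ≤ 2 / 3 * (1 - θ) ^ 2 + C / N := by
  have h2 : 0 < 1 - θ := by linarith
  obtain ⟨K, hK, p, hp0, hp1, hab, hle⟩ := knot (1 / (1 - θ)) (by rw [le_div_iff₀ h2]; linarith)
  have hK2 : (2 : ℝ) ≤ K := by exact_mod_cast hK
  refine ⟨((K : ℝ) + 1) * (s + ((K : ℝ) + 1) * t), by positivity, ?_⟩
  intro N hN Ω τ Λ f G h
  have hNr : (0 : ℝ) < N := by exact_mod_cast hN
  have hG : ∀ ω, |G ω| ≤ 1 := by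
    intro ω
    rcases h.G_pm ω with h3 | h3 <;> rw [h3] <;> norm_num
  have q1 := quad h ht K N (by omega) hN
  have q2 := quad h ht (K + 1) N (by omega) hN
  push_cast at q2
  obtain ⟨a, ha⟩ : ∃ a : ℝ, a = 2 * ((K : ℝ) ^ 2 - 1) / (3 * K) := ⟨_, rfl⟩
  obtain ⟨b, hb⟩ : ∃ b : ℝ, b = 2 * (((K : ℝ) + 1) ^ 2 - 1) / (3 * ((K : ℝ) + 1)) := ⟨_, rfl⟩
  have ha0 : 0 ≤ a := by
    rw [ha]
    apply div_nonneg _ (by positivity)
    nlinarith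
  have hb0 : 0 ≤ b := by
    rw [hb]
    apply div_nonneg _ (by positivity)
    nlinarith
  rw [← ha] at q1 hab
  rw [← hb] at q2 hab
  have hx0 : ∀ ω, 0 ≤ |la τ G N ω| := fun ω => abs_nonneg _
  have hx1 : ∀ ω, |la τ G N ω| ≤ 1 := fun ω => la_abs_le τ G hG N ω
  have hbd : ∀ c : ℝ, 0 ≤ c → ∀ ω, |max (1 - c * (1 - |la τ G N ω|)) 0| ≤ 1 := by
    intro c hc ω
    rw [abs_of_nonneg (le_max_right _ _)]
    apply max_le _ zero_le_one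
    nlinarith [mul_nonneg hc (sub_nonneg.2 (hx1 ω))]
  have e : Λ (fun ω => (1 - θ) * (p * max (1 - a * (1 - |la τ G N ω|)) 0 +
      (1 - p) * max (1 - b * (1 - |la τ G N ω|)) 0)) =
      (1 - θ) * (p * Λ (fun ω => max (1 - a * (1 - |la τ G N ω|)) 0) +
        (1 - p) * Λ (fun ω => max (1 - b * (1 - |la τ G N ω|)) 0)) := by
    rw [GM_mul, GM_add, GM_mul, GM_mul]
  have hmono : Λ (fun ω => max (|la τ G N ω| - θ) 0) ≤ Λ (fun ω => (1 - θ) * (p * max (1 - a * (1 - |la τ G N ω|)) 0 +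
      (1 - p) * max (1 - b * (1 - |la τ G N ω|)) 0)) := by
    apply h.gm.mono
    · refine ⟨1, fun ω => ?_⟩
      rw [abs_of_nonneg (le_max_right _ _)]
      apply max_le _ zero_le_one
      linarith [hx1 ω]
    · refine ⟨(1 - θ) * (p * 1 + (1 - p) * 1), fun ω => ?_⟩
      have b1 := hbd a ha0 ω
      have b2 := hbd b hb0 ω
      have n1 := le_max_right (1 - a * (1 - |la τ G N ω|)) 0
      have n2 := le_max_right (1 - b * (1 - |la τ G N ω|)) 0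
      rw [abs_of_nonneg n1] at b1
      rw [abs_of_nonneg n2] at b2
      rw [abs_of_nonneg (mul_nonneg h2.le (add_nonneg (mul_nonneg hp0 n1) (mul_nonneg (sub_nonneg.2 hp1) n2)))]
      exact mul_le_mul_of_nonneg_left (add_le_add (mul_le_mul_of_nonneg_left b1 hp0)
        (mul_le_mul_of_nonneg_left b2 (sub_nonneg.2 hp1))) h2.le
    · intro ω
      exact HH_split h1 hp0 hp1 hab
  rw [e] at hmono
  obtain ⟨L1, hL1⟩ : ∃ L1, L1 = Λ (fun ω => max (1 - a * (1 - |la τ G N ω|)) 0) := ⟨_, rfl⟩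
  obtain ⟨L2, hL2⟩ : ∃ L2, L2 = Λ (fun ω => max (1 - b * (1 - |la τ G N ω|)) 0) := ⟨_, rfl⟩
  rw [← hL1] at q1 hmono
  rw [← hL2] at q2 hmono
  obtain ⟨C, hC⟩ : ∃ C : ℝ, C = ((K : ℝ) + 1) * (s + ((K : ℝ) + 1) * t) := ⟨_, rfl⟩
  have hC0 : 0 ≤ C := by rw [hC]; positivity
  have hCK : (K : ℝ) * (s + K * t) ≤ C := by
    rw [hC]
    have hs0 : (0 : ℝ) ≤ s := Nat.cast_nonneg s
    have ht0 : (0 : ℝ) ≤ t := Nat.cast_nonneg t
    apply mul_le_mul (by linarith) _ (by positivity) (by linarith)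
    nlinarith
  have r1 : L1 ≤ 1 / K + C / N := q1.trans (add_le_add le_rfl (div_le_div_of_nonneg_right hCK hNr.le))
  rw [← hC] at q2
  rw [← hC]
  have hCN : 0 ≤ C / N := by positivity
  have r3 : p * L1 + (1 - p) * L2 ≤ (p / K + (1 - p) / ((K : ℝ) + 1)) + C / N := by
    have k1 := mul_le_mul_of_nonneg_left r1 hp0
    have k2 := mul_le_mul_of_nonneg_left q2 (sub_nonneg.2 hp1)
    have e1 : p * (1 / (K : ℝ) + C / N) = p / K + p * (C / N) := by ring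
    have e2 : (1 - p) * (1 / ((K : ℝ) + 1) + C / N) = (1 - p) / ((K : ℝ) + 1) + (1 - p) * (C / N) := by ring
    rw [e1] at k1
    rw [e2] at k2
    nlinarith
  have r4 : 2 / (3 * (1 / (1 - θ))) = 2 / 3 * (1 - θ) := by
    field_simp
  rw [r4] at hle
  calc Λ (fun ω => max (|la τ G N ω| - θ) 0) ≤ (1 - θ) * (p * L1 + (1 - p) * L2) := hmono
    _ ≤ (1 - θ) * (2 / 3 * (1 - θ) + C / N) := mul_le_mul_of_nonneg_left (by linarith) h2.le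
    _ ≤ 2 / 3 * (1 - θ) ^ 2 + C / N := by nlinarith [mul_nonneg h0 hCN]

end Pool.Agent.Lib.TU2
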