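import Mathlib

/-!
# TU2 / HInt (row HI, about 120 lines): `x^r` as a sum of hat functions (elementary)

STATEMENT: below, verbatim.

PROOF. `u j = (j/n)^r`, `σ j = n (u (j+1) - u j)` (slopes of the chords), nonnegative and increasing in `j` (convexity of `x^r`: `(j+1)^r - j^r` increases), `c 0 = σ 0`, `c (j+1) = σ (j+1) - σ j`.
`∑_{j<n} c j max (x - j/n) 0` is the piecewise linear interpolation of `x^r` at the points `j/n` (`u 0 = 0` since `0 < r`): for `x ∈ [m/n, (m+1)/n]`, `m < n`, it is `∑_{j≤m} c j (x - j/n) = u m + σ m (x - m/n)` (the terms with `j > m` are `0`; the identity by induction on `m` for all `x`), and this is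
at least `x^r` by convexity of `x^r` on `[m/n, (m+1)/n]` (`convexOn_pow`). Third claim: by partial summation `∑_{j<n} c j (1 - j/n)² = ∑_{j<n} σ j ((1 - j/n)² - (1 - (j+1)/n)²) = ∑_{j<n} (u (j+1) - u j) (2 - (2j+1)/n) = (2/n) ∑_{j<n} u j + 1/n` (`u n = 1`, `u 0 = 0`)
and `∑_{j<n} j^r ≤ n^(r+1)/(r+1)` (induction on `n`: `(r+1) n^r ≤ (n+1)^(r+1) - n^(r+1)`).
-/

set_option autoImplicit false

open Finset

namespace Pool.Agent.Lib.TU2

private theorem hi_pow (n : ℝ) (hn : 0 ≤ n) (r : ℕ) : n ^ (r + 1) + ((r : ℝ) + 1) * n ^ r ≤ (n + 1) ^ (r + 1) := by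
  induction r with
  | zero => simp
  | succ r ih =>
    have h1 : (n + 1) * (n ^ (r + 1) + ((r : ℝ) + 1) * n ^ r) ≤ (n + 1) * (n + 1) ^ (r + 1) :=
      mul_le_mul_of_nonneg_left ih (by linarith)
    have h2 : 0 ≤ ((r : ℝ) + 1) * n ^ r := by positivity
    have h3 : (n + 1) * (n ^ (r + 1) + ((r : ℝ) + 1) * n ^ r) =
      n ^ (r + 1 + 1) + (((r + 1 : ℕ) : ℝ) + 1) * n ^ (r + 1) + ((r : ℝ) + 1) * n ^ r := by
      push_cast; ring
    have h4 : (n + 1) * (n + 1) ^ (r + 1) = (n + 1) ^ (r + 1 + 1) := by ring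
    rw [h3, h4] at h1
    linarith

private theorem hi_sum (r n : ℕ) : ((r : ℝ) + 1) * ∑ j ∈ range n, (j : ℝ) ^ r ≤ (n : ℝ) ^ (r + 1) := by
  induction n with
  | zero => simp
  | succ n ih =>
    rw [sum_range_succ, mul_add]
    have := hi_pow n (Nat.cast_nonneg n) r
    push_cast
    linarith

private theorem hi_mid (r : ℕ) (a h : ℝ) (ha : 0 ≤ a) (hh : 0 ≤ h) : 2 * (a + h) ^ r ≤ a ^ r + (a + 2 * h) ^ r := by
  have h1 := (convexOn_pow r).2 (Set.mem_Ici.2 ha) (Set.mem_Ici.2 (by linarith : 0 ≤ a + 2 * h))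
    (by norm_num : (0 : ℝ) ≤ 1 / 2) (by norm_num : (0 : ℝ) ≤ 1 / 2) (by norm_num)
  simp only [smul_eq_mul] at h1
  have h2 : 1 / 2 * a + 1 / 2 * (a + 2 * h) = a + h := by ring
  rw [h2] at h1
  linarith

theorem interp (r n : ℕ) (hr : 0 < r) (hn : 0 < n) :
    ∃ c : ℕ → ℝ, (∀ j, 0 ≤ c j) ∧ (∀ x : ℝ, 0 ≤ x → x ≤ 1 → x ^ r ≤ ∑ j ∈ range n, c j * max (x - j / n) 0) ∧
      ∑ j ∈ range n, c j * (1 - (j : ℝ) / n) ^ 2 ≤ 2 / ((r : ℝ) + 1) + 1 / n := by
  have hn0 : (0 : ℝ) < n := by exact_mod_cast hn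
  obtain ⟨u, hu⟩ : ∃ u : ℕ → ℝ, ∀ j, u j = ((j : ℝ) / n) ^ r := ⟨_, fun _ => rfl⟩
  obtain ⟨s, hs⟩ : ∃ s : ℕ → ℝ, ∀ j, s j = n * (u (j + 1) - u j) := ⟨_, fun _ => rfl⟩
  obtain ⟨c, hc0, hc1⟩ : ∃ c : ℕ → ℝ, c 0 = s 0 ∧ ∀ j, c (j + 1) = s (j + 1) - s j :=
    ⟨fun j => Nat.casesOn j (s 0) fun j => s (j + 1) - s j, rfl, fun _ => rfl⟩
  have u0 : u 0 = 0 := by
    rw [hu, Nat.cast_zero, zero_div, zero_pow hr.ne']
  have un : u n = 1 := by
    rw [hu, div_self hn0.ne', one_pow]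
  have umid : ∀ j, 2 * u (j + 1) ≤ u j + u (j + 2) := by
    intro j
    have h := hi_mid r ((j : ℝ) / n) (1 / n) (by positivity) (by positivity)
    rw [hu, hu, hu]
    have e1 : ((j + 1 : ℕ) : ℝ) / n = (j : ℝ) / n + 1 / n := by push_cast; ring
    have e2 : ((j + 2 : ℕ) : ℝ) / n = (j : ℝ) / n + 2 * (1 / n) := by push_cast; ring
    rw [e1, e2]
    exact h
  have hc : ∀ j, 0 ≤ c j := by
    intro j
    cases j with
    | zero =>
      rw [hc0, hs, u0, sub_zero, hu]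
      positivity
    | succ j =>
      rw [hc1, hs, hs]
      have := umid j
      have h2 : 0 ≤ (n : ℝ) * (u j + u (j + 2) - 2 * u (j + 1)) := mul_nonneg hn0.le (by linarith)
      have e : j + 1 + 1 = j + 2 := rfl
      rw [e]
      linarith
  have hB : ∀ (m : ℕ) (x : ℝ), ∑ j ∈ range (m + 1), c j * (x - j / n) = u m + s m * (x - m / n) := by
    intro m x
    induction m with
    | zero => simp [hc0, u0]
    | succ m ih =>
      rw [sum_range_succ, ih, hc1]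
      have : u (m + 1) = u m + s m * (1 / n) := by
        rw [hs]; field_simp; ring
      rw [this]
      push_cast
      ring
  refine ⟨c, hc, ?_, ?_⟩
  · intro x hx0 hx1
    obtain ⟨m, hmn, hm0, hm1⟩ : ∃ m : ℕ, m < n ∧ (m : ℝ) ≤ n * x ∧ (n : ℝ) * x ≤ m + 1 := by
      rcases lt_or_eq_of_le hx1 with h | h
      · refine ⟨⌊(n : ℝ) * x⌋₊, ?_, Nat.floor_le (by positivity), (Nat.lt_floor_add_one _).le⟩
        rw [Nat.floor_lt (by positivity)]
        nlinarith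
      · refine ⟨n - 1, by omega, ?_, ?_⟩
        · rw [Nat.cast_pred hn, h]; linarith
        · rw [Nat.cast_pred hn, h]; linarith
    obtain ⟨t, ht⟩ : ∃ t : ℝ, t = n * x - m := ⟨_, rfl⟩
    have ht0 : 0 ≤ t := by linarith
    have ht1 : t ≤ 1 := by linarith
    have hx : x = (1 - t) * ((m : ℝ) / n) + t * (((m + 1 : ℕ) : ℝ) / n) := by
      rw [ht]; push_cast; field_simp; ring
    have h1 := (convexOn_pow r).2 (Set.mem_Ici.2 (by positivity : (0 : ℝ) ≤ (m : ℝ) / n))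
      (Set.mem_Ici.2 (by positivity : (0 : ℝ) ≤ ((m + 1 : ℕ) : ℝ) / n)) (sub_nonneg.2 ht1) ht0 (by ring)
    simp only [smul_eq_mul] at h1
    rw [← hx, ← hu, ← hu] at h1
    have h2 : (1 - t) * u m + t * u (m + 1) = u m + s m * (x - m / n) := by
      rw [hs, ht]; field_simp; ring
    rw [h2, ← hB] at h1
    refine h1.trans ?_
    calc ∑ j ∈ range (m + 1), c j * (x - j / n) ≤ ∑ j ∈ range (m + 1), c j * max (x - j / n) 0 :=
          sum_le_sum fun j _ => mul_le_mul_of_nonneg_left (le_max_left _ _) (hc j)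
      _ ≤ ∑ j ∈ range n, c j * max (x - j / n) 0 :=
          sum_le_sum_of_subset_of_nonneg (range_subset_range.2 (by omega))
            fun j _ _ => mul_nonneg (hc j) (le_max_right _ _)
  · obtain ⟨w, hw⟩ : ∃ w : ℕ → ℝ, ∀ j, w j = (1 - (j : ℝ) / n) ^ 2 := ⟨_, fun _ => rfl⟩
    have hD : ∀ m : ℕ, ∑ j ∈ range (m + 1), c j * w j = s m * w (m + 1) + ∑ j ∈ range (m + 1), s j * (w j - w (j + 1)) := by
      intro m
      induction m with
      | zero => simp [hc0]; ring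
      | succ m ih =>
        rw [sum_range_succ, ih, hc1, sum_range_succ (fun j => s j * (w j - w (j + 1))) (m + 1)]
        ring
    have hG : ∀ m : ℕ, ∑ j ∈ range m, s j * (w j - w (j + 1)) =
        u m * (2 - (2 * m + 1) / n) + 2 / n * ∑ j ∈ range (m + 1), u j := by
      intro m
      induction m with
      | zero => simp [u0]
      | succ m ih =>
        rw [sum_range_succ, ih, sum_range_succ _ (m + 1), hs, hw, hw]
        push_cast
        field_simp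
        ring
    obtain ⟨m, rfl⟩ : ∃ m, n = m + 1 := ⟨n - 1, by omega⟩
    have e1 : ∑ j ∈ range (m + 1), c j * (1 - (j : ℝ) / ((m + 1 : ℕ) : ℝ)) ^ 2 = ∑ j ∈ range (m + 1), c j * w j :=
      sum_congr rfl fun j _ => by rw [hw]
    have wn : w (m + 1) = 0 := by rw [hw, div_self hn0.ne']; norm_num
    rw [e1, hD, hG, wn, un, sum_range_succ _ (m + 1), un]
    have hS : ∑ j ∈ range (m + 1), u j ≤ ((m + 1 : ℕ) : ℝ) / ((r : ℝ) + 1) := by
      have h := hi_sum r (m + 1)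
      have e2 : ∑ j ∈ range (m + 1), u j = (∑ j ∈ range (m + 1), (j : ℝ) ^ r) / ((m + 1 : ℕ) : ℝ) ^ r := by
        rw [sum_div]
        exact sum_congr rfl fun j _ => by rw [hu, div_pow]
      rw [e2, div_le_div_iff₀ (by positivity) (by positivity)]
      calc (∑ j ∈ range (m + 1), (j : ℝ) ^ r) * ((r : ℝ) + 1) = ((r : ℝ) + 1) * ∑ j ∈ range (m + 1), (j : ℝ) ^ r := by ring
        _ ≤ ((m + 1 : ℕ) : ℝ) ^ (r + 1) := h
        _ = ((m + 1 : ℕ) : ℝ) * ((m + 1 : ℕ) : ℝ) ^ r := by ring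
    have h3 : 2 / ((m + 1 : ℕ) : ℝ) * ∑ j ∈ range (m + 1), u j ≤ 2 / ((r : ℝ) + 1) := by
      calc 2 / ((m + 1 : ℕ) : ℝ) * ∑ j ∈ range (m + 1), u j ≤ 2 / ((m + 1 : ℕ) : ℝ) * (((m + 1 : ℕ) : ℝ) / ((r : ℝ) + 1)) :=
            mul_le_mul_of_nonneg_left hS (by positivity)
        _ = 2 / ((r : ℝ) + 1) := by
            field_simp
    have e4 : s m * 0 + (1 * (2 - (2 * ((m + 1 : ℕ) : ℝ) + 1) / ((m + 1 : ℕ) : ℝ)) +
        2 / ((m + 1 : ℕ) : ℝ) * (∑ j ∈ range (m + 1), u j + 1)) =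
        2 / ((m + 1 : ℕ) : ℝ) * ∑ j ∈ range (m + 1), u j + 1 / ((m + 1 : ℕ) : ℝ) := by
      field_simp
      ring
    rw [e4]
    linarith

end Pool.Agent.Lib.TU2
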