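import Pool.Agent.Lib.TU2.HPow

/-!
# TU2 / HProd (row HR, about 80 lines): products of local averages

STATEMENT: below, verbatim.

PROOF. `N0` = the maximum over `i` of the numbers given by `pow_kap r` for `s i, t i` (`Finset.univ.sup`). `x_i = |la τ (G i) (N i) ω| ≥ 0`; by the inequality of the arithmetic and geometric means `∏ i, x_i ≤ (1/r) ∑ i, x_i^r` (`Real.geom_mean_le_arith_mean_weighted`, or `Real.inner_le_nnorm_mul_nnorm`-free: apply
`Real.geom_mean_le_arith_mean_weighted univ (fun _ => 1/r) (fun i => x_i^r)`: `∏ (x_i^r)^(1/r) = ∏ x_i`, `Real.pow_rpow_inv_natCast` or similar). Apply `Λ` (`GM.mono`, `GM_sum`, `GM_mul`): `≤ (1/r) ∑ i, (kap r + ε) = kap r + ε` (`card (Fin r) = r`). The invariance and the other properties come from `h i` for one `i` (`0 < r`).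
-/

set_option autoImplicit false

open Finset

namespace Pool.Agent.Lib.TU2

private theorem HR_amgm (r : ℕ) (hr : 0 < r) (x : Fin r → ℝ) (hx : ∀ i, 0 ≤ x i) :
    ∏ i, x i ≤ ∑ i, (1 / (r : ℝ)) * x i ^ r := by
  have hr0 : (0 : ℝ) < r := by exact_mod_cast hr
  have h := Real.geom_mean_le_arith_mean_weighted (univ : Finset (Fin r)) (fun _ => 1 / (r : ℝ)) (fun i => x i ^ r)
    (fun _ _ => by positivity) (by
      rw [sum_const, card_univ, Fintype.card_fin, nsmul_eq_mul]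
      field_simp) (fun i _ => pow_nonneg (hx i) r)
  refine le_trans (le_of_eq ?_) h
  refine prod_congr rfl fun i _ => ?_
  rw [one_div, Real.pow_rpow_inv_natCast (hx i) (by omega)]

theorem prod_kap (r : ℕ) (hr : 0 < r) (s t : Fin r → ℕ) (ht : ∀ i, 0 < t i) (ε : ℝ) (hε : 0 < ε) :
    ∃ N0 : ℕ, ∀ N : Fin r → ℕ, (∀ i, N0 ≤ N i) → ∀ (Ω : Type) (τ : Ω → Ω) (Λ : (Ω → ℝ) →ₗ[ℝ] ℝ) (f : Ω → ℝ) (G : Fin r → Ω → ℝ),
      (∀ i, PG τ Λ f (G i) (s i) (t i)) → Λ (fun ω => ∏ i, |la τ (G i) (N i) ω|) ≤ kap r + ε := by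
  choose M hM using fun i => pow_kap r hr (s i) (t i) (ht i) ε hε
  refine ⟨univ.sup M, fun N hN Ω τ Λ f G h => ?_⟩
  have hr0 : (0 : ℝ) < r := by exact_mod_cast hr
  have g := (h ⟨0, hr⟩).gm
  have hGb : ∀ i ω, |G i ω| ≤ 1 := by
    intro i ω
    rcases (h i).G_pm ω with h1 | h1 <;> rw [h1] <;> norm_num
  have hla : ∀ i ω, |la τ (G i) (N i) ω| ≤ 1 := fun i ω => la_abs_le τ (G i) (hGb i) (N i) ω
  have hpow : ∀ i ω, |la τ (G i) (N i) ω| ^ r ≤ 1 := fun i ω => pow_le_one₀ (abs_nonneg _) (hla i ω)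
  have h1 : Λ (fun ω => ∏ i, |la τ (G i) (N i) ω|) ≤ Λ (fun ω => ∑ i, (1 / (r : ℝ)) * |la τ (G i) (N i) ω| ^ r) := by
    refine g.mono ⟨1, fun ω => ?_⟩ ⟨1, fun ω => ?_⟩ fun ω => HR_amgm r hr _ fun i => abs_nonneg _
    · rw [abs_of_nonneg (prod_nonneg fun i _ => abs_nonneg _)]
      exact prod_le_one (fun i _ => abs_nonneg _) fun i _ => hla i ω
    · rw [abs_of_nonneg (sum_nonneg fun i _ => by positivity)]
      calc ∑ i, (1 / (r : ℝ)) * |la τ (G i) (N i) ω| ^ r ≤ ∑ _i : Fin r, (1 / (r : ℝ)) * 1 :=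
            sum_le_sum fun i _ => mul_le_mul_of_nonneg_left (hpow i ω) (by positivity)
        _ = 1 := by
            rw [sum_const, card_univ, Fintype.card_fin, nsmul_eq_mul]
            field_simp
  refine h1.trans ?_
  rw [GM_sum]
  calc ∑ i, Λ (fun ω => (1 / (r : ℝ)) * |la τ (G i) (N i) ω| ^ r) ≤ ∑ _i : Fin r, (1 / (r : ℝ)) * (kap r + ε) := by
        refine sum_le_sum fun i _ => ?_
        rw [GM_mul]
        exact mul_le_mul_of_nonneg_left (hM i (N i) ((le_sup (f := M) (mem_univ i)).trans (hN i)) Ω τ Λ f (G i) (h i))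
          (by positivity)
    _ = kap r + ε := by
        rw [sum_const, card_univ, Fintype.card_fin, nsmul_eq_mul]
        field_simp

end Pool.Agent.Lib.TU2
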