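import Pool.Agent.Lib.TU2.Two
import Pool.Agent.Lib.TU2.GPow
import Pool.Agent.Lib.TU2.HProd
import Pool.Agent.Lib.TU2.HBox

/-!
# TU2 / HMean (row HM, about 180 lines): correlations with `r` free blocks, for means

STATEMENTS: below, verbatim.

PROOF. `Λ` from `pow3 hL d l`, `τ ω = fun i => ω i + d`, `τ^[b] ω = fun i => ω i + d * b` (see `mean_one` in GOneFin.lean by helper1, whose private lemmas can be copied). `f ω = ∏ i, lt (ω i)` has the values `1, -1`, and `Λ (f f∘τ^u) = (L (lt(n) lt(n + d u)))^l = 0` for `u > 0` (as there: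
`L_eq_of_ge`, `two_point`, `0 < l`). `G_i = pq τ f (q i) (a i)`, so `G_i (τ^(h i) ω) = ∏_{j<q i} ∏_k lt (ω k + d h i + d (a i) j)` (`prod_comm`), and `PG τ Λ f G_i (a i) (a i * q i)` by `pq_PG`, `0 < a i * q i`.
(1) `mean_free`: `g ω = ∏ k, ∏ j, lt (ω k + T j)`: `Λ (g · ∏ i, G_i (τ^(h i) ω))` is the `l`-th power in the statement (`prod_mul_distrib`, `prod_comm`, the property of `Λ` from `pow3`). `box_free`, `prod_kap` with `N0` at least `1`.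
(2) `mean_prog`: `G_0 = pq τ f q0 a0`. `N1 ≥ 1` from `prod_kap (r+1)` with the sides `Fin.cons a0 a`, `Fin.cons (a0 * q0) (fun i => a i * q i)` and `ε/2`; `box_prog` with `B = N1`; `N0 ≥ N1` with `2 r N1 / N0 ≤ ε/2` (`Fin.prod_univ_succ`: `|la τ G_0 B| ∏ i, |la τ (G i) (N i)| = ∏ over Fin (r+1)` with `Fin.cons`).
-/

set_option autoImplicit false

open Finset

namespace Pool.Agent.Lib.TU2

open Pool.Agent.Lib.TU

private theorem hm_iter {l : ℕ} (d : ℕ) (b : ℕ) (ω : Fin l → ℤ) :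
    (fun (ω : Fin l → ℤ) i => ω i + (d : ℤ))^[b] ω = fun i => ω i + (d : ℤ) * b := by
  induction b with
  | zero => funext i; simp
  | succ b ih =>
    rw [Function.iterate_succ_apply', ih]
    funext i
    push_cast
    ring

private theorem hm_prod_pm {ι : Type*} (s : Finset ι) (f : ι → ℤ) : ∏ i ∈ s, lt (f i) = 1 ∨ ∏ i ∈ s, lt (f i) = -1 := by
  refine prod_induction _ (fun x : ℝ => x = 1 ∨ x = -1) ?_ (Or.inl rfl) ?_
  · rintro x y (rfl | rfl) (rfl | rfl) <;> norm_num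
  · intro i _
    exact lt_pm _

private theorem hm_abs {x : ℝ} (h : x = 1 ∨ x = -1) : |x| ≤ 1 := by
  rcases h with h | h <;> rw [h] <;> norm_num

private theorem hm_lt_bd : Bd lt := ⟨1, fun n => hm_abs (lt_pm n)⟩

/-- the product over one block -/
private theorem hm_pq0 {l : ℕ} (d q a : ℕ) (ω : Fin l → ℤ) :
    pq (fun (ω : Fin l → ℤ) i => ω i + (d : ℤ)) (fun ω => ∏ k, lt (ω k)) q a ω =
      ∏ k, ∏ j ∈ range q, lt (ω k + d * (a * j)) := by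
  unfold pq
  rw [Finset.prod_comm]
  refine prod_congr rfl fun k _ => prod_congr rfl fun j _ => ?_
  rw [hm_iter]
  push_cast
  rfl

private theorem hm_term {L : (ℤ → ℝ) →ₗ[ℝ] ℝ} {l r d : ℕ}
    {Λ : ((Fin l → ℤ) → ℝ) →ₗ[ℝ] ℝ} (hpow : ∀ g : ℤ → ℝ, Λ (fun ω => ∏ i, g (ω i)) = (L g) ^ l)
    (q a b : Fin r → ℕ) (P : ℤ → ℝ) :
    Λ (fun ω => (∏ k, P (ω k)) * ∏ i, pq (fun (ω : Fin l → ℤ) i => ω i + (d : ℤ)) (fun ω => ∏ k, lt (ω k)) (q i) (a i)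
      ((fun (ω : Fin l → ℤ) i => ω i + (d : ℤ))^[b i] ω)) =
      (L (fun n => P n * ∏ i, ∏ j ∈ range (q i), lt (n + d * b i + d * (a i * j)))) ^ l := by
  rw [← hpow]
  congr 1
  funext ω
  rw [prod_mul_distrib]
  congr 1
  rw [Finset.prod_comm]
  refine prod_congr rfl fun i _ => ?_
  rw [hm_iter, hm_pq0]

private theorem hm_zero {L : (ℤ → ℝ) →ₗ[ℝ] ℝ} (hL : IsMean L) {l d : ℕ} (hl : 0 < l) (hd : 0 < d)
    {Λ : ((Fin l → ℤ) → ℝ) →ₗ[ℝ] ℝ} (hpow : ∀ g : ℤ → ℝ, Λ (fun ω => ∏ i, g (ω i)) = (L g) ^ l) (u : ℕ) (hu : 0 < u) :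
    Λ (fun ω => (∏ i, lt (ω i)) * ∏ i, lt ((fun (ω : Fin l → ℤ) i => ω i + (d : ℤ))^[u] ω i)) = 0 := by
  have e1 : (fun ω : Fin l → ℤ => (∏ i, lt (ω i)) * ∏ i, lt ((fun (ω : Fin l → ℤ) i => ω i + (d : ℤ))^[u] ω i)) =
      fun ω => ∏ i, (lt (ω i) * lt (ω i + d * (u : ℕ))) := by
    funext ω
    rw [hm_iter, prod_mul_distrib]
  rw [e1, hpow (fun n => lt n * lt (n + d * (u : ℕ)))]
  have e2 : L (fun n => lt n * lt (n + d * (u : ℕ))) = L (fun n => lam n * lam (n + d * (u : ℕ))) := by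
    have hlam : Bd lam := ⟨1, lam_abs_le⟩
    refine L_eq_of_ge hL (hm_lt_bd.mul (hm_lt_bd.comp fun n => n + d * (u : ℕ)))
      (hlam.mul (hlam.comp fun n => n + d * (u : ℕ))) 0 fun n hn => ?_
    have hn0 : 0 < n := by exact_mod_cast hn
    have h0 : (0 : ℤ) ≤ d * (u : ℕ) := by positivity
    rw [lt_eq hn0, lt_eq (by linarith)]
  rw [e2, two_point hL _ (by positivity), zero_pow hl.ne']

theorem mean_free (r l d : ℕ) (q a : Fin r → ℕ) (hr : 0 < r) (hl : 0 < l) (hd : 0 < d) (hq : ∀ i, 0 < q i) (ha : ∀ i, 0 < a i)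
    (ε : ℝ) (hε : 0 < ε) :
    ∃ N0 : ℕ, ∀ N : Fin r → ℕ, (∀ i, N0 ≤ N i) → ∀ L : (ℤ → ℝ) →ₗ[ℝ] ℝ, IsMean L → ∀ (m : ℕ) (T : Fin m → ℤ),
      |∑ h ∈ Fintype.piFinset (fun i => Icc 1 (N i)), (L (fun n => (∏ j, lt (n + T j)) *
        ∏ i, ∏ j ∈ range (q i), lt (n + d * h i + d * (a i * j)))) ^ l| ≤ (kap r + ε) * ∏ i, (N i : ℝ) := by
  obtain ⟨N0, hN0⟩ := prod_kap r hr a (fun i => a i * q i) (fun i => Nat.mul_pos (ha i) (hq i)) ε hε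
  refine ⟨max N0 1, fun N hN L hL m T => ?_⟩
  have hN1 : ∀ i, 0 < N i := fun i => lt_of_lt_of_le Nat.one_pos ((le_max_right _ _).trans (hN i))
  obtain ⟨Λ, hΛ, hpow⟩ := pow3 hL (d : ℤ) l
  have hf : ∀ ω : Fin l → ℤ, (fun ω : Fin l → ℤ => ∏ k, lt (ω k)) ω = 1 ∨ (fun ω : Fin l → ℤ => ∏ k, lt (ω k)) ω = -1 :=
    fun ω => hm_prod_pm univ fun k => ω k
  have h0 := hm_zero hL hl hd hpow
  have h1 := hN0 N (fun i => (le_max_left _ _).trans (hN i)) (Fin l → ℤ) _ Λ (fun ω => ∏ k, lt (ω k))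
    (fun i => pq (fun (ω : Fin l → ℤ) i => ω i + (d : ℤ)) (fun ω => ∏ k, lt (ω k)) (q i) (a i))
    (fun i => pq_PG hΛ _ hf h0 (q i) (a i))
  have h2 := box_free hΛ (fun i => pq (fun (ω : Fin l → ℤ) i => ω i + (d : ℤ)) (fun ω => ∏ k, lt (ω k)) (q i) (a i))
    (fun i ω => hm_abs (pq_pm _ _ hf (q i) (a i) ω)) (fun ω => ∏ k, (fun n => ∏ j, lt (n + T j)) (ω k)) (fun ω => by
      rw [abs_prod]
      exact prod_le_one (fun i _ => abs_nonneg _) fun i _ => hm_abs (hm_prod_pm univ fun j => ω i + T j)) N hN1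
  have h3 := sum_congr rfl fun (b : Fin r → ℕ) (_ : b ∈ Fintype.piFinset fun i => Icc 1 (N i)) =>
    hm_term (d := d) hpow q a b (fun n => ∏ j, lt (n + T j))
  rw [h3] at h2
  refine h2.trans ?_
  rw [mul_comm]
  exact mul_le_mul_of_nonneg_right h1 (prod_nonneg fun i _ => Nat.cast_nonneg _)

theorem mean_prog (r l d : ℕ) (q a : Fin r → ℕ) (q0 a0 : ℕ) (hr : 0 < r) (hl : 0 < l) (hd : 0 < d) (hq : ∀ i, 0 < q i)
    (ha : ∀ i, 0 < a i) (hq0 : 0 < q0) (ha0 : 0 < a0) (ε : ℝ) (hε : 0 < ε) :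
    ∃ N0 : ℕ, ∀ N : Fin r → ℕ, (∀ i, N0 ≤ N i) → ∀ L : (ℤ → ℝ) →ₗ[ℝ] ℝ, IsMean L →
      |∑ h ∈ Fintype.piFinset (fun i => Icc 1 (N i)), (L (fun n => (∏ j ∈ range q0, lt (n + d * (a0 * j))) *
        ∏ i, ∏ j ∈ range (q i), lt (n + d * h i + d * (a i * j)))) ^ l| ≤ (kap (r + 1) + ε) * ∏ i, (N i : ℝ) := by
  obtain ⟨N1, hN1⟩ := prod_kap (r + 1) (Nat.succ_pos r) (Fin.cons a0 a) (Fin.cons (a0 * q0) fun i => a i * q i)
    (Fin.cases (Nat.mul_pos ha0 hq0) fun i => Nat.mul_pos (ha i) (hq i)) (ε / 2) (half_pos hε)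
  obtain ⟨N2, hN2⟩ := exists_nat_ge (4 * (r : ℝ) * (max N1 1 : ℕ) / ε)
  refine ⟨max N2 (max N1 1), fun N hN L hL => ?_⟩
  have hB : 0 < max N1 1 := lt_of_lt_of_le Nat.one_pos (le_max_right _ _)
  have hNB : ∀ i, max N1 1 ≤ N i := fun i => (le_max_right _ _).trans (hN i)
  have hNp : ∀ i, 0 < N i := fun i => lt_of_lt_of_le hB (hNB i)
  obtain ⟨Λ, hΛ, hpow⟩ := pow3 hL (d : ℤ) l
  have hf : ∀ ω : Fin l → ℤ, (fun ω : Fin l → ℤ => ∏ k, lt (ω k)) ω = 1 ∨ (fun ω : Fin l → ℤ => ∏ k, lt (ω k)) ω = -1 :=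
    fun ω => hm_prod_pm univ fun k => ω k
  have h0 := hm_zero hL hl hd hpow
  have h1 := hN1 (Fin.cons (max N1 1) N) (Fin.cases (le_max_left _ _) fun i => (le_max_left _ _).trans (hNB i))
    (Fin l → ℤ) _ Λ (fun ω => ∏ k, lt (ω k))
    (Fin.cons (pq (fun (ω : Fin l → ℤ) i => ω i + (d : ℤ)) (fun ω => ∏ k, lt (ω k)) q0 a0)
      fun i => pq (fun (ω : Fin l → ℤ) i => ω i + (d : ℤ)) (fun ω => ∏ k, lt (ω k)) (q i) (a i))
    (Fin.cases (pq_PG hΛ _ hf h0 q0 a0) fun i => pq_PG hΛ _ hf h0 (q i) (a i))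
  simp only [Fin.prod_univ_succ, Fin.cons_zero, Fin.cons_succ] at h1
  have h2 := box_prog hΛ (fun i => pq (fun (ω : Fin l → ℤ) i => ω i + (d : ℤ)) (fun ω => ∏ k, lt (ω k)) (q i) (a i))
    (fun i ω => hm_abs (pq_pm _ _ hf (q i) (a i) ω))
    (pq (fun (ω : Fin l → ℤ) i => ω i + (d : ℤ)) (fun ω => ∏ k, lt (ω k)) q0 a0)
    (fun ω => hm_abs (pq_pm _ _ hf q0 a0 ω)) N hNp (max N1 1) hB
  have e0 : ∀ ω : Fin l → ℤ, pq (fun (ω : Fin l → ℤ) i => ω i + (d : ℤ)) (fun ω => ∏ k, lt (ω k)) q0 a0 ω =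
      ∏ k, (fun n => ∏ j ∈ range q0, lt (n + d * (a0 * j))) (ω k) := fun ω => hm_pq0 d q0 a0 ω
  have h3 : ∑ b ∈ Fintype.piFinset (fun i => Icc 1 (N i)), Λ (fun ω => pq (fun (ω : Fin l → ℤ) i => ω i + (d : ℤ))
      (fun ω => ∏ k, lt (ω k)) q0 a0 ω * ∏ i, pq (fun (ω : Fin l → ℤ) i => ω i + (d : ℤ)) (fun ω => ∏ k, lt (ω k)) (q i) (a i)
        ((fun (ω : Fin l → ℤ) i => ω i + (d : ℤ))^[b i] ω)) =
      ∑ h ∈ Fintype.piFinset (fun i => Icc 1 (N i)), (L (fun n => (∏ j ∈ range q0, lt (n + d * (a0 * j))) *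
        ∏ i, ∏ j ∈ range (q i), lt (n + d * h i + d * (a i * j)))) ^ l := by
    refine sum_congr rfl fun b _ => ?_
    rw [← hm_term (d := d) hpow q a b (fun n => ∏ j ∈ range q0, lt (n + d * (a0 * j)))]
    congr 1
    funext ω
    rw [e0]
  rw [h3] at h2
  refine h2.trans ?_
  rw [mul_comm]
  refine mul_le_mul_of_nonneg_right ?_ (prod_nonneg fun i _ => Nat.cast_nonneg _)
  have h4 : ∑ i, 2 * ((max N1 1 : ℕ) : ℝ) / N i ≤ ε / 2 := by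
    have h5 : ∀ i ∈ (univ : Finset (Fin r)), 2 * ((max N1 1 : ℕ) : ℝ) / N i ≤ ε / (2 * r) := by
      intro i _
      have hr' : (0 : ℝ) < r := by exact_mod_cast hr
      have h6 : (N2 : ℝ) ≤ N i := by exact_mod_cast (le_max_left _ _).trans (hN i)
      have h7 : 4 * (r : ℝ) * (max N1 1 : ℕ) / ε ≤ N i := hN2.trans h6
      have h8 : (0 : ℝ) < N i := by exact_mod_cast hNp i
      rw [div_le_iff₀ hε] at h7
      rw [div_le_div_iff₀ h8 (by positivity)]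
      linarith
    refine (sum_le_card_nsmul _ _ _ h5).trans (le_of_eq ?_)
    have hr' : (r : ℝ) ≠ 0 := by exact_mod_cast hr.ne'
    rw [card_univ, Fintype.card_fin, nsmul_eq_mul]
    field_simp
  linarith

end Pool.Agent.Lib.TU2
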