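import Pool.Agent.Lib.TU2.HHat
import Pool.Agent.Lib.TU2.HInt
import Pool.Agent.Lib.TU2.GStep

/-!
# TU2 / HPow (row HP, about 150 lines): powers of the local average

STATEMENTS: below, verbatim.

PROOF of `pow_one`. `dbl` and `Λ y = Λ (f f∘τ^t) = 0` (`la_mean`, `h.zero`), `y = la τ (f f∘τ^t) N`.
PROOF of `pow_two`. `x = |la τ G N ω|`. If `s ≤ N`: `4 x² ≤ (1 + y + 2s/N)² ≤ (1+y)² + 12 s/N` (`dbl`, `|y| ≤ 1`). `Λ (1+y)² = 1 + 2 Λ y + Λ y² = 1 + Λ y²`, and `y = lg τ f t N` (the same function: `τ^[b + t] ω = τ^[t] (τ^[b] ω)`, `Function.iterate_add_apply`, `add_comm`), so by `iter3`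
(all correlations `c` in it are `0`) `Λ y² ≤ ∑_{i<m} 1/4^{i+1} + 1/4^m + 6 t/N ≤ 1/3 + 1/4^m + 6 t/N`. So `Λ x² ≤ 1/3 + 1/4^{m+1} + 6t/(4N) + 3s/N ≤ 1/3 + ε` for `m` large, then `N` large.
PROOF of `pow_gen`. `n ≥ 1` with `1/n ≤ ε`, `c` from `interp r n`, `C_j` from `hat` for `θ = j/n`, `j < n`; `N0 ≥ 1` with `(∑_{j<n} c j C_j)/N0 ≤ ε/3`. `x^r ≤ ∑_{j<n} c j max (x - j/n) 0` (`la_abs_le`), so `Λ x^r ≤ ∑_j c j ((2/3) (1 - j/n)² + C_j/N) ≤ (2/3) (2/(r+1) + 1/n) + ε/3 ≤ 4/(3 (r+1)) + ε`.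
PROOF of `pow_kap`. `r = 1`: `pow_one`, `N ≥ s/ε`. `r = 2`: `pow_two`. `r ≥ 3`: `pow_gen`. (Boundedness of all functions: `la_abs_le`, `h.G_pm`.)
-/

set_option autoImplicit false

open Finset

namespace Pool.Agent.Lib.TU2

private theorem hp_abs {Ω : Type} {G : Ω → ℝ} (hG : ∀ ω, G ω = 1 ∨ G ω = -1) (ω : Ω) : |G ω| ≤ 1 := by
  rcases hG ω with h | h <;> rw [h] <;> norm_num

private theorem hp_ff {Ω : Type} (τ : Ω → Ω) {f : Ω → ℝ} (hf : ∀ ω, f ω = 1 ∨ f ω = -1) (t : ℕ) (ω : Ω) :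
    |f ω * f (τ^[t] ω)| ≤ 1 := by
  rw [abs_mul]
  exact mul_le_one₀ (hp_abs hf _) (abs_nonneg _) (hp_abs hf _)

private theorem hp_zero {Ω : Type} {τ : Ω → Ω} {Λ : (Ω → ℝ) →ₗ[ℝ] ℝ} {f G : Ω → ℝ} {s t : ℕ} (h : PG τ Λ f G s t) (ht : 0 < t)
    (N : ℕ) (hN : 0 < N) : Λ (fun ω => la τ (fun ω => f ω * f (τ^[t] ω)) N ω) = 0 := by
  rw [la_mean h.gm _ (hp_ff τ h.f_pm t) N hN]
  exact h.zero t ht

private theorem hp_lg {Ω : Type} (τ : Ω → Ω) (f : Ω → ℝ) (t N : ℕ) (ω : Ω) :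
    la τ (fun ω => f ω * f (τ^[t] ω)) N ω = lg τ f t N ω := by
  unfold la lg
  congr 1
  refine Finset.sum_congr rfl fun b _ => ?_
  show f (τ^[b] ω) * f (τ^[t] (τ^[b] ω)) = f (τ^[b] ω) * f (τ^[b + t] ω)
  rw [← Function.iterate_add_apply, add_comm t b]

private theorem hp_geom (m : ℕ) : ∑ i ∈ range m, (1 : ℝ) / 4 ^ (i + 1) = 1 / 3 - 1 / 3 * (1 / 4 ^ m) := by
  induction m with
  | zero => norm_num
  | succ m ih =>
    rw [sum_range_succ, ih, pow_succ]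
    field_simp
    ring

theorem pow_one' {Ω : Type} {τ : Ω → Ω} {Λ : (Ω → ℝ) →ₗ[ℝ] ℝ} {f G : Ω → ℝ} {s t : ℕ} (h : PG τ Λ f G s t) (ht : 0 < t)
    (N : ℕ) (hN : 0 < N) : Λ (fun ω => |la τ G N ω|) ≤ 1 / 2 + s / N := by
  have hN' : (0 : ℝ) < N := by exact_mod_cast hN
  have h0 := hp_zero h ht N hN
  have hG := hp_abs h.G_pm
  have hy : ∀ ω, |la τ (fun ω => f ω * f (τ^[t] ω)) N ω| ≤ 1 := fun ω => la_abs_le τ _ (hp_ff τ h.f_pm t) N ω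
  have h1 : Λ (fun ω => |la τ G N ω|) ≤
      Λ (fun ω => (1 / 2 + (s : ℝ) / N) + 1 / 2 * la τ (fun ω => f ω * f (τ^[t] ω)) N ω) := by
    refine h.gm.mono ⟨1, fun ω => ?_⟩ ⟨|1 / 2 + (s : ℝ) / N| + 1 / 2, fun ω => ?_⟩ fun ω => ?_
    · rw [abs_abs]
      exact la_abs_le τ G hG N ω
    · refine (abs_add_le _ _).trans (add_le_add le_rfl ?_)
      rw [abs_mul, abs_of_pos (by norm_num : (0 : ℝ) < 1 / 2)]
      have := hy ω
      linarith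
    · have h2 := dbl h N hN ω
      have e : 2 * (s : ℝ) / N = 2 * (s / N) := by ring
      rw [e] at h2
      linarith
  rw [GM_add, GM_mul, h.gm.const, h0] at h1
  linarith

theorem pow_two' (s t : ℕ) (ht : 0 < t) (ε : ℝ) (hε : 0 < ε) :
    ∃ N0 : ℕ, ∀ N : ℕ, N0 ≤ N → ∀ (Ω : Type) (τ : Ω → Ω) (Λ : (Ω → ℝ) →ₗ[ℝ] ℝ) (f G : Ω → ℝ), PG τ Λ f G s t →
      Λ (fun ω => |la τ G N ω| ^ 2) ≤ 1 / 3 + ε := by
  obtain ⟨m, hm⟩ := exists_pow_lt_of_lt_one hε (by norm_num : (1 / 4 : ℝ) < 1)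
  obtain ⟨k, hk⟩ := exists_nat_ge ((6 * (s : ℝ) + 3 * t) / ε)
  refine ⟨max (s + 1) k, fun N hN Ω τ Λ f G h => ?_⟩
  have hsN : s + 1 ≤ N := (le_max_left _ _).trans hN
  have hkN : k ≤ N := (le_max_right _ _).trans hN
  have hN0 : 0 < N := by omega
  have hN' : (0 : ℝ) < N := by exact_mod_cast hN0
  have hsN' : (s : ℝ) ≤ N := by exact_mod_cast (by omega : s ≤ N)
  have hkN' : (k : ℝ) ≤ N := by exact_mod_cast hkN
  have hs0 : (0 : ℝ) ≤ s := Nat.cast_nonneg s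
  have h0 := hp_zero h ht N hN0
  have hG := hp_abs h.G_pm
  have hy : ∀ ω, |la τ (fun ω => f ω * f (τ^[t] ω)) N ω| ≤ 1 := fun ω => la_abs_le τ _ (hp_ff τ h.f_pm t) N ω
  obtain ⟨y, hyd⟩ : ∃ y : Ω → ℝ, ∀ ω, y ω = la τ (fun ω => f ω * f (τ^[t] ω)) N ω := ⟨_, fun _ => rfl⟩
  have hy1 : ∀ ω, |y ω| ≤ 1 := fun ω => by rw [hyd]; exact hy ω
  have hy0 : Λ (fun ω => y ω) = 0 := by
    have e : (fun ω => y ω) = fun ω => la τ (fun ω => f ω * f (τ^[t] ω)) N ω := funext hyd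
    rw [e]
    exact h0
  obtain ⟨e, he⟩ : ∃ e : ℝ, e = (s : ℝ) / N := ⟨_, rfl⟩
  have he0 : 0 ≤ e := by rw [he]; positivity
  have he1 : e ≤ 1 := by rw [he, div_le_one hN']; exact hsN'
  have h1 : Λ (fun ω => 4 * |la τ G N ω| ^ 2) ≤ Λ (fun ω => (1 + 12 * e) + (2 * y ω + y ω ^ 2)) := by
    refine h.gm.mono ⟨4, fun ω => ?_⟩ ⟨|1 + 12 * e| + 3, fun ω => ?_⟩ fun ω => ?_
    · have hx := la_abs_le τ G hG N ω
      have hx0 := abs_nonneg (la τ G N ω)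
      rw [abs_of_nonneg (by positivity)]
      nlinarith
    · refine (abs_add_le _ _).trans (add_le_add le_rfl ?_)
      have h2 := _root_.abs_le.1 (hy1 ω)
      rw [_root_.abs_le]
      constructor <;> nlinarith [h2.1, h2.2]
    · have h2 := dbl h N hN0 ω
      have e2 : 2 * (s : ℝ) / N = 2 * e := by rw [he]; ring
      rw [e2, ← hyd] at h2
      have h3 := _root_.abs_le.1 (hy1 ω)
      have hx0 := abs_nonneg (la τ G N ω)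
      obtain ⟨x, hx⟩ : ∃ x : ℝ, x = |la τ G N ω| := ⟨_, rfl⟩
      rw [← hx] at h2 hx0 ⊢
      have h4 : (2 * x) ^ 2 ≤ (1 + y ω + 2 * e) ^ 2 := pow_le_pow_left₀ (by linarith) h2 2
      nlinarith [mul_nonneg he0 (by linarith [h3.2] : 0 ≤ 1 - y ω), mul_nonneg he0 (by linarith : 0 ≤ 1 - e)]
  have hsplit : Λ (fun ω => (1 + 12 * e) + (2 * y ω + y ω ^ 2)) = (1 + 12 * e) + (2 * Λ (fun ω => y ω) + Λ (fun ω => y ω ^ 2)) := by
    rw [GM_add (Λ := Λ) (fun _ => 1 + 12 * e) (fun ω => 2 * y ω + y ω ^ 2), h.gm.const,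
      GM_add (Λ := Λ) (fun ω => 2 * y ω) (fun ω => y ω ^ 2), GM_mul]
  rw [GM_mul, hsplit, hy0] at h1
  have h5 : Λ (fun ω => y ω ^ 2) ≤ 1 / 3 + 1 / 4 ^ m + 6 * t / N := by
    have e : (fun ω => y ω ^ 2) = fun ω => lg τ f t N ω ^ 2 := by
      funext ω
      rw [hyd, hp_lg]
    rw [e]
    have h6 := iter3 h.gm f h.f_pm t N ht hN0 m
    have h7 : ∑ i ∈ range m, (1 + 2 * Λ (fun ω => f ω * f (τ^[2 ^ (i + 1) * t] ω))) / 4 ^ (i + 1) =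
        1 / 3 - 1 / 3 * (1 / 4 ^ m) := by
      rw [← hp_geom m]
      refine Finset.sum_congr rfl fun i _ => ?_
      rw [h.zero _ (Nat.mul_pos (pow_pos (by norm_num) _) ht)]
      norm_num
    rw [h7] at h6
    have h8 : (0 : ℝ) ≤ 1 / 4 ^ m := by positivity
    linarith
  have h9 : (1 : ℝ) / 4 ^ m ≤ ε := by
    rw [← one_div_pow]
    exact hm.le
  have h10 : 6 * (s : ℝ) / N + 3 * t / N ≤ ε := by
    rw [← add_div, div_le_iff₀ hN']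
    rw [div_le_iff₀ hε] at hk
    nlinarith
  have h11 : 12 * e = 2 * (6 * (s : ℝ) / N) := by rw [he]; ring
  have h12 : 6 * (t : ℝ) / N = 2 * (3 * t / N) := by ring
  rw [h12] at h5
  linarith

theorem pow_gen (r : ℕ) (hr : 0 < r) (s t : ℕ) (ht : 0 < t) (ε : ℝ) (hε : 0 < ε) :
    ∃ N0 : ℕ, ∀ N : ℕ, N0 ≤ N → ∀ (Ω : Type) (τ : Ω → Ω) (Λ : (Ω → ℝ) →ₗ[ℝ] ℝ) (f G : Ω → ℝ), PG τ Λ f G s t →
      Λ (fun ω => |la τ G N ω| ^ r) ≤ 4 / (3 * ((r : ℝ) + 1)) + ε := by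
  obtain ⟨n, hn⟩ := exists_nat_gt (1 / ε)
  have hn0' : (0 : ℝ) < n := lt_trans (by positivity) hn
  have hn0 : 0 < n := by exact_mod_cast hn0'
  have hn1 : 1 / (n : ℝ) ≤ ε := by
    rw [div_le_iff₀ hn0']
    rw [div_lt_iff₀ hε] at hn
    linarith
  obtain ⟨c, hc0, hc1, hc2⟩ := interp r n hr hn0
  have hC : ∀ j : ℕ, j < n → ∃ C : ℝ, 0 ≤ C ∧ ∀ N : ℕ, 0 < N → ∀ (Ω : Type) (τ : Ω → Ω) (Λ : (Ω → ℝ) →ₗ[ℝ] ℝ) (f G : Ω → ℝ),
      PG τ Λ f G s t → Λ (fun ω => max (|la τ G N ω| - (j : ℝ) / n) 0) ≤ 2 / 3 * (1 - (j : ℝ) / n) ^ 2 + C / N := by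
    intro j hj
    refine hat ((j : ℝ) / n) (by positivity) ?_ s t ht
    rw [div_lt_one hn0']
    exact_mod_cast hj
  choose! C hC' using hC
  obtain ⟨k, hk⟩ := exists_nat_ge (3 * (∑ j ∈ range n, c j * C j) / ε)
  refine ⟨max 1 k, fun N hN Ω τ Λ f G h => ?_⟩
  have hN0 : 0 < N := lt_of_lt_of_le one_pos ((le_max_left _ _).trans hN)
  have hkN : k ≤ N := (le_max_right _ _).trans hN
  have hN' : (0 : ℝ) < N := by exact_mod_cast hN0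
  have hkN' : (k : ℝ) ≤ N := by exact_mod_cast hkN
  have hG := hp_abs h.G_pm
  have hx1 : ∀ ω, |la τ G N ω| ≤ 1 := fun ω => la_abs_le τ G hG N ω
  have hm1 : ∀ (j : ℕ) (ω : Ω), max (|la τ G N ω| - (j : ℝ) / n) 0 ≤ 1 := by
    intro j ω
    refine max_le ?_ zero_le_one
    have h2 : (0 : ℝ) ≤ (j : ℝ) / n := by positivity
    have := hx1 ω
    linarith
  have hm0 : ∀ (j : ℕ) (ω : Ω), 0 ≤ max (|la τ G N ω| - (j : ℝ) / n) 0 := fun j ω => le_max_right _ _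
  have h1 : Λ (fun ω => |la τ G N ω| ^ r) ≤ Λ (fun ω => ∑ j ∈ range n, c j * max (|la τ G N ω| - (j : ℝ) / n) 0) := by
    refine h.gm.mono ⟨1, fun ω => ?_⟩ ⟨∑ j ∈ range n, c j * 1, fun ω => ?_⟩ fun ω => ?_
    · rw [abs_of_nonneg (by positivity)]
      exact pow_le_one₀ (abs_nonneg _) (hx1 ω)
    · rw [abs_of_nonneg (Finset.sum_nonneg fun j _ => mul_nonneg (hc0 j) (hm0 j ω))]
      exact Finset.sum_le_sum fun j _ => mul_le_mul_of_nonneg_left (hm1 j ω) (hc0 j)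
    · exact hc1 _ (abs_nonneg _) (hx1 ω)
  rw [GM_sum] at h1
  have h2 : ∑ j ∈ range n, Λ (fun ω => c j * max (|la τ G N ω| - (j : ℝ) / n) 0) ≤
      ∑ j ∈ range n, (2 / 3 * (c j * (1 - (j : ℝ) / n) ^ 2) + c j * C j / N) := by
    refine Finset.sum_le_sum fun j hj => ?_
    rw [GM_mul]
    have h3 := mul_le_mul_of_nonneg_left ((hC' j (Finset.mem_range.1 hj)).2 N hN0 Ω τ Λ f G h) (hc0 j)
    refine h3.trans (le_of_eq ?_)
    ring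
  rw [Finset.sum_add_distrib, ← Finset.mul_sum, ← Finset.sum_div] at h2
  have h4 : (∑ j ∈ range n, c j * C j) / N ≤ ε / 3 := by
    rw [div_le_iff₀ hN']
    rw [div_le_iff₀ hε] at hk
    nlinarith
  have h5 : (4 : ℝ) / (3 * ((r : ℝ) + 1)) = 2 / 3 * (2 / ((r : ℝ) + 1)) := by
    field_simp
    norm_num
  rw [h5]
  linarith

theorem pow_kap (r : ℕ) (hr : 0 < r) (s t : ℕ) (ht : 0 < t) (ε : ℝ) (hε : 0 < ε) :
    ∃ N0 : ℕ, ∀ N : ℕ, N0 ≤ N → ∀ (Ω : Type) (τ : Ω → Ω) (Λ : (Ω → ℝ) →ₗ[ℝ] ℝ) (f G : Ω → ℝ), PG τ Λ f G s t →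
      Λ (fun ω => |la τ G N ω| ^ r) ≤ kap r + ε := by
  rcases (by omega : r = 1 ∨ r = 2 ∨ 3 ≤ r) with rfl | rfl | h3
  · obtain ⟨k, hk⟩ := exists_nat_ge ((s : ℝ) / ε)
    refine ⟨max 1 k, fun N hN Ω τ Λ f G h => ?_⟩
    have hN0 : 0 < N := lt_of_lt_of_le one_pos ((le_max_left _ _).trans hN)
    have hkN : k ≤ N := (le_max_right _ _).trans hN
    have hN' : (0 : ℝ) < N := by exact_mod_cast hN0
    have hkN' : (k : ℝ) ≤ N := by exact_mod_cast hkN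
    have h1 := pow_one' h ht N hN0
    have h2 : (s : ℝ) / N ≤ ε := by
      rw [div_le_iff₀ hN']
      rw [div_le_iff₀ hε] at hk
      nlinarith
    have h3 : kap 1 = 1 / 2 := by
      unfold kap
      simp
    simp only [pow_one]
    rw [h3]
    linarith
  · obtain ⟨N0, h0⟩ := pow_two' s t ht ε hε
    refine ⟨N0, fun N hN Ω τ Λ f G h => ?_⟩
    have h3 : kap 2 = 1 / 3 := by
      unfold kap
      simp
    rw [h3]
    exact h0 N hN Ω τ Λ f G h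
  · obtain ⟨N0, h0⟩ := pow_gen r hr s t ht ε hε
    refine ⟨N0, fun N hN Ω τ Λ f G h => ?_⟩
    have h4 : kap r = 4 / (3 * ((r : ℝ) + 1)) := by
      unfold kap
      rw [if_neg (by omega), if_neg (by omega)]
    rw [h4]
    exact h0 N hN Ω τ Λ f G h

end Pool.Agent.Lib.TU2
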