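import Pool.Agent.Lib.TU2.HBase

/-!
# TU2 / HQuad (row HQ, about 150 lines): the Fejer kernel against the local average

STATEMENT: below, verbatim.

PROOF. `x = |la τ G N ω|`, `y = la τ (f f∘τ^t) N ω`, `1 - y ≤ 2 (1 - x) + 2 s / N` by `dbl`. `u_j = f ∘ τ^(t j)`, `A = (1/K) ∑_{k<K} u_k`, `Q = la τ (A²) N`.
(1) `0 ≤ Q` (an average of squares).
(2) `Λ Q = Λ (A²) = (1/K²) ∑_{k,k'<K} Λ (u_k u_k') = (1/K²) K = 1/K`: `la_mean` (`|A²| ≤ 1`), for `k = k'` the product is `1`, for `k < k'` it is `(f f∘τ^(t (k'-k))) ∘ τ^(t k)`, mean `0` by `GM.iter` and `h.zero` (`0 < t (k' - k)`; this is where `0 < t` is used).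
(3) `1 - Q = (1/K²) ∑_{k,k'<K} la τ (1 - u_k u_k') N`, and for `k ≤ k' ≤ K`: `1 - u_k u_k' ≤ ∑_{k ≤ j < k'} (1 - u_j u_{j+1})` (signs; induction on `k'`: `1 - uw ≤ (1 - uv) + (1 - vw)` for signs `u, v, w`), while `u_j u_{j+1} = (f f∘τ^t) ∘ τ^(t j)`, so by `la_shift`
`la τ (1 - u_j u_{j+1}) N ≤ 1 - y + 2 t j / N ≤ 1 - y + 2 t K / N` for `j < K`. Hence `1 - Q ≤ (1/K²) (∑_{k,k'<K} |k - k'|) (1 - y + 2 t K / N) = ((K² - 1)/(3 K)) (1 - y + 2 t K / N)` (`∑_{k,k'<K} |k - k'| = K (K² - 1)/3`: induction on `K`; `0 ≤ 1 - y`).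
So `1 - Q ≤ ((K² - 1)/(3K)) (2 (1 - x) + 2 s/N + 2 t K/N) ≤ (2 (K² - 1)/(3K)) (1 - x) + K (s + K t)/N` (`(K² - 1)/(3K) ≤ K/3`).
With (1): `max (1 - (2 (K² - 1)/(3K)) (1 - x)) 0 ≤ Q + K (s + K t)/N`. Apply `Λ` (`GM.mono`, `GM_add`, `GM.const`) and (2).
-/

set_option autoImplicit false

open Finset

namespace Pool.Agent.Lib.TU2

private theorem hq_sgn {a b c : ℝ} (ha : a = 1 ∨ a = -1) (hb : b = 1 ∨ b = -1) (hc : c = 1 ∨ c = -1) :
    1 - a * c ≤ (1 - a * b) + (1 - b * c) := by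
  rcases ha with rfl | rfl <;> rcases hb with rfl | rfl <;> rcases hc with rfl | rfl <;> norm_num

private theorem hq_id (K : ℕ) : ∑ k ∈ range K, (k : ℝ) = K * (K - 1) / 2 := by
  induction K with
  | zero => simp
  | succ K ih =>
    rw [sum_range_succ, ih]
    push_cast
    ring

private theorem hq_abs (K : ℕ) : ∑ k ∈ range K, |(k : ℝ) - K| = K * (K + 1) / 2 := by
  have h : ∀ k ∈ range K, |(k : ℝ) - K| = K - k := by
    intro k hk
    rw [mem_range] at hk
    have : (k : ℝ) ≤ K := by exact_mod_cast hk.le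
    rw [abs_sub_comm, abs_of_nonneg (sub_nonneg.2 this)]
  rw [sum_congr rfl h, sum_sub_distrib, hq_id, sum_const, card_range, nsmul_eq_mul]
  ring

private theorem hq_pairs (K : ℕ) : ∑ k ∈ range K, ∑ l ∈ range K, |(k : ℝ) - l| = K * ((K : ℝ) ^ 2 - 1) / 3 := by
  induction K with
  | zero => simp
  | succ K ih =>
    have h1 : ∑ k ∈ range K, ∑ l ∈ range (K + 1), |(k : ℝ) - l| =
        ∑ k ∈ range K, ∑ l ∈ range K, |(k : ℝ) - l| + ∑ k ∈ range K, |(k : ℝ) - K| := by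
      rw [← sum_add_distrib]
      exact sum_congr rfl fun k _ => sum_range_succ _ _
    have h2 : ∑ l ∈ range (K + 1), |(K : ℝ) - l| = ∑ k ∈ range K, |(k : ℝ) - K| := by
      rw [sum_range_succ, sub_self, abs_zero, add_zero]
      exact sum_congr rfl fun k _ => abs_sub_comm _ _
    rw [sum_range_succ, h1, h2, ih, hq_abs]
    push_cast
    ring

private theorem hq_bd {a b : ℝ} (ha : a = 1 ∨ a = -1) (hb : b = 1 ∨ b = -1) : |a * b| ≤ 1 := by
  rcases ha with rfl | rfl <;> rcases hb with rfl | rfl <;> norm_num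

theorem quad {Ω : Type} {τ : Ω → Ω} {Λ : (Ω → ℝ) →ₗ[ℝ] ℝ} {f G : Ω → ℝ} {s t : ℕ} (h : PG τ Λ f G s t) (ht : 0 < t)
    (K N : ℕ) (hK : 0 < K) (hN : 0 < N) :
    Λ (fun ω => max (1 - 2 * ((K : ℝ) ^ 2 - 1) / (3 * K) * (1 - |la τ G N ω|)) 0) ≤ 1 / K + K * (s + K * t) / N := by
  have hN' : (0 : ℝ) < N := by exact_mod_cast hN
  have hK' : (0 : ℝ) < K := by exact_mod_cast hK
  have hK1 : (1 : ℝ) ≤ K := by exact_mod_cast hK
  have hgm := h.gm
  have hg1 : ∀ (c : ℕ) (ω : Ω), |f ω * f (τ^[c] ω)| ≤ 1 := fun c ω => hq_bd (h.f_pm _) (h.f_pm _)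
  obtain ⟨u, hu⟩ : ∃ u : ℕ → Ω → ℝ, ∀ k ω, u k ω = f (τ^[t * k] ω) := ⟨_, fun _ _ => rfl⟩
  have hpm : ∀ k ω, u k ω = 1 ∨ u k ω = -1 := fun k ω => by
    rw [hu]
    exact h.f_pm _
  obtain ⟨A, hA⟩ : ∃ A : Ω → ℝ, ∀ ω, A ω = (∑ k ∈ range K, ∑ l ∈ range K, u k ω * u l ω) / (K : ℝ) ^ 2 :=
    ⟨_, fun _ => rfl⟩
  have hAsq : ∀ ω, A ω = (∑ k ∈ range K, u k ω) ^ 2 / (K : ℝ) ^ 2 := by
    intro ω
    rw [hA, ← Finset.sum_mul_sum, ← sq]
  have hA0 : ∀ ω, 0 ≤ A ω := fun ω => by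
    rw [hAsq]
    positivity
  have hA1 : ∀ ω, |A ω| ≤ 1 := by
    intro ω
    have h1 : |∑ k ∈ range K, u k ω| ≤ K := by
      refine (abs_sum_le_sum_abs _ _).trans ((sum_le_sum (g := fun _ => (1 : ℝ)) fun k _ => ?_).trans ?_)
      · rcases hpm k ω with e | e <;> rw [e] <;> norm_num
      · simp
    rw [abs_of_nonneg (hA0 ω), hAsq, div_le_one (by positivity)]
    exact sq_le_sq' (abs_le.1 h1).1 (abs_le.1 h1).2
  have hcorr : ∀ k l : ℕ, Λ (fun ω => u k ω * u l ω) = if k = l then 1 else 0 := by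
    have key : ∀ k l : ℕ, k < l → Λ (fun ω => u k ω * u l ω) = 0 := by
      intro k l hkl
      have e : (fun ω => u k ω * u l ω) = fun ω => (fun ω' => f ω' * f (τ^[t * (l - k)] ω')) (τ^[t * k] ω) := by
        funext ω
        simp only
        rw [hu, hu, ← Function.iterate_add_apply, ← Nat.mul_add, Nat.sub_add_cancel hkl.le]
      rw [e, hgm.iter ⟨1, hg1 (t * (l - k))⟩ (t * k), h.zero _ (Nat.mul_pos ht (Nat.sub_pos_of_lt hkl))]
    intro k l
    rcases lt_trichotomy k l with hkl | rfl | hkl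
    · rw [if_neg hkl.ne, key k l hkl]
    · rw [if_pos rfl]
      have e : (fun ω => u k ω * u k ω) = fun _ => (1 : ℝ) := by
        funext ω
        rcases hpm k ω with h1 | h1 <;> rw [h1] <;> norm_num
      rw [e, hgm.one]
    · rw [if_neg hkl.ne']
      have e : (fun ω => u k ω * u l ω) = fun ω => u l ω * u k ω := by
        funext ω
        ring
      rw [e, key l k hkl]
  have hLA : Λ (fun ω => A ω) = 1 / K := by
    have e : (fun ω => A ω) = fun ω => (1 / (K : ℝ) ^ 2) * ∑ k ∈ range K, ∑ l ∈ range K, u k ω * u l ω := by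
      funext ω
      rw [hA]
      ring
    rw [e, GM_mul, GM_sum (range K) (fun k ω => ∑ l ∈ range K, u k ω * u l ω)]
    have e2 : ∀ k ∈ range K, Λ (fun ω => ∑ l ∈ range K, u k ω * u l ω) = 1 := by
      intro k hk
      rw [GM_sum (range K) (fun l ω => u k ω * u l ω)]
      simp only [hcorr]
      rw [sum_ite_eq (range K) k, if_pos hk]
    rw [sum_congr rfl e2, sum_const, card_range, nsmul_eq_mul]
    field_simp
  have hpt : ∀ ω, max (1 - 2 * ((K : ℝ) ^ 2 - 1) / (3 * K) * (1 - |la τ G N ω|)) 0 ≤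
      la τ A N ω + K * (s + K * t) / N := by
    intro ω
    have hq0 : 0 ≤ la τ A N ω := by
      unfold la
      exact div_nonneg (sum_nonneg fun b _ => hA0 _) hN'.le
    have herr : (0 : ℝ) ≤ K * (s + K * t) / N := by positivity
    refine max_le ?_ (by linarith)
    obtain ⟨V, hV⟩ : ∃ V : ℕ → ℕ → ℝ, ∀ k l, V k l = ∑ b ∈ range N, (1 - u k (τ^[b] ω) * u l (τ^[b] ω)) :=
      ⟨_, fun _ _ => rfl⟩
    have hd := dbl h N hN ω
    have hy1 : la τ (fun ω => f ω * f (τ^[t] ω)) N ω ≤ 1 :=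
      (abs_le.1 (la_abs_le τ (fun ω => f ω * f (τ^[t] ω)) (hg1 t) N ω)).2
    have hsh := fun j => la_shift τ (fun ω => f ω * f (τ^[t] ω)) (hg1 t) N (t * j) ω
    obtain ⟨y, hy⟩ : ∃ y, y = la τ (fun ω => f ω * f (τ^[t] ω)) N ω := ⟨_, rfl⟩
    rw [← hy] at hd hy1
    simp only [← hy] at hsh
    obtain ⟨W, hW⟩ : ∃ W : ℝ, W = N * (1 - y) + 2 * t * K := ⟨_, rfl⟩
    have hW0 : 0 ≤ W := by
      rw [hW]
      have : 0 ≤ (N : ℝ) * (1 - y) := mul_nonneg hN'.le (by linarith)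
      positivity
    have hstep : ∀ j, j < K → V j (j + 1) ≤ W := by
      intro j hj
      have e : V j (j + 1) = N - N * la τ (fun ω => f ω * f (τ^[t] ω)) N (τ^[t * j] ω) := by
        rw [hV]
        unfold la
        rw [mul_div_cancel₀ _ hN'.ne', sum_sub_distrib, sum_const, card_range, nsmul_eq_mul, mul_one]
        congr 1
        refine sum_congr rfl fun b _ => ?_
        rw [hu, hu]
        simp only [← Function.iterate_add_apply]
        rw [add_comm (t * j) b, show t * (j + 1) + b = t + (b + t * j) by ring]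
      have h1 := (abs_le.1 (hsh j)).1
      have hj' : (j : ℝ) ≤ K := by exact_mod_cast hj.le
      have h2 : (N : ℝ) * (2 * ((t * j : ℕ) : ℝ) / N) = 2 * t * j := by
        push_cast
        field_simp
      have h3 := mul_le_mul_of_nonneg_left h1 hN'.le
      have h4 : (2 : ℝ) * t * j ≤ 2 * t * K := by gcongr
      rw [e, hW]
      nlinarith
    have hind : ∀ k d, k + d ≤ K → V k (k + d) ≤ d * W := by
      intro k d
      induction d with
      | zero =>
        intro _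
        rw [hV, add_zero, sum_eq_zero]
        · simp
        · intro b _
          rcases hpm k (τ^[b] ω) with h1 | h1 <;> rw [h1] <;> norm_num
      | succ d ih =>
        intro hd
        have h1 := ih (by omega)
        have h2 := hstep (k + d) (by omega)
        have h3 : V k (k + (d + 1)) ≤ V k (k + d) + V (k + d) (k + d + 1) := by
          rw [hV, hV, hV, ← sum_add_distrib]
          exact sum_le_sum fun b _ => hq_sgn (hpm _ _) (hpm _ _) (hpm _ _)
        push_cast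
        linarith
    have hall : ∀ k ∈ range K, ∀ l ∈ range K, V k l ≤ |(k : ℝ) - l| * W := by
      intro k hk l hl
      rw [mem_range] at hk hl
      rcases le_total k l with hkl | hkl
      · obtain ⟨d, rfl⟩ := Nat.exists_eq_add_of_le hkl
        have e : |(k : ℝ) - ((k + d : ℕ) : ℝ)| = d := by
          push_cast
          rw [show (k : ℝ) - (k + d) = -(d : ℝ) by ring, abs_neg, abs_of_nonneg (Nat.cast_nonneg d)]
        rw [e]
        exact hind k d hl.le
      · obtain ⟨d, rfl⟩ := Nat.exists_eq_add_of_le hkl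
        have e : |((l + d : ℕ) : ℝ) - l| = d := by
          push_cast
          rw [show (l : ℝ) + d - l = (d : ℝ) by ring, abs_of_nonneg (Nat.cast_nonneg d)]
        have e2 : V (l + d) l = V l (l + d) := by
          rw [hV, hV]
          exact sum_congr rfl fun b _ => by ring
        rw [e, e2]
        exact hind l d hk.le
    have hsum : ∑ k ∈ range K, ∑ l ∈ range K, V k l ≤ K * ((K : ℝ) ^ 2 - 1) / 3 * W := by
      rw [← hq_pairs, sum_mul]
      refine sum_le_sum fun k hk => ?_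
      rw [sum_mul]
      exact sum_le_sum fun l hl => hall k hk l hl
    have hid : ∑ k ∈ range K, ∑ l ∈ range K, V k l = (K : ℝ) ^ 2 * N * (1 - la τ A N ω) := by
      have e1 : ∑ k ∈ range K, ∑ l ∈ range K, V k l =
          ∑ b ∈ range N, ∑ k ∈ range K, ∑ l ∈ range K, (1 - u k (τ^[b] ω) * u l (τ^[b] ω)) := by
        symm
        rw [sum_comm]
        refine sum_congr rfl fun k _ => ?_
        rw [sum_comm]
        exact sum_congr rfl fun l _ => (hV k l).symm
      have e2 : ∀ b ∈ range N, ∑ k ∈ range K, ∑ l ∈ range K, (1 - u k (τ^[b] ω) * u l (τ^[b] ω)) =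
          (K : ℝ) ^ 2 * (1 - A (τ^[b] ω)) := by
        intro b _
        rw [hA]
        simp only [sum_sub_distrib, sum_const, card_range, nsmul_eq_mul, mul_one]
        field_simp
      rw [e1, sum_congr rfl e2, ← mul_sum, sum_sub_distrib, sum_const, card_range, nsmul_eq_mul, mul_one]
      unfold la
      field_simp
    rw [hid] at hsum
    have hx1 : |la τ G N ω| ≤ 1 := la_abs_le τ G (fun ω => by rcases h.G_pm ω with e | e <;> rw [e] <;> norm_num) N ω
    obtain ⟨x, hx⟩ : ∃ x, x = |la τ G N ω| := ⟨_, rfl⟩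
    rw [← hx] at hd hx1 ⊢
    obtain ⟨Q, hQ⟩ : ∃ Q, Q = la τ A N ω := ⟨_, rfl⟩
    rw [← hQ] at hsum ⊢
    have hKK : (0 : ℝ) ≤ (K : ℝ) ^ 2 - 1 := by nlinarith
    have hWN : W / N ≤ 2 * (1 - x) + 2 * (s + K * t) / N := by
      have e : W / N = (1 - y) + 2 * t * K / N := by
        rw [hW]
        field_simp
      rw [e]
      have e3 : (2 : ℝ) * (s + K * t) / N = 2 * s / N + 2 * t * K / N := by ring
      rw [e3]
      linarith
    have h1 : 1 - Q ≤ ((K : ℝ) ^ 2 - 1) / (3 * K) * (W / N) := by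
      have e : ((K : ℝ) ^ 2 - 1) / (3 * K) * (W / N) = (K * ((K : ℝ) ^ 2 - 1) / 3 * W) / ((K : ℝ) ^ 2 * N) := by
        field_simp
      rw [e, le_div_iff₀ (by positivity)]
      linarith
    have h2 : ((K : ℝ) ^ 2 - 1) / (3 * K) * (W / N) ≤
        ((K : ℝ) ^ 2 - 1) / (3 * K) * (2 * (1 - x) + 2 * (s + K * t) / N) := by
      gcongr
    have h3 : ((K : ℝ) ^ 2 - 1) / (3 * K) * (2 * (s + K * t) / N) ≤ K * (s + K * t) / N := by
      have e : ((K : ℝ) ^ 2 - 1) / (3 * K) ≤ K / 2 := by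
        rw [div_le_div_iff₀ (by positivity) (by norm_num)]
        nlinarith
      have e4 : (K : ℝ) * (s + K * t) / N = K / 2 * (2 * (s + K * t) / N) := by ring
      rw [e4]
      gcongr
    have e5 : ((K : ℝ) ^ 2 - 1) / (3 * K) * (2 * (1 - x) + 2 * (s + K * t) / N) =
        2 * ((K : ℝ) ^ 2 - 1) / (3 * K) * (1 - x) + ((K : ℝ) ^ 2 - 1) / (3 * K) * (2 * (s + K * t) / N) := by ring
    linarith
  have hbA : ∀ ω, |la τ A N ω| ≤ 1 := fun ω => la_abs_le τ A hA1 N ω
  have hmono : Λ (fun ω => max (1 - 2 * ((K : ℝ) ^ 2 - 1) / (3 * K) * (1 - |la τ G N ω|)) 0) ≤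
      Λ (fun ω => la τ A N ω + K * (s + K * t) / N) := by
    have herr : (0 : ℝ) ≤ K * (s + K * t) / N := by positivity
    refine hgm.mono ⟨1 + K * (s + K * t) / N, fun ω => ?_⟩ ⟨1 + K * (s + K * t) / N, fun ω => ?_⟩ hpt
    · rw [abs_of_nonneg (le_max_right _ _)]
      refine (hpt ω).trans ?_
      linarith [(abs_le.1 (hbA ω)).2]
    · refine (abs_add_le _ _).trans ?_
      rw [abs_of_nonneg herr]
      linarith [hbA ω]
  refine hmono.trans ?_
  rw [GM_add (fun ω => la τ A N ω) (fun _ => (K : ℝ) * (s + K * t) / N), hgm.const, la_mean hgm A hA1 N hN, hLA]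

end Pool.Agent.Lib.TU2
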