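import Pool.Agent.Lib.TU2.Base

/-!
# TU2 / Katai (row KT, about 120 lines): the criterion of Kátai for a logarithmic mean

STATEMENT: below, verbatim.

PROOF. Choose a finite set `P` of primes with `S = ∑_{p ∈ P} 1/p ≥ 1` and `S ≥ 16 / ε²` (the sum of `1/p` over the primes diverges: `Nat.Primes.not_summable_one_div`
or `not_summable_one_div_on_primes`; every finite partial sum larger than a given bound is available by `not_summable_iff_tendsto_nat_atTop_of_nonneg` or similar).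
`δ = ε² / 16`. Let `w n = ∑_{p ∈ P} (if p ∣ n then 1 else 0)`.
(1) `L w = S` and `L (w²) ≤ S² + S`: `L (fun n => if (p:ℤ) ∣ n then 1 else 0) = 1/p` (`hL.dil` with `f = 1`, or `pr_mod` with `a = 0`), and for `p ≠ q` primes
`p ∣ n ∧ q ∣ n ↔ p q ∣ n`, value `1/(p q)`; so `L (w²) = ∑_{p ≠ q} 1/(pq) + ∑ 1/p ≤ S² + S`. Hence `L ((w - S)²) ≤ S` and by `cs` (with `f = w - S`, `g' = λ g`, `L ((λ g)²) ≤ 1`)
`|L ((w - S) λ g)| ≤ √S`.
(2) `L (w λ g) = ∑_p L (1_{p ∣ n} λ(n) g(n)) = ∑_p (1/p) L (m ↦ λ(p m) g(p m))` by `hL.dil` applied to `f m = λ(p m) g(p m)` (`if p ∣ n then f (n/p) else 0`; for `n = p m`, `n / p = m`),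
and `λ(p m) = -λ(m)` (`lam_mul`, `lam_prime`). So `L (w λ g) = -L (m ↦ λ(m) ∑_p g(p m)/p)`, and by `cs`, `|.|² ≤ L ((∑_p g(p m)/p)²) = ∑_{p,q} (1/(pq)) L (g(pm) g(qm)) ≤ ∑_p 1/p² + δ S² ≤ S + δ S²`
(diagonal: `|L| ≤ 1`, `1/p² ≤ 1/p`).
(3) `S |L (λ g)| ≤ |L (w λ g)| + |L ((w - S) λ g)| ≤ √(S + δ S²) + √S ≤ 2 √S + √δ S`; divide by `S`: `≤ 2/√S + √δ ≤ ε/2 + ε/4 ≤ ε`.
-/

set_option autoImplicit false

open Finset

namespace Pool.Agent.Lib.TU2

open Pool.Agent.Lib.TU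

private lemma kt_primes (B : ℝ) : ∃ P : Finset ℕ, (∀ p ∈ P, p.Prime) ∧ B ≤ ∑ p ∈ P, 1 / (p : ℝ) := by
  have h1 := not_summable_one_div_on_primes
  rw [not_summable_iff_tendsto_nat_atTop_of_nonneg] at h1
  · obtain ⟨n, hn⟩ := (h1.eventually (Filter.eventually_ge_atTop B)).exists
    refine ⟨(range n).filter Nat.Prime, fun p hp => (mem_filter.1 hp).2, ?_⟩
    refine hn.trans (le_of_eq ?_)
    rw [sum_filter]
    refine sum_congr rfl fun p _ => ?_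
    by_cases h : p.Prime
    · simp [h, Set.indicator]
    · simp [h, Set.indicator]
  · intro p
    refine Set.indicator_nonneg (fun p _ => ?_) p
    positivity

/-- the indicator function of the multiples of `p` -/
private noncomputable def ki (p : ℕ) (n : ℤ) : ℝ := if (p : ℤ) ∣ n then 1 else 0

private lemma ki_nonneg (p : ℕ) (n : ℤ) : 0 ≤ ki p n := by
  unfold ki; split_ifs <;> norm_num

private lemma ki_Bd (p : ℕ) : Bd (ki p) := by
  refine ⟨1, fun n => ?_⟩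
  unfold ki; split_ifs <;> norm_num

private lemma ki_L {L : (ℤ → ℝ) →ₗ[ℝ] ℝ} (hL : IsMean L) {p : ℕ} (hp : 0 < p) : L (ki p) = 1 / p := by
  have h := pr_mul_if hL (Bd.const 1) hp
  rw [hL.one] at h
  exact h

private lemma ki_L2 {L : (ℤ → ℝ) →ₗ[ℝ] ℝ} (hL : IsMean L) {p q : ℕ} (hp : p.Prime) (hq : q.Prime) :
    L (fun n => ki p n * ki q n) ≤ 1 / (p : ℝ) * (1 / (q : ℝ)) + if p = q then 1 / (p : ℝ) else 0 := by
  have hp0 : (0 : ℝ) < p := by exact_mod_cast hp.pos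
  have hq0 : (0 : ℝ) < q := by exact_mod_cast hq.pos
  by_cases h : p = q
  · subst h
    rw [if_pos rfl]
    have h1 : (fun n => ki p n * ki p n) = ki p := by
      ext n; unfold ki; split_ifs <;> norm_num
    rw [h1, ki_L hL hp.pos]
    have : 0 ≤ 1 / (p : ℝ) * (1 / (p : ℝ)) := by positivity
    linarith
  · rw [if_neg h, add_zero]
    have h1 : (fun n => ki p n * ki q n) = ki (p * q) := by
      ext n
      unfold ki
      have hc : Nat.Coprime p q := (Nat.coprime_primes hp hq).2 h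
      have h2 : (((p * q : ℕ) : ℤ) ∣ n) ↔ ((p : ℤ) ∣ n ∧ (q : ℤ) ∣ n) := by
        rw [Int.natCast_dvd, Int.natCast_dvd, Int.natCast_dvd]
        exact ⟨fun h => ⟨dvd_of_mul_right_dvd h, dvd_of_mul_left_dvd h⟩,
          fun h => hc.mul_dvd_of_dvd_of_dvd h.1 h.2⟩
      by_cases h3 : (p : ℤ) ∣ n <;> by_cases h4 : (q : ℤ) ∣ n <;> simp only [h2, h3, h4] <;> norm_num
    rw [h1, ki_L hL (Nat.mul_pos hp.pos hq.pos)]
    push_cast
    exact le_of_eq (by field_simp)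

private lemma kt_diag (P : Finset ℕ) (c : ℝ) :
    ∑ p ∈ P, ∑ q ∈ P, (c * (1 / (p : ℝ) * (1 / (q : ℝ))) + if p = q then 1 / (p : ℝ) else 0) =
      c * (∑ p ∈ P, 1 / (p : ℝ)) ^ 2 + ∑ p ∈ P, 1 / (p : ℝ) := by
  simp_rw [sum_add_distrib]
  congr 1
  · rw [pow_two, sum_mul_sum, mul_sum]
    refine sum_congr rfl fun p _ => ?_
    rw [mul_sum]
  · refine sum_congr rfl fun p hp => ?_
    rw [sum_ite_eq P p]
    simp [hp]

private lemma kt_var {L : (ℤ → ℝ) →ₗ[ℝ] ℝ} (hL : IsMean L) (P : Finset ℕ) (hP : ∀ p ∈ P, p.Prime) :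
    L (fun n => (∑ p ∈ P, ki p n - ∑ p ∈ P, 1 / (p : ℝ)) ^ 2) ≤ ∑ p ∈ P, 1 / (p : ℝ) := by
  set S := ∑ p ∈ P, 1 / (p : ℝ) with hS
  have h1 : (fun n : ℤ => (∑ p ∈ P, ki p n - S) ^ 2) =
      fun n => (∑ p ∈ P, ∑ q ∈ P, ki p n * ki q n) - (2 * S * (∑ p ∈ P, ki p n) - S ^ 2) := by
    ext n
    rw [← sum_mul_sum]
    ring
  have h2 : L (fun n => ∑ p ∈ P, ki p n) = S := by
    rw [L_sum]
    exact sum_congr rfl fun p hp => ki_L hL (hP p hp).pos
  have h3 : L (fun n => ∑ p ∈ P, ∑ q ∈ P, ki p n * ki q n) ≤ S ^ 2 + S := by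
    rw [L_sum]
    have h4 : ∀ p ∈ P, L (fun n => ∑ q ∈ P, ki p n * ki q n) ≤
        ∑ q ∈ P, (1 * (1 / (p : ℝ) * (1 / (q : ℝ))) + if p = q then 1 / (p : ℝ) else 0) := by
      intro p hp
      rw [L_sum]
      refine sum_le_sum fun q hq => ?_
      rw [one_mul]
      exact ki_L2 hL (hP p hp) (hP q hq)
    refine (sum_le_sum h4).trans ?_
    rw [kt_diag P 1, one_mul]
  rw [h1, L_sub, L_sub, L_mul, h2, hL.const]
  nlinarith

private lemma kt_w {L : (ℤ → ℝ) →ₗ[ℝ] ℝ} (hL : IsMean L) (P : Finset ℕ) (hP : ∀ p ∈ P, p.Prime) (δ : ℝ) (hδ : 0 ≤ δ)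
    (g : ℤ → ℝ) (hg : ∀ n, |g n| ≤ 1)
    (h : ∀ p ∈ P, ∀ q ∈ P, p ≠ q → |L (fun m => g (p * m) * g (q * m))| ≤ δ) :
    L (fun n => (∑ p ∈ P, ki p n) * (lam n * g n)) ^ 2 ≤ δ * (∑ p ∈ P, 1 / (p : ℝ)) ^ 2 + ∑ p ∈ P, 1 / (p : ℝ) := by
  have hgB : Bd g := ⟨1, hg⟩
  have hlB : Bd lam := ⟨1, lam_abs_le⟩
  have h1 : L (fun n => (∑ p ∈ P, ki p n) * (lam n * g n)) =
      -L (fun n => lam n * ∑ p ∈ P, (1 / (p : ℝ)) * g (p * n)) := by
    have e1 : (fun n : ℤ => (∑ p ∈ P, ki p n) * (lam n * g n)) = fun n => ∑ p ∈ P, ki p n * (lam n * g n) := by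
      ext n; rw [sum_mul]
    have e2 : (fun n : ℤ => lam n * ∑ p ∈ P, (1 / (p : ℝ)) * g (p * n)) =
        fun n => ∑ p ∈ P, (1 / (p : ℝ)) * (lam n * g (p * n)) := by
      ext n; rw [mul_sum]; refine sum_congr rfl fun p _ => ?_; ring
    rw [e1, e2, L_sum, L_sum, ← sum_neg_distrib]
    refine sum_congr rfl fun p hp => ?_
    have e3 : (fun n : ℤ => ki p n * (lam n * g n)) = fun n => if (p : ℤ) ∣ n then (lam n * g n) else 0 := by
      ext n; unfold ki; split_ifs <;> simp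
    rw [e3, pr_mul_if hL (hlB.mul hgB) (hP p hp).pos, L_mul]
    have e4 : (fun n : ℤ => lam (p * n) * g (p * n)) = fun n => -(lam n * g (p * n)) := by
      ext n; rw [lam_mul, lam_prime (hP p hp)]; ring
    rw [e4, L_neg]
    ring
  have hGB : Bd (fun n : ℤ => ∑ p ∈ P, (1 / (p : ℝ)) * g (p * n)) :=
    Bd.sum P fun p _ => (Bd.const _).mul (hgB.comp fun n => p * n)
  have h2 : L (fun n => lam n * ∑ p ∈ P, (1 / (p : ℝ)) * g (p * n)) ^ 2 ≤
      L (fun n => (∑ p ∈ P, (1 / (p : ℝ)) * g (p * n)) ^ 2) := by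
    refine (cs hL hlB hGB).trans ?_
    have h3 : L (fun n => lam n ^ 2) ≤ 1 := by
      refine hL.le_const (by simpa [pow_two] using hlB.mul hlB) fun n => ?_
      have := abs_le.1 (lam_abs_le n)
      nlinarith [this.1, this.2]
    have h4 : 0 ≤ L (fun n => (∑ p ∈ P, (1 / (p : ℝ)) * g (p * n)) ^ 2) :=
      hL.nonneg _ (by simpa [pow_two] using hGB.mul hGB) fun n => sq_nonneg _
    calc _ ≤ 1 * L (fun n => (∑ p ∈ P, (1 / (p : ℝ)) * g (p * n)) ^ 2) := mul_le_mul_of_nonneg_right h3 h4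
      _ = _ := one_mul _
  rw [h1, neg_sq]
  refine h2.trans ?_
  have h5 : (fun n : ℤ => (∑ p ∈ P, (1 / (p : ℝ)) * g (p * n)) ^ 2) =
      fun n => ∑ p ∈ P, ∑ q ∈ P, (1 / (p : ℝ) * (1 / (q : ℝ))) * (g (p * n) * g (q * n)) := by
    ext n
    rw [pow_two, sum_mul_sum]
    refine sum_congr rfl fun p _ => sum_congr rfl fun q _ => ?_
    ring
  rw [h5, L_sum, ← kt_diag P δ]
  refine sum_le_sum fun p hp => ?_
  rw [L_sum]
  refine sum_le_sum fun q hq => ?_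
  rw [L_mul]
  have hp1 : (1 : ℝ) ≤ p := by exact_mod_cast (hP p hp).one_le
  have hq1 : (1 : ℝ) ≤ q := by exact_mod_cast (hP q hq).one_le
  have hpq : 0 ≤ 1 / (p : ℝ) * (1 / (q : ℝ)) := by positivity
  by_cases e : p = q
  · subst e
    rw [if_pos rfl]
    have h6 : L (fun n => g (p * n) * g (p * n)) ≤ 1 := by
      refine hL.le_const ((hgB.comp fun n => p * n).mul (hgB.comp fun n => p * n)) fun n => ?_
      have := abs_le.1 (hg (p * n))
      nlinarith [this.1, this.2]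
    have h7 : 1 / (p : ℝ) * (1 / (p : ℝ)) ≤ 1 / (p : ℝ) := by
      have h8 : 1 / (p : ℝ) ≤ 1 := by rw [div_le_one (by linarith)]; exact hp1
      have h9 : 0 ≤ 1 / (p : ℝ) := by positivity
      nlinarith
    have h10 : 0 ≤ δ * (1 / (p : ℝ) * (1 / (p : ℝ))) := mul_nonneg hδ hpq
    nlinarith
  · rw [if_neg e, add_zero]
    have h6 := (abs_le.1 (h p hp q hq e)).2
    nlinarith

theorem katai (ε : ℝ) (hε : 0 < ε) : ∃ P : Finset ℕ, (∀ p ∈ P, p.Prime) ∧ ∃ δ : ℝ, 0 < δ ∧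
    ∀ L : (ℤ → ℝ) →ₗ[ℝ] ℝ, IsMean L → ∀ g : ℤ → ℝ, (∀ n, |g n| ≤ 1) →
      (∀ p ∈ P, ∀ q ∈ P, p ≠ q → |L (fun m => g (p * m) * g (q * m))| ≤ δ) →
      |L (fun n => lam n * g n)| ≤ ε := by
  obtain ⟨P, hP, hS⟩ := kt_primes (max 1 (16 / ε ^ 2))
  refine ⟨P, hP, ε ^ 2 / 16, by positivity, ?_⟩
  intro L hL g hg h
  set S := ∑ p ∈ P, 1 / (p : ℝ) with hSd
  have hS1 : 1 ≤ S := (le_max_left _ _).trans hS
  have hS2 : 16 / ε ^ 2 ≤ S := (le_max_right _ _).trans hS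
  have hgB : Bd g := ⟨1, hg⟩
  have hlB : Bd lam := ⟨1, lam_abs_le⟩
  have hwB : Bd (fun n => ∑ p ∈ P, ki p n - S) := (Bd.sum P fun p _ => ki_Bd p).sub (Bd.const S)
  have hS3 : S ≤ S ^ 2 * ε ^ 2 / 16 := by
    rw [div_le_iff₀ (by positivity)] at hS2
    nlinarith
  have hA := kt_w hL P hP (ε ^ 2 / 16) (by positivity) g hg h
  rw [← hSd] at hA
  have hA2 : |L (fun n => (∑ p ∈ P, ki p n) * (lam n * g n))| ≤ S * ε / 2 := by
    refine abs_le_of_sq_le_sq (hA.trans ?_) (by positivity)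
    nlinarith [sq_nonneg (S * ε)]
  have hB : L (fun n => (∑ p ∈ P, ki p n - S) * (lam n * g n)) ^ 2 ≤ S := by
    refine (cs hL hwB (hlB.mul hgB)).trans ?_
    have h3 : L (fun n => (lam n * g n) ^ 2) ≤ 1 := by
      refine hL.le_const (by simpa [pow_two] using (hlB.mul hgB).mul (hlB.mul hgB)) fun n => ?_
      have h4 : |lam n * g n| ≤ 1 := by
        rw [abs_mul]
        exact mul_le_one₀ (lam_abs_le n) (abs_nonneg _) (hg n)
      exact (sq_le_one_iff_abs_le_one _).2 h4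
    have h5 := kt_var hL P hP
    rw [← hSd] at h5
    have h6 : 0 ≤ L (fun n => (lam n * g n) ^ 2) :=
      hL.nonneg _ (by simpa [pow_two] using (hlB.mul hgB).mul (hlB.mul hgB)) fun n => sq_nonneg _
    have h7 : 0 ≤ L (fun n => (∑ p ∈ P, ki p n - S) ^ 2) :=
      hL.nonneg _ (by simpa [pow_two] using hwB.mul hwB) fun n => sq_nonneg _
    nlinarith
  have hB2 : |L (fun n => (∑ p ∈ P, ki p n - S) * (lam n * g n))| ≤ S * ε / 2 := by
    refine abs_le_of_sq_le_sq (hB.trans ?_) (by positivity)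
    nlinarith [sq_nonneg (S * ε)]
  have hC : S * L (fun n => lam n * g n) = L (fun n => (∑ p ∈ P, ki p n) * (lam n * g n)) -
      L (fun n => (∑ p ∈ P, ki p n - S) * (lam n * g n)) := by
    rw [← L_sub, ← L_mul]
    congr 1
    ext n
    ring
  have hD : |S * L (fun n => lam n * g n)| ≤ S * ε := by
    rw [hC]
    refine (abs_sub _ _).trans ?_
    linarith
  rw [abs_mul, abs_of_pos (by linarith : (0 : ℝ) < S)] at hD
  exact le_of_mul_le_mul_left hD (by linarith)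

end Pool.Agent.Lib.TU2
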