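import Pool.Agent.Lib.TU2.Katai

/-!
# TU2 / Minor (row MI, about 200 lines): exponential sums with `λ` over windows, minor arcs, for a mean

STATEMENT: below, verbatim.

PROOF. `P`, `δ` from `katai ε`; `R ≥ 1` with `p ≤ R` for `p ∈ P`; `D = 2 R`; `κ = δ / (16 R)` (and `κ ≤ 1`, take the minimum), `C = 2/κ + 1/(κ δ)` or larger.
The hypothesis with `d = 1` and the nearest integer `z` gives `C ≤ K/2`, so `κ K ≥ 1`; `M = ⌈κ K⌉₊`, so `1 ≤ M`, `κ K ≤ M ≤ 2 κ K`.
(1) Let `T n = ∑_{j<K} λ(n+j) cos(2π(α j + θ))`, `s n = 1` if `T n ≥ 0`, else `-1`; `|T n| = s n * T n`. With `L_sum`, `shiftz` (shift by `-j`): `L |T| = ∑_j L (s(n) λ(n+j)) cos(..) = ∑_j L (s(n-j) λ(n)) cos(..)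
= K L (λ g)`, `g n = (1/K) ∑_{j<K} s(n-j) cos(2π(α j + θ))`, `|g| ≤ 1`. So it is enough to prove `|L (m ↦ g(p m) g(q m))| ≤ δ` for `p ≠ q` in `P`, then `katai` gives `L |T| ≤ ε K`.
(2) For real `x`, put `G_p x m = (1/K) ∑_{j<K} s(p m - j) cos(2π(α j + x))`. For `t : ℕ`: `|g(p (m+t)) - G_p (θ + α p t) m| ≤ 2 p t / K`: in `g(p(m+t)) = (1/K) ∑_{j<K} s(pm + pt - j) cos(2π(α j + θ))` the sum over
`j < K` becomes, with `j = i + p t`, a sum over `i` in `[-pt, K - pt)` of `s(pm - i) cos(2π(α i + α p t + θ))`; the two ranges differ by at most `2 p t` terms, each at most 1. (If `p t ≥ K` the claim is trivial, both are `≤ 1`.)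
(3) `G_p x G_q y = (1/K²) ∑_{j,j'} s s' (1/2)[cos(2π(α(j + j') + x + y)) + cos(2π(α(j - j') + x - y))]`; with `x = θ + α p t`, `y = θ + α q t` the `t`-dependence is `cos(2π(A + (p+q) α t))`, `cos(2π(A' + (p-q) α t))`.
Geometric sum: if `|β - z| ≥ c > 0` for every integer `z` then `|∑_{t<M} cos(2π(A + β t))| ≤ 1/(2c)` (or `1/c`, any constant is fine if `C` is larger): `2 sin(πβ) cos(2π(A+βt)) = sin(2πA + πβ(2t+1)) - sin(2πA + πβ(2t-1))`
telescopes, so `|sin(πβ)| |∑| ≤ 1`, and `|sin(πβ)| ≥ 2 ‖β‖ ≥ 2c` (`‖β‖` distance to the nearest integer; Jordan: `Real.mul_le_sin`). Here `β = ±(p+q) α` or `(p-q) α`, `1 ≤ |p ± q| ≤ D`, so `c = C/K`.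
Hence `|(1/M) ∑_{t<M} G_p(θ+αpt) m * G_q(θ+αqt) m| ≤ (1/M) K/(2C) ≤ 1/(2 κ C) ≤ δ/2`.
(4) `L (g(pm) g(qm)) = (1/M) ∑_{t<M} L (g(p(m+t)) g(q(m+t)))` (`shift_nat`), and by (2), (3) the absolute value is at most `δ/2 + 4 R M / K ≤ δ/2 + 8 R κ ≤ δ`.
-/

set_option autoImplicit false

open Finset

namespace Pool.Agent.Lib.TU2

open Pool.Agent.Lib.TU

private noncomputable def SS (s : ℤ → ℝ) (K : ℕ) (α : ℝ) (n : ℤ) (x : ℝ) : ℝ :=
  ∑ j ∈ range K, s (n - j) * Real.cos (2 * Real.pi * (α * j + x))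

private theorem SS_abs {s : ℤ → ℝ} (hs : ∀ n, |s n| ≤ 1) (K : ℕ) (α : ℝ) (n : ℤ) (x : ℝ) : |SS s K α n x| ≤ K := by
  unfold SS
  refine (abs_sum_le_sum_abs _ _).trans ?_
  have h : ∀ j ∈ range K, |s (n - j) * Real.cos (2 * Real.pi * (α * j + x))| ≤ 1 := fun j _ => by
    rw [abs_mul]
    exact mul_le_one₀ (hs _) (abs_nonneg _) (Real.abs_cos_le_one _)
  refine (sum_le_sum h).trans ?_
  simp

private theorem SS_step {s : ℤ → ℝ} (hs : ∀ n, |s n| ≤ 1) (K : ℕ) (α : ℝ) (n : ℤ) (x : ℝ) :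
    |SS s K α (n + 1) x - SS s K α n (x + α)| ≤ 2 := by
  obtain ⟨F, hF⟩ : ∃ F : ℕ → ℝ, ∀ i : ℕ, F i = s (n + 1 - i) * Real.cos (2 * Real.pi * (α * i + x)) :=
    ⟨_, fun _ => rfl⟩
  have h1 : SS s K α (n + 1) x - SS s K α n (x + α) = -∑ j ∈ range K, (F (j + 1) - F j) := by
    unfold SS
    rw [← sum_sub_distrib, ← sum_neg_distrib]
    refine sum_congr rfl fun j _ => ?_
    have h2 : n + 1 - ((j + 1 : ℕ) : ℤ) = n - j := by push_cast; ring
    have h3 : 2 * Real.pi * (α * ((j + 1 : ℕ) : ℝ) + x) = 2 * Real.pi * (α * j + (x + α)) := by push_cast; ring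
    rw [hF, hF, h2, h3]
    ring
  rw [h1, abs_neg, sum_range_sub]
  have h4 : ∀ i : ℕ, |F i| ≤ 1 := fun i => by
    rw [hF, abs_mul]
    exact mul_le_one₀ (hs _) (abs_nonneg _) (Real.abs_cos_le_one _)
  refine (abs_sub _ _).trans ?_
  have := h4 K
  have := h4 0
  linarith

private theorem SS_shift {s : ℤ → ℝ} (hs : ∀ n, |s n| ≤ 1) (K : ℕ) (α : ℝ) (n : ℤ) (h : ℕ) (x : ℝ) :
    |SS s K α (n + h) x - SS s K α n (x + α * h)| ≤ 2 * h := by
  induction h generalizing x with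
  | zero => simp
  | succ h ih =>
    have h1 := SS_step hs K α (n + h) x
    have h2 := ih (x + α)
    have h3 : n + ((h + 1 : ℕ) : ℤ) = n + h + 1 := by push_cast; ring
    have h4 : x + α * ((h + 1 : ℕ) : ℝ) = x + α + α * h := by push_cast; ring
    rw [h3, h4]
    have h5 := abs_sub_le (SS s K α (n + h + 1) x) (SS s K α (n + h) (x + α)) (SS s K α n (x + α + α * h))
    push_cast
    linarith

private theorem geo (β c A : ℝ) (hc : 0 < c) (hβ : ∀ z : ℤ, c ≤ |β - z|) (M : ℕ) :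
    |∑ t ∈ range M, Real.cos (2 * Real.pi * (A + β * t))| ≤ 1 / (2 * c) := by
  have h1 : 2 * Real.sin (Real.pi * β) * ∑ t ∈ range M, Real.cos (2 * Real.pi * (A + β * t))
      = Real.sin (2 * Real.pi * A + Real.pi * β * (2 * M - 1)) - Real.sin (2 * Real.pi * A + Real.pi * β * (2 * (0 : ℕ) - 1)) := by
    rw [← sum_range_sub (fun t : ℕ => Real.sin (2 * Real.pi * A + Real.pi * β * (2 * t - 1))), mul_sum]
    refine sum_congr rfl fun t _ => ?_
    have e1 : 2 * Real.pi * A + Real.pi * β * (2 * ((t + 1 : ℕ) : ℝ) - 1) = 2 * Real.pi * (A + β * t) + Real.pi * β := by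
      push_cast; ring
    have e2 : 2 * Real.pi * A + Real.pi * β * (2 * (t : ℝ) - 1) = 2 * Real.pi * (A + β * t) - Real.pi * β := by ring
    rw [e1, e2, Real.sin_add, Real.sin_sub]
    ring
  have h2 : 2 * c ≤ |Real.sin (Real.pi * β)| := by
    have h3 : |β - round β| ≤ 1 / 2 := abs_sub_round β
    have hpi := Real.pi_pos
    have h4 : |Real.pi * (β - round β)| ≤ Real.pi / 2 := by
      rw [abs_mul, abs_of_pos hpi]
      nlinarith
    have h5 := Real.mul_abs_le_abs_sin h4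
    have h6 : |Real.sin (Real.pi * (β - round β))| = |Real.sin (Real.pi * β)| := by
      have e3 : Real.pi * (β - round β) = Real.pi * β - (round β : ℤ) * Real.pi := by ring
      rw [e3, Real.sin_sub_int_mul_pi, abs_mul, abs_neg_one_zpow, one_mul]
    rw [h6, abs_mul, abs_of_pos hpi] at h5
    have h7 : 2 / Real.pi * (Real.pi * |β - round β|) = 2 * |β - round β| := by
      field_simp
    rw [h7] at h5
    linarith [hβ (round β)]
  have h8 : |2 * Real.sin (Real.pi * β) * ∑ t ∈ range M, Real.cos (2 * Real.pi * (A + β * t))| ≤ 2 := by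
    rw [h1]
    refine (abs_sub _ _).trans ?_
    have := Real.abs_sin_le_one (2 * Real.pi * A + Real.pi * β * (2 * M - 1))
    have := Real.abs_sin_le_one (2 * Real.pi * A + Real.pi * β * (2 * (0 : ℕ) - 1))
    linarith
  rw [abs_mul, abs_mul, abs_two] at h8
  rw [le_div_iff₀ (by positivity)]
  nlinarith [abs_nonneg (∑ t ∈ range M, Real.cos (2 * Real.pi * (A + β * t)))]

private theorem prods {s : ℤ → ℝ} (hs : ∀ n, |s n| ≤ 1) (K M : ℕ) (α c x p q : ℝ) (n n' : ℤ) (hc : 0 < c)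
    (h1 : ∀ z : ℤ, c ≤ |α * (p + q) - z|) (h2 : ∀ z : ℤ, c ≤ |α * (p - q) - z|) :
    |∑ t ∈ range M, SS s K α n (x + α * (p * t)) * SS s K α n' (x + α * (q * t))| ≤ (K : ℝ) ^ 2 * (1 / (2 * c)) := by
  have e1 : ∑ t ∈ range M, SS s K α n (x + α * (p * t)) * SS s K α n' (x + α * (q * t))
      = ∑ j ∈ range K, ∑ i ∈ range K, s (n - j) * s (n' - i) * ((1 / 2) * (∑ t ∈ range M,
          Real.cos (2 * Real.pi * ((α * j + x + (α * i + x)) + α * (p + q) * t))
        + ∑ t ∈ range M, Real.cos (2 * Real.pi * ((α * j - α * i) + α * (p - q) * t)))) := by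
    unfold SS
    simp_rw [sum_mul_sum]
    rw [sum_comm]
    refine sum_congr rfl fun j _ => ?_
    rw [sum_comm]
    refine sum_congr rfl fun i _ => ?_
    rw [← sum_add_distrib, mul_sum, mul_sum]
    refine sum_congr rfl fun t _ => ?_
    have e2 : 2 * Real.pi * ((α * j + x + (α * i + x)) + α * (p + q) * t)
        = 2 * Real.pi * (α * j + (x + α * (p * t))) + 2 * Real.pi * (α * i + (x + α * (q * t))) := by ring
    have e3 : 2 * Real.pi * ((α * j - α * i) + α * (p - q) * t)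
        = 2 * Real.pi * (α * j + (x + α * (p * t))) - 2 * Real.pi * (α * i + (x + α * (q * t))) := by ring
    rw [e2, e3, Real.cos_add, Real.cos_sub]
    ring
  rw [e1]
  have e4 : ∀ j ∈ range K, ∀ i ∈ range K, |s (n - j) * s (n' - i) * ((1 / 2) * (∑ t ∈ range M,
          Real.cos (2 * Real.pi * ((α * j + x + (α * i + x)) + α * (p + q) * t))
        + ∑ t ∈ range M, Real.cos (2 * Real.pi * ((α * j - α * i) + α * (p - q) * t))))| ≤ 1 / (2 * c) := by
    intro j _ i _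
    have k1 := geo (α * (p + q)) c (α * j + x + (α * i + x)) hc h1 M
    have k2 := geo (α * (p - q)) c (α * j - α * i) hc h2 M
    have k3 : |s (n - j) * s (n' - i)| ≤ 1 := by
      rw [abs_mul]
      exact mul_le_one₀ (hs _) (abs_nonneg _) (hs _)
    rw [abs_mul]
    refine (mul_le_of_le_one_left (abs_nonneg _) k3).trans ?_
    rw [abs_mul, abs_of_pos (by norm_num : (0 : ℝ) < 1 / 2)]
    have k4 := abs_add_le (∑ t ∈ range M, Real.cos (2 * Real.pi * ((α * j + x + (α * i + x)) + α * (p + q) * t)))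
      (∑ t ∈ range M, Real.cos (2 * Real.pi * ((α * j - α * i) + α * (p - q) * t)))
    linarith
  refine (abs_sum_le_sum_abs _ _).trans ?_
  refine (sum_le_sum fun j hj => (abs_sum_le_sum_abs _ _).trans (sum_le_sum fun i hi => e4 j hj i hi)).trans ?_
  simp only [sum_const, card_range, nsmul_eq_mul]
  exact le_of_eq (by ring)

private theorem pairbd {s : ℤ → ℝ} (hs : ∀ n, |s n| ≤ 1) (K M R : ℕ) (α c x : ℝ) (p q : ℕ) (hp : p ≤ R) (hq : q ≤ R)
    (m : ℤ) (hc : 0 < c) (h1 : ∀ z : ℤ, c ≤ |α * (p + q) - z|) (h2 : ∀ z : ℤ, c ≤ |α * (p - q) - z|) :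
    |∑ t ∈ range M, SS s K α (p * (m + t)) x * SS s K α (q * (m + t)) x|
      ≤ (K : ℝ) ^ 2 * (1 / (2 * c)) + M * (4 * K * R * M) := by
  have e0 : ∀ t ∈ range M, |SS s K α (p * (m + t)) x * SS s K α (q * (m + t)) x
      - SS s K α (p * m) (x + α * (p * t)) * SS s K α (q * m) (x + α * (q * t))| ≤ 4 * K * R * M := by
    intro t ht
    have htM : (t : ℝ) ≤ M := by exact_mod_cast (mem_range.1 ht).le
    have a1 := SS_shift hs K α (p * m) (p * t) x
    have a2 := SS_shift hs K α (q * m) (q * t) x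
    have b1 : (p : ℤ) * m + ((p * t : ℕ) : ℤ) = p * (m + t) := by push_cast; ring
    have b2 : (q : ℤ) * m + ((q * t : ℕ) : ℤ) = q * (m + t) := by push_cast; ring
    rw [b1] at a1
    rw [b2] at a2
    push_cast at a1 a2
    have a3 := SS_abs hs K α (q * (m + t)) x
    have a4 := SS_abs hs K α (p * m) (x + α * (p * t))
    generalize SS s K α (p * (m + t)) x = u at *
    generalize SS s K α (q * (m + t)) x = v at *
    generalize SS s K α (p * m) (x + α * (p * t)) = u' at *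
    generalize SS s K α (q * m) (x + α * (q * t)) = v' at *
    have a5 : u * v - u' * v' = (u - u') * v + u' * (v - v') := by ring
    rw [a5]
    refine (abs_add_le _ _).trans ?_
    rw [abs_mul, abs_mul]
    have hpR : (p : ℝ) ≤ R := by exact_mod_cast hp
    have hqR : (q : ℝ) ≤ R := by exact_mod_cast hq
    have hp0 : (0 : ℝ) ≤ p := Nat.cast_nonneg _
    have hq0 : (0 : ℝ) ≤ q := Nat.cast_nonneg _
    have ht0 : (0 : ℝ) ≤ t := Nat.cast_nonneg _
    have hK0 : (0 : ℝ) ≤ K := Nat.cast_nonneg _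
    have hR0 : (0 : ℝ) ≤ R := Nat.cast_nonneg _
    have c1 : (p : ℝ) * t ≤ R * M := mul_le_mul hpR htM ht0 hR0
    have c2 : (q : ℝ) * t ≤ R * M := mul_le_mul hqR htM ht0 hR0
    have d1 : |u - u'| * |v| ≤ 2 * (R * M) * K := mul_le_mul (a1.trans (by linarith)) a3 (abs_nonneg _) (by positivity)
    have d2 : |u'| * |v - v'| ≤ K * (2 * (R * M)) := mul_le_mul a4 (a2.trans (by linarith)) (abs_nonneg _) hK0
    nlinarith
  have e1 : ∑ t ∈ range M, SS s K α (p * (m + t)) x * SS s K α (q * (m + t)) x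
      = ∑ t ∈ range M, SS s K α (p * m) (x + α * (p * t)) * SS s K α (q * m) (x + α * (q * t))
        + ∑ t ∈ range M, (SS s K α (p * (m + t)) x * SS s K α (q * (m + t)) x
          - SS s K α (p * m) (x + α * (p * t)) * SS s K α (q * m) (x + α * (q * t))) := by
    rw [← sum_add_distrib]
    exact sum_congr rfl fun t _ => by ring
  rw [e1]
  refine (abs_add_le _ _).trans (add_le_add (prods hs K M α c x p q (p * m) (q * m) hc h1 h2) ?_)
  refine (abs_sum_le_sum_abs _ _).trans ((sum_le_sum e0).trans ?_)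
  simp only [sum_const, card_range, nsmul_eq_mul]
  exact le_rfl

theorem minor (ε : ℝ) (hε : 0 < ε) : ∃ (D : ℕ) (C : ℝ), 0 < D ∧ 0 < C ∧
    ∀ L : (ℤ → ℝ) →ₗ[ℝ] ℝ, IsMean L → ∀ (K : ℕ) (α θ : ℝ),
      (∀ d : ℕ, 1 ≤ d → d ≤ D → ∀ z : ℤ, C ≤ K * |d * α - z|) →
      L (fun n => |∑ j ∈ range K, lam (n + j) * Real.cos (2 * Real.pi * (α * j + θ))|) ≤ ε * K := by
  obtain ⟨P, hP, δ, hδ, hkat⟩ := katai ε hε
  obtain ⟨R, hR1, hPR⟩ : ∃ R : ℕ, 1 ≤ R ∧ ∀ p ∈ P, p ≤ R :=
    ⟨P.sup id + 1, by omega, fun p hp => (le_sup (f := id) hp).trans (Nat.le_succ _)⟩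
  have hR0 : (1 : ℝ) ≤ R := by exact_mod_cast hR1
  obtain ⟨κ, hκ0, hκ2⟩ : ∃ κ : ℝ, 0 < κ ∧ κ * (16 * R) ≤ δ :=
    ⟨δ / (16 * R), by positivity, le_of_eq (by field_simp)⟩
  have hC0 : 0 < 2 / κ + 1 / (κ * δ) := by positivity
  refine ⟨2 * R, 2 / κ + 1 / (κ * δ), by omega, hC0, fun L hL K α θ hyp => ?_⟩
  have hC1 : 2 ≤ κ * (2 / κ + 1 / (κ * δ)) := by
    have : κ * (2 / κ + 1 / (κ * δ)) = 2 + 1 / δ := by field_simp
    rw [this]
    have : 0 < 1 / δ := by positivity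
    linarith
  have hC2 : 1 ≤ κ * δ * (2 / κ + 1 / (κ * δ)) := by
    have : κ * δ * (2 / κ + 1 / (κ * δ)) = 2 * δ + 1 := by field_simp
    rw [this]
    linarith
  generalize 2 / κ + 1 / (κ * δ) = C at hyp hC0 hC1 hC2
  have hKn : (0 : ℝ) ≤ K := Nat.cast_nonneg _
  have hK2 : 2 * C ≤ K := by
    have h := hyp 1 le_rfl (by omega) (round α)
    have h2 : |α - round α| ≤ 1 / 2 := abs_sub_round α
    rw [Nat.cast_one, one_mul] at h
    nlinarith
  have hK0 : (0 : ℝ) < K := by linarith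
  have hκK : 1 ≤ κ * K := by nlinarith
  obtain ⟨M, hM1, hM2⟩ : ∃ M : ℕ, κ * K ≤ M ∧ (M : ℝ) ≤ 2 * (κ * K) := by
    refine ⟨⌈κ * K⌉₊, Nat.le_ceil _, ?_⟩
    have := Nat.ceil_lt_add_one (show 0 ≤ κ * K by linarith)
    linarith
  have hM0 : (0 : ℝ) < M := by linarith
  obtain ⟨T, hT⟩ : ∃ T : ℤ → ℝ, T = fun n : ℤ => ∑ j ∈ range K, lam (n + j) * Real.cos (2 * Real.pi * (α * j + θ)) := ⟨_, rfl⟩
  obtain ⟨s, hs, hsT⟩ : ∃ s : ℤ → ℝ, (∀ n, |s n| ≤ 1) ∧ ∀ n, |T n| = s n * T n := by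
    refine ⟨fun n => if 0 ≤ T n then 1 else -1, fun n => ?_, fun n => ?_⟩
    · show |if 0 ≤ T n then (1 : ℝ) else -1| ≤ 1
      split_ifs <;> simp
    · show |T n| = (if 0 ≤ T n then (1 : ℝ) else -1) * T n
      split_ifs with h
      · rw [abs_of_nonneg h, one_mul]
      · rw [abs_of_neg (not_le.1 h)]; ring
  obtain ⟨g, hg⟩ : ∃ g : ℤ → ℝ, g = fun n => SS s K α n θ / K := ⟨_, rfl⟩
  have hg1 : ∀ n, |g n| ≤ 1 := by
    intro n
    rw [hg]
    show |SS s K α n θ / K| ≤ 1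
    rw [abs_div, abs_of_pos hK0, div_le_one hK0]
    exact SS_abs hs K α n θ
  have hsb : Bd s := ⟨1, hs⟩
  have hlb : Bd lam := ⟨1, lam_abs_le⟩
  have h1 : L (fun n => |T n|) = K * L (fun n => lam n * g n) := by
    have e1 : (fun n => |T n|) = fun n : ℤ => ∑ j ∈ range K, Real.cos (2 * Real.pi * (α * j + θ)) * (s n * lam (n + j)) := by
      funext n
      rw [hsT n, hT]
      show s n * ∑ j ∈ range K, lam (n + j) * Real.cos (2 * Real.pi * (α * j + θ)) = _
      rw [mul_sum]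
      exact sum_congr rfl fun j _ => by ring
    have e2 : (fun n => (K : ℝ) * (lam n * g n)) = fun n : ℤ => ∑ j ∈ range K,
        Real.cos (2 * Real.pi * (α * j + θ)) * (s (n - j) * lam n) := by
      funext n
      rw [hg]
      show (K : ℝ) * (lam n * (SS s K α n θ / K)) = _
      have : (K : ℝ) * (lam n * (SS s K α n θ / K)) = lam n * SS s K α n θ := by field_simp
      rw [this]
      unfold SS
      rw [mul_sum]
      exact sum_congr rfl fun j _ => by ring
    rw [← L_mul, e1, e2, L_sum, L_sum]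
    refine sum_congr rfl fun j _ => ?_
    rw [L_mul, L_mul]
    congr 1
    have e3 := hL.shiftz (f := fun n : ℤ => s n * lam (n + j)) (hsb.mul (hlb.comp fun n => n + j)) (-(j : ℤ))
    rw [← e3]
    congr 1
    funext n
    show s (n + -(j : ℤ)) * lam (n + -(j : ℤ) + j) = _
    rw [neg_add_cancel_right, sub_eq_add_neg]
  have h2 : |L (fun n => lam n * g n)| ≤ ε := by
    refine hkat L hL g hg1 fun p hp q hq hpq => ?_
    have hpR := hPR p hp
    have hqR := hPR q hq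
    have hp1 : 1 ≤ p := (hP p hp).one_lt.le
    have hgb : Bd g := ⟨1, hg1⟩
    have hc : 0 < C / K := by positivity
    have k1 : ∀ z : ℤ, C / K ≤ |α * (p + q) - z| := by
      intro z
      have h := hyp (p + q) (by omega) (by omega) z
      rw [div_le_iff₀ hK0]
      push_cast at h
      rw [mul_comm _ (K : ℝ), mul_comm α]
      exact h
    have k2 : ∀ z : ℤ, C / K ≤ |α * (p - q) - z| := by
      intro z
      rw [div_le_iff₀ hK0, mul_comm _ (K : ℝ)]
      rcases lt_or_gt_of_ne hpq with h3 | h3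
      · have h := hyp (q - p) (by omega) (by omega) (-z)
        rw [Nat.cast_sub h3.le] at h
        push_cast at h
        have h4 : ((q : ℝ) - p) * α - -(z : ℝ) = -(α * (p - q) - z) := by ring
        rwa [h4, abs_neg] at h
      · have h := hyp (p - q) (by omega) (by omega) z
        rw [Nat.cast_sub h3.le] at h
        rwa [mul_comm α]
    have hF : Bd (fun m : ℤ => g (p * m) * g (q * m)) := (hgb.comp fun m => p * m).mul (hgb.comp fun m => q * m)
    have e1 : (M : ℝ) * L (fun m => g (p * m) * g (q * m)) = L (fun m => ∑ t ∈ range M, g (p * (m + t)) * g (q * (m + t))) := by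
      rw [L_sum, sum_congr rfl fun t _ => hL.shift_nat hF t]
      simp
    have e2 : ∀ m : ℤ, |∑ t ∈ range M, g (p * (m + t)) * g (q * (m + t))| ≤ δ * M := by
      intro m
      have k3 := pairbd hs K M R α (C / K) θ p q hpR hqR m hc k1 k2
      have k4 : ∑ t ∈ range M, g (p * (m + t)) * g (q * (m + t))
          = (∑ t ∈ range M, SS s K α (p * (m + t)) θ * SS s K α (q * (m + t)) θ) / (K : ℝ) ^ 2 := by
        rw [sum_div]
        refine sum_congr rfl fun t _ => ?_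
        rw [hg]
        show SS s K α (p * (m + t)) θ / K * (SS s K α (q * (m + t)) θ / K) = _
        field_simp
      rw [k4, abs_div, abs_of_pos (by positivity : (0 : ℝ) < (K : ℝ) ^ 2), div_le_iff₀ (by positivity)]
      refine k3.trans ?_
      have k5 : 1 / (2 * (C / K)) ≤ δ * M / 2 := by
        have : 1 / (2 * (C / K)) = K / (2 * C) := by field_simp
        rw [this, div_le_iff₀ (by positivity)]
        have : (K : ℝ) ≤ κ * δ * C * K := by nlinarith
        nlinarith [mul_pos hδ hC0]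
      have k6 : (M : ℝ) * (4 * K * R * M) ≤ (K : ℝ) ^ 2 * (δ * M / 2) := by
        have k7 : 4 * (R : ℝ) * M ≤ K * (δ / 2) := by nlinarith
        have k8 : (M : ℝ) * (4 * K * R * M) = (M * K) * (4 * R * M) := by ring
        have k9 : (K : ℝ) ^ 2 * (δ * M / 2) = (M * K) * (K * (δ / 2)) := by ring
        rw [k8, k9]
        exact mul_le_mul_of_nonneg_left k7 (by positivity)
      have k10 : (K : ℝ) ^ 2 * (1 / (2 * (C / K))) ≤ (K : ℝ) ^ 2 * (δ * M / 2) :=
        mul_le_mul_of_nonneg_left k5 (by positivity)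
      linarith
    have e3 := hL.abs_le e2
    rw [← e1, abs_mul, abs_of_pos hM0, mul_comm] at e3
    exact le_of_mul_le_mul_right e3 hM0
  have h3 : L (fun n => |∑ j ∈ range K, lam (n + j) * Real.cos (2 * Real.pi * (α * j + θ))|) = L (fun n => |T n|) := by
    rw [hT]
  rw [h3, h1, mul_comm]
  exact mul_le_mul_of_nonneg_right ((le_abs_self _).trans h2) hK0.le

end Pool.Agent.Lib.TU2
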