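import Pool.Agent.Lib.TU2.NQuad
import Pool.Agent.Lib.TU2.HHat

/-!
# TU2 / NHat (row NH, about 90 lines): hat functions of the local correlations, natural averages

STATEMENT: below, verbatim.

PROOF. As `hat` in HHat.lean (helper59, landed): `s₀ = 1/(1 - θ) ≥ 1`, `K, p` from `knot s₀`, `x = |lcor ell (q a) B n| ∈ [0,1]` (`lcor_abs`). `max (x - θ) 0 ≤ (1-θ) (p max (1 - S(K) (1-x)) 0 + (1-p) max (1 - S(K+1) (1-x)) 0)`. Take `mean`, sum over `a`, and use `nquad` for `K` and `K+1` with `ε`: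
`≤ (1-θ) (p (1/K + ε) + (1-p) (1/(K+1) + ε)) A ≤ (1-θ) (2/(3 s₀) + ε) A ≤ ((2/3) (1-θ)² + ε) A`.
-/

set_option autoImplicit false

open Finset

namespace Pool.Agent.Lib.TU2

open Pool.Agent.Lib.MP_f6c41f_nt

private theorem NH_split {θ p a b x : ℝ} (h1 : θ < 1) (hp0 : 0 ≤ p) (hp1 : p ≤ 1)
    (hab : p * a + (1 - p) * b = 1 / (1 - θ)) :
    max (x - θ) 0 ≤ (1 - θ) * (p * max (1 - a * (1 - x)) 0 + (1 - p) * max (1 - b * (1 - x)) 0) := by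
  have h2 : 0 < 1 - θ := by linarith
  have m1 := le_max_left (1 - a * (1 - x)) 0
  have m2 := le_max_left (1 - b * (1 - x)) 0
  have n1 := le_max_right (1 - a * (1 - x)) 0
  have n2 := le_max_right (1 - b * (1 - x)) 0
  obtain ⟨u, hu⟩ : ∃ u, u = max (1 - a * (1 - x)) 0 := ⟨_, rfl⟩
  obtain ⟨v, hv⟩ : ∃ v, v = max (1 - b * (1 - x)) 0 := ⟨_, rfl⟩
  rw [← hu] at m1 n1
  rw [← hv] at m2 n2
  rw [← hu, ← hv]
  apply max_le
  · have e : x - θ = (1 - θ) * (1 - 1 / (1 - θ) * (1 - x)) := by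
      field_simp
      ring
    rw [e]
    apply mul_le_mul_of_nonneg_left _ h2.le
    rw [← hab]
    have k1 := mul_le_mul_of_nonneg_left m1 hp0
    have k2 := mul_le_mul_of_nonneg_left m2 (sub_nonneg.2 hp1)
    nlinarith
  · exact mul_nonneg h2.le (add_nonneg (mul_nonneg hp0 n1) (mul_nonneg (sub_nonneg.2 hp1) n2))

private theorem NH_mean {θ p a b : ℝ} (x : ℕ → ℝ) (h1 : θ < 1) (hp0 : 0 ≤ p) (hp1 : p ≤ 1)
    (hab : p * a + (1 - p) * b = 1 / (1 - θ)) (N : ℕ) :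
    mean (fun n => max (x n - θ) 0) N ≤ (1 - θ) * (p * mean (fun n => max (1 - a * (1 - x n)) 0) N +
      (1 - p) * mean (fun n => max (1 - b * (1 - x n)) 0) N) := by
  unfold mean
  have hN : (0 : ℝ) ≤ N := Nat.cast_nonneg N
  have h := sum_le_sum fun n (_ : n ∈ range N) => NH_split (x := x n) h1 hp0 hp1 hab
  rw [← mul_sum, sum_add_distrib, ← mul_sum, ← mul_sum] at h
  refine (div_le_div_of_nonneg_right h hN).trans (le_of_eq ?_)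
  ring

theorem nhat (q : ℕ) (hq : 0 < q) (θ : ℝ) (h0 : 0 ≤ θ) (h1 : θ < 1) (ε : ℝ) (hε : 0 < ε) :
    ∃ A0 : ℕ, ∀ A : ℕ, A0 ≤ A → ∃ B0 : ℕ, ∀ B : ℕ, B0 ≤ B → ∃ N0 : ℕ, ∀ N : ℕ, N0 ≤ N →
      ∑ a ∈ Icc 1 A, mean (fun n => max (|lcor ell (q * a) B n| - θ) 0) N ≤ (2 / 3 * (1 - θ) ^ 2 + ε) * A := by
  have h2 : 0 < 1 - θ := by linarith
  obtain ⟨K, hK, p, hp0, hp1, hab, hle⟩ := knot (1 / (1 - θ)) (by rw [le_div_iff₀ h2]; linarith)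
  obtain ⟨A1, hA1⟩ := nquad q K hq (by omega) ε hε
  obtain ⟨A2, hA2⟩ := nquad q (K + 1) hq (by omega) ε hε
  refine ⟨max A1 A2, fun A hA => ?_⟩
  obtain ⟨B1, hB1⟩ := hA1 A ((le_max_left _ _).trans hA)
  obtain ⟨B2, hB2⟩ := hA2 A ((le_max_right _ _).trans hA)
  refine ⟨max B1 B2, fun B hB => ?_⟩
  obtain ⟨N1, hN1⟩ := hB1 B ((le_max_left _ _).trans hB)
  obtain ⟨N2, hN2⟩ := hB2 B ((le_max_right _ _).trans hB)
  refine ⟨max N1 N2, fun N hN => ?_⟩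
  have r1 := hN1 N ((le_max_left _ _).trans hN)
  have r2 := hN2 N ((le_max_right _ _).trans hN)
  push_cast at r2
  obtain ⟨a, ha⟩ : ∃ a : ℝ, a = 2 * ((K : ℝ) ^ 2 - 1) / (3 * K) := ⟨_, rfl⟩
  obtain ⟨b, hb⟩ : ∃ b : ℝ, b = 2 * (((K : ℝ) + 1) ^ 2 - 1) / (3 * ((K : ℝ) + 1)) := ⟨_, rfl⟩
  rw [← ha] at r1 hab
  rw [← hb] at r2 hab
  have hs := sum_le_sum fun c (_ : c ∈ Icc 1 A) =>
    NH_mean (fun n => |lcor ell (q * c) B n|) h1 hp0 hp1 hab N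
  rw [← mul_sum, sum_add_distrib, ← mul_sum, ← mul_sum] at hs
  obtain ⟨S1, hS1⟩ : ∃ S1, S1 = ∑ c ∈ Icc 1 A, mean (fun n => max (1 - a * (1 - |lcor ell (q * c) B n|)) 0) N := ⟨_, rfl⟩
  obtain ⟨S2, hS2⟩ : ∃ S2, S2 = ∑ c ∈ Icc 1 A, mean (fun n => max (1 - b * (1 - |lcor ell (q * c) B n|)) 0) N := ⟨_, rfl⟩
  rw [← hS1] at r1 hs
  rw [← hS2] at r2 hs
  have hA0 : (0 : ℝ) ≤ A := Nat.cast_nonneg A
  have r4 : 2 / (3 * (1 / (1 - θ))) = 2 / 3 * (1 - θ) := by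
    field_simp
  rw [r4] at hle
  have r3 : p * S1 + (1 - p) * S2 ≤ (2 / 3 * (1 - θ) + ε) * A := by
    have k1 := mul_le_mul_of_nonneg_left r1 hp0
    have k2 := mul_le_mul_of_nonneg_left r2 (sub_nonneg.2 hp1)
    have k3 := mul_le_mul_of_nonneg_right hle hA0
    have e1 : p * ((1 / (K : ℝ) + ε) * A) + (1 - p) * ((1 / ((K : ℝ) + 1) + ε) * A) =
        (p / K + (1 - p) / ((K : ℝ) + 1)) * A + ε * A := by ring
    linarith
  have hεA : 0 ≤ ε * A := mul_nonneg hε.le hA0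
  calc _ ≤ (1 - θ) * (p * S1 + (1 - p) * S2) := hs
    _ ≤ (1 - θ) * ((2 / 3 * (1 - θ) + ε) * A) := mul_le_mul_of_nonneg_left r3 h2.le
    _ = (2 / 3 * (1 - θ) ^ 2 + ε) * A - θ * (ε * A) := by ring
    _ ≤ (2 / 3 * (1 - θ) ^ 2 + ε) * A := by linarith [mul_nonneg h0 hεA]

end Pool.Agent.Lib.TU2
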