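import Pool.Agent.Lib.TU2.NHat
import Pool.Agent.Lib.TU2.HInt

/-!
# TU2 / NMom (row NM, about 150 lines): moments of the local correlations, natural averages

STATEMENTS: below, verbatim.

PROOF of `nmom_one`. `X5_double`: `2 |lcor ell (q a) B n| ≤ 1 + lcor ell (2 (q a)) B n + 2 q a/B`; `mean`, sum over `a ≤ A`, `na_mean (2 q)` with `ε`, `B ≥ 2 q A/ε + 1`: `≤ (A + ε A + ε A)/2`.
PROOF of `nmom_gen`. `n₀ ≥ 1` with `1/n₀ ≤ ε`, `c` from `interp r n₀`, `nhat` for `θ = j/n₀`, `j < n₀`, with `ε' = ε/(3 (1 + ∑_j c j))`: `|x|^r ≤ ∑_j c j max (|x| - j/n₀) 0` (`lcor_abs`), so the sum over `a` of the means is at most `∑_j c j ((2/3) (1 - j/n₀)² + ε') A ≤ ((2/3) (2/(r+1) + 1/n₀) + ε/3) A ≤ (4/(3(r+1)) + ε) A`.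
PROOF of `nmom`. `r = 1`: `nmom_one`; `r = 2`: `na_third` (`energy ell (q a) B N = mean (lcor^2) N`, `|x|^2 = x^2`: `sq_abs`); `r ≥ 3`: `nmom_gen`. Divide by `A ≥ 1` (enlarge `A0`).
-/

set_option autoImplicit false

open Finset

namespace Pool.Agent.Lib.TU2

open Pool.Agent.Lib.MP_f6c41f_nt

private theorem nm_pm (n : ℕ) : ell n = 1 ∨ ell n = -1 := by
  unfold ell lam
  exact neg_one_pow_eq_or ℝ _

private theorem nm_fin (n : ℕ) (Q : ℕ → ℕ → Prop) (h : ∀ j ∈ range n, ∃ A0 : ℕ, ∀ A : ℕ, A0 ≤ A → Q j A) :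
    ∃ A0 : ℕ, ∀ A : ℕ, A0 ≤ A → ∀ j ∈ range n, Q j A := by
  choose! f hf using h
  exact ⟨(range n).sup f, fun A hA j hj => hf j hj A ((Finset.le_sup hj).trans hA)⟩

private theorem nm_all (n : ℕ) (P : ℕ → ℕ → ℕ → ℕ → Prop)
    (h : ∀ j ∈ range n, ∃ A0 : ℕ, ∀ A : ℕ, A0 ≤ A → ∃ B0 : ℕ, ∀ B : ℕ, B0 ≤ B → ∃ N0 : ℕ, ∀ N : ℕ, N0 ≤ N → P j A B N) :
    ∃ A0 : ℕ, ∀ A : ℕ, A0 ≤ A → ∃ B0 : ℕ, ∀ B : ℕ, B0 ≤ B → ∃ N0 : ℕ, ∀ N : ℕ, N0 ≤ N → ∀ j ∈ range n, P j A B N := by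
  obtain ⟨A0, hA0⟩ := nm_fin n _ h
  refine ⟨A0, fun A hA => ?_⟩
  obtain ⟨B0, hB0⟩ := nm_fin n _ (hA0 A hA)
  refine ⟨B0, fun B hB => ?_⟩
  exact nm_fin n _ (hB0 B hB)

private theorem nm_mono (g h : ℕ → ℝ) (hgh : ∀ n, g n ≤ h n) (N : ℕ) : mean g N ≤ mean h N := by
  unfold mean
  exact div_le_div_of_nonneg_right (sum_le_sum fun n _ => hgh n) (Nat.cast_nonneg N)

private theorem nm_lin (m : ℕ) (c : ℕ → ℝ) (g : ℕ → ℕ → ℝ) (N : ℕ) :
    mean (fun n => ∑ j ∈ range m, c j * g j n) N = ∑ j ∈ range m, c j * mean (g j) N := by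
  unfold mean
  rw [sum_comm, sum_div]
  refine sum_congr rfl fun j _ => ?_
  rw [← mul_sum]
  ring

theorem nmom_one (q : ℕ) (hq : 0 < q) (ε : ℝ) (hε : 0 < ε) :
    ∃ A0 : ℕ, ∀ A : ℕ, A0 ≤ A → ∃ B0 : ℕ, ∀ B : ℕ, B0 ≤ B → ∃ N0 : ℕ, ∀ N : ℕ, N0 ≤ N →
      ∑ a ∈ Icc 1 A, mean (fun n => |lcor ell (q * a) B n|) N ≤ (1 / 2 + ε) * A := by
  obtain ⟨A0, hA0⟩ := na_mean (2 * q) (by omega) ε hε
  refine ⟨A0, fun A hA => ?_⟩
  obtain ⟨B2, hB2⟩ := exists_nat_gt (2 * q * A / ε : ℝ)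
  refine ⟨max B2 1, fun B hB => ?_⟩
  have hb2 : B2 ≤ B := (le_max_left _ _).trans hB
  have hB0 : 0 < B := by
    have := (le_max_right B2 1).trans hB
    omega
  have hB' : (0 : ℝ) < B := by exact_mod_cast hB0
  obtain ⟨N0, hN0⟩ := hA0 A hA B hB0
  refine ⟨N0, fun N hN => ?_⟩
  have e2 := (le_abs_self _).trans (hN0 N hN)
  have hsm : (2 * (q * A) / B : ℝ) ≤ ε := by
    rw [div_lt_iff₀ hε] at hB2
    have : (B2 : ℝ) ≤ B := by exact_mod_cast hb2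
    rw [div_le_iff₀ hB']
    nlinarith
  have hstep : ∀ a ∈ Icc 1 A, 2 * mean (fun n => |lcor ell (q * a) B n|) N ≤
      1 + mean (lcor ell (2 * q * a) B) N + ε := by
    intro a ha
    rw [mem_Icc] at ha
    have hqa : q * a ≤ q * A := Nat.mul_le_mul_left q ha.2
    have h2 : (2 * ((q * a : ℕ) : ℝ) / B : ℝ) ≤ ε := by
      refine (div_le_div_of_nonneg_right ?_ hB'.le).trans hsm
      have : ((q * a : ℕ) : ℝ) ≤ ((q * A : ℕ) : ℝ) := Nat.cast_le.2 hqa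
      push_cast at this ⊢
      linarith
    have hpt : ∀ n, 2 * |lcor ell (q * a) B n| ≤ 1 + lcor ell (2 * q * a) B n + ε := by
      intro n
      have h := X5_double ell nm_pm (q * a) B n hB0
      rw [← mul_assoc 2 q a] at h
      linarith
    have e3 : mean (fun n => 2 * |lcor ell (q * a) B n|) N = 2 * mean (fun n => |lcor ell (q * a) B n|) N := by
      unfold mean
      rw [← mul_sum]
      ring
    have e4 : mean (fun n => 1 + lcor ell (2 * q * a) B n + ε) N ≤ 1 + mean (lcor ell (2 * q * a) B) N + ε := by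
      unfold mean
      rcases Nat.eq_zero_or_pos N with rfl | hN1
      · simp
        positivity
      · have hN' : (0 : ℝ) < N := by exact_mod_cast hN1
        rw [sum_add_distrib, sum_add_distrib]
        simp only [sum_const, card_range, nsmul_eq_mul, mul_one]
        rw [add_div, add_div, div_self hN'.ne', mul_div_cancel_left₀ _ hN'.ne']
    rw [← e3]
    exact (nm_mono _ _ hpt N).trans e4
  have hsum := sum_le_sum hstep
  rw [← mul_sum, sum_add_distrib, sum_add_distrib] at hsum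
  simp only [sum_const, Nat.card_Icc, Nat.add_sub_cancel, nsmul_eq_mul, mul_one] at hsum
  have hA0 : (0 : ℝ) ≤ A := Nat.cast_nonneg A
  nlinarith [mul_nonneg hε.le hA0]

theorem nmom_gen (q r : ℕ) (hq : 0 < q) (hr : 0 < r) (ε : ℝ) (hε : 0 < ε) :
    ∃ A0 : ℕ, ∀ A : ℕ, A0 ≤ A → ∃ B0 : ℕ, ∀ B : ℕ, B0 ≤ B → ∃ N0 : ℕ, ∀ N : ℕ, N0 ≤ N →
      ∑ a ∈ Icc 1 A, mean (fun n => |lcor ell (q * a) B n| ^ r) N ≤ (4 / (3 * ((r : ℝ) + 1)) + ε) * A := by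
  obtain ⟨n0, hn0⟩ := exists_nat_gt (1 / ε : ℝ)
  have hn0' : (0 : ℝ) < n0 := lt_trans (by positivity) hn0
  have hn0p : 0 < n0 := by exact_mod_cast hn0'
  have hn1 : (1 : ℝ) / n0 ≤ ε := by
    rw [div_lt_iff₀ hε] at hn0
    rw [div_le_iff₀ hn0']
    linarith
  obtain ⟨c, hc0, hc1, hc2⟩ := interp r n0 hr hn0p
  obtain ⟨S, hS⟩ : ∃ S, S = ∑ j ∈ range n0, c j := ⟨_, rfl⟩
  have hS0 : 0 ≤ S := hS ▸ sum_nonneg fun j _ => hc0 j
  have hε' : 0 < ε / (3 * (1 + S)) := by positivity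
  obtain ⟨A0, hA0⟩ := nm_all n0 (fun j A B N => ∑ a ∈ Icc 1 A, mean (fun n => max (|lcor ell (q * a) B n| - (j : ℝ) / n0) 0) N ≤
      (2 / 3 * (1 - (j : ℝ) / n0) ^ 2 + ε / (3 * (1 + S))) * A) (fun j hj => by
    have hj' : (j : ℝ) < n0 := by exact_mod_cast mem_range.1 hj
    exact nhat q hq ((j : ℝ) / n0) (by positivity) ((div_lt_one hn0').2 hj') _ hε')
  refine ⟨A0, fun A hA => ?_⟩
  obtain ⟨B0, hB0⟩ := hA0 A hA
  refine ⟨B0, fun B hB => ?_⟩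
  obtain ⟨N0, hN0⟩ := hB0 B hB
  refine ⟨N0, fun N hN => ?_⟩
  have hP := hN0 N hN
  have hAn : (0 : ℝ) ≤ A := Nat.cast_nonneg A
  have h1 : ∀ a ∈ Icc 1 A, mean (fun n => |lcor ell (q * a) B n| ^ r) N ≤
      ∑ j ∈ range n0, c j * mean (fun n => max (|lcor ell (q * a) B n| - (j : ℝ) / n0) 0) N := by
    intro a _
    rw [← nm_lin n0 c (fun j n => max (|lcor ell (q * a) B n| - (j : ℝ) / n0) 0) N]
    exact nm_mono _ _ (fun n => hc1 _ (abs_nonneg _) (lcor_abs ell nm_pm (q * a) B n)) N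
  calc ∑ a ∈ Icc 1 A, mean (fun n => |lcor ell (q * a) B n| ^ r) N
      ≤ ∑ a ∈ Icc 1 A, ∑ j ∈ range n0, c j * mean (fun n => max (|lcor ell (q * a) B n| - (j : ℝ) / n0) 0) N :=
        sum_le_sum h1
    _ = ∑ j ∈ range n0, c j * ∑ a ∈ Icc 1 A, mean (fun n => max (|lcor ell (q * a) B n| - (j : ℝ) / n0) 0) N := by
        rw [sum_comm]
        exact sum_congr rfl fun j _ => (mul_sum _ _ _).symm
    _ ≤ ∑ j ∈ range n0, c j * ((2 / 3 * (1 - (j : ℝ) / n0) ^ 2 + ε / (3 * (1 + S))) * A) :=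
        sum_le_sum fun j hj => mul_le_mul_of_nonneg_left (hP j hj) (hc0 j)
    _ = (2 / 3 * ∑ j ∈ range n0, c j * (1 - (j : ℝ) / n0) ^ 2 + S * (ε / (3 * (1 + S)))) * A := by
        rw [hS, mul_sum, sum_mul, ← sum_add_distrib, sum_mul]
        exact sum_congr rfl fun j _ => by ring
    _ ≤ (4 / (3 * ((r : ℝ) + 1)) + ε) * A := by
        apply mul_le_mul_of_nonneg_right _ hAn
        have e1 : S * (ε / (3 * (1 + S))) ≤ ε / 3 := by
          rw [mul_div_assoc', div_le_div_iff₀ (by positivity) (by norm_num)]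
          nlinarith
        have e2 : (4 : ℝ) / (3 * ((r : ℝ) + 1)) = 2 / 3 * (2 / ((r : ℝ) + 1)) := by
          field_simp
          norm_num
        rw [e2]
        linarith

theorem nmom (q r : ℕ) (hq : 0 < q) (hr : 0 < r) (ε : ℝ) (hε : 0 < ε) :
    ∃ A0 : ℕ, ∀ A : ℕ, A0 ≤ A → ∃ B0 : ℕ, ∀ B : ℕ, B0 ≤ B → ∃ N0 : ℕ, ∀ N : ℕ, N0 ≤ N →
      (∑ a ∈ Icc 1 A, mean (fun n => |lcor ell (q * a) B n| ^ r) N) / A ≤ kap r + ε := by
  rcases Nat.lt_or_ge r 2 with h1 | h1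
  · have hr1 : r = 1 := by omega
    subst hr1
    obtain ⟨A0, hA0⟩ := nmom_one q hq ε hε
    refine ⟨max A0 1, fun A hA => ?_⟩
    obtain ⟨B0, hB0⟩ := hA0 A ((le_max_left _ _).trans hA)
    refine ⟨B0, fun B hB => ?_⟩
    obtain ⟨N0, hN0⟩ := hB0 B hB
    refine ⟨N0, fun N hN => ?_⟩
    have hA1 : 1 ≤ A := (le_max_right _ _).trans hA
    have hA' : (0 : ℝ) < A := by exact_mod_cast hA1
    rw [div_le_iff₀ hA']
    have hk : kap 1 = 1 / 2 := by simp [kap]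
    rw [hk]
    simp only [pow_one]
    exact hN0 N hN
  · rcases Nat.lt_or_ge r 3 with h2 | h2
    · have hr2 : r = 2 := by omega
      subst hr2
      obtain ⟨A0, hA0⟩ := na_third q hq ε hε
      refine ⟨A0, fun A hA => ?_⟩
      obtain ⟨B0, hB0⟩ := hA0 A hA
      refine ⟨B0, fun B hB => ?_⟩
      obtain ⟨N0, hN0⟩ := hB0 B hB
      refine ⟨N0, fun N hN => ?_⟩
      have hk : kap 2 = 1 / 3 := by simp [kap]
      rw [hk]
      simp only [sq_abs]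
      exact hN0 N hN
    · obtain ⟨A0, hA0⟩ := nmom_gen q r hq hr ε hε
      refine ⟨max A0 1, fun A hA => ?_⟩
      obtain ⟨B0, hB0⟩ := hA0 A ((le_max_left _ _).trans hA)
      refine ⟨B0, fun B hB => ?_⟩
      obtain ⟨N0, hN0⟩ := hB0 B hB
      refine ⟨N0, fun N hN => ?_⟩
      have hA1 : 1 ≤ A := (le_max_right _ _).trans hA
      have hA' : (0 : ℝ) < A := by exact_mod_cast hA1
      rw [div_le_iff₀ hA']
      have hk : kap r = 4 / (3 * ((r : ℝ) + 1)) := by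
        unfold kap
        rw [if_neg (by omega), if_neg (by omega)]
      rw [hk]
      exact hN0 N hN

end Pool.Agent.Lib.TU2
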