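import Pool.Agent.Lib.TU2.Nat

/-!
# TU2 / NQuad (row NQ, about 200 lines): the Fejer kernel against the local correlations of `λ`, natural averages

STATEMENT: below, verbatim. (The analogue of `quad` in HQuad.lean (helper24, landed) for natural averages over `n < N`, averaged over the lag.)

PROOF. `f = ell` (values `1, -1`), lag `a' = q a`, `t = 2 q a`, `x = |lcor f a' B n|`, `y = lcor f t B n`, `S = 2 (K² - 1)/(3K)`. For every `n` and `B ≥ 1` put `Q n = (1/B) ∑_{b<B} ((1/K) ∑_{k<K} f(n + b + k t))²`.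
(1) `0 ≤ Q n`. (2) As in HQuad: `1 - Q n ≤ ((K² - 1)/(3K)) (1 - y + 2 t K/B)` (`1 - f(m + k t) f(m + k' t) ≤ ∑_{k ≤ j < k'} (1 - f(m + j t) f(m + (j+1) t))`, `X5_window` for the shift by `j t`, `∑_{k,k'<K} |k - k'| = K (K²-1)/3`), and `1 - y ≤ 2 (1 - x) + 2 a'/B` (`X5_double`).
So `max (1 - S (1 - x)) 0 ≤ Q n + K (a' + K t)/B ≤ Q n + 3 K² q A/B` for `a ≤ A`.
(3) `mean Q N = (1/K²) ∑_{k,k'<K} (1/N) ∑_{n<N} (1/B) ∑_{b<B} f(n+b+k t) f(n+b+k' t)`: the terms with `k = k'` give `1/K`; for `k < k'`, `j = k' - k`, the term is `(1/N) ∑_{n<N} lcor f (j t) B (n + k t)`, which differs from `mean (lcor f (j t) B) N` by at most `2 k t/N ≤ 4 K q A/N` (`X5_window`-type shift).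
Sum over `a ≤ A` (`j t = (2 q j) a`): `∑_a mean Q N ≤ A/K + (2/K²) ∑_{j=1}^{K-1} (K - j) |∑_a mean (lcor ell (2 q j * a) B) N| + 4 K q A²/N ≤ A/K + (ε/4) A + 4 K q A²/N` for `A ≥ A0`, `N ≥ N0(A,B)` by `na_mean (2 q j)` with `ε/4` for the finitely many `j < K`.
`A0` = the maximum of the numbers from `na_mean`; `B0 ≥ 12 K² q A/ε + 1`; `N0` also `≥ 16 K q A/ε + 1`. Total `≤ (1/K + ε) A`.
-/

set_option autoImplicit false

open Finset

namespace Pool.Agent.Lib.TU2

open Pool.Agent.Lib.MP_f6c41f_nt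

private theorem nq_sgn {a b c : ℝ} (ha : a = 1 ∨ a = -1) (hb : b = 1 ∨ b = -1) (hc : c = 1 ∨ c = -1) :
    1 - a * c ≤ (1 - a * b) + (1 - b * c) := by
  rcases ha with rfl | rfl <;> rcases hb with rfl | rfl <;> rcases hc with rfl | rfl <;> norm_num

private theorem nq_id (K : ℕ) : ∑ k ∈ range K, (k : ℝ) = K * (K - 1) / 2 := by
  induction K with
  | zero => simp
  | succ K ih =>
    rw [sum_range_succ, ih]
    push_cast
    ring

private theorem nq_abs (K : ℕ) : ∑ k ∈ range K, |(k : ℝ) - K| = K * (K + 1) / 2 := by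
  have h : ∀ k ∈ range K, |(k : ℝ) - K| = K - k := by
    intro k hk
    rw [mem_range] at hk
    have : (k : ℝ) ≤ K := by exact_mod_cast hk.le
    rw [abs_sub_comm, abs_of_nonneg (sub_nonneg.2 this)]
  rw [sum_congr rfl h, sum_sub_distrib, nq_id, sum_const, card_range, nsmul_eq_mul]
  ring

private theorem nq_pairs (K : ℕ) : ∑ k ∈ range K, ∑ l ∈ range K, |(k : ℝ) - l| = K * ((K : ℝ) ^ 2 - 1) / 3 := by
  induction K with
  | zero => simp
  | succ K ih =>
    have h1 : ∑ k ∈ range K, ∑ l ∈ range (K + 1), |(k : ℝ) - l| =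
        ∑ k ∈ range K, ∑ l ∈ range K, |(k : ℝ) - l| + ∑ k ∈ range K, |(k : ℝ) - K| := by
      rw [← sum_add_distrib]
      exact sum_congr rfl fun k _ => sum_range_succ _ _
    have h2 : ∑ l ∈ range (K + 1), |(K : ℝ) - l| = ∑ k ∈ range K, |(k : ℝ) - K| := by
      rw [sum_range_succ, sub_self, abs_zero, add_zero]
      exact sum_congr rfl fun k _ => abs_sub_comm _ _
    rw [sum_range_succ, h1, h2, ih, nq_abs]
    push_cast
    ring

/-- the sum over a window of the product of the shifts by `t k` and `t l` -/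
private noncomputable def nq_S (f : ℕ → ℝ) (t B k l n : ℕ) : ℝ := ∑ b ∈ range B, f (n + b + t * k) * f (n + b + t * l)

private theorem nq_symm (f : ℕ → ℝ) (t B k l n : ℕ) : nq_S f t B k l n = nq_S f t B l k n := by
  unfold nq_S
  exact sum_congr rfl fun b _ => mul_comm _ _

private theorem nq_diag (f : ℕ → ℝ) (hf : ∀ n, f n = 1 ∨ f n = -1) (t B k n : ℕ) : nq_S f t B k k n = B := by
  unfold nq_S
  have : ∀ b ∈ range B, f (n + b + t * k) * f (n + b + t * k) = 1 := by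
    intro b _
    rcases hf (n + b + t * k) with h | h <;> rw [h] <;> norm_num
  rw [sum_congr rfl this]
  simp

private theorem nq_nonneg (f : ℕ → ℝ) (t B K n : ℕ) : 0 ≤ ∑ k ∈ range K, ∑ l ∈ range K, nq_S f t B k l n := by
  have e : ∑ k ∈ range K, ∑ l ∈ range K, nq_S f t B k l n = ∑ b ∈ range B, (∑ k ∈ range K, f (n + b + t * k)) ^ 2 := by
    unfold nq_S
    have e1 : ∀ b ∈ range B, (∑ k ∈ range K, f (n + b + t * k)) ^ 2 =
        ∑ k ∈ range K, ∑ l ∈ range K, f (n + b + t * k) * f (n + b + t * l) := by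
      intro b _
      rw [sq, Finset.sum_mul_sum]
    rw [sum_congr rfl e1]
    symm
    rw [sum_comm]
    refine sum_congr rfl fun k _ => ?_
    rw [sum_comm]
  rw [e]
  exact sum_nonneg fun b _ => sq_nonneg _

private theorem nq_pt (f : ℕ → ℝ) (hf : ∀ n, f n = 1 ∨ f n = -1) (s B K n : ℕ) (hB : 0 < B) (hK : 0 < K) :
    max (1 - 2 * ((K : ℝ) ^ 2 - 1) / (3 * K) * (1 - |lcor f s B n|)) 0 ≤
      (∑ k ∈ range K, ∑ l ∈ range K, nq_S f (2 * s) B k l n) / ((K : ℝ) ^ 2 * B) + K * (s + K * (2 * s)) / B := by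
  have hN' : (0 : ℝ) < B := by exact_mod_cast hB
  have hK' : (0 : ℝ) < K := by exact_mod_cast hK
  have hK1 : (1 : ℝ) ≤ K := by exact_mod_cast hK
  obtain ⟨Q, hQ⟩ : ∃ Q, Q = (∑ k ∈ range K, ∑ l ∈ range K, nq_S f (2 * s) B k l n) / ((K : ℝ) ^ 2 * B) := ⟨_, rfl⟩
  have hq0 : 0 ≤ Q := by
    rw [hQ]
    exact div_nonneg (nq_nonneg f (2 * s) B K n) (by positivity)
  rw [← hQ]
  have herr : (0 : ℝ) ≤ K * (s + K * (2 * s)) / B := by positivity
  refine max_le ?_ (by linarith)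
  obtain ⟨V, hV⟩ : ∃ V : ℕ → ℕ → ℝ, ∀ k l, V k l =
      ∑ b ∈ range B, (1 - f (n + b + 2 * s * k) * f (n + b + 2 * s * l)) := ⟨_, fun _ _ => rfl⟩
  have hVS : ∀ k l, V k l = B - nq_S f (2 * s) B k l n := by
    intro k l
    rw [hV, nq_S, sum_sub_distrib]
    simp
  have hd := X5_double f hf s B n hB
  have hy1 : lcor f (2 * s) B n ≤ 1 := (abs_le.1 (lcor_abs f hf (2 * s) B n)).2
  have hx1 : |lcor f s B n| ≤ 1 := lcor_abs f hf s B n
  have hBy : (B : ℝ) * lcor f (2 * s) B n = ∑ b ∈ range B, f (n + b) * f (n + b + 2 * s) := by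
    unfold lcor
    rw [mul_div_cancel₀ _ hN'.ne']
  obtain ⟨y, hy⟩ : ∃ y, y = lcor f (2 * s) B n := ⟨_, rfl⟩
  obtain ⟨x, hx⟩ : ∃ x, x = |lcor f s B n| := ⟨_, rfl⟩
  rw [← hy] at hd hy1 hBy
  rw [← hx] at hd hx1 ⊢
  obtain ⟨W, hW⟩ : ∃ W : ℝ, W = B * (1 - y) + 2 * (2 * s) * K := ⟨_, rfl⟩
  have hW0 : 0 ≤ W := by
    rw [hW]
    have : 0 ≤ (B : ℝ) * (1 - y) := mul_nonneg hN'.le (by linarith)
    positivity
  have hstep : ∀ j, j < K → V j (j + 1) ≤ W := by
    intro j hj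
    have h1 := X5_window (fun m => f m * f (m + 2 * s)) (fun m => X5_abs f hf _ _) n (2 * s * j) B
    rw [← hBy] at h1
    have e : V j (j + 1) = B - ∑ b ∈ range B, f (n + b + 2 * s * j) * f (n + b + 2 * s * j + 2 * s) := by
      rw [hVS, nq_S]
      congr 1
      refine sum_congr rfl fun b _ => ?_
      rw [show n + b + 2 * s * (j + 1) = n + b + 2 * s * j + 2 * s by ring]
    have h2 := (abs_le.1 h1).2
    have hj' : (j : ℝ) ≤ K := by exact_mod_cast hj.le
    have h4 : (2 : ℝ) * ((2 * s * j : ℕ) : ℝ) ≤ 2 * (2 * s) * K := by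
      push_cast
      have : (0 : ℝ) ≤ s := Nat.cast_nonneg s
      nlinarith
    rw [e, hW]
    nlinarith
  have hind : ∀ k d, k + d ≤ K → V k (k + d) ≤ d * W := by
    intro k d
    induction d with
    | zero =>
      intro _
      rw [add_zero, hVS, nq_diag f hf]
      simp
    | succ d ih =>
      intro hd
      have h1 := ih (by omega)
      have h2 := hstep (k + d) (by omega)
      have h3 : V k (k + (d + 1)) ≤ V k (k + d) + V (k + d) (k + d + 1) := by
        rw [hV, hV, hV, ← sum_add_distrib]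
        exact sum_le_sum fun b _ => nq_sgn (hf _) (hf _) (hf _)
      push_cast
      linarith
  have hall : ∀ k ∈ range K, ∀ l ∈ range K, V k l ≤ |(k : ℝ) - l| * W := by
    intro k hk l hl
    rw [mem_range] at hk hl
    rcases le_total k l with hkl | hkl
    · obtain ⟨d, rfl⟩ := Nat.exists_eq_add_of_le hkl
      have e : |(k : ℝ) - ((k + d : ℕ) : ℝ)| = d := by
        push_cast
        rw [show (k : ℝ) - (k + d) = -(d : ℝ) by ring, abs_neg, abs_of_nonneg (Nat.cast_nonneg d)]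
      rw [e]
      exact hind k d hl.le
    · obtain ⟨d, rfl⟩ := Nat.exists_eq_add_of_le hkl
      have e : |((l + d : ℕ) : ℝ) - l| = d := by
        push_cast
        rw [show (l : ℝ) + d - l = (d : ℝ) by ring, abs_of_nonneg (Nat.cast_nonneg d)]
      have e2 : V (l + d) l = V l (l + d) := by
        rw [hVS, hVS, nq_symm]
      rw [e, e2]
      exact hind l d hk.le
  have hsum : ∑ k ∈ range K, ∑ l ∈ range K, V k l ≤ K * ((K : ℝ) ^ 2 - 1) / 3 * W := by
    rw [← nq_pairs, sum_mul]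
    refine sum_le_sum fun k hk => ?_
    rw [sum_mul]
    exact sum_le_sum fun l hl => hall k hk l hl
  have hid : ∑ k ∈ range K, ∑ l ∈ range K, V k l = (K : ℝ) ^ 2 * B * (1 - Q) := by
    simp only [hVS, sum_sub_distrib, sum_const, card_range, nsmul_eq_mul]
    rw [hQ]
    field_simp
  rw [hid] at hsum
  have hKK : (0 : ℝ) ≤ (K : ℝ) ^ 2 - 1 := by nlinarith
  have hWN : W / B ≤ 2 * (1 - x) + 2 * (s + K * (2 * s)) / B := by
    have e : W / B = (1 - y) + 2 * (2 * s) * K / B := by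
      rw [hW]
      field_simp
    rw [e]
    have e3 : (2 : ℝ) * (s + K * (2 * s)) / B = 2 * s / B + 2 * (2 * s) * K / B := by ring
    rw [e3]
    linarith
  have h1 : 1 - Q ≤ ((K : ℝ) ^ 2 - 1) / (3 * K) * (W / B) := by
    have e : ((K : ℝ) ^ 2 - 1) / (3 * K) * (W / B) = (K * ((K : ℝ) ^ 2 - 1) / 3 * W) / ((K : ℝ) ^ 2 * B) := by
      field_simp
    rw [e, le_div_iff₀ (by positivity)]
    linarith
  have h2 : ((K : ℝ) ^ 2 - 1) / (3 * K) * (W / B) ≤
      ((K : ℝ) ^ 2 - 1) / (3 * K) * (2 * (1 - x) + 2 * (s + K * (2 * s)) / B) := by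
    gcongr
  have h3 : ((K : ℝ) ^ 2 - 1) / (3 * K) * (2 * (s + K * (2 * s)) / B) ≤ K * (s + K * (2 * s)) / B := by
    have e : ((K : ℝ) ^ 2 - 1) / (3 * K) ≤ K / 2 := by
      rw [div_le_div_iff₀ (by positivity) (by norm_num)]
      nlinarith
    have e4 : (K : ℝ) * (s + K * (2 * s)) / B = K / 2 * (2 * (s + K * (2 * s)) / B) := by ring
    rw [e4]
    gcongr
  have e5 : ((K : ℝ) ^ 2 - 1) / (3 * K) * (2 * (1 - x) + 2 * (s + K * (2 * s)) / B) =
      2 * ((K : ℝ) ^ 2 - 1) / (3 * K) * (1 - x) + ((K : ℝ) ^ 2 - 1) / (3 * K) * (2 * (s + K * (2 * s)) / B) := by ring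
  linarith

/-- the mean of an off-diagonal term -/
private theorem nq_off (f : ℕ → ℝ) (hf : ∀ n, f n = 1 ∨ f n = -1) (t B k d N : ℕ) (hB : 0 < B) :
    ∑ n ∈ range N, nq_S f t B k (k + d) n / B ≤ ∑ n ∈ range N, lcor f (t * d) B n + 2 * (t * k) := by
  have hB' : (0 : ℝ) < B := by exact_mod_cast hB
  have h1 := X5_window (fun n => lcor f (t * d) B n) (fun n => lcor_abs f hf (t * d) B n) 0 (t * k) N
  simp only [zero_add] at h1
  have e : ∀ n ∈ range N, nq_S f t B k (k + d) n / B = lcor f (t * d) B (n + t * k) := by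
    intro n _
    unfold nq_S lcor
    congr 1
    refine sum_congr rfl fun b _ => ?_
    rw [show n + b + t * k = n + t * k + b by ring, show n + b + t * (k + d) = n + t * k + b + t * d by ring]
  rw [sum_congr rfl e]
  have h2 := (abs_le.1 h1).1
  push_cast at h2
  linarith

private theorem nq_ell (n : ℕ) : ell n = 1 ∨ ell n = -1 := by
  unfold ell lam
  exact neg_one_pow_eq_or ℝ _

theorem nquad (q K : ℕ) (hq : 0 < q) (hK : 0 < K) (ε : ℝ) (hε : 0 < ε) :
    ∃ A0 : ℕ, ∀ A : ℕ, A0 ≤ A → ∃ B0 : ℕ, ∀ B : ℕ, B0 ≤ B → ∃ N0 : ℕ, ∀ N : ℕ, N0 ≤ N →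
      ∑ a ∈ Icc 1 A, mean (fun n => max (1 - 2 * ((K : ℝ) ^ 2 - 1) / (3 * K) * (1 - |lcor ell (q * a) B n|)) 0) N ≤ (1 / K + ε) * A := by
  have hK' : (0 : ℝ) < K := by exact_mod_cast hK
  -- the threshold for `A`
  have hna : ∀ j : ℕ, ∃ A0 : ℕ, ∀ A : ℕ, A0 ≤ A → ∀ B : ℕ, 0 < B → ∃ N0 : ℕ, ∀ N : ℕ, N0 ≤ N →
      |∑ a ∈ Icc 1 A, mean (lcor ell (2 * q * (j + 1) * a) B) N| ≤ ε / 4 * A := fun j =>
    na_mean (2 * q * (j + 1)) (Nat.succ_le_of_lt (by positivity)) (ε / 4) (by positivity)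
  choose A0 hA0 using hna
  refine ⟨(range K).sup A0, fun A hA => ?_⟩
  have hAj : ∀ j ∈ range K, A0 j ≤ A := fun j hj => (Finset.le_sup hj).trans hA
  obtain ⟨B1, hB1⟩ := exists_nat_gt (6 * (K : ℝ) ^ 2 * q * A / ε : ℝ)
  refine ⟨B1 + 1, fun B hB => ?_⟩
  have hB0 : 0 < B := by omega
  have hB' : (0 : ℝ) < B := by exact_mod_cast hB0
  have hna2 : ∀ j : ℕ, ∃ N0 : ℕ, j < K → ∀ N : ℕ, N0 ≤ N →
      |∑ a ∈ Icc 1 A, mean (lcor ell (2 * q * (j + 1) * a) B) N| ≤ ε / 4 * A := by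
    intro j
    by_cases hj : j < K
    · obtain ⟨N0, hN0⟩ := hA0 j A (hAj j (mem_range.2 hj)) B hB0
      exact ⟨N0, fun _ => hN0⟩
    · exact ⟨0, fun h => absurd h hj⟩
  choose N0 hN0 using hna2
  obtain ⟨N1, hN1⟩ := exists_nat_gt (16 * (K : ℝ) * q * A / ε : ℝ)
  refine ⟨(range K).sup N0 + N1 + 1, fun N hN => ?_⟩
  have hNpos : 0 < N := by omega
  have hN' : (0 : ℝ) < N := by exact_mod_cast hNpos
  have hNj : ∀ j ∈ range K, N0 j ≤ N := fun j hj => (Finset.le_sup (f := N0) hj).trans (by omega)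
  have hA' : (0 : ℝ) ≤ A := Nat.cast_nonneg A
  have hq' : (0 : ℝ) < q := by exact_mod_cast hq
  -- the error terms
  have herrB : ∀ a ∈ Icc 1 A, (K : ℝ) * (((q * a : ℕ) : ℝ) + K * (2 * ((q * a : ℕ) : ℝ))) / B ≤ ε / 2 := by
    intro a ha
    rw [mem_Icc] at ha
    have ha' : (a : ℝ) ≤ A := by exact_mod_cast ha.2
    have hBB : (B1 : ℝ) ≤ B := by exact_mod_cast (by omega : B1 ≤ B)
    rw [div_lt_iff₀ hε] at hB1
    rw [div_le_iff₀ hB']
    push_cast
    have hK1 : (1 : ℝ) ≤ K := by exact_mod_cast hK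
    have h1 : (q : ℝ) * a ≤ q * A := by gcongr
    have h0 : (0 : ℝ) ≤ q * a := by positivity
    have h2 : (K : ℝ) * (q * a + K * (2 * (q * a))) ≤ 3 * (K : ℝ) ^ 2 * (q * a) := by
      nlinarith [mul_nonneg (mul_nonneg hK'.le h0) (sub_nonneg.2 hK1)]
    have h3 : 3 * (K : ℝ) ^ 2 * (q * a) ≤ 3 * (K : ℝ) ^ 2 * (q * A) := by gcongr
    nlinarith
  have herrN : ∀ a ∈ Icc 1 A, ∀ k < K, (2 * (((2 * (q * a) : ℕ) : ℝ) * k)) / N ≤ ε / 4 := by
    intro a ha k hk
    rw [mem_Icc] at ha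
    have ha' : (a : ℝ) ≤ A := by exact_mod_cast ha.2
    have hk' : (k : ℝ) ≤ K := by exact_mod_cast hk.le
    have hNN : (N1 : ℝ) ≤ N := by exact_mod_cast (by omega : N1 ≤ N)
    rw [div_lt_iff₀ hε] at hN1
    rw [div_le_iff₀ hN']
    push_cast
    have h1 : (q : ℝ) * a * k ≤ q * A * K := by gcongr
    nlinarith
  -- off-diagonal terms
  have hoff : ∀ k l : ℕ, k < l → l < K →
      ∑ a ∈ Icc 1 A, (∑ n ∈ range N, nq_S ell (2 * (q * a)) B k l n / B) / N ≤ ε / 2 * A := by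
    intro k l hkl hl
    obtain ⟨d, rfl⟩ : ∃ d, l = k + (d + 1) := ⟨l - k - 1, by omega⟩
    have h1 : ∀ a ∈ Icc 1 A, (∑ n ∈ range N, nq_S ell (2 * (q * a)) B k (k + (d + 1)) n / B) / N ≤
        mean (lcor ell (2 * q * (d + 1) * a) B) N + ε / 4 := by
      intro a ha
      have h2 := nq_off ell nq_ell (2 * (q * a)) B k (d + 1) N hB0
      have h3 := div_le_div_of_nonneg_right h2 hN'.le
      rw [add_div] at h3
      have h4 := herrN a ha k (by omega)
      have e : (∑ n ∈ range N, lcor ell (2 * (q * a) * (d + 1)) B n) / (N : ℝ) = mean (lcor ell (2 * q * (d + 1) * a) B) N := by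
        unfold mean
        rw [show 2 * (q * a) * (d + 1) = 2 * q * (d + 1) * a by ring]
      rw [e] at h3
      linarith
    have h5 := sum_le_sum h1
    rw [sum_add_distrib] at h5
    simp only [sum_const, Nat.card_Icc, Nat.add_sub_cancel, nsmul_eq_mul] at h5
    have h6 := (le_abs_self _).trans (hN0 d (by omega) N (hNj d (mem_range.2 (by omega))))
    linarith
  have hpair : ∀ k ∈ range K, ∀ l ∈ range K,
      ∑ a ∈ Icc 1 A, (∑ n ∈ range N, nq_S ell (2 * (q * a)) B k l n / B) / N ≤ (if k = l then (A : ℝ) else 0) + ε / 2 * A := by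
    intro k hk l hl
    rw [mem_range] at hk hl
    rcases lt_trichotomy k l with h | h | h
    · rw [if_neg h.ne, zero_add]
      exact hoff k l h hl
    · subst h
      rw [if_pos rfl]
      have e : ∀ a ∈ Icc 1 A, (∑ n ∈ range N, nq_S ell (2 * (q * a)) B k k n / B) / (N : ℝ) = 1 := by
        intro a _
        simp only [nq_diag ell nq_ell]
        rw [div_self hB'.ne']
        simp [hN'.ne']
      rw [sum_congr rfl e]
      simp only [sum_const, Nat.card_Icc, Nat.add_sub_cancel, nsmul_eq_mul, mul_one]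
      have : 0 ≤ ε / 2 * A := by positivity
      linarith
    · rw [if_neg h.ne', zero_add]
      simp only [nq_symm ell _ B k l]
      exact hoff l k h hk
  -- the pointwise bound, averaged
  have hpt : ∀ a ∈ Icc 1 A,
      mean (fun n => max (1 - 2 * ((K : ℝ) ^ 2 - 1) / (3 * K) * (1 - |lcor ell (q * a) B n|)) 0) N ≤
        (∑ k ∈ range K, ∑ l ∈ range K, (∑ n ∈ range N, nq_S ell (2 * (q * a)) B k l n / B) / N) / (K : ℝ) ^ 2 + ε / 2 := by
    intro a ha
    unfold mean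
    have h1 : ∀ n ∈ range N, max (1 - 2 * ((K : ℝ) ^ 2 - 1) / (3 * K) * (1 - |lcor ell (q * a) B n|)) 0 ≤
        (∑ k ∈ range K, ∑ l ∈ range K, nq_S ell (2 * (q * a)) B k l n / B) / (K : ℝ) ^ 2 + ε / 2 := by
      intro n _
      have h2 := nq_pt ell nq_ell (q * a) B K n hB0 hK
      have h3 := herrB a ha
      have e : (∑ k ∈ range K, ∑ l ∈ range K, nq_S ell (2 * (q * a)) B k l n) / ((K : ℝ) ^ 2 * B) =
          (∑ k ∈ range K, ∑ l ∈ range K, nq_S ell (2 * (q * a)) B k l n / B) / (K : ℝ) ^ 2 := by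
        simp only [← sum_div]
        rw [div_div, mul_comm ((K : ℝ) ^ 2)]
      rw [e] at h2
      linarith
    have h4 := div_le_div_of_nonneg_right (sum_le_sum h1) hN'.le
    refine h4.trans (le_of_eq ?_)
    rw [sum_add_distrib, sum_const, card_range, nsmul_eq_mul, add_div, mul_div_cancel_left₀ _ hN'.ne', ← sum_div]
    congr 1
    rw [div_div, mul_comm ((K : ℝ) ^ 2), ← div_div]
    congr 1
    rw [sum_comm, sum_div]
    refine sum_congr rfl fun k _ => ?_
    rw [sum_comm, sum_div]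
  refine (sum_le_sum hpt).trans ?_
  rw [sum_add_distrib, ← sum_div]
  simp only [sum_const, Nat.card_Icc, Nat.add_sub_cancel, nsmul_eq_mul]
  have hswap : ∑ a ∈ Icc 1 A, ∑ k ∈ range K, ∑ l ∈ range K, (∑ n ∈ range N, nq_S ell (2 * (q * a)) B k l n / B) / (N : ℝ) =
      ∑ k ∈ range K, ∑ l ∈ range K, ∑ a ∈ Icc 1 A, (∑ n ∈ range N, nq_S ell (2 * (q * a)) B k l n / B) / (N : ℝ) := by
    rw [sum_comm]
    exact sum_congr rfl fun k _ => sum_comm
  rw [hswap]
  have hfin : ∑ k ∈ range K, ∑ l ∈ range K, ∑ a ∈ Icc 1 A, (∑ n ∈ range N, nq_S ell (2 * (q * a)) B k l n / B) / (N : ℝ) ≤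
      K * A + (K : ℝ) ^ 2 * (ε / 2 * A) := by
    refine (sum_le_sum fun k hk => sum_le_sum fun l hl => hpair k hk l hl).trans (le_of_eq ?_)
    simp only [sum_add_distrib, sum_const, card_range, nsmul_eq_mul]
    have e : ∑ k ∈ range K, ∑ l ∈ range K, (if k = l then (A : ℝ) else 0) = K * A := by
      have e2 : ∀ k ∈ range K, ∑ l ∈ range K, (if k = l then (A : ℝ) else 0) = A := by
        intro k hk
        rw [sum_ite_eq (range K) k, if_pos hk]
      rw [sum_congr rfl e2]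
      simp
    rw [e]
    ring
  have hfin2 := div_le_div_of_nonneg_right hfin (by positivity : (0 : ℝ) ≤ (K : ℝ) ^ 2)
  have e : (K * A + (K : ℝ) ^ 2 * (ε / 2 * A)) / (K : ℝ) ^ 2 = 1 / K * A + ε / 2 * A := by
    field_simp
  rw [e] at hfin2
  linarith

end Pool.Agent.Lib.TU2
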