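import Pool.Agent.Lib.MP_f6c41f_nt.X5
import Pool.Agent.Lib.MRT.LamAP

/-!
# TU2 / Nat (row NA, about 130 lines): natural averages of the local correlations of `λ`, averaged over the lag

STATEMENTS: below, verbatim. `ell n = lam n` with `lam n = (-1)^Ω(|n|)` (`Pool.Agent.Lib.MP_f6c41f_nt.lam`), so `ell n` is `1` or `-1` for every `n : ℕ`. `mean g N = (∑_{n<N} g n)/N`,
`lcor f a B n = (1/B) ∑_{b<B} f(n+b) f(n+b+a)`, `energy f a B N = mean (lcor f a B ^2) N`.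

PROOF of `na_mean`. `(1/A) ∑_{a=1}^A mean (lcor ell (s a) B) N = (1/N) ∑_{n<N} (1/B) ∑_{b<B} ell(n+b) (1/A) ∑_{a=1}^A ell(n + b + s a)`, absolute value at most `(1/(N A)) (1/B) ∑_{b<B} ∑_{n<N} |∑_{a=1}^A ell(n+b+s a)|`.
`∑_{n<N} |∑_{a=1}^A ell(n+b+sa)| ≤ ∑_{n=1}^{N+B+s} |∑_{d<A} ell(n + s d)|` (put `a = d + 1`, `n' = n + b + s`; all terms are nonnegative) `≤ η A (N+B+s)` by `lam_ap s` with `η = ε/2` for `A ≥ A0`, `N + B + s ≥ N0(A)`
(`LS.lam` there agrees with `ell` at all arguments `≥ 1`, the norm of a real number is its absolute value). For `N ≥ N0` with `N ≥ B + s` this is `≤ 2 η A N = ε A N`.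

PROOF of `na_third`. By induction on `m`: for all `q ≥ 1`, `ε > 0`: `∃ A0, ∀ A ≥ A0, ∃ B0, ∀ B ≥ B0, ∃ N0, ∀ N ≥ N0, ∑_{a=1}^A energy ell (q a) B N ≤ (1/3 + 1/4^m + ε) A`. Start: `energy_le_one`.
Step: `X5_step` (lag `q a`, `2 q a ≤ B` when `B ≥ 2 q A`) summed over `a`: `4 ∑ energy(q a) ≤ A + 2 ∑ mean (lcor (2 q a)) + ∑ energy (2 q a) + 10 q A² / B`; `na_mean` with `s = 2 q` and `ε/4`, the claim for `2 q`, `m`, `ε/2`, and `B ≥ 40 q A / ε`:
`≤ A (1 + ε/2 + 1/3 + 1/4^m + ε/2 + ε/4)`; divide by 4. Then choose `m` with `1/4^m ≤ ε/2` (compare the end of `energy_le` in X5).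
-/

set_option autoImplicit false

open Finset

namespace Pool.Agent.Lib.TU2

open Pool.Agent.Lib.MP_f6c41f_nt

/-- the Liouville function on the natural numbers, `1` at `0` -/
noncomputable def ell (n : ℕ) : ℝ := Pool.Agent.Lib.MP_f6c41f_nt.lam (n : ℤ)

private theorem na_ell (n : ℕ) : ell n = Pool.Agent.Lib.MP_45349e_nt.LS.lam n := by
  unfold ell lam Pool.Agent.Lib.MP_45349e_nt.LS.lam
  simp

private theorem na_pm (n : ℕ) : ell n = 1 ∨ ell n = -1 := by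
  unfold ell lam
  exact neg_one_pow_eq_or ℝ _

private theorem na_shift (A m s : ℕ) : ∑ a ∈ Icc 1 A, ell (m + s * a) = ∑ d ∈ range A, ell (m + s + s * d) := by
  refine sum_nbij' (fun a => a - 1) (fun d => d + 1) ?_ ?_ ?_ ?_ ?_
  · intro a ha
    rw [mem_Icc] at ha
    rw [mem_range]
    omega
  · intro d hd
    rw [mem_range] at hd
    rw [mem_Icc]
    omega
  · intro a ha
    rw [mem_Icc] at ha
    omega
  · intro d _
    simp
  · intro a ha
    rw [mem_Icc] at ha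
    obtain ⟨c, rfl⟩ : ∃ c, a = c + 1 := ⟨a - 1, by omega⟩
    rw [Nat.add_sub_cancel]
    congr 1
    ring

private theorem na_abs (A m s : ℕ) : |∑ a ∈ Icc 1 A, ell (m + s * a)| =
    ‖∑ d ∈ range A, ((Pool.Agent.Lib.MP_45349e_nt.LS.lam (m + s + s * d) : ℝ) : ℂ)‖ := by
  rw [← Complex.ofReal_sum, Complex.norm_real, Real.norm_eq_abs, na_shift, sum_congr rfl fun d _ => na_ell (m + s + s * d)]

theorem na_mean (s : ℕ) (hs : 1 ≤ s) (ε : ℝ) (hε : 0 < ε) : ∃ A0 : ℕ, ∀ A : ℕ, A0 ≤ A → ∀ B : ℕ, 0 < B → ∃ N0 : ℕ, ∀ N : ℕ, N0 ≤ N →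
    |∑ a ∈ Icc 1 A, mean (lcor ell (s * a) B) N| ≤ ε * A := by
  obtain ⟨D0, hD0⟩ := Pool.Agent.Lib.MRT.lam_ap s hs (ε / 2) (by positivity)
  refine ⟨D0, fun A hA B hB => ?_⟩
  obtain ⟨N1, hN1⟩ := hD0 A hA
  refine ⟨max N1 (B + s), fun N hN => ?_⟩
  have hNN1 : N1 ≤ N := (le_max_left _ _).trans hN
  have hNB : B + s ≤ N := (le_max_right _ _).trans hN
  have hB' : (0 : ℝ) < B := by exact_mod_cast hB
  have hN' : (0 : ℝ) < N := by exact_mod_cast (by omega : 0 < N)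
  have hone : ∀ b ∈ range B, ∑ n ∈ range N, |∑ a ∈ Icc 1 A, ell (n + b + s * a)| ≤ ε * A * N := by
    intro b hb
    rw [mem_range] at hb
    calc ∑ n ∈ range N, |∑ a ∈ Icc 1 A, ell (n + b + s * a)|
        = ∑ n ∈ range N, ‖∑ d ∈ range A, ((Pool.Agent.Lib.MP_45349e_nt.LS.lam (n + b + s + s * d) : ℝ) : ℂ)‖ :=
          sum_congr rfl fun n _ => na_abs A (n + b) s
      _ = ∑ n ∈ (range N).image (fun n => n + b + s), ‖∑ d ∈ range A, ((Pool.Agent.Lib.MP_45349e_nt.LS.lam (n + s * d) : ℝ) : ℂ)‖ := by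
          rw [sum_image]
          intro x _ y _ hxy
          simp only at hxy
          omega
      _ ≤ ∑ n ∈ Icc 1 (N + B + s), ‖∑ d ∈ range A, ((Pool.Agent.Lib.MP_45349e_nt.LS.lam (n + s * d) : ℝ) : ℂ)‖ := by
          refine sum_le_sum_of_subset_of_nonneg ?_ fun _ _ _ => norm_nonneg _
          intro x hx
          rw [mem_image] at hx
          obtain ⟨n, hn, rfl⟩ := hx
          rw [mem_range] at hn
          rw [mem_Icc]
          omega
      _ ≤ ε / 2 * A * ((N + B + s : ℕ) : ℝ) := hN1 (N + B + s) (by omega)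
      _ ≤ ε / 2 * A * (2 * N) := by
          refine mul_le_mul_of_nonneg_left ?_ (by positivity)
          have : ((N + B + s : ℕ) : ℝ) ≤ ((2 * N : ℕ) : ℝ) := Nat.cast_le.2 (by omega)
          push_cast at this ⊢
          linarith
      _ = ε * A * N := by ring
  have hre : ∑ a ∈ Icc 1 A, mean (lcor ell (s * a) B) N =
      (∑ b ∈ range B, ∑ n ∈ range N, ell (n + b) * ∑ a ∈ Icc 1 A, ell (n + b + s * a)) / B / N := by
    unfold mean lcor
    rw [← sum_div]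
    congr 1
    rw [sum_comm, sum_comm (s := range B), sum_div]
    refine sum_congr rfl fun n _ => ?_
    rw [← sum_div]
    congr 1
    rw [sum_comm]
    exact sum_congr rfl fun b _ => (mul_sum _ _ _).symm
  rw [hre, abs_div, abs_div, abs_of_pos hB', abs_of_pos hN', div_div, div_le_iff₀ (by positivity)]
  calc |∑ b ∈ range B, ∑ n ∈ range N, ell (n + b) * ∑ a ∈ Icc 1 A, ell (n + b + s * a)|
      ≤ ∑ b ∈ range B, |∑ n ∈ range N, ell (n + b) * ∑ a ∈ Icc 1 A, ell (n + b + s * a)| := abs_sum_le_sum_abs _ _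
    _ ≤ ∑ b ∈ range B, ε * A * N := by
        refine sum_le_sum fun b hb => ?_
        refine (abs_sum_le_sum_abs _ _).trans (le_trans (le_of_eq ?_) (hone b hb))
        refine sum_congr rfl fun n _ => ?_
        rw [abs_mul]
        rcases na_pm (n + b) with h | h <;> rw [h] <;> simp
    _ = ε * A * (B * N) := by
        rw [sum_const, card_range, nsmul_eq_mul]
        ring

private theorem na_key (m : ℕ) : ∀ q : ℕ, 0 < q → ∀ ε : ℝ, 0 < ε → ∃ A0 : ℕ, ∀ A : ℕ, A0 ≤ A → ∃ B0 : ℕ, ∀ B : ℕ, B0 ≤ B →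
    ∃ N0 : ℕ, ∀ N : ℕ, N0 ≤ N → ∑ a ∈ Icc 1 A, energy ell (q * a) B N ≤ (1 / 3 + 1 / 4 ^ m + ε) * A := by
  induction m with
  | zero =>
    intro q _ ε hε
    refine ⟨0, fun A _ => ⟨0, fun B _ => ⟨0, fun N _ => ?_⟩⟩⟩
    calc ∑ a ∈ Icc 1 A, energy ell (q * a) B N ≤ ∑ a ∈ Icc 1 A, (1 : ℝ) :=
          sum_le_sum fun a _ => energy_le_one ell na_pm (q * a) B N
      _ = A := by simp
      _ ≤ (1 / 3 + 1 / 4 ^ 0 + ε) * A := by
          have : (0 : ℝ) ≤ A := Nat.cast_nonneg A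
          rw [pow_zero]
          nlinarith
  | succ m ih =>
    intro q hq ε hε
    obtain ⟨A1, hA1⟩ := ih (2 * q) (by omega) (ε / 2) (by positivity)
    obtain ⟨A2, hA2⟩ := na_mean (2 * q) (by omega) (ε / 4) (by positivity)
    refine ⟨max A1 A2, fun A hA => ?_⟩
    obtain ⟨B1, hB1⟩ := hA1 A ((le_max_left _ _).trans hA)
    obtain ⟨B2, hB2⟩ := exists_nat_gt (40 * q * A / ε : ℝ)
    refine ⟨max (max B1 B2) (2 * (q * A) + 1), fun B hB => ?_⟩
    have hb1 : B1 ≤ B := le_trans (le_trans (le_max_left _ _) (le_max_left _ _)) hB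
    have hb2 : B2 ≤ B := le_trans (le_trans (le_max_right _ _) (le_max_left _ _)) hB
    have hb3 : 2 * (q * A) + 1 ≤ B := le_trans (le_max_right _ _) hB
    have hB0 : 0 < B := by omega
    have hB' : (0 : ℝ) < B := by exact_mod_cast hB0
    obtain ⟨N1, hN1⟩ := hB1 B hb1
    obtain ⟨N2, hN2⟩ := hA2 A ((le_max_right _ _).trans hA) B hB0
    refine ⟨max (max N1 N2) 1, fun N hN => ?_⟩
    have hn1 : N1 ≤ N := le_trans (le_trans (le_max_left _ _) (le_max_left _ _)) hN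
    have hn2 : N2 ≤ N := le_trans (le_trans (le_max_right _ _) (le_max_left _ _)) hN
    have hn3 : 1 ≤ N := le_trans (le_max_right _ _) hN
    have e1 := hN1 N hn1
    have e2 := (le_abs_self _).trans (hN2 N hn2)
    have hsm : (10 * (q * A) / B : ℝ) ≤ ε / 4 := by
      rw [div_lt_iff₀ hε] at hB2
      have : (B2 : ℝ) ≤ B := by exact_mod_cast hb2
      rw [div_le_iff₀ hB']
      nlinarith
    have hstep : ∀ a ∈ Icc 1 A, 4 * energy ell (q * a) B N ≤
        1 + 2 * mean (lcor ell (2 * q * a) B) N + energy ell (2 * q * a) B N + ε / 4 := by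
      intro a ha
      rw [mem_Icc] at ha
      have hqa : q * a ≤ q * A := Nat.mul_le_mul_left q ha.2
      have h := X5_step ell na_pm (q * a) B N hB0 (by omega) (by omega)
      rw [← mul_assoc 2 q a] at h
      have h2 : (10 * ((q * a : ℕ) : ℝ) / B : ℝ) ≤ 10 * (q * A) / B := by
        refine div_le_div_of_nonneg_right ?_ hB'.le
        have : ((q * a : ℕ) : ℝ) ≤ ((q * A : ℕ) : ℝ) := Nat.cast_le.2 hqa
        push_cast at this ⊢
        linarith
      linarith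
    have hsum := sum_le_sum hstep
    rw [← mul_sum, sum_add_distrib, sum_add_distrib, sum_add_distrib, ← mul_sum] at hsum
    simp only [sum_const, Nat.card_Icc, Nat.add_sub_cancel, nsmul_eq_mul, mul_one] at hsum
    have hA0 : (0 : ℝ) ≤ A := Nat.cast_nonneg A
    have e3 : (1 : ℝ) / 4 ^ (m + 1) = (1 / 4 ^ m) / 4 := by
      rw [pow_succ]
      field_simp
    rw [e3]
    nlinarith [mul_nonneg hε.le hA0]

theorem na_third (q : ℕ) (hq : 0 < q) (ε : ℝ) (hε : 0 < ε) : ∃ A0 : ℕ, ∀ A : ℕ, A0 ≤ A → ∃ B0 : ℕ, ∀ B : ℕ, B0 ≤ B → ∃ N0 : ℕ, ∀ N : ℕ, N0 ≤ N →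
    (∑ a ∈ Icc 1 A, energy ell (q * a) B N) / A ≤ 1 / 3 + ε := by
  obtain ⟨j, hj⟩ : ∃ j : ℕ, (1 : ℝ) / 4 ^ j ≤ ε / 2 := by
    obtain ⟨j, hj⟩ := pow_unbounded_of_one_lt (2 / ε) (by norm_num : (1 : ℝ) < 4)
    refine ⟨j, ?_⟩
    rw [div_lt_iff₀ hε] at hj
    rw [div_le_iff₀ (by positivity)]
    linarith
  obtain ⟨A0, hA0⟩ := na_key j q hq (ε / 2) (by positivity)
  refine ⟨max A0 1, fun A hA => ?_⟩
  have hA1 : 1 ≤ A := (le_max_right _ _).trans hA
  have hA' : (0 : ℝ) < A := by exact_mod_cast hA1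
  obtain ⟨B0, hB0⟩ := hA0 A ((le_max_left _ _).trans hA)
  refine ⟨B0, fun B hB => ?_⟩
  obtain ⟨N0, hN0⟩ := hB0 B hB
  refine ⟨N0, fun N hN => ?_⟩
  rw [div_le_iff₀ hA']
  refine (hN0 N hN).trans ?_
  refine mul_le_mul_of_nonneg_right ?_ hA'.le
  linarith

end Pool.Agent.Lib.TU2
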