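import Pool.Agent.Lib.TU2.Base
import Pool.Agent.Lib.TU.MuL

/-!
# TU2 / PDef: words of squares of the Möbius function (definitions)
-/

set_option autoImplicit false

open Finset

namespace Pool.Agent.Lib.TU2

open Pool.Agent.Lib.TU

/-- `μ(n)` as a real number, `0` for `n ≤ 0` -/
noncomputable def mz (n : ℤ) : ℝ := (muz n : ℝ)

open Classical in
/-- `1` if the word `μ(n)², ..., μ(n+l-1)²` is the one at `n0` (and `n ≥ 1`), `0` otherwise -/
noncomputable def wd (n0 l : ℕ) (n : ℤ) : ℝ :=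
  if 1 ≤ n ∧ ∀ j : ℕ, j < l → muz (n + j) ^ 2 = muz (n0 + j) ^ 2 then 1 else 0

/-- the support of the word at `n0` -/
def spt (n0 l : ℕ) : Finset ℕ := (range l).filter fun j => muz ((n0 : ℤ) + j) ≠ 0

end Pool.Agent.Lib.TU2
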