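import Pool.Agent.Lib.TU2.PDef

/-!
# TU2 / PPat (row PO, about 120 lines): all sign patterns from small correlations

STATEMENT: below, verbatim.

PROOF. Let `E n = 1` if `1 ≤ n`, the word at `n` is the one at `n0` and `muz (n + a i) = x i` for all `i`, else `0`. For every `n`: `wd n * ∏ i, (1 + x i mz (n + a i)) = 2^k E n` (where `wd n = 1` all `mz (n + a i)` are `1` or `-1`, since `a i ∈ spt n0 l`).
Expand: `∏ i, (1 + x i mz(n + a i)) = ∑_{I} ∏_{i ∈ I} x i * ∏_{i ∈ I} mz(n + a i)` (`Finset.prod_one_add` / `Finset.prod_add`), so `2^k L E = D + ∑_{I ≠ ∅} (∏_I x) c_I`, `c_I = L (wd · ∏_I mz)`, `D = c_∅ > 0` or `= 0`. `|∑_{I ≠ ∅} (∏_I x) c_I| ≤ ∑_{I ≠ ∅} |c_I| ≤ (2^k ∑_{I ≠ ∅} c_I²)^(1/2) < D` by Cauchy-Schwarz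
(`Finset.inner_mul_le_norm_mul_norm` or `sq_sum_le_card_mul_sum_sq`; `D ≥ 0` since `wd ≥ 0`). So `2^k L E > 0`.
-/

set_option autoImplicit false

open Finset

namespace Pool.Agent.Lib.TU2

open Pool.Agent.Lib.TU

private theorem po_pm {m : ℤ} (h : muz m ≠ 0) : muz m = 1 ∨ muz m = -1 :=
  ArithmeticFunction.moebius_ne_zero_iff_eq_or.1 h

private theorem po_abs (n : ℤ) : |mz n| ≤ 1 := by
  unfold mz
  by_cases h : muz n = 0
  · rw [h]; norm_num
  · rcases po_pm h with h | h <;> rw [h] <;> norm_num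

private theorem po_wd01 (n0 l : ℕ) (n : ℤ) : 0 ≤ wd n0 l n ∧ wd n0 l n ≤ 1 := by
  unfold wd
  split_ifs <;> norm_num

open Classical in
private theorem po_key (n0 l k : ℕ) (a : Fin k → ℕ) (ha : ∀ i, a i ∈ spt n0 l) (x : Fin k → ℤ) (hx : ∀ i, x i = 1 ∨ x i = -1) (n : ℤ) :
    (2 : ℝ) ^ k * (if 1 ≤ n ∧ (∀ j : ℕ, j < l → muz (n + j) ^ 2 = muz (n0 + j) ^ 2) ∧ ∀ i, muz (n + a i) = x i then 1 else 0) =
      wd n0 l n * ∏ i, (1 + (x i : ℝ) * mz (n + a i)) := by
  unfold wd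
  by_cases h1 : 1 ≤ n ∧ ∀ j : ℕ, j < l → muz (n + j) ^ 2 = muz (n0 + j) ^ 2
  · rw [if_pos h1, one_mul]
    by_cases h2 : ∀ i, muz (n + a i) = x i
    · rw [if_pos ⟨h1.1, h1.2, h2⟩, mul_one]
      symm
      rw [prod_congr rfl (g := fun _ => (2 : ℝ))]
      · rw [prod_const, card_univ, Fintype.card_fin]
      · intro i _
        unfold mz
        rw [h2 i]
        rcases hx i with h | h <;> rw [h] <;> norm_num
    · rw [if_neg (fun h => h2 h.2.2), mul_zero]
      symm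
      rw [not_forall] at h2
      obtain ⟨i, hne⟩ := h2
      refine prod_eq_zero (mem_univ i) ?_
      have ha' := mem_filter.1 (ha i)
      have h3 := h1.2 (a i) (mem_range.1 ha'.1)
      have h4 : muz (n + a i) ≠ 0 := by
        intro h5
        rw [h5] at h3
        have h6 : muz ((n0 : ℤ) + a i) ^ 2 = 0 := by rw [← h3]; norm_num
        exact ha'.2 (pow_eq_zero_iff two_ne_zero |>.1 h6)
      have h5 : x i * muz (n + a i) = -1 := by
        rcases po_pm h4 with h | h <;> rcases hx i with h' | h' <;> rw [h, h'] at hne ⊢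
        · exact absurd rfl hne
        · norm_num
        · norm_num
        · exact absurd rfl hne
      have h6 : (x i : ℝ) * mz (n + a i) = -1 := by
        unfold mz
        exact_mod_cast h5
      rw [h6]
      norm_num
  · rw [if_neg h1, zero_mul, if_neg (fun h => h1 ⟨h.1, h.2.1⟩), mul_zero]

open Classical in
theorem word_pat {L : (ℤ → ℝ) →ₗ[ℝ] ℝ} (hL : IsMean L) (n0 l k : ℕ) (a : Fin k → ℕ) (ha : ∀ i, a i ∈ spt n0 l)
    (h : 2 ^ k * ∑ I ∈ (univ : Finset (Finset (Fin k))).filter (fun I => I.Nonempty), (L (fun n => wd n0 l n * ∏ i ∈ I, mz (n + a i))) ^ 2 <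
      (L (fun n => wd n0 l n)) ^ 2)
    (x : Fin k → ℤ) (hx : ∀ i, x i = 1 ∨ x i = -1) :
    0 < L (fun n => if 1 ≤ n ∧ (∀ j : ℕ, j < l → muz (n + j) ^ 2 = muz (n0 + j) ^ 2) ∧ ∀ i, muz (n + a i) = x i then 1 else 0) := by
  set c : Finset (Fin k) → ℝ := fun I => L (fun n => wd n0 l n * ∏ i ∈ I, mz (n + a i)) with hc
  set X : Finset (Fin k) → ℝ := fun I => ∏ i ∈ I, (x i : ℝ) with hX
  have hX1 : ∀ I, X I ^ 2 = 1 := by
    intro I
    rw [hX]
    simp only
    rw [← prod_pow]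
    refine prod_eq_one fun i _ => ?_
    rcases hx i with h | h <;> rw [h] <;> norm_num
  -- expansion
  have h1 : (2 : ℝ) ^ k * L (fun n => if 1 ≤ n ∧ (∀ j : ℕ, j < l → muz (n + j) ^ 2 = muz (n0 + j) ^ 2) ∧ ∀ i, muz (n + a i) = x i then 1 else 0) =
      ∑ I : Finset (Fin k), X I * c I := by
    rw [← smul_eq_mul, ← map_smul]
    have h2 : ((2 : ℝ) ^ k • fun n : ℤ => if 1 ≤ n ∧ (∀ j : ℕ, j < l → muz (n + j) ^ 2 = muz (n0 + j) ^ 2) ∧ ∀ i, muz (n + a i) = x i then (1 : ℝ) else 0) =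
        ∑ I : Finset (Fin k), X I • fun n : ℤ => wd n0 l n * ∏ i ∈ I, mz (n + a i) := by
      funext n
      rw [Pi.smul_apply, smul_eq_mul, po_key n0 l k a ha x hx n, Finset.sum_apply]
      rw [prod_one_add, powerset_univ, mul_sum]
      refine sum_congr rfl fun I _ => ?_
      rw [Pi.smul_apply, smul_eq_mul, prod_mul_distrib]
      ring
    rw [h2, map_sum]
    refine sum_congr rfl fun I _ => ?_
    rw [map_smul, smul_eq_mul]
  have hD : c ∅ = L (fun n => wd n0 l n) := by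
    rw [hc]; simp
  have hD0 : 0 ≤ c ∅ := by
    rw [hD]
    exact hL.nonneg _ ⟨1, fun n => by rw [abs_of_nonneg (po_wd01 n0 l n).1]; exact (po_wd01 n0 l n).2⟩ fun n => (po_wd01 n0 l n).1
  set S : Finset (Finset (Fin k)) := (univ : Finset (Finset (Fin k))).filter (fun I => I.Nonempty) with hS
  have h3 : ∑ I : Finset (Fin k), X I * c I = c ∅ + ∑ I ∈ S, X I * c I := by
    rw [← sum_filter_add_sum_filter_not univ (fun I : Finset (Fin k) => I.Nonempty), add_comm]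
    congr 1
    have h4 : (univ : Finset (Finset (Fin k))).filter (fun I => ¬ I.Nonempty) = {∅} := by
      ext I
      simp [Finset.not_nonempty_iff_eq_empty]
    rw [h4, sum_singleton]
    rw [hX]; simp
  have h5 : (∑ I ∈ S, X I * c I) ^ 2 ≤ (2 : ℝ) ^ k * ∑ I ∈ S, c I ^ 2 := by
    have h6 := sum_mul_sq_le_sq_mul_sq S X c
    refine h6.trans ?_
    rw [sum_congr rfl fun I _ => hX1 I, sum_const, nsmul_eq_mul, mul_one]
    refine mul_le_mul_of_nonneg_right ?_ (sum_nonneg fun I _ => sq_nonneg _)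
    have h7 : S.card ≤ 2 ^ k := by
      refine (card_le_univ S).trans ?_
      rw [Fintype.card_finset, Fintype.card_fin]
    exact_mod_cast h7
  have h8 : (∑ I ∈ S, X I * c I) ^ 2 < (c ∅) ^ 2 := by
    refine lt_of_le_of_lt h5 ?_
    rw [hD]
    exact h
  have h9 := abs_lt_of_sq_lt_sq h8 hD0
  have h10 := (abs_lt.1 h9).1
  have h11 : 0 < (2 : ℝ) ^ k * L (fun n => if 1 ≤ n ∧ (∀ j : ℕ, j < l → muz (n + j) ^ 2 = muz (n0 + j) ^ 2) ∧ ∀ i, muz (n + a i) = x i then 1 else 0) := by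
    rw [h1, h3]
    linarith
  exact pos_of_mul_pos_right h11 (by positivity)

end Pool.Agent.Lib.TU2
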