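import Pool.Agent.Lib.TU2.PDef

/-!
# TU2 / PPos (row W1, about 110 lines): the word has positive measure

STATEMENT: below, verbatim.

PROOF. As in the proof of `mu_pos` (TU/MuL.lean): `y = n0 + l + ⌈8 l⌉ + 1` (so `4 l/y < 1` and `n0 + l ≤ y`), `Q = ∏_{p ≤ y} p²`. For `m ≥ 0` outside the sets `{m : ∃ p > y prime, p² ∣ Q m + (n0 + j)}`, `j < l`, the number `n = Q m + n0 ≥ 1` satisfies `μ(n+j)² = μ(n0+j)²` for all `j < l`
(`p ≤ y`: `p² ∣ Q m + n0 + j ↔ p² ∣ n0 + j`; `p > y`: `p²` does not divide `n0 + j ≤ y`). So `L (m ↦ wd (Q m + n0)) ≥ 1 - 4 l/y - pr (m < 0) > 0` (`sq_tail`, `pr_exists_le`, measure of the negative integers is `0`: private `prNeg78` in MuL.lean), and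
`L wd ≥ L (n ↦ if Q ∣ n - n0 then wd n else 0) = L (m ↦ wd (Q m + n0))/Q` (`shiftz`, `pr_mul_if`).
-/

set_option autoImplicit false

open Finset

namespace Pool.Agent.Lib.TU2

open Pool.Agent.Lib.TU

theorem wd_pos {L : (ℤ → ℝ) →ₗ[ℝ] ℝ} (hL : IsMean L) (n0 l : ℕ) (hn0 : 1 ≤ n0) : 0 < L (fun n => wd n0 l n) := by
  classical
  -- a longer word with a nonzero letter
  obtain ⟨p, hp0, hp⟩ := Nat.exists_infinite_primes n0
  obtain ⟨a, ha⟩ : ∃ a : ℕ, p = n0 + a := ⟨p - n0, by omega⟩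
  have hne : muz ((n0 : ℤ) + a) ≠ 0 := by
    have h1 : ((n0 : ℤ) + a).toNat = p := by
      rw [ha]
      have : ((n0 : ℤ) + a) = ((n0 + a : ℕ) : ℤ) := by push_cast; ring
      rw [this, Int.toNat_natCast]
    unfold muz
    rw [h1, ArithmeticFunction.moebius_apply_prime hp]
    norm_num
  have h := mu_pos hL n0 (max l (a + 1)) hn0 {a} (singleton_nonempty a) (fun b hb => by
    rw [mem_singleton] at hb
    subst hb
    exact ⟨lt_of_lt_of_le (Nat.lt_succ_self b) (le_max_right _ _), hne⟩) 1 (Or.inl rfl)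
  have h1 : pr L (fun n => 1 ≤ n ∧ (∀ j : ℕ, j < max l (a + 1) → muz (n + j) ^ 2 = muz (n0 + j) ^ 2) ∧
      ∏ b ∈ ({a} : Finset ℕ), muz (n + b) = 1) ≤
      pr L (fun n => 1 ≤ n ∧ ∀ j : ℕ, j < l → muz (n + j) ^ 2 = muz (n0 + j) ^ 2) :=
    pr_mono hL fun n hn => ⟨hn.1, fun j hj => hn.2.1 j (lt_of_lt_of_le hj (le_max_left _ _))⟩
  have h2 : L (fun n => wd n0 l n) = pr L (fun n => 1 ≤ n ∧ ∀ j : ℕ, j < l → muz (n + j) ^ 2 = muz (n0 + j) ^ 2) := by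
    rw [pr_def]
    congr 1
  rw [h2]
  exact lt_of_lt_of_le h h1

end Pool.Agent.Lib.TU2
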