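import Pool.Agent.Lib.TU2.PMom
import Pool.Agent.Lib.TU2.PPat
import Pool.Agent.Lib.TU2.PPos
import Pool.Agent.Lib.TU.Mean

/-!
# TU2 / PFin (row FI, about 120 lines): counting the bad tuples of places

STATEMENT: below, verbatim.

PROOF. `U` an ultrafilter `≤ atTop` on `ℕ` (`Filter.hyperfilter ℕ`, or `Ultrafilter.of atTop`), `L` from `exists_mean U`. `S = spt n0 l`, `s = |S|`, `D = L wd > 0` (`wd_pos`), `c_I(a) = L (wd · ∏_{i ∈ I} mz (n + a i))`.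
If `a` in the box satisfies `2^k ∑_{I ≠ ∅} c_I(a)² < D²`, then by `word_pat` every `x` has `L E_x > 0`, and `lav X E_x → L E_x` along `U`, so `c = L E_x/2` is `≤ lav X E_x` for `U`-many `X`, in particular for arbitrarily large `X` (`U ≤ atTop`): `a` is not bad.
So the bad `a` satisfy `D² ≤ 2^k ∑_{I ≠ ∅} c_I(a)²`, and `#bad · D² ≤ 2^k ∑_a ∑_{I ≠ ∅} c_I(a)² ≤ 2^k 2^k s^(k-1) D²` by `word_mom`. Divide by `D² > 0` and cast to `ℕ`.
-/

set_option autoImplicit false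

open Finset

namespace Pool.Agent.Lib.TU2

open Pool.Agent.Lib.TU

open Classical in
theorem word_fin (n0 l k : ℕ) (hn0 : 1 ≤ n0) :
    ((Fintype.piFinset (fun _ : Fin k => spt n0 l)).filter (fun a => ¬ ∀ x : Fin k → ℤ, (∀ i, x i = 1 ∨ x i = -1) →
      ∃ c : ℝ, 0 < c ∧ ∀ X0 : ℕ, ∃ X : ℕ, X0 ≤ X ∧ c ≤ lav X (fun n =>
        if 1 ≤ n ∧ (∀ j : ℕ, j < l → muz (n + j) ^ 2 = muz (n0 + j) ^ 2) ∧ ∀ i, muz (n + a i) = x i then 1 else 0))).card ≤
      4 ^ k * (spt n0 l).card ^ (k - 1) := by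
  obtain ⟨L, hL, hlim⟩ := exists_mean (Ultrafilter.of Filter.atTop) (Ultrafilter.of_le Filter.atTop)
  have hD := wd_pos hL n0 l hn0
  set D : ℝ := L (fun n => wd n0 l n) with hDdef
  set s : ℕ := (spt n0 l).card with hs
  set c : Finset (Fin k) → (Fin k → ℕ) → ℝ := fun I a => L (fun n => wd n0 l n * ∏ i ∈ I, mz (n + a i)) with hc
  set NE : Finset (Finset (Fin k)) := (univ : Finset (Finset (Fin k))).filter (fun I => I.Nonempty) with hNE
  set box : Finset (Fin k → ℕ) := Fintype.piFinset (fun _ : Fin k => spt n0 l) with hbox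
  set B : Finset (Fin k → ℕ) := box.filter (fun a => ¬ ∀ x : Fin k → ℤ, (∀ i, x i = 1 ∨ x i = -1) →
      ∃ c : ℝ, 0 < c ∧ ∀ X0 : ℕ, ∃ X : ℕ, X0 ≤ X ∧ c ≤ lav X (fun n =>
        if 1 ≤ n ∧ (∀ j : ℕ, j < l → muz (n + j) ^ 2 = muz (n0 + j) ^ 2) ∧ ∀ i, muz (n + a i) = x i then 1 else 0)) with hB
  have hbad : ∀ a ∈ B, D ^ 2 ≤ 2 ^ k * ∑ I ∈ NE, c I a ^ 2 := by
    intro a ha
    obtain ⟨ha1, ha2⟩ := mem_filter.1 ha
    by_contra hcon
    rw [not_le] at hcon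
    refine ha2 fun x hx => ?_
    have hpos := word_pat hL n0 l k a (fun i => Fintype.mem_piFinset.1 ha1 i) hcon x hx
    refine ⟨_, half_pos hpos, fun X0 => ?_⟩
    have hb : Bd (fun n : ℤ => if 1 ≤ n ∧ (∀ j : ℕ, j < l → muz (n + j) ^ 2 = muz (n0 + j) ^ 2) ∧
        ∀ i, muz (n + a i) = x i then (1 : ℝ) else 0) := ⟨1, fun n => by beta_reduce; split_ifs <;> norm_num⟩
    have h1 := (hlim _ hb).eventually (lt_mem_nhds (half_lt_self hpos))
    have h2 : ∀ᶠ X in ((Ultrafilter.of Filter.atTop : Ultrafilter ℕ) : Filter ℕ), X0 ≤ X :=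
      (Filter.eventually_ge_atTop X0).filter_mono (Ultrafilter.of_le Filter.atTop)
    obtain ⟨X, hX1, hX2⟩ := (h2.and h1).exists
    exact ⟨X, hX1, hX2.le⟩
  have hNEcard : (NE.card : ℝ) ≤ 2 ^ k := by
    have h1 : NE.card ≤ (univ : Finset (Finset (Fin k))).card := card_le_card (filter_subset _ _)
    rw [card_univ, Fintype.card_finset, Fintype.card_fin] at h1
    exact_mod_cast h1
  have hsum : (B.card : ℝ) * D ^ 2 ≤ 4 ^ k * (s : ℝ) ^ (k - 1) * D ^ 2 := by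
    calc (B.card : ℝ) * D ^ 2 = ∑ a ∈ B, D ^ 2 := by rw [sum_const, nsmul_eq_mul]
      _ ≤ ∑ a ∈ B, 2 ^ k * ∑ I ∈ NE, c I a ^ 2 := sum_le_sum hbad
      _ ≤ ∑ a ∈ box, 2 ^ k * ∑ I ∈ NE, c I a ^ 2 :=
          sum_le_sum_of_subset_of_nonneg (filter_subset _ _) fun a _ _ =>
            mul_nonneg (by positivity) (sum_nonneg fun I _ => sq_nonneg _)
      _ = 2 ^ k * ∑ I ∈ NE, ∑ a ∈ box, c I a ^ 2 := by rw [← mul_sum, sum_comm]
      _ ≤ 2 ^ k * ∑ I ∈ NE, (s : ℝ) ^ (k - 1) * D ^ 2 := by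
          refine mul_le_mul_of_nonneg_left (sum_le_sum fun I hI => ?_) (by positivity)
          exact word_mom hL n0 l hn0 k I (mem_filter.1 hI).2
      _ = 2 ^ k * (NE.card * ((s : ℝ) ^ (k - 1) * D ^ 2)) := by rw [sum_const, nsmul_eq_mul]
      _ ≤ 2 ^ k * (2 ^ k * ((s : ℝ) ^ (k - 1) * D ^ 2)) := by
          refine mul_le_mul_of_nonneg_left (mul_le_mul_of_nonneg_right hNEcard ?_) (by positivity)
          positivity
      _ = 4 ^ k * (s : ℝ) ^ (k - 1) * D ^ 2 := by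
          rw [show (4 : ℝ) = 2 * 2 by norm_num, mul_pow]
          ring
  have hD2 : 0 < D ^ 2 := by positivity
  have h3 : (B.card : ℝ) ≤ 4 ^ k * (s : ℝ) ^ (k - 1) := le_of_mul_le_mul_right hsum hD2
  exact_mod_cast h3

end Pool.Agent.Lib.TU2
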