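import Pool.Agent.Lib.TU2.PWord

/-!
# TU2 / PMom (row MO, about 150 lines): the squares of the correlations on a word, on average over the places

STATEMENT: below, verbatim. `S = spt n0 l`, `s = |S|`, `D = L wd`.

PROOF. `j = |I| ≥ 1`. If `j = 1`, `I = {i}`: every term is `0` (`word_one`), the right side is `≥ 0`. Let `j ≥ 2`. For `a : Fin k → S`: `(L (wd · ∏_{i ∈ I} mz (n + a i)))² = L (n ↦ L (n' ↦ wd n * wd n' * ∏_{i ∈ I} (mz (n + a i) * mz (n' + a i))))` (linearity). Sum over `a` in the box: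
`∑_a ∏_{i ∈ I} u(a i) = s^(k-j) (∑_{a ∈ S} u a)^j`, `u a = mz (n + a) * mz (n' + a)` (`Finset.prod_univ_sum` with the factor `1` for `i ∉ I`; `∏_{i ∈ I} = ∏_i if i ∈ I then .. else 1`: `Finset.prod_ite_mem` or similar). `|∑ u| ≤ s`, so `(∑ u)^j ≤ s^(j-2) (∑ u)²`.
`L L (wd wd' (∑_a u a)²) = ∑_{a,b ∈ S} (L (wd mz(n+a) mz(n+b)))² = s D²` (`word_two` for `a ≠ b`; for `a = b ∈ S`: `wd * mz(n+a)² = wd`, because `muz(n+a)² = muz(n0+a)² = 1` where `wd = 1`). Total `s^(k-j) s^(j-2) s D² = s^(k-1) D²`.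
(Positivity: `L F ≤ L F'` for bounded `F ≤ F'`, twice; `n ↦ L (n' ↦ ..)` is bounded by `hL.abs_le`. If `s = 0` the sum is empty unless `k = 0`, and `I` nonempty gives `k ≥ 1`.)
-/

set_option autoImplicit false

open Finset

namespace Pool.Agent.Lib.TU2

open Pool.Agent.Lib.TU

private theorem mo_wd01 (n0 l : ℕ) (n : ℤ) : wd n0 l n = 0 ∨ wd n0 l n = 1 := by
  unfold wd
  split_ifs
  · exact Or.inr rfl
  · exact Or.inl rfl

private theorem mo_wd_nonneg (n0 l : ℕ) (n : ℤ) : 0 ≤ wd n0 l n := by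
  rcases mo_wd01 n0 l n with h | h <;> rw [h] <;> norm_num

private theorem mo_wd_le (n0 l : ℕ) (n : ℤ) : wd n0 l n ≤ 1 := by
  rcases mo_wd01 n0 l n with h | h <;> rw [h] <;> norm_num

private theorem mo_muz_abs (n : ℤ) : |muz n| ≤ 1 := by
  unfold muz
  exact ArithmeticFunction.abs_moebius_le_one

private theorem mo_abs (n : ℤ) : |mz n| ≤ 1 := by
  unfold mz
  have h := mo_muz_abs n
  rw [← Int.cast_abs]
  exact_mod_cast h

private theorem mo_mono {L : (ℤ → ℝ) →ₗ[ℝ] ℝ} (hL : IsMean L) {F F' : ℤ → ℤ → ℝ} (C C' : ℝ)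
    (hF : ∀ n m, |F n m| ≤ C) (hF' : ∀ n m, |F' n m| ≤ C') (h : ∀ n m, F n m ≤ F' n m) :
    L (fun n => L (fun m => F n m)) ≤ L (fun n => L (fun m => F' n m)) :=
  hL.mono ⟨C, fun n => hL.abs_le (hF n)⟩ ⟨C', fun n => hL.abs_le (hF' n)⟩
    fun n => hL.mono ⟨C, hF n⟩ ⟨C', hF' n⟩ (h n)

private theorem mo_mul (L : (ℤ → ℝ) →ₗ[ℝ] ℝ) (c : ℝ) (f : ℤ → ℝ) :
    L (fun n => c * f n) = c * L f := by
  have h : (fun n => c * f n) = c • f := by
    funext n
    simp
  rw [h, map_smul, smul_eq_mul]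

private theorem mo_sum (L : (ℤ → ℝ) →ₗ[ℝ] ℝ) {ι : Type*} (s : Finset ι) (f : ι → ℤ → ℝ) :
    L (fun n => ∑ i ∈ s, f i n) = ∑ i ∈ s, L (f i) := by
  have h : (fun n => ∑ i ∈ s, f i n) = ∑ i ∈ s, f i := by
    funext n
    simp
  rw [h, map_sum]

private theorem mo_sq (L : (ℤ → ℝ) →ₗ[ℝ] ℝ) (f : ℤ → ℝ) :
    (L f) ^ 2 = L (fun n => L (fun m => f n * f m)) := by
  have h : (fun n => L (fun m => f n * f m)) = fun n => L f * f n := by
    funext n
    rw [mo_mul, mul_comm]
  rw [h, mo_mul, sq]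

/-- the sum over the box of a product over `I` -/
private theorem mo_box (k : ℕ) (I : Finset (Fin k)) (S : Finset ℕ) (u : ℕ → ℝ) :
    ∑ a ∈ Fintype.piFinset (fun _ : Fin k => S), ∏ i ∈ I, u (a i) =
      (∑ x ∈ S, u x) ^ I.card * (S.card : ℝ) ^ (k - I.card) := by
  have h1 : ∀ a : Fin k → ℕ, ∏ i ∈ I, u (a i) = ∏ i, (if i ∈ I then u (a i) else 1) := by
    intro a
    rw [Finset.prod_ite_mem, Finset.univ_inter]
  have h2 := Finset.prod_univ_sum (fun _ : Fin k => S) (fun i x => if i ∈ I then u x else (1 : ℝ))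
  rw [Finset.sum_congr rfl fun a _ => h1 a, ← h2]
  have h3 : ∀ i : Fin k, (∑ x ∈ S, if i ∈ I then u x else (1 : ℝ)) =
      if i ∈ I then (∑ x ∈ S, u x) else (S.card : ℝ) := by
    intro i
    split_ifs with hi
    · rfl
    · simp
  rw [Finset.prod_congr rfl fun i _ => h3 i, Finset.prod_ite, Finset.prod_const, Finset.prod_const]
  have h4 : (univ.filter fun i => i ∈ I) = I := by
    ext i
    simp
  have h5 : (univ.filter fun i => i ∉ I).card = k - I.card := by
    have := Finset.card_compl I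
    rw [Fintype.card_fin] at this
    rw [← this]
    congr 1
    ext i
    simp
  rw [h4, h5]

private theorem mo_pow_le {s x : ℝ} (hx : |x| ≤ s) {j : ℕ} (hj : 2 ≤ j) :
    x ^ j ≤ s ^ (j - 2) * x ^ 2 := by
  obtain ⟨t, rfl⟩ := Nat.exists_eq_add_of_le hj
  have h : 2 + t - 2 = t := by omega
  rw [h, pow_add, mul_comm (x ^ 2)]
  refine mul_le_mul_of_nonneg_right ?_ (sq_nonneg x)
  calc x ^ t ≤ |x ^ t| := le_abs_self _
    _ = |x| ^ t := abs_pow x t
    _ ≤ s ^ t := pow_le_pow_left₀ (abs_nonneg x) hx t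

private theorem mo_u (S : Finset ℕ) (n m : ℤ) : |∑ x ∈ S, mz (n + x) * mz (m + x)| ≤ (S.card : ℝ) := by
  calc |∑ x ∈ S, mz (n + x) * mz (m + x)| ≤ ∑ x ∈ S, |mz (n + x) * mz (m + x)| := Finset.abs_sum_le_sum_abs _ _
    _ ≤ ∑ _x ∈ S, (1 : ℝ) := by
        refine Finset.sum_le_sum fun x _ => ?_
        rw [abs_mul]
        exact mul_le_one₀ (mo_abs _) (abs_nonneg _) (mo_abs _)
    _ = (S.card : ℝ) := by simp

/-- the diagonal terms -/
private theorem mo_diag (L : (ℤ → ℝ) →ₗ[ℝ] ℝ) (n0 l : ℕ) (a : ℕ) (ha : a ∈ spt n0 l) :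
    L (fun n => wd n0 l n * (mz (n + a) * mz (n + a))) = L (fun n => wd n0 l n) := by
  congr 1
  funext n
  rcases mo_wd01 n0 l n with h | h
  · rw [h, zero_mul]
  · rw [h, one_mul]
    unfold wd at h
    split_ifs at h with hw
    · have ha' := Finset.mem_filter.1 ha
      have hal : a < l := Finset.mem_range.1 ha'.1
      have h1 := hw.2 a hal
      have h0 : muz ((n0 : ℤ) + a) ^ 2 = 1 := by
        have hb := mo_muz_abs ((n0 : ℤ) + a)
        have hne := ha'.2
        have h3 := abs_le.1 hb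
        have h4 : muz ((n0 : ℤ) + a) = -1 ∨ muz ((n0 : ℤ) + a) = 1 := by omega
        rcases h4 with h4 | h4 <;> rw [h4] <;> norm_num
      rw [h0] at h1
      unfold mz
      rw [← Int.cast_mul, ← sq, h1]
      norm_num
    · norm_num at h

theorem word_mom {L : (ℤ → ℝ) →ₗ[ℝ] ℝ} (hL : IsMean L) (n0 l : ℕ) (hn0 : 1 ≤ n0) (k : ℕ) (I : Finset (Fin k)) (hI : I.Nonempty) :
    ∑ a ∈ Fintype.piFinset (fun _ : Fin k => spt n0 l), (L (fun n => wd n0 l n * ∏ i ∈ I, mz (n + a i))) ^ 2 ≤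
      ((spt n0 l).card : ℝ) ^ (k - 1) * (L (fun n => wd n0 l n)) ^ 2 := by
  have hpos : 0 < I.card := hI.card_pos
  have hIk : I.card ≤ k := by
    have := Finset.card_le_univ I
    rwa [Fintype.card_fin] at this
  rcases Nat.lt_or_ge I.card 2 with hj | hj
  · -- one element
    have h1 : I.card = 1 := by omega
    obtain ⟨i, rfl⟩ := Finset.card_eq_one.1 h1
    have h0 : ∀ a ∈ Fintype.piFinset (fun _ : Fin k => spt n0 l),
        (L (fun n => wd n0 l n * ∏ i ∈ ({i} : Finset (Fin k)), mz (n + a i))) ^ 2 = 0 := by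
      intro a ha
      have hai : a i ∈ spt n0 l := Fintype.mem_piFinset.1 ha i
      simp only [Finset.prod_singleton]
      rw [word_one hL n0 l hn0 (a i) hai]
      norm_num
    rw [Finset.sum_eq_zero h0]
    positivity
  · set S := spt n0 l with hS
    set s : ℝ := (S.card : ℝ) with hs
    have hs0 : 0 ≤ s := Nat.cast_nonneg _
    -- double functional
    have e1 : ∑ a ∈ Fintype.piFinset (fun _ : Fin k => S), (L (fun n => wd n0 l n * ∏ i ∈ I, mz (n + a i))) ^ 2 =
        L (fun n => L (fun m => wd n0 l n * wd n0 l m *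
          ((∑ x ∈ S, mz (n + x) * mz (m + x)) ^ I.card * s ^ (k - I.card)))) := by
      rw [Finset.sum_congr rfl fun a _ => mo_sq L _, ← mo_sum]
      congr 1
      funext n
      rw [← mo_sum]
      congr 1
      funext m
      rw [hs, ← mo_box k I S (fun x => mz (n + x) * mz (m + x)), Finset.mul_sum]
      refine Finset.sum_congr rfl fun a _ => ?_
      rw [Finset.prod_mul_distrib]
      ring
    have e2 : L (fun n => L (fun m => wd n0 l n * wd n0 l m *
          ((∑ x ∈ S, mz (n + x) * mz (m + x)) ^ I.card * s ^ (k - I.card)))) ≤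
        L (fun n => L (fun m => s ^ (k - 2) * (wd n0 l n * wd n0 l m *
          (∑ x ∈ S, mz (n + x) * mz (m + x)) ^ 2))) := by
      refine mo_mono hL (s ^ I.card * s ^ (k - I.card)) (s ^ (k - 2) * s ^ 2) ?_ ?_ ?_
      · intro n m
        rw [abs_mul, abs_mul, abs_mul, abs_pow, abs_of_nonneg (mo_wd_nonneg n0 l n),
          abs_of_nonneg (mo_wd_nonneg n0 l m), abs_of_nonneg (pow_nonneg hs0 _)]
        have hA : wd n0 l n * wd n0 l m ≤ 1 :=
          mul_le_one₀ (mo_wd_le n0 l n) (mo_wd_nonneg n0 l m) (mo_wd_le n0 l m)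
        have hB : |∑ x ∈ S, mz (n + x) * mz (m + x)| ^ I.card * s ^ (k - I.card) ≤ s ^ I.card * s ^ (k - I.card) :=
          mul_le_mul_of_nonneg_right (pow_le_pow_left₀ (abs_nonneg _) (mo_u S n m) _) (pow_nonneg hs0 _)
        calc wd n0 l n * wd n0 l m * (|∑ x ∈ S, mz (n + x) * mz (m + x)| ^ I.card * s ^ (k - I.card))
            ≤ 1 * (s ^ I.card * s ^ (k - I.card)) :=
              mul_le_mul hA hB (mul_nonneg (pow_nonneg (abs_nonneg _) _) (pow_nonneg hs0 _)) (by norm_num)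
          _ = _ := one_mul _
      · intro n m
        rw [abs_mul, abs_mul, abs_mul, abs_pow _ 2, abs_of_nonneg (mo_wd_nonneg n0 l n),
          abs_of_nonneg (mo_wd_nonneg n0 l m), abs_of_nonneg (pow_nonneg hs0 _)]
        have hA : wd n0 l n * wd n0 l m ≤ 1 :=
          mul_le_one₀ (mo_wd_le n0 l n) (mo_wd_nonneg n0 l m) (mo_wd_le n0 l m)
        have hB : |∑ x ∈ S, mz (n + x) * mz (m + x)| ^ 2 ≤ s ^ 2 :=
          pow_le_pow_left₀ (abs_nonneg _) (mo_u S n m) _
        refine mul_le_mul_of_nonneg_left ?_ (pow_nonneg hs0 _)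
        calc wd n0 l n * wd n0 l m * |∑ x ∈ S, mz (n + x) * mz (m + x)| ^ 2
            ≤ 1 * s ^ 2 :=
              mul_le_mul hA hB (pow_nonneg (abs_nonneg _) _) (by norm_num)
          _ = _ := one_mul _
      · intro n m
        have hw : 0 ≤ wd n0 l n * wd n0 l m := mul_nonneg (mo_wd_nonneg n0 l n) (mo_wd_nonneg n0 l m)
        have h1 := mo_pow_le (mo_u S n m) hj
        have h2 : (∑ x ∈ S, mz (n + x) * mz (m + x)) ^ I.card * s ^ (k - I.card) ≤
            s ^ (k - 2) * (∑ x ∈ S, mz (n + x) * mz (m + x)) ^ 2 := by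
          calc (∑ x ∈ S, mz (n + x) * mz (m + x)) ^ I.card * s ^ (k - I.card)
              ≤ (s ^ (I.card - 2) * (∑ x ∈ S, mz (n + x) * mz (m + x)) ^ 2) * s ^ (k - I.card) :=
                mul_le_mul_of_nonneg_right h1 (pow_nonneg hs0 _)
            _ = (s ^ (I.card - 2) * s ^ (k - I.card)) * (∑ x ∈ S, mz (n + x) * mz (m + x)) ^ 2 := by ring
            _ = s ^ (k - 2) * (∑ x ∈ S, mz (n + x) * mz (m + x)) ^ 2 := by
                rw [← pow_add]
                congr 2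
                omega
        calc wd n0 l n * wd n0 l m * ((∑ x ∈ S, mz (n + x) * mz (m + x)) ^ I.card * s ^ (k - I.card))
            ≤ wd n0 l n * wd n0 l m * (s ^ (k - 2) * (∑ x ∈ S, mz (n + x) * mz (m + x)) ^ 2) :=
              mul_le_mul_of_nonneg_left h2 hw
          _ = _ := by ring
    -- expand the square
    have e3 : L (fun n => L (fun m => s ^ (k - 2) * (wd n0 l n * wd n0 l m *
          (∑ x ∈ S, mz (n + x) * mz (m + x)) ^ 2))) =
        s ^ (k - 2) * ∑ x ∈ S, ∑ y ∈ S, (L (fun n => wd n0 l n * (mz (n + x) * mz (n + y)))) ^ 2 := by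
      have e4 : ∀ n, L (fun m => s ^ (k - 2) * (wd n0 l n * wd n0 l m *
          (∑ x ∈ S, mz (n + x) * mz (m + x)) ^ 2)) =
          s ^ (k - 2) * L (fun m => wd n0 l n * wd n0 l m *
          (∑ x ∈ S, mz (n + x) * mz (m + x)) ^ 2) := fun n => mo_mul L _ _
      rw [show (fun n => L (fun m => s ^ (k - 2) * (wd n0 l n * wd n0 l m *
          (∑ x ∈ S, mz (n + x) * mz (m + x)) ^ 2))) = _ from funext e4, mo_mul]
      congr 1
      rw [Finset.sum_congr rfl fun x _ => Finset.sum_congr rfl fun y _ => mo_sq L _,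
        Finset.sum_congr rfl fun x _ => (mo_sum L S _).symm, ← mo_sum]
      congr 1
      funext n
      rw [Finset.sum_congr rfl fun x _ => (mo_sum L S _).symm, ← mo_sum]
      congr 1
      funext m
      rw [sq, Finset.sum_mul_sum, Finset.mul_sum]
      refine Finset.sum_congr rfl fun x _ => ?_
      rw [Finset.mul_sum]
      refine Finset.sum_congr rfl fun y _ => ?_
      ring
    have e5 : ∀ x ∈ S, ∑ y ∈ S, (L (fun n => wd n0 l n * (mz (n + x) * mz (n + y)))) ^ 2 =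
        (L (fun n => wd n0 l n)) ^ 2 := by
      intro x hx
      rw [Finset.sum_eq_single x]
      · rw [mo_diag L n0 l x hx]
      · intro y hy hyx
        rw [word_two hL n0 l hn0 x y hx hy (Ne.symm hyx)]
        norm_num
      · intro h
        exact absurd hx h
    rw [e1]
    refine e2.trans ?_
    rw [e3, Finset.sum_congr rfl e5, Finset.sum_const, nsmul_eq_mul]
    have hk : k - 1 = (k - 2) + 1 := by omega
    rw [hk, pow_succ]
    exact le_of_eq (by ring)

end Pool.Agent.Lib.TU2
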