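import Pool.Agent.Lib.TU2.Exp
import Pool.Agent.Lib.TU2.Energy
import Pool.Agent.Lib.TU2.PCirc
import Pool.Agent.Lib.TU.Decr
import Pool.Agent.Lib.TU.MrP

/-!
# TU2 / PTwo (row TA, about 300 lines): one- and two-point correlations of `λ` in residue classes

STATEMENTS: below, verbatim. `two_ap` is Two.lean (helper18, landed) with a residue class: COPY that file.

PROOF of `one_ap`. The function `n ↦ [Q ∣ n - u] λ(n + b)` may be replaced by its shifts by `Q z` (`shiftz`), so its mean is `L ([Q ∣ n - u] (1/Z) ∑_{z<Z} λ(n + b + Q z))`, in absolute value at most `(1/Z) L |∑_{z<Z} λ(n + b + Q z)| ≤ η` by `mr_prog` (and `shiftz` by `b`), for every `η > 0`.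
PROOF of `two_ap`. By `shiftz` (by `-b` or by `-c`) it is enough to treat `c = L ([Q ∣ n - u] λ(n) λ(n+h))`, `h ≥ 1` natural, all `u`. Write `ψ_v(n) = [Q ∣ n - v]`. Let `0 < ε ≤ 1`.
(1) For a prime `p > Q` (so coprime to `Q`): `F_p n = ψ_{pu}(n) λ(n) λ(n + p h)`; `L (n ↦ F_p n * (if p ∣ n then p else 0)) = c` (`hL.dil`, `Q ∣ p m - p u ↔ Q ∣ m - u`, `λ(p m) λ(p m + p h) = λ(m) λ(m + h)`).
`decrement hL ξ (h+1) ε hε (max H1 (max K0 (2 Q + 2)))` with `ξ n = (SignType.sign (lam n), res Q n)` in `SignType × Fin (Q + 1)` (`res_eq_iff` in TU/Res.lean: `res Q m = res Q n ↔ Q ∣ m - n`): `|L F_p - c| ≤ ε` for `p ∈ G`; all `p ∈ G` are `> H/2 ≥ Q`.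
(2) Pigeonhole: a class `b` mod `Q` with `G_b = {p ∈ G : p ≡ b (Q)}`, `|G| ≤ Q |G_b|`. For `p ∈ G_b`, `ψ_{pu} = ψ_{bu}`. `x n = ψ_{bu}(n) λ(n)`, `y = λ`. `|G_b| |c| ≤ |G_b| ε + |∑_{p ∈ G_b} L (x(n) λ(n + h p))|`, and `K ∑_p L (x(n) λ(n+hp)) = L (n ↦ ∑_p ∑_{j<K} x(n+j) λ(n+j+hp))` (`shift_nat`).
(3) `circle2 G_b H h K` with `ε`, `K = J H`, applied to `j ↦ x(n + j)`, `j ↦ λ(n + j)` for each `n`; for `ξ ∈ Ξ`: `L |∑_j λ(n+j) cos(..)| ≤ η K` and the same for `sin` (`mr_exp`, as in Two.lean). `|Ξ| (ε |G_b|)⁴ ≤ 2 K addE G_b ≤ 2 K addE (PP H)` (monotone in the set), `addE (PP H) H ≤ C |PP H|⁴ ≤ C (2 Q |G_b|)⁴` (`energy` for `G = PP H`),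
so `|Ξ| ≤ 2 J C (2 Q)⁴/ε⁴`. `|c| ≤ ε + h/J + ε + |Ξ| η ≤ 4 ε` for `J = ⌈h/ε⌉₊ + h`, `η = ε⁵/(2 J C (2 Q)⁴)`. As `ε` is arbitrary, `c = 0`.
-/

set_option autoImplicit false

open Finset

namespace Pool.Agent.Lib.TU2

open Pool.Agent.Lib.TU

private theorem pt_lam_bd : Bd lam := ⟨1, lam_abs_le⟩

private theorem pt_vals (n : ℤ) : lam n = 1 ∨ lam n = -1 ∨ lam n = 0 := by
  by_cases h : n = 0
  · rw [h]; exact Or.inr (Or.inr lam_zero)
  · rcases lam_cases h with h | h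
    · exact Or.inl h
    · exact Or.inr (Or.inl h)

private theorem pt_sign {x y : ℤ} (h : SignType.sign (lam x) = SignType.sign (lam y)) : lam x = lam y := by
  rcases pt_vals x with h1 | h1 | h1 <;> rcases pt_vals y with h2 | h2 | h2 <;> rw [h1, h2] at h ⊢ <;> simp at h

open Classical in
/-- the indicator function of a residue class -/
private noncomputable def ch (Q : ℕ) (v n : ℤ) : ℝ := if (Q : ℤ) ∣ n - v then 1 else 0

private theorem ch_abs (Q : ℕ) (v n : ℤ) : |ch Q v n| ≤ 1 := by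
  unfold ch
  split_ifs <;> simp

private theorem ch_bd (Q : ℕ) (v : ℤ) : Bd (ch Q v) := ⟨1, ch_abs Q v⟩

private theorem ch_congr {Q : ℕ} {v n v' n' : ℤ} (h : (Q : ℤ) ∣ n - v ↔ (Q : ℤ) ∣ n' - v') : ch Q v n = ch Q v' n' := by
  unfold ch
  simp only [h]

private theorem ch_mul (Q : ℕ) (v n : ℤ) (x : ℝ) [Decidable ((Q : ℤ) ∣ n - v)] :
    (if (Q : ℤ) ∣ n - v then x else 0) = ch Q v n * x := by
  unfold ch
  by_cases h : (Q : ℤ) ∣ n - v
  · rw [if_pos h, if_pos h, one_mul]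
  · rw [if_neg h, if_neg h, zero_mul]

/-- shifting by a multiple of the modulus, or congruent classes -/
private theorem ch_shift {Q : ℕ} {v n v' n' : ℤ} (h : (Q : ℤ) ∣ (n' - v') - (n - v)) : ch Q v n = ch Q v' n' := by
  refine ch_congr ⟨fun h1 => ?_, fun h1 => ?_⟩
  · have := dvd_add h h1
    rwa [sub_add_cancel] at this
  · have := dvd_sub h1 h
    rwa [sub_sub_cancel] at this

private theorem pt_one {L : (ℤ → ℝ) →ₗ[ℝ] ℝ} (hL : IsMean L) (Q : ℕ) (hQ : 0 < Q) (u b : ℤ) (η : ℝ) (hη : 0 < η) :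
    |L (fun n => ch Q u n * lam (n + b))| ≤ η := by
  obtain ⟨Z0, hZ0⟩ := mr_prog hL Q hQ η hη
  set Z : ℕ := Z0 + 1 with hZ
  have hZr : (0 : ℝ) < Z := by
    have : 0 < Z := Nat.succ_pos _
    exact_mod_cast this
  have hfb : Bd (fun n => ch Q u n * lam (n + b)) := (ch_bd Q u).mul (pt_lam_bd.comp fun n => n + b)
  have h1 : (Z : ℝ) * L (fun n => ch Q u n * lam (n + b)) =
      L (fun n => ch Q u n * ∑ z ∈ range Z, lam (n + b + Q * z)) := by
    have e1 : (fun n => ch Q u n * ∑ z ∈ range Z, lam (n + b + Q * z)) =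
        fun n => ∑ z ∈ range Z, ch Q u n * lam (n + b + Q * z) := by
      funext n
      rw [mul_sum]
    rw [e1, L_sum]
    have e2 : ∀ z ∈ range Z, L (fun n : ℤ => ch Q u n * lam (n + b + Q * z)) = L (fun n => ch Q u n * lam (n + b)) := by
      intro z _
      rw [← hL.shiftz hfb ((Q : ℤ) * z)]
      congr 1
      funext n
      have e3 : ch Q u n = ch Q u (n + (Q : ℤ) * z) := ch_shift ⟨z, by ring⟩
      rw [e3]
      congr 2
      ring
    rw [sum_congr rfl e2, sum_const, card_range, nsmul_eq_mul]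
  have hSb : Bd (fun x : ℤ => ∑ z ∈ range Z, lam (x + Q * z)) :=
    Bd.sum (range Z) fun z _ => pt_lam_bd.comp fun x => x + Q * z
  have h2 : |L (fun n => ch Q u n * ∑ z ∈ range Z, lam (n + b + Q * z))| ≤ η * Z := by
    have hb : Bd (fun n : ℤ => ∑ z ∈ range Z, lam (n + b + Q * z)) := hSb.comp fun n => n + b
    refine (hL.abs_le_abs ((ch_bd Q u).mul hb)).trans ?_
    have h3 : L (fun n => |ch Q u n * ∑ z ∈ range Z, lam (n + b + Q * z)|) ≤
        L (fun n => |∑ z ∈ range Z, lam (n + b + Q * z)|) := by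
      refine hL.mono ((ch_bd Q u).mul hb).abs hb.abs fun n => ?_
      rw [abs_mul]
      exact mul_le_of_le_one_left (abs_nonneg _) (ch_abs Q u n)
    refine h3.trans ?_
    have h4 := hL.shiftz hSb.abs b
    rw [h4]
    exact hZ0 Z (Nat.le_succ _)
  rw [← h1, abs_mul, abs_of_pos hZr, mul_comm] at h2
  exact le_of_mul_le_mul_right h2 hZr

open Classical in
theorem one_ap {L : (ℤ → ℝ) →ₗ[ℝ] ℝ} (hL : IsMean L) (Q : ℕ) (hQ : 0 < Q) (u b : ℤ) :
    L (fun n => if (Q : ℤ) ∣ n - u then lam (n + b) else 0) = 0 := by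
  simp only [ch_mul]
  refine abs_nonpos_iff.1 (le_of_forall_pos_le_add fun ε hε => ?_)
  rw [zero_add]
  exact pt_one hL Q hQ u b ε hε

/-- step (1) -/
private theorem pt_prime {L : (ℤ → ℝ) →ₗ[ℝ] ℝ} (hL : IsMean L) (Q h p : ℕ) (hp : p.Prime) (hc : IsCoprime (Q : ℤ) (p : ℤ)) (u : ℤ) :
    L (fun n => (ch Q (p * u) n * (lam n * lam (n + h * p))) * ((if (p : ℤ) ∣ n then (p : ℝ) else 0) - 1)) =
      L (fun n => ch Q u n * (lam n * lam (n + h))) - L (fun n => ch Q (p * u) n * (lam n * lam (n + h * p))) := by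
  classical
  have hp0 : 0 < p := hp.pos
  have hpr : (p : ℝ) ≠ 0 := by exact_mod_cast hp0.ne'
  have hFb : Bd (fun n : ℤ => ch Q (p * u) n * (lam n * lam (n + h * p))) :=
    (ch_bd Q _).mul (pt_lam_bd.mul (pt_lam_bd.comp fun n => n + h * p))
  have h2 : (fun n : ℤ => (ch Q (p * u) n * (lam n * lam (n + h * p))) * ((if (p : ℤ) ∣ n then (p : ℝ) else 0) - 1)) =
      fun n => (fun n => (p : ℝ) * (fun n => if (p : ℤ) ∣ n then ch Q (p * u) n * (lam n * lam (n + h * p)) else 0) n) n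
        - ch Q (p * u) n * (lam n * lam (n + h * p)) := by
    ext n
    by_cases h3 : (p : ℤ) ∣ n
    · simp only [if_pos h3]; ring
    · simp only [if_neg h3]; ring
  rw [h2, L_sub, L_mul, pr_mul_if hL hFb hp0]
  have h4 : (fun n : ℤ => ch Q (p * u) (p * n) * (lam (p * n) * lam (p * n + h * p))) =
      fun n => ch Q u n * (lam n * lam (n + h)) := by
    ext n
    have h5 : (p : ℤ) * n + h * p = p * (n + h) := by ring
    have h6 : ch Q (p * u) (p * n) = ch Q u n := by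
      refine ch_congr ?_
      rw [← mul_sub]
      exact ⟨fun h7 => hc.dvd_of_dvd_mul_left h7, fun h7 => Dvd.dvd.mul_left h7 _⟩
    rw [h5, h6, lam_mul, lam_mul, lam_prime hp]
    ring
  rw [h4]
  congr 1
  field_simp

private theorem pt_addE {G G' : Finset ℕ} (h : G ⊆ G') : addE G ≤ addE G' := by
  unfold addE
  exact card_le_card (filter_subset_filter _ (product_subset_product (product_subset_product h h)
    (product_subset_product h h)))

private theorem pt_bound {L : (ℤ → ℝ) →ₗ[ℝ] ℝ} (hL : IsMean L) (Q : ℕ) (hQ : 0 < Q) (u : ℤ) (h : ℕ) (hh : 0 < h) (ε : ℝ) (hε : 0 < ε) :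
    |L (fun n => ch Q u n * (lam n * lam (n + h)))| ≤ 5 * ε := by
  classical
  have hQr : (0 : ℝ) < Q := by exact_mod_cast hQ
  obtain ⟨C, hC, H1, hE⟩ := energy
  set J : ℕ := ⌈(h : ℝ) / ε⌉₊ + h with hJ
  have hJ1 : 1 ≤ J := by omega
  have hJh : h ≤ J := by omega
  have hJr : (0 : ℝ) < J := by exact_mod_cast hJ1
  have hJε : (h : ℝ) ≤ ε * J := by
    have h1 : (h : ℝ) / ε ≤ (J : ℝ) := by
      refine (Nat.le_ceil _).trans ?_
      rw [hJ]; push_cast
      have : (0 : ℝ) ≤ (h : ℝ) := Nat.cast_nonneg h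
      linarith
    rw [div_le_iff₀ hε] at h1
    linarith
  obtain ⟨D, hD⟩ : ∃ D : ℝ, D = 4 * J * C * (2 * Q) ^ 4 := ⟨_, rfl⟩
  have hD0 : 0 < D := by rw [hD]; positivity
  obtain ⟨η, hη⟩ : ∃ η : ℝ, η = ε ^ 5 / D := ⟨_, rfl⟩
  have hη0 : 0 < η := by rw [hη]; positivity
  obtain ⟨K0, hK0⟩ := mr_exp hL η hη0
  set ξ : ℤ → SignType × Fin (Q + 1) := fun m => (SignType.sign (lam m), res Q m) with hξ
  obtain ⟨H, hH, G, hG, hGc, hGp⟩ := decrement hL ξ (h + 1) ε hε (max H1 (max K0 (2 * Q + 2)))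
  have hH1 : H1 ≤ H := (le_max_left _ _).trans hH
  have hHK : K0 ≤ H := (le_max_left _ _).trans ((le_max_right _ _).trans hH)
  have hHQ : 2 * Q + 2 ≤ H := (le_max_right _ _).trans ((le_max_right _ _).trans hH)
  have hH2 : 2 ≤ H := by omega
  have hHr : (0 : ℝ) < H := by
    have : 0 < H := by omega
    exact_mod_cast this
  -- `G` is not empty
  have hGpos : 0 < G.card := by
    obtain ⟨p, hp, hp1, hp2⟩ := Nat.exists_prime_lt_and_le_two_mul (H / 2) (by omega)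
    have hpP : p ∈ PP H := by
      rw [PP, Finset.mem_filter, Finset.mem_Ioc]
      exact ⟨⟨hp1, by omega⟩, hp⟩
    have h1 : 0 < (PP H).card := Finset.card_pos.2 ⟨p, hpP⟩
    omega
  -- pigeonhole
  obtain ⟨β, -, hβ⟩ := Finset.exists_le_card_fiber_of_nsmul_le_card_of_maps_to (s := G) (t := range Q) (f := fun p => p % Q)
    (b := (G.card : ℝ) / Q) (fun p _ => mem_range.2 (Nat.mod_lt _ hQ)) ⟨0, mem_range.2 hQ⟩ (by
      rw [card_range, nsmul_eq_mul]
      exact le_of_eq (by field_simp))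
  set Gb : Finset ℕ := G.filter fun p => p % Q = β with hGb
  rw [div_le_iff₀ hQr] at hβ
  have hGbG : Gb ⊆ G := filter_subset _ _
  have hgr : (0 : ℝ) < Gb.card := by
    have h1 : (0 : ℝ) < G.card := by exact_mod_cast hGpos
    by_contra hcon
    have h2 : (Gb.card : ℝ) * Q ≤ 0 := mul_nonpos_of_nonpos_of_nonneg (not_lt.1 hcon) hQr.le
    linarith
  set K : ℕ := J * H with hK
  have hKpos : 0 < K := by
    rw [hK]
    exact Nat.mul_pos hJ1 (by omega)
  have hKr : (0 : ℝ) < K := by exact_mod_cast hKpos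
  have hKH : (K : ℝ) = J * H := by rw [hK]; push_cast; ring
  have hK0K : K0 ≤ K := by
    rw [hK]
    calc K0 ≤ H := hHK
      _ = 1 * H := (one_mul _).symm
      _ ≤ J * H := Nat.mul_le_mul_right _ hJ1
  set c : ℝ := L (fun n => ch Q u n * (lam n * lam (n + h))) with hc
  -- step (1)
  have hprime : ∀ p ∈ G, p.Prime ∧ p ≤ H ∧ Q < p := by
    intro p hp
    have h1 := hG hp
    rw [PP, Finset.mem_filter, Finset.mem_Ioc] at h1
    exact ⟨h1.2, h1.1.2, by omega⟩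
  have hone : ∀ p ∈ G, |c - L (fun n => ch Q (p * u) n * (lam n * lam (n + h * p)))| ≤ ε := by
    intro p hp
    obtain ⟨hpp, hpH, hpQ⟩ := hprime p hp
    have hcop : IsCoprime (Q : ℤ) (p : ℤ) := by
      rw [Nat.isCoprime_iff_coprime]
      exact (Nat.coprime_of_lt_prime hQ.ne' hpQ hpp).symm
    have h1 := hGp p hp (fun n => ch Q (p * u) n * (lam n * lam (n + h * p))) (fun n => by
      rw [abs_mul, abs_mul]
      exact mul_le_one₀ (ch_abs _ _ _) (by positivity) (mul_le_one₀ (lam_abs_le _) (abs_nonneg _) (lam_abs_le _)))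
        (fun m n hmn => by
        have hmn0 := hmn 0 (by
          have : 0 < H := by omega
          positivity)
        have hmn1 := hmn (h * p) (by
          calc h * p ≤ h * H := Nat.mul_le_mul_left _ hpH
            _ < (h + 1) * H := by
              have : 0 < H := by omega
              nlinarith)
        rw [hξ] at hmn0 hmn1
        simp only [Prod.mk.injEq] at hmn0 hmn1
        have e0 := pt_sign hmn0.1
        have e1 := pt_sign hmn1.1
        have e2 := (res_eq_iff hQ _ _).1 hmn0.2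
        push_cast at e0 e1 e2
        rw [add_zero, add_zero] at e0 e2
        have e3 : ch Q (p * u) m = ch Q (p * u) n := by
          refine ch_shift ?_
          have e4 : (n - (p : ℤ) * u) - (m - (p : ℤ) * u) = -(m - n) := by ring
          rw [e4, dvd_neg]
          exact e2
        show ch Q (p * u) m * (lam m * lam (m + h * p)) = ch Q (p * u) n * (lam n * lam (n + h * p))
        rw [e0, e1, e3])
    rw [pt_prime hL Q h p hpp hcop u] at h1
    exact h1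
  obtain ⟨v, hv⟩ : ∃ v : ℤ, v = β * u := ⟨_, rfl⟩
  have hchv : ∀ p ∈ Gb, ∀ n : ℤ, ch Q (p * u) n = ch Q v n := by
    intro p hp n
    rw [hGb, mem_filter] at hp
    refine ch_shift ?_
    have e4 : (n - v) - (n - (p : ℤ) * u) = ((p : ℤ) - β) * u := by
      rw [hv]
      ring
    rw [e4]
    refine Dvd.dvd.mul_right ?_ _
    have e5 : ((p % Q : ℕ) : ℤ) = (p : ℤ) % Q := by push_cast; rfl
    rw [← hp.2, e5]
    exact Int.dvd_self_sub_emod
  have hone' : ∀ p ∈ Gb, |c - L (fun n => (ch Q v n * lam n) * lam (n + h * p))| ≤ ε := by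
    intro p hp
    have h1 := hone p (hGbG hp)
    have e1 : (fun n : ℤ => ch Q (p * u) n * (lam n * lam (n + h * p))) = fun n => (ch Q v n * lam n) * lam (n + h * p) := by
      funext n
      rw [hchv p hp n, mul_assoc]
    rw [e1] at h1
    exact h1
  -- step (2)
  have hxb : Bd (fun n : ℤ => ch Q v n * lam n) := (ch_bd Q v).mul pt_lam_bd
  have hx1 : ∀ n : ℤ, |ch Q v n * lam n| ≤ 1 := fun n => by
    rw [abs_mul]
    exact mul_le_one₀ (ch_abs _ _ _) (abs_nonneg _) (lam_abs_le _)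
  have hshift : ∀ p ∈ Gb, (K : ℝ) * L (fun n => (ch Q v n * lam n) * lam (n + h * p)) =
      L (fun n => ∑ j ∈ range K, (ch Q v (n + j) * lam (n + j)) * lam (n + (j + h * p))) := by
    intro p _
    rw [L_sum]
    have h1 : ∀ j ∈ range K, L (fun n : ℤ => (ch Q v (n + j) * lam (n + j)) * lam (n + (j + h * p))) =
        L (fun n => (ch Q v n * lam n) * lam (n + h * p)) := by
      intro j _
      rw [← hL.shift_nat (hxb.mul (pt_lam_bd.comp fun n => n + h * p)) j]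
      congr 1
      ext n
      congr 2
      ring
    rw [Finset.sum_congr rfl h1, Finset.sum_const, Finset.card_range, nsmul_eq_mul]
  set T : ℤ → ℝ := fun n => ∑ p ∈ Gb, ∑ j ∈ range K, (ch Q v (n + j) * lam (n + j)) * lam (n + (j + h * p)) with hT
  have hTb : Bd T := by
    rw [hT]
    exact Bd.sum Gb fun p _ => Bd.sum (range K) fun j _ =>
      (hxb.comp fun n => n + j).mul (pt_lam_bd.comp fun n => n + (j + h * p))
  have hLT : L T = ∑ p ∈ Gb, (K : ℝ) * L (fun n => (ch Q v n * lam n) * lam (n + h * p)) := by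
    rw [hT, L_sum]
    exact Finset.sum_congr rfl fun p hp => (hshift p hp).symm
  -- step (3)
  obtain ⟨Ξ, hΞ, hcirc⟩ := circle2 Gb H h K (fun p hp => ⟨(hprime p (hGbG hp)).1.pos, (hprime p (hGbG hp)).2.1⟩) hh hKpos
    (by rw [hK]; exact Nat.mul_le_mul_right _ hJh) ε hε
  set A : ℕ → ℤ → ℝ := fun ζ n => ∑ j ∈ range K, lam (n + j) * Real.cos (2 * Real.pi * ((ζ : ℝ) / (2 * K) * j)) with hA
  set B : ℕ → ℤ → ℝ := fun ζ n => ∑ j ∈ range K, lam (n + j) * Real.sin (2 * Real.pi * ((ζ : ℝ) / (2 * K) * j)) with hB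
  have hAb : ∀ ζ, Bd (A ζ) := fun ζ => by
    rw [hA]
    exact Bd.sum (range K) fun j _ => (pt_lam_bd.comp fun n => n + j).mul (Bd.const _)
  have hBb : ∀ ζ, Bd (B ζ) := fun ζ => by
    rw [hB]
    exact Bd.sum (range K) fun j _ => (pt_lam_bd.comp fun n => n + j).mul (Bd.const _)
  have hA2 : ∀ ζ, L (fun n => |A ζ n|) ≤ η * K := by
    intro ζ
    have h1 := hK0 K hK0K ((ζ : ℝ) / (2 * K)) 0
    simpa using h1
  have hB2 : ∀ ζ, L (fun n => |B ζ n|) ≤ η * K := by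
    intro ζ
    have h1 := hK0 K hK0K ((ζ : ℝ) / (2 * K)) (-1 / 4)
    have h2 : ∀ j : ℕ, Real.cos (2 * Real.pi * ((ζ : ℝ) / (2 * K) * j + -1 / 4)) =
        Real.sin (2 * Real.pi * ((ζ : ℝ) / (2 * K) * j)) := by
      intro j
      rw [← Real.cos_sub_pi_div_two]
      congr 1
      ring
    simp_rw [h2] at h1
    exact h1
  have hpt : ∀ n, |T n| ≤ (Gb.card : ℝ) * (h * H + ε * K + (1 / 2) * ∑ ζ ∈ Ξ, (|A ζ n| + |B ζ n|)) := by
    intro n
    have h1 := hcirc (fun i => ch Q v (n + i) * lam (n + i)) (fun i => lam (n + i)) (fun i => hx1 _) (fun i => lam_abs_le _)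
    exact h1
  set R : ℤ → ℝ := fun n => ∑ ζ ∈ Ξ, (|A ζ n| + |B ζ n|) with hR
  have hRb : Bd R := by
    rw [hR]
    exact Bd.sum Ξ fun ζ _ => Bd.add (hAb ζ).abs (hBb ζ).abs
  have hLR : L R ≤ Ξ.card * (2 * (η * K)) := by
    rw [hR, L_sum]
    rw [← nsmul_eq_mul]
    refine Finset.sum_le_card_nsmul _ _ _ fun ζ _ => ?_
    have h1 : L (fun n => |A ζ n| + |B ζ n|) = L (fun n => |A ζ n|) + L (fun n => |B ζ n|) := L_add _ _
    rw [h1]
    linarith [hA2 ζ, hB2 ζ]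
  have hLT2 : |L T| ≤ (Gb.card : ℝ) * (h * H + ε * K + (1 / 2) * L R) := by
    refine (hL.abs_le_abs hTb).trans ?_
    have h1 : L (fun n => |T n|) ≤ L (fun n => (Gb.card : ℝ) * (fun n => (h * H + ε * K : ℝ) + (fun n => (1 / 2) * R n) n) n) := by
      refine hL.mono hTb.abs ?_ fun n => hpt n
      exact (Bd.const _).mul ((Bd.const _).add ((Bd.const _).mul hRb))
    rw [Pool.Agent.Lib.TU.L_mul] at h1
    have h2 : L (fun n => (h * H + ε * K : ℝ) + (fun n => (1 / 2) * R n) n) =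
        (h * H + ε * K : ℝ) + (1 / 2) * L R := by
      rw [← Pool.Agent.Lib.TU.L_mul (L := L) (1 / 2 : ℝ) R, ← hL.const (h * H + ε * K : ℝ), ← L_add, hL.const]
    rw [h2] at h1
    exact h1
  -- the size of `Ξ`
  have hΞη : (Ξ.card : ℝ) * η ≤ ε / 2 := by
    have h1 := hE H hH1 (PP H) (Subset.refl _) (by omega)
    have h0 : (addE Gb : ℝ) ≤ addE (PP H) := by exact_mod_cast pt_addE (hGbG.trans hG)
    have hPP : ((PP H).card : ℝ) ≤ 2 * Q * Gb.card := by
      have h5 : ((PP H).card : ℝ) ≤ 2 * G.card := by exact_mod_cast hGc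
      linarith
    have hPP4 : ((PP H).card : ℝ) ^ 4 ≤ (2 * Q * Gb.card) ^ 4 := pow_le_pow_left₀ (Nat.cast_nonneg _) hPP 4
    have hg4 : (0 : ℝ) < (Gb.card : ℝ) ^ 4 := by positivity
    have h2 : (Ξ.card : ℝ) * ε ^ 4 * H * (Gb.card : ℝ) ^ 4 ≤ (2 * K * C * (2 * Q) ^ 4) * (Gb.card : ℝ) ^ 4 := by
      calc (Ξ.card : ℝ) * ε ^ 4 * H * (Gb.card : ℝ) ^ 4 = ((Ξ.card : ℝ) * (ε * Gb.card) ^ 4) * H := by ring
        _ ≤ (2 * K * (addE Gb : ℝ)) * H := mul_le_mul_of_nonneg_right hΞ hHr.le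
        _ ≤ (2 * K * (addE (PP H) : ℝ)) * H :=
            mul_le_mul_of_nonneg_right (mul_le_mul_of_nonneg_left h0 (by positivity)) hHr.le
        _ = 2 * K * ((addE (PP H) : ℝ) * H) := by ring
        _ ≤ 2 * K * (C * ((PP H).card : ℝ) ^ 4) := mul_le_mul_of_nonneg_left h1 (by positivity)
        _ ≤ 2 * K * (C * (2 * Q * Gb.card) ^ 4) :=
            mul_le_mul_of_nonneg_left (mul_le_mul_of_nonneg_left hPP4 hC.le) (by positivity)
        _ = (2 * K * C * (2 * Q) ^ 4) * (Gb.card : ℝ) ^ 4 := by ring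
    have h3 : (Ξ.card : ℝ) * ε ^ 4 * H ≤ 2 * K * C * (2 * Q) ^ 4 := le_of_mul_le_mul_right h2 hg4
    rw [hKH] at h3
    have h4 : ((Ξ.card : ℝ) * ε ^ 4) * H ≤ (2 * J * C * (2 * Q) ^ 4) * H := by
      calc ((Ξ.card : ℝ) * ε ^ 4) * H ≤ 2 * (J * H) * C * (2 * Q) ^ 4 := h3
        _ = (2 * J * C * (2 * Q) ^ 4) * H := by ring
    have h5 : (Ξ.card : ℝ) * ε ^ 4 ≤ 2 * J * C * (2 * Q) ^ 4 := le_of_mul_le_mul_right h4 hHr
    rw [hη, ← mul_div_assoc, div_le_iff₀ hD0, hD]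
    calc (Ξ.card : ℝ) * ε ^ 5 = ((Ξ.card : ℝ) * ε ^ 4) * ε := by ring
      _ ≤ (2 * J * C * (2 * Q) ^ 4) * ε := mul_le_mul_of_nonneg_right h5 hε.le
      _ = ε / 2 * (4 * J * C * (2 * Q) ^ 4) := by ring
  -- the end
  have hsum : (Gb.card : ℝ) * c = (∑ p ∈ Gb, (c - L (fun n => (ch Q v n * lam n) * lam (n + h * p)))) +
      ∑ p ∈ Gb, L (fun n => (ch Q v n * lam n) * lam (n + h * p)) := by
    rw [← Finset.sum_add_distrib]
    simp
  have h1 : |∑ p ∈ Gb, (c - L (fun n => (ch Q v n * lam n) * lam (n + h * p)))| ≤ (Gb.card : ℝ) * ε := by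
    refine (Finset.abs_sum_le_sum_abs _ _).trans ?_
    rw [← nsmul_eq_mul]
    exact Finset.sum_le_card_nsmul _ _ _ hone'
  have h2 : (K : ℝ) * |∑ p ∈ Gb, L (fun n => (ch Q v n * lam n) * lam (n + h * p))| ≤
      (Gb.card : ℝ) * (h * H + ε * K + (1 / 2) * L R) := by
    rw [← abs_of_pos hKr, ← abs_mul, Finset.mul_sum, ← hLT, abs_of_pos hKr]
    exact hLT2
  have h3 : (1 / 2) * L R ≤ (Ξ.card : ℝ) * η * K := by
    calc (1 / 2) * L R ≤ (1 / 2) * (Ξ.card * (2 * (η * K))) :=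
          mul_le_mul_of_nonneg_left hLR (by positivity)
      _ = (Ξ.card : ℝ) * η * K := by ring
  have h4 : (h : ℝ) * H ≤ ε * K := by
    rw [hKH]
    calc (h : ℝ) * H ≤ (ε * J) * H := mul_le_mul_of_nonneg_right hJε hHr.le
      _ = ε * (J * H) := by ring
  have h5 : (Ξ.card : ℝ) * η * K ≤ ε / 2 * K := mul_le_mul_of_nonneg_right hΞη hKr.le
  have h6 : (K : ℝ) * |∑ p ∈ Gb, L (fun n => (ch Q v n * lam n) * lam (n + h * p))| ≤ K * ((Gb.card : ℝ) * (3 * ε)) := by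
    refine h2.trans ?_
    calc (Gb.card : ℝ) * (h * H + ε * K + (1 / 2) * L R) ≤ (Gb.card : ℝ) * (ε * K + ε * K + ε / 2 * K) :=
          mul_le_mul_of_nonneg_left (by linarith) hgr.le
      _ ≤ (Gb.card : ℝ) * (3 * ε * K) := by
          refine mul_le_mul_of_nonneg_left ?_ hgr.le
          nlinarith
      _ = K * ((Gb.card : ℝ) * (3 * ε)) := by ring
  have h7 := le_of_mul_le_mul_left h6 hKr
  have h8 : (Gb.card : ℝ) * |c| ≤ (Gb.card : ℝ) * (5 * ε) := by
    have h9 : (Gb.card : ℝ) * |c| = |(Gb.card : ℝ) * c| := by rw [abs_mul, abs_of_pos hgr]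
    rw [h9, hsum]
    refine (abs_add_le _ _).trans ?_
    nlinarith
  exact le_of_mul_le_mul_left h8 hgr

private theorem pt_pos {L : (ℤ → ℝ) →ₗ[ℝ] ℝ} (hL : IsMean L) (Q : ℕ) (hQ : 0 < Q) (u b : ℤ) (h : ℕ) (hh : 0 < h) :
    L (fun n => ch Q u n * (lam (n + b) * lam (n + (b + h)))) = 0 := by
  have h1 : L (fun n => ch Q (u + b) n * (lam n * lam (n + h))) = 0 := by
    refine abs_nonpos_iff.1 (le_of_forall_pos_le_add fun ε hε => ?_)
    have h1 := pt_bound hL Q hQ (u + b) h hh (ε / 5) (by positivity)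
    linarith
  rw [← h1, ← hL.shiftz ((ch_bd Q (u + b)).mul (pt_lam_bd.mul (pt_lam_bd.comp fun n => n + h))) b]
  congr 1
  funext n
  have e1 : ch Q u n = ch Q (u + b) (n + b) := ch_shift ⟨0, by ring⟩
  rw [e1, add_assoc]

open Classical in
theorem two_ap {L : (ℤ → ℝ) →ₗ[ℝ] ℝ} (hL : IsMean L) (Q : ℕ) (hQ : 0 < Q) (u b c : ℤ) (hbc : b ≠ c) :
    L (fun n => if (Q : ℤ) ∣ n - u then lam (n + b) * lam (n + c) else 0) = 0 := by
  simp only [ch_mul]
  rcases lt_or_gt_of_ne hbc with h | h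
  · obtain ⟨k, hk⟩ := Int.eq_ofNat_of_zero_le (sub_nonneg.2 h.le)
    have hk' : c = b + (k : ℤ) := by linarith
    have hk0 : 0 < k := by
      rcases Nat.eq_zero_or_pos k with h0 | h0
      · rw [h0] at hk'
        simp at hk'
        exact absurd hk'.symm hbc
      · exact h0
    rw [hk']
    exact pt_pos hL Q hQ u b k hk0
  · obtain ⟨k, hk⟩ := Int.eq_ofNat_of_zero_le (sub_nonneg.2 h.le)
    have hk' : b = c + (k : ℤ) := by linarith
    have hk0 : 0 < k := by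
      rcases Nat.eq_zero_or_pos k with h0 | h0
      · rw [h0] at hk'
        simp at hk'
        exact absurd hk' hbc
      · exact h0
    rw [hk']
    have h1 := pt_pos hL Q hQ u c k hk0
    simp only [mul_comm (lam (_ + c))] at h1
    exact h1

end Pool.Agent.Lib.TU2
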