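import Pool.Agent.Lib.TU2.PDef
import Pool.Agent.Lib.TU2.PTwo

/-!
# TU2 / PWord (row W2, about 220 lines): one- and two-point correlations on a word of squares vanish

STATEMENTS: below, verbatim.

PROOF. Let `B = {a}` or `{a, b}` in `spt n0 l`, `G n = wd n * ∏_{B} mz (n + a)`. Fix `y ≥ n0 + l`, `y ≥ 1`, `Q = ∏_{p ≤ y} p²`, `w n = 1` if for all `j < l`: (no prime `p ≤ y` has `p² ∣ n + j`) `↔ muz (n0 + j) ≠ 0`, and `0` otherwise; it depends only on `n` mod `Q`.
If `n ≥ 1` and no prime `p > y` has `p² ∣ n + j` for any `j < l`, then `wd n = w n` (`muz (m)² = 1` or `0` according as `m ≥ 1` is square-free: `ArithmeticFunction.moebius_sq`, `Nat.squarefree_iff_prime_squarefree`); and if `wd n = 1`, then `mz (n + a) = lam (n + a)` for `a ∈ spt n0 l` (square-free: `moebius = (-1)^cardFactors`, `lam` is the Liouville function).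
So `|G n - w n * ∏_B lam (n + a)| ≤ 1` on the set `n ≤ 0` (measure `0`, see MuL.lean, `pr_single`) or `∃ j < l, ∃ p > y, p² ∣ n + j` (measure at most `4 l/y`: `sq_tail` with `Q = 1`), and it is `0` elsewhere. Hence `|L G - L (w · ∏ lam)| ≤ 4 l/y`.
`w n * ∏_B lam (n + a) = ∑_{u < Q, w u = 1} [Q ∣ n - u] ∏_B lam (n + a)` (each `n` lies in exactly one class), so `L (w · ∏ lam) = 0` by `one_ap`, `two_ap`. So `|L G| ≤ 4 l/y` for all large `y`.
-/

set_option autoImplicit false

open Finset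

namespace Pool.Agent.Lib.TU2

open Pool.Agent.Lib.TU

private theorem bdInd35 (s : ℤ → Prop) [DecidablePred s] : Bd (fun n => if s n then (1 : ℝ) else 0) := by
  refine ⟨1, fun n => ?_⟩
  by_cases h : s n <;> simp [h]

/-- the nonpositive integers have measure zero -/
private theorem prNonpos35 {L : (ℤ → ℝ) →ₗ[ℝ] ℝ} (hL : IsMean L) : pr L (fun n => n ≤ 0) ≤ 0 := by
  classical
  have h := hL.dyad (fun n => if n ≤ 0 then (1 : ℝ) else 0) 0 0
    (bdInd35 fun n => n ≤ 0)
    (fun n => by split_ifs <;> norm_num)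
    (fun X _ => by
      rw [zero_mul]
      refine (Finset.sum_eq_zero fun n hn => ?_).le
      rw [mem_Ioc] at hn
      rw [if_neg]
      have : (0 : ℤ) < n := by exact_mod_cast (by omega : 0 < n)
      omega)
  rw [pr_def]
  rw [mul_zero] at h
  exact h

/-- on the word, the Möbius function is the Liouville function -/
private theorem wd_mul35 (n0 l : ℕ) (B : Finset ℕ) (hB : B ⊆ spt n0 l) (n : ℤ) :
    wd n0 l n * ∏ a ∈ B, mz (n + a) = wd n0 l n * ∏ a ∈ B, lam (n + a) := by
  by_cases h : 1 ≤ n ∧ ∀ j : ℕ, j < l → muz (n + j) ^ 2 = muz (n0 + j) ^ 2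
  · congr 1
    refine prod_congr rfl fun a ha => ?_
    have h1 := hB ha
    rw [spt, mem_filter, mem_range] at h1
    have h2 := h.2 a h1.1
    have h3 : muz (n + a) ≠ 0 := by
      intro h4
      rw [h4] at h2
      have h5 : muz ((n0 : ℤ) + a) ^ 2 = 0 := by rw [← h2]; norm_num
      exact h1.2 (pow_eq_zero_iff (by norm_num : (2 : ℕ) ≠ 0) |>.1 h5)
    have h4 : Squarefree ((n + a : ℤ).toNat) := by
      by_contra h5
      exact h3 (ArithmeticFunction.moebius_eq_zero_of_not_squarefree h5)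
    have h0 := h.1
    unfold mz muz lam
    rw [ArithmeticFunction.moebius_apply_of_squarefree h4, ArithmeticFunction.liouville_apply (by omega)]
    have h7 : (n + a : ℤ).toNat = (n + a : ℤ).natAbs := by omega
    rw [h7]
  · unfold wd
    rw [if_neg h, zero_mul, zero_mul]

private theorem prod_lam_le35 (B : Finset ℕ) (n : ℤ) : |∏ a ∈ B, lam (n + a)| ≤ 1 := by
  rw [abs_prod]
  exact prod_le_one (fun _ _ => abs_nonneg _) fun _ _ => lam_abs_le _

open Classical in
private theorem word_gen35 {L : (ℤ → ℝ) →ₗ[ℝ] ℝ} (hL : IsMean L) (n0 l : ℕ) (B : Finset ℕ)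
    (hB : B ⊆ spt n0 l)
    (hap : ∀ Q : ℕ, 0 < Q → ∀ u : ℤ, L (fun n => if (Q : ℤ) ∣ n - u then ∏ a ∈ B, lam (n + a) else 0) = 0) :
    L (fun n => wd n0 l n * ∏ a ∈ B, mz (n + a)) = 0 := by
  have hG : (fun n => wd n0 l n * ∏ a ∈ B, mz (n + a)) = fun n => wd n0 l n * ∏ a ∈ B, lam (n + a) :=
    funext fun n => wd_mul35 n0 l B hB n
  rw [hG]
  have key : ∀ y : ℕ, 1 ≤ y → |L (fun n => wd n0 l n * ∏ a ∈ B, lam (n + a))| ≤ l * (4 / y) := by
    intro y hy1
    set Q : ℕ := ∏ p ∈ (Finset.range (y + 1)).filter Nat.Prime, p ^ 2 with hQ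
    have hQ0 : 0 < Q := Finset.prod_pos fun p hp => pow_pos (Finset.mem_filter.1 hp).2.pos 2
    have hQd : ∀ p : ℕ, p.Prime → p ≤ y → p ^ 2 ∣ Q := fun p hp hpy =>
      Finset.dvd_prod_of_mem (fun p => p ^ 2) (Finset.mem_filter.2 ⟨Finset.mem_range.2 (by omega), hp⟩)
    have hQz : (0 : ℤ) < Q := by exact_mod_cast hQ0
    -- the local word
    set c : ℤ → ℝ := fun u => if ∀ j : ℕ, j < l →
      ((∀ p : ℕ, p.Prime → p ≤ y → ¬ ((p ^ 2 : ℕ) : ℤ) ∣ u + j) ↔ muz ((n0 : ℤ) + j) ≠ 0) then 1 else 0 with hc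
    set T : ℤ → ℝ := fun n => ∑ u ∈ range Q, c u * (if (Q : ℤ) ∣ n - u then ∏ a ∈ B, lam (n + a) else 0) with hT
    have hLT : L T = 0 := by
      rw [hT, L_sum]
      refine sum_eq_zero fun u _ => ?_
      rw [L_mul (L := L) (c u) (fun n => if (Q : ℤ) ∣ n - u then ∏ a ∈ B, lam (n + a) else 0), hap Q hQ0 u, mul_zero]
    have hcper : ∀ m n : ℤ, (Q : ℤ) ∣ n - m → c n = c m := by
      intro m n hd
      have h1 : ∀ (j : ℕ) (p : ℕ), p.Prime → p ≤ y → (((p ^ 2 : ℕ) : ℤ) ∣ n + j ↔ ((p ^ 2 : ℕ) : ℤ) ∣ m + j) := by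
        intro j p hp hpy
        have h2 : ((p ^ 2 : ℕ) : ℤ) ∣ n - m := dvd_trans (by exact_mod_cast hQd p hp hpy) hd
        rw [show n + (j : ℤ) = (n - m) + (m + j) by ring]
        exact dvd_add_right h2
      rw [hc]
      simp only
      refine if_congr (forall_congr' fun j => imp_congr_right fun _ => iff_congr (forall_congr' fun p =>
        imp_congr_right fun hp => imp_congr_right fun hpy => not_congr (h1 j p hp hpy)) Iff.rfl) rfl rfl
    have hTn : ∀ n, T n = c n * ∏ a ∈ B, lam (n + a) := by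
      intro n
      have h0 : 0 ≤ n % Q := Int.emod_nonneg _ hQz.ne'
      have h1 : n % Q < Q := Int.emod_lt_of_pos _ hQz
      have h2 : (((n % Q).toNat : ℕ) : ℤ) = n % Q := Int.toNat_of_nonneg h0
      have h3 : (Q : ℤ) ∣ n - ((n % Q).toNat : ℕ) := by
        rw [h2]
        exact Int.dvd_self_sub_emod
      rw [hT]
      simp only
      rw [sum_eq_single (n % Q).toNat]
      · rw [if_pos h3, hcper _ n h3]
      · intro v hv hne
        rw [if_neg, mul_zero]
        intro h4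
        apply hne
        have h5 : (Q : ℤ) ∣ ((n % Q).toNat : ℕ) - (v : ℤ) := by
          have := dvd_sub h4 h3
          rwa [show n - (v : ℤ) - (n - ((n % Q).toNat : ℕ)) = ((n % Q).toNat : ℕ) - (v : ℤ) by ring] at this
        rw [mem_range] at hv
        have h6 : (((n % Q).toNat : ℕ) : ℤ) < Q := by rw [h2]; exact h1
        have h7 : (v : ℤ) < Q := by exact_mod_cast hv
        have h8 : (((n % Q).toNat : ℕ) : ℤ) - (v : ℤ) = 0 := by
          refine Int.eq_zero_of_abs_lt_dvd h5 ?_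
          rw [abs_lt]
          constructor <;> omega
        omega
      · intro h4
        exfalso
        apply h4
        rw [mem_range]
        omega
    -- the exceptional set
    set E : ℤ → Prop := fun n => n ≤ 0 ∨ ∃ j ∈ Finset.range l, ∃ p : ℕ, p.Prime ∧ y < p ∧
      ((p ^ 2 : ℕ) : ℤ) ∣ ((1 : ℕ) : ℤ) * n + (j : ℤ) with hE
    have hgood : ∀ n, ¬ E n → wd n0 l n = c n := by
      intro n hn
      have hn1 : 1 ≤ n := by
        by_contra h
        exact hn (Or.inl (by omega))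
      have hn2 : ∀ j : ℕ, j < l → ∀ p : ℕ, p.Prime → y < p → ¬ ((p ^ 2 : ℕ) : ℤ) ∣ n + j := by
        intro j hj p hp hpy hd
        refine hn (Or.inr ⟨j, mem_range.2 hj, p, hp, hpy, ?_⟩)
        rwa [Nat.cast_one, one_mul]
      have h1 : ∀ j : ℕ, j < l → ((∀ p : ℕ, p.Prime → p ≤ y → ¬ ((p ^ 2 : ℕ) : ℤ) ∣ n + j) ↔ muz (n + j) ≠ 0) := by
        intro j hj
        have h2 : (((n + j : ℤ).toNat : ℕ) : ℤ) = n + j := Int.toNat_of_nonneg (by omega)
        unfold muz
        rw [ArithmeticFunction.moebius_ne_zero_iff_squarefree, Nat.squarefree_iff_prime_squarefree]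
        constructor
        · intro h p hp hd
          have h3 : ((p ^ 2 : ℕ) : ℤ) ∣ n + j := by
            rw [← h2, pow_two]
            exact_mod_cast hd
          rcases le_or_gt p y with hpy | hpy
          · exact h p hp hpy h3
          · exact hn2 j hj p hp hpy h3
        · intro h p hp _ hd
          refine h p hp ?_
          rw [← h2, pow_two] at hd
          exact_mod_cast hd
      have h2 : ∀ m : ℤ, muz m ^ 2 = if muz m ≠ 0 then 1 else 0 := by
        intro m
        unfold muz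
        by_cases h : Squarefree m.toNat
        · rw [ArithmeticFunction.moebius_sq_eq_one_of_squarefree h,
            if_pos (ArithmeticFunction.moebius_ne_zero_iff_squarefree.2 h)]
        · rw [ArithmeticFunction.moebius_eq_zero_of_not_squarefree h]
          simp
      have h3 : ∀ m k : ℤ, (muz m ^ 2 = muz k ^ 2 ↔ (muz m ≠ 0 ↔ muz k ≠ 0)) := by
        intro m k
        rw [h2 m, h2 k]
        by_cases h4 : muz m = 0 <;> by_cases h5 : muz k = 0 <;> simp [h4, h5]
      unfold wd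
      rw [hc]
      simp only
      refine if_congr ?_ rfl rfl
      constructor
      · rintro ⟨_, h4⟩ j hj
        rw [h1 j hj]
        exact (h3 _ _).1 (h4 j hj)
      · intro h4
        refine ⟨hn1, fun j hj => ?_⟩
        rw [h3, ← h1 j hj]
        exact h4 j hj
    have hwb : ∀ n, 0 ≤ wd n0 l n ∧ wd n0 l n ≤ 1 := by
      intro n
      unfold wd
      split_ifs <;> norm_num
    have hcb : ∀ n, 0 ≤ c n ∧ c n ≤ 1 := by
      intro n
      rw [hc]
      simp only
      split_ifs <;> norm_num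
    have hBdG : Bd (fun n => wd n0 l n * ∏ a ∈ B, lam (n + a)) := by
      refine Bd.mul ⟨1, fun n => ?_⟩ ⟨1, fun n => prod_lam_le35 B n⟩
      rw [abs_of_nonneg (hwb n).1]
      exact (hwb n).2
    have hBdT : Bd T := by
      have : T = fun n => c n * ∏ a ∈ B, lam (n + a) := funext hTn
      rw [this]
      refine Bd.mul ⟨1, fun n => ?_⟩ ⟨1, fun n => prod_lam_le35 B n⟩
      rw [abs_of_nonneg (hcb n).1]
      exact (hcb n).2
    have h1 : |L (fun n => wd n0 l n * ∏ a ∈ B, lam (n + a))| ≤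
        L (fun n => |wd n0 l n * ∏ a ∈ B, lam (n + a) - T n|) := by
      have h2 := hL.abs_le_abs (hBdG.sub hBdT)
      rw [L_sub, hLT, sub_zero] at h2
      exact h2
    have h2 : L (fun n => |wd n0 l n * ∏ a ∈ B, lam (n + a) - T n|) ≤ pr L E := by
      rw [pr_def]
      refine hL.mono (hBdG.sub hBdT).abs (bdInd35 E) fun n => ?_
      rw [hTn n, ← sub_mul, abs_mul]
      by_cases hn : E n
      · rw [if_pos hn]
        have h3 : |wd n0 l n - c n| ≤ 1 := by
          rw [abs_le]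
          constructor <;> linarith [(hwb n).1, (hwb n).2, (hcb n).1, (hcb n).2]
        exact mul_le_one₀ h3 (abs_nonneg _) (prod_lam_le35 B n)
      · rw [if_neg hn, hgood n hn, sub_self, abs_zero, zero_mul]
    have h3 : pr L E ≤ l * (4 / y) := by
      have h4 : pr L E ≤ pr L (fun n => n ≤ 0) + pr L (fun n => ∃ j ∈ Finset.range l, ∃ p : ℕ, p.Prime ∧ y < p ∧
          ((p ^ 2 : ℕ) : ℤ) ∣ ((1 : ℕ) : ℤ) * n + (j : ℤ)) := pr_or_le hL _ _
      have h5 : pr L (fun n => ∃ j ∈ Finset.range l, ∃ p : ℕ, p.Prime ∧ y < p ∧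
          ((p ^ 2 : ℕ) : ℤ) ∣ ((1 : ℕ) : ℤ) * n + (j : ℤ)) ≤ l * (4 / y) := by
        refine (pr_exists_le hL (Finset.range l) (fun (j : ℕ) (m : ℤ) => ∃ p : ℕ, p.Prime ∧ y < p ∧
          ((p ^ 2 : ℕ) : ℤ) ∣ ((1 : ℕ) : ℤ) * m + (j : ℤ))).trans ?_
        refine (Finset.sum_le_sum fun (j : ℕ) _ => sq_tail hL 1 y (j : ℤ) hy1 one_pos
          (fun p hp _ hd => hp.one_lt.ne' (Nat.dvd_one.1 hd))).trans ?_
        rw [Finset.sum_const, Finset.card_range, nsmul_eq_mul]
      have h6 := prNonpos35 hL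
      exact h4.trans ((add_le_add h6 h5).trans (zero_add _).le)
    linarith
  have h0 : |L (fun n => wd n0 l n * ∏ a ∈ B, lam (n + a))| ≤ 0 := by
    refine le_of_forall_pos_le_add fun ε hε => ?_
    obtain ⟨y, hy⟩ := exists_nat_gt (4 * (l : ℝ) / ε)
    have hy1 : 1 ≤ y := by
      have : (0 : ℝ) < y := lt_of_le_of_lt (by positivity) hy
      exact_mod_cast this
    have hyR : (0 : ℝ) < y := by exact_mod_cast hy1
    refine (key y hy1).trans ?_
    rw [zero_add, mul_div_assoc', div_le_iff₀ hyR]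
    rw [div_lt_iff₀ hε] at hy
    linarith
  exact abs_nonpos_iff.1 h0

theorem word_one {L : (ℤ → ℝ) →ₗ[ℝ] ℝ} (hL : IsMean L) (n0 l : ℕ) (hn0 : 1 ≤ n0) (a : ℕ) (ha : a ∈ spt n0 l) :
    L (fun n => wd n0 l n * mz (n + a)) = 0 := by
  classical
  have h := word_gen35 hL n0 l {a} (by simpa using ha) (fun Q hQ u => by
    have h1 := one_ap hL Q hQ u a
    simpa using h1)
  simpa using h

theorem word_two {L : (ℤ → ℝ) →ₗ[ℝ] ℝ} (hL : IsMean L) (n0 l : ℕ) (hn0 : 1 ≤ n0) (a b : ℕ) (ha : a ∈ spt n0 l) (hb : b ∈ spt n0 l)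
    (hab : a ≠ b) : L (fun n => wd n0 l n * (mz (n + a) * mz (n + b))) = 0 := by
  classical
  have h := word_gen35 hL n0 l {a, b} (by
    intro x hx
    rw [mem_insert, mem_singleton] at hx
    rcases hx with rfl | rfl
    · exact ha
    · exact hb) (fun Q hQ u => by
    have h1 := two_ap hL Q hQ u a b (by exact_mod_cast hab)
    have h2 : (fun n : ℤ => if (Q : ℤ) ∣ n - u then ∏ x ∈ ({a, b} : Finset ℕ), lam (n + x) else 0) =
        fun n => if (Q : ℤ) ∣ n - u then lam (n + a) * lam (n + b) else 0 := by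
      funext n
      rw [prod_pair hab]
    rw [h2]
    exact h1)
  have h3 : (fun n : ℤ => wd n0 l n * ∏ x ∈ ({a, b} : Finset ℕ), mz (n + x)) =
      fun n => wd n0 l n * (mz (n + a) * mz (n + b)) := by
    funext n
    rw [prod_pair hab]
  rw [h3] at h
  exact h

end Pool.Agent.Lib.TU2
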