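import Pool.Agent.Lib.TU2.Third

/-!
# TU2 / Para (row PA, about 120 lines, NEW STATEMENT 23:56): averages over parallelograms, two different sides, two-sided bound

STATEMENT: below, verbatim.

PROOF. `F n = λ(n) λ(n + d a)`, `E n = λ(n) λ(n + d c)`, `γ b = L (F(n) E(n + d b))` (the product in the statement). `A n = (1/B) ∑_{k<B} E(n + d k) = rr d c B n`, `A' n = (1/M) ∑_{k<M} F(n + d k) = rr d a M n`.
For every `k < M`, `shiftz` by `d k`: `γ b = L (F(n + d k) E(n + d (k + b)))`. So `∑_{b=1}^B γ b = (1/M) ∑_{k<M} L (F(n + d k) ∑_{b=1}^B E(n + d (k + b)))`.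
`|∑_{b=1}^B E(n + d(k+b)) - B A(n)| ≤ 2 (k + 1) ≤ 2 M` (the index sets `[k+1, k+B]` and `[0, B-1]` differ by at most `2 (k+1)` elements, `|E| ≤ 1`; see `X5_window` in `Pool/Agent/Lib/MP_f6c41f_nt/X5.lean`).
Hence `|∑_b γ b - B L (A' A)| ≤ 2 M`, and by `cs`, `L (A' A)² ≤ L (A'²) L (A²) ≤ (1/3 + 6a/M) (1/3 + 6c/B) ≤ (1/3 + 6(a+c)/M)²` by `third` (`M ≤ B`).
-/

set_option autoImplicit false

open Finset

namespace Pool.Agent.Lib.TU2

open Pool.Agent.Lib.TU

private theorem pa_abs (v : ℕ → ℝ) (hv : ∀ n, |v n| ≤ 1) (a : ℕ) : |∑ n ∈ range a, v n| ≤ a := by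
  refine (abs_sum_le_sum_abs _ _).trans ((sum_le_sum fun n _ => hv n).trans ?_)
  simp

private theorem pa_window (u : ℕ → ℝ) (hu : ∀ n, |u n| ≤ 1) (a B : ℕ) :
    |∑ b ∈ range B, u (a + b) - ∑ b ∈ range B, u b| ≤ 2 * a := by
  have h1 := sum_range_add u B a
  have h2 := sum_range_add u a B
  rw [add_comm a B] at h2
  have e : ∑ b ∈ range B, u (a + b) - ∑ b ∈ range B, u b = ∑ b ∈ range a, u (B + b) - ∑ b ∈ range a, u b := by
    linarith
  rw [e]
  have b1 := pa_abs u hu a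
  have b2 := pa_abs (fun b => u (B + b)) (fun _ => hu _) a
  have b3 := abs_sub (∑ b ∈ range a, u (B + b)) (∑ b ∈ range a, u b)
  linarith

private theorem pa_bd (d a : ℕ) : ∀ n : ℤ, |lam n * lam (n + d * a)| ≤ 1 := by
  intro n
  rw [abs_mul]
  exact mul_le_one₀ (lam_abs_le _) (abs_nonneg _) (lam_abs_le _)

private theorem pa_rr (d a B : ℕ) : Bd (fun n => rr d a B n) := by
  have h0 : Bd fun n : ℤ => lam n * lam (n + d * a) := ⟨1, pa_bd d a⟩
  have h := (Bd.const (1 / (B : ℝ))).mul (Bd.sum (range B) fun b _ => h0.comp fun n => n + d * b)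
  refine h.of_le fun n => le_of_eq ?_
  congr 1
  unfold rr
  ring

theorem para {L : (ℤ → ℝ) →ₗ[ℝ] ℝ} (hL : IsMean L) (d a c M B : ℕ) (hd : 0 < d) (ha : 0 < a) (hc : 0 < c) (hM : 0 < M) (hMB : M ≤ B) :
    |∑ b ∈ Icc 1 B, L (fun n => lam n * lam (n + d * a) * (lam (n + d * b) * lam (n + d * b + d * c)))| ≤
      (1 / 3 + 6 * (a + c) / M) * B + 2 * M := by
  have hB : 0 < B := lt_of_lt_of_le hM hMB
  have hM' : (0 : ℝ) < M := by exact_mod_cast hM
  have hB' : (0 : ℝ) < B := by exact_mod_cast hB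
  have hMB' : (M : ℝ) ≤ B := by exact_mod_cast hMB
  set F : ℤ → ℝ := fun n => lam n * lam (n + d * a) with hF
  set E : ℤ → ℝ := fun n => lam n * lam (n + d * c) with hE
  have hF1 : ∀ n, |F n| ≤ 1 := pa_bd d a
  have hE1 : ∀ n, |E n| ≤ 1 := pa_bd d c
  have hFb : Bd F := ⟨1, hF1⟩
  have hEb : Bd E := ⟨1, hE1⟩
  set S : ℤ → ℝ := fun n => ∑ b ∈ range B, E (n + d * b) with hS
  have hSb : Bd S := Bd.sum _ fun b _ => hEb.comp fun n => n + d * b
  have hk : ∀ k ∈ range M, |∑ b ∈ Icc 1 B, L (fun n => F n * E (n + d * b)) - L (fun n => F (n + d * k) * S n)| ≤ 2 * M := by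
    intro k hk
    rw [mem_range] at hk
    have h1 : ∀ b ∈ Icc 1 B, L (fun n => F n * E (n + d * b)) = L (fun n => F (n + d * k) * E (n + d * k + d * b)) := by
      intro b _
      exact (hL.shiftz (hFb.mul (hEb.comp fun n => n + d * b)) (d * k)).symm
    rw [sum_congr rfl h1, ← L_sum, ← L_sub]
    refine hL.abs_le fun n => ?_
    rw [← mul_sum, ← mul_sub]
    have h3 : ∑ b ∈ Icc 1 B, E (n + d * k + d * b) = ∑ b ∈ range B, (fun m : ℕ => E (n + d * m)) (k + 1 + b) := by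
      have h4 : Icc 1 B = Ico 1 (B + 1) := by
        ext x
        rw [mem_Icc, mem_Ico]
        omega
      rw [h4, sum_Ico_eq_sum_range, show B + 1 - 1 = B by omega]
      refine sum_congr rfl fun b _ => ?_
      simp only
      congr 1
      push_cast
      ring
    have h5 := pa_window (fun m : ℕ => E (n + d * m)) (fun _ => hE1 _) (k + 1) B
    rw [← h3] at h5
    have h6 : (((k + 1 : ℕ) : ℝ)) ≤ M := by exact_mod_cast hk
    have h9 : |∑ b ∈ Icc 1 B, E (n + d * k + d * b) - S n| ≤ 2 * M := by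
      refine h5.trans ?_
      linarith
    rw [abs_mul]
    calc |F (n + d * k)| * |∑ b ∈ Icc 1 B, E (n + d * k + d * b) - S n| ≤ 1 * (2 * M) := by
          have := hF1 (n + d * k)
          gcongr
      _ = 2 * M := one_mul _
  set G : ℝ := ∑ b ∈ Icc 1 B, L (fun n => F n * E (n + d * b)) with hG
  have hsum : |(M : ℝ) * G - L (fun n => ∑ k ∈ range M, F (n + d * k) * S n)| ≤ M * (2 * M) := by
    have h1 : (M : ℝ) * G - L (fun n => ∑ k ∈ range M, F (n + d * k) * S n) =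
        ∑ k ∈ range M, (G - L (fun n => F (n + d * k) * S n)) := by
      rw [sum_sub_distrib, sum_const, card_range, nsmul_eq_mul, L_sum (range M) (fun k n => F (n + d * k) * S n)]
    rw [h1]
    refine (abs_sum_le_sum_abs _ _).trans ((sum_le_sum hk).trans (le_of_eq ?_))
    rw [sum_const, card_range, nsmul_eq_mul]
  have hTS : (fun n => ∑ k ∈ range M, F (n + d * k) * S n) = fun n => (M * B : ℝ) * (rr d a M n * rr d c B n) := by
    ext n
    rw [← sum_mul]
    unfold rr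
    rw [hS]
    field_simp
    rfl
  rw [hTS, L_mul] at hsum
  have hcs := cs hL (pa_rr d a M) (pa_rr d c B)
  have ht1 := third hL d a M hd ha hM
  have ht2 := third hL d c B hd hc hB
  have ha0 : (0 : ℝ) ≤ a := Nat.cast_nonneg _
  have hc0 : (0 : ℝ) ≤ c := Nat.cast_nonneg _
  have h11 : (1 / 3 + 6 * a / M : ℝ) ≤ 1 / 3 + 6 * (a + c) / M := by
    have : (6 * a / M : ℝ) ≤ 6 * (a + c) / M := by gcongr; linarith
    linarith
  have h12 : (1 / 3 + 6 * c / B : ℝ) ≤ 1 / 3 + 6 * (a + c) / M := by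
    have : (6 * c / B : ℝ) ≤ 6 * (a + c) / M := by gcongr; linarith
    linarith
  have hpos : (0 : ℝ) ≤ 1 / 3 + 6 * (a + c) / M := by positivity
  have hn2 : 0 ≤ L (fun n => rr d c B n ^ 2) := by
    refine hL.nonneg _ ?_ fun n => sq_nonneg _
    simpa [pow_two] using (pa_rr d c B).mul (pa_rr d c B)
  have hle : |L (fun n => rr d a M n * rr d c B n)| ≤ 1 / 3 + 6 * (a + c) / M := by
    refine abs_le_of_sq_le_sq ?_ hpos
    refine hcs.trans ?_
    rw [pow_two]
    exact mul_le_mul (ht1.trans h11) (ht2.trans h12) hn2 hpos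
  have hfin : (M : ℝ) * |G| ≤ M * ((1 / 3 + 6 * (a + c) / M) * B + 2 * M) := by
    have h1 : |(M : ℝ) * G| ≤ |(M : ℝ) * G - M * B * L (fun n => rr d a M n * rr d c B n)| +
        |(M : ℝ) * B * L (fun n => rr d a M n * rr d c B n)| := by
      have := abs_add_le ((M : ℝ) * G - M * B * L (fun n => rr d a M n * rr d c B n)) (M * B * L (fun n => rr d a M n * rr d c B n))
      rwa [sub_add_cancel] at this
    have h2 : |(M : ℝ) * B * L (fun n => rr d a M n * rr d c B n)| ≤ M * B * (1 / 3 + 6 * (a + c) / M) := by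
      rw [abs_mul, abs_of_pos (mul_pos hM' hB')]
      gcongr
    rw [abs_mul, abs_of_pos hM'] at h1
    linarith
  exact le_of_mul_le_mul_left hfin hM'

end Pool.Agent.Lib.TU2
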