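import Pool.Agent.Lib.TU2.QDef

/-!
# TU2 / QApp (row QA, about 230 lines): words of squares are approximately periodic

STATEMENT: below, verbatim.

PROOF. Take `y ≥ 1` with `y ≥ n i + l i` for all `i` and `4 (∑ l i)/y ≤ ε`, `Q = ∏_{p ≤ y} p²`, and `w N = 1` if for all `i` and `j < l i`: (no prime `p ≤ y` has `p² ∣ N + t i + j`) `↔ muz (n i + j) ≠ 0`; `w N = 0` otherwise. `w` depends only on `N` mod `Q`.
Let `B ⊆ lets n l`. Let `N > ∑ |t i|` and suppose no prime `p > y` has `p² ∣ N + t i + j` for any `i`, `j < l i`. Then `wU n l t N = w N` (for `m ≥ 1`: `muz m ^ 2` is `1` if no prime square divides `m`, else `0`: `Nat.squarefree_iff_prime_squarefree`, `ArithmeticFunction.moebius`; for `n i + j ≤ y` only primes `≤ y` matter),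
and if it is `1`, then `mz (N + t e.1 + e.2) = lam (N + t e.1 + e.2)` for `e ∈ B` (a square-free number: `moebius = (-1)^cardFactors = liouville`). So the two functions in the statement are equal outside a set of measure at most `∑_i ∑_{j < l i} 4/y ≤ ε` (`sq_tail` with `Q = 1`, `u = t i + j`; `pr_exists_le`) and the set `N ≤ ∑ |t i|`
(measure `0`; use `L_eq_of_ge` in Base.lean, or the private lemma `prNeg78` of MuL.lean with `shiftz`), and their difference is at most `1` in absolute value.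
-/

set_option autoImplicit false

open Finset

namespace Pool.Agent.Lib.TU2

open Pool.Agent.Lib.TU

private theorem qa_mu (m : ℤ) (hm : 1 ≤ m) : muz m ≠ 0 ↔ ∀ p : ℕ, p.Prime → ¬ ((p ^ 2 : ℕ) : ℤ) ∣ m := by
  have h2 : ((m.toNat : ℕ) : ℤ) = m := Int.toNat_of_nonneg (by omega)
  unfold muz
  rw [ArithmeticFunction.moebius_ne_zero_iff_squarefree, Nat.squarefree_iff_prime_squarefree]
  constructor
  · intro h p hp hd
    refine h p hp ?_
    rw [← pow_two]
    rw [← h2] at hd
    exact_mod_cast hd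
  · intro h p hp hd
    refine h p hp ?_
    rw [← h2, pow_two]
    exact_mod_cast hd

private theorem qa_sq (a b : ℤ) : muz a ^ 2 = muz b ^ 2 ↔ (muz a ≠ 0 ↔ muz b ≠ 0) := by
  unfold muz
  by_cases ha : Squarefree a.toNat <;> by_cases hb : Squarefree b.toNat
  · rw [ArithmeticFunction.moebius_sq_eq_one_of_squarefree ha,
      ArithmeticFunction.moebius_sq_eq_one_of_squarefree hb]
    simp [ArithmeticFunction.moebius_ne_zero_iff_squarefree, ha, hb]
  · rw [ArithmeticFunction.moebius_sq_eq_one_of_squarefree ha,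
      ArithmeticFunction.moebius_eq_zero_of_not_squarefree hb]
    simp [ArithmeticFunction.moebius_ne_zero_iff_squarefree, ha]
  · rw [ArithmeticFunction.moebius_eq_zero_of_not_squarefree ha,
      ArithmeticFunction.moebius_sq_eq_one_of_squarefree hb]
    simp [ArithmeticFunction.moebius_ne_zero_iff_squarefree, hb]
  · rw [ArithmeticFunction.moebius_eq_zero_of_not_squarefree ha,
      ArithmeticFunction.moebius_eq_zero_of_not_squarefree hb]
    simp

private theorem qa_lam (m : ℤ) (hm : 1 ≤ m) (h : muz m ≠ 0) : mz m = lam m := by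
  unfold muz at h
  have h5 : Squarefree m.toNat := ArithmeticFunction.moebius_ne_zero_iff_squarefree.1 h
  unfold mz muz lam
  rw [ArithmeticFunction.moebius_apply_of_squarefree h5, ArithmeticFunction.liouville_apply (by omega)]
  have h7 : m.toNat = m.natAbs := by omega
  rw [h7]

private theorem qa_mz (m : ℤ) : |mz m| ≤ 1 := by
  unfold mz muz
  have h := ArithmeticFunction.abs_moebius_le_one (n := m.toNat)
  exact_mod_cast h

private theorem qa_prod {α : Type} (B : Finset α) (f : α → ℝ) (h : ∀ a ∈ B, |f a| ≤ 1) : |∏ a ∈ B, f a| ≤ 1 := by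
  rw [abs_prod]
  exact prod_le_one (fun a _ => abs_nonneg _) h

theorem word_app {r : ℕ} (n l : Fin r → ℕ) (hn : ∀ i, 1 ≤ n i) (t : Fin r → ℤ) (ε : ℝ) (hε : 0 < ε) :
    ∃ (Q : ℕ) (w : ℤ → ℝ), 0 < Q ∧ (∀ N, w N = 0 ∨ w N = 1) ∧ (∀ N M : ℤ, (Q : ℤ) ∣ N - M → w N = w M) ∧
      ∀ L : (ℤ → ℝ) →ₗ[ℝ] ℝ, IsMean L → ∀ B ⊆ lets n l,
        |cU L n l t B - L (fun N => w N * ∏ e ∈ B, lam (N + t e.1 + e.2))| ≤ ε := by
  classical
  -- the parameters
  obtain ⟨y, hy⟩ : ∃ y : ℕ, y = ∑ i, (n i + l i) + (⌈8 * ((∑ i, l i : ℕ) : ℝ) / ε⌉₊ + 1) := ⟨_, rfl⟩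
  have hy1 : 1 ≤ y := by omega
  have hyn : ∀ i, n i + l i ≤ y := by
    intro i
    have h1 : n i + l i ≤ ∑ i, (n i + l i) :=
      single_le_sum (f := fun i => n i + l i) (fun _ _ => Nat.zero_le _) (mem_univ i)
    omega
  have hyR : (0 : ℝ) < y := by exact_mod_cast hy1
  have hyc : 2 * (((∑ i, l i : ℕ) : ℝ) * (4 / y)) ≤ ε := by
    have h1 : 8 * ((∑ i, l i : ℕ) : ℝ) / ε ≤ y := by
      have h2 := Nat.le_ceil (8 * ((∑ i, l i : ℕ) : ℝ) / ε)
      have h3 : ((⌈8 * ((∑ i, l i : ℕ) : ℝ) / ε⌉₊ : ℕ) : ℝ) ≤ y := by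
        have h4 : ⌈8 * ((∑ i, l i : ℕ) : ℝ) / ε⌉₊ ≤ y := by omega
        exact_mod_cast h4
      linarith
    rw [div_le_iff₀ hε] at h1
    have h2 : 2 * (((∑ i, l i : ℕ) : ℝ) * (4 / y)) = (8 * ((∑ i, l i : ℕ) : ℝ)) / y := by ring
    rw [h2, div_le_iff₀ hyR]
    linarith
  set Q : ℕ := ∏ p ∈ (range (y + 1)).filter Nat.Prime, p ^ 2 with hQ
  have hQ0 : 0 < Q := prod_pos fun p hp => pow_pos (mem_filter.1 hp).2.pos 2
  have hQd : ∀ p : ℕ, p.Prime → p ≤ y → p ^ 2 ∣ Q := fun p hp hpy =>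
    dvd_prod_of_mem (fun p => p ^ 2) (mem_filter.2 ⟨mem_range.2 (by omega), hp⟩)
  set P : ℤ → Prop := fun N => ∀ i, ∀ j : ℕ, j < l i →
    ((¬ ∃ p : ℕ, p.Prime ∧ p ≤ y ∧ ((p ^ 2 : ℕ) : ℤ) ∣ N + t i + j) ↔ muz ((n i : ℤ) + j) ≠ 0) with hP
  refine ⟨Q, fun N => if P N then 1 else 0, hQ0, fun N => ?_, fun N M hNM => ?_, fun L hL B hB => ?_⟩
  · by_cases h : P N
    · right; exact if_pos h
    · left; exact if_neg h
  · have h1 : P N ↔ P M := by
      have h2 : ∀ i, ∀ j : ℕ, (∃ p : ℕ, p.Prime ∧ p ≤ y ∧ ((p ^ 2 : ℕ) : ℤ) ∣ N + t i + j) ↔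
          ∃ p : ℕ, p.Prime ∧ p ≤ y ∧ ((p ^ 2 : ℕ) : ℤ) ∣ M + t i + j := by
        intro i j
        refine exists_congr fun p => and_congr_right fun hp => and_congr_right fun hpy => ?_
        have h3 : ((p ^ 2 : ℕ) : ℤ) ∣ N - M :=
          (Int.natCast_dvd_natCast.2 (hQd p hp hpy)).trans hNM
        have h4 : N + t i + j = (N - M) + (M + t i + j) := by ring
        rw [h4]
        exact Int.dvd_add_right h3
      rw [hP]
      simp only [h2]
    simp only [h1]
  · -- the comparison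
    set S0 : ℕ := ∑ i, (t i).natAbs with hS0
    have hpos : ∀ N : ℤ, (S0 : ℤ) < N → ∀ i, ∀ j : ℕ, 1 ≤ N + t i + j := by
      intro N hN i j
      have h1 : (t i).natAbs ≤ S0 :=
        single_le_sum (f := fun i => (t i).natAbs) (fun _ _ => Nat.zero_le _) (mem_univ i)
      omega
    set G : ℤ → Prop := fun N => ∃ i ∈ (univ : Finset (Fin r)), ∃ j ∈ range (l i), ∃ p : ℕ, p.Prime ∧ y < p ∧
      ((p ^ 2 : ℕ) : ℤ) ∣ ((1 : ℕ) : ℤ) * N + (t i + j) with hG
    have hGsmall : pr L G ≤ ((∑ i, l i : ℕ) : ℝ) * (4 / y) := by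
      rw [hG]
      refine (pr_exists_le hL (univ : Finset (Fin r)) (fun i N => ∃ j ∈ range (l i), ∃ p : ℕ, p.Prime ∧ y < p ∧
        ((p ^ 2 : ℕ) : ℤ) ∣ ((1 : ℕ) : ℤ) * N + (t i + j))).trans ?_
      have h1 : ∀ i ∈ (univ : Finset (Fin r)), pr L (fun N => ∃ j ∈ range (l i), ∃ p : ℕ, p.Prime ∧ y < p ∧
          ((p ^ 2 : ℕ) : ℤ) ∣ ((1 : ℕ) : ℤ) * N + (t i + j)) ≤ (l i : ℝ) * (4 / y) := by
        intro i _
        refine (pr_exists_le hL (range (l i)) (fun (j : ℕ) (N : ℤ) => ∃ p : ℕ, p.Prime ∧ y < p ∧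
          ((p ^ 2 : ℕ) : ℤ) ∣ ((1 : ℕ) : ℤ) * N + (t i + j))).trans ?_
        refine (sum_le_sum fun (j : ℕ) _ => sq_tail hL 1 y (t i + (j : ℤ)) hy1 one_pos ?_).trans ?_
        · intro p hp _ hd
          exact hp.one_lt.ne' (Nat.dvd_one.1 hd)
        · rw [sum_const, card_range, nsmul_eq_mul]
      refine (sum_le_sum h1).trans (le_of_eq ?_)
      rw [← sum_mul]
      push_cast
      rfl
    set f : ℤ → ℝ := fun N => wU n l t N * ∏ e ∈ B, mz (N + t e.1 + e.2) with hf
    set g : ℤ → ℝ := fun N => (if P N then 1 else 0) * ∏ e ∈ B, lam (N + t e.1 + e.2) with hg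
    have hwd : ∀ a b : ℕ, ∀ N, |wd a b N| ≤ 1 := by
      intro a b N
      unfold wd
      split_ifs <;> norm_num
    have hf1 : ∀ N, |f N| ≤ 1 := by
      intro N
      rw [hf]
      simp only
      rw [abs_mul]
      refine mul_le_one₀ ?_ (abs_nonneg _) (qa_prod B _ fun e _ => qa_mz _)
      unfold wU
      exact qa_prod _ _ fun i _ => hwd _ _ _
    have hg1 : ∀ N, |g N| ≤ 1 := by
      intro N
      rw [hg]
      simp only
      rw [abs_mul]
      refine mul_le_one₀ ?_ (abs_nonneg _) (qa_prod B _ fun e _ => lam_abs_le _)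
      split_ifs <;> norm_num
    have hfg : ∀ N : ℤ, (S0 : ℤ) < N → ¬ G N → f N = g N := by
      intro N hN hGN
      have hno : ∀ i, ∀ j : ℕ, j < l i → ∀ p : ℕ, p.Prime → y < p → ¬ ((p ^ 2 : ℕ) : ℤ) ∣ N + t i + j := by
        intro i j hj p hp hpy hd
        refine hGN ⟨i, mem_univ _, j, mem_range.2 hj, p, hp, hpy, ?_⟩
        rw [Nat.cast_one, one_mul, ← add_assoc]
        exact hd
      have hmu : ∀ i, ∀ j : ℕ, j < l i → (muz (N + t i + j) ≠ 0 ↔
          ¬ ∃ p : ℕ, p.Prime ∧ p ≤ y ∧ ((p ^ 2 : ℕ) : ℤ) ∣ N + t i + j) := by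
        intro i j hj
        rw [qa_mu _ (hpos N hN i j)]
        constructor
        · rintro h ⟨p, hp, -, hd⟩
          exact h p hp hd
        · intro h p hp hd
          rcases le_or_gt p y with hpy | hpy
          · exact h ⟨p, hp, hpy, hd⟩
          · exact hno i j hj p hp hpy hd
      by_cases hPN : P N
      · have h1 : wU n l t N = 1 := by
          unfold wU
          refine prod_eq_one fun i _ => ?_
          unfold wd
          rw [if_pos]
          refine ⟨?_, fun j hj => ?_⟩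
          · have := hpos N hN i 0
            simpa using this
          · rw [qa_sq, hmu i j hj]
            exact hPN i j hj
        rw [hf, hg]
        simp only
        rw [h1, if_pos hPN]
        congr 1
        refine prod_congr rfl fun e he => ?_
        have he1 := hB he
        unfold lets spt at he1
        rw [mem_sigma, mem_filter, mem_range] at he1
        obtain ⟨-, he2, he3⟩ := he1
        refine qa_lam _ (hpos N hN e.1 e.2) ?_
        rw [hmu e.1 e.2 he2]
        exact (hPN e.1 e.2 he2).2 he3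
      · have h1 : wU n l t N = 0 := by
          rw [hP] at hPN
          push Not at hPN
          obtain ⟨i, j, hj, hij⟩ := hPN
          unfold wU
          refine prod_eq_zero (mem_univ i) ?_
          unfold wd
          rw [if_neg]
          rintro ⟨-, h2⟩
          have h3 := h2 j hj
          rw [qa_sq, hmu i j hj] at h3
          rcases hij with ⟨h4, h5⟩ | ⟨h4, h5⟩
          · refine h3.1 ?_ h5
            rintro ⟨p, hp, hpy, hd⟩
            exact h4 p hp hpy hd
          · refine h3.2 h5 h4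
        rw [hf, hg]
        simp only
        rw [h1, if_neg hPN, zero_mul, zero_mul]
    have hbf : Bd f := ⟨1, hf1⟩
    have hbg : Bd g := ⟨1, hg1⟩
    have hcU : cU L n l t B = L f := rfl
    rw [hcU]
    have e1 : |L f - L g| ≤ L (fun N => |f N - g N|) := by
      have h := hL.abs_le_abs (f := fun N => f N - g N) (hbf.sub hbg)
      rwa [L_sub] at h
    have hbh : Bd (fun N : ℤ => if (S0 : ℤ) < N then |f N - g N| else 0) := by
      refine ⟨2, fun N => ?_⟩
      beta_reduce
      have h1 : |f N - g N| ≤ 2 := by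
        have := abs_sub (f N) (g N)
        have h2 := hf1 N
        have h3 := hg1 N
        linarith
      split_ifs
      · rw [abs_abs]; exact h1
      · norm_num
    have e2 : L (fun N => |f N - g N|) = L (fun N : ℤ => if (S0 : ℤ) < N then |f N - g N| else 0) :=
      L_eq_of_ge hL (hbf.sub hbg).abs hbh S0 fun N hN => (if_pos hN).symm
    have e3 : L (fun N : ℤ => if (S0 : ℤ) < N then |f N - g N| else 0) ≤
        L (fun N : ℤ => 2 * (if G N then (1 : ℝ) else 0)) := by
      have hbG : Bd (fun N : ℤ => (if G N then (1 : ℝ) else 0)) :=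
        ⟨1, fun N => by beta_reduce; split_ifs <;> norm_num⟩
      refine hL.mono hbh ((Bd.const 2).mul hbG) fun N => ?_
      by_cases h1 : (S0 : ℤ) < N
      · rw [if_pos h1]
        by_cases h2 : G N
        · rw [if_pos h2]
          have := abs_sub (f N) (g N)
          have h3 := hf1 N
          have h4 := hg1 N
          linarith
        · rw [if_neg h2, hfg N h1 h2, sub_self, abs_zero, mul_zero]
      · rw [if_neg h1]
        split_ifs <;> norm_num
    have e4 : L (fun N : ℤ => 2 * (if G N then (1 : ℝ) else 0)) = 2 * pr L G := by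
      rw [Pool.Agent.Lib.TU.L_mul, pr_def]
    rw [e2] at e1
    rw [e4] at e3
    linarith

end Pool.Agent.Lib.TU2
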