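import Pool.Agent.Lib.TU2.Base

/-!
# TU2 / QAvg (row QV, about 100 lines): averages over the place of one factor

STATEMENT: below, verbatim.

PROOF. `G_m N = G (N + Q m)`. `(L (F G_m))² = L (N ↦ L (N' ↦ F N F N' G_m N G_m N'))`. Sum over `m < H`: `L L (F F' ∑_m G_m G_m') ≤ L L |∑_m G_m(N) G_m(N')| ≤ (L L (∑_m G_m(N) G_m(N'))²)^(1/2)` (Cauchy-Schwarz for the functional `f ↦ L (N ↦ L (N' ↦ f N N'))`, or twice `cs` of Base.lean; or: `|S| ≤ (S²/√H + √H)/2`, which avoids roots:
with `S = ∑_m G_m(N) G_m(N')`, `L L |S| ≤ (L L S²/√H + √H)/2`). `L L S² = ∑_{m,m' < H} (L (G_m G_m'))²`, where the terms with `m ≠ m'` are `0` (`hzero` and `shiftz`) and the terms with `m = m'` are at most `1`: `L L S² ≤ H`. So the sum is at most `(H/√H + √H)/2 = √H`. For `H = 0` both sides are `0`.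
-/

set_option autoImplicit false

open Finset

namespace Pool.Agent.Lib.TU2

open Pool.Agent.Lib.TU

theorem single_avg {L : (ℤ → ℝ) →ₗ[ℝ] ℝ} (hL : IsMean L) (F G : ℤ → ℝ) (hF : ∀ N, |F N| ≤ 1) (hG : ∀ N, |G N| ≤ 1) (Q H : ℕ)
    (hzero : ∀ m : ℕ, 0 < m → L (fun N => G N * G (N + Q * m)) = 0) :
    ∑ m ∈ range H, (L (fun N => F N * G (N + Q * m))) ^ 2 ≤ √(H : ℝ) := by
  rcases Nat.eq_zero_or_pos H with rfl | hH
  · simp
  obtain ⟨c, hc⟩ : ∃ c : ℕ → ℝ, ∀ m, c m = L (fun N => F N * G (N + Q * m)) := ⟨_, fun _ => rfl⟩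
  obtain ⟨g, hg⟩ : ∃ g : ℕ → ℤ → ℝ, ∀ m N, g m N = G (N + Q * m) := ⟨_, fun _ _ => rfl⟩
  have hFb : Bd F := ⟨1, hF⟩
  have hGb : Bd G := ⟨1, hG⟩
  have hgb : ∀ m, Bd (g m) := by
    intro m
    have e : g m = fun N => G (N + Q * m) := by
      funext N
      exact hg m N
    rw [e]
    exact hGb.comp fun N => N + Q * m
  have hc' : ∀ m, L (fun N => F N * g m N) = c m := by
    intro m
    rw [hc]
    congr 1
    funext N
    rw [hg]
  have hlt : ∀ m m' : ℕ, m < m' → L (fun N => g m N * g m' N) = 0 := by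
    intro m m' hm
    have h1 := hL.shiftz (f := fun N => G N * G (N + Q * (m' - m : ℕ))) (hGb.mul (hGb.comp fun N => N + Q * (m' - m : ℕ)))
      (Q * m)
    have h2 := hzero (m' - m) (Nat.sub_pos_of_lt hm)
    rw [h2] at h1
    rw [← h1]
    congr 1
    funext N
    rw [hg, hg, Nat.cast_sub hm.le]
    congr 2
    ring
  have hoff : ∀ m m' : ℕ, m ≠ m' → L (fun N => g m N * g m' N) = 0 := by
    intro m m' hm
    rcases lt_or_gt_of_ne hm with h | h
    · exact hlt m m' h
    · have e : (fun N => g m N * g m' N) = fun N => g m' N * g m N := by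
        funext N
        ring
      rw [e]
      exact hlt m' m h
  have hdiag : ∀ m : ℕ, L (fun N => g m N * g m N) ≤ 1 := by
    intro m
    refine hL.le_const ((hgb m).mul (hgb m)) fun N => ?_
    rw [hg]
    have h1 := hG (N + Q * m)
    have h2 := abs_nonneg (G (N + Q * m))
    nlinarith [abs_mul_abs_self (G (N + Q * m))]
  have hSb : Bd (fun N => ∑ m ∈ range H, c m * g m N) := Bd.sum _ fun m _ => (Bd.const (c m)).mul (hgb m)
  have hFF : L (fun N => F N * F N) ≤ 1 := by
    refine hL.le_const (hFb.mul hFb) fun N => ?_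
    have h1 := hF N
    have h2 := abs_nonneg (F N)
    nlinarith [abs_mul_abs_self (F N)]
  have hFS : L (fun N => F N * ∑ m ∈ range H, c m * g m N) = ∑ m ∈ range H, c m ^ 2 := by
    have e : (fun N => F N * ∑ m ∈ range H, c m * g m N) = fun N => ∑ m ∈ range H, c m * (F N * g m N) := by
      funext N
      rw [mul_sum]
      exact sum_congr rfl fun m _ => by ring
    rw [e, L_sum (range H) (fun m N => c m * (F N * g m N))]
    refine sum_congr rfl fun m _ => ?_
    rw [L_mul, hc']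
    ring
  have hSS : L (fun N => (∑ m ∈ range H, c m * g m N) * ∑ m ∈ range H, c m * g m N) ≤ ∑ m ∈ range H, c m ^ 2 := by
    have e : (fun N => (∑ m ∈ range H, c m * g m N) * ∑ m ∈ range H, c m * g m N) =
        fun N => ∑ m ∈ range H, ∑ m' ∈ range H, (c m * c m') * (g m N * g m' N) := by
      funext N
      rw [sum_mul_sum]
      exact sum_congr rfl fun m _ => sum_congr rfl fun m' _ => by ring
    rw [e, L_sum (range H) (fun m N => ∑ m' ∈ range H, (c m * c m') * (g m N * g m' N))]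
    refine sum_le_sum fun m hm => ?_
    rw [L_sum (range H) (fun m' N => (c m * c m') * (g m N * g m' N)), sum_eq_single m]
    · rw [L_mul]
      have h1 := hdiag m
      nlinarith [mul_self_nonneg (c m)]
    · intro m' _ hne
      rw [L_mul, hoff m m' hne.symm, mul_zero]
    · intro h
      exact absurd hm h
  have hpos : 0 ≤ L (fun N => (F N - ∑ m ∈ range H, c m * g m N) * (F N - ∑ m ∈ range H, c m * g m N)) :=
    hL.nonneg _ ((hFb.sub hSb).mul (hFb.sub hSb)) fun N => mul_self_nonneg _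
  have hexp : L (fun N => (F N - ∑ m ∈ range H, c m * g m N) * (F N - ∑ m ∈ range H, c m * g m N)) =
      L (fun N => F N * F N) - 2 * L (fun N => F N * ∑ m ∈ range H, c m * g m N) +
        L (fun N => (∑ m ∈ range H, c m * g m N) * ∑ m ∈ range H, c m * g m N) := by
    rw [← L_mul 2, ← L_sub, ← L_add]
    congr 1
    funext N
    ring
  rw [hexp, hFS] at hpos
  have hle : ∑ m ∈ range H, c m ^ 2 ≤ 1 := by linarith
  have h1 : (1 : ℝ) ≤ √(H : ℝ) := by
    rw [Real.one_le_sqrt]
    exact_mod_cast hH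
  have e : ∑ m ∈ range H, (L (fun N => F N * G (N + Q * m))) ^ 2 = ∑ m ∈ range H, c m ^ 2 :=
    sum_congr rfl fun m _ => by rw [hc]
  rw [e]
  linarith

end Pool.Agent.Lib.TU2
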