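import Pool.Agent.Lib.TU2.QDef

/-!
# TU2 / QLow (row QL, about 130 lines): lower bound for the measure of several words

STATEMENT: below, verbatim.

PROOF. `y ≥ 2 + n i + l i + n j + l j` for all `i, j` and `8 ∑ l i ≤ y`; `Q = (y!)²`: divisible by `p²` for all primes `p ≤ y`, not divisible by primes `p > y`, and `Q ≥ y² > n i + l i + n j + l j`. Let `M ≥ 0` be such that no prime `p > y` has `p² ∣ Q M + (Q m i + n i + j)` for `i`, `j < l i`. Then `wU .. (Q M) = 1`: `Q M + Q m i + n i ≥ 1`, and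
`muz (Q (M + m i) + n i + j)² = muz (n i + j)²` (`p ≤ y`: `p² ∣ Q (M + m i) + n i + j ↔ p² ∣ n i + j`; `p > y`: `p²` does not divide `n i + j ≤ y`). So `L (M ↦ wU .. (Q M)) ≥ 1 - ∑_i ∑_{j<l i} 4/y ≥ 1/2` (`sq_tail`, `pr_exists_le`, the negative `M` have measure `0`), and
`L wU ≥ L (N ↦ if Q ∣ N then wU N else 0) = L (M ↦ wU (Q M))/Q ≥ 1/(2 Q) = κ` (`pr_mul_if`, `0 ≤ wU ≤ 1`).
-/

set_option autoImplicit false

open Finset

namespace Pool.Agent.Lib.TU2

open Pool.Agent.Lib.TU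

private theorem QL_neg {L : (ℤ → ℝ) →ₗ[ℝ] ℝ} (hL : IsMean L) : pr L (fun n => n < 0) ≤ 0 := by
  classical
  have h := hL.dyad (fun n => if n < 0 then (1 : ℝ) else 0) 0 0
    ⟨1, fun n => by by_cases h : n < 0 <;> simp [h]⟩
    (fun n => by split_ifs <;> norm_num)
    (fun X _ => by
      rw [zero_mul]
      refine (Finset.sum_eq_zero fun n _ => ?_).le
      rw [if_neg (by push Not; exact Int.natCast_nonneg n)])
  rw [pr_def, mul_zero] at *
  linarith

private theorem QL_wd {Q y n0 l : ℕ} (hQd : ∀ p : ℕ, p.Prime → p ≤ y → p ^ 2 ∣ Q) (hn0 : 1 ≤ n0) (hy : n0 + l ≤ y)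
    {k : ℤ} (hk : 0 ≤ k)
    (hB : ∀ j : ℕ, j < l → ¬ ∃ p : ℕ, p.Prime ∧ y < p ∧ ((p ^ 2 : ℕ) : ℤ) ∣ Q * k + n0 + j) :
    wd n0 l (Q * k + n0) = 1 := by
  have hQk : (0 : ℤ) ≤ Q * k := mul_nonneg (Int.natCast_nonneg _) hk
  have hn1 : (1 : ℤ) ≤ n0 := by exact_mod_cast hn0
  unfold wd
  rw [if_pos]
  refine ⟨by linarith, fun j hj => ?_⟩
  have hj0 : (0 : ℤ) ≤ j := Int.natCast_nonneg j
  have h1 : (n0 + j : ℤ).toNat = n0 + j := by
    have : (n0 + j : ℤ) = ((n0 + j : ℕ) : ℤ) := by push_cast; ring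
    rw [this, Int.toNat_natCast]
  have h2 : (((Q * k + n0 + j : ℤ).toNat : ℕ) : ℤ) = Q * k + n0 + j := by
    rw [Int.toNat_of_nonneg]
    linarith
  have hdv : ∀ p : ℕ, p.Prime → p ≤ y → (p * p ∣ (Q * k + n0 + j : ℤ).toNat ↔ p * p ∣ (n0 + j : ℤ).toNat) := by
    intro p hp hpy
    have hd : ((p * p : ℕ) : ℤ) ∣ (Q : ℤ) * k := by
      have h3 : p * p ∣ Q := by
        have := hQd p hp hpy
        rwa [pow_two] at this
      exact Dvd.dvd.mul_right (by exact_mod_cast h3) k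
    rw [← Int.natCast_dvd_natCast, h2, h1, ← Int.natCast_dvd_natCast]
    rw [show (Q * k + n0 + j : ℤ) = Q * k + ((n0 + j : ℕ) : ℤ) by push_cast; ring]
    exact (Int.dvd_add_right hd)
  have hsq : Squarefree ((Q * k + n0 + j : ℤ).toNat) ↔ Squarefree ((n0 + j : ℤ).toNat) := by
    rw [Nat.squarefree_iff_prime_squarefree, Nat.squarefree_iff_prime_squarefree]
    constructor
    · intro h p hp hd
      have hpy : p ≤ y := by
        have h4 : p * p ≤ n0 + j := by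
          rw [h1] at hd
          exact Nat.le_of_dvd (by omega) hd
        have h5 : p ≤ p * p := Nat.le_mul_self p
        omega
      exact h p hp ((hdv p hp hpy).2 hd)
    · intro h p hp hd
      rcases le_or_gt p y with hpy | hpy
      · exact h p hp ((hdv p hp hpy).1 hd)
      · refine hB j hj ⟨p, hp, hpy, ?_⟩
        have h6 : ((p * p : ℕ) : ℤ) ∣ (((Q * k + n0 + j : ℤ).toNat : ℕ) : ℤ) := by exact_mod_cast hd
        rw [h2] at h6
        rw [pow_two]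
        exact h6
  unfold muz
  by_cases h3 : Squarefree ((n0 + j : ℤ).toNat)
  · rw [ArithmeticFunction.moebius_sq_eq_one_of_squarefree h3,
      ArithmeticFunction.moebius_sq_eq_one_of_squarefree (hsq.2 h3)]
  · rw [ArithmeticFunction.moebius_eq_zero_of_not_squarefree h3,
      ArithmeticFunction.moebius_eq_zero_of_not_squarefree (fun h => h3 (hsq.1 h))]

private theorem QL_wd01 (n0 l : ℕ) (n : ℤ) : 0 ≤ wd n0 l n ∧ wd n0 l n ≤ 1 := by
  unfold wd
  split_ifs <;> norm_num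

private theorem QL_wU01 {r : ℕ} (n l : Fin r → ℕ) (t : Fin r → ℤ) (N : ℤ) : 0 ≤ wU n l t N ∧ wU n l t N ≤ 1 := by
  unfold wU
  exact ⟨Finset.prod_nonneg fun i _ => (QL_wd01 _ _ _).1,
    Finset.prod_le_one (fun i _ => (QL_wd01 _ _ _).1) fun i _ => (QL_wd01 _ _ _).2⟩

private theorem QL_Q (y : ℕ) : y * y ≤ (Nat.factorial y) ^ 2 ∧
    (∀ p : ℕ, p.Prime → p ≤ y → p ^ 2 ∣ (Nat.factorial y) ^ 2) ∧
    ∀ p : ℕ, p.Prime → y < p → ¬ p ∣ (Nat.factorial y) ^ 2 := by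
  refine ⟨?_, ?_, ?_⟩
  · rw [pow_two]
    exact Nat.mul_le_mul (Nat.self_le_factorial y) (Nat.self_le_factorial y)
  · intro p hp hpy
    exact pow_dvd_pow_of_dvd ((hp.dvd_factorial).2 hpy) 2
  · intro p hp hpy hd
    have h1 := (hp.dvd_factorial).1 (hp.dvd_of_dvd_pow hd)
    omega

theorem word_low {r : ℕ} (n l : Fin r → ℕ) (hn : ∀ i, 1 ≤ n i) :
    ∃ (Q : ℕ) (κ : ℝ), 0 < Q ∧ (∀ i j, n i + l i + n j + l j < Q) ∧ 0 < κ ∧ ∀ L : (ℤ → ℝ) →ₗ[ℝ] ℝ, IsMean L → ∀ m : Fin r → ℕ,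
      κ ≤ cU L n l (fun i => (Q : ℤ) * m i + n i) ∅ := by
  classical
  obtain ⟨S, hS⟩ : ∃ S : ℕ, S = ∑ i, (n i + l i) := ⟨_, rfl⟩
  obtain ⟨E, hE⟩ : ∃ E : ℕ, E = ∑ i, l i := ⟨_, rfl⟩
  obtain ⟨y, hy⟩ : ∃ y : ℕ, y = 2 + 2 * S + 8 * E := ⟨_, rfl⟩
  have hSi : ∀ i, n i + l i ≤ S := by
    intro i
    rw [hS]
    exact Finset.single_le_sum (f := fun i => n i + l i) (fun _ _ => Nat.zero_le _) (Finset.mem_univ i)
  have hy2 : 2 ≤ y := by omega
  obtain ⟨hQy, hQd, hcop⟩ := QL_Q y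
  obtain ⟨Q, hQ⟩ : ∃ Q : ℕ, Q = (Nat.factorial y) ^ 2 := ⟨_, rfl⟩
  rw [← hQ] at hQy hQd hcop
  have hQ0 : 0 < Q := by nlinarith
  have hQR : (0 : ℝ) < Q := by exact_mod_cast hQ0
  refine ⟨Q, 1 / (2 * Q), hQ0, ?_, by positivity, ?_⟩
  · intro i j
    have h1 := hSi i
    have h2 := hSi j
    nlinarith
  · intro L hL m
    set t : Fin r → ℤ := fun i => (Q : ℤ) * m i + n i with ht
    set u : (Σ _ : Fin r, ℕ) → ℤ := fun e => (Q : ℤ) * m e.1 + n e.1 + e.2 with hu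
    set I : Finset (Σ _ : Fin r, ℕ) := (univ : Finset (Fin r)).sigma fun i => range (l i) with hI
    have hbU : Bd (fun N => wU n l t N) := ⟨1, fun N => by
      rw [abs_of_nonneg (QL_wU01 n l t N).1]
      exact (QL_wU01 n l t N).2⟩
    have e0 : cU L n l t ∅ = L (fun N => wU n l t N) := by
      unfold cU
      congr 1
      ext N
      simp
    -- the bad set
    have hgood : ∀ M : ℤ, ¬ (M < 0 ∨ ∃ e ∈ I, ∃ p : ℕ, p.Prime ∧ y < p ∧ ((p ^ 2 : ℕ) : ℤ) ∣ Q * M + u e) →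
        wU n l t (Q * M) = 1 := by
      intro M hM
      rw [not_or, not_lt] at hM
      obtain ⟨hM0, hB⟩ := hM
      unfold wU
      apply Finset.prod_eq_one
      intro i _
      have e1 : (Q : ℤ) * M + t i = Q * (M + m i) + n i := by
        rw [ht]
        ring
      rw [e1]
      apply QL_wd hQd (hn i) (by have := hSi i; omega) (by positivity)
      rintro j hj ⟨p, hp, hpy, hd⟩
      refine hB ⟨⟨i, j⟩, ?_, p, hp, hpy, ?_⟩
      · rw [hI, Finset.mem_sigma]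
        exact ⟨Finset.mem_univ i, Finset.mem_range.2 hj⟩
      · have e2 : (Q : ℤ) * M + u ⟨i, j⟩ = Q * (M + m i) + n i + j := by
          rw [hu]
          ring
        rw [e2]
        exact hd
    have hbad : pr L (fun M : ℤ => M < 0 ∨ ∃ e ∈ I, ∃ p : ℕ, p.Prime ∧ y < p ∧ ((p ^ 2 : ℕ) : ℤ) ∣ Q * M + u e) ≤ 1 / 2 := by
      refine (pr_or_le hL _ _).trans ?_
      have h1 := QL_neg hL
      have h2 : pr L (fun M : ℤ => ∃ e ∈ I, ∃ p : ℕ, p.Prime ∧ y < p ∧ ((p ^ 2 : ℕ) : ℤ) ∣ Q * M + u e) ≤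
          ∑ e ∈ I, (4 / y : ℝ) := by
        refine (pr_exists_le hL I (fun (e : Σ _ : Fin r, ℕ) (M : ℤ) => ∃ p : ℕ, p.Prime ∧ y < p ∧
          ((p ^ 2 : ℕ) : ℤ) ∣ Q * M + u e)).trans ?_
        exact Finset.sum_le_sum fun e _ => sq_tail hL Q y (u e) (by omega) hQ0 hcop
      have h3 : ∑ e ∈ I, (4 / y : ℝ) = E * (4 / y) := by
        rw [Finset.sum_const, nsmul_eq_mul]
        have h4 : I.card = E := by
          rw [hI, Finset.card_sigma, hE]
          exact Finset.sum_congr rfl fun i _ => Finset.card_range _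
        rw [h4]
      have hyR : (0 : ℝ) < y := by
        have : 0 < y := by omega
        exact_mod_cast this
      have h5 : (E : ℝ) * (4 / y) ≤ 1 / 2 := by
        rw [mul_div_assoc', div_le_iff₀ hyR]
        have h6 : (8 * E : ℕ) ≤ y := by omega
        have h7 : ((8 * E : ℕ) : ℝ) ≤ y := by exact_mod_cast h6
        push_cast at h7
        linarith
      rw [h3] at h2
      linarith
    have hhalf : 1 / 2 ≤ L (fun M => wU n l t (Q * M)) := by
      have h1 : L (fun M => (1 : ℝ) - (if (M < 0 ∨ ∃ e ∈ I, ∃ p : ℕ, p.Prime ∧ y < p ∧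
          ((p ^ 2 : ℕ) : ℤ) ∣ Q * M + u e) then (1 : ℝ) else 0)) ≤ L (fun M => wU n l t (Q * M)) := by
        refine hL.mono ?_ (hbU.comp fun M => Q * M) fun M => ?_
        · refine (Bd.const 1).sub ⟨1, fun M => ?_⟩
          beta_reduce
          split_ifs <;> simp
        · by_cases hM : (M < 0 ∨ ∃ e ∈ I, ∃ p : ℕ, p.Prime ∧ y < p ∧ ((p ^ 2 : ℕ) : ℤ) ∣ Q * M + u e)
          · rw [if_pos hM, sub_self]
            exact (QL_wU01 n l t _).1
          · rw [if_neg hM, sub_zero, hgood M hM]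
      rw [L_sub, hL.one, ← pr_def] at h1
      linarith
    have hmul := pr_mul_if hL hbU hQ0
    have hle : L (fun N => if (Q : ℤ) ∣ N then wU n l t N else 0) ≤ L (fun N => wU n l t N) := by
      refine hL.mono ?_ hbU fun N => ?_
      · refine Bd.of_le hbU fun N => ?_
        split_ifs
        · exact le_rfl
        · rw [abs_zero]
          exact abs_nonneg _
      · split_ifs
        · exact le_rfl
        · exact (QL_wU01 n l t N).1
    rw [e0]
    calc (1 / (2 * Q) : ℝ) = 1 / 2 / Q := by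
          field_simp
      _ ≤ L (fun M => wU n l t (Q * M)) / Q := by
          apply div_le_div_of_nonneg_right hhalf hQR.le
      _ = L (fun N => if (Q : ℤ) ∣ N then wU n l t N else 0) := hmul.symm
      _ ≤ L (fun N => wU n l t N) := hle

end Pool.Agent.Lib.TU2
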