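import Pool.Agent.Lib.TU2.QPos
import Pool.Agent.Lib.TU2.QLow
import Pool.Agent.Lib.TU2.QAvg

/-!
# TU2 / QCnt (row QC, about 250 lines): almost all places are good

STATEMENT: below, verbatim.

PROOF. `Q, κ` from `word_low`. `c` from `word_gap 4`. `T m i = Q m i + n i`. `η = c κ/(2 · 4^r)`. Let `m ∈ [0,H)^r`.
(A) If the `m i` are pairwise different, then `hinj` holds for `T m` on `lets n l`: the letters of `i` are at `Q m i + n i + a`, `a < l i`; for `i ≠ i'` the difference is `Q (m i - m i')` plus a number of absolute value `< Q`, so not `0`; for `i = i'` clear. The `m` for which two are equal: at most `r² H^(r-1)`.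
(B) For `B ⊆ lets n l` with an `i` which has exactly one letter `(i, a)` in `B`: `∑_{m ∈ [0,H)^r} (cU (T m) B)² ≤ H^(r-1) √H`. Fix all `m i'`, `i' ≠ i`: `cU (T m) B = L (F N * G (N + Q m i))` with `G N = wd (n i) (l i) (N + n i) * mz (N + n i + a)` and `F` the product of the other factors (it does not depend on `m i`), `|F|, |G| ≤ 1`.
`single_avg`: its hypothesis `L (G N G (N + Q m)) = 0`, `m > 0`, is `word_zero` for two words (`r = 2`, `n = ![n i, n i]`, `l = ![l i, l i]`, `t = ![n i, Q m + n i]`, `B = {(0,a), (1,a)}`, different places as `Q m > 0`; `wU` of two words is the product of the two `wd`). The sum over the box is a double sum (over `m i` and the others: `Fintype.piFinset` of functions; e.g. `Function.update`, or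
fiberwise over the restriction; or `Fin.insertNthEquiv`). So at most `H^(r-1) √H/η²` of the `m` have `|cU (T m) B| > η`.
(C) If `m` is in none of these sets (at most `2^|lets| ≤ 4^r` sets `B`), then `word_pos` applies to `t = T m` (`4^r η = c κ/2 < c cU ∅`, `κ ≤ cU ∅`): `m` is not bad. So `#bad ≤ r² H^(r-1) + 4^r H^(r-1) √H/η² ≤ δ H^r` for `H ≥ H0` (for `r = 0`: `bad` is empty since (A) and (B) are void; `r² H^(r-1) = 0`).
-/

set_option autoImplicit false

open Finset

namespace Pool.Agent.Lib.TU2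

open Pool.Agent.Lib.TU

private theorem wd_abs (n0 l : ℕ) (N : ℤ) : |wd n0 l N| ≤ 1 := by
  unfold wd
  split_ifs <;> simp

private theorem mz_abs (N : ℤ) : |mz N| ≤ 1 := by
  have h : mz N = 0 ∨ mz N = 1 ∨ mz N = -1 := by
    unfold mz muz
    rcases eq_or_ne (ArithmeticFunction.moebius N.toNat) 0 with h0 | h0
    · left; simp [h0]
    · rcases ArithmeticFunction.moebius_ne_zero_iff_eq_or.mp h0 with h1 | h1
      · right; left; simp [h1]
      · right; right; simp [h1]
  rcases h with h | h | h <;> rw [h] <;> simp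

private theorem prod_abs {ι : Type*} (s : Finset ι) (f : ι → ℝ) (h : ∀ i ∈ s, |f i| ≤ 1) : |∏ i ∈ s, f i| ≤ 1 := by
  rw [Finset.abs_prod]
  exact Finset.prod_le_one (fun i _ => abs_nonneg _) h

/-- averaging over one coordinate of the box -/
private theorem box_avg {r : ℕ} (H : ℕ) (i : Fin r) (f : (Fin r → ℕ) → ℝ) :
    ∑ m ∈ Fintype.piFinset (fun _ : Fin r => range H), ∑ h ∈ range H, f (Function.update m i h) =
      H * ∑ m ∈ Fintype.piFinset (fun _ : Fin r => range H), f m := by
  have h1 : ∑ m ∈ Fintype.piFinset (fun _ : Fin r => range H), ∑ h ∈ range H, f (Function.update m i h) =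
      ∑ m ∈ Fintype.piFinset (fun _ : Fin r => range H), ∑ _h ∈ range H, f m := by
    rw [← Finset.sum_product', ← Finset.sum_product']
    refine Finset.sum_nbij' (fun x => (Function.update x.1 i x.2, x.1 i)) (fun x => (Function.update x.1 i x.2, x.1 i)) ?_ ?_ ?_ ?_ ?_
    · intro x hx
      rw [Finset.mem_product, Fintype.mem_piFinset] at hx ⊢
      refine ⟨fun j => ?_, hx.1 i⟩
      by_cases hj : j = i
      · subst hj; simpa using hx.2
      · simpa [Function.update_of_ne hj] using hx.1 j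
    · intro x hx
      rw [Finset.mem_product, Fintype.mem_piFinset] at hx ⊢
      refine ⟨fun j => ?_, hx.1 i⟩
      by_cases hj : j = i
      · subst hj; simpa using hx.2
      · simpa [Function.update_of_ne hj] using hx.1 j
    · intro x _
      simp
    · intro x _
      simp
    · intro x _
      simp
  rw [h1]
  simp only [Finset.sum_const, Finset.card_range, nsmul_eq_mul]
  rw [← Finset.mul_sum]

private theorem box_card (r H : ℕ) : ((Fintype.piFinset (fun _ : Fin r => range H)).card : ℝ) = (H : ℝ) ^ r := by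
  rw [Fintype.card_piFinset]
  simp

/-- few place vectors with two equal places -/
private theorem box_eq {r : ℕ} (H : ℕ) (i j : Fin r) (hij : i ≠ j) :
    (H : ℝ) * (((Fintype.piFinset (fun _ : Fin r => range H)).filter (fun m => m i = m j)).card : ℝ) ≤ (H : ℝ) ^ r := by
  have h1 := box_avg H i (fun m => if m i = m j then (1 : ℝ) else 0)
  have h2 : (((Fintype.piFinset (fun _ : Fin r => range H)).filter (fun m => m i = m j)).card : ℝ) =
      ∑ m ∈ Fintype.piFinset (fun _ : Fin r => range H), (if m i = m j then (1 : ℝ) else 0) := by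
    rw [Finset.sum_ite, Finset.sum_const, Finset.sum_const_zero, add_zero, nsmul_eq_mul, mul_one]
  rw [h2, ← h1, ← box_card r H, Finset.cast_card]
  refine Finset.sum_le_sum fun m _ => ?_
  have h3 : ∀ h ∈ range H, (if (Function.update m i h) i = (Function.update m i h) j then (1 : ℝ) else 0) = if h = m j then 1 else 0 := by
    intro h _
    rw [Function.update_self, Function.update_of_ne (Ne.symm hij)]
  rw [Finset.sum_congr rfl h3, Finset.sum_ite_eq']
  split_ifs <;> norm_num

private theorem inj_of {r : ℕ} (n l : Fin r → ℕ) (Q : ℕ) (hQl : ∀ i j, n i + l i + n j + l j < Q) (m : Fin r → ℕ)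
    (hm : ∀ i j, i ≠ j → m i ≠ m j) :
    Set.InjOn (fun e : (Σ _ : Fin r, ℕ) => ((Q : ℤ) * m e.1 + n e.1) + e.2) (lets n l : Set (Σ _ : Fin r, ℕ)) := by
  rintro ⟨i, a⟩ hi ⟨j, b⟩ hj h
  simp only [lets, Finset.coe_sigma, Set.mem_sigma_iff, Finset.mem_coe, spt, Finset.mem_filter, Finset.mem_range] at hi hj
  have ha : a < l i := hi.2.1
  have hb : b < l j := hj.2.1
  simp only at h
  have hij : i = j := by
    by_contra hne
    have h1 := hm i j hne
    have hQ := hQl i j
    rcases lt_or_gt_of_ne h1 with h2 | h2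
    · have h3 : (Q : ℤ) * (m i + 1) ≤ (Q : ℤ) * m j := by
        apply mul_le_mul_of_nonneg_left _ (by positivity)
        exact_mod_cast h2
      have h4 : (n i : ℤ) + l i + n j + l j < Q := by exact_mod_cast hQ
      have h5 : (a : ℤ) < l i := by exact_mod_cast ha
      have h6 : (b : ℤ) < l j := by exact_mod_cast hb
      have h7 : (0 : ℤ) ≤ n i := by positivity
      have h8 : (0 : ℤ) ≤ n j := by positivity
      have h9 : (0 : ℤ) ≤ a := by positivity
      have h10 : (0 : ℤ) ≤ b := by positivity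
      nlinarith
    · have h3 : (Q : ℤ) * (m j + 1) ≤ (Q : ℤ) * m i := by
        apply mul_le_mul_of_nonneg_left _ (by positivity)
        exact_mod_cast h2
      have h4 : (n i : ℤ) + l i + n j + l j < Q := by exact_mod_cast hQ
      have h5 : (a : ℤ) < l i := by exact_mod_cast ha
      have h6 : (b : ℤ) < l j := by exact_mod_cast hb
      have h7 : (0 : ℤ) ≤ n i := by positivity
      have h8 : (0 : ℤ) ≤ n j := by positivity
      have h9 : (0 : ℤ) ≤ a := by positivity
      have h10 : (0 : ℤ) ≤ b := by positivity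
      nlinarith
  subst hij
  have hab : (a : ℤ) = b := by linarith
  have hab' : a = b := by exact_mod_cast hab
  rw [hab']

private theorem pair_zero {L : (ℤ → ℝ) →ₗ[ℝ] ℝ} (hL : IsMean L) (n0 l0 a Q h : ℕ) (hn0 : 1 ≤ n0) (ha : a ∈ spt n0 l0)
    (hQ : 0 < Q) (hh : 0 < h) :
    L (fun N => (wd n0 l0 (N + n0) * mz (N + n0 + a)) * (wd n0 l0 (N + Q * h + n0) * mz (N + Q * h + n0 + a))) = 0 := by
  have h1 := word_zero hL (r := 2) (fun _ => n0) (fun _ => l0) (fun _ => hn0) ![(n0 : ℤ), (Q : ℤ) * h + n0]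
    {⟨0, a⟩, ⟨1, a⟩} (by
      intro e he
      rw [Finset.mem_insert, Finset.mem_singleton] at he
      rcases he with he | he <;> subst he <;> simpa [lets] using ha)
    (by
      rw [Finset.card_pair]
      intro h2
      have h3 := congrArg Sigma.fst h2
      simp at h3)
    (by
      have hpos : (0 : ℤ) < (Q : ℤ) * h := by positivity
      intro x hx y hy hxy
      simp only [Finset.coe_insert, Finset.coe_singleton, Set.mem_insert_iff, Set.mem_singleton_iff] at hx hy
      rcases hx with hx | hx <;> rcases hy with hy | hy <;> subst hx <;> subst hy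
      · rfl
      · exfalso
        simp at hxy
        omega
      · exfalso
        simp at hxy
        omega
      · rfl)
  rw [← h1]
  unfold cU
  congr 1
  funext N
  have h3 : (⟨0, a⟩ : (Σ _ : Fin 2, ℕ)) ∉ ({⟨1, a⟩} : Finset (Σ _ : Fin 2, ℕ)) := by
    rw [Finset.mem_singleton]
    intro h2
    have h3 := congrArg Sigma.fst h2
    simp at h3
  rw [Finset.prod_insert h3, Finset.prod_singleton]
  unfold wU
  rw [Fin.prod_univ_two]
  simp only [Matrix.cons_val_zero, Matrix.cons_val_one]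
  have e1 : N + ((Q : ℤ) * h + n0) = N + Q * h + n0 := by ring
  rw [e1]
  ring

private theorem single_box {L : (ℤ → ℝ) →ₗ[ℝ] ℝ} (hL : IsMean L) {r : ℕ} (n l : Fin r → ℕ) (hn : ∀ i, 1 ≤ n i) (Q : ℕ) (hQ : 0 < Q)
    (B : Finset (Σ _ : Fin r, ℕ)) (hB : B ⊆ lets n l) (i : Fin r) (hi : (B.filter (fun e => e.1 = i)).card = 1) (H : ℕ) (m : Fin r → ℕ) :
    ∑ h ∈ range H, (cU L n l (fun j => (Q : ℤ) * (Function.update m i h) j + n j) B) ^ 2 ≤ √(H : ℝ) := by
  obtain ⟨e0, he0⟩ := Finset.card_eq_one.mp hi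
  have he1 : e0 ∈ B.filter (fun e => e.1 = i) := by rw [he0]; exact Finset.mem_singleton_self _
  rw [Finset.mem_filter] at he1
  obtain ⟨i0, a⟩ := e0
  obtain ⟨heB, hei⟩ := he1
  simp only at hei
  subst hei
  have ha : a ∈ spt (n i0) (l i0) := by
    have := hB heB
    simpa [lets] using this
  have key := single_avg hL
    (fun N => (∏ j ∈ univ.erase i0, wd (n j) (l j) (N + ((Q : ℤ) * m j + n j))) *
      ∏ e ∈ B.filter (fun e => ¬ e.1 = i0), mz (N + ((Q : ℤ) * m e.1 + n e.1) + e.2))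
    (fun N => wd (n i0) (l i0) (N + n i0) * mz (N + n i0 + a))
    (fun N => by
      rw [abs_mul]
      exact mul_le_one₀ (prod_abs _ _ fun _ _ => wd_abs _ _ _) (abs_nonneg _) (prod_abs _ _ fun _ _ => mz_abs _))
    (fun N => by
      rw [abs_mul]
      exact mul_le_one₀ (wd_abs _ _ _) (abs_nonneg _) (mz_abs _))
    Q H (fun h hh => pair_zero hL (n i0) (l i0) a Q h (hn i0) ha hQ hh)
  refine le_of_eq_of_le (Finset.sum_congr rfl fun h _ => ?_) key
  congr 1
  unfold cU
  congr 1
  funext N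
  have h1 : wU n l (fun j => (Q : ℤ) * (Function.update m i0 h) j + n j) N =
      wd (n i0) (l i0) (N + ((Q : ℤ) * h + n i0)) * ∏ j ∈ univ.erase i0, wd (n j) (l j) (N + ((Q : ℤ) * m j + n j)) := by
    unfold wU
    rw [← Finset.mul_prod_erase univ _ (Finset.mem_univ i0)]
    simp only [Function.update_self]
    congr 1
    refine Finset.prod_congr rfl fun j hj => ?_
    rw [Finset.mem_erase] at hj
    rw [Function.update_of_ne hj.1]
  have h2 : ∏ e ∈ B, mz (N + (fun j => (Q : ℤ) * (Function.update m i0 h) j + n j) e.1 + e.2) =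
      mz (N + ((Q : ℤ) * h + n i0) + a) * ∏ e ∈ B.filter (fun e => ¬ e.1 = i0), mz (N + ((Q : ℤ) * m e.1 + n e.1) + e.2) := by
    rw [← Finset.prod_filter_mul_prod_filter_not B (fun e => e.1 = i0), he0, Finset.prod_singleton]
    simp only [Function.update_self]
    congr 1
    refine Finset.prod_congr rfl fun e he => ?_
    rw [Finset.mem_filter] at he
    rw [Function.update_of_ne he.2]
  rw [h1, h2]
  have e1 : N + ((Q : ℤ) * h + n i0) = N + Q * h + n i0 := by ring
  rw [e1]
  ring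

open Classical in
theorem word_cnt {r : ℕ} (n l : Fin r → ℕ) (hn : ∀ i, 1 ≤ n i)
    (hS : ∀ i, (spt (n i) (l i)).card ≤ 2) (hP : ((univ : Finset (Fin r)).filter (fun i => (spt (n i) (l i)).card = 2)).card ≤ 2) :
    ∃ Q : ℕ, 0 < Q ∧ ∀ δ : ℝ, 0 < δ → ∃ H0 : ℕ, ∀ H : ℕ, H0 ≤ H → ∀ L : (ℤ → ℝ) →ₗ[ℝ] ℝ, IsMean L →
      (((Fintype.piFinset (fun _ : Fin r => range H)).filter (fun m => ¬ ∀ x : Fin r → ℕ → ℤ,
        (∀ i, ∀ a ∈ spt (n i) (l i), x i a = 1 ∨ x i a = -1) →
          0 < L (fun N => if (∀ i, 1 ≤ N + ((Q : ℤ) * m i + n i) ∧ ∀ j : ℕ, j < l i → muz (N + ((Q : ℤ) * m i + n i) + j) ^ 2 = muz (n i + j) ^ 2) ∧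
            (∀ i, ∀ a ∈ spt (n i) (l i), muz (N + ((Q : ℤ) * m i + n i) + a) = x i a) then 1 else 0))).card : ℝ) ≤ δ * (H : ℝ) ^ r := by
  obtain ⟨Q, κ, hQ, hQl, hκ, hlow⟩ := word_low n l hn
  obtain ⟨c, hc0, hc1, hgap⟩ := word_gap 4 (by norm_num)
  refine ⟨Q, hQ, fun δ hδ => ?_⟩
  set η : ℝ := c * κ / (2 * 4 ^ r) with hη
  have hη0 : 0 < η := by positivity
  set K : ℝ := (r : ℝ) ^ 2 + 4 ^ r / η ^ 2 with hK
  have hK0 : 0 < K := by positivity
  obtain ⟨H0, hH0⟩ := exists_nat_gt ((K / δ) ^ 2)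
  refine ⟨H0 + 1, fun H hH L hL => ?_⟩
  have hH1 : 1 ≤ H := by omega
  have hHr : (1 : ℝ) ≤ H := by exact_mod_cast hH1
  have hsq : K / δ ≤ √(H : ℝ) := by
    refine Real.le_sqrt_of_sq_le (hH0.le.trans ?_)
    exact_mod_cast (by omega : H0 ≤ H)
  have hs1 : (1 : ℝ) ≤ √(H : ℝ) := by
    rw [Real.one_le_sqrt]
    exact hHr
  have hs0 : (0 : ℝ) < √(H : ℝ) := by linarith
  have hss : √(H : ℝ) * √(H : ℝ) = H := Real.mul_self_sqrt (by positivity)
  set box := Fintype.piFinset (fun _ : Fin r => range H) with hbox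
  set PP : Finset (Finset (Σ _ : Fin r, ℕ)) := (lets n l).powerset.filter (fun B => ∃ i, (B.filter (fun e => e.1 = i)).card = 1) with hPP
  set D : Finset (Fin r × Fin r) := (univ : Finset (Fin r × Fin r)).filter (fun x => x.1 ≠ x.2) with hD
  -- the bad place vectors
  have hsub : (box.filter (fun m => ¬ ∀ x : Fin r → ℕ → ℤ,
        (∀ i, ∀ a ∈ spt (n i) (l i), x i a = 1 ∨ x i a = -1) →
          0 < L (fun N => if (∀ i, 1 ≤ N + ((Q : ℤ) * m i + n i) ∧ ∀ j : ℕ, j < l i → muz (N + ((Q : ℤ) * m i + n i) + j) ^ 2 = muz (n i + j) ^ 2) ∧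
            (∀ i, ∀ a ∈ spt (n i) (l i), muz (N + ((Q : ℤ) * m i + n i) + a) = x i a) then 1 else 0))) ⊆
      (D.biUnion fun x => box.filter (fun m => m x.1 = m x.2)) ∪
        (PP.biUnion fun B => box.filter (fun m => η < |cU L n l (fun j => (Q : ℤ) * m j + n j) B|)) := by
    intro m hm
    rw [Finset.mem_filter] at hm
    obtain ⟨hmb, hbad⟩ := hm
    by_contra hcon
    rw [Finset.mem_union, not_or, Finset.mem_biUnion, Finset.mem_biUnion] at hcon
    obtain ⟨hA, hB⟩ := hcon
    apply hbad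
    intro x hx
    have hmi : ∀ i j, i ≠ j → m i ≠ m j := by
      intro i j hij hmij
      exact hA ⟨(i, j), by rw [hD, Finset.mem_filter]; exact ⟨Finset.mem_univ _, hij⟩, by
        rw [Finset.mem_filter]; exact ⟨hmb, hmij⟩⟩
    have hinj := inj_of n l Q hQl m hmi
    refine word_pos hL n l hn (fun i => (Q : ℤ) * m i + n i) hS hP hinj c η hc1 ?_ ?_ hη0.le ?_ x hx
    · intro B hBl hB4
      exact hgap L hL r n l hn _ B hBl hB4 (hinj.mono (by exact_mod_cast hBl))
    · intro B hBl hBi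
      by_contra hlt
      rw [not_le] at hlt
      exact hB ⟨B, by rw [hPP, Finset.mem_filter, Finset.mem_powerset]; exact ⟨hBl, hBi⟩, by
        rw [Finset.mem_filter]; exact ⟨hmb, hlt⟩⟩
    · have h1 := hlow L hL m
      have h2 : (4 : ℝ) ^ r * η = c * κ / 2 := by
        rw [hη]
        field_simp
      rw [h2]
      have h3 : c * κ ≤ c * cU L n l (fun i => (Q : ℤ) * m i + n i) ∅ := mul_le_mul_of_nonneg_left h1 hc0.le
      have h4 : 0 < c * κ := mul_pos hc0 hκ
      linarith
  have hHr0 : (0 : ℝ) < (H : ℝ) ^ r := by positivity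
  have hA : ((D.biUnion fun x => box.filter (fun m => m x.1 = m x.2)).card : ℝ) ≤ (r : ℝ) ^ 2 * ((H : ℝ) ^ r / √(H : ℝ)) := by
    have h1 : ((D.biUnion fun x => box.filter (fun m => m x.1 = m x.2)).card : ℝ) ≤
        ∑ x ∈ D, ((box.filter (fun m => m x.1 = m x.2)).card : ℝ) := by
      exact_mod_cast Finset.card_biUnion_le
    have h2 : ∀ x ∈ D, ((box.filter (fun m => m x.1 = m x.2)).card : ℝ) ≤ (H : ℝ) ^ r / √(H : ℝ) := by
      intro x hx
      rw [hD, Finset.mem_filter] at hx
      have h3 := box_eq H x.1 x.2 hx.2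
      rw [le_div_iff₀ hs0]
      refine le_trans ?_ h3
      rw [mul_comm]
      refine mul_le_mul_of_nonneg_right ?_ (by positivity)
      nlinarith
    have h3 : (D.card : ℝ) ≤ (r : ℝ) ^ 2 := by
      have : D.card ≤ (univ : Finset (Fin r × Fin r)).card := Finset.card_filter_le _ _
      rw [Finset.card_univ, Fintype.card_prod, Fintype.card_fin] at this
      have h4 : (D.card : ℝ) ≤ (r : ℝ) * r := by exact_mod_cast this
      nlinarith
    refine h1.trans ((Finset.sum_le_sum h2).trans ?_)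
    rw [Finset.sum_const, nsmul_eq_mul]
    exact mul_le_mul_of_nonneg_right h3 (by positivity)
  have hB : ((PP.biUnion fun B => box.filter (fun m => η < |cU L n l (fun j => (Q : ℤ) * m j + n j) B|)).card : ℝ) ≤
      4 ^ r / η ^ 2 * ((H : ℝ) ^ r / √(H : ℝ)) := by
    have h1 : ((PP.biUnion fun B => box.filter (fun m => η < |cU L n l (fun j => (Q : ℤ) * m j + n j) B|)).card : ℝ) ≤
        ∑ B ∈ PP, ((box.filter (fun m => η < |cU L n l (fun j => (Q : ℤ) * m j + n j) B|)).card : ℝ) := by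
      exact_mod_cast Finset.card_biUnion_le
    have h2 : ∀ B ∈ PP, ((box.filter (fun m => η < |cU L n l (fun j => (Q : ℤ) * m j + n j) B|)).card : ℝ) ≤
        1 / η ^ 2 * ((H : ℝ) ^ r / √(H : ℝ)) := by
      intro B hBP
      rw [hPP, Finset.mem_filter, Finset.mem_powerset] at hBP
      obtain ⟨hBl, i, hi⟩ := hBP
      have h3 := box_avg H i (fun m => (cU L n l (fun j => (Q : ℤ) * m j + n j) B) ^ 2)
      have h4 : ∑ m ∈ box, ∑ h ∈ range H, (cU L n l (fun j => (Q : ℤ) * (Function.update m i h) j + n j) B) ^ 2 ≤ (H : ℝ) ^ r * √(H : ℝ) := by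
        refine (Finset.sum_le_sum fun m _ => single_box hL n l hn Q hQ B hBl i hi H m).trans ?_
        rw [Finset.sum_const, nsmul_eq_mul, hbox, box_card]
      rw [← hbox] at h3
      rw [h3] at h4
      have h5 : ∑ m ∈ box, (cU L n l (fun j => (Q : ℤ) * m j + n j) B) ^ 2 ≤ (H : ℝ) ^ r / √(H : ℝ) := by
        rw [le_div_iff₀ hs0]
        have h6 : √(H : ℝ) * (√(H : ℝ) * ∑ m ∈ box, (cU L n l (fun j => (Q : ℤ) * m j + n j) B) ^ 2) ≤ √(H : ℝ) * (H : ℝ) ^ r := by
          rw [← mul_assoc, hss]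
          linarith
        have h7 := le_of_mul_le_mul_left h6 hs0
        linarith
      have h6 : η ^ 2 * ((box.filter (fun m => η < |cU L n l (fun j => (Q : ℤ) * m j + n j) B|)).card : ℝ) ≤
          ∑ m ∈ box, (cU L n l (fun j => (Q : ℤ) * m j + n j) B) ^ 2 := by
        have h7 : ∑ m ∈ box.filter (fun m => η < |cU L n l (fun j => (Q : ℤ) * m j + n j) B|), (cU L n l (fun j => (Q : ℤ) * m j + n j) B) ^ 2 ≤
            ∑ m ∈ box, (cU L n l (fun j => (Q : ℤ) * m j + n j) B) ^ 2 :=
          Finset.sum_le_sum_of_subset_of_nonneg (Finset.filter_subset _ _) fun _ _ _ => sq_nonneg _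
        refine le_trans ?_ h7
        rw [mul_comm, ← nsmul_eq_mul]
        refine Finset.card_nsmul_le_sum _ _ _ fun m hm => ?_
        rw [Finset.mem_filter] at hm
        rw [← sq_abs (cU L n l _ B)]
        exact pow_le_pow_left₀ hη0.le hm.2.le 2
      have hη2 : 0 < η ^ 2 := by positivity
      rw [one_div, ← div_eq_inv_mul, le_div_iff₀ hη2, mul_comm]
      exact h6.trans h5
    have h3 : (PP.card : ℝ) ≤ 4 ^ r := by
      have h4 : PP.card ≤ (lets n l).powerset.card := Finset.card_filter_le _ _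
      rw [Finset.card_powerset] at h4
      have h5 : (lets n l).card ≤ 2 * r := by
        unfold lets
        rw [Finset.card_sigma]
        refine (Finset.sum_le_sum fun i _ => hS i).trans ?_
        simp [mul_comm]
      have h6 : 2 ^ (lets n l).card ≤ 2 ^ (2 * r) := Nat.pow_le_pow_right (by norm_num) h5
      have h7 : PP.card ≤ 4 ^ r := by
        refine h4.trans (h6.trans ?_)
        rw [pow_mul]
        norm_num
      exact_mod_cast h7
    refine h1.trans ((Finset.sum_le_sum h2).trans ?_)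
    rw [Finset.sum_const, nsmul_eq_mul, ← mul_assoc]
    refine mul_le_mul_of_nonneg_right ?_ (by positivity)
    rw [mul_one_div]
    exact div_le_div_of_nonneg_right h3 (by positivity)
  have hfin : (r : ℝ) ^ 2 * ((H : ℝ) ^ r / √(H : ℝ)) + 4 ^ r / η ^ 2 * ((H : ℝ) ^ r / √(H : ℝ)) ≤ δ * (H : ℝ) ^ r := by
    rw [← add_mul, ← hK, ← mul_div_assoc, div_le_iff₀ hs0]
    have h1 : K ≤ √(H : ℝ) * δ := by rwa [div_le_iff₀ hδ] at hsq
    calc K * (H : ℝ) ^ r ≤ √(H : ℝ) * δ * (H : ℝ) ^ r := mul_le_mul_of_nonneg_right h1 hHr0.le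
      _ = δ * (H : ℝ) ^ r * √(H : ℝ) := by ring
  have hc := Finset.card_le_card hsub
  have hc2 := hc.trans (Finset.card_union_le _ _)
  have hc3 : ((box.filter (fun m => ¬ ∀ x : Fin r → ℕ → ℤ,
        (∀ i, ∀ a ∈ spt (n i) (l i), x i a = 1 ∨ x i a = -1) →
          0 < L (fun N => if (∀ i, 1 ≤ N + ((Q : ℤ) * m i + n i) ∧ ∀ j : ℕ, j < l i → muz (N + ((Q : ℤ) * m i + n i) + j) ^ 2 = muz (n i + j) ^ 2) ∧
            (∀ i, ∀ a ∈ spt (n i) (l i), muz (N + ((Q : ℤ) * m i + n i) + a) = x i a) then 1 else 0))).card : ℝ) ≤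
      ((D.biUnion fun x => box.filter (fun m => m x.1 = m x.2)).card : ℝ) +
        ((PP.biUnion fun B => box.filter (fun m => η < |cU L n l (fun j => (Q : ℤ) * m j + n j) B|)).card : ℝ) := by
    exact_mod_cast hc2
  linarith

end Pool.Agent.Lib.TU2
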