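import Pool.Agent.Lib.TU2.PDef

/-!
# TU2 / QDef: several words of squares of the Möbius function at different places (definitions)
-/

set_option autoImplicit false

open Finset

namespace Pool.Agent.Lib.TU2

open Pool.Agent.Lib.TU

/-- `1` if for every `i` the word of squares at the place `N + t i` is the one at `n i` (of length `l i`), `0` otherwise -/
noncomputable def wU {r : ℕ} (n l : Fin r → ℕ) (t : Fin r → ℤ) (N : ℤ) : ℝ := ∏ i, wd (n i) (l i) (N + t i)

/-- the nonzero letters of all words -/
def lets {r : ℕ} (n l : Fin r → ℕ) : Finset (Σ _ : Fin r, ℕ) := (univ : Finset (Fin r)).sigma fun i => spt (n i) (l i)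

/-- the correlation of the letters in `B` on the words at the places `t i` -/
noncomputable def cU (L : (ℤ → ℝ) →ₗ[ℝ] ℝ) {r : ℕ} (n l : Fin r → ℕ) (t : Fin r → ℤ) (B : Finset (Σ _ : Fin r, ℕ)) : ℝ :=
  L (fun N => wU n l t N * ∏ e ∈ B, mz (N + t e.1 + e.2))

end Pool.Agent.Lib.TU2
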