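import Pool.Agent.Lib.TU2.QCnt
import Pool.Agent.Lib.TU.Mean

/-!
# TU2 / QFin (row QF, about 100 lines): almost all places are good, for logarithmic averages

STATEMENT: below, verbatim.

PROOF. `Q` and `H0` from `word_cnt`. `L` from `exists_mean U` for one ultrafilter `U ≤ atTop` (as in PFin.lean). If `m` is good for `L`, then for every `x` the function `E` in `word_cnt` has `L E > 0`; the function `E'` here differs from it at most for `N ≤ 0` (for `N ≥ 1` all `N + (Q m i + n i) ≥ 1`), so `L E' = L E` (`L_eq_of_ge`), `lav X E' → L E'` along `U`,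
and with `c = L E'/2` there are arbitrarily large `X` with `c ≤ lav X E'`. So the bad `m` of the statement are bad for `L`.
-/

set_option autoImplicit false

open Finset

namespace Pool.Agent.Lib.TU2

open Pool.Agent.Lib.TU

open Classical in
theorem words_fin {r : ℕ} (n l : Fin r → ℕ) (hn : ∀ i, 1 ≤ n i)
    (hS : ∀ i, (spt (n i) (l i)).card ≤ 2) (hP : ((univ : Finset (Fin r)).filter (fun i => (spt (n i) (l i)).card = 2)).card ≤ 2) :
    ∃ Q : ℕ, 0 < Q ∧ ∀ δ : ℝ, 0 < δ → ∃ H0 : ℕ, ∀ H : ℕ, H0 ≤ H →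
      (((Fintype.piFinset (fun _ : Fin r => range H)).filter (fun m => ¬ ∀ x : Fin r → ℕ → ℤ,
        (∀ i, ∀ a ∈ spt (n i) (l i), x i a = 1 ∨ x i a = -1) →
          ∃ c : ℝ, 0 < c ∧ ∀ X0 : ℕ, ∃ X : ℕ, X0 ≤ X ∧ c ≤ lav X (fun N => if 1 ≤ N ∧
            (∀ i, ∀ j : ℕ, j < l i → muz (N + ((Q : ℤ) * m i + n i) + j) ^ 2 = muz (n i + j) ^ 2) ∧
            (∀ i, ∀ a ∈ spt (n i) (l i), muz (N + ((Q : ℤ) * m i + n i) + a) = x i a) then 1 else 0))).card : ℝ) ≤ δ * (H : ℝ) ^ r := by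
  obtain ⟨Q, hQ, hc⟩ := word_cnt n l hn hS hP
  refine ⟨Q, hQ, fun δ hδ => ?_⟩
  obtain ⟨H0, hH0⟩ := hc δ hδ
  refine ⟨H0, fun H hH => ?_⟩
  obtain ⟨L, hL, hlim⟩ := exists_mean (Ultrafilter.of Filter.atTop) (Ultrafilter.of_le Filter.atTop)
  refine le_trans (Nat.cast_le.2 (card_le_card fun m hm => ?_)) (hH0 H hH L hL)
  rw [mem_filter] at hm ⊢
  refine ⟨hm.1, fun hgood => hm.2 fun x hx => ?_⟩
  have hpos := hgood x hx
  have hb : Bd (fun N : ℤ => if (∀ i, 1 ≤ N + ((Q : ℤ) * m i + n i) ∧ ∀ j : ℕ, j < l i →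
      muz (N + ((Q : ℤ) * m i + n i) + j) ^ 2 = muz (n i + j) ^ 2) ∧
      (∀ i, ∀ a ∈ spt (n i) (l i), muz (N + ((Q : ℤ) * m i + n i) + a) = x i a) then (1 : ℝ) else 0) :=
    ⟨1, fun n => by beta_reduce; split_ifs <;> norm_num⟩
  have hb' : Bd (fun N : ℤ => if 1 ≤ N ∧
      (∀ i, ∀ j : ℕ, j < l i → muz (N + ((Q : ℤ) * m i + n i) + j) ^ 2 = muz (n i + j) ^ 2) ∧
      (∀ i, ∀ a ∈ spt (n i) (l i), muz (N + ((Q : ℤ) * m i + n i) + a) = x i a) then (1 : ℝ) else 0) :=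
    ⟨1, fun n => by beta_reduce; split_ifs <;> norm_num⟩
  have heq := L_eq_of_ge hL hb hb' 0 (fun N hN => by
    refine if_congr ?_ rfl rfl
    have hN' : (0 : ℤ) < N := by simpa using hN
    constructor
    · rintro ⟨h1, h2⟩
      exact ⟨by omega, fun i => (h1 i).2, h2⟩
    · rintro ⟨_, h1, h2⟩
      refine ⟨fun i => ⟨?_, h1 i⟩, h2⟩
      have e1 : (0 : ℤ) ≤ (Q : ℤ) * m i := mul_nonneg (Int.natCast_nonneg _) (Int.natCast_nonneg _)
      have e2 : (0 : ℤ) ≤ (n i : ℤ) := Int.natCast_nonneg _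
      omega)
  rw [heq] at hpos
  refine ⟨_, half_pos hpos, fun X0 => ?_⟩
  have h1 := (hlim _ hb').eventually (lt_mem_nhds (half_lt_self hpos))
  have h2 : ∀ᶠ X in ((Ultrafilter.of Filter.atTop : Ultrafilter ℕ) : Filter ℕ), X0 ≤ X :=
    (Filter.eventually_ge_atTop X0).filter_mono (Ultrafilter.of_le Filter.atTop)
  obtain ⟨X, hX1, hX2⟩ := (h2.and h1).exists
  exact ⟨X, hX1, hX2.le⟩

end Pool.Agent.Lib.TU2
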