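import Pool.Agent.Lib.TU2.QApp
import Pool.Agent.Lib.TU2.PTwo
import Pool.Agent.Lib.TU.Gap

/-!
# TU2 / QGap (row QG, about 180 lines): gap and vanishing for correlations on words

STATEMENTS: below, verbatim.

PROOF of `word_gap`. `c` from `gap k hk` (TU/Gap.lean), replaced by `min c 1`. Let `ε > 0`, `Q, w` from `word_app` for `ε`. `w N = ∑_{u < Q, w u = 1} [Q ∣ N - u]` (each `N` lies in exactly one class), so `L (w · ∏_{e ∈ B} lam (N + t e.1 + e.2)) = ∑_{u < Q, w u = 1} L ([Q ∣ N - u] ∏_B lam ..)`, and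
`L ([Q ∣ N - u] f N) = L (M ↦ f (Q M + u))/Q` (`shiftz` by `u`, `pr_mul_if`). By `gap` with `A = Q` and the numbers `u + t e.1 + e.2`, `e ∈ B` (different for different `e` by `hinj`; index `B` by `Fin k`: `B.equivFin`, as in MuL.lean): each term is at most `(1 - c)/Q` in absolute value. Also `L w = #{u < Q : w u = 1}/Q` (`pr_mod`).
So `|L (w · ∏_B lam)| ≤ (1 - c) L w`, `|cU B| ≤ (1 - c) L w + ε ≤ (1 - c) (cU ∅ + ε) + ε` (`word_app` for `B` and for `∅`; `cU L n l t ∅ = L (wU n l t)`). Let `ε → 0`.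
PROOF of `word_zero`. The same with `two_ap` (and `shiftz`) in the place of `gap`: every term is `0`.
-/

set_option autoImplicit false

open Finset

namespace Pool.Agent.Lib.TU2

open Pool.Agent.Lib.TU

open Classical in
/-- the mean over a periodic set is a sum over the residue classes -/
private theorem qg_sum {L : (ℤ → ℝ) →ₗ[ℝ] ℝ} {Q : ℕ} (hQ : 0 < Q) {w : ℤ → ℝ}
    (hp : ∀ N M : ℤ, (Q : ℤ) ∣ N - M → w N = w M) (f : ℤ → ℝ) :
    L (fun N => w N * f N) =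
      ∑ u ∈ range Q, w (u : ℕ) * L (fun N => if (Q : ℤ) ∣ N - (u : ℕ) then f N else 0) := by
  have h1 : (fun N => w N * f N) =
      fun N => ∑ u ∈ range Q, w (u : ℕ) * (if (Q : ℤ) ∣ N - (u : ℕ) then f N else 0) := by
    funext N
    have hQz : (0 : ℤ) < Q := by exact_mod_cast hQ
    have h5 := Int.emod_lt_of_pos N hQz
    have h6 := Int.emod_nonneg N hQz.ne'
    have h2 : (((N % (Q : ℤ)).toNat : ℕ) : ℤ) = N % Q := Int.toNat_of_nonneg h6
    have h3 : (Q : ℤ) ∣ N - (((N % (Q : ℤ)).toNat : ℕ) : ℤ) := by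
      rw [h2]
      exact Int.dvd_self_sub_emod
    rw [sum_eq_single (N % (Q : ℤ)).toNat]
    · rw [if_pos h3, hp N _ h3]
    · intro u hu hne
      rw [if_neg, mul_zero]
      intro h4
      apply hne
      have h7 : (Q : ℤ) ∣ (((N % (Q : ℤ)).toNat : ℕ) : ℤ) - (u : ℕ) := by
        have h8 := dvd_sub h4 h3
        have h9 : N - (u : ℤ) - (N - (((N % (Q : ℤ)).toNat : ℕ) : ℤ)) = (((N % (Q : ℤ)).toNat : ℕ) : ℤ) - (u : ℕ) := by
          ring
        rwa [h9] at h8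
      rw [h2] at h7
      have hu' : (u : ℤ) < Q := by exact_mod_cast mem_range.1 hu
      have h8 : N % (Q : ℤ) - (u : ℕ) = 0 := Int.eq_zero_of_abs_lt_dvd h7 (abs_lt.2 ⟨by omega, by omega⟩)
      omega
    · intro h4
      exact absurd (mem_range.2 (by omega)) h4
  rw [h1, L_sum]
  exact sum_congr rfl fun u _ => L_mul _ _

open Classical in
/-- a residue class -/
private theorem qg_class {L : (ℤ → ℝ) →ₗ[ℝ] ℝ} (hL : IsMean L) {Q : ℕ} (hQ : 0 < Q) {f : ℤ → ℝ} (hf : Bd f) (u : ℤ) :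
    L (fun N => if (Q : ℤ) ∣ N - u then f N else 0) = L (fun m => f (Q * m + u)) / Q := by
  have hb : Bd (fun N => if (Q : ℤ) ∣ N - u then f N else 0) := by
    refine hf.of_le fun N => ?_
    split_ifs
    · exact le_rfl
    · simp
  rw [← hL.shiftz hb u, ← pr_mul_if hL (hf.comp fun n => n + u) hQ]
  congr 1
  funext N
  rw [add_sub_cancel_right]

/-- products of values of `lam` are bounded -/
private theorem qg_bd {r : ℕ} (t : Fin r → ℤ) (B : Finset (Σ _ : Fin r, ℕ)) :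
    Bd (fun N => ∏ e ∈ B, lam (N + t e.1 + e.2)) := ⟨1, fun N => by
  rw [abs_prod]
  exact prod_le_one (fun _ _ => abs_nonneg _) fun _ _ => lam_abs_le _⟩

theorem word_gap (k : ℕ) (hk : 1 ≤ k) : ∃ c : ℝ, 0 < c ∧ c ≤ 1 ∧ ∀ L : (ℤ → ℝ) →ₗ[ℝ] ℝ, IsMean L → ∀ (r : ℕ) (n l : Fin r → ℕ),
    (∀ i, 1 ≤ n i) → ∀ (t : Fin r → ℤ) (B : Finset (Σ _ : Fin r, ℕ)), B ⊆ lets n l → B.card = k →
      Set.InjOn (fun e : (Σ _ : Fin r, ℕ) => t e.1 + e.2) (B : Set (Σ _ : Fin r, ℕ)) →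
        |cU L n l t B| ≤ (1 - c) * cU L n l t ∅ := by
  classical
  obtain ⟨c0, hc0, hgap⟩ := gap k hk
  refine ⟨min c0 1, lt_min hc0 one_pos, min_le_right _ _, ?_⟩
  intro L hL r n l hn t B hB hBk hinj
  obtain ⟨c, hc⟩ : ∃ c : ℝ, c = min c0 1 := ⟨_, rfl⟩
  rw [← hc]
  have hc1 : c ≤ 1 := hc ▸ min_le_right _ _
  have hcc : c ≤ c0 := hc ▸ min_le_left _ _
  have hcpos : 0 < c := hc ▸ lt_min hc0 one_pos
  refine le_of_forall_pos_le_add fun ε hε => ?_
  obtain ⟨Q, w, hQ, hw, hp, happ⟩ := word_app n l hn t (ε / 2) (half_pos hε)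
  have hQr : (0 : ℝ) < Q := by exact_mod_cast hQ
  have hB' := happ L hL B hB
  have h0' := happ L hL ∅ (empty_subset _)
  simp only [prod_empty] at h0'
  have hterm : ∀ u : ℕ, |L (fun N => if (Q : ℤ) ∣ N - (u : ℕ) then ∏ e ∈ B, lam (N + t e.1 + e.2) else 0)| ≤
      (1 - c) * (1 / Q) := by
    intro u
    rw [qg_class hL hQ (qg_bd t B) u, abs_div, Nat.abs_cast, mul_one_div]
    refine div_le_div_of_nonneg_right ?_ hQr.le
    have h1 := hgap L hL Q (fun i => (u : ℤ) + (t ((B.equivFinOfCardEq hBk).symm i).1.1 +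
      (((B.equivFinOfCardEq hBk).symm i).1.2 : ℕ))) hQ (by
        intro i j hij
        have h2 : t ((B.equivFinOfCardEq hBk).symm i).1.1 + (((B.equivFinOfCardEq hBk).symm i).1.2 : ℕ) =
            t ((B.equivFinOfCardEq hBk).symm j).1.1 + (((B.equivFinOfCardEq hBk).symm j).1.2 : ℕ) :=
          add_left_cancel hij
        exact (B.equivFinOfCardEq hBk).symm.injective
          (Subtype.ext (hinj ((B.equivFinOfCardEq hBk).symm i).2 ((B.equivFinOfCardEq hBk).symm j).2 h2)))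
    have h2 : (fun m : ℤ => ∏ i, lam ((Q : ℤ) * m + ((u : ℤ) + (t ((B.equivFinOfCardEq hBk).symm i).1.1 +
        (((B.equivFinOfCardEq hBk).symm i).1.2 : ℕ))))) =
        fun m : ℤ => ∏ e ∈ B, lam ((Q : ℤ) * m + (u : ℤ) + t e.1 + e.2) := by
      funext m
      rw [← prod_coe_sort B (fun e => lam ((Q : ℤ) * m + (u : ℤ) + t e.1 + e.2)),
        ← Equiv.prod_comp (B.equivFinOfCardEq hBk).symm (fun e : B => lam ((Q : ℤ) * m + (u : ℤ) + t e.1.1 + e.1.2))]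
      refine prod_congr rfl fun i _ => ?_
      congr 1
      ring
    rw [h2] at h1
    linarith
  -- the mean of `w`
  have hw1 : L (fun N => w N * 1) = ∑ u ∈ range Q, w (u : ℕ) * (1 / Q) := by
    rw [qg_sum hQ hp (fun _ => 1)]
    refine sum_congr rfl fun u _ => ?_
    rw [← pr_mod hL hQ (u : ℤ), pr_def]
  have hw0 : ∀ N, 0 ≤ w N := fun N => by
    rcases hw N with h | h <;> rw [h]
    exact zero_le_one
  have hmain : |L (fun N => w N * ∏ e ∈ B, lam (N + t e.1 + e.2))| ≤ (1 - c) * L (fun N => w N * 1) := by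
    rw [qg_sum hQ hp, hw1, mul_sum]
    refine (abs_sum_le_sum_abs _ _).trans (sum_le_sum fun u _ => ?_)
    rw [abs_mul, abs_of_nonneg (hw0 _)]
    calc w (u : ℕ) * |L (fun N => if (Q : ℤ) ∣ N - (u : ℕ) then ∏ e ∈ B, lam (N + t e.1 + e.2) else 0)|
        ≤ w (u : ℕ) * ((1 - c) * (1 / Q)) := mul_le_mul_of_nonneg_left (hterm u) (hw0 _)
      _ = (1 - c) * (w (u : ℕ) * (1 / Q)) := by ring
  obtain ⟨X, hX⟩ : ∃ X : ℝ, X = L (fun N => w N * 1) := ⟨_, rfl⟩
  obtain ⟨Y, hY⟩ : ∃ Y : ℝ, Y = L (fun N => w N * ∏ e ∈ B, lam (N + t e.1 + e.2)) := ⟨_, rfl⟩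
  rw [← hX] at h0' hmain
  rw [← hY] at hB' hmain
  have h3 : |cU L n l t B| ≤ |Y| + ε / 2 := by
    have h4 : |cU L n l t B| ≤ |cU L n l t B - Y| + |Y| := by
      have h5 := abs_add_le (cU L n l t B - Y) Y
      rwa [sub_add_cancel] at h5
    linarith
  have h4 : X ≤ cU L n l t ∅ + ε / 2 := by
    have h5 := (_root_.abs_le.1 h0').1
    linarith
  have h5 : (1 - c) * X ≤ (1 - c) * (cU L n l t ∅ + ε / 2) := mul_le_mul_of_nonneg_left h4 (by linarith)
  have h6 : (1 - c) * (cU L n l t ∅ + ε / 2) ≤ (1 - c) * cU L n l t ∅ + ε / 2 := by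
    have h7 : 0 ≤ c * (ε / 2) := by positivity
    nlinarith
  linarith

theorem word_zero {L : (ℤ → ℝ) →ₗ[ℝ] ℝ} (hL : IsMean L) {r : ℕ} (n l : Fin r → ℕ) (hn : ∀ i, 1 ≤ n i) (t : Fin r → ℤ)
    (B : Finset (Σ _ : Fin r, ℕ)) (hB : B ⊆ lets n l) (hB2 : B.card = 2)
    (hinj : Set.InjOn (fun e : (Σ _ : Fin r, ℕ) => t e.1 + e.2) (B : Set (Σ _ : Fin r, ℕ))) :
    cU L n l t B = 0 := by
  classical
  refine abs_nonpos_iff.1 (le_of_forall_pos_le_add fun ε hε => ?_)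
  rw [zero_add]
  obtain ⟨Q, w, hQ, -, hp, happ⟩ := word_app n l hn t ε hε
  have hB' := happ L hL B hB
  have h1 : L (fun N => w N * ∏ e ∈ B, lam (N + t e.1 + e.2)) = 0 := by
    rw [qg_sum hQ hp]
    refine sum_eq_zero fun u _ => ?_
    obtain ⟨x, y, hxy, hBxy⟩ := card_eq_two.1 hB2
    have hne : t x.1 + (x.2 : ℤ) ≠ t y.1 + (y.2 : ℤ) := by
      intro h2
      exact hxy (hinj (by rw [hBxy]; simp) (by rw [hBxy]; simp) h2)
    have h2 := two_ap hL Q hQ (u : ℤ) (t x.1 + x.2) (t y.1 + y.2) hne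
    have h3 : (fun N : ℤ => if (Q : ℤ) ∣ N - (u : ℕ) then ∏ e ∈ B, lam (N + t e.1 + e.2) else 0) =
        fun N : ℤ => if (Q : ℤ) ∣ N - (u : ℕ) then lam (N + (t x.1 + x.2)) * lam (N + (t y.1 + y.2)) else 0 := by
      funext N
      rw [hBxy, prod_pair hxy, add_assoc, add_assoc]
    rw [h3, h2, mul_zero]
  rw [h1, sub_zero] at hB'
  exact hB'

end Pool.Agent.Lib.TU2
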