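import Pool.Agent.Lib.TU2.QGap

/-!
# TU2 / QPos (row QP, about 170 lines): all signs at one place vector

STATEMENT: below, verbatim.

PROOF. `S = lets n l`, `|S| ≤ 2 r`. For every `N`: `wU N * ∏_{e ∈ S} (1 + x e.1 e.2 mz (N + t e.1 + e.2)) = 2^|S| E_x(N)`, `E_x` the indicator function in the conclusion (where `wU N = 1`, all `mz (N + t e.1 + e.2)`, `e ∈ S`, are `1` or `-1`, because the squares are those at `n e.1`). Expand (`Finset.prod_one_add`, `Finset.prod_mul_distrib`):
`2^|S| L E_x = ∑_{B ⊆ S} (∏_B x) cU B`. Classify `B`: (o) `B = ∅`: `cU ∅`. (i) some `i` has exactly one letter in `B` (the condition in `hη`): `|cU B| ≤ η`. (ii) otherwise, for every `i` the number of letters of `i` in `B` is `0` or `≥ 2`, hence (`hS`) it is `0`, or all letters of `i` are in `B` and there are two of them;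
by `hP` there are at most two such `i`, so (`B ≠ ∅`) `|B| = 2` and `cU B = 0` (`word_zero`, injectivity by `hinj`), or `|B| = 4`, `B` is the set of all letters of the two words with two letters, there is at most one such `B`, and `|cU B| ≤ (1 - c) cU ∅` by `hc`.
So `2^|S| L E_x ≥ cU ∅ - (1 - c) cU ∅ - 4^r η = c cU ∅ - 4^r η > 0` (at most `2^|S| ≤ 4^r` sets `B`).
-/

set_option autoImplicit false

open Finset

namespace Pool.Agent.Lib.TU2

open Pool.Agent.Lib.TU

private theorem qp_pm {m : ℤ} (h : muz m ≠ 0) : muz m = 1 ∨ muz m = -1 :=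
  ArithmeticFunction.moebius_ne_zero_iff_eq_or.1 h

open Classical in
/-- the word indicator -/
private theorem qp_wU {r : ℕ} (n l : Fin r → ℕ) (t : Fin r → ℤ) (N : ℤ) :
    wU n l t N = if (∀ i, 1 ≤ N + t i ∧ ∀ j : ℕ, j < l i → muz (N + t i + j) ^ 2 = muz (n i + j) ^ 2) then 1 else 0 := by
  unfold wU
  split_ifs with h
  · refine prod_eq_one fun i _ => ?_
    unfold wd
    rw [if_pos (h i)]
  · rw [not_forall] at h
    obtain ⟨i, hi⟩ := h
    refine prod_eq_zero (mem_univ i) ?_
    unfold wd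
    rw [if_neg hi]

open Classical in
/-- the indicator of the signs as a product -/
private theorem qp_key {r : ℕ} (n l : Fin r → ℕ) (t : Fin r → ℤ)
    (x : Fin r → ℕ → ℤ) (hx : ∀ i, ∀ a ∈ spt (n i) (l i), x i a = 1 ∨ x i a = -1) (N : ℤ) :
    (2 : ℝ) ^ (lets n l).card *
      (if (∀ i, 1 ≤ N + t i ∧ ∀ j : ℕ, j < l i → muz (N + t i + j) ^ 2 = muz (n i + j) ^ 2) ∧
      (∀ i, ∀ a ∈ spt (n i) (l i), muz (N + t i + a) = x i a) then 1 else 0) =
      wU n l t N * ∏ e ∈ lets n l, (1 + (x e.1 e.2 : ℝ) * mz (N + t e.1 + e.2)) := by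
  rw [qp_wU]
  by_cases h1 : ∀ i, 1 ≤ N + t i ∧ ∀ j : ℕ, j < l i → muz (N + t i + j) ^ 2 = muz (n i + j) ^ 2
  · rw [if_pos h1, one_mul]
    by_cases h2 : ∀ i, ∀ a ∈ spt (n i) (l i), muz (N + t i + a) = x i a
    · rw [if_pos ⟨h1, h2⟩, mul_one]
      symm
      rw [prod_congr rfl (g := fun _ => (2 : ℝ)), prod_const]
      intro e he
      have he' := (mem_sigma.1 he).2
      unfold mz
      rw [h2 e.1 e.2 he']
      rcases hx e.1 e.2 he' with h | h <;> rw [h] <;> norm_num
    · rw [if_neg (fun h => h2 h.2), mul_zero]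
      symm
      push Not at h2
      obtain ⟨i, a, ha, hne⟩ := h2
      refine prod_eq_zero (i := (⟨i, a⟩ : Σ _ : Fin r, ℕ)) (mem_sigma.2 ⟨mem_univ _, ha⟩) ?_
      have ha' := mem_filter.1 ha
      have h3 := (h1 i).2 a (mem_range.1 ha'.1)
      have h4 : muz (N + t i + a) ≠ 0 := by
        intro h5
        rw [h5] at h3
        have h6 : muz ((n i : ℤ) + a) ^ 2 = 0 := by rw [← h3]; norm_num
        exact ha'.2 (pow_eq_zero_iff two_ne_zero |>.1 h6)
      have h5 : x i a * muz (N + t i + a) = -1 := by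
        rcases qp_pm h4 with h | h <;> rcases hx i a ha with h' | h' <;> rw [h, h'] at hne ⊢
        · exact absurd rfl hne
        · norm_num
        · norm_num
        · exact absurd rfl hne
      have h6 : (x i a : ℝ) * mz (N + t i + a) = -1 := by
        unfold mz
        exact_mod_cast h5
      show 1 + (x i a : ℝ) * mz (N + t i + a) = 0
      rw [h6]
      norm_num
  · rw [if_neg h1, zero_mul, if_neg (fun h => h1 h.1), mul_zero]

/-- classification of the sets of letters -/
private theorem qp_class {r : ℕ} (n l : Fin r → ℕ)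
    (hS : ∀ i, (spt (n i) (l i)).card ≤ 2) (hP : ((univ : Finset (Fin r)).filter (fun i => (spt (n i) (l i)).card = 2)).card ≤ 2)
    (B : Finset (Σ _ : Fin r, ℕ)) (hB : B ⊆ lets n l) (hB0 : B ≠ ∅)
    (h1 : ¬ ∃ i, (B.filter (fun e => e.1 = i)).card = 1) :
    B.card = 2 ∨ (B.card = 4 ∧ B = (lets n l).filter (fun e => (spt (n e.1) (l e.1)).card = 2)) := by
  classical
  rw [not_exists] at h1
  -- the letters of one word
  have hle : ∀ i, (B.filter (fun e => e.1 = i)) ⊆ (lets n l).filter (fun e => e.1 = i) :=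
    fun i => filter_subset_filter _ hB
  have hcard : ∀ i, ((lets n l).filter (fun e => e.1 = i)).card = (spt (n i) (l i)).card := by
    intro i
    symm
    refine card_bij (fun a _ => (⟨i, a⟩ : Σ _ : Fin r, ℕ)) ?_ ?_ ?_
    · intro a ha
      exact mem_filter.2 ⟨mem_sigma.2 ⟨mem_univ _, ha⟩, rfl⟩
    · intro a _ b _ hab
      simpa using hab
    · rintro ⟨j, a⟩ he
      obtain ⟨he1, he2⟩ := mem_filter.1 he
      simp only at he2
      subst he2
      exact ⟨a, (mem_sigma.1 he1).2, rfl⟩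
  have hk : ∀ i, (B.filter (fun e => e.1 = i)).card = 0 ∨
      ((B.filter (fun e => e.1 = i)).card = 2 ∧ (spt (n i) (l i)).card = 2 ∧
        B.filter (fun e => e.1 = i) = (lets n l).filter (fun e => e.1 = i)) := by
    intro i
    have h2 := card_le_card (hle i)
    rw [hcard i] at h2
    have h3 := hS i
    have h4 := h1 i
    by_cases h5 : (B.filter (fun e => e.1 = i)).card = 0
    · exact Or.inl h5
    · right
      have h6 : (B.filter (fun e => e.1 = i)).card = 2 := by omega
      have h7 : (spt (n i) (l i)).card = 2 := by omega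
      refine ⟨h6, h7, eq_of_subset_of_card_le (hle i) ?_⟩
      rw [hcard i, h7, h6]
  set I : Finset (Fin r) := (univ : Finset (Fin r)).filter (fun i => (B.filter (fun e => e.1 = i)).card = 2) with hI
  have hIP : I ⊆ (univ : Finset (Fin r)).filter (fun i => (spt (n i) (l i)).card = 2) := by
    intro i hi
    rw [mem_filter]
    refine ⟨mem_univ _, ?_⟩
    have h2 := (mem_filter.1 hi).2
    rcases hk i with h3 | h3
    · omega
    · exact h3.2.1
  have hIc : I.card ≤ 2 := (card_le_card hIP).trans hP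
  have hBc : B.card = 2 * I.card := by
    have h2 : B.card = ∑ i, (B.filter (fun e => e.1 = i)).card :=
      card_eq_sum_card_fiberwise (f := fun e : (Σ _ : Fin r, ℕ) => e.1) (t := univ) fun _ _ => mem_coe.2 (mem_univ _)
    have h3 : ∀ i ∈ (univ : Finset (Fin r)), (B.filter (fun e => e.1 = i)).card = if i ∈ I then 2 else 0 := by
      intro i _
      rcases hk i with h4 | h4
      · rw [if_neg, h4]
        intro h5
        have := (mem_filter.1 h5).2
        omega
      · rw [if_pos, h4.1]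
        exact mem_filter.2 ⟨mem_univ _, h4.1⟩
    rw [h2, sum_congr rfl h3, sum_ite_mem, univ_inter, sum_const, smul_eq_mul, mul_comm]
  have hB1 : 0 < B.card := card_pos.2 (nonempty_iff_ne_empty.2 hB0)
  have h2 : I.card = 1 ∨ I.card = 2 := by omega
  rcases h2 with h2 | h2
  · left
    omega
  · right
    refine ⟨by omega, ?_⟩
    have h3 : I = (univ : Finset (Fin r)).filter (fun i => (spt (n i) (l i)).card = 2) :=
      eq_of_subset_of_card_le hIP (by omega)
    ext e
    rw [mem_filter]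
    constructor
    · intro he
      refine ⟨hB he, ?_⟩
      rcases hk e.1 with h4 | h4
      · have h5 : e ∈ B.filter (fun e' => e'.1 = e.1) := mem_filter.2 ⟨he, rfl⟩
        rw [card_eq_zero.1 h4] at h5
        exact absurd h5 (notMem_empty _)
      · exact h4.2.1
    · rintro ⟨he, he2⟩
      have h4 : e.1 ∈ I := by
        rw [h3]
        exact mem_filter.2 ⟨mem_univ _, he2⟩
      have h5 := (mem_filter.1 h4).2
      rcases hk e.1 with h6 | h6
      · omega
      · have h7 : e ∈ (lets n l).filter (fun e' => e'.1 = e.1) := mem_filter.2 ⟨he, rfl⟩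
        rw [← h6.2.2] at h7
        exact (mem_filter.1 h7).1

/-- the number of letters -/
private theorem qp_card {r : ℕ} (n l : Fin r → ℕ) (hS : ∀ i, (spt (n i) (l i)).card ≤ 2) : (lets n l).card ≤ 2 * r := by
  unfold lets
  rw [card_sigma]
  refine (sum_le_card_nsmul _ _ 2 fun i _ => hS i).trans ?_
  rw [card_univ, Fintype.card_fin, smul_eq_mul, mul_comm]

open Classical in
theorem word_pos {L : (ℤ → ℝ) →ₗ[ℝ] ℝ} (hL : IsMean L) {r : ℕ} (n l : Fin r → ℕ) (hn : ∀ i, 1 ≤ n i) (t : Fin r → ℤ)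
    (hS : ∀ i, (spt (n i) (l i)).card ≤ 2) (hP : ((univ : Finset (Fin r)).filter (fun i => (spt (n i) (l i)).card = 2)).card ≤ 2)
    (hinj : Set.InjOn (fun e : (Σ _ : Fin r, ℕ) => t e.1 + e.2) (lets n l : Set (Σ _ : Fin r, ℕ)))
    (c η : ℝ) (hc1 : c ≤ 1) (hc : ∀ B ⊆ lets n l, B.card = 4 → |cU L n l t B| ≤ (1 - c) * cU L n l t ∅)
    (hη : ∀ B ⊆ lets n l, (∃ i, (B.filter (fun e => e.1 = i)).card = 1) → |cU L n l t B| ≤ η)
    (h0 : 0 ≤ η) (h1 : 4 ^ r * η < c * cU L n l t ∅)
    (x : Fin r → ℕ → ℤ) (hx : ∀ i, ∀ a ∈ spt (n i) (l i), x i a = 1 ∨ x i a = -1) :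
    0 < L (fun N => if (∀ i, 1 ≤ N + t i ∧ ∀ j : ℕ, j < l i → muz (N + t i + j) ^ 2 = muz (n i + j) ^ 2) ∧
      (∀ i, ∀ a ∈ spt (n i) (l i), muz (N + t i + a) = x i a) then 1 else 0) := by
  -- the mean of the words
  have hw0 : 0 ≤ cU L n l t ∅ := by
    unfold cU
    refine hL.nonneg _ ⟨1, fun N => ?_⟩ fun N => ?_
    · show |wU n l t N * ∏ e ∈ (∅ : Finset (Σ _ : Fin r, ℕ)), mz (N + t e.1 + e.2)| ≤ 1
      rw [prod_empty, mul_one, qp_wU]
      split_ifs <;> norm_num
    · show 0 ≤ wU n l t N * ∏ e ∈ (∅ : Finset (Σ _ : Fin r, ℕ)), mz (N + t e.1 + e.2)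
      rw [prod_empty, mul_one, qp_wU]
      split_ifs <;> norm_num
  have hX : 0 ≤ (1 - c) * cU L n l t ∅ := mul_nonneg (by linarith) hw0
  -- the expansion
  have hexp : (2 : ℝ) ^ (lets n l).card * L (fun N => if (∀ i, 1 ≤ N + t i ∧ ∀ j : ℕ, j < l i →
      muz (N + t i + j) ^ 2 = muz (n i + j) ^ 2) ∧ (∀ i, ∀ a ∈ spt (n i) (l i), muz (N + t i + a) = x i a) then 1 else 0) =
      ∑ B ∈ (lets n l).powerset, (∏ e ∈ B, (x e.1 e.2 : ℝ)) * cU L n l t B := by
    rw [← Pool.Agent.Lib.TU.L_mul]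
    have e1 : (fun N : ℤ => (2 : ℝ) ^ (lets n l).card * (if (∀ i, 1 ≤ N + t i ∧ ∀ j : ℕ, j < l i →
        muz (N + t i + j) ^ 2 = muz (n i + j) ^ 2) ∧ (∀ i, ∀ a ∈ spt (n i) (l i), muz (N + t i + a) = x i a) then 1 else 0)) =
        fun N => ∑ B ∈ (lets n l).powerset, (∏ e ∈ B, (x e.1 e.2 : ℝ)) *
          (wU n l t N * ∏ e ∈ B, mz (N + t e.1 + e.2)) := by
      funext N
      rw [qp_key n l t x hx N, prod_one_add, mul_sum]
      refine sum_congr rfl fun B _ => ?_
      rw [prod_mul_distrib]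
      ring
    rw [e1, L_sum]
    exact sum_congr rfl fun B _ => Pool.Agent.Lib.TU.L_mul _ _
  -- each term
  set B4 : Finset (Σ _ : Fin r, ℕ) := (lets n l).filter (fun e => (spt (n e.1) (l e.1)).card = 2) with hB4
  have hterm : ∀ B ∈ (lets n l).powerset.erase ∅, -(η + if B = B4 then (1 - c) * cU L n l t ∅ else 0) ≤
      (∏ e ∈ B, (x e.1 e.2 : ℝ)) * cU L n l t B := by
    intro B hB
    rw [mem_erase, mem_powerset] at hB
    obtain ⟨hB0, hBS⟩ := hB
    have habs : |∏ e ∈ B, (x e.1 e.2 : ℝ)| = 1 := by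
      rw [abs_prod]
      refine prod_eq_one fun e he => ?_
      rcases hx e.1 e.2 (mem_sigma.1 (hBS he)).2 with h | h <;> rw [h] <;> norm_num
    have h2 : |(∏ e ∈ B, (x e.1 e.2 : ℝ)) * cU L n l t B| ≤ η + if B = B4 then (1 - c) * cU L n l t ∅ else 0 := by
      rw [abs_mul, habs, one_mul]
      have hge : 0 ≤ (if B = B4 then (1 - c) * cU L n l t ∅ else 0) := by
        split_ifs
        · exact hX
        · exact le_rfl
      by_cases h3 : ∃ i, (B.filter (fun e => e.1 = i)).card = 1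
      · have := hη B hBS h3
        linarith
      · rcases qp_class n l hS hP B hBS hB0 h3 with h4 | ⟨h4, h5⟩
        · rw [word_zero hL n l hn t B hBS h4 (hinj.mono (coe_subset.2 hBS)), abs_zero]
          linarith
        · rw [if_pos h5]
          have := hc B hBS h4
          linarith
    exact (neg_le_neg h2).trans (neg_abs_le _)
  have hsum : ∑ B ∈ (lets n l).powerset, (∏ e ∈ B, (x e.1 e.2 : ℝ)) * cU L n l t B ≥
      cU L n l t ∅ - (4 ^ r * η + (1 - c) * cU L n l t ∅) := by
    have hmem : ∅ ∈ (lets n l).powerset := mem_powerset.2 (empty_subset _)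
    rw [← add_sum_erase _ _ hmem, prod_empty, one_mul]
    have h2 := sum_le_sum hterm
    rw [sum_neg_distrib, sum_add_distrib, sum_const, nsmul_eq_mul] at h2
    have h3 : ∑ B ∈ (lets n l).powerset.erase ∅, (if B = B4 then (1 - c) * cU L n l t ∅ else 0) ≤
        (1 - c) * cU L n l t ∅ := by
      rw [sum_ite_eq' _ B4]
      split_ifs
      · exact le_rfl
      · exact hX
    have h4 : (((lets n l).powerset.erase ∅).card : ℝ) ≤ 4 ^ r := by
      have h5 : ((lets n l).powerset.erase ∅).card ≤ 4 ^ r := by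
        calc ((lets n l).powerset.erase ∅).card ≤ (lets n l).powerset.card := card_le_card (erase_subset _ _)
          _ = 2 ^ (lets n l).card := card_powerset _
          _ ≤ 2 ^ (2 * r) := Nat.pow_le_pow_right (by norm_num) (qp_card n l hS)
          _ = 4 ^ r := by rw [pow_mul]; norm_num
      exact_mod_cast h5
    have h5 := mul_le_mul_of_nonneg_right h4 h0
    linarith
  have hpos : 0 < (2 : ℝ) ^ (lets n l).card * L (fun N => if (∀ i, 1 ≤ N + t i ∧ ∀ j : ℕ, j < l i →
      muz (N + t i + j) ^ 2 = muz (n i + j) ^ 2) ∧ (∀ i, ∀ a ∈ spt (n i) (l i), muz (N + t i + a) = x i a) then 1 else 0) := by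
    rw [hexp]
    linarith
  exact (mul_pos_iff_of_pos_left (by positivity)).1 hpos

end Pool.Agent.Lib.TU2
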