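import Pool.Agent.Lib.TU2.QDef

/-!
# TU2 / RDef: shattered places (definitions)
-/

set_option autoImplicit false

open Finset

namespace Pool.Agent.Lib.TU2

open Pool.Agent.Lib.TU

/-- Iterated mean: `F` is evaluated at lists; the `k` new variables are put at the head of the list `u` one after the other. -/
noncomputable def itl (L : (ℤ → ℝ) →ₗ[ℝ] ℝ) (F : List ℤ → ℝ) : ℕ → List ℤ → ℝ
  | 0, u => F u
  | k + 1, u => L fun N => itl L F k (N :: u)

open Classical in
/-- the proportion of the `m < H` with `ψ (N + m) ≠ ψ (N' + m)` -/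
noncomputable def Dw (ψ : ℤ → ℝ) (H : ℕ) (N N' : ℤ) : ℝ :=
  (((range H).filter fun m : ℕ => ψ (N + m) ≠ ψ (N' + m)).card : ℝ) / H

open Classical in
/-- the pattern of `ψ` at `N` on the places `M` -/
noncomputable def pat (ψ : ℤ → ℝ) {R : ℕ} (M : Fin R → ℕ) (N : ℤ) : Finset (Fin R) :=
  univ.filter fun i => ψ (N + (M i : ℕ)) = 1

/-- every sign pattern on the places `m` has measure at least `η` -/
def Shat (L : (ℤ → ℝ) →ₗ[ℝ] ℝ) (ψ : ℤ → ℝ) (η : ℝ) {r : ℕ} (m : Fin r → ℕ) : Prop :=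
  ∀ I : Finset (Fin r), η ≤ pr L fun N => pat ψ m N = I

/-- the sign product of the letters of the word of squares at `n0` -/
noncomputable def pl (n0 l0 Q : ℕ) (M : ℤ) : ℝ := ∏ a ∈ spt n0 l0, lam (Q * M + (n0 + a : ℕ))

end Pool.Agent.Lib.TU2
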