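import Pool.Agent.Lib.TU2.RDef

/-!
# TU2 / RDist (row RD, about 110 lines): the distance of two windows

STATEMENTS: below, verbatim.

PROOFS. `Dw_tri`: `{m : ψ (a+m) ≠ ψ (c+m)} ⊆ {m : ψ (a+m) ≠ ψ (b+m)} ∪ {m : ψ (b+m) ≠ ψ (c+m)}`. `Dw_shift`: the `m < H` with `ψ (a+s+m) ≠ ψ (b+s+m)` go injectively by `m ↦ m + s` to the `m' < H + s` with `ψ (a+m') ≠ ψ (b+m')`; at most `s` of these are `≥ H`.
`Dw_gap`: `Dw ψ H (N+s₁) (N+s₂) = (1/H) ∑_{m<H} (1 - ψ (N+s₁+m) ψ (N+s₂+m))/2` since `ψ = ±1`; `L` of each term is `(1 - L (n ↦ ψ n ψ (n + (s₂ - s₁))))/2 ≥ c/2` by shift invariance (`IsMean.shift_nat` or `shiftz`, by `s₁ + m`). For `H = 0` all values are `0`; here `0 < H`.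
-/

set_option autoImplicit false

open Finset

namespace Pool.Agent.Lib.TU2

open Pool.Agent.Lib.TU

theorem Dw_nonneg (ψ : ℤ → ℝ) (H : ℕ) (a b : ℤ) : 0 ≤ Dw ψ H a b := by
  unfold Dw
  positivity

theorem Dw_le_one (ψ : ℤ → ℝ) (H : ℕ) (a b : ℤ) : Dw ψ H a b ≤ 1 := by
  unfold Dw
  refine div_le_one_of_le₀ ?_ (Nat.cast_nonneg H)
  exact_mod_cast (card_filter_le _ _).trans (card_range H).le

theorem Dw_comm (ψ : ℤ → ℝ) (H : ℕ) (a b : ℤ) : Dw ψ H a b = Dw ψ H b a := by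
  unfold Dw
  congr 3
  ext m
  simp only [mem_filter, ne_comm]

theorem Dw_tri (ψ : ℤ → ℝ) (H : ℕ) (a b c : ℤ) : Dw ψ H a c ≤ Dw ψ H a b + Dw ψ H b c := by
  classical
  unfold Dw
  rw [← add_div]
  refine div_le_div_of_nonneg_right ?_ (Nat.cast_nonneg H)
  have h : ((range H).filter fun m : ℕ => ψ (a + m) ≠ ψ (c + m)) ⊆
      ((range H).filter fun m : ℕ => ψ (a + m) ≠ ψ (b + m)) ∪
        ((range H).filter fun m : ℕ => ψ (b + m) ≠ ψ (c + m)) := by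
    intro m hm
    simp only [mem_filter, mem_union] at hm ⊢
    by_cases h1 : ψ (a + m) = ψ (b + m)
    · right
      exact ⟨hm.1, fun h2 => hm.2 (h1.trans h2)⟩
    · left
      exact ⟨hm.1, h1⟩
  have h2 := (card_le_card h).trans (card_union_le _ _)
  exact_mod_cast h2

theorem Dw_shift (ψ : ℤ → ℝ) (H : ℕ) (a b : ℤ) (s : ℕ) : Dw ψ H (a + s) (b + s) ≤ Dw ψ H a b + s / H := by
  classical
  unfold Dw
  rw [← add_div]
  refine div_le_div_of_nonneg_right ?_ (Nat.cast_nonneg H)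
  have h : (((range H).filter fun m : ℕ => ψ (a + s + m) ≠ ψ (b + s + m)).image fun m => m + s) ⊆
      ((range H).filter fun m : ℕ => ψ (a + m) ≠ ψ (b + m)) ∪ Ico H (H + s) := by
    intro m' hm
    simp only [mem_image, mem_filter, mem_range, mem_union, mem_Ico] at hm ⊢
    obtain ⟨m, ⟨h1, h2⟩, rfl⟩ := hm
    by_cases h3 : m + s < H
    · left
      refine ⟨h3, fun h4 => h2 ?_⟩
      have e1 : a + (s : ℤ) + m = a + ((m + s : ℕ) : ℤ) := by push_cast; ring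
      have e2 : b + (s : ℤ) + m = b + ((m + s : ℕ) : ℤ) := by push_cast; ring
      rw [e1, e2]
      exact h4
    · right
      omega
  have h1 := (card_le_card h).trans (card_union_le _ _)
  rw [card_image_of_injective _ (add_left_injective s), Nat.card_Ico, Nat.add_sub_cancel_left] at h1
  exact_mod_cast h1

theorem Dw_gap {L : (ℤ → ℝ) →ₗ[ℝ] ℝ} (hL : IsMean L) (ψ : ℤ → ℝ) (hψ : ∀ n, ψ n = 1 ∨ ψ n = -1) (c : ℝ)
    (hc : ∀ t : ℕ, 1 ≤ t → L (fun n => ψ n * ψ (n + t)) ≤ 1 - c) (H : ℕ) (hH : 0 < H) (s₁ s₂ : ℕ) (hs : s₁ < s₂) :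
    c / 2 ≤ L (fun N => Dw ψ H (N + s₁) (N + s₂)) := by
  classical
  have hH' : (0 : ℝ) < H := by exact_mod_cast hH
  have hbd : ∀ k : ℤ, Bd fun n => ψ n * ψ (n + k) := fun k => ⟨1, fun n => by
    show |ψ n * ψ (n + k)| ≤ 1
    rcases hψ n with h1 | h1 <;> rcases hψ (n + k) with h2 | h2 <;> rw [h1, h2] <;> norm_num⟩
  have hD : ∀ N : ℤ, Dw ψ H (N + s₁) (N + s₂)
      = (1 / H) * ∑ m ∈ range H, ((1 / 2) * (1 - ψ (N + s₁ + m) * ψ (N + s₂ + m))) := by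
    intro N
    unfold Dw
    rw [div_eq_inv_mul, one_div]
    congr 1
    rw [card_filter]
    push_cast
    refine sum_congr rfl fun m _ => ?_
    rcases hψ (N + s₁ + m) with h1 | h1 <;> rcases hψ (N + s₂ + m) with h2 | h2 <;> rw [h1, h2] <;> norm_num
  have hL1 : L (fun N => Dw ψ H (N + s₁) (N + s₂))
      = (1 / H) * ∑ m ∈ range H, ((1 / 2) * (1 - L (fun N => ψ (N + s₁ + m) * ψ (N + s₂ + m)))) := by
    rw [funext hD, TU.L_mul, L_sum]
    congr 1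
    refine sum_congr rfl fun m _ => ?_
    rw [TU.L_mul, L_sub, hL.const]
  have hs2 : (s₁ : ℤ) + ((s₂ - s₁ : ℕ) : ℤ) = s₂ := by omega
  have hL2 : ∀ m ∈ range H, c / 2 ≤ (1 / 2) * (1 - L (fun N => ψ (N + s₁ + m) * ψ (N + s₂ + m))) := by
    intro m _
    have h1 := hL.shift_nat (hbd ((s₂ - s₁ : ℕ) : ℤ)) (s₁ + m)
    have h2 : (fun n : ℤ => ψ (n + ((s₁ + m : ℕ) : ℤ)) * ψ (n + ((s₁ + m : ℕ) : ℤ) + ((s₂ - s₁ : ℕ) : ℤ)))
        = fun N => ψ (N + s₁ + m) * ψ (N + s₂ + m) := by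
      funext n
      have e1 : n + ((s₁ + m : ℕ) : ℤ) = n + s₁ + m := by push_cast; ring
      have e2 : n + ((s₁ + m : ℕ) : ℤ) + ((s₂ - s₁ : ℕ) : ℤ) = n + s₂ + m := by
        rw [← hs2]
        push_cast
        ring
      rw [e2, e1]
    rw [h2] at h1
    rw [h1]
    have h3 := hc (s₂ - s₁) (by omega)
    linarith
  rw [hL1]
  have h4 : (H : ℝ) * (c / 2) ≤ ∑ m ∈ range H, ((1 / 2) * (1 - L (fun N => ψ (N + s₁ + m) * ψ (N + s₂ + m)))) := by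
    have := card_nsmul_le_sum (range H) _ (c / 2) hL2
    rwa [card_range, nsmul_eq_mul] at this
  rw [one_div, ← div_eq_inv_mul, le_div_iff₀ hH']
  linarith

end Pool.Agent.Lib.TU2
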