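import Pool.Agent.Lib.TU2.RDef

/-!
# TU2 / REmb (row RE, about 90 lines): counting functions with a restriction in a given set (pure counting)

STATEMENT: below, verbatim.

PROOF. Union over the at most `R ^ r` embeddings `e` (they inject into `Fin r → Fin R`). For fixed `e`: every
fibre of the map `M ↦ M ∘ e` on the box has at most `H^(R-r)` elements (it lies in a `Fintype.piFinset` of
singletons and copies of `range H`), and its image lies in the box of `r` coordinates and satisfies `G`.
-/

set_option autoImplicit false

open Finset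

namespace Pool.Agent.Lib.TU2

open Pool.Agent.Lib.TU

open Classical in
private theorem emb_fib77 (H R r : ℕ) (e : Fin r ↪ Fin R) (m : Fin r → ℕ) :
    ((Fintype.piFinset (fun _ : Fin R => range H)).filter (fun M => (fun i => M (e i)) = m)).card ≤ H ^ (R - r) := by
  have hsub : (Fintype.piFinset (fun _ : Fin R => range H)).filter (fun M => (fun i => M (e i)) = m) ⊆
      Fintype.piFinset (fun j : Fin R => if h : ∃ i, e i = j then {m h.choose} else range H) := by
    intro M hM
    rw [mem_filter, Fintype.mem_piFinset] at hM
    rw [Fintype.mem_piFinset]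
    intro j
    by_cases h : ∃ i, e i = j
    · rw [dif_pos h, mem_singleton, ← hM.2]
      show M j = M (e h.choose)
      rw [h.choose_spec]
    · rw [dif_neg h]
      exact hM.1 j
  refine (card_le_card hsub).trans ?_
  rw [Fintype.card_piFinset]
  have h1 : ∀ j : Fin R, (if h : ∃ i, e i = j then ({m h.choose} : Finset ℕ) else range H).card =
      if j ∈ univ.map e then 1 else H := by
    intro j
    by_cases h : ∃ i, e i = j
    · have h' : j ∈ univ.map e := by simpa using h
      rw [dif_pos h, if_pos h', card_singleton]
    · have h' : j ∉ univ.map e := by simpa using h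
      rw [dif_neg h, if_neg h', card_range]
  rw [prod_congr rfl fun j _ => h1 j, prod_ite, prod_const_one, one_mul, prod_const]
  have h2 : (univ.filter (fun j => j ∉ univ.map e)).card = R - r := by
    have h3 : univ.filter (fun j => j ∉ univ.map e) = univ \ univ.map e := by
      ext j; simp
    rw [h3, card_sdiff_of_subset (subset_univ _), card_map, card_univ, card_univ, Fintype.card_fin, Fintype.card_fin]
  rw [h2]

open Classical in
private theorem emb_one77 (H R r : ℕ) (G : (Fin r → ℕ) → Prop) (e : Fin r ↪ Fin R) :
    ((Fintype.piFinset (fun _ : Fin R => range H)).filter (fun M => G (fun i => M (e i)))).card ≤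
      H ^ (R - r) * ((Fintype.piFinset (fun _ : Fin r => range H)).filter G).card := by
  refine (card_le_mul_card_image (f := fun (M : Fin R → ℕ) (i : Fin r) => M (e i)) _ (H ^ (R - r))
    fun m _ => ?_).trans (Nat.mul_le_mul_left _ (card_le_card ?_))
  · refine le_trans (card_le_card fun M hM => ?_) (emb_fib77 H R r e m)
    rw [mem_filter] at hM ⊢
    exact ⟨(mem_filter.1 hM.1).1, hM.2⟩
  · intro m hm
    obtain ⟨M, hM, rfl⟩ := mem_image.1 hm
    rw [mem_filter, Fintype.mem_piFinset] at hM
    rw [mem_filter, Fintype.mem_piFinset]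
    exact ⟨fun i => hM.1 (e i), hM.2⟩

open Classical in
theorem emb_count (H R r : ℕ) (G : (Fin r → ℕ) → Prop) :
    (((Fintype.piFinset (fun _ : Fin R => range H)).filter (fun M => ∃ e : Fin r ↪ Fin R, G (fun i => M (e i)))).card : ℝ) ≤
      (R : ℝ) ^ r * ((((Fintype.piFinset (fun _ : Fin r => range H)).filter G).card : ℝ) * (H : ℝ) ^ (R - r)) := by
  have h1 : (Fintype.piFinset (fun _ : Fin R => range H)).filter
      (fun M => ∃ e : Fin r ↪ Fin R, G (fun i => M (e i))) ⊆
      (univ : Finset (Fin r ↪ Fin R)).biUnion
        (fun e => (Fintype.piFinset (fun _ : Fin R => range H)).filter (fun M => G (fun i => M (e i)))) := by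
    intro M hM
    rw [mem_filter] at hM
    obtain ⟨e, he⟩ := hM.2
    exact mem_biUnion.2 ⟨e, mem_univ _, mem_filter.2 ⟨hM.1, he⟩⟩
  have h2 := (card_le_card h1).trans (card_biUnion_le_card_mul _ _ _ fun e _ => emb_one77 H R r G e)
  have h3 : (univ : Finset (Fin r ↪ Fin R)).card ≤ R ^ r := by
    rw [card_univ, Fintype.card_embedding_eq, Fintype.card_fin, Fintype.card_fin]
    exact Nat.descFactorial_le_pow R r
  have h4 := h2.trans (Nat.mul_le_mul_right _ h3)
  rw [mul_comm (H ^ (R - r))] at h4
  exact_mod_cast h4

end Pool.Agent.Lib.TU2
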