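import Pool.Agent.Lib.TU2.RDef
import Pool.Agent.Lib.TU.Gap

/-!
# TU2 / RPair (row RA, about 170 lines): the sign product of the pair word

STATEMENTS: below, verbatim.

PROOFS. `pl_gap`: `c` from `gap 4` (TU/Gap.lean). `spt n0 l0 = {a, b}`, `a ≠ b`, `a, b < l0` (`Finset.card_eq_two`). `pl M * pl (M + t) = ∏ of lam at Q M + h`, `h = n0 + a, n0 + b, Q t + n0 + a, Q t + n0 + b`, pairwise different since `0 < |a - b| < l0 ≤ Q ≤ Q t` (`Fin 4 → ℤ`, `Fin.prod_univ_four`).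
`pl_pm`: a product of values `±1` outside `Q M + n0 + a = 0`; `lam 0 = 0`! So the statement `pl_pm` is about `plx`, which is `pl` where it is not `0`, and `1` where it is `0`: `plx - pl` is non-zero for at most two `M`, so `L` does not see it (`L_eq_of_ge`, Base.lean: the functions agree for large `M`); `plx_gap` is `pl_gap` for `plx`.
`pair_low`: `t i = Q m i + n i`. Restrict to `N ≡ 0 mod Q`: the function under `L` is `≥ 0` (`1 + y mz mz ≥ 0`, `wU ≥ 0`), so `L(..) ≥ L (N ↦ if Q ∣ N then .. else 0) = L (M ↦ .. (Q M))/Q` (`pr_mul_if`). For `M > 0`: if `wU (Q M) = 1` then for `i` with two letters (`n i = n0`, `l i = l0` by `hS`) `∏_{a ∈ spt} mz (Q M + Q m i + n0 + a) = pl n0 l0 Q (M + m i) = plx (M + m i)` (the letters are at square-free numbers `≥ 1`: `muz ≠ 0`, `mz = lam` there;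
as in QApp.lean), so with `I = {i : y i = 1}`: if also `pat plx m M = I`, the value is `∏ (1 + y_i plx(M + m i)) = 2^|P| ≥ 1`. So the value is `≥ [pat plx m M = I] - (1 - wU (Q M))`, and `L ≥ (η - η/2)/Q = η/(2 Q)`.
-/

set_option autoImplicit false

open Finset

namespace Pool.Agent.Lib.TU2

open Pool.Agent.Lib.TU

open Classical in
/-- `pl`, with the value `1` in the place of `0` -/
noncomputable def plx (n0 l0 Q : ℕ) (M : ℤ) : ℝ := if pl n0 l0 Q M = 0 then 1 else pl n0 l0 Q M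

private theorem ra_lam (m : ℤ) (hm : 1 ≤ m) (h : muz m ≠ 0) : mz m = lam m := by
  unfold muz at h
  have h5 : Squarefree m.toNat := ArithmeticFunction.moebius_ne_zero_iff_squarefree.1 h
  unfold mz muz lam
  rw [ArithmeticFunction.moebius_apply_of_squarefree h5, ArithmeticFunction.liouville_apply (by omega)]
  have h7 : m.toNat = m.natAbs := by omega
  rw [h7]

private theorem ra_mz (m : ℤ) : |mz m| ≤ 1 := by
  unfold mz muz
  have h := ArithmeticFunction.abs_moebius_le_one (n := m.toNat)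
  exact_mod_cast h

private theorem ra_tri (n : ℤ) : lam n = 0 ∨ lam n = 1 ∨ lam n = -1 := by
  by_cases h : n = 0
  · left
    rw [h, lam_zero]
  · right
    exact lam_cases h

private theorem ra_pl (n0 l0 Q : ℕ) (M : ℤ) :
    pl n0 l0 Q M = 0 ∨ pl n0 l0 Q M = 1 ∨ pl n0 l0 Q M = -1 := by
  classical
  unfold pl
  generalize spt n0 l0 = S
  induction S using Finset.induction_on with
  | empty => simp
  | insert a S ha ih =>
    rw [prod_insert ha]
    rcases ra_tri ((Q : ℤ) * M + ((n0 + a : ℕ) : ℤ)) with h | h | h <;>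
      rcases ih with h' | h' | h' <;> rw [h, h'] <;> norm_num

private theorem ra_ne (n0 l0 : ℕ) {Q : ℕ} (hQ : 0 < Q) {M : ℤ} (hM : 0 < M) : pl n0 l0 Q M ≠ 0 := by
  unfold pl
  refine prod_ne_zero_iff.2 fun a _ => ?_
  have h1 : (0 : ℤ) < Q * M := mul_pos (by exact_mod_cast hQ) hM
  have h2 : (Q : ℤ) * M + ((n0 + a : ℕ) : ℤ) ≠ 0 := by
    have h3 : (0 : ℤ) ≤ ((n0 + a : ℕ) : ℤ) := Int.natCast_nonneg _
    linarith
  rcases lam_cases h2 with h | h <;> rw [h] <;> norm_num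

private theorem ra_plx (n0 l0 : ℕ) {Q : ℕ} (hQ : 0 < Q) {M : ℤ} (hM : 0 < M) :
    plx n0 l0 Q M = pl n0 l0 Q M := by
  unfold plx
  rw [if_neg (ra_ne n0 l0 hQ hM)]

private theorem ra_wd (a b : ℕ) (N : ℤ) : wd a b N = 0 ∨ wd a b N = 1 := by
  unfold wd
  split_ifs
  · right; rfl
  · left; rfl

private theorem ra_wU {r : ℕ} (n l : Fin r → ℕ) (t : Fin r → ℤ) (N : ℤ) :
    wU n l t N = 0 ∨ (wU n l t N = 1 ∧ ∀ i, wd (n i) (l i) (N + t i) = 1) := by
  by_cases h : ∀ i, wd (n i) (l i) (N + t i) = 1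
  · right
    refine ⟨?_, h⟩
    unfold wU
    exact prod_eq_one fun i _ => h i
  · left
    push Not at h
    obtain ⟨i, hi⟩ := h
    unfold wU
    exact prod_eq_zero (mem_univ i) ((ra_wd _ _ _).resolve_right hi)

private theorem ra_key (n0 l0 : ℕ) {Q : ℕ} (hQ : 0 < Q) {M : ℤ} (hM : 0 < M) (k : ℕ)
    (h : wd n0 l0 (Q * M + ((Q : ℤ) * k + n0)) = 1) :
    ∏ a ∈ spt n0 l0, mz (Q * M + ((Q : ℤ) * k + n0) + a) = plx n0 l0 Q (M + k) := by
  rw [ra_plx n0 l0 hQ (by omega)]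
  unfold wd at h
  have h' : 1 ≤ (Q : ℤ) * M + ((Q : ℤ) * k + n0) ∧ ∀ j : ℕ, j < l0 →
      muz ((Q : ℤ) * M + ((Q : ℤ) * k + n0) + j) ^ 2 = muz (n0 + j) ^ 2 := by
    by_contra hc
    rw [if_neg hc] at h
    norm_num at h
  obtain ⟨h1, h2⟩ := h'
  unfold pl
  refine prod_congr rfl fun a ha => ?_
  have ha' := ha
  unfold spt at ha'
  rw [mem_filter, mem_range] at ha'
  obtain ⟨ha1, ha2⟩ := ha'
  have h3 := h2 a ha1
  have h4 : muz ((Q : ℤ) * M + ((Q : ℤ) * k + n0) + a) ≠ 0 := by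
    intro h5
    rw [h5] at h3
    apply ha2
    have h6 : muz ((n0 : ℤ) + a) ^ 2 = 0 := by rw [← h3]; norm_num
    exact pow_eq_zero_iff (two_ne_zero) |>.1 h6
  rw [ra_lam _ (by omega) h4]
  congr 1
  push_cast
  ring

private theorem ra_fac (S : Finset ℕ) (x : ℤ) (u : ℝ) (hu : u = 1 ∨ u = -1) :
    0 ≤ 1 + u * ∏ a ∈ S, mz (x + a) ∧ 1 + u * ∏ a ∈ S, mz (x + a) ≤ 2 := by
  have h : |∏ a ∈ S, mz (x + a)| ≤ 1 := by
    rw [abs_prod]
    exact prod_le_one (fun a _ => abs_nonneg _) fun a _ => ra_mz _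
  obtain ⟨h1, h2⟩ := abs_le.1 h
  rcases hu with hu | hu <;> rw [hu] <;> constructor <;> linarith

theorem plx_pm (n0 l0 Q : ℕ) (M : ℤ) : plx n0 l0 Q M = 1 ∨ plx n0 l0 Q M = -1 := by
  unfold plx
  by_cases h : pl n0 l0 Q M = 0
  · left
    rw [if_pos h]
  · rw [if_neg h]
    exact (ra_pl n0 l0 Q M).resolve_left h

private theorem ra_bd (n0 l0 Q : ℕ) : Bd (plx n0 l0 Q) := by
  refine ⟨1, fun M => ?_⟩
  rcases plx_pm n0 l0 Q M with h | h <;> rw [h] <;> norm_num

theorem plx_gap : ∃ c : ℝ, 0 < c ∧ ∀ L : (ℤ → ℝ) →ₗ[ℝ] ℝ, IsMean L → ∀ n0 l0 Q : ℕ, 0 < Q → l0 < Q → (spt n0 l0).card = 2 → ∀ t : ℕ, 1 ≤ t →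
    L (fun M => plx n0 l0 Q M * plx n0 l0 Q (M + t)) ≤ 1 - c := by
  obtain ⟨c, hc, h⟩ := gap 4 (by norm_num)
  refine ⟨c, hc, fun L hL n0 l0 Q hQ hl hcard t ht => ?_⟩
  obtain ⟨a, b, hab, hS⟩ := Finset.card_eq_two.1 hcard
  have ha : a < l0 := by
    have h1 : a ∈ spt n0 l0 := by rw [hS]; simp
    unfold spt at h1
    exact mem_range.1 (mem_filter.1 h1).1
  have hb : b < l0 := by
    have h1 : b ∈ spt n0 l0 := by rw [hS]; simp
    unfold spt at h1
    exact mem_range.1 (mem_filter.1 h1).1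
  obtain ⟨s, hs⟩ : ∃ s : ℤ, s = (Q : ℤ) * t := ⟨_, rfl⟩
  have hs1 : (l0 : ℤ) < s := by
    have h1 : (1 : ℤ) ≤ t := by exact_mod_cast ht
    have h2 : (l0 : ℤ) < Q := by exact_mod_cast hl
    have h3 : (0 : ℤ) ≤ Q := Int.natCast_nonneg _
    rw [hs]
    nlinarith
  have hinj : Function.Injective (![(n0 : ℤ) + a, n0 + b, s + n0 + a, s + n0 + b] : Fin 4 → ℤ) := by
    intro i j hij
    fin_cases i <;> fin_cases j <;> simp at hij ⊢ <;> omega
  have h1 := (le_abs_self _).trans (h L hL Q _ hQ hinj)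
  refine le_trans (le_of_eq ?_) h1
  refine L_eq_of_ge hL ((ra_bd n0 l0 Q).mul ((ra_bd n0 l0 Q).comp fun M => M + t)) ?_ 0 fun M hM => ?_
  · refine ⟨1, fun m => ?_⟩
    rw [Finset.abs_prod]
    exact Finset.prod_le_one (fun _ _ => abs_nonneg _) fun i _ => lam_abs_le _
  · have hM' : 0 < M := by simpa using hM
    rw [ra_plx n0 l0 hQ hM', ra_plx n0 l0 hQ (by omega), Fin.prod_univ_four]
    unfold pl
    rw [hS, prod_pair hab, prod_pair hab]
    show _ = lam (Q * M + ((n0 : ℤ) + a)) * lam (Q * M + ((n0 : ℤ) + b)) *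
      lam (Q * M + (s + n0 + a)) * lam (Q * M + (s + n0 + b))
    have e1 : (Q : ℤ) * (M + t) + ((n0 + a : ℕ) : ℤ) = Q * M + (s + n0 + a) := by
      rw [hs]; push_cast; ring
    have e2 : (Q : ℤ) * (M + t) + ((n0 + b : ℕ) : ℤ) = Q * M + (s + n0 + b) := by
      rw [hs]; push_cast; ring
    rw [e1, e2]
    push_cast
    ring

open Classical in
theorem pair_low {L : (ℤ → ℝ) →ₗ[ℝ] ℝ} (hL : IsMean L) {r : ℕ} (n l : Fin r → ℕ) (hn : ∀ i, 1 ≤ n i) (n0 l0 : ℕ) (hn0 : 1 ≤ n0)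
    (hS : ∀ i, (spt (n i) (l i)).card ≤ 1 ∨ (n i = n0 ∧ l i = l0)) (Q : ℕ) (hQ : 0 < Q) (m : Fin r → ℕ) (η : ℝ) (hη : 0 < η)
    (hlow : 1 - η / 2 ≤ L (fun M => wU n l (fun i => (Q : ℤ) * m i + n i) (Q * M))) (hm : Shat L (plx n0 l0 Q) η m)
    (y : Fin r → ℝ) (hy : ∀ i, y i = 1 ∨ y i = -1) :
    η / (2 * Q) ≤ L (fun N => wU n l (fun i => (Q : ℤ) * m i + n i) N *
      ∏ i ∈ univ.filter (fun i => (spt (n i) (l i)).card = 2), (1 + y i * ∏ a ∈ spt (n i) (l i), mz (N + ((Q : ℤ) * m i + n i) + a))) := by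
  have hQr : (0 : ℝ) < Q := by exact_mod_cast hQ
  obtain ⟨T, hT⟩ : ∃ T : Fin r → ℤ, T = fun i => (Q : ℤ) * m i + n i := ⟨_, rfl⟩
  obtain ⟨P, hP⟩ : ∃ P : Finset (Fin r), P = univ.filter (fun i => (spt (n i) (l i)).card = 2) :=
    ⟨_, rfl⟩
  rw [← hP, ← hT]
  rw [← hT] at hlow
  obtain ⟨f, hf⟩ : ∃ f : ℤ → ℝ, f = fun N =>
      ∏ i ∈ P, (1 + y i * ∏ a ∈ spt (n i) (l i), mz (N + ((Q : ℤ) * m i + n i) + a)) := ⟨_, rfl⟩
  have hfn : ∀ N, 0 ≤ f N := by
    intro N
    rw [hf]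
    exact prod_nonneg fun i _ => (ra_fac _ _ _ (hy i)).1
  have hfu : ∀ N, f N ≤ 2 ^ P.card := by
    intro N
    rw [hf, ← prod_const]
    exact prod_le_prod (fun i _ => (ra_fac _ _ _ (hy i)).1) fun i _ => (ra_fac _ _ _ (hy i)).2
  have hw : ∀ N, wU n l T N = 0 ∨ wU n l T N = 1 := fun N => (ra_wU n l T N).imp_right fun h => h.1
  have hbw : Bd (wU n l T) := by
    refine ⟨1, fun N => ?_⟩
    rcases hw N with h | h <;> rw [h] <;> norm_num
  have hbf : Bd f := ⟨2 ^ P.card, fun N => by rw [abs_of_nonneg (hfn N)]; exact hfu N⟩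
  obtain ⟨F, hF⟩ : ∃ F : ℤ → ℝ, F = fun N => wU n l T N * f N := ⟨_, rfl⟩
  have hF0 : ∀ N, 0 ≤ F N := by
    intro N
    rw [hF]
    rcases hw N with h | h
    · simp [h]
    · simp [h, hfn N]
  have hFb : Bd F := by rw [hF]; exact hbw.mul hbf
  have e1 : L (fun N => if (Q : ℤ) ∣ N then F N else 0) ≤ L F := by
    refine hL.mono (hFb.of_le fun N => ?_) hFb fun N => ?_
    · split_ifs
      · exact le_rfl
      · simp
    · split_ifs
      · exact le_rfl
      · exact hF0 N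
  rw [pr_mul_if hL hFb hQ] at e1
  obtain ⟨I, hI⟩ : ∃ I : Finset (Fin r), I = univ.filter (fun i => y i = 1) := ⟨_, rfl⟩
  have hpw : ∀ M : ℤ, 0 < M →
      (if pat (plx n0 l0 Q) m M = I then (1 : ℝ) else 0) - (1 - wU n l T (Q * M)) ≤ F (Q * M) := by
    intro M hM
    rcases ra_wU n l T (Q * M) with h | ⟨h, h'⟩
    · have h1 := hF0 (Q * M)
      rw [h]
      split_ifs <;> linarith
    · by_cases hp : pat (plx n0 l0 Q) m M = I
      · rw [if_pos hp, h, hF]
        simp only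
        rw [h, one_mul, hf]
        have h2 : (1 : ℝ) ≤ ∏ i ∈ P, (1 + y i * ∏ a ∈ spt (n i) (l i),
            mz ((Q : ℤ) * M + ((Q : ℤ) * m i + n i) + a)) := by
          rw [← prod_const_one (s := P)]
          refine prod_le_prod (fun _ _ => zero_le_one) fun i hi => ?_
          rw [hP, mem_filter] at hi
          rcases hS i with h3 | ⟨h3, h4⟩
          · omega
          · have h5 := h' i
            rw [hT] at h5
            simp only at h5
            rw [h3, h4] at h5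
            rw [h3, h4, ra_key n0 l0 hQ hM (m i) h5]
            have h6 : plx n0 l0 Q (M + (m i : ℕ)) = 1 ↔ y i = 1 := by
              have h7 : i ∈ pat (plx n0 l0 Q) m M ↔ i ∈ I := by rw [hp]
              unfold pat at h7
              rw [hI, mem_filter, mem_filter] at h7
              simpa using h7
            rcases plx_pm n0 l0 Q (M + (m i : ℕ)) with h8 | h8
            · rw [h8, h6.1 h8]
              norm_num
            · have h9 : y i ≠ 1 := by
                intro h10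
                rw [h6.2 h10] at h8
                norm_num at h8
              rw [h8, (hy i).resolve_left h9]
              norm_num
        linarith
      · have h1 := hF0 (Q * M)
        rw [if_neg hp, h]
        linarith
  have hbp : Bd (fun M : ℤ => if pat (plx n0 l0 Q) m M = I then (1 : ℝ) else 0) := by
    refine ⟨1, fun M => ?_⟩
    beta_reduce
    split_ifs <;> norm_num
  have hbw' : Bd (fun M : ℤ => wU n l T (Q * M)) := hbw.comp fun M => Q * M
  have hbG : Bd (fun M : ℤ => (if pat (plx n0 l0 Q) m M = I then (1 : ℝ) else 0) -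
      (1 - wU n l T (Q * M))) := hbp.sub ((Bd.const 1).sub hbw')
  have e3 : L (fun M : ℤ => (if pat (plx n0 l0 Q) m M = I then (1 : ℝ) else 0) -
      (1 - wU n l T (Q * M))) =
      pr L (fun M => pat (plx n0 l0 Q) m M = I) - (1 - L (fun M => wU n l T (Q * M))) := by
    rw [L_sub, L_sub, hL.one, pr_def]
  have hbG' : Bd (fun M : ℤ => if ((0 : ℕ) : ℤ) < M then
      (if pat (plx n0 l0 Q) m M = I then (1 : ℝ) else 0) - (1 - wU n l T (Q * M)) else 0) := by
    refine hbG.of_le fun M => ?_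
    beta_reduce
    split_ifs <;> simp
  have e4 := L_eq_of_ge hL hbG hbG' 0 (fun M hM => (if_pos hM).symm)
  have e5 : L (fun M : ℤ => if ((0 : ℕ) : ℤ) < M then
      (if pat (plx n0 l0 Q) m M = I then (1 : ℝ) else 0) - (1 - wU n l T (Q * M)) else 0) ≤
      L (fun M => F (Q * M)) := by
    refine hL.mono hbG' (hFb.comp fun M => Q * M) fun M => ?_
    by_cases hM : ((0 : ℕ) : ℤ) < M
    · rw [if_pos hM]
      exact hpw M (by simpa using hM)
    · rw [if_neg hM]
      exact hF0 _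
  have e6 := hm I
  have e7 : η / 2 ≤ L (fun M => F (Q * M)) := by
    rw [← e4, e3] at e5
    linarith
  have e8 : η / (2 * Q) ≤ L F := by
    refine le_trans ?_ e1
    rw [div_mul_eq_div_div]
    gcongr
  rw [hF, hf] at e8
  exact e8

end Pool.Agent.Lib.TU2
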