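import Pool.Agent.Lib.TU2.QDef

/-!
# TU2 / RPos (row RO, about 170 lines): all signs at one place vector, from the sign products

STATEMENT: below, verbatim.

PROOF. As `word_pos` (QPos.lean). `S = lets n l`, `|S| ≤ 2 r`. For every `N`: `wU N * ∏_{e ∈ S} (1 + x e.1 e.2 mz (N + t e.1 + e.2)) = 2^|S| E_x(N)`, `E_x` the indicator function in the conclusion. The product over `S` is the product over `i` of the products over `spt (n i) (l i)` (`Finset.prod_sigma`). For `i` with two letters `a, b`: `(1 + x_a mz_a)(1 + x_b mz_b) = (1 + y_i mz_a mz_b) + (x_a mz_a + x_b mz_b)`, `y_i = x_a x_b`.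
Expand over `B ⊆ S` (`Finset.prod_one_add`): `2^|S| L E_x = ∑_{B ⊆ S} (∏_B x) cU B`. The `B` with some `i` having exactly one letter in `B` contribute at least `- 4^r η` (at most `2^|S| ≤ 4^r` of them). The other `B` have for each `i` either no letter, or (`hS`) exactly the two letters of an `i` with two letters: they are the sets `B_T = {e ∈ S : e.1 ∈ T}`, `T ⊆ P = {i : two letters}`, and
`∑_{T ⊆ P} (∏_{B_T} x) cU B_T = L (wU N * ∏_{i ∈ P} (1 + y_i ∏_{a ∈ spt (n i) (l i)} mz (N + t i + a)))`, `y_i = ∏_{a ∈ spt (n i) (l i)} x i a = ±1` for `i ∈ P` (for `i ∉ P` put `y i = 1`), which is `≥ c` by `hc`. So `2^|S| L E_x ≥ c - 4^r η > 0`.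
-/

set_option autoImplicit false

open Finset

namespace Pool.Agent.Lib.TU2

open Pool.Agent.Lib.TU

private theorem qp_pm {m : ℤ} (h : muz m ≠ 0) : muz m = 1 ∨ muz m = -1 :=
  ArithmeticFunction.moebius_ne_zero_iff_eq_or.1 h

open Classical in
/-- the word indicator -/
private theorem qp_wU {r : ℕ} (n l : Fin r → ℕ) (t : Fin r → ℤ) (N : ℤ) :
    wU n l t N = if (∀ i, 1 ≤ N + t i ∧ ∀ j : ℕ, j < l i → muz (N + t i + j) ^ 2 = muz (n i + j) ^ 2) then 1 else 0 := by
  unfold wU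
  split_ifs with h
  · refine prod_eq_one fun i _ => ?_
    unfold wd
    rw [if_pos (h i)]
  · rw [not_forall] at h
    obtain ⟨i, hi⟩ := h
    refine prod_eq_zero (mem_univ i) ?_
    unfold wd
    rw [if_neg hi]

open Classical in
/-- the indicator of the signs as a product -/
private theorem qp_key {r : ℕ} (n l : Fin r → ℕ) (t : Fin r → ℤ)
    (x : Fin r → ℕ → ℤ) (hx : ∀ i, ∀ a ∈ spt (n i) (l i), x i a = 1 ∨ x i a = -1) (N : ℤ) :
    (2 : ℝ) ^ (lets n l).card *
      (if (∀ i, 1 ≤ N + t i ∧ ∀ j : ℕ, j < l i → muz (N + t i + j) ^ 2 = muz (n i + j) ^ 2) ∧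
      (∀ i, ∀ a ∈ spt (n i) (l i), muz (N + t i + a) = x i a) then 1 else 0) =
      wU n l t N * ∏ e ∈ lets n l, (1 + (x e.1 e.2 : ℝ) * mz (N + t e.1 + e.2)) := by
  rw [qp_wU]
  by_cases h1 : ∀ i, 1 ≤ N + t i ∧ ∀ j : ℕ, j < l i → muz (N + t i + j) ^ 2 = muz (n i + j) ^ 2
  · rw [if_pos h1, one_mul]
    by_cases h2 : ∀ i, ∀ a ∈ spt (n i) (l i), muz (N + t i + a) = x i a
    · rw [if_pos ⟨h1, h2⟩, mul_one]
      symm
      rw [prod_congr rfl (g := fun _ => (2 : ℝ)), prod_const]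
      intro e he
      have he' := (mem_sigma.1 he).2
      unfold mz
      rw [h2 e.1 e.2 he']
      rcases hx e.1 e.2 he' with h | h <;> rw [h] <;> norm_num
    · rw [if_neg (fun h => h2 h.2), mul_zero]
      symm
      push Not at h2
      obtain ⟨i, a, ha, hne⟩ := h2
      refine prod_eq_zero (i := (⟨i, a⟩ : Σ _ : Fin r, ℕ)) (mem_sigma.2 ⟨mem_univ _, ha⟩) ?_
      have ha' := mem_filter.1 ha
      have h3 := (h1 i).2 a (mem_range.1 ha'.1)
      have h4 : muz (N + t i + a) ≠ 0 := by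
        intro h5
        rw [h5] at h3
        have h6 : muz ((n i : ℤ) + a) ^ 2 = 0 := by rw [← h3]; norm_num
        exact ha'.2 (pow_eq_zero_iff two_ne_zero |>.1 h6)
      have h5 : x i a * muz (N + t i + a) = -1 := by
        rcases qp_pm h4 with h | h <;> rcases hx i a ha with h' | h' <;> rw [h, h'] at hne ⊢
        · exact absurd rfl hne
        · norm_num
        · norm_num
        · exact absurd rfl hne
      have h6 : (x i a : ℝ) * mz (N + t i + a) = -1 := by
        unfold mz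
        exact_mod_cast h5
      show 1 + (x i a : ℝ) * mz (N + t i + a) = 0
      rw [h6]
      norm_num
  · rw [if_neg h1, zero_mul, if_neg (fun h => h1 h.1), mul_zero]

/-- classification of the sets of letters -/
private theorem rp_class {r : ℕ} (n l : Fin r → ℕ)
    (hS : ∀ i, (spt (n i) (l i)).card ≤ 2)
    (B : Finset (Σ _ : Fin r, ℕ)) (hB : B ⊆ lets n l)
    (h1 : ¬ ∃ i, (B.filter (fun e => e.1 = i)).card = 1) :
    ∃ T ∈ ((univ : Finset (Fin r)).filter (fun i => (spt (n i) (l i)).card = 2)).powerset, T.sigma (fun i => spt (n i) (l i)) = B := by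
  classical
  rw [not_exists] at h1
  have hle : ∀ i, (B.filter (fun e => e.1 = i)) ⊆ (lets n l).filter (fun e => e.1 = i) :=
    fun i => filter_subset_filter _ hB
  have hcard : ∀ i, ((lets n l).filter (fun e => e.1 = i)).card = (spt (n i) (l i)).card := by
    intro i
    symm
    refine card_bij (fun a _ => (⟨i, a⟩ : Σ _ : Fin r, ℕ)) ?_ ?_ ?_
    · intro a ha
      exact mem_filter.2 ⟨mem_sigma.2 ⟨mem_univ _, ha⟩, rfl⟩
    · intro a _ b _ hab
      simpa using hab
    · rintro ⟨j, a⟩ he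
      obtain ⟨he1, he2⟩ := mem_filter.1 he
      simp only at he2
      subst he2
      exact ⟨a, (mem_sigma.1 he1).2, rfl⟩
  have hk : ∀ i, (B.filter (fun e => e.1 = i)).card = 0 ∨
      ((B.filter (fun e => e.1 = i)).card = 2 ∧ (spt (n i) (l i)).card = 2 ∧
        B.filter (fun e => e.1 = i) = (lets n l).filter (fun e => e.1 = i)) := by
    intro i
    have h2 := card_le_card (hle i)
    rw [hcard i] at h2
    have h3 := hS i
    have h4 := h1 i
    by_cases h5 : (B.filter (fun e => e.1 = i)).card = 0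
    · exact Or.inl h5
    · right
      have h6 : (B.filter (fun e => e.1 = i)).card = 2 := by omega
      have h7 : (spt (n i) (l i)).card = 2 := by omega
      refine ⟨h6, h7, eq_of_subset_of_card_le (hle i) ?_⟩
      rw [hcard i, h7, h6]
  refine ⟨(univ : Finset (Fin r)).filter (fun i => (B.filter (fun e => e.1 = i)).card = 2), ?_, ?_⟩
  · rw [mem_powerset]
    intro i hi
    rw [mem_filter]
    refine ⟨mem_univ _, ?_⟩
    have h2 := (mem_filter.1 hi).2
    rcases hk i with h3 | h3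
    · omega
    · exact h3.2.1
  · ext e
    rw [mem_sigma, mem_filter]
    constructor
    · rintro ⟨⟨-, h2⟩, h3⟩
      rcases hk e.1 with h6 | h6
      · omega
      · have h7 : e ∈ (lets n l).filter (fun e' => e'.1 = e.1) := mem_filter.2 ⟨mem_sigma.2 ⟨mem_univ _, h3⟩, rfl⟩
        rw [← h6.2.2] at h7
        exact (mem_filter.1 h7).1
    · intro he
      refine ⟨⟨mem_univ _, ?_⟩, (mem_sigma.1 (hB he)).2⟩
      rcases hk e.1 with h4 | h4
      · have h5 : e ∈ B.filter (fun e' => e'.1 = e.1) := mem_filter.2 ⟨he, rfl⟩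
        rw [card_eq_zero.1 h4] at h5
        exact absurd h5 (notMem_empty _)
      · exact h4.1

/-- the number of letters -/
private theorem qp_card {r : ℕ} (n l : Fin r → ℕ) (hS : ∀ i, (spt (n i) (l i)).card ≤ 2) : (lets n l).card ≤ 2 * r := by
  unfold lets
  rw [card_sigma]
  refine (sum_le_card_nsmul _ _ 2 fun i _ => hS i).trans ?_
  rw [card_univ, Fintype.card_fin, smul_eq_mul, mul_comm]

open Classical in
theorem word_pos2 {L : (ℤ → ℝ) →ₗ[ℝ] ℝ} (hL : IsMean L) {r : ℕ} (n l : Fin r → ℕ) (hn : ∀ i, 1 ≤ n i) (t : Fin r → ℤ)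
    (hS : ∀ i, (spt (n i) (l i)).card ≤ 2) (c η : ℝ)
    (hc : ∀ y : Fin r → ℝ, (∀ i, y i = 1 ∨ y i = -1) → c ≤ L (fun N => wU n l t N *
      ∏ i ∈ univ.filter (fun i => (spt (n i) (l i)).card = 2), (1 + y i * ∏ a ∈ spt (n i) (l i), mz (N + t i + a))))
    (hη : ∀ B ⊆ lets n l, (∃ i, (B.filter (fun e => e.1 = i)).card = 1) → |cU L n l t B| ≤ η)
    (h0 : 0 ≤ η) (h1 : 4 ^ r * η < c)
    (x : Fin r → ℕ → ℤ) (hx : ∀ i, ∀ a ∈ spt (n i) (l i), x i a = 1 ∨ x i a = -1) :
    0 < L (fun N => if (∀ i, 1 ≤ N + t i ∧ ∀ j : ℕ, j < l i → muz (N + t i + j) ^ 2 = muz (n i + j) ^ 2) ∧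
      (∀ i, ∀ a ∈ spt (n i) (l i), muz (N + t i + a) = x i a) then 1 else 0) := by
  -- the expansion
  have hexp : (2 : ℝ) ^ (lets n l).card * L (fun N => if (∀ i, 1 ≤ N + t i ∧ ∀ j : ℕ, j < l i →
      muz (N + t i + j) ^ 2 = muz (n i + j) ^ 2) ∧ (∀ i, ∀ a ∈ spt (n i) (l i), muz (N + t i + a) = x i a) then 1 else 0) =
      ∑ B ∈ (lets n l).powerset, (∏ e ∈ B, (x e.1 e.2 : ℝ)) * cU L n l t B := by
    rw [← Pool.Agent.Lib.TU.L_mul]
    have e1 : (fun N : ℤ => (2 : ℝ) ^ (lets n l).card * (if (∀ i, 1 ≤ N + t i ∧ ∀ j : ℕ, j < l i →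
        muz (N + t i + j) ^ 2 = muz (n i + j) ^ 2) ∧ (∀ i, ∀ a ∈ spt (n i) (l i), muz (N + t i + a) = x i a) then 1 else 0)) =
        fun N => ∑ B ∈ (lets n l).powerset, (∏ e ∈ B, (x e.1 e.2 : ℝ)) *
          (wU n l t N * ∏ e ∈ B, mz (N + t e.1 + e.2)) := by
      funext N
      rw [qp_key n l t x hx N, prod_one_add, mul_sum]
      refine sum_congr rfl fun B _ => ?_
      rw [prod_mul_distrib]
      ring
    rw [e1, L_sum]
    exact sum_congr rfl fun B _ => Pool.Agent.Lib.TU.L_mul _ _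
  -- the signs of the pairs
  have hxs : ∀ i, ∀ a ∈ spt (n i) (l i), |(x i a : ℝ)| = 1 := by
    intro i a ha
    rcases hx i a ha with h | h <;> rw [h] <;> norm_num
  have hy := hc (fun i => ∏ a ∈ spt (n i) (l i), (x i a : ℝ)) (fun i => by
    have h2 : |∏ a ∈ spt (n i) (l i), (x i a : ℝ)| = 1 := by
      rw [abs_prod]
      exact prod_eq_one fun a ha => hxs i a ha
    exact eq_or_eq_neg_of_abs_eq h2)
  have e2 : (fun N => wU n l t N * ∏ i ∈ univ.filter (fun i => (spt (n i) (l i)).card = 2),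
      (1 + (∏ a ∈ spt (n i) (l i), (x i a : ℝ)) * ∏ a ∈ spt (n i) (l i), mz (N + t i + a))) =
      fun N => ∑ T ∈ (univ.filter (fun i => (spt (n i) (l i)).card = 2)).powerset,
        (∏ e ∈ T.sigma (fun i => spt (n i) (l i)), (x e.1 e.2 : ℝ)) *
          (wU n l t N * ∏ e ∈ T.sigma (fun i => spt (n i) (l i)), mz (N + t e.1 + e.2)) := by
    funext N
    rw [prod_one_add, mul_sum]
    refine sum_congr rfl fun T _ => ?_
    rw [prod_mul_distrib, prod_sigma, prod_sigma]
    ring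
  have hy2 : c ≤ ∑ T ∈ (univ.filter (fun i => (spt (n i) (l i)).card = 2)).powerset,
      (∏ e ∈ T.sigma (fun i => spt (n i) (l i)), (x e.1 e.2 : ℝ)) * cU L n l t (T.sigma (fun i => spt (n i) (l i))) := by
    have h2 : c ≤ L (fun N => wU n l t N * ∏ i ∈ univ.filter (fun i => (spt (n i) (l i)).card = 2),
      (1 + (∏ a ∈ spt (n i) (l i), (x i a : ℝ)) * ∏ a ∈ spt (n i) (l i), mz (N + t i + a))) := hy
    rw [e2, L_sum] at h2
    refine h2.trans (le_of_eq (sum_congr rfl fun T _ => ?_))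
    exact Pool.Agent.Lib.TU.L_mul _ _
  -- the good sets
  set G : Finset (Finset (Σ _ : Fin r, ℕ)) := (univ.filter (fun i => (spt (n i) (l i)).card = 2)).powerset.image
    (fun T => T.sigma (fun i => spt (n i) (l i))) with hG
  have hGsub : G ⊆ (lets n l).powerset := by
    intro B hB
    obtain ⟨T, -, rfl⟩ := mem_image.1 hB
    rw [mem_powerset]
    exact sigma_mono (subset_univ _) fun _ => Subset.rfl
  have hGsum : ∑ B ∈ G, (∏ e ∈ B, (x e.1 e.2 : ℝ)) * cU L n l t B =
      ∑ T ∈ (univ.filter (fun i => (spt (n i) (l i)).card = 2)).powerset,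
      (∏ e ∈ T.sigma (fun i => spt (n i) (l i)), (x e.1 e.2 : ℝ)) * cU L n l t (T.sigma (fun i => spt (n i) (l i))) := by
    rw [hG, sum_image]
    intro T hT T' hT' h
    have hT1 := mem_powerset.1 (mem_coe.1 hT)
    have hT2 := mem_powerset.1 (mem_coe.1 hT')
    have hne : ∀ i ∈ univ.filter (fun i => (spt (n i) (l i)).card = 2), (spt (n i) (l i)).Nonempty := by
      intro i hi
      have := (mem_filter.1 hi).2
      exact card_pos.1 (by omega)
    simp only at h
    ext i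
    constructor
    · intro hi
      obtain ⟨a, ha⟩ := hne i (hT1 hi)
      have h2 : (⟨i, a⟩ : Σ _ : Fin r, ℕ) ∈ T.sigma (fun i => spt (n i) (l i)) := mem_sigma.2 ⟨hi, ha⟩
      rw [h] at h2
      exact (mem_sigma.1 h2).1
    · intro hi
      obtain ⟨a, ha⟩ := hne i (hT2 hi)
      have h2 : (⟨i, a⟩ : Σ _ : Fin r, ℕ) ∈ T'.sigma (fun i => spt (n i) (l i)) := mem_sigma.2 ⟨hi, ha⟩
      rw [← h] at h2
      exact (mem_sigma.1 h2).1
  -- the other sets
  have hterm : ∀ B ∈ (lets n l).powerset \ G, -η ≤ (∏ e ∈ B, (x e.1 e.2 : ℝ)) * cU L n l t B := by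
    intro B hB
    rw [mem_sdiff, mem_powerset] at hB
    obtain ⟨hBS, hBG⟩ := hB
    have habs : |∏ e ∈ B, (x e.1 e.2 : ℝ)| = 1 := by
      rw [abs_prod]
      exact prod_eq_one fun e he => hxs e.1 e.2 (mem_sigma.1 (hBS he)).2
    have h2 : |(∏ e ∈ B, (x e.1 e.2 : ℝ)) * cU L n l t B| ≤ η := by
      rw [abs_mul, habs, one_mul]
      refine hη B hBS ?_
      by_contra h3
      obtain ⟨T, hT, hTB⟩ := rp_class n l hS B hBS h3
      exact hBG (mem_image.2 ⟨T, hT, hTB⟩)
    exact (neg_le_neg h2).trans (neg_abs_le _)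
  have hsum : c - 4 ^ r * η ≤ ∑ B ∈ (lets n l).powerset, (∏ e ∈ B, (x e.1 e.2 : ℝ)) * cU L n l t B := by
    rw [← sum_sdiff hGsub, hGsum]
    have h2 := sum_le_sum hterm
    rw [sum_const, nsmul_eq_mul] at h2
    have h4 : ((((lets n l).powerset \ G).card : ℕ) : ℝ) ≤ 4 ^ r := by
      have h5 : ((lets n l).powerset \ G).card ≤ 4 ^ r := by
        calc ((lets n l).powerset \ G).card ≤ (lets n l).powerset.card := card_le_card sdiff_subset
          _ = 2 ^ (lets n l).card := card_powerset _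
          _ ≤ 2 ^ (2 * r) := Nat.pow_le_pow_right (by norm_num) (qp_card n l hS)
          _ = 4 ^ r := by rw [pow_mul]; norm_num
      exact_mod_cast h5
    have h5 := mul_le_mul_of_nonneg_right h4 h0
    linarith
  have hpos : 0 < (2 : ℝ) ^ (lets n l).card * L (fun N => if (∀ i, 1 ≤ N + t i ∧ ∀ j : ℕ, j < l i →
      muz (N + t i + j) ^ 2 = muz (n i + j) ^ 2) ∧ (∀ i, ∀ a ∈ spt (n i) (l i), muz (N + t i + a) = x i a) then 1 else 0) := by
    rw [hexp]
    linarith
  exact (mul_pos_iff_of_pos_left (by positivity)).1 hpos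

end Pool.Agent.Lib.TU2
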