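import Pool.Agent.Lib.TU2.RShat
import Pool.Agent.Lib.TU2.RLow
import Pool.Agent.Lib.TU2.RPos
import Pool.Agent.Lib.TU2.RBad
import Pool.Agent.Lib.TU2.RPair
import Pool.Agent.Lib.TU.Mean

/-!
# TU2 / RFin (row RF, about 150 lines): many pairs

STATEMENT: below, verbatim.

PROOF. `c` from `plx_gap`, `η, κ, H1` from `shatter r c`. `Q` from `word_low2 n l hn l0 (η/2)`. `c₁ = η/(2 Q)`, `η' = c₁/(2 · 4^r)`. `H2` from `word_bad n l hn Q hQ η' (κ/2)`. Answer: `Q`, `κ/2`, `max H1 H2`. `L` from `exists_mean` for one ultrafilter `U ≤ atTop` (as in QFin.lean). Let `H ≥ max H1 H2`.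
At least `κ H^r` of the `m` in the box have `Shat L (plx n0 l0 Q) η m` (`plx_pm`, `plx_gap`, `shatter`); at most `(κ/2) H^r` of the `m` are bad in the sense of `word_bad`; so at least `(κ/2) H^r` have the first property and are not bad. For such `m`: `pair_low` gives `hc` of `word_pos2` with `c = c₁`, `t i = Q m i + n i`; not bad: `hη` with `η'`; `4^r η' = c₁/2 < c₁`; `hS` (`≤ 2`) from the hypothesis.
So `word_pos2`: for all `x` the function `E` there has `L E > 0`; the function here differs from it at most for `N ≤ 0` (`L_eq_of_ge`), and with `c = L E/2` there are arbitrarily large `X` with `c ≤ lav X ..` (as in QFin.lean).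
-/

set_option autoImplicit false

open Finset

namespace Pool.Agent.Lib.TU2

open Pool.Agent.Lib.TU

open Classical in
theorem many_pairs (r : ℕ) : ∃ κ : ℝ, 0 < κ ∧ ∀ n l : Fin r → ℕ, (∀ i, 1 ≤ n i) → ∀ n0 l0 : ℕ, 1 ≤ n0 → (spt n0 l0).card = 2 →
    (∀ i, (spt (n i) (l i)).card ≤ 1 ∨ (n i = n0 ∧ l i = l0)) →
    ∃ (Q : ℕ) (H0 : ℕ), 0 < Q ∧ ∀ H : ℕ, H0 ≤ H → κ * (H : ℝ) ^ r ≤
      (((Fintype.piFinset (fun _ : Fin r => range H)).filter (fun m => ∀ x : Fin r → ℕ → ℤ,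
        (∀ i, ∀ a ∈ spt (n i) (l i), x i a = 1 ∨ x i a = -1) →
          ∃ c : ℝ, 0 < c ∧ ∀ X0 : ℕ, ∃ X : ℕ, X0 ≤ X ∧ c ≤ lav X (fun N => if 1 ≤ N ∧
            (∀ i, ∀ j : ℕ, j < l i → muz (N + ((Q : ℤ) * m i + n i) + j) ^ 2 = muz (n i + j) ^ 2) ∧
            (∀ i, ∀ a ∈ spt (n i) (l i), muz (N + ((Q : ℤ) * m i + n i) + a) = x i a) then 1 else 0))).card : ℝ) := by
  obtain ⟨c, hc0, hgap⟩ := plx_gap
  obtain ⟨η, κ, H1, hη0, hκ0, hsh⟩ := shatter r c hc0
  refine ⟨κ / 2, by positivity, fun n l hn n0 l0 hn0 h2 hS => ?_⟩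
  obtain ⟨Q, hQ, hBQ, hlow⟩ := word_low2 n l hn l0 (η / 2) (by positivity)
  have hQr : (0 : ℝ) < Q := by exact_mod_cast hQ
  set c1 : ℝ := η / (2 * Q) with hc1
  have hc1pos : 0 < c1 := by positivity
  set η' : ℝ := c1 / (2 * 4 ^ r) with hη'
  have hη'pos : 0 < η' := by positivity
  obtain ⟨H2, hbad⟩ := word_bad n l hn Q hQ η' (κ / 2) hη'pos (by positivity)
  obtain ⟨L, hL, hlim⟩ := exists_mean (Ultrafilter.of Filter.atTop) (Ultrafilter.of_le Filter.atTop)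
  have hS2 : ∀ i, (spt (n i) (l i)).card ≤ 2 := by
    intro i
    rcases hS i with h | ⟨h, h'⟩
    · omega
    · rw [h, h', h2]
  refine ⟨Q, max H1 H2, hQ, fun H hH => ?_⟩
  have hA := hsh L hL (plx n0 l0 Q) (plx_pm n0 l0 Q) (fun t ht => hgap L hL n0 l0 Q hQ hBQ h2 t ht) H
    ((le_max_left _ _).trans hH)
  have hB := hbad H ((le_max_right _ _).trans hH) L hL
  set A := (Fintype.piFinset (fun _ : Fin r => range H)).filter (fun m => Shat L (plx n0 l0 Q) η m) with hAdef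
  set B := (Fintype.piFinset (fun _ : Fin r => range H)).filter (fun m => ∃ B ⊆ lets n l, (∃ i, (B.filter (fun e => e.1 = i)).card = 1) ∧
        η' < |cU L n l (fun i => (Q : ℤ) * m i + n i) B|) with hBdef
  have hcard : (A.card : ℝ) ≤ ((A \ B).card : ℝ) + (B.card : ℝ) := by
    have h := Finset.card_le_card_sdiff_add_card (s := A) (t := B)
    exact_mod_cast h
  have hfin : ((A \ B).card : ℝ) ≤ (((Fintype.piFinset (fun _ : Fin r => range H)).filter (fun m => ∀ x : Fin r → ℕ → ℤ,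
        (∀ i, ∀ a ∈ spt (n i) (l i), x i a = 1 ∨ x i a = -1) →
          ∃ c : ℝ, 0 < c ∧ ∀ X0 : ℕ, ∃ X : ℕ, X0 ≤ X ∧ c ≤ lav X (fun N => if 1 ≤ N ∧
            (∀ i, ∀ j : ℕ, j < l i → muz (N + ((Q : ℤ) * m i + n i) + j) ^ 2 = muz (n i + j) ^ 2) ∧
            (∀ i, ∀ a ∈ spt (n i) (l i), muz (N + ((Q : ℤ) * m i + n i) + a) = x i a) then 1 else 0))).card : ℝ) := by
    refine Nat.cast_le.2 (card_le_card fun m hm => ?_)
    rw [mem_sdiff, hAdef, hBdef, mem_filter, mem_filter] at hm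
    obtain ⟨⟨hbox, hshat⟩, hnb⟩ := hm
    rw [mem_filter]
    refine ⟨hbox, fun x hx => ?_⟩
    have hnb' : ∀ B ⊆ lets n l, (∃ i, (B.filter (fun e => e.1 = i)).card = 1) →
        |cU L n l (fun i => (Q : ℤ) * m i + n i) B| ≤ η' := by
      intro B hB1 hB2
      by_contra hcon
      exact hnb ⟨hbox, B, hB1, hB2, not_le.1 hcon⟩
    have h41 : 4 ^ r * η' < c1 := by
      have h4 : (0 : ℝ) < 4 ^ r := by positivity
      have he : 4 ^ r * η' = c1 / 2 := by
        rw [hη']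
        field_simp
      rw [he]
      linarith
    have hpos := word_pos2 hL n l hn (fun i => (Q : ℤ) * m i + n i) hS2 c1 η'
      (fun y hy => pair_low hL n l hn n0 l0 hn0 hS Q hQ m η hη0 (hlow L hL m) hshat y hy) hnb' hη'pos.le h41 x hx
    have hb : Bd (fun N : ℤ => if (∀ i, 1 ≤ N + ((Q : ℤ) * m i + n i) ∧ ∀ j : ℕ, j < l i →
        muz (N + ((Q : ℤ) * m i + n i) + j) ^ 2 = muz (n i + j) ^ 2) ∧
        (∀ i, ∀ a ∈ spt (n i) (l i), muz (N + ((Q : ℤ) * m i + n i) + a) = x i a) then (1 : ℝ) else 0) :=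
      ⟨1, fun n => by beta_reduce; split_ifs <;> norm_num⟩
    have hb' : Bd (fun N : ℤ => if 1 ≤ N ∧
        (∀ i, ∀ j : ℕ, j < l i → muz (N + ((Q : ℤ) * m i + n i) + j) ^ 2 = muz (n i + j) ^ 2) ∧
        (∀ i, ∀ a ∈ spt (n i) (l i), muz (N + ((Q : ℤ) * m i + n i) + a) = x i a) then (1 : ℝ) else 0) :=
      ⟨1, fun n => by beta_reduce; split_ifs <;> norm_num⟩
    have heq := L_eq_of_ge hL hb hb' 0 (fun N hN => by
      refine if_congr ?_ rfl rfl
      have hN' : (0 : ℤ) < N := by simpa using hN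
      constructor
      · rintro ⟨h1, h2⟩
        exact ⟨by omega, fun i => (h1 i).2, h2⟩
      · rintro ⟨_, h1, h2⟩
        refine ⟨fun i => ⟨?_, h1 i⟩, h2⟩
        have e1 : (0 : ℤ) ≤ (Q : ℤ) * m i := mul_nonneg (Int.natCast_nonneg _) (Int.natCast_nonneg _)
        have e2 : (0 : ℤ) ≤ (n i : ℤ) := Int.natCast_nonneg _
        omega)
    rw [heq] at hpos
    refine ⟨_, half_pos hpos, fun X0 => ?_⟩
    have h1 := (hlim _ hb').eventually (lt_mem_nhds (half_lt_self hpos))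
    have h2 : ∀ᶠ X in ((Ultrafilter.of Filter.atTop : Ultrafilter ℕ) : Filter ℕ), X0 ≤ X :=
      (Filter.eventually_ge_atTop X0).filter_mono (Ultrafilter.of_le Filter.atTop)
    obtain ⟨X, hX1, hX2⟩ := (h2.and h1).exists
    exact ⟨X, hX1, hX2.le⟩
  have hHr : (0 : ℝ) ≤ (H : ℝ) ^ r := by positivity
  nlinarith [hA, hB, hcard, hfin]

end Pool.Agent.Lib.TU2
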