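import Pool.Agent.Lib.TU2.RDist

/-!
# TU2 / RIso (row RI, about 150 lines): windows are not covered by few balls (the shift is an isometry)

STATEMENT: below, verbatim.

PROOF. By contradiction: let `p := pr L (N : ∀ a ∈ u, ε < Dw N a) < τ`. `Bad N`: `∀ a ∈ u, ε < Dw ψ H N a`. `BJ N`: `∃ s ≤ J, Bad (N + s)`; `pr BJ ≤ (J+1) p ≤ (J + 1) τ` (`pr_exists_le` or induction, shift invariance).
For `a ∈ u` (index by `Fin u.length`): call `a` kept if there is `N` with `¬ BJ N` and `Dw N a ≤ ε`; choose such an `N_a`. For kept `a` and `s ≤ J`: `¬ Bad (N_a + s)` gives `g_s(a) ∈ u` with `Dw (N_a + s) (g_s a) ≤ ε`; for `a` not kept put `g_s(a) = a`. The functions `g_s : Fin u.length → Fin u.length`, `s ∈ {0..J}`, are `J + 1 > K^K ≥ (u.length)^(u.length)` many: `g_{s₁} = g_{s₂}` for some `s₁ < s₂ ≤ J`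
(`Finset.exists_ne_map_eq_of_card_lt_of_maps_to`, `Fintype.card_fun`). So `Dw (N_a + s₁) (N_a + s₂) ≤ 2 ε` for kept `a`. If `¬ BJ N`, then `¬ Bad N` (`s = 0`), so there is `a ∈ u` with `Dw N a ≤ ε`, kept (witness `N`), and
`Dw (N+s₁) (N+s₂) ≤ Dw (N+s₁) (N_a+s₁) + Dw (N_a+s₁) (N_a+s₂) + Dw (N_a+s₂) (N+s₂) ≤ (2ε + s₁/H) + 2ε + (2ε + s₂/H) ≤ 6 ε + 2 J/H` (`Dw_tri`, `Dw_shift`, `Dw_comm`). Hence `L (N ↦ Dw (N+s₁) (N+s₂)) ≤ 6 ε + 2 J/H + pr BJ ≤ 6 ε + 2 J/H + (J+1) τ < c/2`, against `Dw_gap`.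
-/

set_option autoImplicit false

open Finset

namespace Pool.Agent.Lib.TU2

open Pool.Agent.Lib.TU

theorem iso_cov {L : (ℤ → ℝ) →ₗ[ℝ] ℝ} (hL : IsMean L) (ψ : ℤ → ℝ) (hψ : ∀ n, ψ n = 1 ∨ ψ n = -1) (c : ℝ)
    (hc : ∀ t : ℕ, 1 ≤ t → L (fun n => ψ n * ψ (n + t)) ≤ 1 - c) (H K J : ℕ) (hH : 0 < H) (hJ : K ^ K ≤ J) (ε τ : ℝ) (hε : 0 ≤ ε) (hτ : 0 ≤ τ)
    (hlt : 6 * ε + 2 * J / H + (J + 1) * τ < c / 2) (u : List ℤ) (hu : u.length < K) : τ ≤ pr L (fun N => ∀ a ∈ u, ε < Dw ψ H N a) := by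
  classical
  by_contra hcon
  push Not at hcon
  have hH' : (0 : ℝ) < H := by exact_mod_cast hH
  obtain ⟨Bad, hBad⟩ : ∃ Bad : ℤ → Prop, Bad = fun N => ∀ a ∈ u, ε < Dw ψ H N a := ⟨_, rfl⟩
  obtain ⟨BJ, hBJ⟩ : ∃ BJ : ℤ → Prop, BJ = fun N => ∃ s ∈ range (J + 1), Bad (N + (s : ℕ)) := ⟨_, rfl⟩
  rw [← hBad] at hcon
  have hBJp : pr L BJ ≤ (J + 1) * τ := by
    rw [hBJ]
    refine (pr_exists_le hL (range (J + 1)) (fun s N => Bad (N + (s : ℕ)))).trans ?_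
    calc ∑ s ∈ range (J + 1), pr L (fun N => Bad (N + (s : ℕ))) ≤ ∑ s ∈ range (J + 1), τ := by
          refine sum_le_sum fun s _ => ?_
          rw [pr_shift hL Bad]
          exact hcon.le
      _ = (J + 1) * τ := by
          rw [sum_const, card_range, nsmul_eq_mul]
          push_cast
          ring
  -- kept elements
  obtain ⟨kept, hkept⟩ : ∃ kept : Fin u.length → Prop, kept = fun i => ∃ N, ¬ BJ N ∧ Dw ψ H N (u.get i) ≤ ε := ⟨_, rfl⟩
  have hNa : ∀ i : Fin u.length, ∃ N : ℤ, kept i → (¬ BJ N ∧ Dw ψ H N (u.get i) ≤ ε) := by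
    intro i
    by_cases h : kept i
    · have h' := h
      rw [hkept] at h'
      obtain ⟨N, hN⟩ := h'
      exact ⟨N, fun _ => hN⟩
    · exact ⟨0, fun h' => absurd h' h⟩
  choose Na hNa using hNa
  have hnb : ∀ N : ℤ, ¬ BJ N → ∀ s : ℕ, s ≤ J → ∃ i : Fin u.length, Dw ψ H (N + s) (u.get i) ≤ ε := by
    intro N hN s hs
    rw [hBJ] at hN
    have h1 : ¬ Bad (N + (s : ℕ)) := fun h => hN ⟨s, mem_range.2 (by omega), h⟩
    rw [hBad] at h1
    push Not at h1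
    obtain ⟨a, ha, h2⟩ := h1
    obtain ⟨i, hi⟩ := List.mem_iff_get.1 ha
    exact ⟨i, by rw [hi]; exact h2⟩
  have hg : ∀ s : ℕ, ∃ g : Fin u.length → Fin u.length, s ≤ J → ∀ i, kept i → Dw ψ H (Na i + s) (u.get (g i)) ≤ ε := by
    intro s
    by_cases hs : s ≤ J
    · have h1 : ∀ i : Fin u.length, ∃ i' : Fin u.length, kept i → Dw ψ H (Na i + s) (u.get i') ≤ ε := by
        intro i
        by_cases h : kept i
        · obtain ⟨i', hi'⟩ := hnb (Na i) (hNa i h).1 s hs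
          exact ⟨i', fun _ => hi'⟩
        · exact ⟨i, fun h' => absurd h' h⟩
      choose g hg using h1
      exact ⟨g, fun _ => hg⟩
    · exact ⟨id, fun h => absurd h hs⟩
  choose G hG using hg
  have hpig : ∃ s₁ s₂ : ℕ, s₁ < s₂ ∧ s₂ ≤ J ∧ G s₁ = G s₂ := by
    have hcard : (univ : Finset (Fin u.length → Fin u.length)).card < (range (J + 1)).card := by
      rw [card_univ, Fintype.card_fun, Fintype.card_fin, card_range]
      have h1 : u.length ^ u.length ≤ K ^ K :=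
        (Nat.pow_le_pow_left hu.le _).trans (Nat.pow_le_pow_right (by omega) hu.le)
      omega
    obtain ⟨x, hx, y, hy, hxy, hGxy⟩ := exists_ne_map_eq_of_card_lt_of_maps_to hcard (f := G) (fun a _ => mem_univ _)
    rw [mem_range] at hx hy
    rcases lt_or_gt_of_ne hxy with h | h
    · exact ⟨x, y, h, by omega, hGxy⟩
    · exact ⟨y, x, h, by omega, hGxy.symm⟩
  obtain ⟨s₁, s₂, hs, hs2, hGs⟩ := hpig
  have hkd : ∀ i, kept i → Dw ψ H (Na i + s₁) (Na i + s₂) ≤ 2 * ε := by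
    intro i hi
    have h1 := hG s₁ (by omega) i hi
    have h2 := hG s₂ hs2 i hi
    rw [← hGs] at h2
    have h3 := Dw_tri ψ H (Na i + s₁) (u.get (G s₁ i)) (Na i + s₂)
    rw [Dw_comm ψ H (u.get (G s₁ i)) (Na i + s₂)] at h3
    linarith
  have hgood : ∀ N : ℤ, ¬ BJ N → Dw ψ H (N + s₁) (N + s₂) ≤ 6 * ε + 2 * J / H := by
    intro N hN
    obtain ⟨i, hi⟩ := hnb N hN 0 (Nat.zero_le _)
    rw [Nat.cast_zero, add_zero] at hi
    have hk : kept i := by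
      rw [hkept]
      exact ⟨N, hN, hi⟩
    obtain ⟨-, hNi⟩ := hNa i hk
    have h0 : Dw ψ H N (Na i) ≤ 2 * ε := by
      have h1 := Dw_tri ψ H N (u.get i) (Na i)
      rw [Dw_comm ψ H (u.get i) (Na i)] at h1
      linarith
    have h1 := Dw_shift ψ H N (Na i) s₁
    have h2 := Dw_shift ψ H (Na i) N s₂
    rw [Dw_comm ψ H (Na i) N] at h2
    have h3 := hkd i hk
    have h4 := Dw_tri ψ H (N + s₁) (Na i + s₁) (N + s₂)
    have h5 := Dw_tri ψ H (Na i + s₁) (Na i + s₂) (N + s₂)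
    have h6 : (s₁ : ℝ) / H ≤ J / H := by
      apply div_le_div_of_nonneg_right _ hH'.le
      exact_mod_cast (by omega : s₁ ≤ J)
    have h7 : (s₂ : ℝ) / H ≤ J / H := by
      apply div_le_div_of_nonneg_right _ hH'.le
      exact_mod_cast hs2
    have h8 : 2 * (J : ℝ) / H = J / H + J / H := by ring
    rw [h8]
    linarith
  have hBd : Bd (fun N => Dw ψ H (N + s₁) (N + s₂)) := by
    refine ⟨1, fun N => ?_⟩
    rw [abs_of_nonneg (Dw_nonneg ψ H _ _)]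
    exact Dw_le_one ψ H _ _
  have hup : L (fun N => Dw ψ H (N + s₁) (N + s₂)) ≤ (6 * ε + 2 * J / H) + pr L BJ := by
    have h1 : L (fun N => (fun _ : ℤ => 6 * ε + 2 * (J : ℝ) / H) N + (fun N => if BJ N then (1 : ℝ) else 0) N) =
        (6 * ε + 2 * J / H) + pr L BJ := by
      rw [L_add, hL.const, ← pr_def]
    rw [← h1]
    refine hL.mono hBd ((Bd.const _).add (Bd.ind BJ)) fun N => ?_
    by_cases h : BJ N
    · simp only [if_pos h]
      have h2 := Dw_le_one ψ H (N + s₁) (N + s₂)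
      have h3 : 0 ≤ 2 * (J : ℝ) / H := by positivity
      linarith
    · simp only [if_neg h, add_zero]
      exact hgood N h
  have hlow := Dw_gap hL ψ hψ c hc H hH s₁ s₂ hs
  linarith

end Pool.Agent.Lib.TU2
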