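import Pool.Agent.Lib.TU2.RDef

/-!
# TU2 / RIt (row RT, about 120 lines): iterated means

STATEMENTS: below, verbatim.

PROOFS. All by induction on `k`, generalizing `u`; `L` is linear on all functions and monotone on bounded ones (`IsMean.nonneg` for the difference; see the lemmas in TU/Basic.lean).
`itl_bd`: if `|F v| ≤ C` for all lists then `|itl L F k u| ≤ C` (needed for the boundedness of `N ↦ itl L F k (N :: u)`). `itl_mono`: `L` of `N ↦ itl L F k (N :: u) ≤ itl L G k (N :: u)`. `itl_sum`: linearity only. `itl_const`: `L (fun _ => a) = a` (`IsMean.one`). `itl_listsum`: `L (N ↦ k * L g + (g N + (u.map g).sum)) = (k+1) * L g + ..`.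
`itl_low`: `itl L [S] (k+1) u = L (N ↦ itl L [S] k (N :: u)) ≥ L (N ↦ if S (N :: u) then τ ^ k else 0)` (if `S (N :: u)`: induction hypothesis, its list has length `u.length + 1`; if not: `itl` is `≥ 0`) `= τ ^ k * pr L (S (N :: u)) ≤ .. ≥ τ ^ (k+1)`, since `u.length < K`.
-/

set_option autoImplicit false

open Finset

namespace Pool.Agent.Lib.TU2

open Pool.Agent.Lib.TU

theorem itl_bd {L : (ℤ → ℝ) →ₗ[ℝ] ℝ} (hL : IsMean L) (F : List ℤ → ℝ) (C : ℝ) (hF : ∀ v, |F v| ≤ C) (k : ℕ) (u : List ℤ) : |itl L F k u| ≤ C := by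
  induction k generalizing u with
  | zero => exact hF u
  | succ k ih => exact hL.abs_le fun N => ih (N :: u)

theorem itl_mono {L : (ℤ → ℝ) →ₗ[ℝ] ℝ} (hL : IsMean L) (F G : List ℤ → ℝ) (C : ℝ) (hF : ∀ v, |F v| ≤ C) (hG : ∀ v, |G v| ≤ C) (K : ℕ)
    (h : ∀ v : List ℤ, v.length = K → F v ≤ G v) (k : ℕ) (u : List ℤ) (hu : u.length + k = K) : itl L F k u ≤ itl L G k u := by
  induction k generalizing u with
  | zero => exact h u hu
  | succ k ih =>
    exact hL.mono ⟨C, fun N => itl_bd hL F C hF k (N :: u)⟩ ⟨C, fun N => itl_bd hL G C hG k (N :: u)⟩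
      fun N => ih (N :: u) (by rw [List.length_cons]; omega)

theorem itl_sum (L : (ℤ → ℝ) →ₗ[ℝ] ℝ) {ι : Type} (s : Finset ι) (a : ι → ℝ) (F : ι → List ℤ → ℝ) (k : ℕ) (u : List ℤ) :
    itl L (fun v => ∑ i ∈ s, a i * F i v) k u = ∑ i ∈ s, a i * itl L (F i) k u := by
  induction k generalizing u with
  | zero => rfl
  | succ k ih =>
    show L (fun N => itl L (fun v => ∑ i ∈ s, a i * F i v) k (N :: u)) =
      ∑ i ∈ s, a i * L (fun N => itl L (F i) k (N :: u))
    rw [show (fun N => itl L (fun v => ∑ i ∈ s, a i * F i v) k (N :: u)) =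
      fun N => ∑ i ∈ s, a i * itl L (F i) k (N :: u) from funext fun N => ih (N :: u)]
    rw [L_sum s fun i N => a i * itl L (F i) k (N :: u)]
    exact sum_congr rfl fun i _ => L_mul _ _

theorem itl_const {L : (ℤ → ℝ) →ₗ[ℝ] ℝ} (hL : IsMean L) (a : ℝ) (k : ℕ) (u : List ℤ) : itl L (fun _ => a) k u = a := by
  induction k generalizing u with
  | zero => rfl
  | succ k ih =>
    show L (fun N => itl L (fun _ => a) k (N :: u)) = a
    rw [show (fun N => itl L (fun _ => a) k (N :: u)) = fun _ => a from funext fun N => ih (N :: u)]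
    exact hL.const a

theorem itl_listsum {L : (ℤ → ℝ) →ₗ[ℝ] ℝ} (hL : IsMean L) (g : ℤ → ℝ) (k : ℕ) (u : List ℤ) :
    itl L (fun v => (v.map g).sum) k u = k * L g + (u.map g).sum := by
  induction k generalizing u with
  | zero =>
    show (u.map g).sum = ((0 : ℕ) : ℝ) * L g + (u.map g).sum
    rw [Nat.cast_zero, zero_mul, zero_add]
  | succ k ih =>
    show L (fun N => itl L (fun v => (v.map g).sum) k (N :: u)) = _
    rw [show (fun N => itl L (fun v => (v.map g).sum) k (N :: u)) =
      fun N => (k * L g + (u.map g).sum) + g N from funext fun N => by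
        rw [ih (N :: u), List.map_cons, List.sum_cons]
        ring]
    rw [L_add (fun _ => (k : ℝ) * L g + (u.map g).sum) g, hL.const]
    push_cast
    ring

open Classical in
private theorem itl_nn {L : (ℤ → ℝ) →ₗ[ℝ] ℝ} (hL : IsMean L) (S : List ℤ → Prop) (k : ℕ) (u : List ℤ) :
    0 ≤ itl L (fun v => if S v then 1 else 0) k u := by
  have hb : ∀ v : List ℤ, |(if S v then (1 : ℝ) else 0)| ≤ 1 := fun v => by split_ifs <;> norm_num
  induction k generalizing u with
  | zero =>
    show (0 : ℝ) ≤ if S u then 1 else 0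
    split_ifs <;> norm_num
  | succ k ih =>
    exact hL.nonneg _ ⟨1, fun N => itl_bd hL _ 1 hb k (N :: u)⟩ fun N => ih (N :: u)

open Classical in
theorem itl_low {L : (ℤ → ℝ) →ₗ[ℝ] ℝ} (hL : IsMean L) (S : List ℤ → Prop) (τ : ℝ) (hτ : 0 ≤ τ) (K : ℕ)
    (h : ∀ u : List ℤ, u.length < K → S u → τ ≤ pr L (fun N => S (N :: u))) (k : ℕ) (u : List ℤ) (hu : u.length + k = K) (hS : S u) :
    τ ^ k ≤ itl L (fun v => if S v then 1 else 0) k u := by
  have hb : ∀ v : List ℤ, |(if S v then (1 : ℝ) else 0)| ≤ 1 := fun v => by split_ifs <;> norm_num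
  induction k generalizing u with
  | zero =>
    show τ ^ 0 ≤ if S u then 1 else 0
    rw [if_pos hS, pow_zero]
  | succ k ih =>
    show τ ^ (k + 1) ≤ L (fun N => itl L (fun v => if S v then 1 else 0) k (N :: u))
    have h1 : L (fun N => τ ^ k * (if S (N :: u) then (1 : ℝ) else 0)) ≤
        L (fun N => itl L (fun v => if S v then 1 else 0) k (N :: u)) := by
      refine hL.mono ((Bd.const _).mul (Bd.ind fun N => S (N :: u))) ⟨1, fun N => itl_bd hL _ 1 hb k (N :: u)⟩ fun N => ?_
      by_cases h2 : S (N :: u)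
      · rw [if_pos h2, mul_one]
        exact ih (N :: u) (by rw [List.length_cons]; omega) h2
      · rw [if_neg h2, mul_zero]
        exact itl_nn hL S k (N :: u)
    refine le_trans ?_ h1
    rw [L_mul]
    have h3 := h u (by omega) hS
    rw [pr_def] at h3
    rw [pow_succ]
    exact mul_le_mul_of_nonneg_left h3 (pow_nonneg hτ k)

end Pool.Agent.Lib.TU2
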