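import Pool.Agent.Lib.TU2.RDef

/-!
# TU2 / RSamp (row RM, about 120 lines): a random sample of places separates distant windows (pure counting)

STATEMENT: below, verbatim.

PROOF. If `M` in the box is not in the set, then two entries `a, b` of `v` at different positions `i < j` have `pat ψ M a = pat ψ M b`, that is `ψ (a + M t) = ψ (b + M t)` for all `t : Fin R` (both are `±1` and equal to `1` at the same time). For fixed `a, b` with `ε < Dw ψ H a b` the number of such `M` is `(#{m < H : ψ (a+m) = ψ (b+m)})^R ≤ ((1-ε) H)^R` (`Fintype.card_piFinset`).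
There are at most `K²` pairs of positions (index `Fin v.length × Fin v.length`; `List.pairwise_iff_get`). So at most `K² (1-ε)^R H^R ≤ H^R/2` of the `H^R` functions `M` in the box are not in the set.
-/

set_option autoImplicit false

open Finset

namespace Pool.Agent.Lib.TU2

open Pool.Agent.Lib.TU

open Classical in
private theorem rm_one (ψ : ℤ → ℝ) (H R : ℕ) (hH : 0 < H) (ε : ℝ) (a b : ℤ) (h : ε < Dw ψ H a b) :
    ((Fintype.piFinset (fun _ : Fin R => (range H).filter (fun m : ℕ => ψ (a + m) = ψ (b + m)))).card : ℝ) ≤ ((1 - ε) * (H : ℝ)) ^ R := by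
  have hH0 : (0 : ℝ) < H := by exact_mod_cast hH
  rw [Fintype.card_piFinset, Finset.prod_const, Finset.card_univ, Fintype.card_fin, Nat.cast_pow]
  refine pow_le_pow_left₀ (Nat.cast_nonneg _) ?_ R
  have h1 : ((range H).filter (fun m : ℕ => ψ (a + m) = ψ (b + m))).card +
      ((range H).filter (fun m : ℕ => ¬ (ψ (a + m) = ψ (b + m)))).card = (range H).card :=
    Finset.card_filter_add_card_filter_not _
  rw [Finset.card_range] at h1
  have h2 : (((range H).filter (fun m : ℕ => ψ (a + m) = ψ (b + m))).card : ℝ) +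
      (((range H).filter (fun m : ℕ => ¬ (ψ (a + m) = ψ (b + m)))).card : ℝ) = H := by exact_mod_cast h1
  unfold Dw at h
  rw [lt_div_iff₀ hH0] at h
  have h3 : ε * (H : ℝ) < (((range H).filter (fun m : ℕ => ¬ (ψ (a + m) = ψ (b + m)))).card : ℝ) := h
  have h4 : (1 - ε) * (H : ℝ) = H - ε * H := by ring
  linarith

open Classical in
theorem samp (ψ : ℤ → ℝ) (hψ : ∀ n, ψ n = 1 ∨ ψ n = -1) (H R K : ℕ) (hH : 0 < H) (ε : ℝ) (hε0 : 0 ≤ ε) (hε1 : ε ≤ 1) (v : List ℤ) (hv : v.length = K)
    (hsep : v.Pairwise (fun a b => ε < Dw ψ H a b)) (hR : (K : ℝ) ^ 2 * (1 - ε) ^ R ≤ 1 / 2) :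
    (H : ℝ) ^ R / 2 ≤ (((Fintype.piFinset (fun _ : Fin R => range H)).filter (fun M => v.Pairwise (fun a b => pat ψ M a ≠ pat ψ M b))).card : ℝ) := by
  have hH0 : (0 : ℝ) < H := by exact_mod_cast hH
  set B : Finset (Fin R → ℕ) := Fintype.piFinset (fun _ : Fin R => range H) with hB
  have hBc : (B.card : ℝ) = (H : ℝ) ^ R := by
    rw [hB, Fintype.card_piFinset]
    simp
  have hsub : B.filter (fun M => ¬ v.Pairwise (fun a b => pat ψ M a ≠ pat ψ M b)) ⊆
      (univ.filter (fun p : Fin v.length × Fin v.length => p.1 < p.2)).biUnion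
        (fun p => Fintype.piFinset (fun _ : Fin R => (range H).filter (fun m : ℕ => ψ (v.get p.1 + m) = ψ (v.get p.2 + m)))) := by
    intro M hM
    obtain ⟨hMB, hM2⟩ := Finset.mem_filter.1 hM
    rw [List.pairwise_iff_get] at hM2
    push Not at hM2
    obtain ⟨i, j, hij, h3⟩ := hM2
    rw [Finset.mem_biUnion]
    refine ⟨(i, j), Finset.mem_filter.2 ⟨Finset.mem_univ _, hij⟩, ?_⟩
    rw [Fintype.mem_piFinset]
    intro t
    rw [Finset.mem_filter]
    refine ⟨Fintype.mem_piFinset.1 hMB t, ?_⟩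
    have h4 : t ∈ pat ψ M (v.get i) ↔ t ∈ pat ψ M (v.get j) := by rw [h3]
    simp only [pat, Finset.mem_filter, Finset.mem_univ, true_and] at h4
    rcases hψ (v.get i + (M t : ℕ)) with h5 | h5 <;> rcases hψ (v.get j + (M t : ℕ)) with h6 | h6
    · rw [h5, h6]
    · exact absurd (h4.1 h5) (by rw [h6]; norm_num)
    · exact absurd (h4.2 h6) (by rw [h5]; norm_num)
    · rw [h5, h6]
  have hSc : ((univ.filter (fun p : Fin v.length × Fin v.length => p.1 < p.2)).card : ℝ) ≤ (K : ℝ) ^ 2 := by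
    have h1 : (univ.filter (fun p : Fin v.length × Fin v.length => p.1 < p.2)).card ≤ K ^ 2 := by
      refine (Finset.card_filter_le _ _).trans ?_
      rw [Finset.card_univ, Fintype.card_prod, Fintype.card_fin, hv, sq]
    exact_mod_cast h1
  have h0 : 0 ≤ (1 - ε) * (H : ℝ) := mul_nonneg (by linarith) hH0.le
  have hbad : ((B.filter (fun M => ¬ v.Pairwise (fun a b => pat ψ M a ≠ pat ψ M b))).card : ℝ) ≤ (H : ℝ) ^ R / 2 := by
    calc ((B.filter (fun M => ¬ v.Pairwise (fun a b => pat ψ M a ≠ pat ψ M b))).card : ℝ)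
        ≤ (((univ.filter (fun p : Fin v.length × Fin v.length => p.1 < p.2)).biUnion
            (fun p => Fintype.piFinset (fun _ : Fin R => (range H).filter (fun m : ℕ => ψ (v.get p.1 + m) = ψ (v.get p.2 + m))))).card : ℝ) := by
          exact_mod_cast Finset.card_le_card hsub
      _ ≤ ∑ p ∈ univ.filter (fun p : Fin v.length × Fin v.length => p.1 < p.2),
            ((Fintype.piFinset (fun _ : Fin R => (range H).filter (fun m : ℕ => ψ (v.get p.1 + m) = ψ (v.get p.2 + m)))).card : ℝ) := by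
          exact_mod_cast Finset.card_biUnion_le
      _ ≤ ∑ _p ∈ univ.filter (fun p : Fin v.length × Fin v.length => p.1 < p.2), ((1 - ε) * (H : ℝ)) ^ R :=
          Finset.sum_le_sum fun p hp => rm_one ψ H R hH ε _ _ (List.pairwise_iff_get.1 hsep p.1 p.2 (Finset.mem_filter.1 hp).2)
      _ = ((univ.filter (fun p : Fin v.length × Fin v.length => p.1 < p.2)).card : ℝ) * ((1 - ε) * (H : ℝ)) ^ R := by
          rw [Finset.sum_const, nsmul_eq_mul]
      _ ≤ (K : ℝ) ^ 2 * ((1 - ε) * (H : ℝ)) ^ R := mul_le_mul_of_nonneg_right hSc (pow_nonneg h0 R)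
      _ = (K : ℝ) ^ 2 * (1 - ε) ^ R * (H : ℝ) ^ R := by rw [mul_pow]; ring
      _ ≤ 1 / 2 * (H : ℝ) ^ R := mul_le_mul_of_nonneg_right hR (by positivity)
      _ = (H : ℝ) ^ R / 2 := by ring
  have hsum : ((B.filter (fun M => v.Pairwise (fun a b => pat ψ M a ≠ pat ψ M b))).card : ℝ) +
      ((B.filter (fun M => ¬ v.Pairwise (fun a b => pat ψ M a ≠ pat ψ M b))).card : ℝ) = B.card := by
    exact_mod_cast Finset.card_filter_add_card_filter_not (s := B) (fun M => v.Pairwise (fun a b => pat ψ M a ≠ pat ψ M b))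
  linarith

end Pool.Agent.Lib.TU2
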