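import Pool.Agent.Lib.TU2.RDef

/-!
# TU2 / RSauer (row RS, about 110 lines): few frequent patterns or a shattered set (Sauer-Shelah)

STATEMENT: below, verbatim.

PROOF. Let `𝒜` be the family of the `I` with `η ≤ pr L (pat ψ M N = I)`. If `K ≤ #𝒜`, then `∑_{j<r} R.choose j < #𝒜 ≤ #𝒜.shatterer ≤ ∑_{j ≤ vcDim} R.choose j` (`Finset.card_le_card_shatterer`, `Finset.card_shatterer_le_sum_vcDim`), so `r ≤ 𝒜.vcDim`, some set `s` with `#s = 𝒜.vcDim` is shattered, hence (`Finset.Shatters.mono_right`, `exists_subset_card_eq`) a set `s` with `#s = r`.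
Let `e : Fin r ↪ Fin R` have image `s` (`Finset.orderEmbOfFin s hs`). For `I : Finset (Fin r)` there is `J ∈ 𝒜` with `s ∩ J = I.map e` (definition of `Finset.Shatters`); if `pat ψ M N = J` then `pat ψ (M ∘ e) N = I`, so `η ≤ pr (pat ψ M N = J) ≤ pr (pat ψ (M ∘ e) N = I)` (monotone). The case `r = 0` is included (`∑ = 0 < K`; `s = ∅`).
-/

set_option autoImplicit false

open Finset

namespace Pool.Agent.Lib.TU2

open Pool.Agent.Lib.TU

open Classical in
theorem sauer {L : (ℤ → ℝ) →ₗ[ℝ] ℝ} (hL : IsMean L) (ψ : ℤ → ℝ) (η : ℝ) {R : ℕ} (M : Fin R → ℕ) (r K : ℕ) (hK : ∑ j ∈ range r, R.choose j < K) :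
    (∃ e : Fin r ↪ Fin R, Shat L ψ η (fun i => M (e i))) ∨
      ((univ : Finset (Finset (Fin R))).filter (fun I => η ≤ pr L (fun N => pat ψ M N = I))).card < K := by
  set 𝒜 : Finset (Finset (Fin R)) :=
    (univ : Finset (Finset (Fin R))).filter (fun I => η ≤ pr L (fun N => pat ψ M N = I)) with h𝒜
  by_cases hcard : 𝒜.card < K
  · exact Or.inr hcard
  left
  rw [not_lt] at hcard
  have hmem : ∀ J, J ∈ 𝒜 ↔ η ≤ pr L (fun N => pat ψ M N = J) := by
    intro J
    rw [h𝒜, mem_filter]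
    exact ⟨fun h => h.2, fun h => ⟨mem_univ _, h⟩⟩
  have hne : 𝒜.shatterer.Nonempty := by
    have h0 : 0 < 𝒜.card := by omega
    rw [← Finset.card_pos]
    exact lt_of_lt_of_le h0 (card_le_card_shatterer 𝒜)
  have h1 : ∑ j ∈ range r, R.choose j < ∑ k ∈ Iic 𝒜.vcDim, R.choose k := by
    have h2 := card_le_card_shatterer 𝒜
    have h3 := card_shatterer_le_sum_vcDim (𝒜 := 𝒜)
    rw [Fintype.card_fin] at h3
    omega
  have hr : r ≤ 𝒜.vcDim := by
    by_contra hlt
    rw [not_le] at hlt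
    have h4 : ∑ k ∈ Iic 𝒜.vcDim, R.choose k ≤ ∑ j ∈ range r, R.choose j := by
      apply Finset.sum_le_sum_of_subset
      intro k hk
      rw [mem_Iic] at hk
      rw [mem_range]
      omega
    omega
  obtain ⟨s0, hs0, hs0c⟩ := Finset.exists_mem_eq_sup 𝒜.shatterer hne card
  have hs0' : 𝒜.Shatters s0 := mem_shatterer.1 hs0
  have hc : r ≤ s0.card := by
    rw [← hs0c]
    exact hr
  obtain ⟨s, hss, hsc⟩ := Finset.exists_subset_card_eq hc
  have hs : 𝒜.Shatters s := hs0'.mono_right hss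
  refine ⟨(s.orderEmbOfFin hsc).toEmbedding, fun I => ?_⟩
  set e := (s.orderEmbOfFin hsc).toEmbedding with he
  have hin : ∀ i, e i ∈ s := fun i => Finset.orderEmbOfFin_mem s hsc i
  have hes : I.map e ⊆ s := by
    intro x hx
    rw [mem_map] at hx
    obtain ⟨i, _, rfl⟩ := hx
    exact hin i
  obtain ⟨J, hJ, hsJ⟩ := hs hes
  refine ((hmem J).1 hJ).trans (pr_mono hL ?_)
  intro N hN
  ext i
  have hi : i ∈ pat ψ (fun i => M (e i)) N ↔ e i ∈ pat ψ M N := by
    unfold pat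
    rw [mem_filter, mem_filter]
    exact ⟨fun h => ⟨mem_univ _, h.2⟩, fun h => ⟨mem_univ _, h.2⟩⟩
  rw [hi, hN]
  constructor
  · intro h
    have h5 : e i ∈ s ∩ J := mem_inter.2 ⟨hin i, h⟩
    rw [hsJ, mem_map'] at h5
    exact h5
  · intro h
    have h5 : e i ∈ I.map e := (mem_map' e).2 h
    rw [← hsJ] at h5
    exact (mem_inter.1 h5).2

end Pool.Agent.Lib.TU2
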