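import Pool.Agent.Lib.TU2.RIt
import Pool.Agent.Lib.TU2.RSauer
import Pool.Agent.Lib.TU2.RSamp
import Pool.Agent.Lib.TU2.REmb

/-!
# TU2 / RPack (row RP, about 150 lines): packing bound

STATEMENT: below, verbatim.

PROOF. `Box = piFinset (fun _ : Fin R => range H)`, `#Box = H^R`, `D M v = 1` if `v.Pairwise (pat ψ M a ≠ pat ψ M b)`, else `0`. By `samp`, for every `v` of length `K`: `[v ε-separated] ≤ (2/H^R) ∑_{M ∈ Box} D M v`. So (`itl_mono`, `itl_sum`) the left side is `≤ (2/H^R) ∑_M itl L (D M) K []`.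
For every `M`: `itl L (D M) K [] ≤ [∃ e, Shat L ψ η (M ∘ e)] + K 2^R η`: if there is such an `e`: `D ≤ 1` (`itl_mono` with the constant `1`, `itl_const`), the rest is `≥ 0`. If not: by `sauer` the set `𝒜` of the `I` with `η ≤ pr L (pat = I)` has less than `K` elements; so if `v` has length `K` and pairwise different patterns, some `a ∈ v` has `pat ψ M a ∉ 𝒜`: `D M v ≤ (v.map g).sum`, `g a = if pat ψ M a ∈ 𝒜 then 0 else 1`.
For `itl_mono` both sides must be bounded for all lists: use `min ((v.map g).sum) 1 ≤ ..`, or compare on lists of length `K` with `fun v => if v.length = K then (v.map g).sum else 0`, or prove the bound by a direct induction; e.g. private lemma: `itl L (D M) k u ≤ k * L g + (u.map g).sum` for `u.length + k = K` by induction on `k` (the functions `N ↦ itl L (D M) k (N :: u)` and `N ↦ k * L g + (g N + ..)` are bounded). `L g = ∑_{I ∉ 𝒜} pr L (pat = I) ≤ 2^R η`.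
Sum over `M`: `emb_count` with `G = Shat L ψ η`: `∑_M [∃ e ..] ≤ R^r * (#{m : Shat} * H^(R-r)) ≤ R^r κ H^r H^(R-r) = R^r κ H^R` (`r ≤ R`).
-/

set_option autoImplicit false

open Finset

namespace Pool.Agent.Lib.TU2

open Pool.Agent.Lib.TU

open Classical in
private theorem sep_bd (ψ : ℤ → ℝ) {R : ℕ} (M : Fin R → ℕ) (v : List ℤ) :
    |(if v.Pairwise (fun a b => pat ψ M a ≠ pat ψ M b) then (1 : ℝ) else 0)| ≤ 1 := by
  split_ifs <;> norm_num

open Classical in
/-- few frequent patterns: the mean of the pairwise different patterns is small -/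
private theorem few {L : (ℤ → ℝ) →ₗ[ℝ] ℝ} (hL : IsMean L) (ψ : ℤ → ℝ) {R : ℕ} (M : Fin R → ℕ) (K : ℕ) (A : Finset (Finset (Fin R)))
    (hA : A.card < K) (g : ℤ → ℝ) (hg : g = fun N => if pat ψ M N ∈ A then 0 else 1) (k : ℕ) (u : List ℤ) (hu : u.length + k = K) :
    itl L (fun v => if v.Pairwise (fun a b => pat ψ M a ≠ pat ψ M b) then 1 else 0) k u ≤ k * L g + (u.map g).sum := by
  have hg0 : ∀ N, 0 ≤ g N := by
    intro N
    rw [hg]
    dsimp only
    split_ifs <;> norm_num
  have hg1 : ∀ N, |g N| ≤ 1 := by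
    intro N
    rw [hg]
    dsimp only
    split_ifs <;> norm_num
  induction k generalizing u with
  | zero =>
    show (if u.Pairwise (fun a b => pat ψ M a ≠ pat ψ M b) then (1 : ℝ) else 0) ≤ ((0 : ℕ) : ℝ) * L g + (u.map g).sum
    have hs0 : 0 ≤ (u.map g).sum := List.sum_nonneg (by
      intro x hx
      obtain ⟨N, -, rfl⟩ := List.mem_map.1 hx
      exact hg0 N)
    rw [Nat.cast_zero, zero_mul, zero_add]
    split_ifs with h
    · -- some pattern is not in A
      have hex : ∃ a ∈ u, pat ψ M a ∉ A := by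
        by_contra hcon
        push Not at hcon
        have hnd : (u.map (pat ψ M)).Nodup := by
          rw [List.Nodup, List.pairwise_map]
          exact h
        have hsub : (u.map (pat ψ M)).toFinset ⊆ A := by
          intro I hI
          rw [List.mem_toFinset, List.mem_map] at hI
          obtain ⟨a, ha, rfl⟩ := hI
          exact hcon a ha
        have h1 := card_le_card hsub
        rw [List.toFinset_card_of_nodup hnd, List.length_map] at h1
        omega
      obtain ⟨a, ha, hna⟩ := hex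
      have h1 : g a ≤ (u.map g).sum := List.single_le_sum (by
        intro x hx
        obtain ⟨N, -, rfl⟩ := List.mem_map.1 hx
        exact hg0 N) _ (List.mem_map_of_mem ha)
      have h2 : g a = 1 := by
        rw [hg]
        exact if_neg hna
      rw [← h2]
      exact h1
    · exact hs0
  | succ k ih =>
    show L (fun N => itl L (fun v => if v.Pairwise (fun a b => pat ψ M a ≠ pat ψ M b) then (1 : ℝ) else 0) k (N :: u)) ≤ _
    have h1 : L (fun N => itl L (fun v => if v.Pairwise (fun a b => pat ψ M a ≠ pat ψ M b) then (1 : ℝ) else 0) k (N :: u)) ≤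
        L (fun N => (k * L g + (u.map g).sum) + g N) := by
      refine hL.mono ⟨1, fun N => itl_bd hL _ 1 (sep_bd ψ M) k (N :: u)⟩ ((Bd.const _).add ⟨1, hg1⟩) fun N => ?_
      refine (ih (N :: u) (by rw [List.length_cons]; omega)).trans (le_of_eq ?_)
      rw [List.map_cons, List.sum_cons]
      ring
    refine h1.trans (le_of_eq ?_)
    rw [L_add (fun _ => (k : ℝ) * L g + (u.map g).sum) g, hL.const]
    push_cast
    ring

open Classical in
/-- one sample of places -/
private theorem one {L : (ℤ → ℝ) →ₗ[ℝ] ℝ} (hL : IsMean L) (ψ : ℤ → ℝ) (R r K : ℕ)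
    (hK : ∑ j ∈ range r, R.choose j < K) (η : ℝ) (hη : 0 ≤ η) (M : Fin R → ℕ) :
    itl L (fun v => if v.Pairwise (fun a b => pat ψ M a ≠ pat ψ M b) then 1 else 0) K [] ≤
      (if ∃ e : Fin r ↪ Fin R, Shat L ψ η (fun i => M (e i)) then 1 else 0) + K * 2 ^ R * η := by
  have hpos : 0 ≤ (K : ℝ) * 2 ^ R * η := by positivity
  by_cases he : ∃ e : Fin r ↪ Fin R, Shat L ψ η (fun i => M (e i))
  · rw [if_pos he]
    have h1 := itl_mono hL (fun v => if v.Pairwise (fun a b => pat ψ M a ≠ pat ψ M b) then (1 : ℝ) else 0) (fun _ => 1) 1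
      (sep_bd ψ M) (fun _ => by norm_num) K (fun v _ => by split_ifs <;> norm_num) K [] (by simp)
    rw [itl_const hL] at h1
    linarith
  · rw [if_neg he, zero_add]
    rcases sauer hL ψ η M r K hK with h | h
    · exact absurd h he
    · have h1 := few hL ψ M K _ h _ rfl K [] (by simp)
      refine h1.trans ?_
      rw [List.map_nil, List.sum_nil, add_zero, mul_assoc]
      refine mul_le_mul_of_nonneg_left ?_ (Nat.cast_nonneg K)
      have h2 := L_comp (L := L) (pat ψ M)
        (fun I => if I ∈ (univ : Finset (Finset (Fin R))).filter (fun I => η ≤ pr L (fun N => pat ψ M N = I)) then (0 : ℝ) else 1)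
      rw [h2]
      calc ∑ I : Finset (Fin R), (if I ∈ (univ : Finset (Finset (Fin R))).filter (fun I => η ≤ pr L (fun N => pat ψ M N = I)) then (0 : ℝ) else 1) *
            pr L (fun n => pat ψ M n = I)
          ≤ ∑ _I : Finset (Fin R), η := by
            refine sum_le_sum fun I _ => ?_
            split_ifs with hI
            · rw [zero_mul]
              exact hη
            · rw [one_mul]
              rw [mem_filter] at hI
              push Not at hI
              exact (hI (mem_univ _)).le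
        _ = 2 ^ R * η := by
            rw [sum_const, card_univ, Fintype.card_finset, Fintype.card_fin, nsmul_eq_mul]
            push_cast
            ring

open Classical in
theorem pack {L : (ℤ → ℝ) →ₗ[ℝ] ℝ} (hL : IsMean L) (ψ : ℤ → ℝ) (hψ : ∀ n, ψ n = 1 ∨ ψ n = -1) (H R r K : ℕ) (hH : 0 < H) (hr : r ≤ R)
    (hK : ∑ j ∈ range r, R.choose j < K) (ε : ℝ) (hε0 : 0 ≤ ε) (hε1 : ε ≤ 1) (hR : (K : ℝ) ^ 2 * (1 - ε) ^ R ≤ 1 / 2) (η κ : ℝ) (hη : 0 ≤ η)
    (hκ : (((Fintype.piFinset (fun _ : Fin r => range H)).filter (fun m => Shat L ψ η m)).card : ℝ) ≤ κ * (H : ℝ) ^ r) :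
    itl L (fun v => if v.Pairwise (fun a b => ε < Dw ψ H a b) then 1 else 0) K [] ≤ 2 * ((R : ℝ) ^ r * κ + K * 2 ^ R * η) := by
  have hH' : (0 : ℝ) < (H : ℝ) ^ R := by positivity
  have hcard : ((Fintype.piFinset (fun _ : Fin R => range H)).card : ℝ) = (H : ℝ) ^ R := by
    rw [Fintype.card_piFinset]
    simp
  -- step 1
  have hmono := itl_mono hL (fun v => if v.Pairwise (fun a b => ε < Dw ψ H a b) then (1 : ℝ) else 0)
    (fun v => ∑ M ∈ Fintype.piFinset (fun _ : Fin R => range H),
      (2 / (H : ℝ) ^ R) * (if v.Pairwise (fun a b => pat ψ M a ≠ pat ψ M b) then (1 : ℝ) else 0)) 2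
    (fun v => by split_ifs <;> norm_num)
    (fun v => by
      refine (abs_sum_le_sum_abs _ _).trans ?_
      calc ∑ M ∈ Fintype.piFinset (fun _ : Fin R => range H),
            |(2 / (H : ℝ) ^ R) * (if v.Pairwise (fun a b => pat ψ M a ≠ pat ψ M b) then (1 : ℝ) else 0)|
          ≤ ∑ _M ∈ Fintype.piFinset (fun _ : Fin R => range H), (2 / (H : ℝ) ^ R) := by
            refine sum_le_sum fun M _ => ?_
            rw [abs_mul, abs_of_pos (by positivity : (0 : ℝ) < 2 / (H : ℝ) ^ R)]
            exact mul_le_of_le_one_right (by positivity) (sep_bd ψ M v)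
        _ ≤ 2 := by
            rw [sum_const, nsmul_eq_mul, hcard]
            rw [mul_div_cancel₀ _ hH'.ne'])
    K (fun v hv => by
      split_ifs with hs
      · have h1 := samp ψ hψ H R K hH ε hε0 hε1 v hv hs hR
        rw [← mul_sum, sum_boole]
        calc (1 : ℝ) = (2 / (H : ℝ) ^ R) * ((H : ℝ) ^ R / 2) := by field_simp
          _ ≤ _ := mul_le_mul_of_nonneg_left h1 (by positivity)
      · refine sum_nonneg fun M _ => mul_nonneg (by positivity) ?_
        split_ifs <;> norm_num) K [] (by simp)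
  refine hmono.trans ?_
  rw [itl_sum]
  have hone : ∑ M ∈ Fintype.piFinset (fun _ : Fin R => range H),
      (2 / (H : ℝ) ^ R) * itl L (fun v => if v.Pairwise (fun a b => pat ψ M a ≠ pat ψ M b) then (1 : ℝ) else 0) K [] ≤
      ∑ M ∈ Fintype.piFinset (fun _ : Fin R => range H),
      (2 / (H : ℝ) ^ R) * ((if ∃ e : Fin r ↪ Fin R, Shat L ψ η (fun i => M (e i)) then (1 : ℝ) else 0) + K * 2 ^ R * η) :=
    sum_le_sum fun M _ => mul_le_mul_of_nonneg_left (one hL ψ R r K hK η hη M) (by positivity)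
  refine hone.trans ?_
  rw [← mul_sum, sum_add_distrib, sum_boole, sum_const, nsmul_eq_mul, hcard]
  have hemb := emb_count H R r (fun m => Shat L ψ η m)
  have h3 : (R : ℝ) ^ r * ((((Fintype.piFinset (fun _ : Fin r => range H)).filter (fun m => Shat L ψ η m)).card : ℝ) * (H : ℝ) ^ (R - r)) ≤
      (R : ℝ) ^ r * (κ * (H : ℝ) ^ R) := by
    refine mul_le_mul_of_nonneg_left ?_ (by positivity)
    calc _ ≤ (κ * (H : ℝ) ^ r) * (H : ℝ) ^ (R - r) := mul_le_mul_of_nonneg_right hκ (by positivity)
      _ = κ * (H : ℝ) ^ R := by rw [mul_assoc, ← pow_add, Nat.add_sub_cancel' hr]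
  have h4 := hemb.trans h3
  calc (2 / (H : ℝ) ^ R) * ((((Fintype.piFinset (fun _ : Fin R => range H)).filter
        (fun M => ∃ e : Fin r ↪ Fin R, Shat L ψ η (fun i => M (e i)))).card : ℝ) + (H : ℝ) ^ R * (K * 2 ^ R * η))
      ≤ (2 / (H : ℝ) ^ R) * ((R : ℝ) ^ r * (κ * (H : ℝ) ^ R) + (H : ℝ) ^ R * (K * 2 ^ R * η)) :=
        mul_le_mul_of_nonneg_left (add_le_add h4 le_rfl) (by positivity)
    _ = 2 * ((R : ℝ) ^ r * κ + K * 2 ^ R * η) := by
        field_simp

end Pool.Agent.Lib.TU2
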