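import Pool.Agent.Lib.TU2.RPack
import Pool.Agent.Lib.TU2.RIso

/-!
# TU2 / RShat (row RH, about 120 lines): a positive proportion of the tuples of places is shattered

STATEMENT: below, verbatim.

PROOF. Put `c' = min c 1` (the hypothesis holds for `c'`). `ε = c'/24` (`≤ 1`), `R ≥ r`, `R ≥ 1` so large that with `K = r R^r + 1` one has `K^2 (1-ε)^R ≤ 1/2` (exponential against polynomial: `tendsto_pow_const_mul_const_pow_of_abs_lt_one`); `∑_{j<r} R.choose j ≤ ∑_{j<r} R^j ≤ r R^r < K` (`Nat.choose_le_pow`, `R ≥ 1`). `J = K^K`, `τ = c'/(16 (J+1))`, `H0 ≥ 1` with `2 J/H ≤ c'/16` for `H ≥ H0`. So `6 ε + 2 J/H + (J+1) τ ≤ c'/4 + c'/16 + c'/16 < c'/2`.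
`κ = τ^K/(8 R^r)`, `η = τ^K/(8 K 2^R)` (all positive), so `2 (R^r κ + K 2^R η) = τ^K/2 < τ^K`. Let `H ≥ H0` and suppose `#{m : Shat} < κ H^r`. `pack`: `itl [sep] K [] ≤ τ^K/2`. `itl_low` with `S u = u.Pairwise (ε < Dw a b)`, `k = K`, `u = []`: its hypothesis: if `S u` and `u.length < K`, then `S (N :: u) ↔ ∀ a ∈ u, ε < Dw N a` (`List.pairwise_cons`), so `iso_cov` gives `τ ≤ pr L (S (N :: u))`. So `τ^K ≤ itl [sep] K [] ≤ τ^K/2`, contradiction.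
-/

set_option autoImplicit false

open Finset

namespace Pool.Agent.Lib.TU2

open Pool.Agent.Lib.TU

open Classical in
theorem shatter (r : ℕ) (c : ℝ) (hc0 : 0 < c) : ∃ (η κ : ℝ) (H0 : ℕ), 0 < η ∧ 0 < κ ∧ ∀ L : (ℤ → ℝ) →ₗ[ℝ] ℝ, IsMean L → ∀ ψ : ℤ → ℝ,
    (∀ n, ψ n = 1 ∨ ψ n = -1) → (∀ t : ℕ, 1 ≤ t → L (fun n => ψ n * ψ (n + t)) ≤ 1 - c) → ∀ H : ℕ, H0 ≤ H →
      κ * (H : ℝ) ^ r ≤ (((Fintype.piFinset (fun _ : Fin r => range H)).filter (fun m => Shat L ψ η m)).card : ℝ) := by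
  obtain ⟨c', hc'0, hc'1, hc'c⟩ : ∃ c' : ℝ, 0 < c' ∧ c' ≤ 1 ∧ c' ≤ c :=
    ⟨min c 1, lt_min hc0 one_pos, min_le_right _ _, min_le_left _ _⟩
  obtain ⟨ε, hε⟩ : ∃ ε : ℝ, ε = c' / 24 := ⟨_, rfl⟩
  have hε0 : 0 < ε := by rw [hε]; positivity
  have hε1 : ε ≤ 1 / 24 := by rw [hε]; linarith
  obtain ⟨R, hRr, hR1, hR⟩ : ∃ R : ℕ, r ≤ R ∧ 1 ≤ R ∧
      (((r * R ^ r + 1 : ℕ) : ℝ)) ^ 2 * (1 - ε) ^ R ≤ 1 / 2 := by
    have h := tendsto_pow_const_mul_const_pow_of_abs_lt_one (2 * r) (r := 1 - ε)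
      (by rw [abs_lt]; constructor <;> linarith)
    have h2 := (h.eventually_lt_const (show (0 : ℝ) < 1 / (2 * ((r : ℝ) + 1) ^ 2) by positivity)).and
      (Filter.eventually_ge_atTop (max r 1))
    obtain ⟨R, h3, h4⟩ := h2.exists
    have h4' : 1 ≤ R := le_trans (le_max_right _ _) h4
    refine ⟨R, le_trans (le_max_left _ _) h4, h4', ?_⟩
    have hR1 : (1 : ℝ) ≤ R := by exact_mod_cast h4'
    have h5 : ((r * R ^ r + 1 : ℕ) : ℝ) ≤ ((r : ℝ) + 1) * (R : ℝ) ^ r := by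
      push_cast
      have := one_le_pow₀ hR1 (n := r)
      nlinarith
    have h6 : 0 ≤ (1 - ε) ^ R := pow_nonneg (by linarith) _
    calc (((r * R ^ r + 1 : ℕ) : ℝ)) ^ 2 * (1 - ε) ^ R
        ≤ (((r : ℝ) + 1) * (R : ℝ) ^ r) ^ 2 * (1 - ε) ^ R := by gcongr
      _ = ((r : ℝ) + 1) ^ 2 * ((R : ℝ) ^ (2 * r) * (1 - ε) ^ R) := by ring
      _ ≤ ((r : ℝ) + 1) ^ 2 * (1 / (2 * ((r : ℝ) + 1) ^ 2)) := by gcongr
      _ = 1 / 2 := by field_simp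
  obtain ⟨K, hK⟩ : ∃ K : ℕ, K = r * R ^ r + 1 := ⟨_, rfl⟩
  rw [← hK] at hR
  have hK1 : 1 ≤ K := by omega
  have hsum : ∑ j ∈ range r, R.choose j < K := by
    have h1 : ∑ j ∈ range r, R.choose j ≤ ∑ _j ∈ range r, R ^ r := by
      refine sum_le_sum fun j hj => ?_
      exact (Nat.choose_le_pow R j).trans (Nat.pow_le_pow_right hR1 (mem_range.1 hj).le)
    rw [sum_const, card_range, smul_eq_mul] at h1
    omega
  obtain ⟨J, hJ⟩ : ∃ J : ℕ, J = K ^ K := ⟨_, rfl⟩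
  obtain ⟨τ, hτ⟩ : ∃ τ : ℝ, τ = c' / (16 * ((J : ℝ) + 1)) := ⟨_, rfl⟩
  have hτ0 : 0 < τ := by rw [hτ]; positivity
  have hJτ : ((J : ℝ) + 1) * τ = c' / 16 := by rw [hτ]; field_simp
  have hτK : 0 < τ ^ K := pow_pos hτ0 K
  have hKr : (0 : ℝ) < K := by exact_mod_cast hK1
  have hRr0 : (0 : ℝ) < (R : ℝ) ^ r := by
    have : (0 : ℝ) < R := by exact_mod_cast hR1
    positivity
  obtain ⟨H0, hH0⟩ := exists_nat_ge (32 * (J : ℝ) / c')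
  refine ⟨τ ^ K / (8 * (K : ℝ) * 2 ^ R), τ ^ K / (8 * (R : ℝ) ^ r), H0 + 1, by positivity, by positivity,
    fun L hL ψ hψ hc H hH => ?_⟩
  by_contra hlt
  rw [not_le] at hlt
  have hHpos : 0 < H := by omega
  have hHr : (0 : ℝ) < H := by exact_mod_cast hHpos
  have h2J : 2 * (J : ℝ) / H ≤ c' / 16 := by
    have h1 : 32 * (J : ℝ) / c' ≤ H := hH0.trans (by exact_mod_cast (by omega : H0 ≤ H))
    rw [div_le_iff₀ hc'0] at h1
    rw [div_le_iff₀ hHr]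
    linarith
  have hsep := pack hL ψ hψ H R r K hHpos hRr hsum ε hε0.le (by linarith) hR
    (τ ^ K / (8 * (K : ℝ) * 2 ^ R)) (τ ^ K / (8 * (R : ℝ) ^ r)) (by positivity) hlt.le
  have hval : 2 * ((R : ℝ) ^ r * (τ ^ K / (8 * (R : ℝ) ^ r)) + K * 2 ^ R * (τ ^ K / (8 * (K : ℝ) * 2 ^ R)))
      = τ ^ K / 2 := by
    field_simp
    ring
  rw [hval] at hsep
  have hlow := itl_low hL (fun u : List ℤ => u.Pairwise (fun a b => ε < Dw ψ H a b)) τ hτ0.le K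
    (fun u hu hS => ?_) K [] (by simp) (by simp)
  · have : τ ^ K ≤ τ ^ K / 2 := by
      refine hlow.trans (le_trans (le_of_eq ?_) hsep)
      congr 1
      funext v
      congr
    linarith
  · have h1 := iso_cov hL ψ hψ c' (fun t ht => (hc t ht).trans (by linarith)) H K J hHpos hJ.ge ε τ hε0.le hτ0.le
      (by rw [hJτ, hε]; linarith) u hu
    refine h1.trans (le_of_eq ?_)
    congr 1
    funext N
    simp only [List.pairwise_cons, eq_iff_iff]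
    exact ⟨fun h => ⟨h, hS⟩, fun h => h.1⟩

end Pool.Agent.Lib.TU2
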