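import Pool.Agent.Lib.TU2.Two
import Pool.Agent.Lib.MP_f6c41f_nt.X5

/-!
# TU2 / Third (row TH, about 110 lines): the mean square of the local correlations is at most `1/3`

STATEMENTS: below, verbatim. (`rr d a B n = (1/B) ∑_{b<B} λ(n+db) λ(n+db+da)`.)

PROOF of `third_step`. (1) For `n ≥ 1` all values `λ(n + ..)` are `1` or `-1`. `u b = λ(n+db) λ(n+d(b+a))`; `u b * u (b+a) = λ(n+db) λ(n+db+2da)`. For signs `u, v`: `|u + v| ≤ 1 + u v`. Sum over `b < B`:
`|∑_{b<B} u b + ∑_{b<B} u (b+a)| ≤ B + ∑_{b<B} u b u (b+a) = B (1 + rr d (2a) B n)`, and `|∑_{b<B} u b - ∑_{b<B} u (b+a)| ≤ 2 a` (see `X5_window`, `X5_double` in `Pool/Agent/Lib/MP_f6c41f_nt/X5.lean` for exactly this computation; it may be imported).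
So `2 |r_a| ≤ 1 + r_{2a} + 2a/B` for `n ≥ 1`, where `r_a = rr d a B n`, `|r_a| ≤ 1`.
(2) Squaring, if `a ≤ B`: `4 r_a² ≤ (1 + r_{2a})² + 4 (a/B) (1 + r_{2a}) + 4 a²/B² ≤ 1 + 2 r_{2a} + r_{2a}² + 12 a/B`. If `a > B`: `4 r_a² ≤ 4 ≤ 12 a/B + (1 + r_{2a})²`.
(3) Apply `L`: the inequality holds for `n ≥ 1`; replace both sides by functions equal for `n ≥ 1` and ordered everywhere (`min`/`if 0 < n`, `L_eq_of_ge hL .. 0`), then `IsMean.mono`.
`L (fun n => rr d (2a) B n) = 0`: `L_sum`, each term is a shift (`shiftz` by `d b`) of `L (λ(n) λ(n + 2 d a)) = 0` (`two_point`).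

PROOF of `third`. Induction on `m`: `L (rr d a B ²) ≤ 1/3 + 4^{-m} + 6 a (1 - 2^{-m}) / B` for all `a` (start `m = 0`: `≤ 1`; step: `third_step` and the claim for `2a`:
`(1/4) (1 + 1/3 + 4^{-m} + 12 a (1 - 2^{-m})/B + 12 a / B) = 1/3 + 4^{-(m+1)} + 6 a (1 - 2^{-(m+1)}) / B`). Let `m → ∞`.
-/

set_option autoImplicit false

open Finset

namespace Pool.Agent.Lib.TU2

open Pool.Agent.Lib.TU

private theorem TH_abs (d a B : ℕ) (n : ℤ) : |rr d a B n| ≤ 1 := by
  unfold rr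
  rcases Nat.eq_zero_or_pos B with rfl | hB
  · simp
  · have hB' : (0 : ℝ) < B := by exact_mod_cast hB
    rw [abs_div, abs_of_pos hB', div_le_one hB']
    refine (Finset.abs_sum_le_sum_abs _ _).trans
      ((Finset.sum_le_sum (g := fun _ => (1 : ℝ)) fun b _ => ?_).trans ?_)
    · rw [abs_mul]
      exact mul_le_one₀ (lam_abs_le _) (abs_nonneg _) (lam_abs_le _)
    · simp

private theorem TH_bd (d a B : ℕ) : Bd (fun n => rr d a B n) := ⟨1, TH_abs d a B⟩

private theorem TH_bd2 (d a B : ℕ) : Bd (fun n => rr d a B n ^ 2) := by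
  simpa [pow_two] using (TH_bd d a B).mul (TH_bd d a B)

private theorem TH_double (d a B : ℕ) (hB : 0 < B) {n : ℤ} (hn : 0 < n) :
    2 * |rr d a B n| ≤ 1 + rr d (2 * a) B n + 2 * a / B := by
  have hF : ∀ k : ℕ, (fun k : ℕ => lam (n + d * k)) k = 1 ∨ (fun k : ℕ => lam (n + d * k)) k = -1 := by
    intro k
    have h0 : (0 : ℤ) ≤ (d : ℤ) * k := by positivity
    exact lam_cases (by omega)
  have h := Pool.Agent.Lib.MP_f6c41f_nt.X5_double (fun k : ℕ => lam (n + d * k)) hF a B 0 hB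
  have e : ∀ c : ℕ, Pool.Agent.Lib.MP_f6c41f_nt.lcor (fun k : ℕ => lam (n + d * k)) c B 0 = rr d c B n := by
    intro c
    unfold Pool.Agent.Lib.MP_f6c41f_nt.lcor rr
    congr 1
    refine Finset.sum_congr rfl fun b _ => ?_
    simp only [zero_add]
    congr 2
    push_cast
    ring
  rw [e, e] at h
  exact h

private theorem TH_sq (d a B : ℕ) (hB : 0 < B) {n : ℤ} (hn : 0 < n) :
    4 * rr d a B n ^ 2 ≤ 1 + 2 * rr d (2 * a) B n + rr d (2 * a) B n ^ 2 + 12 * a / B := by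
  have h1 := TH_double d a B hB hn
  have h2 := abs_le.1 (TH_abs d (2 * a) B n)
  have h3 := TH_abs d a B n
  have h5 := abs_nonneg (rr d a B n)
  have h4 : 4 * rr d a B n ^ 2 = (2 * |rr d a B n|) ^ 2 := by
    rw [mul_pow, sq_abs]; ring
  rw [h4]
  have hB' : (0 : ℝ) < B := by exact_mod_cast hB
  have ht0 : (0 : ℝ) ≤ (a : ℝ) / B := by positivity
  have e1 : 2 * (a : ℝ) / B = 2 * ((a : ℝ) / B) := by ring
  have e2 : 12 * (a : ℝ) / B = 12 * ((a : ℝ) / B) := by ring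
  rw [e1] at h1
  rw [e2]
  set t : ℝ := (a : ℝ) / B with ht
  set x : ℝ := rr d (2 * a) B n with hx
  set r : ℝ := |rr d a B n| with hr
  rcases le_or_gt t 1 with h | h
  · have h6 : (2 * r) ^ 2 ≤ (1 + x + 2 * t) ^ 2 := by
      apply pow_le_pow_left₀ (by positivity) h1
    nlinarith [mul_nonneg ht0 (sub_nonneg.mpr h2.2), mul_nonneg ht0 (sub_nonneg.mpr h)]
  · have h6 : (2 * r) ^ 2 ≤ 4 := by nlinarith
    nlinarith [sq_nonneg (1 + x)]

private theorem TH_zero {L : (ℤ → ℝ) →ₗ[ℝ] ℝ} (hL : IsMean L) (d a B : ℕ) (hd : 0 < d) (ha : 0 < a) :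
    L (fun n => rr d a B n) = 0 := by
  have hlam : Bd lam := ⟨1, lam_abs_le⟩
  have e : (fun n => rr d a B n) = fun n => (1 / (B : ℝ)) * ∑ b ∈ range B,
      (fun b : ℕ => fun n : ℤ => lam (n + d * b) * lam (n + d * b + d * a)) b n := by
    ext n
    unfold rr
    ring
  rw [e, Pool.Agent.Lib.TU.L_mul, L_sum]
  have h : ∀ b ∈ range B, L ((fun b : ℕ => fun n : ℤ => lam (n + d * b) * lam (n + d * b + d * a)) b) = 0 := by
    intro b _
    have hne : (d : ℤ) * a ≠ 0 := by positivity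
    have h1 := hL.shiftz (f := fun n => lam n * lam (n + (d : ℤ) * a)) (hlam.mul (hlam.comp _)) ((d : ℤ) * b)
    rw [two_point hL _ hne] at h1
    exact h1
  rw [Finset.sum_eq_zero h, mul_zero]

theorem third_step {L : (ℤ → ℝ) →ₗ[ℝ] ℝ} (hL : IsMean L) (d a B : ℕ) (hd : 0 < d) (ha : 0 < a) (hB : 0 < B) :
    4 * L (fun n => rr d a B n ^ 2) ≤ 1 + L (fun n => rr d (2 * a) B n ^ 2) + 12 * a / B := by
  have hB' : (0 : ℝ) < B := by exact_mod_cast hB
  have hg : Bd (fun n : ℤ => if 0 < n then rr d a B n ^ 2 else 0) := by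
    refine (TH_bd2 d a B).of_le fun n => ?_
    split_ifs
    · exact le_rfl
    · simpa using sq_nonneg (rr d a B n)
  have h1 : L (fun n => rr d a B n ^ 2) = L (fun n : ℤ => if 0 < n then rr d a B n ^ 2 else 0) := by
    refine L_eq_of_ge hL (TH_bd2 d a B) hg 0 fun n hn => ?_
    have hn' : 0 < n := by simpa using hn
    simp [hn']
  have h2 : L (fun n : ℤ => 4 * (if 0 < n then rr d a B n ^ 2 else 0)) ≤
      L (fun n : ℤ => (1 + 12 * (a : ℝ) / B) + (2 * rr d (2 * a) B n + rr d (2 * a) B n ^ 2)) := by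
    refine hL.mono ((Bd.const 4).mul hg) ((Bd.const _).add (((Bd.const 2).mul (TH_bd d (2 * a) B)).add
      (TH_bd2 d (2 * a) B))) fun n => ?_
    by_cases hn : 0 < n
    · simp only [hn, if_true]
      have := TH_sq d a B hB hn
      linarith
    · simp only [hn, if_false]
      have h3 : (0 : ℝ) ≤ 12 * (a : ℝ) / B := by positivity
      nlinarith [sq_nonneg (1 + rr d (2 * a) B n)]
  rw [Pool.Agent.Lib.TU.L_mul, L_add, hL.const, L_add, Pool.Agent.Lib.TU.L_mul, TH_zero hL d (2 * a) B hd (by omega), ← h1] at h2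
  linarith

theorem third {L : (ℤ → ℝ) →ₗ[ℝ] ℝ} (hL : IsMean L) (d a B : ℕ) (hd : 0 < d) (ha : 0 < a) (hB : 0 < B) :
    L (fun n => rr d a B n ^ 2) ≤ 1 / 3 + 6 * a / B := by
  have hB' : (0 : ℝ) < B := by exact_mod_cast hB
  have key : ∀ m a : ℕ, 0 < a →
      L (fun n => rr d a B n ^ 2) ≤ 1 / 3 + (1 / 4) ^ m + 6 * a * (1 - (1 / 2) ^ m) / B := by
    intro m
    induction m with
    | zero =>
      intro a _
      have h1 : L (fun n => rr d a B n ^ 2) ≤ 1 := by
        refine hL.le_const (TH_bd2 d a B) fun n => ?_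
        have := TH_abs d a B n
        rw [← sq_abs]
        exact pow_le_one₀ (abs_nonneg _) this
      simp only [pow_zero, sub_self, mul_zero, zero_div]
      linarith
    | succ m ih =>
      intro a ha
      have h1 := third_step hL d a B hd ha hB
      have h2 := ih (2 * a) (by omega)
      have e : 1 / 3 + (1 / 4 : ℝ) ^ (m + 1) + 6 * a * (1 - (1 / 2) ^ (m + 1)) / B =
          (1 + (1 / 3 + (1 / 4) ^ m + 6 * ((2 * a : ℕ) : ℝ) * (1 - (1 / 2) ^ m) / B) + 12 * a / B) / 4 := by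
        push_cast
        field_simp
        ring
      rw [e]
      linarith
  refine le_of_forall_pos_le_add fun ε hε => ?_
  obtain ⟨m, hm⟩ := exists_pow_lt_of_lt_one hε (show (1 / 4 : ℝ) < 1 by norm_num)
  have h1 := key m a ha
  have h2 : 6 * (a : ℝ) * (1 - (1 / 2) ^ m) / B ≤ 6 * a / B := by
    apply div_le_div_of_nonneg_right _ hB'.le
    have h3 : (0 : ℝ) ≤ (1 / 2) ^ m := by positivity
    have h4 : (0 : ℝ) ≤ 6 * a := by positivity
    nlinarith
  linarith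

end Pool.Agent.Lib.TU2
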