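import Pool.Agent.Lib.TU2.Exp
import Pool.Agent.Lib.TU2.Energy
import Pool.Agent.Lib.TU2.Circle
import Pool.Agent.Lib.TU.Decr

/-!
# TU2 / Two (row TW, about 180 lines): the two-point correlations of `λ` vanish (Tao's theorem) for every logarithmic mean

STATEMENT: below, verbatim.

PROOF. First `h > 0` (natural); for `h < 0` use `shiftz` by `-h` (`λ(n) λ(n+h)` becomes `λ(n-h) λ(n)`). `c = L (λ(n) λ(n+h))`. Let `0 < ε ≤ 1`; we show `|c| ≤ 5 ε`.
`C`, `H1` from `energy`; `J = ⌈h/ε⌉₊ + h` (so `h ≤ ε J`, `h ≤ J`), `η = ε⁵ / (4 J C)` (`C > 0`), `K0` from `mr_exp hL η`.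
`decrement hL ξ (h+1) ε hε (max H1 (max K0 2))` with `ξ n = SignType.sign (lam n)` (values in a fintype, `lam` has values `1, -1, 0`, see `GapA.lean` for the same step): `H`, `G ⊆ PP H`, `|PP H| ≤ 2 |G|`, `G ≠ ∅` (else `PP H = ∅`, but Bertrand: a prime in `(H/2, H]`
for `H ≥ 2`: `Nat.exists_prime_lt_and_le_two_mul`; or from `card_PP` by enlarging `H1`). `K = J H ≥ K0`.
(1) For `p ∈ G`, `F n = λ(n) λ(n + p h)` depends only on `ξ(n), ξ(n + ph)`, `p h < (h+1) H`. `L (n ↦ F n * (if p ∣ n then p else 0)) = c`: `hL.dil` with `f m = λ(p m) λ(p m + p h) = λ(m) λ(m+h)` (`lam_mul`, `λ(p)² = 1`). So `decrement` says `|L F - c| ≤ ε`.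
(2) Sum over `p ∈ G`: `|G| |c| ≤ |G| ε + |∑_p L (λ(n) λ(n + h p))|`, and by `shift_nat` `K ∑_p L (λ(n) λ(n+hp)) = L (n ↦ ∑_p ∑_{j<K} λ(n+j) λ(n+j+hp))`.
(3) `circle G H h K` with `ε`, applied to `x i = λ(n + i)` for each `n`: `Ξ`. For `ξ ∈ Ξ`: `L ((∑_j λ(n+j) cos(..))²) ≤ K L |∑_j ..| ≤ η K²` (`|∑| ≤ K`, `mr_exp` with `α = ξ/(2K)`, `θ = 0`), same for `sin` (`θ = -1/4`: `cos(2π(y - 1/4)) = sin(2π y)`).
So `|G| K |c| ≤ |G| K ε + |G| (h H + ε K + (1/(2K)) |Ξ| 2 η K²)`, i.e. `|c| ≤ ε + h H / K + ε + |Ξ| η`. `h H / K = h / J ≤ ε`. `|Ξ| ≤ 2 K addE G / (ε |G|)⁴ ≤ 2 K C / (ε⁴ H) = 2 J C / ε⁴` by `energy`, so `|Ξ| η ≤ ε/2`. Total `≤ 4 ε`.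
-/

set_option autoImplicit false

open Finset

namespace Pool.Agent.Lib.TU2

open Pool.Agent.Lib.TU

private theorem tw_lam_bd : Bd lam := ⟨1, lam_abs_le⟩

private theorem tw_vals (n : ℤ) : lam n = 1 ∨ lam n = -1 ∨ lam n = 0 := by
  by_cases h : n = 0
  · rw [h]; exact Or.inr (Or.inr lam_zero)
  · rcases lam_cases h with h | h
    · exact Or.inl h
    · exact Or.inr (Or.inl h)

private theorem tw_sign {x y : ℤ} (h : SignType.sign (lam x) = SignType.sign (lam y)) : lam x = lam y := by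
  rcases tw_vals x with h1 | h1 | h1 <;> rcases tw_vals y with h2 | h2 | h2 <;> rw [h1, h2] at h ⊢ <;> simp at h

private theorem tw_pair_bd (f g : ℤ → ℤ) : Bd (fun n => lam (f n) * lam (g n)) :=
  (tw_lam_bd.comp f).mul (tw_lam_bd.comp g)

/-- step (1) -/
private theorem tw_prime {L : (ℤ → ℝ) →ₗ[ℝ] ℝ} (hL : IsMean L) (h p : ℕ) (hp : p.Prime) :
    L (fun n => (lam n * lam (n + h * p)) * ((if (p : ℤ) ∣ n then (p : ℝ) else 0) - 1)) =
      L (fun n => lam n * lam (n + h)) - L (fun n => lam n * lam (n + h * p)) := by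
  classical
  have hp0 : 0 < p := hp.pos
  have hpr : (p : ℝ) ≠ 0 := by exact_mod_cast hp0.ne'
  have hFb : Bd (fun n : ℤ => lam n * lam (n + h * p)) := tw_pair_bd (fun n => n) (fun n => n + h * p)
  have h2 : (fun n : ℤ => (lam n * lam (n + h * p)) * ((if (p : ℤ) ∣ n then (p : ℝ) else 0) - 1)) =
      fun n => (fun n => (p : ℝ) * (fun n => if (p : ℤ) ∣ n then lam n * lam (n + h * p) else 0) n) n
        - lam n * lam (n + h * p) := by
    ext n
    by_cases h3 : (p : ℤ) ∣ n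
    · simp only [if_pos h3]; ring
    · simp only [if_neg h3]; ring
  rw [h2, L_sub, L_mul, pr_mul_if hL hFb hp0]
  have h4 : (fun n : ℤ => lam (p * n) * lam (p * n + h * p)) = fun n => lam n * lam (n + h) := by
    ext n
    have h5 : (p : ℤ) * n + h * p = p * (n + h) := by ring
    rw [h5, lam_mul, lam_mul, lam_prime hp]
    ring
  rw [h4]
  congr 1
  field_simp

/-- the second moment of an exponential sum -/
private theorem tw_sq {L : (ℤ → ℝ) →ₗ[ℝ] ℝ} (hL : IsMean L) (K : ℕ) (η : ℝ) (w : ℕ → ℝ) (hw : ∀ j, |w j| ≤ 1)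
    (h : L (fun n => |∑ j ∈ range K, lam (n + j) * w j|) ≤ η * K) :
    L (fun n => (∑ j ∈ range K, lam (n + j) * w j) ^ 2) ≤ η * K * K := by
  have hb : Bd (fun n : ℤ => ∑ j ∈ range K, lam (n + j) * w j) :=
    Bd.sum (range K) fun j _ => (tw_lam_bd.comp fun n => n + j).mul (Bd.const (w j))
  have hK : ∀ n : ℤ, |∑ j ∈ range K, lam (n + j) * w j| ≤ K := by
    intro n
    refine (Finset.abs_sum_le_sum_abs _ _).trans ?_
    refine (Finset.sum_le_card_nsmul _ _ 1 fun j _ => ?_).trans ?_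
    · rw [abs_mul]
      exact mul_le_one₀ (lam_abs_le _) (abs_nonneg _) (hw j)
    · simp
  have h1 : L (fun n => (∑ j ∈ range K, lam (n + j) * w j) ^ 2) ≤
      L (fun n => (K : ℝ) * |∑ j ∈ range K, lam (n + j) * w j|) := by
    refine hL.mono (by simpa [pow_two] using hb.mul hb) ((Bd.const (K : ℝ)).mul hb.abs) fun n => ?_
    rw [← sq_abs, pow_two]
    exact mul_le_mul_of_nonneg_right (hK n) (abs_nonneg _)
  rw [L_mul] at h1
  refine h1.trans ?_
  have hK0 : (0 : ℝ) ≤ K := Nat.cast_nonneg K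
  calc (K : ℝ) * L (fun n => |∑ j ∈ range K, lam (n + j) * w j|) ≤ K * (η * K) :=
        mul_le_mul_of_nonneg_left h hK0
    _ = η * K * K := by ring

private theorem tw_bound {L : (ℤ → ℝ) →ₗ[ℝ] ℝ} (hL : IsMean L) (h : ℕ) (hh : 0 < h) (ε : ℝ) (hε : 0 < ε) :
    |L (fun n => lam n * lam (n + h))| ≤ 5 * ε := by
  classical
  obtain ⟨C, hC, H1, hE⟩ := energy
  set J : ℕ := ⌈(h : ℝ) / ε⌉₊ + h with hJ
  have hJ1 : 1 ≤ J := by omega
  have hJh : h ≤ J := by omega
  have hJr : (0 : ℝ) < J := by exact_mod_cast hJ1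
  have hJε : (h : ℝ) ≤ ε * J := by
    have h1 : (h : ℝ) / ε ≤ (J : ℝ) := by
      refine (Nat.le_ceil _).trans ?_
      rw [hJ]; push_cast
      have : (0 : ℝ) ≤ (h : ℝ) := Nat.cast_nonneg h
      linarith
    rw [div_le_iff₀ hε] at h1
    linarith
  set η : ℝ := ε ^ 5 / (4 * J * C) with hη
  have hη0 : 0 < η := by rw [hη]; positivity
  obtain ⟨K0, hK0⟩ := mr_exp hL η hη0
  set ξ : ℤ → SignType := fun m => SignType.sign (lam m) with hξ
  obtain ⟨H, hH, G, hG, hGc, hGp⟩ := decrement hL ξ (h + 1) ε hε (max H1 (max K0 2))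
  have hH1 : H1 ≤ H := (le_max_left _ _).trans hH
  have hHK : K0 ≤ H := (le_max_left _ _).trans ((le_max_right _ _).trans hH)
  have hH2 : 2 ≤ H := (le_max_right _ _).trans ((le_max_right _ _).trans hH)
  have hHr : (0 : ℝ) < H := by
    have : 0 < H := by omega
    exact_mod_cast this
  -- `G` is not empty
  have hGpos : 0 < G.card := by
    obtain ⟨p, hp, hp1, hp2⟩ := Nat.exists_prime_lt_and_le_two_mul (H / 2) (by omega)
    have hpP : p ∈ PP H := by
      rw [PP, Finset.mem_filter, Finset.mem_Ioc]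
      exact ⟨⟨hp1, by omega⟩, hp⟩
    have h1 : 0 < (PP H).card := Finset.card_pos.2 ⟨p, hpP⟩
    omega
  have hgr : (0 : ℝ) < G.card := by exact_mod_cast hGpos
  set K : ℕ := J * H with hK
  have hKpos : 0 < K := by
    rw [hK]
    exact Nat.mul_pos hJ1 (by omega)
  have hKr : (0 : ℝ) < K := by exact_mod_cast hKpos
  have hKH : (K : ℝ) = J * H := by rw [hK]; push_cast; ring
  have hK0K : K0 ≤ K := by
    rw [hK]
    calc K0 ≤ H := hHK
      _ = 1 * H := (one_mul _).symm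
      _ ≤ J * H := Nat.mul_le_mul_right _ hJ1
  set c : ℝ := L (fun n => lam n * lam (n + h)) with hc
  -- step (1)
  have hprime : ∀ p ∈ G, p.Prime ∧ p ≤ H := by
    intro p hp
    have h1 := hG hp
    rw [PP, Finset.mem_filter, Finset.mem_Ioc] at h1
    exact ⟨h1.2, h1.1.2⟩
  have hone : ∀ p ∈ G, |c - L (fun n => lam n * lam (n + h * p))| ≤ ε := by
    intro p hp
    obtain ⟨hpp, hpH⟩ := hprime p hp
    have h1 := hGp p hp (fun n => lam n * lam (n + h * p)) (fun n => by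
      rw [abs_mul]
      exact mul_le_one₀ (lam_abs_le _) (abs_nonneg _) (lam_abs_le _)) (fun m n hmn => by
        have hmn0 := hmn 0 (by
          have : 0 < H := by omega
          positivity)
        have hmn1 := hmn (h * p) (by
          calc h * p ≤ h * H := Nat.mul_le_mul_left _ hpH
            _ < (h + 1) * H := by
              have : 0 < H := by omega
              nlinarith)
        rw [hξ] at hmn0 hmn1
        have e0 := tw_sign hmn0
        have e1 := tw_sign hmn1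
        push_cast at e0 e1
        rw [add_zero, add_zero] at e0
        rw [e0, e1])
    rw [tw_prime hL h p hpp] at h1
    exact h1
  -- step (2)
  have hshift : ∀ p ∈ G, (K : ℝ) * L (fun n => lam n * lam (n + h * p)) =
      L (fun n => ∑ j ∈ range K, lam (n + j) * lam (n + (j + h * p))) := by
    intro p _
    rw [L_sum]
    have h1 : ∀ j ∈ range K, L (fun n : ℤ => lam (n + j) * lam (n + (j + h * p))) =
        L (fun n => lam n * lam (n + h * p)) := by
      intro j _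
      rw [← hL.shift_nat (tw_pair_bd (fun n => n) (fun n => n + h * p)) j]
      congr 1
      ext n
      congr 2
      ring
    rw [Finset.sum_congr rfl h1, Finset.sum_const, Finset.card_range, nsmul_eq_mul]
  set T : ℤ → ℝ := fun n => ∑ p ∈ G, ∑ j ∈ range K, lam (n + j) * lam (n + (j + h * p)) with hT
  have hTb : Bd T := by
    rw [hT]
    exact Bd.sum G fun p _ => Bd.sum (range K) fun j _ => tw_pair_bd (fun n => n + j) (fun n => n + (j + h * p))
  have hLT : L T = ∑ p ∈ G, (K : ℝ) * L (fun n => lam n * lam (n + h * p)) := by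
    rw [hT, L_sum]
    exact Finset.sum_congr rfl fun p hp => (hshift p hp).symm
  -- step (3)
  obtain ⟨Ξ, hΞ, hcirc⟩ := circle G H h K (fun p hp => ⟨(hprime p hp).1.pos, (hprime p hp).2⟩) hh hKpos
    (by rw [hK]; exact Nat.mul_le_mul_right _ hJh) ε hε
  set A : ℕ → ℤ → ℝ := fun ζ n => ∑ j ∈ range K, lam (n + j) * Real.cos (2 * Real.pi * ((ζ : ℝ) / (2 * K) * j)) with hA
  set B : ℕ → ℤ → ℝ := fun ζ n => ∑ j ∈ range K, lam (n + j) * Real.sin (2 * Real.pi * ((ζ : ℝ) / (2 * K) * j)) with hB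
  have hAb : ∀ ζ, Bd (A ζ) := fun ζ => by
    rw [hA]
    exact Bd.sum (range K) fun j _ => (tw_lam_bd.comp fun n => n + j).mul (Bd.const _)
  have hBb : ∀ ζ, Bd (B ζ) := fun ζ => by
    rw [hB]
    exact Bd.sum (range K) fun j _ => (tw_lam_bd.comp fun n => n + j).mul (Bd.const _)
  have hA2 : ∀ ζ, L (fun n => A ζ n ^ 2) ≤ η * K * K := by
    intro ζ
    refine tw_sq hL K η (fun j => Real.cos (2 * Real.pi * ((ζ : ℝ) / (2 * K) * j))) (fun j => Real.abs_cos_le_one _) ?_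
    have h1 := hK0 K hK0K ((ζ : ℝ) / (2 * K)) 0
    simpa using h1
  have hB2 : ∀ ζ, L (fun n => B ζ n ^ 2) ≤ η * K * K := by
    intro ζ
    refine tw_sq hL K η (fun j => Real.sin (2 * Real.pi * ((ζ : ℝ) / (2 * K) * j))) (fun j => Real.abs_sin_le_one _) ?_
    have h1 := hK0 K hK0K ((ζ : ℝ) / (2 * K)) (-1 / 4)
    have h2 : ∀ j : ℕ, Real.cos (2 * Real.pi * ((ζ : ℝ) / (2 * K) * j + -1 / 4)) =
        Real.sin (2 * Real.pi * ((ζ : ℝ) / (2 * K) * j)) := by
      intro j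
      rw [← Real.cos_sub_pi_div_two]
      congr 1
      ring
    simp_rw [h2] at h1
    exact h1
  have hpt : ∀ n, |T n| ≤ (G.card : ℝ) * (h * H + ε * K + (1 / (2 * K)) * ∑ ζ ∈ Ξ, (A ζ n ^ 2 + B ζ n ^ 2)) := by
    intro n
    have h1 := hcirc (fun i => lam (n + i)) (fun i => lam_abs_le _)
    exact h1
  set R : ℤ → ℝ := fun n => ∑ ζ ∈ Ξ, (A ζ n ^ 2 + B ζ n ^ 2) with hR
  have hRb : Bd R := by
    rw [hR]
    refine Bd.sum Ξ fun ζ _ => Bd.add ?_ ?_
    · simpa [pow_two] using (hAb ζ).mul (hAb ζ)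
    · simpa [pow_two] using (hBb ζ).mul (hBb ζ)
  have hLR : L R ≤ Ξ.card * (2 * (η * K * K)) := by
    rw [hR, L_sum]
    rw [← nsmul_eq_mul]
    refine Finset.sum_le_card_nsmul _ _ _ fun ζ _ => ?_
    have h1 : L (fun n => A ζ n ^ 2 + B ζ n ^ 2) = L (fun n => A ζ n ^ 2) + L (fun n => B ζ n ^ 2) := L_add _ _
    rw [h1]
    linarith [hA2 ζ, hB2 ζ]
  have hLT2 : |L T| ≤ (G.card : ℝ) * (h * H + ε * K + (1 / (2 * K)) * L R) := by
    refine (hL.abs_le_abs hTb).trans ?_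
    have h1 : L (fun n => |T n|) ≤ L (fun n => (G.card : ℝ) * (fun n => (h * H + ε * K : ℝ) + (fun n => (1 / (2 * K)) * R n) n) n) := by
      refine hL.mono hTb.abs ?_ fun n => hpt n
      exact (Bd.const _).mul ((Bd.const _).add ((Bd.const _).mul hRb))
    rw [Pool.Agent.Lib.TU.L_mul] at h1
    have h2 : L (fun n => (h * H + ε * K : ℝ) + (fun n => (1 / (2 * K)) * R n) n) =
        (h * H + ε * K : ℝ) + (1 / (2 * K)) * L R := by
      rw [← Pool.Agent.Lib.TU.L_mul (L := L) (1 / (2 * (K : ℝ))) R, ← hL.const (h * H + ε * K : ℝ), ← L_add, hL.const]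
    rw [h2] at h1
    exact h1
  -- the size of `Ξ`
  have hΞη : (Ξ.card : ℝ) * η ≤ ε / 2 := by
    have h1 := hE H hH1 G hG hGc
    have hg4 : (0 : ℝ) < (G.card : ℝ) ^ 4 := by positivity
    have h2 : (Ξ.card : ℝ) * ε ^ 4 * H * (G.card : ℝ) ^ 4 ≤ (2 * K * C) * (G.card : ℝ) ^ 4 := by
      calc (Ξ.card : ℝ) * ε ^ 4 * H * (G.card : ℝ) ^ 4 = ((Ξ.card : ℝ) * (ε * G.card) ^ 4) * H := by ring
        _ ≤ (2 * K * (addE G : ℝ)) * H := mul_le_mul_of_nonneg_right hΞ hHr.le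
        _ = 2 * K * ((addE G : ℝ) * H) := by ring
        _ ≤ 2 * K * (C * (G.card : ℝ) ^ 4) := mul_le_mul_of_nonneg_left h1 (by positivity)
        _ = (2 * K * C) * (G.card : ℝ) ^ 4 := by ring
    have h3 : (Ξ.card : ℝ) * ε ^ 4 * H ≤ 2 * K * C := le_of_mul_le_mul_right h2 hg4
    rw [hKH] at h3
    have h4 : ((Ξ.card : ℝ) * ε ^ 4) * H ≤ (2 * J * C) * H := by linarith
    have h5 : (Ξ.card : ℝ) * ε ^ 4 ≤ 2 * J * C := le_of_mul_le_mul_right h4 hHr
    rw [hη, ← mul_div_assoc, div_le_iff₀ (by positivity)]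
    calc (Ξ.card : ℝ) * ε ^ 5 = ((Ξ.card : ℝ) * ε ^ 4) * ε := by ring
      _ ≤ (2 * J * C) * ε := mul_le_mul_of_nonneg_right h5 hε.le
      _ = ε / 2 * (4 * J * C) := by ring
  -- the end
  have hsum : (G.card : ℝ) * c = (∑ p ∈ G, (c - L (fun n => lam n * lam (n + h * p)))) + ∑ p ∈ G, L (fun n => lam n * lam (n + h * p)) := by
    rw [← Finset.sum_add_distrib]
    simp
  have h1 : |∑ p ∈ G, (c - L (fun n => lam n * lam (n + h * p)))| ≤ (G.card : ℝ) * ε := by
    refine (Finset.abs_sum_le_sum_abs _ _).trans ?_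
    rw [← nsmul_eq_mul]
    exact Finset.sum_le_card_nsmul _ _ _ hone
  have h2 : (K : ℝ) * |∑ p ∈ G, L (fun n => lam n * lam (n + h * p))| ≤
      (G.card : ℝ) * (h * H + ε * K + (1 / (2 * K)) * L R) := by
    rw [← abs_of_pos hKr, ← abs_mul, Finset.mul_sum, ← hLT, abs_of_pos hKr]
    exact hLT2
  have h3 : (1 / (2 * K)) * L R ≤ (Ξ.card : ℝ) * η * K := by
    calc (1 / (2 * K)) * L R ≤ (1 / (2 * K)) * (Ξ.card * (2 * (η * K * K))) :=
          mul_le_mul_of_nonneg_left hLR (by positivity)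
      _ = (Ξ.card : ℝ) * η * K := by field_simp
  have h4 : (h : ℝ) * H ≤ ε * K := by
    rw [hKH]
    calc (h : ℝ) * H ≤ (ε * J) * H := mul_le_mul_of_nonneg_right hJε hHr.le
      _ = ε * (J * H) := by ring
  have h5 : (Ξ.card : ℝ) * η * K ≤ ε / 2 * K := mul_le_mul_of_nonneg_right hΞη hKr.le
  have h6 : (K : ℝ) * |∑ p ∈ G, L (fun n => lam n * lam (n + h * p))| ≤ K * ((G.card : ℝ) * (3 * ε)) := by
    refine h2.trans ?_
    calc (G.card : ℝ) * (h * H + ε * K + (1 / (2 * K)) * L R) ≤ (G.card : ℝ) * (ε * K + ε * K + ε / 2 * K) :=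
          mul_le_mul_of_nonneg_left (by linarith) hgr.le
      _ ≤ (G.card : ℝ) * (3 * ε * K) := by
          refine mul_le_mul_of_nonneg_left ?_ hgr.le
          nlinarith
      _ = K * ((G.card : ℝ) * (3 * ε)) := by ring
  have h7 := le_of_mul_le_mul_left h6 hKr
  have h8 : (G.card : ℝ) * |c| ≤ (G.card : ℝ) * (5 * ε) := by
    have h9 : (G.card : ℝ) * |c| = |(G.card : ℝ) * c| := by rw [abs_mul, abs_of_pos hgr]
    rw [h9, hsum]
    refine (abs_add_le _ _).trans ?_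
    nlinarith
  exact le_of_mul_le_mul_left h8 hgr

private theorem tw_pos {L : (ℤ → ℝ) →ₗ[ℝ] ℝ} (hL : IsMean L) (h : ℕ) (hh : 0 < h) :
    L (fun n => lam n * lam (n + h)) = 0 := by
  refine abs_nonpos_iff.1 (le_of_forall_pos_le_add fun ε hε => ?_)
  have h1 := tw_bound hL h hh (ε / 5) (by positivity)
  linarith

theorem two_point {L : (ℤ → ℝ) →ₗ[ℝ] ℝ} (hL : IsMean L) (h : ℤ) (hh : h ≠ 0) : L (fun n => lam n * lam (n + h)) = 0 := by
  obtain ⟨k, rfl | rfl⟩ := h.eq_nat_or_neg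
  · exact tw_pos hL k (by
      rcases Nat.eq_zero_or_pos k with h0 | h0
      · exact absurd (by rw [h0]; rfl) hh
      · exact h0)
  · have hk : 0 < k := by
      rcases Nat.eq_zero_or_pos k with h0 | h0
      · exact absurd (by rw [h0]; rfl) hh
      · exact h0
    rw [← hL.shift_nat (tw_pair_bd (fun n => n) (fun n => n + -(k : ℤ))) k, ← tw_pos hL k hk]
    congr 1
    ext n
    have e : n + (k : ℤ) + -(k : ℤ) = n := by ring
    rw [e, mul_comm]

end Pool.Agent.Lib.TU2
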